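import Mathlib
import Pool.Agent.H234R3.CvxDefs

/-!
# The Lawson–Yau problem: definitions

Sectional curvature of a smooth Riemannian metric in the charts of the atlas, negatively curved
metrics, and the Lawson–Yau property in dimension `n`. Riemannian metrics (`RMetric`), their
coefficients in the charts (`chartCoeff`), Christoffel symbols (`IsChristoffel`) and harmonic maps
(`HarmonicInCharts`) are those of `Pool.Agent.H234R3.Defs` and `Pool.Agent.H234R3.CvxDefs`.
-/

set_option autoImplicit false

open scoped Manifold ContDiff Topology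
open Module

namespace Pool.Agent.Helper473.LY

open Pool.Agent.H234R3

section Local

variable {E : Type*} [NormedAddCommGroup E] [NormedSpace ℝ E]

/-- The curvature `R(a, b) c = ∇_a ∇_b c - ∇_b ∇_a c` (for constant vector fields `a`, `b`, `c`) at
the point `y` of the connection with the Christoffel symbols `Γ z a b = (∇_a b)(z)`. -/
noncomputable def riem (Γ : E → E → E → E) (y a b c : E) : E :=
  fderiv ℝ (fun z => Γ z b c) y a - fderiv ℝ (fun z => Γ z a c) y b
    + Γ y a (Γ y b c) - Γ y b (Γ y a c)

/-- The sectional curvature at `y` of the plane spanned by `a` and `b`, for the metric with the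
coefficients `g` and the Christoffel symbols `Γ`. -/
noncomputable def secCurv (g : E → E → E → ℝ) (Γ : E → E → E → E) (y a b : E) : ℝ :=
  g y (riem Γ y a b b) a / (g y a a * g y b b - g y a b ^ 2)

/-- All the sectional curvatures at the point `y` of the metric with the coefficients `g` (given
near `y`) are negative: `Γ` are the Christoffel symbols of its Levi-Civita connection near `y`. -/
def NegCurvAt (g : E → E → E → ℝ) (y : E) : Prop :=
  ∃ Γ : E → E → E → E, (∀ a b, DifferentiableAt ℝ (fun z => Γ z a b) y) ∧
    (∀ᶠ z in 𝓝 y, IsChristoffel g z (Γ z)) ∧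
    ∀ a b, LinearIndependent ℝ ![a, b] → secCurv g Γ y a b < 0

end Local

section Mfd

variable {E : Type*} [NormedAddCommGroup E] [NormedSpace ℝ E]
  {H : Type*} [TopologicalSpace H] {I : ModelWithCorners ℝ E H}
  {M : Type*} [TopologicalSpace M] [ChartedSpace H M] [IsManifold I ∞ M]

/-- The Riemannian metric `g` has negative sectional curvature: at every point and for every
tangent 2-plane, written in the charts of the atlas. -/
def NegCurved (g : RMetric I M) : Prop :=
  ∀ (x : M) (y : E), y ∈ (extChartAt I x).target → NegCurvAt (chartCoeff g x) y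

end Mfd

/-- The Lawson–Yau property in dimension `n`: for all closed (compact, connected, without boundary)
smooth Riemannian manifolds `N`, `M` of dimension `n` with negative sectional curvature and every
homotopy equivalence `f : N → M`, the harmonic map `u` homotopic to `f` is a diffeomorphism. (There
is exactly one harmonic map homotopic to `f`, by Eells–Sampson, Al'ber and Hartman.) -/
def LawsonYau (n : ℕ) : Prop :=
  ∀ (N M : Type) [TopologicalSpace N] [TopologicalSpace M]
    [ChartedSpace (EuclideanSpace ℝ (Fin n)) N] [ChartedSpace (EuclideanSpace ℝ (Fin n)) M]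
    [IsManifold (𝓡 n) ∞ N] [IsManifold (𝓡 n) ∞ M] [T2Space N] [T2Space M]
    [CompactSpace N] [CompactSpace M] [ConnectedSpace N] [ConnectedSpace M]
    (g : RMetric (𝓡 n) N) (h : RMetric (𝓡 n) M), NegCurved g → NegCurved h →
    ∀ (f : C(N, M)), (∃ e : ContinuousMap.HomotopyEquiv N M, e.toFun = f) →
    ∀ (u : C(N, M)), HarmonicInCharts g h u → ContinuousMap.Homotopic u f →
    ∃ Φ : N ≃ₘ^∞⟮𝓡 n, 𝓡 n⟯ M, ∀ x, Φ x = u x

/-- The weaker assertion in dimension `n`: the harmonic map `u` homotopic to the homotopy equivalence
`f` is injective. -/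
def LawsonYauInj (n : ℕ) : Prop :=
  ∀ (N M : Type) [TopologicalSpace N] [TopologicalSpace M]
    [ChartedSpace (EuclideanSpace ℝ (Fin n)) N] [ChartedSpace (EuclideanSpace ℝ (Fin n)) M]
    [IsManifold (𝓡 n) ∞ N] [IsManifold (𝓡 n) ∞ M] [T2Space N] [T2Space M]
    [CompactSpace N] [CompactSpace M] [ConnectedSpace N] [ConnectedSpace M]
    (g : RMetric (𝓡 n) N) (h : RMetric (𝓡 n) M), NegCurved g → NegCurved h →
    ∀ (f : C(N, M)), (∃ e : ContinuousMap.HomotopyEquiv N M, e.toFun = f) →
    ∀ (u : C(N, M)), HarmonicInCharts g h u → ContinuousMap.Homotopic u f →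
    Function.Injective u

theorem LawsonYau.inj {n : ℕ} (H : LawsonYau n) : LawsonYauInj n := by
  intro N M _ _ _ _ _ _ _ _ _ _ _ _ g h hg hh f hf u hu huf x y hxy
  obtain ⟨Φ, hΦ⟩ := H N M g h hg hh f hf u hu huf
  have e : Φ x = Φ y := by rw [hΦ, hΦ, hxy]
  exact Φ.injective e

end Pool.Agent.Helper473.LY
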