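import Mathlib
import Pool.Agent.Helper473.LY.Defs

/-!
# Lawson–Yau: local geometry, block metrics, hyperbolic space

Coefficients of metrics are functions `g : E → E → E → ℝ`, `g y u v` being the scalar product at `y`.
-/

set_option autoImplicit false

open scoped Manifold ContDiff Topology RealInnerProductSpace
open Module

namespace Pool.Agent.Helper473.LY

open Pool.Agent.H234R3

section Local

variable {E : Type*} [NormedAddCommGroup E] [NormedSpace ℝ E]

/-- `g` are the coefficients of a smooth Riemannian metric on the set `U` (bilinear and symmetric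
everywhere, positive definite and smooth on `U`). -/
structure IsMet (g : E → E → E → ℝ) (U : Set E) : Prop where
  add : ∀ y u u' v, g y (u + u') v = g y u v + g y u' v
  smul : ∀ y (c : ℝ) u v, g y (c • u) v = c * g y u v
  symm : ∀ y u v, g y u v = g y v u
  pos : ∀ y ∈ U, ∀ u, u ≠ 0 → 0 < g y u u
  smooth : ∀ u v, ContDiffOn ℝ ∞ (fun y => g y u v) U

/-- The numerators `R(a, b, b, a)` of all the sectional curvatures at `y` are negative. -/
def NegAt (g : E → E → E → ℝ) (y : E) : Prop :=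
  ∃ Γ : E → E → E → E, (∀ a b, DifferentiableAt ℝ (fun z => Γ z a b) y) ∧
    (∀ᶠ z in 𝓝 y, IsChristoffel g z (Γ z)) ∧
    ∀ a b, LinearIndependent ℝ ![a, b] → g y (riem Γ y a b b) a < 0

/-- `GoodAt C g x`: `C > 0`, the metric `g` has negative curvature at `x` and the Hessian of the
function `C` for the metric `g` is positive definite at `x`. -/
def GoodAt (C : E → ℝ) (g : E → E → E → ℝ) (x : E) : Prop :=
  0 < C x ∧ ∃ Γ : E → E → E → E, (∀ a b, DifferentiableAt ℝ (fun z => Γ z a b) x) ∧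
    (∀ᶠ z in 𝓝 x, IsChristoffel g z (Γ z)) ∧
    (∀ a b, LinearIndependent ℝ ![a, b] → g x (riem Γ x a b b) a < 0) ∧
    ∀ a, a ≠ 0 → 0 < dd C x a - der C x (Γ x a a)

end Local

/-- The plane. -/
abbrev W : Type := EuclideanSpace ℝ (Fin 2)

/-- The coordinate space of hyperbolic `d`-space. -/
abbrev V (d : ℕ) : Type := EuclideanSpace ℝ (Fin d)

/-- The coordinate space of the universal covers. -/
abbrev P (d : ℕ) : Type := V d × W

/-- The hyperbolic metric in the coordinates `ζ` of the hyperboloid `(√(1 + |ζ|²), ζ)`. -/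
noncomputable def hyp {X : Type*} [NormedAddCommGroup X] [InnerProductSpace ℝ X] (ζ a b : X) : ℝ :=
  ⟪a, b⟫ - ⟪ζ, a⟫ * ⟪ζ, b⟫ / (1 + ‖ζ‖ ^ 2)

/-- The block metric `C(x)² g_Σ + g₂(x)` on `H^d × (plane)`. -/
noncomputable def blk {d : ℕ} (C : W → ℝ) (g2 : W → W → W → ℝ) (p u v : P d) : ℝ :=
  C p.2 ^ 2 * hyp p.1 u.1 v.1 + g2 p.2 u.2 v.2

/-- The hyperbolic plane in Klein coordinates. -/
noncomputable def kl (Y a b : W) : ℝ :=
  ⟪a, b⟫ / (1 - ‖Y‖ ^ 2) + ⟪Y, a⟫ * ⟪Y, b⟫ / (1 - ‖Y‖ ^ 2) ^ 2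

/-- `C = √(1 + |v|²)`, so that `blk ch hyp` is hyperbolic `(d+2)`-space. -/
noncomputable def ch (v : W) : ℝ := √(1 + ‖v‖ ^ 2)

/-- Minkowski space. -/
abbrev L (d : ℕ) : Type := ℝ × V d × W

/-- The Lorentzian scalar product. -/
noncomputable def J {d : ℕ} (x y : L d) : ℝ := -(x.1 * y.1) + ⟪x.2.1, y.2.1⟫ + ⟪x.2.2, y.2.2⟫

/-- The parametrisation of the hyperboloid by `P d`. -/
noncomputable def iota {d : ℕ} (p : P d) : L d :=
  (√(1 + ‖p.2‖ ^ 2) * √(1 + ‖p.1‖ ^ 2), √(1 + ‖p.2‖ ^ 2) • p.1, p.2)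

/-- The inverse of `iota` on the hyperboloid. -/
noncomputable def piP {d : ℕ} (x : L d) : P d := ((√(1 + ‖x.2.2‖ ^ 2))⁻¹ • x.2.1, x.2.2)

/-- The action of a linear isometry of Minkowski space in the coordinates `P d`. -/
noncomputable def act {d : ℕ} (γ : L d ≃ₗ[ℝ] L d) (p : P d) : P d := piP (γ (iota p))

/-- The properties of the groups used: `Γ` is a group of linear isometries of Minkowski space which
preserves the upper sheet of the hyperboloid, acts on it properly discontinuously, freely and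
cocompactly, and the translates of the tube `‖p.2‖ < ρ` are pairwise equal or disjoint, the
stabiliser of the tube acting trivially on the last factor. -/
structure IsLattice {d : ℕ} (Γ : Subgroup (L d ≃ₗ[ℝ] L d)) (ρ : ℝ) : Prop where
  isom : ∀ γ ∈ Γ, ∀ x y, J (γ x) (γ y) = J x y
  up : ∀ γ ∈ Γ, ∀ p, 0 < (γ (iota p)).1
  disc : ∀ R : ℝ, {γ : L d ≃ₗ[ℝ] L d | γ ∈ Γ ∧ ∃ p, (iota p).1 ≤ R ∧ (γ (iota p)).1 ≤ R}.Finite
  free : ∀ γ ∈ Γ, ∀ p, γ (iota p) = iota p → γ = 1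
  cocpt : ∃ R : ℝ, ∀ p, ∃ γ ∈ Γ, (γ (iota p)).1 ≤ R
  tube : ∀ γ ∈ Γ, ∀ p, ‖p.2‖ < ρ → ‖(γ (iota p)).2.2‖ < ρ → ∀ w : W, γ (0, 0, w) = (0, 0, w)

/-- The functions on the cross-section which produce the metrics and the map in a tube (in the
coordinates `v` with `|v| = sinh s`): `blk C g2` is the metric of the source, `blk c hyp` that of the
target, and the map is `(ζ, v) ↦ (ζ, f v)`. -/
structure IsTube (d : ℕ) (C : W → ℝ) (g2 : W → W → W → ℝ) (c : W → ℝ) (f : W → W) : Prop where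
  C_smooth : ContDiff ℝ ∞ C
  C_pos : ∀ v, 0 < C v
  g2_met : IsMet g2 Set.univ
  c_smooth : ContDiff ℝ ∞ c
  c_pos : ∀ v, 0 < c v
  f_smooth : ContDiff ℝ ∞ f
  C_out : ∀ v : W, 18 ≤ ‖v‖ → C v = ch v
  g2_out : ∀ v : W, 18 ≤ ‖v‖ → ∀ a b, g2 v a b = hyp v a b
  c_out : ∀ v : W, 18 ≤ ‖v‖ → c v = ch v
  f_out : ∀ v : W, 18 ≤ ‖v‖ → f v = v
  f_in : ∀ v : W, ‖v‖ < 18 → ‖f v‖ < 18
  neg_src : ∀ p : P d, NegAt (blk (d := d) C g2) p
  neg_tgt : ∀ p : P d, NegAt (blk (d := d) c hyp) p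
  harm : ∀ p : P d, TensionZeroAt (blk (d := d) C g2) (blk (d := d) c hyp) (fun q => (q.1, f q.2)) p
  fold : ∃ v v' : W, v ≠ v' ∧ f v = f v'

end Pool.Agent.Helper473.LY
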