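import Mathlib
import Pool.Agent.Helper473.LY.Geo

/-!
# Lawson–Yau: the explicit functions on the cross-section

`d ≥ 1` is the dimension of the totally geodesic submanifold, `ε` the waist parameter, `s` the
amplitude of the perturbation, `r` the scale; `y = ‖x‖²`.
-/

set_option autoImplicit false

open scoped Manifold ContDiff Topology RealInnerProductSpace
open Module

namespace Pool.Agent.Helper473.LY

open Pool.Agent.H234R3

/-! ### Rational functions -/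

/-- The denominator `A`. -/
def Af (d ε y : ℝ) : ℝ := 4 * y * (ε + y) * (1 + y) + 4 * d * (1 + 2 * y) * ε ^ 2

/-- The denominator `B`. -/
def Bf (d ε y : ℝ) : ℝ := Af d ε y + 4 * d * (1 + 2 * y) * (4 * y * (ε + y))

/-- The numerator of `Mf`. -/
def Nf (d ε y : ℝ) : ℝ :=
  4 * d * (1 + 2 * y) ^ 2 * (16 * y * (ε + y) ^ 2 + 8 * ε ^ 2 * (ε + 2 * y))
    + 32 * y ^ 2 * (ε + y) ^ 2

/-- The function `N / y`, where `N = (log V)' = 2 y (log V)_y`. -/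
noncomputable def Mf (d ε y : ℝ) : ℝ := 4 * d * Nf d ε y / (Af d ε y * Bf d ε y)

/-- The function `γ / y`, where `γ = (log z)' = 2 y (log z)_y`. -/
noncomputable def Gf (d ε y : ℝ) : ℝ := 4 * d * (1 + 2 * y) * (4 * (ε + y)) / Bf d ε y

/-- The function `b = a + (1/2) (log N)'`, `a = N / d`. -/
noncomputable def bf (d ε y : ℝ) : ℝ :=
  y * Mf d ε y / d + 1 + y * deriv (Mf d ε) y / Mf d ε y

/-- `log V`. -/
noncomputable def lV (d ε y : ℝ) : ℝ := ∫ t in (1:ℝ)..y, Mf d ε t / 2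

/-- The radial solution `s exp(∫ γ / 2t)`. -/
noncomputable def zh (d ε s y : ℝ) : ℝ := s * Real.exp (∫ t in (1:ℝ)..y, Gf d ε t / 2)

/-- The first cut-off: `1` for `y ≤ 1`, `0` for `y ≥ 2`. -/
noncomputable def chi1 (y : ℝ) : ℝ := Real.smoothTransition (2 - y)

/-- The second cut-off: `0` for `y ≤ 5/2`, `1` for `y ≥ 3`. -/
noncomputable def chi2 (y : ℝ) : ℝ := Real.smoothTransition (2 * y - 5)

/-- The perturbation. -/
noncomputable def zc (d ε s y : ℝ) : ℝ := chi1 y * zh d ε s y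

/-! ### The inner metric, for general radial functions `M`, `lV`, `z`, `χ` -/

/-- The first basis vector of the plane. -/
noncomputable def e0 : W := EuclideanSpace.single 0 1

/-- The rotation by a right angle. -/
noncomputable def perp (x : W) : W := !₂[-(x 1), x 0]

/-- `z'' + N (z' - z)` with `' = 2 y d/dy`, `N = y M`. -/
noncomputable def EEf (M z : ℝ → ℝ) (y : ℝ) : ℝ :=
  4 * (y * deriv z y + y ^ 2 * deriv (deriv z) y) + y * M y * (2 * y * deriv z y - z y)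

/-- The function `ν`. -/
noncomputable def nuf (M z : ℝ → ℝ) (x : W) : ℝ :=
  -(EEf M z (‖x‖ ^ 2) * x 0) / (‖x‖ ^ 2 + z (‖x‖ ^ 2) * x 0)

/-- `κ_r / y`. -/
noncomputable def krf (r : ℝ) (M χ : ℝ → ℝ) (y : ℝ) : ℝ :=
  -(8 * r) / (1 + r * y) ^ 2 +
    (M y + 4 * r / (1 + r * y) - 4 * deriv (fun t => χ t * Real.log (1 - r * t)) y) *
      ((1 - r * y) / (1 + r * y))

/-- `κ / y`. -/
noncomputable def kf (r : ℝ) (M z χ : ℝ → ℝ) (x : W) : ℝ :=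
  krf r M χ (‖x‖ ^ 2) - nuf M z x * (2 * ‖x‖ ^ 2 + z (‖x‖ ^ 2) * x 0) /
    (‖x‖ ^ 2 * (‖x‖ ^ 2 + z (‖x‖ ^ 2) * x 0))

/-- `|Y|²`. -/
noncomputable def Y2f (r : ℝ) (z : ℝ → ℝ) (x : W) : ℝ :=
  4 * r * ‖x + z (‖x‖ ^ 2) • e0‖ ^ 2 / (1 + r * ‖x‖ ^ 2) ^ 2

/-- The map `Y` (Klein coordinates on the target). -/
noncomputable def Yf (r : ℝ) (z : ℝ → ℝ) (x : W) : W :=
  (2 * √r / (1 + r * ‖x‖ ^ 2)) • (x + z (‖x‖ ^ 2) • e0)

/-- The function `C`. -/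
noncomputable def Cf (d r : ℝ) (M lV z χ : ℝ → ℝ) (x : W) : ℝ :=
  Real.exp ((Real.log (1 - Y2f r z x) + lV (‖x‖ ^ 2) + 2 * Real.log (1 + r * ‖x‖ ^ 2)
    - 2 * χ (‖x‖ ^ 2) * Real.log (1 - r * ‖x‖ ^ 2) + Real.log (1 + nuf M z x) / 2) / d)

/-- The metric `g₂`. -/
noncomputable def gf (d r : ℝ) (M lV z χ : ℝ → ℝ) (x a b : W) : ℝ :=
  Cf d r M lV z χ x ^ 2 * kf r M z χ x / √(1 - Y2f r z x) *
    (⟪a, b⟫ - nuf M z x / ((1 + nuf M z x) * ‖x‖ ^ 2) * (⟪perp x, a⟫ * ⟪perp x, b⟫))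

/-- The inner `C`, with the explicit radial functions. -/
noncomputable def Cin (d s ε r : ℝ) (x : W) : ℝ :=
  Cf d r (Mf d ε) (lV d ε) (zc d ε s) chi2 x

/-- The inner `g₂`, with the explicit radial functions. -/
noncomputable def gin (d s ε r : ℝ) (x a b : W) : ℝ :=
  gf d r (Mf d ε) (lV d ε) (zc d ε s) chi2 x a b

/-- The set of parameters and points where the inner functions are smooth and positive. -/
def OKin (d s ε r : ℝ) (x : W) : Prop :=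
  -1 < r * ‖x‖ ^ 2 ∧ r * ‖x‖ ^ 2 < 1 ∧ Y2f r (zc d ε s) x < 1 ∧
    0 < Af d ε (‖x‖ ^ 2) ∧ 0 < Bf d ε (‖x‖ ^ 2) ∧ 0 < Nf d ε (‖x‖ ^ 2) ∧
    0 < 1 + nuf (Mf d ε) (zc d ε s) x ∧ 0 < kf r (Mf d ε) (zc d ε s) chi2 x ∧
    (‖x‖ ^ 2 < 1 ∨ 0 < ‖x‖ ^ 2 + zc d ε s (‖x‖ ^ 2) * x 0)

end Pool.Agent.Helper473.LY
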