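import Mathlib
import Pool.Agent.Helper473.LY.Fam

/-!
# Lawson–Yau: the tasks. Each task `X` is: prove `theorem t_X : S_X`.
-/

set_option autoImplicit false

open scoped Manifold ContDiff Topology RealInnerProductSpace
open Module

namespace Pool.Agent.Helper473.LY

open Pool.Agent.H234R3

/-! ### Group A: change of coordinates -/

/-- Negative curvature is invariant under change of coordinates. -/
def S_N1 : Prop := ∀ (E E' : Type) [NormedAddCommGroup E] [NormedSpace ℝ E] [FiniteDimensional ℝ E]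
  [NormedAddCommGroup E'] [NormedSpace ℝ E'] [FiniteDimensional ℝ E']
  (g : E → E → E → ℝ) (g' : E' → E' → E' → ℝ) (U' : Set E') (φ : E → E') (y : E),
  IsOpen U' → IsMet g' U' → φ y ∈ U' → ContDiffAt ℝ ∞ φ y → Function.Bijective (fderiv ℝ φ y) →
  (∀ᶠ z in 𝓝 y, ∀ a b, g z a b = g' (φ z) (fderiv ℝ φ z a) (fderiv ℝ φ z b)) →
  NegAt g' (φ y) → NegAt g y

/-- Vanishing of the tension field is invariant under changes of coordinates. -/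
def S_N2 : Prop := ∀ (E1 E2 F1 F2 : Type)
  [NormedAddCommGroup E1] [NormedSpace ℝ E1] [FiniteDimensional ℝ E1]
  [NormedAddCommGroup E2] [NormedSpace ℝ E2] [FiniteDimensional ℝ E2]
  [NormedAddCommGroup F1] [NormedSpace ℝ F1] [FiniteDimensional ℝ F1]
  [NormedAddCommGroup F2] [NormedSpace ℝ F2] [FiniteDimensional ℝ F2]
  (g1 : E1 → E1 → E1 → ℝ) (g2 : E2 → E2 → E2 → ℝ) (h1 : F1 → F1 → F1 → ℝ) (h2 : F2 → F2 → F2 → ℝ)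
  (A : Set E2) (B : Set F2) (φ : E1 → E2) (ψ : F1 → F2) (U1 : E1 → F1) (U2 : E2 → F2) (y : E1),
  IsOpen A → IsOpen B → IsMet g2 A → IsMet h2 B → φ y ∈ A → ψ (U1 y) ∈ B →
  ContDiffAt ℝ ∞ φ y → Function.Bijective (fderiv ℝ φ y) →
  ContDiffAt ℝ ∞ ψ (U1 y) → Function.Bijective (fderiv ℝ ψ (U1 y)) →
  ContDiffAt ℝ ∞ U1 y → ContDiffAt ℝ ∞ U2 (φ y) →
  (∀ᶠ z in 𝓝 y, ψ (U1 z) = U2 (φ z)) →
  (∀ᶠ z in 𝓝 y, ∀ a b, g1 z a b = g2 (φ z) (fderiv ℝ φ z a) (fderiv ℝ φ z b)) →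
  (∀ᶠ z in 𝓝 (U1 y), ∀ a b, h1 z a b = h2 (ψ z) (fderiv ℝ ψ z a) (fderiv ℝ ψ z b)) →
  TensionZeroAt g2 h2 U2 (φ y) → TensionZeroAt g1 h1 U1 y

/-! ### Group B: from the universal cover to closed manifolds -/

/-- A counterexample from invariant data on the universal cover. -/
def S_B : Prop := S_N1 → S_N2 → ∀ (n : ℕ) (Q : Type) [NormedAddCommGroup Q] [NormedSpace ℝ Q]
  [FiniteDimensional ℝ Q] (Γ : Type) [Group Γ] [MulAction Γ Q],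
  finrank ℝ Q = n →
  (∀ γ : Γ, ContDiff ℝ ∞ (fun x : Q => γ • x)) →
  (∀ K : Set Q, IsCompact K → {γ : Γ | ∃ x : Q, x ∈ K ∧ γ • x ∈ K}.Finite) →
  (∀ (γ : Γ) (x : Q), γ • x = x → γ = 1) →
  (∃ K : Set Q, IsCompact K ∧ ∀ x : Q, ∃ γ : Γ, γ • x ∈ K) →
  ∀ (g h : Q → Q → Q → ℝ) (F : Q → Q) (H : ℝ × Q → Q),
  IsMet g Set.univ → IsMet h Set.univ →
  (∀ (γ : Γ) (x a b : Q), g (γ • x) (fderiv ℝ (fun z => γ • z) x a) (fderiv ℝ (fun z => γ • z) x b)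
    = g x a b) →
  (∀ (γ : Γ) (x a b : Q), h (γ • x) (fderiv ℝ (fun z => γ • z) x a) (fderiv ℝ (fun z => γ • z) x b)
    = h x a b) →
  (∀ x, NegAt g x) → (∀ x, NegAt h x) →
  ContDiff ℝ ∞ F → (∀ (γ : Γ) x, F (γ • x) = γ • F x) → (∀ x, TensionZeroAt g h F x) →
  Continuous H → (∀ (γ : Γ) t x, H (t, γ • x) = γ • H (t, x)) → (∀ x, H (0, x) = F x) →
  (∀ x, H (1, x) = x) →
  (∃ p q, F p = F q ∧ ∀ γ : Γ, γ • p ≠ q) → ¬ LawsonYauInj n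

/-! ### Group C: curvature -/

/-- Hyperbolic space has negative curvature, and its coefficients are a metric. -/
def S_HYP : Prop := ∀ (X : Type) [NormedAddCommGroup X] [InnerProductSpace ℝ X]
  [FiniteDimensional ℝ X], IsMet (hyp (X := X)) Set.univ ∧ ∀ x : X, NegAt (hyp (X := X)) x

/-- Block metrics are metrics. -/
def S_BMET : Prop := S_HYP → ∀ (d : ℕ) (C : W → ℝ) (g2 : W → W → W → ℝ) (U : Set W), IsOpen U → IsMet g2 U →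
  ContDiffOn ℝ ∞ C U → (∀ x ∈ U, 0 < C x) → IsMet (blk (d := d) C g2) {p | p.2 ∈ U}

/-- The curvature of block metrics. -/
def S_CRV : Prop := S_HYP → ∀ (d : ℕ) (C : W → ℝ) (g2 : W → W → W → ℝ) (U : Set W) (p : P d),
  IsOpen U → p.2 ∈ U → IsMet g2 U → ContDiffOn ℝ ∞ C U → GoodAt C g2 p.2 →
  NegAt (blk (d := d) C g2) p

/-- The condition `GoodAt` for radial conformal metrics. -/
def S_RAD : Prop := ∀ (C : W → ℝ) (g : W → W → W → ℝ) (c Λ : ℝ → ℝ) (x : W),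
  (∀ᶠ z in 𝓝 x, C z = c (‖z‖ ^ 2)) → (∀ᶠ z in 𝓝 x, ∀ a b, g z a b = Λ (‖z‖ ^ 2) * ⟪a, b⟫) →
  ContDiffAt ℝ ∞ c (‖x‖ ^ 2) → ContDiffAt ℝ ∞ Λ (‖x‖ ^ 2) → 0 < c (‖x‖ ^ 2) → 0 < Λ (‖x‖ ^ 2) →
  0 < deriv (fun t => t * deriv Λ t / Λ t) (‖x‖ ^ 2) →
  0 < deriv c (‖x‖ ^ 2) → 0 < 1 + ‖x‖ ^ 2 * deriv Λ (‖x‖ ^ 2) / Λ (‖x‖ ^ 2) →
  0 < deriv c (‖x‖ ^ 2) + 2 * ‖x‖ ^ 2 * deriv (deriv c) (‖x‖ ^ 2)
    - ‖x‖ ^ 2 * deriv Λ (‖x‖ ^ 2) / Λ (‖x‖ ^ 2) * deriv c (‖x‖ ^ 2) →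
  GoodAt C g x

/-- `GoodAt` is an open condition in smooth families. -/
def S_OPEN : Prop := ∀ (Q : Type) [NormedAddCommGroup Q] [NormedSpace ℝ Q] [FiniteDimensional ℝ Q]
  (Ω : Set (Q × W)) (C : Q → W → ℝ) (g : Q → W → W → W → ℝ), IsOpen Ω →
  ContDiffOn ℝ ∞ (fun z : Q × W => C z.1 z.2) Ω →
  (∀ a b, ContDiffOn ℝ ∞ (fun z : Q × W => g z.1 z.2 a b) Ω) →
  (∀ q y u u' v, g q y (u + u') v = g q y u v + g q y u' v) →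
  (∀ q y (c : ℝ) u v, g q y (c • u) v = c * g q y u v) →
  (∀ q y u v, g q y u v = g q y v u) →
  (∀ z ∈ Ω, ∀ u, u ≠ 0 → 0 < g z.1 z.2 u u) →
  IsOpen {z | z ∈ Ω ∧ GoodAt (C z.1) (g z.1) z.2}

/-- `GoodAt` does not change when `C` and `g` are multiplied by positive constants. -/
def S_SCALE : Prop := ∀ (C : W → ℝ) (g : W → W → W → ℝ) (x : W) (a b : ℝ), 0 < a → 0 < b →
  (∀ᶠ z in 𝓝 x, DifferentiableAt ℝ C z) → GoodAt C g x →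
  GoodAt (fun z => a * C z) (fun z u v => b * g z u v) x

/-! ### Group D: harmonicity -/

/-- The tension field of `(ζ, x) ↦ (ζ, Y x)` between block metrics, reduced to the plane: `G`, `G'`
are the gradients of `C` and `c`. -/
def S_TEN : Prop := S_HYP → ∀ (d : ℕ) (C c : W → ℝ) (g2 h2 : W → W → W → ℝ) (U U' : Set W) (Y : W → W)
  (p : P d) (Γ Γ' : W → W → W) (e : Basis (Fin 2) ℝ W) (G G' : W),
  IsOpen U → IsOpen U' → p.2 ∈ U → Y p.2 ∈ U' → IsMet g2 U → IsMet h2 U' →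
  ContDiffOn ℝ ∞ C U → ContDiffOn ℝ ∞ c U' → (∀ x ∈ U, 0 < C x) → (∀ x ∈ U', 0 < c x) →
  ContDiffOn ℝ ∞ Y U →
  IsChristoffel g2 p.2 Γ → IsChristoffel h2 (Y p.2) Γ' →
  (∀ i j, g2 p.2 (e i) (e j) = if i = j then 1 else 0) →
  (∀ a, g2 p.2 G a = fderiv ℝ C p.2 a) → (∀ a, h2 (Y p.2) G' a = fderiv ℝ c (Y p.2) a) →
  (∑ i, nablaD Γ Γ' Y p.2 (e i)) + (d / C p.2 : ℝ) • fderiv ℝ Y p.2 G
    - (d * c (Y p.2) / C p.2 ^ 2 : ℝ) • G' = 0 →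
  TensionZeroAt (blk (d := d) C g2) (blk (d := d) c h2) (fun q => (q.1, Y q.2)) p

/-- The identity map between block metrics with conformal cross-sections. -/
def S_IDC : Prop := S_HYP → S_TEN → ∀ (d : ℕ) (C c Λ Λ' : W → ℝ) (U : Set W) (p : P d),
  IsOpen U → p.2 ∈ U → ContDiffOn ℝ ∞ C U → ContDiffOn ℝ ∞ c U → ContDiffOn ℝ ∞ Λ U →
  ContDiffOn ℝ ∞ Λ' U → (∀ x ∈ U, 0 < C x) → (∀ x ∈ U, 0 < c x) → (∀ x ∈ U, 0 < Λ x) →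
  (∀ x ∈ U, 0 < Λ' x) →
  (∀ a, fderiv ℝ (fun z => c z ^ 2) p.2 a / Λ' p.2 = fderiv ℝ (fun z => C z ^ 2) p.2 a / Λ p.2) →
  TensionZeroAt (blk (d := d) C fun z a b => Λ z * ⟪a, b⟫) (blk (d := d) c fun z a b => Λ' z * ⟪a, b⟫)
    (fun q => q) p

/-- The linearised equation: a map to a block metric over the hyperbolic plane in Klein
coordinates is harmonic when its components satisfy the linear equation `div (T ∇ Y_j) = μ Y_j`.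
`a11, a12, a22` are the coefficients of `g2`, `T = C^d √det g2 g2⁻¹ / (1 - |Y|²)`. -/
def S_KLEIN : Prop := S_HYP → S_TEN → ∀ (d : ℕ) (C c : W → ℝ) (g2 : W → W → W → ℝ) (U U' : Set W) (Y : W → W)
  (p : P d) (w0 k1 : ℝ) (D T11 T12 T22 : W → ℝ),
  1 ≤ d → IsOpen U → IsOpen U' → p.2 ∈ U → Y p.2 ∈ U' → IsMet g2 U →
  ContDiffOn ℝ ∞ C U → ContDiffOn ℝ ∞ c U' → (∀ x ∈ U, 0 < C x) → (∀ x ∈ U', 0 < c x) →
  ContDiffOn ℝ ∞ Y U → (∀ x ∈ U', ‖x‖ < 1) → (∀ x ∈ U, Y x ∈ U') →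
  (∀ x ∈ U', c x ^ 2 = w0 + k1 * (1 / √(1 - ‖x‖ ^ 2) - 1)) →
  (∀ x ∈ U, D x = √(g2 x e0 e0 * g2 x (perp e0) (perp e0) - g2 x e0 (perp e0) ^ 2)) →
  (∀ x ∈ U, T11 x = C x ^ d * g2 x (perp e0) (perp e0) / (D x * (1 - ‖Y x‖ ^ 2))) →
  (∀ x ∈ U, T12 x = -(C x ^ d * g2 x e0 (perp e0)) / (D x * (1 - ‖Y x‖ ^ 2))) →
  (∀ x ∈ U, T22 x = C x ^ d * g2 x e0 e0 / (D x * (1 - ‖Y x‖ ^ 2))) →
  (∀ j : Fin 2,
    fderiv ℝ (fun x => T11 x * fderiv ℝ (fun z => Y z j) x e0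
      + T12 x * fderiv ℝ (fun z => Y z j) x (perp e0)) p.2 e0
    + fderiv ℝ (fun x => T12 x * fderiv ℝ (fun z => Y z j) x e0
      + T22 x * fderiv ℝ (fun z => Y z j) x (perp e0)) p.2 (perp e0)
    = (d / 2 * k1 * C p.2 ^ d / C p.2 ^ 2 * D p.2 / √(1 - ‖Y p.2‖ ^ 2)) * Y p.2 j) →
  TensionZeroAt (blk (d := d) C g2) (blk (d := d) c kl) (fun q => (q.1, Y q.2)) p

/-- The inner map is harmonic, for general radial functions. -/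
def S_INHARM : Prop := S_HYP → S_TEN → S_KLEIN → ∀ (d : ℕ) (r : ℝ) (M l z χ : ℝ → ℝ) (U : Set W) (U' : Set W)
  (c : W → ℝ) (cs kk w0 : ℝ) (p : P d),
  1 ≤ d → 0 < r → 0 < cs → 0 < kk → IsOpen U → p.2 ∈ U →
  (∀ x ∈ U, ContDiffAt ℝ ∞ M (‖x‖ ^ 2) ∧ ContDiffAt ℝ ∞ l (‖x‖ ^ 2) ∧
    ContDiffAt ℝ ∞ z (‖x‖ ^ 2) ∧ ContDiffAt ℝ ∞ χ (‖x‖ ^ 2) ∧
    (∀ᶠ t in 𝓝 (‖x‖ ^ 2), deriv l t = M t / 2) ∧
    ((∀ᶠ t in 𝓝 (‖x‖ ^ 2), z t = 0) ∨ (∀ᶠ t in 𝓝 (‖x‖ ^ 2), χ t = 0)) ∧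
    r * ‖x‖ ^ 2 < 1 ∧ Y2f r z x < 1 ∧ 0 < 1 + nuf M z x ∧ 0 < kf r M z χ x ∧
    ((∀ᶠ t in 𝓝 (‖x‖ ^ 2), EEf M z t = 0) ∨ 0 < ‖x‖ ^ 2 + z (‖x‖ ^ 2) * x 0)) →
  IsOpen U' → (∀ x ∈ U, Yf r z x ∈ U') → ContDiffOn ℝ ∞ c U' → (∀ x ∈ U', 0 < c x) →
  (∀ x ∈ U', ‖x‖ < 1) →
  (∀ x ∈ U', c x ^ 2 = w0 + 2 / (d * kk) * (1 / √(1 - ‖x‖ ^ 2) - 1)) →
  TensionZeroAt (blk (d := d) (fun x => cs * Cf d r M l z χ x)
      (fun x a b => kk * cs ^ 2 * gf d r M l z χ x a b))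
    (blk (d := d) c kl) (fun q => (q.1, Yf r z q.2)) p

/-! ### Group G: the explicit functions -/

/-- Facts on the rational functions. -/
def S_POLY : Prop := ∀ (n : ℕ) (ε y : ℝ), 1 ≤ n → 0 ≤ ε → 0 ≤ y → 0 < ε + y →
  0 < Af n ε y ∧ 0 < Bf n ε y ∧ 0 < Nf n ε y ∧
  0 < deriv (bf n ε) y ∧ bf n ε y < 8 ∧ 1 ≤ bf n ε y ∧
  0 < deriv (fun t => t * Mf n ε t) y ∧ y * Mf n ε y ≤ 8 * n ∧
  2 * (Gf n ε y + y * deriv (Gf n ε) y) + y * Gf n ε y ^ 2 = Mf n ε y * (1 - y * Gf n ε y) ∧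
  1 / (1 + 8 * (n:ℝ)) ≤ 1 - y * Gf n ε y ∧ (0 < ε → 8 / 11 ≤ ε * Gf n ε ε)

/-- Smoothness in `(ε, y)` of the logarithm of `V` and of the radial solution, on the region where
`A`, `B`, `N` are positive on the segment from `1` to `y`. -/
def S_SM : Prop := ∀ (n : ℕ) (ε y : ℝ), 1 ≤ n → 0 ≤ ε → 0 ≤ y → 0 < ε + y →
  ContDiffAt ℝ ∞ (fun q : ℝ × ℝ => Mf n q.1 q.2) (ε, y) ∧
  ContDiffAt ℝ ∞ (fun q : ℝ × ℝ => Gf n q.1 q.2) (ε, y) ∧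
  ContDiffAt ℝ ∞ (fun q : ℝ × ℝ => lV n q.1 q.2) (ε, y) ∧
  ContDiffAt ℝ ∞ (fun q : ℝ × ℝ × ℝ => zh n q.1 q.2.1 q.2.2) (ε, 0, y) ∧
  (∀ s : ℝ, ContDiffAt ℝ ∞ (fun q : ℝ × ℝ × ℝ => zh n q.1 q.2.1 q.2.2) (ε, s, y)) ∧
  deriv (lV n ε) y = Mf n ε y / 2 ∧
  ∀ s : ℝ, deriv (zh n ε s) y = Gf n ε y / 2 * zh n ε s y

/-- The inner metrics are good. -/
def S_INGOOD : Prop := S_POLY → S_SM → S_RAD → S_OPEN → ∀ n : ℕ, 1 ≤ n →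
  ∃ s ε r1 : ℝ, 0 < s ∧ 0 < ε ∧ ε ≤ 1 ∧ 0 < r1 ∧ r1 < 1 / 10 ∧
    (∃ t : ℝ, |t| < 1 ∧ ∀ r : ℝ, 0 ≤ r → r < r1 →
      deriv (fun t => (t + zc n ε s (t ^ 2)) / (1 + r * t ^ 2)) t < 0) ∧
    ∀ r : ℝ, 0 < r → r < r1 → ∀ x : W, ‖x‖ ^ 2 < 5 →
      OKin n s ε r x ∧ GoodAt (Cin n s ε r) (gin n s ε r) x ∧
      Y2f r (zc n ε s) x < 1 / 2

/-- The outer radial functions. `X = (1 + r y) / (1 - r y)`. -/
def S_OUT : Prop := S_POLY → S_SM → ∀ (n : ℕ) (ε : ℝ), 1 ≤ n → 0 < ε → ε ≤ 1 →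
  ∃ r2 : ℝ, 0 < r2 ∧ ∀ r : ℝ, 0 < r → r < r2 → 5 * r < 1 ∧ (1 + 5 * r) / (1 - 5 * r) < 16 ∧
    ∃ (Co Lo Wt : ℝ → ℝ) (cs kk w0 : ℝ), 0 < cs ∧ 0 < kk ∧ 0 < w0 ∧
      ContDiffOn ℝ ∞ Co (Set.Ioo 0 (1 / r)) ∧ ContDiffOn ℝ ∞ Lo (Set.Ioo 0 (1 / r)) ∧
      (∀ y ∈ Set.Ioo 0 (1 / r), 0 < Co y ∧ 0 < Lo y) ∧
      (∀ y ∈ Set.Ioo (0:ℝ) 5, Co y = cs * Real.exp (lV n ε y / n) ∧
        Lo y = kk * Co y ^ 2 * Mf n ε y) ∧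
      (∀ y ∈ Set.Ioo 0 (1 / r), 18 ≤ (1 + r * y) / (1 - r * y) →
        Co y = (1 + r * y) / (1 - r * y) ∧ Lo y = 4 * r / (1 - r * y) ^ 2) ∧
      (∀ y ∈ Set.Ioo 0 (1 / r),
        0 < deriv (fun t => t * deriv Lo t / Lo t) y ∧ 0 < deriv Co y ∧
        0 < 1 + y * deriv Lo y / Lo y ∧
        0 < deriv Co y + 2 * y * deriv (deriv Co) y - y * deriv Lo y / Lo y * deriv Co y) ∧
      ContDiff ℝ ∞ Wt ∧ (∀ X : ℝ, X ≤ 16 → Wt X = w0 + 2 / (n * kk) * (X - 1)) ∧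
      (∀ X : ℝ, 18 ≤ X → Wt X = X ^ 2) ∧ (∀ X : ℝ, 1 ≤ X → 0 < Wt X ∧ 0 < deriv Wt X ∧
        0 < X + (X ^ 2 - 1) * (deriv (deriv Wt) X / deriv Wt X)
          - (X ^ 2 - 1) * deriv Wt X / (2 * Wt X)) ∧
      ∀ y ∈ Set.Ioo 0 (1 / r),
        deriv (fun t => Wt ((1 + r * t) / (1 - r * t))) y / (4 * r / (1 - r * y) ^ 2)
          = deriv (fun t => Co t ^ 2) y / Lo y

/-- The target metric has negative curvature. -/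
def S_TGT : Prop := S_N1 → S_HYP → S_BMET → S_CRV → S_RAD → ∀ (d : ℕ) (Wt : ℝ → ℝ), ContDiff ℝ ∞ Wt →
  (∀ X : ℝ, 1 ≤ X → 0 < Wt X ∧ 0 < deriv Wt X ∧
        0 < X + (X ^ 2 - 1) * (deriv (deriv Wt) X / deriv Wt X)
          - (X ^ 2 - 1) * deriv Wt X / (2 * Wt X)) →
  ∀ p : P d, NegAt (blk (d := d) (fun v => √(Wt (ch v))) hyp) p

/-- The functions on the cross-section. -/
def S_TUBE : Prop := S_N1 → S_N2 → S_HYP → S_BMET → S_CRV → S_RAD → S_SCALE → S_TEN → S_IDC →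
  S_KLEIN → S_INHARM → S_POLY → S_SM → S_INGOOD → S_OUT → S_TGT → S_OPEN → ∀ d : ℕ, 1 ≤ d →
  ∃ (C : W → ℝ) (g2 : W → W → W → ℝ) (c : W → ℝ) (f : W → W), IsTube d C g2 c f

/-! ### Group F: gluing -/

/-- From a lattice and a tube to invariant data on the universal cover. -/
def S_GLUE : Prop := S_N1 → S_N2 → S_HYP → S_BMET → ∀ (d : ℕ) (Γ : Subgroup (L d ≃ₗ[ℝ] L d))
  (C : W → ℝ) (g2 : W → W → W → ℝ) (c : W → ℝ) (f : W → W), 1 ≤ d → IsLattice Γ 19 →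
  IsTube d C g2 c f →
  ∃ (g h : P d → P d → P d → ℝ) (F : P d → P d),
  IsMet g Set.univ ∧ IsMet h Set.univ ∧
  (∀ γ ∈ Γ, ∀ x a b, g (act γ x) (fderiv ℝ (act γ) x a) (fderiv ℝ (act γ) x b) = g x a b) ∧
  (∀ γ ∈ Γ, ∀ x a b, h (act γ x) (fderiv ℝ (act γ) x a) (fderiv ℝ (act γ) x b) = h x a b) ∧
  (∀ x, NegAt g x) ∧ (∀ x, NegAt h x) ∧ ContDiff ℝ ∞ F ∧ (∀ γ ∈ Γ, ∀ x, F (act γ x) = act γ (F x)) ∧
  (∀ x, TensionZeroAt g h F x) ∧ ∃ p q, F p = F q ∧ ∀ γ ∈ Γ, act γ p ≠ q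

/-- The action of a lattice on the coordinate space: it is a smooth, free, properly discontinuous and
cocompact action, and every equivariant continuous map is equivariantly homotopic to the identity. -/
def S_ACT : Prop := ∀ (d : ℕ) (Γ : Subgroup (L d ≃ₗ[ℝ] L d)) (ρ : ℝ), IsLattice Γ ρ →
  (∀ p : P d, act (1 : L d ≃ₗ[ℝ] L d) p = p) ∧
  (∀ γ ∈ Γ, ∀ δ ∈ Γ, ∀ p, act (γ * δ) p = act γ (act δ p)) ∧
  (∀ γ ∈ Γ, ContDiff ℝ ∞ (act γ)) ∧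
  (∀ K : Set (P d), IsCompact K → {γ : L d ≃ₗ[ℝ] L d | γ ∈ Γ ∧ ∃ x ∈ K, act γ x ∈ K}.Finite) ∧
  (∀ γ ∈ Γ, ∀ p, act γ p = p → γ = 1) ∧
  (∃ K : Set (P d), IsCompact K ∧ ∀ x, ∃ γ ∈ Γ, act γ x ∈ K) ∧
  ∀ F : P d → P d, Continuous F → (∀ γ ∈ Γ, ∀ x, F (act γ x) = act γ (F x)) →
    ∃ H : ℝ × P d → P d, Continuous H ∧ (∀ γ ∈ Γ, ∀ t x, H (t, act γ x) = act γ (H (t, x))) ∧
      (∀ x, H (0, x) = F x) ∧ ∀ x, H (1, x) = x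

/-! ### Group E: arithmetic -/

/-- Hermite reduction: positive definite integral lattices with bounded determinant and bounded
below minimum have a basis of vectors of bounded norm. -/
def S_HERM : Prop := ∀ (n : ℕ) (D : ℝ), ∃ c : ℝ, ∀ G : Matrix (Fin n) (Fin n) ℝ, G.PosDef →
  G.det ≤ D → (∀ x : Fin n → ℤ, x ≠ 0 → 1 ≤ (fun i => (x i : ℝ)) ⬝ᵥ G.mulVec fun i => (x i : ℝ)) →
  ∃ u : Matrix (Fin n) (Fin n) ℤ, IsUnit u.det ∧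
    ∀ i, (fun j => (u j i : ℝ)) ⬝ᵥ G.mulVec (fun j => (u j i : ℝ)) ≤ c

/-- The index set of the coordinates of Minkowski space. -/
abbrev Idx (d : ℕ) : Type := Unit ⊕ (Fin d ⊕ Fin 2)

/-- The embedding of `ℤ[√2]` into the real numbers. -/
noncomputable def emb : ℤ√2 →+* ℝ := Zsqrtd.toReal (by norm_num)

/-- The form `-√2 x₀² + ∑ x_i²` over `ℤ[√2]`. -/
def Jm (d : ℕ) : Matrix (Idx d) (Idx d) (ℤ√2) :=
  Matrix.diagonal fun i => match i with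
    | Sum.inl _ => -⟨0, 1⟩
    | Sum.inr _ => 1

/-- The coordinates of a vector of Minkowski space for which the Lorentzian form is `Jm`: the first
one is divided by the fourth root of `2`. -/
noncomputable def coo {d : ℕ} (x : L d) : Idx d → ℝ
  | Sum.inl _ => x.1 / √(√2)
  | Sum.inr (Sum.inl i) => x.2.1 i
  | Sum.inr (Sum.inr j) => x.2.2 j

/-- The arithmetic group of level `m`. -/
structure InGam (d m : ℕ) (γ : L d ≃ₗ[ℝ] L d) : Prop where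
  up : ∀ p, 0 < (γ (iota p)).1
  mat : ∃ M : (Matrix (Idx d) (Idx d) (ℤ√2))ˣ,
    M.val.transpose * Jm d * M.val = Jm d ∧ (∀ i j, (m : ℤ√2) ∣ (M.val - 1) i j) ∧
    ∀ x, coo (γ x) = (M.val.map emb).mulVec (coo x)

/-- `InGam` defines a group of isometries. -/
def S_L1 : Prop := ∀ (d m : ℕ), 1 ≤ m →
  (∃ Γ : Subgroup (L d ≃ₗ[ℝ] L d), ∀ γ, γ ∈ Γ ↔ InGam d m γ) ∧
  ∀ γ : L d ≃ₗ[ℝ] L d, InGam d m γ → ∀ x y, J (γ x) (γ y) = J x y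

/-- The arithmetic group is discrete. -/
def S_L2 : Prop := ∀ (d m : ℕ) (R : ℝ),
  {γ : L d ≃ₗ[ℝ] L d | InGam d m γ ∧ ∃ p, (iota p).1 ≤ R ∧ (γ (iota p)).1 ≤ R}.Finite

/-- The arithmetic group acts freely when the level is large. -/
def S_L3 : Prop := ∀ (d m : ℕ), 2 * (d + 3) < m → ∀ γ : L d ≃ₗ[ℝ] L d, InGam d m γ →
  ∀ p, γ (iota p) = iota p → γ = 1

/-- Large tubes. -/
def S_L4 : Prop := ∀ (d m : ℕ) (ρ : ℝ), 0 < ρ → 4 + 4 * ρ ^ 2 < (m : ℝ) ^ 2 →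
  ∀ γ : L d ≃ₗ[ℝ] L d, InGam d m γ → ∀ p, ‖p.2‖ < ρ → ‖(γ (iota p)).2.2‖ < ρ →
  ∀ w : W, γ (0, 0, w) = (0, 0, w)

/-- Cocompactness. -/
def S_L5 : Prop := S_HERM → ∀ (d m : ℕ), 1 ≤ m →
  ∃ R : ℝ, ∀ p : P d, ∃ γ : L d ≃ₗ[ℝ] L d, InGam d m γ ∧ (γ (iota p)).1 ≤ R

/-- The lattices. -/
def S_LAT : Prop := ∀ (d : ℕ) (ρ : ℝ), 0 < ρ → ∃ Γ : Subgroup (L d ≃ₗ[ℝ] L d), IsLattice Γ ρ

end Pool.Agent.Helper473.LY
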