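import Mathlib
import Pool.Agent.Helper473.LY.Stmts

/-!
# Lawson–Yau: assembly
-/

set_option autoImplicit false

open scoped Manifold ContDiff Topology RealInnerProductSpace
open Module

namespace Pool.Agent.Helper473.LY

open Pool.Agent.H234R3

theorem lat_of (h1 : S_L1) (h2 : S_L2) (h3 : S_L3) (h4 : S_L4) (h5 : S_L5) (hH : S_HERM) :
    S_LAT := by
  intro d ρ hρ
  obtain ⟨m, hm⟩ := exists_nat_gt (2 * ((d:ℝ) + 3) + 4 + 4 * ρ ^ 2)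
  have hρ2 : 0 ≤ ρ ^ 2 := sq_nonneg ρ
  have hd : (0:ℝ) ≤ d := Nat.cast_nonneg d
  have hm1 : (1:ℝ) ≤ m := by linarith
  have hm1' : 1 ≤ m := by exact_mod_cast hm1
  have hm2 : 2 * (d + 3) < m := by
    have : ((2 * (d + 3) : ℕ) : ℝ) < m := by
      push_cast
      linarith
    exact_mod_cast this
  have hm3 : 4 + 4 * ρ ^ 2 < (m:ℝ) ^ 2 := by nlinarith
  obtain ⟨⟨Γ, hΓ⟩, hiso⟩ := h1 d m hm1'
  refine ⟨Γ, ⟨?_, ?_, ?_, ?_, ?_, ?_⟩⟩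
  · exact fun γ hγ x y => hiso γ ((hΓ γ).1 hγ) x y
  · exact fun γ hγ => ((hΓ γ).1 hγ).up
  · intro R
    refine (h2 d m R).subset ?_
    rintro γ ⟨hγ, hp⟩
    exact ⟨(hΓ γ).1 hγ, hp⟩
  · exact fun γ hγ => h3 d m hm2 γ ((hΓ γ).1 hγ)
  · obtain ⟨R, hR⟩ := h5 hH d m hm1'
    refine ⟨R, fun p => ?_⟩
    obtain ⟨γ, hγ, h⟩ := hR p
    exact ⟨γ, (hΓ γ).2 hγ, h⟩
  · exact fun γ hγ => h4 d m ρ hρ hm3 γ ((hΓ γ).1 hγ)

/-- The action of the lattice on the coordinate space. -/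
noncomputable def mulAct {d : ℕ} {Γ : Subgroup (L d ≃ₗ[ℝ] L d)}
    (h1 : ∀ p : P d, act (1 : L d ≃ₗ[ℝ] L d) p = p)
    (h2 : ∀ γ ∈ Γ, ∀ δ ∈ Γ, ∀ p, act (γ * δ) p = act γ (act δ p)) : MulAction Γ (P d) where
  smul γ p := act (γ : L d ≃ₗ[ℝ] L d) p
  one_smul := h1
  mul_smul γ δ p := h2 _ γ.2 _ δ.2 p

theorem finrank_P (d : ℕ) : finrank ℝ (P d) = d + 2 := by
  rw [Module.finrank_prod, finrank_euclideanSpace_fin, finrank_euclideanSpace_fin]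

theorem main_of (hN1 : S_N1) (hN2 : S_N2) (hB : S_B) (hHYP : S_HYP) (hBMET : S_BMET)
    (hGLUE : S_GLUE) (hACT : S_ACT) (hLAT : S_LAT)
    (hTUBE : ∀ d : ℕ, 1 ≤ d → ∃ (C : W → ℝ) (g2 : W → W → W → ℝ) (c : W → ℝ) (f : W → W),
      IsTube d C g2 c f) : ∀ n : ℕ, 3 ≤ n → ¬ LawsonYauInj n := by
  intro n hn
  obtain ⟨d, rfl⟩ : ∃ d, n = d + 2 := ⟨n - 2, by omega⟩
  have hd : 1 ≤ d := by omega
  obtain ⟨C, g2, c, f, hT⟩ := hTUBE d hd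
  obtain ⟨Γ, hΓ⟩ := hLAT d 19 (by norm_num)
  obtain ⟨a1, a2, a3, a4, a5, a6, a7⟩ := hACT d Γ 19 hΓ
  obtain ⟨g, h, F, hg, hh, ig, ih, ng, nh, sF, eF, tF, hpq⟩ :=
    hGLUE hN1 hN2 hHYP hBMET d Γ C g2 c f hd hΓ hT
  obtain ⟨H, cH, eH, H0, H1⟩ := a7 F sF.continuous eF
  letI : MulAction Γ (P d) := mulAct a1 a2
  have hs : ∀ γ : Γ, (fun x : P d => γ • x) = act (γ : L d ≃ₗ[ℝ] L d) := fun γ => rfl
  refine hB hN1 hN2 (d + 2) (P d) Γ (finrank_P d) ?_ ?_ ?_ ?_ g h F H hg hh ?_ ?_ ng nh sF ?_ tF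
    cH ?_ H0 H1 ?_
  · intro γ
    rw [hs]
    exact a3 γ γ.2
  · intro K hK
    have := a4 K hK
    have h2 := this.preimage (f := fun γ : Γ => (γ : L d ≃ₗ[ℝ] L d))
      (Subtype.val_injective.injOn)
    refine h2.subset ?_
    rintro γ ⟨x, hx, hx2⟩
    exact ⟨γ.2, x, hx, hx2⟩
  · intro γ x hx
    exact Subtype.ext (a5 γ γ.2 x hx)
  · obtain ⟨K, hK, h3⟩ := a6
    refine ⟨K, hK, fun x => ?_⟩
    obtain ⟨γ, hγ, h4⟩ := h3 x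
    exact ⟨⟨γ, hγ⟩, h4⟩
  · intro γ x a b
    exact ig γ γ.2 x a b
  · intro γ x a b
    exact ih γ γ.2 x a b
  · intro γ x
    exact eF γ γ.2 x
  · intro γ t x
    exact eH γ γ.2 t x
  · obtain ⟨p, q, h5, h6⟩ := hpq
    exact ⟨p, q, h5, fun γ => h6 γ γ.2⟩

end Pool.Agent.Helper473.LY
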