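import Mathlib
import Pool.Agent.Helper473.LY.Stmts

/-!
# Lawson–Yau: auxiliary tasks for the assembly `TUBE` and for `GLUE`
-/

set_option autoImplicit false

open scoped Manifold ContDiff Topology RealInnerProductSpace
open Module

namespace Pool.Agent.Helper473.LY

open Pool.Agent.H234R3

/-- The conformal coordinate `x` with `v = 2 √r x / (1 - r |x|²)`. -/
noncomputable def xv (r : ℝ) (v : W) : W := (√r * (1 + ch v))⁻¹ • v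

/-- The Klein coordinate. -/
noncomputable def kv (v : W) : W := (ch v)⁻¹ • v

/-- The inverse of the Klein coordinate. -/
noncomputable def vk (Y : W) : W := (√(1 - ‖Y‖ ^ 2))⁻¹ • Y

/-- `NegAt`, `GoodAt`, `TensionZeroAt` depend only on the germs. -/
def S_GERM : Prop :=
  (∀ (E : Type) [NormedAddCommGroup E] [NormedSpace ℝ E] (g g' : E → E → E → ℝ) (y : E),
    (∀ᶠ z in 𝓝 y, g z = g' z) → NegAt g y → NegAt g' y) ∧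
  (∀ (C C' : W → ℝ) (g g' : W → W → W → ℝ) (y : W),
    (∀ᶠ z in 𝓝 y, C z = C' z) → (∀ᶠ z in 𝓝 y, g z = g' z) → GoodAt C g y → GoodAt C' g' y) ∧
  (∀ (E F : Type) [NormedAddCommGroup E] [NormedSpace ℝ E] [NormedAddCommGroup F]
    [NormedSpace ℝ F] (g g' : E → E → E → ℝ) (h h' : F → F → F → ℝ) (U U' : E → F) (y : E),
    (∀ᶠ z in 𝓝 y, g z = g' z) → (∀ᶠ z in 𝓝 (U y), h z = h' z) → (∀ᶠ z in 𝓝 y, U z = U' z) →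
    TensionZeroAt g h U y → TensionZeroAt g' h' U' y)

/-- The coordinates `xv` and `kv`. -/
def S_XV : Prop := ∀ r : ℝ, 0 < r →
  ContDiff ℝ ∞ ch ∧ ContDiff ℝ ∞ (xv r) ∧ ContDiff ℝ ∞ kv ∧
  (∀ v, Function.Bijective (fderiv ℝ (xv r) v)) ∧ (∀ v, Function.Bijective (fderiv ℝ kv v)) ∧
  (∀ v, 1 ≤ ch v ∧ r * ‖xv r v‖ ^ 2 = (ch v - 1) / (ch v + 1) ∧ r * ‖xv r v‖ ^ 2 < 1 ∧
    (1 + r * ‖xv r v‖ ^ 2) / (1 - r * ‖xv r v‖ ^ 2) = ch v ∧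
    v = (2 * √r / (1 - r * ‖xv r v‖ ^ 2)) • xv r v ∧ ‖kv v‖ < 1 ∧ vk (kv v) = v) ∧
  (∀ v a b, hyp v a b = 4 * r / (1 - r * ‖xv r v‖ ^ 2) ^ 2 *
    ⟪fderiv ℝ (xv r) v a, fderiv ℝ (xv r) v b⟫) ∧
  (∀ v a b, hyp v a b = kl (kv v) (fderiv ℝ kv v a) (fderiv ℝ kv v b)) ∧
  (∀ Y : W, ‖Y‖ < 1 → kv (vk Y) = Y ∧ ContDiffAt ℝ ∞ vk Y) ∧
  (∀ x : W, r * ‖x‖ ^ 2 < 1 → xv r ((2 * √r / (1 - r * ‖x‖ ^ 2)) • x) = x) ∧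
  IsMet kl {Y | ‖Y‖ < 1}

/-- The inner metric: smoothness, positivity, agreement with the radial one for `3 < y < 5`, and
exactness of the perturbation. -/
def S_INSM : Prop := S_POLY → S_SM → ∀ (n : ℕ) (s ε r : ℝ), 1 ≤ n → 0 < ε → ε ≤ 1 → 0 < r →
  10 * r < 1 → (∀ x : W, ‖x‖ ^ 2 < 5 → OKin n s ε r x) →
  ContDiffOn ℝ ∞ (Cin n s ε r) {x | ‖x‖ ^ 2 < 5} ∧ (∀ x, 0 < Cin n s ε r x) ∧
  IsMet (gin n s ε r) {x | ‖x‖ ^ 2 < 5} ∧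
  (∀ x : W, 3 < ‖x‖ ^ 2 → ‖x‖ ^ 2 < 5 → Cin n s ε r x = Real.exp (lV n ε (‖x‖ ^ 2) / n) ∧
    ∀ a b, gin n s ε r x a b = Cin n s ε r x ^ 2 * Mf n ε (‖x‖ ^ 2) * ⟪a, b⟫) ∧
  (∀ y : ℝ, 0 ≤ y → y < 5 → ContDiffAt ℝ ∞ (Mf n ε) y ∧ ContDiffAt ℝ ∞ (lV n ε) y ∧
    ContDiffAt ℝ ∞ (zc n ε s) y ∧ ContDiffAt ℝ ∞ chi2 y ∧
    (∀ᶠ t in 𝓝 y, deriv (lV n ε) t = Mf n ε t / 2) ∧
    ((∀ᶠ t in 𝓝 y, zc n ε s t = 0) ∨ (∀ᶠ t in 𝓝 y, chi2 t = 0))) ∧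
  (∀ y : ℝ, 0 ≤ y → y < 1 → ∀ᶠ t in 𝓝 y, EEf (Mf n ε) (zc n ε s) t = 0) ∧
  (∀ x : W, ‖x‖ ^ 2 < 5 → ContDiffAt ℝ ∞ (Yf r (zc n ε s)) x ∧
    ‖Yf r (zc n ε s) x‖ ^ 2 = Y2f r (zc n ε s) x)

/-- The fold: the map on the axis is not injective. -/
def S_FOLD : Prop := S_POLY → S_SM → ∀ (n : ℕ) (s ε r t0 : ℝ), 1 ≤ n → 0 < ε → ε ≤ 1 → 0 < r →
  10 * r < 1 → |t0| < 1 →
  deriv (fun t => (t + zc n ε s (t ^ 2)) / (1 + r * t ^ 2)) t0 < 0 →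
  ∃ t t' : ℝ, t ≠ t' ∧ r * t ^ 2 < 1 ∧ r * t' ^ 2 < 1 ∧
    (t + zc n ε s (t ^ 2)) / (1 + r * t ^ 2) = (t' + zc n ε s (t' ^ 2)) / (1 + r * t' ^ 2)

/-- Hyperbolic space in the coordinates `P d`: the metric `blk ch hyp` is induced by `iota`, and linear
isometries which preserve the upper sheet act by smooth isometries. -/
def S_HB : Prop := ∀ d : ℕ,
  ContDiff ℝ ∞ (iota (d := d)) ∧ ContDiff ℝ ∞ (piP (d := d)) ∧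
  (∀ p : P d, J (iota p) (iota p) = -1 ∧ 1 ≤ (iota p).1 ∧ piP (iota p) = p) ∧
  (∀ x : L d, J x x = -1 → 0 < x.1 → iota (piP x) = x) ∧
  (∀ p a b : P d, blk ch hyp p a b = J (fderiv ℝ iota p a) (fderiv ℝ iota p b)) ∧
  (∀ p q : P d, √(1 + ‖p.2‖ ^ 2) * √(1 + ‖q.2‖ ^ 2) - ‖p.2‖ * ‖q.2‖ ≤ -J (iota p) (iota q)) ∧
  ∀ γ : L d ≃ₗ[ℝ] L d, (∀ x y, J (γ x) (γ y) = J x y) → (∀ p, 0 < (γ (iota p)).1) →
    (∀ p, iota (act γ p) = γ (iota p)) ∧ ContDiff ℝ ∞ (act γ) ∧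
    (∀ p a b, blk ch hyp (act γ p) (fderiv ℝ (act γ) p a) (fderiv ℝ (act γ) p b)
      = blk ch hyp p a b) ∧
    (∀ p, Function.Bijective (fderiv ℝ (act γ) p)) ∧
    ((∀ w : W, γ (0, 0, w) = (0, 0, w)) → (∀ x : L d, (γ x).2.2 = x.2.2) ∧
      ∀ (C : W → ℝ) (g2 : W → W → W → ℝ) (p a b : P d), (act γ p).2 = p.2 ∧
        blk C g2 (act γ p) (fderiv ℝ (act γ) p a) (fderiv ℝ (act γ) p b) = blk C g2 p a b ∧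
        ∀ w w' : W, (act γ (p.1, w)).1 = (act γ (p.1, w')).1)

/-- The tube assembly with the auxiliary tasks as additional hypotheses. -/
def S_TUBE2 : Prop := S_GERM → S_XV → S_INSM → S_FOLD → S_TUBE

/-- The gluing with the auxiliary tasks as additional hypotheses. -/
def S_GLUE2 : Prop := S_GERM → S_HB → S_GLUE

end Pool.Agent.Helper473.LY
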