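import Mathlib
import Pool.Agent.Helper473.LY.Main
import Pool.Agent.Helper473.LY.Stmts2

/-!
# Lawson–Yau: from the tasks to the theorem
-/

set_option autoImplicit false

open scoped Manifold ContDiff Topology RealInnerProductSpace
open Module

namespace Pool.Agent.Helper473.LY

open Pool.Agent.H234R3

theorem assembly (N1 : S_N1) (N2 : S_N2) (B : S_B) (HYP : S_HYP) (BMET : S_BMET) (CRV : S_CRV)
    (RAD : S_RAD) (OPEN : S_OPEN) (SCALE : S_SCALE) (TEN : S_TEN) (IDC : S_IDC) (KLEIN : S_KLEIN)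
    (INHARM : S_INHARM) (POLY : S_POLY) (SM : S_SM) (INGOOD : S_INGOOD) (OUT : S_OUT)
    (TGT : S_TGT) (TUBE : S_TUBE) (GLUE : S_GLUE) (ACT : S_ACT) (LAT : S_LAT) :
    ∀ n : ℕ, 3 ≤ n → ¬ LawsonYauInj n :=
  main_of N1 N2 B HYP BMET GLUE ACT LAT
    (TUBE N1 N2 HYP BMET CRV RAD SCALE TEN IDC KLEIN INHARM POLY SM INGOOD OUT TGT OPEN)

end Pool.Agent.Helper473.LY
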