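import Mathlib
import Pool.Agent.Helper473.LY.Defs

/-!
# Harmonic homeomorphisms between closed negatively curved manifolds: definition
-/

set_option autoImplicit false

open scoped Manifold ContDiff Topology
open Module

namespace Pool.Agent.Helper473.LY

open Pool.Agent.H234R3

/-- Every harmonic homeomorphism between closed (compact, connected, without boundary) smooth
Riemannian manifolds of dimension `n` with negative sectional curvature is a diffeomorphism. -/
def HarmHomeo (n : ℕ) : Prop :=
  ∀ (N M : Type) [TopologicalSpace N] [TopologicalSpace M]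
    [ChartedSpace (EuclideanSpace ℝ (Fin n)) N] [ChartedSpace (EuclideanSpace ℝ (Fin n)) M]
    [IsManifold (𝓡 n) ∞ N] [IsManifold (𝓡 n) ∞ M] [T2Space N] [T2Space M]
    [CompactSpace N] [CompactSpace M] [ConnectedSpace N] [ConnectedSpace M]
    (g : RMetric (𝓡 n) N) (h : RMetric (𝓡 n) M), NegCurved g → NegCurved h →
    ∀ (f : N ≃ₜ M), HarmonicInCharts g h f → ∃ Φ : N ≃ₘ^∞⟮𝓡 n, 𝓡 n⟯ M, ∀ x, Φ x = f x

end Pool.Agent.Helper473.LY
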