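import Pool.Agent.Helper473.LY.Stmts

set_option autoImplicit false

open scoped Manifold ContDiff Topology RealInnerProductSpace
open Module

namespace Pool.Agent.Helper473.LY

open Pool.Agent.H234R3

theorem act_pos {X : Type*} [NormedAddCommGroup X] (x : X) : 0 < 1 + ‖x‖ ^ 2 := by positivity

theorem act_sq {X : Type*} [NormedAddCommGroup X] (x : X) :
    √(1 + ‖x‖ ^ 2) ^ 2 = 1 + ‖x‖ ^ 2 := Real.sq_sqrt (act_pos x).le

theorem act_J_self {d : ℕ} (x : L d) : J x x = -(x.1 ^ 2) + ‖x.2.1‖ ^ 2 + ‖x.2.2‖ ^ 2 := by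
  unfold J
  rw [real_inner_self_eq_norm_sq, real_inner_self_eq_norm_sq]
  ring

theorem act_J_iota {d : ℕ} (p : P d) : J (iota p) (iota p) = -1 := by
  rw [act_J_self]
  show -((√(1 + ‖p.2‖ ^ 2) * √(1 + ‖p.1‖ ^ 2)) ^ 2) + ‖√(1 + ‖p.2‖ ^ 2) • p.1‖ ^ 2
    + ‖p.2‖ ^ 2 = -1
  rw [norm_smul, mul_pow, mul_pow, act_sq, Real.norm_eq_abs, sq_abs, act_sq, act_sq]
  ring

theorem act_iota_pos {d : ℕ} (p : P d) : 0 < (iota p).1 := by
  show 0 < √(1 + ‖p.2‖ ^ 2) * √(1 + ‖p.1‖ ^ 2)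
  have := act_pos p.1
  have := act_pos p.2
  positivity

theorem act_pi_iota {d : ℕ} (p : P d) : piP (iota p) = p := by
  have h : √(1 + ‖p.2‖ ^ 2) ≠ 0 := (Real.sqrt_pos.2 (act_pos p.2)).ne'
  show ((√(1 + ‖p.2‖ ^ 2))⁻¹ • (√(1 + ‖p.2‖ ^ 2) • p.1), p.2) = p
  rw [smul_smul, inv_mul_cancel₀ h, one_smul]

theorem act_iota_pi {d : ℕ} (x : L d) (hx : J x x = -1) (h0 : 0 < x.1) : iota (piP x) = x := by
  have h : √(1 + ‖x.2.2‖ ^ 2) ≠ 0 := (Real.sqrt_pos.2 (act_pos x.2.2)).ne'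
  have hpos := act_pos x.2.2
  rw [act_J_self] at hx
  show (√(1 + ‖x.2.2‖ ^ 2) * √(1 + ‖(√(1 + ‖x.2.2‖ ^ 2))⁻¹ • x.2.1‖ ^ 2),
    √(1 + ‖x.2.2‖ ^ 2) • ((√(1 + ‖x.2.2‖ ^ 2))⁻¹ • x.2.1), x.2.2) = x
  rw [smul_smul, mul_inv_cancel₀ h, one_smul]
  have h1 : √(1 + ‖x.2.2‖ ^ 2) * √(1 + ‖(√(1 + ‖x.2.2‖ ^ 2))⁻¹ • x.2.1‖ ^ 2) = x.1 := by
    rw [← Real.sqrt_mul hpos.le, norm_smul, mul_pow, norm_inv, Real.norm_eq_abs, inv_pow, sq_abs,
      act_sq]
    have h2 : (1 + ‖x.2.2‖ ^ 2) * (1 + (1 + ‖x.2.2‖ ^ 2)⁻¹ * ‖x.2.1‖ ^ 2) = x.1 ^ 2 := by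
      field_simp
      linarith
    rw [h2, Real.sqrt_sq h0.le]
  rw [h1]

theorem act_contDiff_iota {d : ℕ} : ContDiff ℝ ∞ (iota (d := d)) := by
  have h1 : ContDiff ℝ ∞ (fun p : P d => √(1 + ‖p.1‖ ^ 2)) :=
    (contDiff_const.add (contDiff_fst.norm_sq ℝ)).sqrt fun p => (act_pos p.1).ne'
  have h2 : ContDiff ℝ ∞ (fun p : P d => √(1 + ‖p.2‖ ^ 2)) :=
    (contDiff_const.add (contDiff_snd.norm_sq ℝ)).sqrt fun p => (act_pos p.2).ne'
  exact (h2.mul h1).prodMk ((h2.smul contDiff_fst).prodMk contDiff_snd)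

theorem act_contDiff_pi {d : ℕ} : ContDiff ℝ ∞ (piP (d := d)) := by
  have h2 : ContDiff ℝ ∞ (fun x : L d => √(1 + ‖x.2.2‖ ^ 2)) :=
    (contDiff_const.add ((contDiff_snd.snd).norm_sq ℝ)).sqrt fun x => (act_pos x.2.2).ne'
  have h3 : ContDiff ℝ ∞ (fun x : L d => (√(1 + ‖x.2.2‖ ^ 2))⁻¹) :=
    h2.inv fun x => (Real.sqrt_pos.2 (act_pos x.2.2)).ne'
  exact (h3.smul contDiff_snd.fst).prodMk contDiff_snd.snd

theorem act_contDiff_lin {d : ℕ} (γ : L d ≃ₗ[ℝ] L d) : ContDiff ℝ ∞ (fun x => γ x) :=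
  (LinearMap.toContinuousLinearMap γ.toLinearMap).contDiff

theorem act_iota_act {d : ℕ} {Γ : Subgroup (L d ≃ₗ[ℝ] L d)} {ρ : ℝ} (h : IsLattice Γ ρ)
    {γ : L d ≃ₗ[ℝ] L d} (hγ : γ ∈ Γ) (p : P d) : iota (act γ p) = γ (iota p) :=
  act_iota_pi _ (by rw [h.isom γ hγ, act_J_iota]) (h.up γ hγ p)

/-- the reversed Cauchy-Schwarz inequality (weak form) -/
theorem act_J_nonpos {d : ℕ} (x y : L d) (hx : J x x = -1) (hx0 : 0 < x.1) (hy : J y y = -1)
    (hy0 : 0 < y.1) : J x y ≤ 0 := by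
  rw [act_J_self] at hx hy
  unfold J
  have h1 := real_inner_le_norm x.2.1 y.2.1
  have h2 := real_inner_le_norm x.2.2 y.2.2
  have ha := norm_nonneg x.2.1
  have hb := norm_nonneg x.2.2
  have ha' := norm_nonneg y.2.1
  have hb' := norm_nonneg y.2.2
  have h3 : ‖x.2.1‖ * ‖y.2.1‖ + ‖x.2.2‖ * ‖y.2.2‖ ≤ x.1 * y.1 := by
    rw [← sq_le_sq₀ (by positivity) (by positivity), mul_pow]
    have e1 : x.1 ^ 2 = 1 + ‖x.2.1‖ ^ 2 + ‖x.2.2‖ ^ 2 := by linarith
    have e2 : y.1 ^ 2 = 1 + ‖y.2.1‖ ^ 2 + ‖y.2.2‖ ^ 2 := by linarith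
    rw [e1, e2]
    nlinarith [sq_nonneg (‖x.2.1‖ * ‖y.2.2‖ - ‖x.2.2‖ * ‖y.2.1‖), sq_nonneg ‖x.2.1‖,
      sq_nonneg ‖x.2.2‖, sq_nonneg ‖y.2.1‖, sq_nonneg ‖y.2.2‖]
  linarith

/-- the segment -/
noncomputable def act_seg {d : ℕ} (s : ℝ) (x y : L d) : L d := (1 - s) • x + s • y

theorem act_J_seg {d : ℕ} (s : ℝ) (x y : L d) :
    J (act_seg s x y) (act_seg s x y) = (1 - s) ^ 2 * J x x + s ^ 2 * J y y
      + 2 * (s * (1 - s)) * J x y := by
  unfold J act_seg
  simp only [Prod.fst_add, Prod.snd_add, Prod.smul_fst, Prod.smul_snd, smul_eq_mul, inner_add_left,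
    inner_add_right, real_inner_smul_left, real_inner_smul_right]
  rw [real_inner_comm y.2.1 x.2.1, real_inner_comm y.2.2 x.2.2]
  ring

/-- normalisation -/
noncomputable def act_nrm {d : ℕ} (z : L d) : L d := (√(-J z z))⁻¹ • z

theorem act_J_smul {d : ℕ} (c : ℝ) (z : L d) : J (c • z) (c • z) = c ^ 2 * J z z := by
  unfold J
  simp only [Prod.smul_fst, Prod.smul_snd, smul_eq_mul, real_inner_smul_left, real_inner_smul_right]
  ring

theorem act_J_nrm {d : ℕ} (z : L d) (hz : 0 < -J z z) : J (act_nrm z) (act_nrm z) = -1 := by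
  unfold act_nrm
  rw [act_J_smul, inv_pow, Real.sq_sqrt hz.le]
  have : J z z ≠ 0 := by
    intro h
    rw [h] at hz
    simp at hz
  field_simp

theorem act_nrm_pos {d : ℕ} (z : L d) (hz : 0 < -J z z) (h0 : 0 < z.1) : 0 < (act_nrm z).1 := by
  unfold act_nrm
  show 0 < (√(-J z z))⁻¹ * z.1
  have := Real.sqrt_pos.2 hz
  positivity

theorem act_nrm_self {d : ℕ} (z : L d) (hz : J z z = -1) : act_nrm z = z := by
  unfold act_nrm
  rw [hz]
  simp

/-- clamping to the unit interval -/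
noncomputable def act_cl (t : ℝ) : ℝ := max 0 (min t 1)

theorem act_cl_mem (t : ℝ) : 0 ≤ act_cl t ∧ act_cl t ≤ 1 :=
  ⟨le_max_left _ _, max_le zero_le_one (min_le_right _ _)⟩

theorem act_seg_good {d : ℕ} (t : ℝ) (p q : P d) :
    0 < -J (act_seg (act_cl t) (iota p) (iota q)) (act_seg (act_cl t) (iota p) (iota q)) ∧
    0 < (act_seg (act_cl t) (iota p) (iota q)).1 := by
  obtain ⟨h0, h1⟩ := act_cl_mem t
  set s := act_cl t
  have hJ := act_J_nonpos (iota p) (iota q) (act_J_iota p) (act_iota_pos p) (act_J_iota q)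
    (act_iota_pos q)
  constructor
  · rw [act_J_seg, act_J_iota, act_J_iota]
    have h2 : 0 ≤ s * (1 - s) := mul_nonneg h0 (by linarith)
    have h3 : 2 * (s * (1 - s)) * J (iota p) (iota q) ≤ 0 := by nlinarith
    nlinarith [sq_nonneg (2 * s - 1)]
  · have hp := act_iota_pos p
    have hq := act_iota_pos q
    show 0 < (1 - s) * (iota p).1 + s * (iota q).1
    rcases h0.lt_or_eq with h | h
    · have := mul_pos h hq
      have := mul_nonneg (by linarith : 0 ≤ 1 - s) hp.le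
      linarith
    · rw [← h]; simpa using hp

theorem act_J_cont {d : ℕ} : Continuous (fun z : L d => J z z) := by
  unfold J
  fun_prop

theorem act_cl_cont : Continuous act_cl := by
  unfold act_cl
  fun_prop

theorem t_ACT : S_ACT := by
  intro d Γ ρ h
  have hia : ∀ γ ∈ Γ, ∀ p, iota (act γ p) = γ (iota p) := fun γ hγ p => act_iota_act h hγ p
  refine ⟨?_, ?_, ?_, ?_, ?_, ?_, ?_⟩
  · intro p
    show piP (iota p) = p
    rw [act_pi_iota]
  · intro γ hγ δ hδ p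
    show piP ((γ * δ) (iota p)) = piP (γ (iota (act δ p)))
    rw [hia δ hδ]
    rfl
  · intro γ _
    exact act_contDiff_pi.comp ((act_contDiff_lin γ).comp act_contDiff_iota)
  · intro K hK
    have hc : Continuous (fun p : P d => (iota p).1) :=
      continuous_fst.comp act_contDiff_iota.continuous
    obtain ⟨R, hR⟩ := (hK.image hc).bddAbove
    refine (h.disc R).subset ?_
    rintro γ ⟨hγ, x, hx, hx'⟩
    refine ⟨hγ, x, hR ⟨x, hx, rfl⟩, ?_⟩
    rw [← hia γ hγ]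
    exact hR ⟨_, hx', rfl⟩
  · intro γ hγ p hp
    refine h.free γ hγ p ?_
    rw [← hia γ hγ, hp]
  · obtain ⟨R, hR⟩ := h.cocpt
    have hc : Continuous (fun p : P d => (iota p).1) :=
      continuous_fst.comp act_contDiff_iota.continuous
    refine ⟨{p | (iota p).1 ≤ R}, ?_, ?_⟩
    · refine (isCompact_closedBall (0 : P d) R).of_isClosed_subset
        (isClosed_le hc continuous_const) ?_
      intro p hp
      have hp' : √(1 + ‖p.2‖ ^ 2) * √(1 + ‖p.1‖ ^ 2) ≤ R := hp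
      have h1 : 1 ≤ √(1 + ‖p.2‖ ^ 2) := by
        rw [Real.one_le_sqrt]; nlinarith [sq_nonneg ‖p.2‖]
      have h2 : 1 ≤ √(1 + ‖p.1‖ ^ 2) := by
        rw [Real.one_le_sqrt]; nlinarith [sq_nonneg ‖p.1‖]
      have h3 : ‖p.2‖ ≤ √(1 + ‖p.2‖ ^ 2) := Real.le_sqrt_of_sq_le (by linarith)
      have h4 : ‖p.1‖ ≤ √(1 + ‖p.1‖ ^ 2) := Real.le_sqrt_of_sq_le (by linarith)
      rw [mem_closedBall_zero_iff, Prod.norm_def]
      refine max_le ?_ ?_
      · nlinarith
      · nlinarith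
    · intro x
      obtain ⟨γ, hγ, hx⟩ := hR x
      refine ⟨γ, hγ, ?_⟩
      show (iota (act γ x)).1 ≤ R
      rw [hia γ hγ]
      exact hx
  · intro F hF hFe
    refine ⟨fun q => piP (act_nrm (act_seg (act_cl q.1) (iota (F q.2)) (iota q.2))), ?_, ?_, ?_, ?_⟩
    · have hi : Continuous (iota (d := d)) := act_contDiff_iota.continuous
      have hseg : Continuous (fun q : ℝ × P d =>
          act_seg (act_cl q.1) (iota (F q.2)) (iota q.2)) := by
        unfold act_seg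
        have h1 : Continuous (fun q : ℝ × P d => act_cl q.1) := act_cl_cont.comp continuous_fst
        exact ((continuous_const.sub h1).smul (hi.comp (hF.comp continuous_snd))).add
          (h1.smul (hi.comp continuous_snd))
      have hJc : Continuous (fun q : ℝ × P d =>
          √(-J (act_seg (act_cl q.1) (iota (F q.2)) (iota q.2))
            (act_seg (act_cl q.1) (iota (F q.2)) (iota q.2)))) :=
        Real.continuous_sqrt.comp ((act_J_cont.comp hseg).neg)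
      have hn : Continuous (fun q : ℝ × P d =>
          act_nrm (act_seg (act_cl q.1) (iota (F q.2)) (iota q.2))) := by
        unfold act_nrm
        exact (hJc.inv₀ fun q => (Real.sqrt_pos.2 (act_seg_good q.1 (F q.2) q.2).1).ne').smul hseg
      exact act_contDiff_pi.continuous.comp hn
    · intro γ hγ t x
      have hgood := act_seg_good t (F x) x
      set z := act_seg (act_cl t) (iota (F x)) (iota x) with hz
      have h1 : act_seg (act_cl t) (iota (F (act γ x))) (iota (act γ x)) = γ z := by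
        rw [hFe γ hγ, hia γ hγ, hia γ hγ, hz]
        unfold act_seg
        rw [map_add, map_smul, map_smul]
      have h2 : act_nrm (γ z) = γ (act_nrm z) := by
        unfold act_nrm
        rw [h.isom γ hγ, map_smul]
      show piP (act_nrm (act_seg (act_cl t) (iota (F (act γ x))) (iota (act γ x))))
        = piP (γ (iota (piP (act_nrm z))))
      rw [h1, h2, act_iota_pi _ (act_J_nrm z hgood.1) (act_nrm_pos z hgood.1 hgood.2)]
    · intro x
      have h1 : act_cl 0 = 0 := by simp [act_cl]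
      show piP (act_nrm (act_seg (act_cl 0) (iota (F x)) (iota x))) = F x
      rw [h1]
      have h2 : act_seg 0 (iota (F x)) (iota x) = iota (F x) := by simp [act_seg]
      rw [h2, act_nrm_self _ (act_J_iota _), act_pi_iota]
    · intro x
      have h1 : act_cl 1 = 1 := by simp [act_cl]
      show piP (act_nrm (act_seg (act_cl 1) (iota (F x)) (iota x))) = x
      rw [h1]
      have h2 : act_seg 1 (iota (F x)) (iota x) = iota x := by simp [act_seg]
      rw [h2, act_nrm_self _ (act_J_iota _), act_pi_iota]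

end Pool.Agent.Helper473.LY
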