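import Pool.Agent.Helper473.LY.Stmts
import Pool.Agent.H65R2.AC.QuotMetric

/-!
# Task B: from invariant data on the universal cover to closed manifolds
-/

set_option autoImplicit false
set_option maxSynthPendingDepth 3
set_option linter.unusedSectionVars false

open scoped Manifold ContDiff Topology RealInnerProductSpace
open Module Set Filter

namespace Pool.Agent.Helper473.LY

open Pool.Agent.H234R3 Pool.Agent.Helper831 Pool.Agent.H65R2.AC

/-! ### Bundled bilinear forms -/

section form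

variable {E : Type} [NormedAddCommGroup E] [NormedSpace ℝ E]

private theorem b_add_right {g : E → E → E → ℝ} {U : Set E} (hg : IsMet g U) (y u v v' : E) :
    g y u (v + v') = g y u v + g y u v' := by
  rw [hg.symm, hg.add, hg.symm y v, hg.symm y v']

private theorem b_smul_right {g : E → E → E → ℝ} {U : Set E} (hg : IsMet g U) (y : E) (c : ℝ)
    (u v : E) : g y u (c • v) = c * g y u v := by
  rw [hg.symm, hg.smul, hg.symm y v]

/-- The determinant of a Gram matrix is positive. -/
private theorem b_gram {g : E → E → E → ℝ} {U : Set E} (hg : IsMet g U) {y : E} (hy : y ∈ U)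
    {a b : E} (hab : LinearIndependent ℝ ![a, b]) : 0 < g y a a * g y b b - g y a b ^ 2 := by
  have ha : a ≠ 0 := hab.ne_zero 0
  have hp : 0 < g y a a := hg.pos y hy a ha
  have hc : g y a a • b + (-g y a b) • a ≠ 0 := by
    intro h
    rw [add_comm] at h
    have := LinearIndependent.pair_iff.1 hab _ _ h
    exact hp.ne' this.2
  have h1 := hg.pos y hy _ hc
  rw [hg.add, hg.smul, hg.smul, b_add_right hg, b_add_right hg, b_smul_right hg, b_smul_right hg,
    b_smul_right hg, b_smul_right hg, hg.symm y b a] at h1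
  have h2 : 0 < g y a a * (g y a a * g y b b - g y a b ^ 2) := by
    nlinarith
  exact (mul_pos_iff_of_pos_left hp).1 h2

/-- Negative curvature in terms of sectional curvatures. -/
private theorem b_negCurvAt {g : E → E → E → ℝ} (hg : IsMet g univ) {y : E} (h : NegAt g y) :
    NegCurvAt g y := by
  obtain ⟨Γ, h1, h2, h3⟩ := h
  refine ⟨Γ, h1, h2, fun a b hab => ?_⟩
  unfold secCurv
  exact div_neg_of_neg_of_pos (h3 a b hab) (b_gram hg (mem_univ y) hab)

variable [FiniteDimensional ℝ E]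

/-- The bundled form. -/
private noncomputable def b_form (g : E → E → E → ℝ) (hg : IsMet g univ) (y : E) :
    E →L[ℝ] E →L[ℝ] ℝ :=
  LinearMap.toContinuousLinearMap
    { toFun := fun u => LinearMap.toContinuousLinearMap
        { toFun := fun v => g y u v
          map_add' := fun v v' => b_add_right hg y u v v'
          map_smul' := fun c v => by simpa using b_smul_right hg y c u v }
      map_add' := fun u u' => by
        ext v
        simpa using hg.add y u u' v
      map_smul' := fun c u => by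
        ext v
        simpa using hg.smul y c u v }

private theorem b_form_apply (g : E → E → E → ℝ) (hg : IsMet g univ) (y u v : E) :
    b_form g hg y u v = g y u v := rfl

private theorem b_form_smooth (g : E → E → E → ℝ) (hg : IsMet g univ) :
    ContDiff ℝ ∞ (b_form g hg) := by
  rw [contDiff_clm_apply_iff]
  intro u
  rw [contDiff_clm_apply_iff]
  intro v
  simp only [b_form_apply]
  exact contDiffOn_univ.1 (hg.smooth u v)

end form

/-! ### The quotient -/

section quot

variable {E : Type} [NormedAddCommGroup E] [InnerProductSpace ℝ E] [FiniteDimensional ℝ E]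
variable {Γ : Type} [Group Γ] [MulAction Γ E] [ProperlyDiscontinuousSMul Γ E]
  [ContinuousConstSMul Γ E] [IsCancelSMul Γ E] [SmoothConst Γ E]

/-- The metric on the quotient. -/
private noncomputable def b_met (Γ : Type) [Group Γ] [MulAction Γ E] [ProperlyDiscontinuousSMul Γ E]
    [ContinuousConstSMul Γ E] [IsCancelSMul Γ E] [SmoothConst Γ E]
    (g : E → E → E → ℝ) (hg : IsMet g univ)
    (hinv : ∀ (γ : Γ) (x a b : E), g (γ • x) (fderiv ℝ (fun z => γ • z) x a)
      (fderiv ℝ (fun z => γ • z) x b) = g x a b) :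
    RMetric 𝓘(ℝ, E) (MulAction.orbitRel.Quotient Γ E) :=
  quotRM (Γ := Γ) (b_form g hg) (fun y u w => hg.symm y u w) (fun y u hu => hg.pos y (mem_univ y) u hu)
    (b_form_smooth g hg) hinv

private theorem b_chart_symm (x : MulAction.orbitRel.Quotient Γ E) :
    ((extChartAt 𝓘(ℝ, E) x).symm : E → MulAction.orbitRel.Quotient Γ E) = proj Γ := by
  funext y
  have h1 : (extChartAt 𝓘(ℝ, E) x).symm y = (chartAt E x).symm y := by
    simp only [mfld_simps, extChartAt]
  rw [h1]
  exact symm_eq_proj (chart_mem_atlas E x) y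

private theorem b_chartCoeff (g : E → E → E → ℝ) (hg : IsMet g univ)
    (hinv : ∀ (γ : Γ) (x a b : E), g (γ • x) (fderiv ℝ (fun z => γ • z) x a)
      (fderiv ℝ (fun z => γ • z) x b) = g x a b) (x : MulAction.orbitRel.Quotient Γ E) :
    chartCoeff (b_met Γ g hg hinv) x = g := by
  funext y a b
  have h5 : ((extChartAt 𝓘(ℝ, E) x).symm : E → MulAction.orbitRel.Quotient Γ E)
      = (chartAt E x).symm := by
    funext y
    simp only [mfld_simps, extChartAt]
  have h := quotRM_comp (Γ := Γ) (b_form g hg) (fun y u w => hg.symm y u w)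
    (fun y u hu => hg.pos y (mem_univ y) u hu) (b_form_smooth g hg) hinv
    (chart_mem_atlas E x) y a b
  unfold chartCoeff RMetric.form dchart
  rw [h5]
  exact h

private theorem b_negCurved (g : E → E → E → ℝ) (hg : IsMet g univ)
    (hinv : ∀ (γ : Γ) (x a b : E), g (γ • x) (fderiv ℝ (fun z => γ • z) x a)
      (fderiv ℝ (fun z => γ • z) x b) = g x a b) (hneg : ∀ x, NegAt g x) :
    NegCurved (b_met Γ g hg hinv) := by
  intro x y _
  rw [b_chartCoeff]
  exact b_negCurvAt hg (hneg y)

/-- The map on the quotient. -/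
private def b_map (F : E → E) (hF : ∀ (γ : Γ) x, F (γ • x) = γ • F x) :
    MulAction.orbitRel.Quotient Γ E → MulAction.orbitRel.Quotient Γ E :=
  Quotient.map' F (by
    rintro a b ⟨γ, rfl⟩
    exact ⟨γ, (hF γ b).symm⟩)

private theorem b_map_proj (F : E → E) (hF : ∀ (γ : Γ) x, F (γ • x) = γ • F x) (y : E) :
    b_map F hF (proj Γ y) = proj Γ (F y) := rfl

private theorem b_map_smooth (F : E → E) (hF : ∀ (γ : Γ) x, F (γ • x) = γ • F x)
    (hs : ContDiff ℝ ∞ F) : ContMDiff 𝓘(ℝ, E) 𝓘(ℝ, E) ∞ (b_map F hF) := by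
  intro x
  have h1 : ContMDiffAt 𝓘(ℝ, E) 𝓘(ℝ, E) ∞ (chartAt E x) x :=
    contMDiffAt_of_mem_maximalAtlas (IsManifold.chart_mem_maximalAtlas x) (mem_chart_source E x)
  have h2 : ContMDiffAt 𝓘(ℝ, E) 𝓘(ℝ, E) ∞ (fun z => proj Γ (F (chartAt E x z))) x :=
    (contMDiff_proj.contMDiffAt (x := F (chartAt E x x))).comp x
      ((hs.contMDiff.contMDiffAt (x := chartAt E x x)).comp x h1)
  refine h2.congr_of_eventuallyEq ?_
  filter_upwards [(chartAt E x).open_source.mem_nhds (mem_chart_source E x)] with z hz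
  conv_lhs => rw [← proj_chart (chart_mem_atlas E x) hz]
  rfl

/-- The derivative of the action of a group element is bijective. -/
private theorem b_fderiv_bij (γ : Γ) (x : E) :
    Function.Bijective (fderiv ℝ (fun z : E => γ • z) x) := by
  have hd : ∀ (δ : Γ) (z : E), DifferentiableAt ℝ (fun z : E => δ • z) z := fun δ z =>
    (SmoothConst.smooth (E := E) δ).differentiable (by simp) z
  have key : ∀ (δ : Γ) (z : E), (fderiv ℝ (fun w : E => δ⁻¹ • w) (δ • z)).comp
      (fderiv ℝ (fun w : E => δ • w) z) = ContinuousLinearMap.id ℝ E := by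
    intro δ z
    have h1 := fderiv_comp z (hd δ⁻¹ (δ • z)) (hd δ z)
    have h2 : ((fun w : E => δ⁻¹ • w) ∘ fun w : E => δ • w) = id := by
      funext w
      simp
    rw [h2, fderiv_id] at h1
    exact h1.symm
  constructor
  · intro a b hab
    have h1 := congrArg (fun T : E →L[ℝ] E => T a) (key γ x)
    have h2 := congrArg (fun T : E →L[ℝ] E => T b) (key γ x)
    simp only [ContinuousLinearMap.comp_apply, ContinuousLinearMap.id_apply] at h1 h2
    rw [← h1, hab, h2]
  · intro b
    have h3 := key γ⁻¹ (γ • x)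
    rw [inv_smul_smul, inv_inv] at h3
    have h4 := congrArg (fun T : E →L[ℝ] E => T b) h3
    simp only [ContinuousLinearMap.comp_apply, ContinuousLinearMap.id_apply] at h4
    exact ⟨_, h4⟩

private theorem b_harmonic (hN2 : S_N2) (g h : E → E → E → ℝ) (hg : IsMet g univ)
    (hh : IsMet h univ)
    (ginv : ∀ (γ : Γ) (x a b : E), g (γ • x) (fderiv ℝ (fun z => γ • z) x a)
      (fderiv ℝ (fun z => γ • z) x b) = g x a b)
    (hinv : ∀ (γ : Γ) (x a b : E), h (γ • x) (fderiv ℝ (fun z => γ • z) x a)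
      (fderiv ℝ (fun z => γ • z) x b) = h x a b)
    (F : E → E) (hF : ∀ (γ : Γ) x, F (γ • x) = γ • F x) (hs : ContDiff ℝ ∞ F)
    (hT : ∀ x, TensionZeroAt g h F x) :
    HarmonicInCharts (b_met Γ g hg ginv) (b_met Γ h hh hinv) (b_map F hF) := by
  refine ⟨b_map_smooth F hF hs, ?_⟩
  intro x p y _ hy
  rw [b_chartCoeff, b_chartCoeff]
  have hsrc : (extChartAt 𝓘(ℝ, E) p).source = (chartAt E p).source := by
    simp only [mfld_simps, extChartAt]
  rw [hsrc, b_chart_symm, b_map_proj] at hy
  obtain ⟨δ, hδ⟩ := chart_proj (chart_mem_atlas E p) hy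
  have hU : ∀ᶠ z in 𝓝 y, inCharts 𝓘(ℝ, E) 𝓘(ℝ, E) (b_map F hF) x p z = δ • F z := by
    filter_upwards [hs.continuous.continuousAt.eventually hδ] with z hz
    have h1 : inCharts 𝓘(ℝ, E) 𝓘(ℝ, E) (b_map F hF) x p z = chartAt E p (proj Γ (F z)) := by
      unfold inCharts
      rw [b_chart_symm]
      simp only [Function.comp_apply, b_map_proj]
      simp only [mfld_simps, extChartAt]
    rw [h1, hz]
  set U : E → E := inCharts 𝓘(ℝ, E) 𝓘(ℝ, E) (b_map F hF) x p with hUdef
  have hUy : U y = δ • F y := hU.self_of_nhds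
  have hsm : ContDiff ℝ ∞ (fun z : E => δ • F z) := (SmoothConst.smooth (E := E) δ).comp hs
  refine hN2 E E E E g g h h univ univ (fun z => z) (fun w => δ⁻¹ • w) U F y isOpen_univ isOpen_univ
    hg hh (mem_univ _) (mem_univ _) contDiffAt_id ?_ ?_ ?_ ?_ ?_ ?_ ?_ ?_ (hT y)
  · have : fderiv ℝ (fun z : E => z) y = ContinuousLinearMap.id ℝ E := fderiv_fun_id
    rw [this]
    exact Function.bijective_id
  · exact (SmoothConst.smooth (E := E) δ⁻¹).contDiffAt
  · exact b_fderiv_bij δ⁻¹ (U y)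
  · exact hsm.contDiffAt.congr_of_eventuallyEq hU
  · exact hs.contDiffAt
  · filter_upwards [hU] with z hz
    show δ⁻¹ • U z = F z
    rw [hz, inv_smul_smul]
  · filter_upwards with z a b
    have : fderiv ℝ (fun z : E => z) z = ContinuousLinearMap.id ℝ E := fderiv_fun_id
    rw [this]
    rfl
  · filter_upwards with z a b
    exact (hinv δ⁻¹ z a b).symm

/-- The map of the quotient defined by a family of equivariant maps. -/
private theorem b_homotopic (F : E → E) (hF : ∀ (γ : Γ) x, F (γ • x) = γ • F x)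
    (H : ℝ × E → E) (hH : Continuous H) (hHγ : ∀ (γ : Γ) t x, H (t, γ • x) = γ • H (t, x))
    (h0 : ∀ x, H (0, x) = F x) (h1 : ∀ x, H (1, x) = x) (hc : Continuous (b_map F hF)) :
    ContinuousMap.Homotopic (⟨b_map F hF, hc⟩ :
      C(MulAction.orbitRel.Quotient Γ E, MulAction.orbitRel.Quotient Γ E)) (ContinuousMap.id _) := by
  have hq : IsOpenQuotientMap (proj Γ : E → MulAction.orbitRel.Quotient Γ E) :=
    MulAction.isOpenQuotientMap_quotientMk
  let K : unitInterval × MulAction.orbitRel.Quotient Γ E → MulAction.orbitRel.Quotient Γ E :=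
    fun z => b_map (fun y => H (z.1, y)) (fun γ x => hHγ γ z.1 x) z.2
  have hK : Continuous K := by
    have hq2 : IsOpenQuotientMap (Prod.map (id : unitInterval → unitInterval)
        (proj Γ : E → MulAction.orbitRel.Quotient Γ E)) := IsOpenQuotientMap.id.prodMap hq
    rw [hq2.isQuotientMap.continuous_iff]
    have h2 : K ∘ (Prod.map (id : unitInterval → unitInterval)
        (proj Γ : E → MulAction.orbitRel.Quotient Γ E)) = fun z => proj Γ (H (z.1, z.2)) := rfl
    rw [h2]
    exact hq.continuous.comp (hH.comp (by fun_prop))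
  refine ⟨⟨⟨K, hK⟩, ?_, ?_⟩⟩
  · intro x
    obtain ⟨y, rfl⟩ := proj_surjective x
    show proj Γ (H (((0 : unitInterval) : ℝ), y)) = proj Γ (F y)
    rw [Set.Icc.coe_zero, h0]
  · intro x
    obtain ⟨y, rfl⟩ := proj_surjective x
    show proj Γ (H (((1 : unitInterval) : ℝ), y)) = proj Γ y
    rw [Set.Icc.coe_one, h1]

end quot

private theorem b_core (hN2 : S_N2) (n : ℕ) (Γ : Type) [Group Γ]
    [MulAction Γ (EuclideanSpace ℝ (Fin n))] [SmoothConst Γ (EuclideanSpace ℝ (Fin n))]
    (hpd : ∀ K : Set (EuclideanSpace ℝ (Fin n)), IsCompact K →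
      {γ : Γ | ∃ x : EuclideanSpace ℝ (Fin n), x ∈ K ∧ γ • x ∈ K}.Finite)
    (hfree : ∀ (γ : Γ) (x : EuclideanSpace ℝ (Fin n)), γ • x = x → γ = 1)
    (hcc : ∃ K : Set (EuclideanSpace ℝ (Fin n)), IsCompact K ∧ ∀ x, ∃ γ : Γ, γ • x ∈ K)
    (g h : EuclideanSpace ℝ (Fin n) → EuclideanSpace ℝ (Fin n) → EuclideanSpace ℝ (Fin n) → ℝ)
    (F : EuclideanSpace ℝ (Fin n) → EuclideanSpace ℝ (Fin n))
    (H : ℝ × EuclideanSpace ℝ (Fin n) → EuclideanSpace ℝ (Fin n))
    (hg : IsMet g univ) (hh : IsMet h univ)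
    (ginv : ∀ (γ : Γ) (x a b : EuclideanSpace ℝ (Fin n)), g (γ • x) (fderiv ℝ (fun z => γ • z) x a)
      (fderiv ℝ (fun z => γ • z) x b) = g x a b)
    (hinv : ∀ (γ : Γ) (x a b : EuclideanSpace ℝ (Fin n)), h (γ • x) (fderiv ℝ (fun z => γ • z) x a)
      (fderiv ℝ (fun z => γ • z) x b) = h x a b)
    (gneg : ∀ x, NegAt g x) (hneg : ∀ x, NegAt h x) (hs : ContDiff ℝ ∞ F)
    (hF : ∀ (γ : Γ) x, F (γ • x) = γ • F x) (hT : ∀ x, TensionZeroAt g h F x)
    (hH : Continuous H) (hHγ : ∀ (γ : Γ) t x, H (t, γ • x) = γ • H (t, x))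
    (h0 : ∀ x, H (0, x) = F x) (h1 : ∀ x, H (1, x) = x)
    (hinj : ∃ p q, F p = F q ∧ ∀ γ : Γ, γ • p ≠ q) : ¬ LawsonYauInj n := by
  have i1 : ContinuousConstSMul Γ (EuclideanSpace ℝ (Fin n)) :=
    ⟨fun γ => (SmoothConst.smooth (E := EuclideanSpace ℝ (Fin n)) γ).continuous⟩
  have i2 : IsCancelSMul Γ (EuclideanSpace ℝ (Fin n)) := by
    refine { left_cancel' := ?_, right_cancel' := ?_ }
    · intro γ x y hxy
      have := congrArg (fun z => γ⁻¹ • z) hxy
      simpa using this
    · intro γ δ y h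
      have h1 : (δ⁻¹ * γ) • y = y := by rw [mul_smul, h, inv_smul_smul]
      have h2 := hfree _ _ h1
      rw [inv_mul_eq_one] at h2
      exact h2.symm
  have i3 : ProperlyDiscontinuousSMul Γ (EuclideanSpace ℝ (Fin n)) := by
    refine ⟨?_⟩
    intro K L hK hL
    refine (hpd (K ∪ L) (hK.union hL)).subset ?_
    rintro γ ⟨z, ⟨y, hy, rfl⟩, hz⟩
    exact ⟨y, Or.inl hy, Or.inr hz⟩
  have i4 : CompactSpace (MulAction.orbitRel.Quotient Γ (EuclideanSpace ℝ (Fin n))) := by
    obtain ⟨K, hK, hcov⟩ := hcc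
    have hproj : Continuous (proj Γ : EuclideanSpace ℝ (Fin n) →
        MulAction.orbitRel.Quotient Γ (EuclideanSpace ℝ (Fin n))) := continuous_quot_mk
    have h2 : (proj Γ : EuclideanSpace ℝ (Fin n) →
        MulAction.orbitRel.Quotient Γ (EuclideanSpace ℝ (Fin n))) '' K = Set.univ := by
      rw [Set.eq_univ_iff_forall]
      intro x
      obtain ⟨y, rfl⟩ := proj_surjective x
      obtain ⟨γ, hγ⟩ := hcov y
      exact ⟨γ • y, hγ, proj_smul γ y⟩
    have h3 := hK.image hproj
    rw [h2] at h3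
    exact isCompact_univ_iff.1 h3
  have i5 : ConnectedSpace (MulAction.orbitRel.Quotient Γ (EuclideanSpace ℝ (Fin n))) := by
    have h : Function.Surjective (proj Γ : EuclideanSpace ℝ (Fin n) →
        MulAction.orbitRel.Quotient Γ (EuclideanSpace ℝ (Fin n))) := proj_surjective
    exact h.connectedSpace continuous_quot_mk
  intro hLY
  have hc : Continuous (b_map F hF) := (b_map_smooth F hF hs).continuous
  have hu := hLY (MulAction.orbitRel.Quotient Γ (EuclideanSpace ℝ (Fin n)))
    (MulAction.orbitRel.Quotient Γ (EuclideanSpace ℝ (Fin n))) (b_met Γ g hg ginv)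
    (b_met Γ h hh hinv) (b_negCurved g hg ginv gneg) (b_negCurved h hh hinv hneg)
    (ContinuousMap.id _) ⟨ContinuousMap.HomotopyEquiv.refl _, rfl⟩ ⟨b_map F hF, hc⟩
    (b_harmonic hN2 g h hg hh ginv hinv F hF hs hT) (b_homotopic F hF H hH hHγ h0 h1 hc)
  obtain ⟨p, q, hpq, hne⟩ := hinj
  have e1 : b_map F hF (proj Γ p) = b_map F hF (proj Γ q) := by
    show proj Γ (F p) = proj Γ (F q)
    rw [hpq]
  have e2 : proj Γ q = proj Γ p := (hu e1).symm
  obtain ⟨δ, hδ⟩ := exists_of_proj_eq e2
  exact hne δ hδ.symm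

/-- The transported action. -/
@[instance_reducible] private def b_act {Q E : Type} {Γ : Type} [Group Γ] [MulAction Γ Q] (L : Q ≃ E) : MulAction Γ E where
  smul γ x := L (γ • L.symm x)
  one_smul x := by
    show L ((1 : Γ) • L.symm x) = x
    rw [one_smul, L.apply_symm_apply]
  mul_smul γ δ x := by
    show L ((γ * δ) • L.symm x) = L (γ • L.symm (L (δ • L.symm x)))
    rw [L.symm_apply_apply, mul_smul]

theorem t_B : S_B := by
  intro hN1 hN2 n Q _ _ _ Γ _ _ hn hsm hpd hfree hcc g h F H hg hh ginv hinv gneg hneg hFs hF hT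
    hH hHγ h0 h1 hinj
  let L : Q ≃L[ℝ] EuclideanSpace ℝ (Fin n) :=
    ContinuousLinearEquiv.ofFinrankEq (by rw [hn, finrank_euclideanSpace_fin])
  let inst : MulAction Γ (EuclideanSpace ℝ (Fin n)) := b_act (Γ := Γ) L.toEquiv
  have hact : ∀ (γ : Γ) (x : EuclideanSpace ℝ (Fin n)), γ • x = L (γ • L.symm x) := fun γ x => rfl
  have hactf : ∀ γ : Γ, (fun x : EuclideanSpace ℝ (Fin n) => γ • x) =
      fun x => L (γ • L.symm x) := fun γ => rfl
  have hLs : ContDiff ℝ ∞ L := L.contDiff
  have hLs' : ContDiff ℝ ∞ L.symm := L.symm.contDiff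
  have inst2 : SmoothConst Γ (EuclideanSpace ℝ (Fin n)) := by
    refine ⟨fun γ => ?_⟩
    rw [hactf]
    exact hLs.comp ((hsm γ).comp hLs')
  -- derivative of the action
  have hder : ∀ (γ : Γ) (x a : EuclideanSpace ℝ (Fin n)),
      L.symm (fderiv ℝ (fun z : EuclideanSpace ℝ (Fin n) => γ • z) x a) =
        fderiv ℝ (fun z : Q => γ • z) (L.symm x) (L.symm a) := by
    intro γ x a
    have e1 : HasFDerivAt (fun z : Q => γ • z) (fderiv ℝ (fun z : Q => γ • z) (L.symm x)) (L.symm x) :=
      ((hsm γ).differentiable (by simp) _).hasFDerivAt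
    have e2 := (L.hasFDerivAt (x := γ • L.symm x)).comp x
      (e1.comp x (L.symm.hasFDerivAt (x := x)))
    have e3 : fderiv ℝ (fun z : EuclideanSpace ℝ (Fin n) => γ • z) x = _ := e2.fderiv
    rw [e3]
    simp
  have met : ∀ (k : Q → Q → Q → ℝ), IsMet k univ →
      IsMet (fun x a b => k (L.symm x) (L.symm a) (L.symm b)) univ := by
    intro k hk
    refine ⟨?_, ?_, ?_, ?_, ?_⟩
    · intro y u u' v
      simp only [map_add, hk.add]
    · intro y c u v
      simp only [map_smul, hk.smul]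
    · intro y u v
      exact hk.symm _ _ _
    · intro y _ u hu
      exact hk.pos _ (mem_univ _) _ (by simpa using hu)
    · intro u v
      exact (hk.smooth (L.symm u) (L.symm v)).comp hLs'.contDiffOn (fun _ _ => mem_univ _)
  have hfd : ∀ z : EuclideanSpace ℝ (Fin n), fderiv ℝ (L.symm : EuclideanSpace ℝ (Fin n) → Q) z =
      (L.symm : EuclideanSpace ℝ (Fin n) →L[ℝ] Q) := fun z => L.symm.fderiv
  have hbij : ∀ z : EuclideanSpace ℝ (Fin n),
      Function.Bijective (fderiv ℝ (L.symm : EuclideanSpace ℝ (Fin n) → Q) z) := by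
    intro z
    rw [hfd]
    exact L.symm.bijective
  have neg : ∀ (k : Q → Q → Q → ℝ), IsMet k univ → (∀ x, NegAt k x) → ∀ x,
      NegAt (fun x a b => k (L.symm x) (L.symm a) (L.symm b)) x := by
    intro k hk hkn x
    refine hN1 (EuclideanSpace ℝ (Fin n)) Q _ k univ L.symm x isOpen_univ hk (mem_univ _)
      hLs'.contDiffAt (hbij x) ?_ (hkn _)
    filter_upwards with z a b
    rw [hfd]
    rfl
  refine b_core hN2 n Γ ?_ ?_ ?_ (fun x a b => g (L.symm x) (L.symm a) (L.symm b))
    (fun x a b => h (L.symm x) (L.symm a) (L.symm b)) (fun x => L (F (L.symm x)))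
    (fun z => L (H (z.1, L.symm z.2))) (met g hg) (met h hh) ?_ ?_ (neg g hg gneg) (neg h hh hneg)
    ?_ ?_ ?_ ?_ ?_ ?_ ?_ ?_
  · intro K hK
    refine (hpd (L.symm '' K) (hK.image L.symm.continuous)).subset ?_
    rintro γ ⟨x, hx, hγx⟩
    refine ⟨L.symm x, ⟨x, hx, rfl⟩, ⟨γ • x, hγx, ?_⟩⟩
    rw [hact, L.symm_apply_apply]
  · intro γ x hx
    apply hfree γ (L.symm x)
    rw [hact] at hx
    have := congrArg L.symm hx
    rwa [L.symm_apply_apply] at this
  · obtain ⟨K, hK, hcov⟩ := hcc
    refine ⟨L '' K, hK.image L.continuous, fun x => ?_⟩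
    obtain ⟨γ, hγ⟩ := hcov (L.symm x)
    exact ⟨γ, ⟨_, hγ, rfl⟩⟩
  · intro γ x a b
    show g (L.symm (γ • x)) (L.symm _) (L.symm _) = _
    rw [hder, hder, hact, L.symm_apply_apply, ginv]
  · intro γ x a b
    show h (L.symm (γ • x)) (L.symm _) (L.symm _) = _
    rw [hder, hder, hact, L.symm_apply_apply, hinv]
  · exact hLs.comp (hFs.comp hLs')
  · intro γ x
    show L (F (L.symm (γ • x))) = γ • L (F (L.symm x))
    rw [hact, hact, L.symm_apply_apply, L.symm_apply_apply, hF]
  · intro x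
    refine hN2 (EuclideanSpace ℝ (Fin n)) Q (EuclideanSpace ℝ (Fin n)) Q _ g _ h univ univ L.symm
      L.symm _ F x isOpen_univ isOpen_univ hg hh (mem_univ _) (mem_univ _) hLs'.contDiffAt (hbij _)
      hLs'.contDiffAt (hbij _) (hLs.comp (hFs.comp hLs')).contDiffAt hFs.contDiffAt ?_ ?_ ?_
      (hT (L.symm x))
    · filter_upwards with z
      rw [L.symm_apply_apply]
    · filter_upwards with z a b
      rw [hfd]
      rfl
    · filter_upwards with z a b
      rw [hfd]
      rfl
  · exact L.continuous.comp (hH.comp (by fun_prop))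
  · intro γ t x
    show L (H (t, L.symm (γ • x))) = γ • L (H (t, L.symm x))
    rw [hact, hact, L.symm_apply_apply, L.symm_apply_apply, hHγ]
  · intro x
    show L (H (0, L.symm x)) = L (F (L.symm x))
    rw [h0]
  · intro x
    show L (H (1, L.symm x)) = x
    rw [h1, L.apply_symm_apply]
  · obtain ⟨p, q, hpq, hne⟩ := hinj
    refine ⟨L p, L q, ?_, ?_⟩
    · show L (F (L.symm (L p))) = L (F (L.symm (L q)))
      rw [L.symm_apply_apply, L.symm_apply_apply, hpq]
    · intro γ hγ
      apply hne γ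
      rw [hact, L.symm_apply_apply] at hγ
      exact L.injective hγ

end Pool.Agent.Helper473.LY
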