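import Pool.Agent.Helper473.LY.Stmts

/-! Task CRV: the curvature of block metrics. -/

set_option autoImplicit false

open scoped Manifold ContDiff Topology RealInnerProductSpace
open Module

namespace Pool.Agent.Helper473.LY

open Pool.Agent.H234R3

section hyp

variable {X : Type*} [NormedAddCommGroup X] [InnerProductSpace ℝ X]

theorem crv_hyp_add (ζ a a' b : X) : hyp ζ (a + a') b = hyp ζ a b + hyp ζ a' b := by
  unfold hyp
  rw [inner_add_left, inner_add_right]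
  ring

theorem crv_hyp_smul (ζ : X) (c : ℝ) (a b : X) : hyp ζ (c • a) b = c * hyp ζ a b := by
  unfold hyp
  rw [real_inner_smul_left, real_inner_smul_right]
  ring

theorem crv_hyp_symm (ζ a b : X) : hyp ζ a b = hyp ζ b a := by
  unfold hyp
  rw [real_inner_comm, mul_comm ⟪ζ, a⟫]

omit [InnerProductSpace ℝ X] in
theorem crv_N (ζ : X) : (1 + ‖ζ‖ ^ 2) ≠ 0 := by positivity

theorem crv_hyp_self (ζ b : X) : hyp ζ ζ b = ⟪ζ, b⟫ / (1 + ‖ζ‖ ^ 2) := by
  unfold hyp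
  rw [real_inner_self_eq_norm_sq]
  field_simp
  ring

/-- The derivative of the coefficients of the hyperbolic metric. -/
theorem crv_hyp_fderiv (b c ζ : X) : ∃ L : X →L[ℝ] ℝ, HasFDerivAt (fun z => hyp z b c) L ζ ∧
    ∀ a, L a = -(hyp ζ a b * hyp ζ ζ c + hyp ζ a c * hyp ζ ζ b) := by
  have h1 : HasFDerivAt (fun z : X => ⟪z, b⟫) (innerSL ℝ b) ζ := by
    have : (fun z : X => ⟪z, b⟫) = fun z => innerSL ℝ b z := by
      funext z
      rw [innerSL_apply_apply, real_inner_comm]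
    rw [this]
    exact (innerSL ℝ b).hasFDerivAt
  have h2 : HasFDerivAt (fun z : X => ⟪z, c⟫) (innerSL ℝ c) ζ := by
    have : (fun z : X => ⟪z, c⟫) = fun z => innerSL ℝ c z := by
      funext z
      rw [innerSL_apply_apply, real_inner_comm]
    rw [this]
    exact (innerSL ℝ c).hasFDerivAt
  have h3 : HasFDerivAt (fun z : X => 1 + ‖z‖ ^ 2) (2 • innerSL ℝ ζ) ζ :=
    ((hasStrictFDerivAt_norm_sq ζ).hasFDerivAt).const_add 1
  have h4 : HasFDerivAt (fun z : X => (1 + ‖z‖ ^ 2)⁻¹)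
      (-((1 + ‖ζ‖ ^ 2) ^ 2)⁻¹ • (2 • innerSL ℝ ζ)) ζ :=
    (hasDerivAt_inv (crv_N ζ)).comp_hasFDerivAt ζ h3
  have h5 := (((h1.mul h2).mul h4).const_sub ⟪b, c⟫)
  refine ⟨_, h5.congr_of_eventuallyEq (Filter.Eventually.of_forall fun z => ?_), fun a => ?_⟩
  · simp only [hyp, Pi.mul_apply]
    rw [div_eq_mul_inv]
  · rw [crv_hyp_self, crv_hyp_self]
    simp only [hyp, neg_apply, add_apply, smul_apply, innerSL_apply_apply, smul_eq_mul,
      nsmul_eq_mul, Pi.mul_apply]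
    rw [real_inner_comm a b, real_inner_comm a c]
    have := crv_N ζ
    field_simp
    ring

end hyp

section met

variable {E : Type*} [NormedAddCommGroup E] [NormedSpace ℝ E] {g : E → E → E → ℝ} {U : Set E}
  {y : E}

theorem crv_add_right (hg : IsMet g U) (y u v v' : E) : g y u (v + v') = g y u v + g y u v' := by
  rw [hg.symm, hg.add, hg.symm y v, hg.symm y v']

theorem crv_smul_right (hg : IsMet g U) (y : E) (c : ℝ) (u v : E) :
    g y u (c • v) = c * g y u v := by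
  rw [hg.symm, hg.smul, hg.symm y v]

theorem crv_sub_left (hg : IsMet g U) (y u u' v : E) : g y (u - u') v = g y u v - g y u' v := by
  rw [sub_eq_add_neg, hg.add, ← neg_one_smul ℝ u', hg.smul]
  ring

theorem crv_nondeg (hg : IsMet g U) (hy : y ∈ U) {u v : E} (h : ∀ c, g y u c = g y v c) :
    u = v := by
  by_contra hne
  have h1 := hg.pos y hy (u - v) (sub_ne_zero.2 hne)
  rw [crv_sub_left hg, h, sub_self] at h1
  exact lt_irrefl _ h1

theorem crv_diff (hg : IsMet g U) (hU : IsOpen U) (hy : y ∈ U) (u v : E) :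
    DifferentiableAt ℝ (fun z => g z u v) y :=
  ((hg.smooth u v).contDiffAt (hU.mem_nhds hy)).differentiableAt (by simp)

theorem crv_der_add (hg : IsMet g U) (hU : IsOpen U) (hy : y ∈ U) (a u u' v : E) :
    der (fun z => g z (u + u') v) y a = der (fun z => g z u v) y a + der (fun z => g z u' v) y a := by
  have e : (fun z => g z (u + u') v) = fun z => g z u v + g z u' v := by
    funext z
    rw [hg.add]
  unfold der
  rw [e, fderiv_fun_add (crv_diff hg hU hy u v) (crv_diff hg hU hy u' v)]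
  rfl

theorem crv_der_smul (hg : IsMet g U) (hU : IsOpen U) (hy : y ∈ U) (a : E) (c : ℝ) (u v : E) :
    der (fun z => g z (c • u) v) y a = c * der (fun z => g z u v) y a := by
  have e : (fun z => g z (c • u) v) = fun z => c * g z u v := by
    funext z
    rw [hg.smul]
  unfold der
  rw [e, fderiv_const_mul (crv_diff hg hU hy u v)]
  rfl

theorem crv_der_symm (hg : IsMet g U) (a u v : E) :
    der (fun z => g z u v) y a = der (fun z => g z v u) y a := by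
  have e : (fun z => g z u v) = fun z => g z v u := by
    funext z
    rw [hg.symm]
  rw [e]

theorem crv_compat (hg : IsMet g U) (a b c : E) :
    der (fun z => g z b c) y a = koszul g y a b c + koszul g y a c b := by
  unfold koszul
  rw [crv_der_symm hg a c b]
  ring

theorem crv_ko_symm (hg : IsMet g U) (a b c : E) : koszul g y a b c = koszul g y b a c := by
  unfold koszul
  rw [crv_der_symm hg c a b]
  ring

theorem crv_ko_add (hg : IsMet g U) (hU : IsOpen U) (hy : y ∈ U) (a b b' c : E) :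
    koszul g y a (b + b') c = koszul g y a b c + koszul g y a b' c := by
  unfold koszul
  rw [crv_der_add hg hU hy, crv_der_symm hg c a (b + b'), crv_der_add hg hU hy,
    crv_der_symm hg c b a, crv_der_symm hg c b' a]
  have : der (fun z => g z a c) y (b + b') = der (fun z => g z a c) y b +
      der (fun z => g z a c) y b' := by
    unfold der
    rw [map_add]
  rw [this]
  ring

theorem crv_ko_smul (hg : IsMet g U) (hU : IsOpen U) (hy : y ∈ U) (a b : E) (t : ℝ) (c : E) :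
    koszul g y a (t • b) c = t * koszul g y a b c := by
  unfold koszul
  rw [crv_der_smul hg hU hy, crv_der_symm hg c a (t • b), crv_der_smul hg hU hy,
    crv_der_symm hg c b a]
  have : der (fun z => g z a c) y (t • b) = t * der (fun z => g z a c) y b := by
    unfold der
    rw [map_smul, smul_eq_mul]
  rw [this]
  ring

variable {Γ : E → E → E}

theorem crv_G_symm (hg : IsMet g U) (hy : y ∈ U) (hΓ : IsChristoffel g y Γ) (a b : E) :
    Γ a b = Γ b a :=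
  crv_nondeg hg hy fun c => by rw [hΓ, hΓ, crv_ko_symm hg]

theorem crv_G_add (hg : IsMet g U) (hU : IsOpen U) (hy : y ∈ U) (hΓ : IsChristoffel g y Γ)
    (a b b' : E) : Γ a (b + b') = Γ a b + Γ a b' :=
  crv_nondeg hg hy fun c => by rw [hg.add, hΓ, hΓ, hΓ, crv_ko_add hg hU hy]

theorem crv_G_smul (hg : IsMet g U) (hU : IsOpen U) (hy : y ∈ U) (hΓ : IsChristoffel g y Γ)
    (a b : E) (t : ℝ) : Γ a (t • b) = t • Γ a b :=
  crv_nondeg hg hy fun c => by rw [hg.smul, hΓ, hΓ, crv_ko_smul hg hU hy]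

end met

section grad

/-- second basis vector -/
noncomputable def crv_e1 : W := EuclideanSpace.single 1 1

theorem crv_basis (w : W) : w = w 0 • e0 + w 1 • crv_e1 := by
  ext i
  fin_cases i <;> simp [e0, crv_e1]

theorem crv_e1_ne (t : ℝ) : e0 - t • crv_e1 ≠ 0 := by
  intro h
  have := congrArg (fun w : W => w 0) h
  simp [e0, crv_e1] at this

theorem crv_e1_ne' : crv_e1 ≠ 0 := by
  intro h
  have := congrArg (fun w : W => w 1) h
  simp [crv_e1] at this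

variable {g : W → W → W → ℝ} {U : Set W} {y : W}

theorem crv_det_pos (hg : IsMet g U) (hy : y ∈ U) :
    0 < g y e0 e0 * g y crv_e1 crv_e1 - g y e0 crv_e1 ^ 2 := by
  have h1 := hg.pos y hy _ crv_e1_ne'
  have h2 := hg.pos y hy _ (crv_e1_ne (g y e0 crv_e1 / g y crv_e1 crv_e1))
  have h4 : ∀ t : ℝ, g y (e0 - t • crv_e1) (e0 - t • crv_e1) = g y e0 e0 - t * g y e0 crv_e1 -
      t * (g y e0 crv_e1 - t * g y crv_e1 crv_e1) := by
    intro t
    rw [crv_sub_left hg, hg.smul, hg.symm y e0 (e0 - t • crv_e1),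
      hg.symm y crv_e1 (e0 - t • crv_e1), crv_sub_left hg, crv_sub_left hg, hg.smul, hg.smul,
      hg.symm y crv_e1 e0]
  rw [h4] at h2
  have h3 : (g y e0 e0 - g y e0 crv_e1 / g y crv_e1 crv_e1 * g y e0 crv_e1 -
      g y e0 crv_e1 / g y crv_e1 crv_e1 * (g y e0 crv_e1 -
        g y e0 crv_e1 / g y crv_e1 crv_e1 * g y crv_e1 crv_e1)) * g y crv_e1 crv_e1 =
      g y e0 e0 * g y crv_e1 crv_e1 - g y e0 crv_e1 ^ 2 := by
    field_simp
    ring
  rw [← h3]
  exact mul_pos h2 h1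

/-- The gradient exists and is differentiable. -/
theorem crv_grad (hg : IsMet g U) (hU : IsOpen U) {C : W → ℝ} (hC : ContDiffOn ℝ ∞ C U) :
    ∃ G : W → W, (∀ y ∈ U, ∀ β, g y (G y) β = fderiv ℝ C y β) ∧
      (∀ y ∈ U, DifferentiableAt ℝ G y) ∧
      ∀ y ∈ U, ∀ α β, g y (fderiv ℝ G y α) β + der (fun z => g z (G y) β) y α =
        fderiv ℝ (fun z => fderiv ℝ C z β) y α := by
  have hdC : ∀ y ∈ U, ∀ β, DifferentiableAt ℝ (fun z => fderiv ℝ C z β) y := by
    intro y hy β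
    have h1 : ContDiffAt ℝ ∞ C y := hC.contDiffAt (hU.mem_nhds hy)
    have h2 : ContDiffAt ℝ 1 (fderiv ℝ C) y := h1.fderiv_right (by norm_cast)
    exact (h2.differentiableAt (by simp)).clm_apply (differentiableAt_const β)
  set D : W → ℝ := fun z => g z e0 e0 * g z crv_e1 crv_e1 - g z e0 crv_e1 ^ 2 with hD
  set g0 : W → ℝ := fun z => (g z crv_e1 crv_e1 * fderiv ℝ C z e0 -
    g z e0 crv_e1 * fderiv ℝ C z crv_e1) * (D z)⁻¹ with hg0
  set g1 : W → ℝ := fun z => (g z e0 e0 * fderiv ℝ C z crv_e1 -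
    g z e0 crv_e1 * fderiv ℝ C z e0) * (D z)⁻¹ with hg1
  have hDne : ∀ y ∈ U, D y ≠ 0 := fun y hy => (crv_det_pos hg hy).ne'
  have hDd : ∀ y ∈ U, DifferentiableAt ℝ D y := fun y hy =>
    ((crv_diff hg hU hy _ _).mul (crv_diff hg hU hy _ _)).sub ((crv_diff hg hU hy _ _).pow 2)
  have hg0d : ∀ y ∈ U, DifferentiableAt ℝ g0 y := fun y hy =>
    (((crv_diff hg hU hy _ _).mul (hdC y hy _)).sub
      ((crv_diff hg hU hy _ _).mul (hdC y hy _))).mul ((hDd y hy).inv (hDne y hy))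
  have hg1d : ∀ y ∈ U, DifferentiableAt ℝ g1 y := fun y hy =>
    (((crv_diff hg hU hy _ _).mul (hdC y hy _)).sub
      ((crv_diff hg hU hy _ _).mul (hdC y hy _))).mul ((hDd y hy).inv (hDne y hy))
  set G : W → W := fun z => g0 z • e0 + g1 z • crv_e1 with hG
  have hexp : ∀ z β, g z (G z) β = g0 z * g z e0 β + g1 z * g z crv_e1 β := by
    intro z β
    rw [hG]
    simp only
    rw [hg.add, hg.smul, hg.smul]
  have hgrad : ∀ y ∈ U, ∀ β, g y (G y) β = fderiv ℝ C y β := by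
    intro y hy β
    have hne := hDne y hy
    have h0 : g y (G y) e0 = fderiv ℝ C y e0 := by
      rw [hexp, hg0, hg1]
      simp only
      rw [hg.symm y crv_e1 e0]
      field_simp
      rw [hD]
      ring
    have h1 : g y (G y) crv_e1 = fderiv ℝ C y crv_e1 := by
      rw [hexp, hg0, hg1]
      simp only
      field_simp
      rw [hD]
      ring
    rw [crv_basis β, crv_add_right hg, crv_smul_right hg, crv_smul_right hg, h0, h1, map_add,
      map_smul, map_smul]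
    rfl
  refine ⟨G, hgrad, fun y hy => ((hg0d y hy).smul_const _).add ((hg1d y hy).smul_const _), ?_⟩
  intro y hy α β
  have h1 : fderiv ℝ (fun z => fderiv ℝ C z β) y = fderiv ℝ (fun z => g z (G z) β) y := by
    refine Filter.EventuallyEq.fderiv_eq ?_
    filter_upwards [hU.mem_nhds hy] with z hz
    rw [hgrad z hz]
  have h2 : (fun z => g z (G z) β) = fun z => g0 z * g z e0 β + g1 z * g z crv_e1 β := by
    funext z
    exact hexp z β
  have d0 := hg0d y hy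
  have d1 := hg1d y hy
  have d2 := crv_diff hg hU hy e0 β
  have d3 := crv_diff hg hU hy crv_e1 β
  have h3 : fderiv ℝ G y α = (fderiv ℝ g0 y α) • e0 + (fderiv ℝ g1 y α) • crv_e1 := by
    rw [hG, fderiv_fun_add (d0.smul_const _) (d1.smul_const _), fderiv_smul_const d0,
      fderiv_smul_const d1]
    rfl
  have h4 : der (fun z => g z (G y) β) y α = g0 y * der (fun z => g z e0 β) y α +
      g1 y * der (fun z => g z crv_e1 β) y α := by
    have : G y = g0 y • e0 + g1 y • crv_e1 := rfl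
    rw [this, crv_der_add hg hU hy, crv_der_smul hg hU hy, crv_der_smul hg hU hy]
  have h5 : fderiv ℝ (fun z => g0 z * g z e0 β + g1 z * g z crv_e1 β) y = _ :=
    ((d0.hasFDerivAt.mul d2.hasFDerivAt).add (d1.hasFDerivAt.mul d3.hasFDerivAt)).fderiv
  rw [h1, h2, h5, h3, h4, hg.add, hg.smul, hg.smul]
  simp only [der, add_apply, smul_apply, smul_eq_mul]
  ring

end grad

section block

variable {d : ℕ}

/-- The Christoffel symbols of the block metric. -/
noncomputable def crv_Gam (C : W → ℝ) (Γ2 : W → W → W → W) (G : W → W) (z u v : P d) : P d :=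
  ((-hyp z.1 u.1 v.1) • z.1 + (fderiv ℝ C z.2 u.2 * (C z.2)⁻¹) • v.1 +
      (fderiv ℝ C z.2 v.2 * (C z.2)⁻¹) • u.1,
    Γ2 z.2 u.2 v.2 - (C z.2 * hyp z.1 u.1 v.1) • G z.2)

variable {g2 : W → W → W → ℝ} {U : Set W} {C : W → ℝ}

theorem crv_dC (hU : IsOpen U) (hC : ContDiffOn ℝ ∞ C U) {y : W} (hy : y ∈ U) :
    DifferentiableAt ℝ C y :=
  (hC.contDiffAt (hU.mem_nhds hy)).differentiableAt (by simp)

theorem crv_ddC (hU : IsOpen U) (hC : ContDiffOn ℝ ∞ C U) {y : W} (hy : y ∈ U) :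
    DifferentiableAt ℝ (fderiv ℝ C) y := by
  have h1 : ContDiffAt ℝ ∞ C y := hC.contDiffAt (hU.mem_nhds hy)
  have h2 : ContDiffAt ℝ 1 (fderiv ℝ C) y := h1.fderiv_right (by norm_cast)
  exact h2.differentiableAt (by simp)

theorem crv_Q2 (hU : IsOpen U) (hC : ContDiffOn ℝ ∞ C U) {y : W} (hy : y ∈ U) (α β : W) :
    fderiv ℝ (fun z => fderiv ℝ C z β) y α = fderiv ℝ (fderiv ℝ C) y α β := by
  have h := (crv_ddC hU hC hy).hasFDerivAt.clm_apply (hasFDerivAt_const β y)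
  rw [show fderiv ℝ (fun z => fderiv ℝ C z β) y = _ from h.fderiv]
  simp

theorem crv_Q2_symm (hU : IsOpen U) (hC : ContDiffOn ℝ ∞ C U) {y : W} (hy : y ∈ U) (α β : W) :
    fderiv ℝ (fderiv ℝ C) y α β = fderiv ℝ (fderiv ℝ C) y β α := by
  have h1 : ContDiffAt ℝ ∞ C y := hC.contDiffAt (hU.mem_nhds hy)
  exact (h1.isSymmSndFDerivAt (by simp; norm_cast)) α β

theorem crv_dd (hU : IsOpen U) (hC : ContDiffOn ℝ ∞ C U) {y : W} (hy : y ∈ U) (a : W) :
    dd C y a = fderiv ℝ (fderiv ℝ C) y a a := by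
  have hline : ∀ t : ℝ, HasDerivAt (fun t : ℝ => y + t • a) a t := by
    intro t
    have := ((hasDerivAt_id t).smul_const a).const_add y
    simpa using this
  have hcont : Continuous fun t : ℝ => y + t • a := by fun_prop
  have hev : ∀ᶠ t : ℝ in 𝓝 0, y + t • a ∈ U := by
    have h1 : (fun t : ℝ => y + t • a) ⁻¹' U ∈ 𝓝 (0 : ℝ) :=
      hcont.continuousAt.preimage_mem_nhds (by simpa using hU.mem_nhds hy)
    exact h1
  have h1 : deriv (fun t : ℝ => C (y + t • a)) =ᶠ[𝓝 0] fun t => fderiv ℝ C (y + t • a) a := by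
    filter_upwards [hev] with t ht
    exact ((crv_dC hU hC ht).hasFDerivAt.comp_hasDerivAt t (hline t)).deriv
  unfold dd
  rw [h1.deriv_eq]
  have h2 : HasFDerivAt (fun z => fderiv ℝ C z a) (fderiv ℝ (fun z => fderiv ℝ C z a) y)
      (y + (0 : ℝ) • a) := by
    rw [zero_smul, add_zero]
    exact ((crv_ddC hU hC hy).clm_apply (differentiableAt_const a)).hasFDerivAt
  have h3 := (h2.comp_hasDerivAt (0 : ℝ) (hline 0)).deriv
  rw [show deriv (fun t : ℝ => fderiv ℝ C (y + t • a) a) 0 = _ from h3, crv_Q2 hU hC hy]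

theorem crv_blk_der (hg : IsMet g2 U) (hU : IsOpen U) (hC : ContDiffOn ℝ ∞ C U) {z : P d}
    (hz : z.2 ∈ U) (u v w : P d) :
    der (fun q => blk C g2 q v w) z u =
      2 * C z.2 * fderiv ℝ C z.2 u.2 * hyp z.1 v.1 w.1 +
      C z.2 ^ 2 * -(hyp z.1 u.1 v.1 * hyp z.1 z.1 w.1 + hyp z.1 u.1 w.1 * hyp z.1 z.1 v.1) +
      der (fun y => g2 y v.2 w.2) z.2 u.2 := by
  obtain ⟨L, hL, hLa⟩ := crv_hyp_fderiv v.1 w.1 z.1
  have c1 : HasFDerivAt (fun q : P d => C q.2)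
      ((fderiv ℝ C z.2).comp (ContinuousLinearMap.snd ℝ (V d) W)) z :=
    HasFDerivAt.comp z (crv_dC hU hC hz).hasFDerivAt hasFDerivAt_snd
  have c2 : HasFDerivAt (fun q : P d => hyp q.1 v.1 w.1)
      (L.comp (ContinuousLinearMap.fst ℝ (V d) W)) z :=
    HasFDerivAt.comp z hL hasFDerivAt_fst
  have c3 : HasFDerivAt (fun q : P d => g2 q.2 v.2 w.2)
      ((fderiv ℝ (fun y => g2 y v.2 w.2) z.2).comp (ContinuousLinearMap.snd ℝ (V d) W)) z :=
    HasFDerivAt.comp z (crv_diff hg hU hz v.2 w.2).hasFDerivAt hasFDerivAt_snd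
  have c4 := (((c1.pow 2).mul c2).add c3).fderiv
  unfold der
  rw [show fderiv ℝ (fun q => blk C g2 q v w) z = _ from c4]
  simp only [add_apply, smul_apply, ContinuousLinearMap.comp_apply, ContinuousLinearMap.coe_fst',
    ContinuousLinearMap.coe_snd', smul_eq_mul, nsmul_eq_mul, hLa]
  push_cast
  ring

/-- The Christoffel symbols of the block metric. -/
theorem crv_isChr (hg : IsMet g2 U) (hU : IsOpen U) (hC : ContDiffOn ℝ ∞ C U) {z : P d}
    (hz : z.2 ∈ U) (hC0 : C z.2 ≠ 0) {Γ2 : W → W → W → W} (hΓ : IsChristoffel g2 z.2 (Γ2 z.2))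
    {G : W → W} (hG : ∀ β, g2 z.2 (G z.2) β = fderiv ℝ C z.2 β) :
    IsChristoffel (blk C g2) z (crv_Gam C Γ2 G z) := by
  intro u v w
  have h1 : blk C g2 z (crv_Gam C Γ2 G z u v) w =
      C z.2 ^ 2 * (-hyp z.1 u.1 v.1 * hyp z.1 z.1 w.1 +
        fderiv ℝ C z.2 u.2 * (C z.2)⁻¹ * hyp z.1 v.1 w.1 +
        fderiv ℝ C z.2 v.2 * (C z.2)⁻¹ * hyp z.1 u.1 w.1) +
      (koszul g2 z.2 u.2 v.2 w.2 - C z.2 * hyp z.1 u.1 v.1 * fderiv ℝ C z.2 w.2) := by
    unfold blk crv_Gam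
    simp only
    rw [crv_hyp_add, crv_hyp_add, crv_hyp_smul, crv_hyp_smul, crv_hyp_smul, crv_sub_left hg,
      hg.smul, hΓ, hG]
  rw [h1]
  unfold koszul
  rw [crv_blk_der hg hU hC hz, crv_blk_der hg hU hC hz, crv_blk_der hg hU hC hz,
    crv_hyp_symm z.1 v.1 u.1, crv_hyp_symm z.1 w.1 u.1, crv_hyp_symm z.1 w.1 v.1]
  field_simp
  ring

/-- The derivative of the Christoffel symbols. -/
theorem crv_Gam_fderiv (hU : IsOpen U) (hC : ContDiffOn ℝ ∞ C U) {p : P d}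
    (hp : p.2 ∈ U) (hC0 : C p.2 ≠ 0) {Γ2 : W → W → W → W}
    (hΓ : ∀ a b, DifferentiableAt ℝ (fun z => Γ2 z a b) p.2)
    {G : W → W} (hG : DifferentiableAt ℝ G p.2) (v w : P d) :
    ∃ L : P d →L[ℝ] P d, HasFDerivAt (fun z => crv_Gam C Γ2 G z v w) L p ∧ ∀ u, L u =
      ((hyp p.1 u.1 v.1 * hyp p.1 p.1 w.1 + hyp p.1 u.1 w.1 * hyp p.1 p.1 v.1) • p.1 -
        hyp p.1 v.1 w.1 • u.1 +
        (fderiv ℝ (fderiv ℝ C) p.2 u.2 v.2 * (C p.2)⁻¹ -
          fderiv ℝ C p.2 v.2 * fderiv ℝ C p.2 u.2 * ((C p.2)⁻¹) ^ 2) • w.1 +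
        (fderiv ℝ (fderiv ℝ C) p.2 u.2 w.2 * (C p.2)⁻¹ -
          fderiv ℝ C p.2 w.2 * fderiv ℝ C p.2 u.2 * ((C p.2)⁻¹) ^ 2) • v.1,
      fderiv ℝ (fun z => Γ2 z v.2 w.2) p.2 u.2 -
        (fderiv ℝ C p.2 u.2 * hyp p.1 v.1 w.1 - C p.2 *
          (hyp p.1 u.1 v.1 * hyp p.1 p.1 w.1 + hyp p.1 u.1 w.1 * hyp p.1 p.1 v.1)) • G p.2 -
        (C p.2 * hyp p.1 v.1 w.1) • fderiv ℝ G p.2 u.2) := by
  obtain ⟨L, hL, hLa⟩ := crv_hyp_fderiv v.1 w.1 p.1
  have c1 : HasFDerivAt (fun q : P d => C q.2)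
      ((fderiv ℝ C p.2).comp (ContinuousLinearMap.snd ℝ (V d) W)) p :=
    HasFDerivAt.comp p (crv_dC hU hC hp).hasFDerivAt hasFDerivAt_snd
  have c2 : HasFDerivAt (fun q : P d => hyp q.1 v.1 w.1)
      (L.comp (ContinuousLinearMap.fst ℝ (V d) W)) p :=
    HasFDerivAt.comp p hL hasFDerivAt_fst
  have c3 : HasFDerivAt (fun q : P d => Γ2 q.2 v.2 w.2)
      ((fderiv ℝ (fun y => Γ2 y v.2 w.2) p.2).comp (ContinuousLinearMap.snd ℝ (V d) W)) p :=
    HasFDerivAt.comp p (hΓ v.2 w.2).hasFDerivAt hasFDerivAt_snd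
  have c4 : HasFDerivAt (fun q : P d => G q.2)
      ((fderiv ℝ G p.2).comp (ContinuousLinearMap.snd ℝ (V d) W)) p :=
    HasFDerivAt.comp p hG.hasFDerivAt hasFDerivAt_snd
  have c5 : HasFDerivAt (fun q : P d => (C q.2)⁻¹)
      (-((C p.2) ^ 2)⁻¹ • ((fderiv ℝ C p.2).comp (ContinuousLinearMap.snd ℝ (V d) W))) p :=
    (hasDerivAt_inv hC0).comp_hasFDerivAt p c1
  have c6 : ∀ β : W, HasFDerivAt (fun q : P d => fderiv ℝ C q.2 β)
      ((fderiv ℝ (fun y => fderiv ℝ C y β) p.2).comp (ContinuousLinearMap.snd ℝ (V d) W)) p :=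
    fun β => HasFDerivAt.comp p
      ((crv_ddC hU hC hp).clm_apply (differentiableAt_const β)).hasFDerivAt hasFDerivAt_snd
  have c7 : HasFDerivAt (fun q : P d => q.1) (ContinuousLinearMap.fst ℝ (V d) W) p :=
    hasFDerivAt_fst
  have c8 := (((c2.neg.smul c7).add (((c6 v.2).mul c5).smul_const w.1)).add
    (((c6 w.2).mul c5).smul_const v.1)).prodMk (c3.sub ((c1.mul c2).smul c4))
  refine ⟨_, c8, fun u => ?_⟩
  apply Prod.ext
  · simp only [ContinuousLinearMap.prod_apply, add_apply, smul_apply,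
      ContinuousLinearMap.comp_apply, ContinuousLinearMap.coe_fst', ContinuousLinearMap.coe_snd',
      ContinuousLinearMap.smulRight_apply, neg_apply, hLa, crv_Q2 hU hC hp, smul_eq_mul,
      Pi.neg_apply]
    have e : ((C p.2) ^ 2)⁻¹ = ((C p.2)⁻¹) ^ 2 := by rw [inv_pow]
    rw [e]
    module
  · simp only [ContinuousLinearMap.prod_apply, add_apply, sub_apply, smul_apply,
      ContinuousLinearMap.comp_apply, ContinuousLinearMap.coe_fst', ContinuousLinearMap.coe_snd',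
      ContinuousLinearMap.smulRight_apply, neg_apply, hLa, smul_eq_mul, Pi.mul_apply]
    module


/-- The curvature of the block metric. -/
theorem crv_main (hg : IsMet g2 U) (hU : IsOpen U) (hC : ContDiffOn ℝ ∞ C U) {p : P d}
    (hp : p.2 ∈ U) (hC0 : C p.2 ≠ 0) {Γ2 : W → W → W → W}
    (hch : IsChristoffel g2 p.2 (Γ2 p.2))
    (hΓ : ∀ a b, DifferentiableAt ℝ (fun z => Γ2 z a b) p.2)
    {G : W → W} (hG : DifferentiableAt ℝ G p.2) (hG1 : ∀ β, g2 p.2 (G p.2) β = fderiv ℝ C p.2 β)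
    (hG2 : ∀ α β, g2 p.2 (fderiv ℝ G p.2 α) β + der (fun z => g2 z (G p.2) β) p.2 α =
        fderiv ℝ (fderiv ℝ C) p.2 α β) (u v : P d) :
    blk C g2 p (riem (crv_Gam C Γ2 G) p u v v) u = g2 p.2 (riem Γ2 p.2 u.2 v.2 v.2) u.2 -
      C p.2 * (hyp p.1 v.1 v.1 *
          (fderiv ℝ (fderiv ℝ C) p.2 u.2 u.2 - fderiv ℝ C p.2 (Γ2 p.2 u.2 u.2)) -
        2 * hyp p.1 u.1 v.1 *
          (fderiv ℝ (fderiv ℝ C) p.2 u.2 v.2 - fderiv ℝ C p.2 (Γ2 p.2 u.2 v.2)) +
        hyp p.1 u.1 u.1 *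
          (fderiv ℝ (fderiv ℝ C) p.2 v.2 v.2 - fderiv ℝ C p.2 (Γ2 p.2 v.2 v.2))) -
      C p.2 ^ 2 * (1 + g2 p.2 (G p.2) (G p.2)) *
        (hyp p.1 u.1 u.1 * hyp p.1 v.1 v.1 - hyp p.1 u.1 v.1 ^ 2) := by
  obtain ⟨L1, hL1, hL1a⟩ := crv_Gam_fderiv hU hC hp hC0 hΓ hG v v
  obtain ⟨L2, hL2, hL2a⟩ := crv_Gam_fderiv hU hC hp hC0 hΓ hG u v
  have hcov : ∀ α β, g2 p.2 (fderiv ℝ G p.2 α) β = fderiv ℝ (fderiv ℝ C) p.2 α β -
      g2 p.2 (Γ2 p.2 α (G p.2)) β - fderiv ℝ C p.2 (Γ2 p.2 α β) := by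
    intro α β
    have h1 := hG2 α β
    rw [crv_compat hg, ← hch, ← hch] at h1
    have h2 : g2 p.2 (Γ2 p.2 α β) (G p.2) = fderiv ℝ C p.2 (Γ2 p.2 α β) := by
      rw [hg.symm, hG1]
    linarith
  have hq : crv_Gam C Γ2 G p v v = ((-hyp p.1 v.1 v.1) • p.1 +
      (fderiv ℝ C p.2 v.2 * (C p.2)⁻¹) • v.1 + (fderiv ℝ C p.2 v.2 * (C p.2)⁻¹) • v.1,
    Γ2 p.2 v.2 v.2 - (C p.2 * hyp p.1 v.1 v.1) • G p.2) := rfl
  have hq2 : crv_Gam C Γ2 G p u v = ((-hyp p.1 u.1 v.1) • p.1 +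
      (fderiv ℝ C p.2 u.2 * (C p.2)⁻¹) • v.1 + (fderiv ℝ C p.2 v.2 * (C p.2)⁻¹) • u.1,
    Γ2 p.2 u.2 v.2 - (C p.2 * hyp p.1 u.1 v.1) • G p.2) := rfl
  have hsub : ∀ α β β', Γ2 p.2 α (β - β') = Γ2 p.2 α β - Γ2 p.2 α β' := by
    intro α β β'
    have h1 := crv_G_add hg hU hp hch α (β - β') β'
    rw [sub_add_cancel] at h1
    exact eq_sub_of_add_eq h1.symm
  have hsm := fun α β (t : ℝ) => crv_G_smul hg hU hp hch α β t
  -- the two components of the curvature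
  have e1 : (riem (crv_Gam C Γ2 G) p u v v).1 = (L1 u).1 - (L2 v).1 +
      (crv_Gam C Γ2 G p u (crv_Gam C Γ2 G p v v)).1 -
      (crv_Gam C Γ2 G p v (crv_Gam C Γ2 G p u v)).1 := by
    unfold riem
    rw [hL1.fderiv, hL2.fderiv]
    rfl
  have e2 : (riem (crv_Gam C Γ2 G) p u v v).2 = (L1 u).2 - (L2 v).2 +
      (crv_Gam C Γ2 G p u (crv_Gam C Γ2 G p v v)).2 -
      (crv_Gam C Γ2 G p v (crv_Gam C Γ2 G p u v)).2 := by
    unfold riem
    rw [hL1.fderiv, hL2.fderiv]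
    rfl
  have hsubh : ∀ a b c : V d, hyp p.1 (a - b) c = hyp p.1 a c - hyp p.1 b c := by
    intro a b c
    rw [sub_eq_add_neg, crv_hyp_add, ← neg_one_smul ℝ b, crv_hyp_smul]
    ring
  have haddr : ∀ a b c : V d, hyp p.1 a (b + c) = hyp p.1 a b + hyp p.1 a c := by
    intro a b c
    rw [crv_hyp_symm, crv_hyp_add, crv_hyp_symm p.1 b, crv_hyp_symm p.1 c]
  have hsmulr : ∀ (a b : V d) (t : ℝ), hyp p.1 a (t • b) = t * hyp p.1 a b := by
    intro a b t
    rw [crv_hyp_symm, crv_hyp_smul, crv_hyp_symm p.1 b]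
  have s1 : hyp p.1 v.1 u.1 = hyp p.1 u.1 v.1 := crv_hyp_symm _ _ _
  have s2 : hyp p.1 u.1 p.1 = hyp p.1 p.1 u.1 := crv_hyp_symm _ _ _
  have s3 : hyp p.1 v.1 p.1 = hyp p.1 p.1 v.1 := crv_hyp_symm _ _ _
  have s4 : Γ2 p.2 v.2 u.2 = Γ2 p.2 u.2 v.2 := crv_G_symm hg hp hch _ _
  have s5 : fderiv ℝ (fderiv ℝ C) p.2 v.2 u.2 = fderiv ℝ (fderiv ℝ C) p.2 u.2 v.2 :=
    crv_Q2_symm hU hC hp _ _
  have er : g2 p.2 (riem Γ2 p.2 u.2 v.2 v.2) u.2 =
      g2 p.2 (fderiv ℝ (fun z => Γ2 z v.2 v.2) p.2 u.2) u.2 -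
      g2 p.2 (fderiv ℝ (fun z => Γ2 z u.2 v.2) p.2 v.2) u.2 +
      g2 p.2 (Γ2 p.2 u.2 (Γ2 p.2 v.2 v.2)) u.2 - g2 p.2 (Γ2 p.2 v.2 (Γ2 p.2 u.2 v.2)) u.2 := by
    unfold riem
    rw [crv_sub_left hg, hg.add, crv_sub_left hg]
  change C p.2 ^ 2 * hyp p.1 (riem (crv_Gam C Γ2 G) p u v v).1 u.1 +
    g2 p.2 (riem (crv_Gam C Γ2 G) p u v v).2 u.2 = _
  rw [er, e1, e2, hL1a, hL2a]
  unfold crv_Gam
  simp only [hsubh, crv_hyp_add, crv_hyp_smul, haddr, hsmulr, map_sub, map_smul, smul_eq_mul,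
    crv_sub_left hg, hg.add, hg.smul, hsub, hsm, hcov, s1, s2, s3, s4, s5, hG1]
  field_simp
  ring


/-- The algebraic part: the curvature numerator is negative. -/
theorem crv_alg (A B D P R T : ℝ) (hA : 0 ≤ A) (hD : 0 ≤ D) (hP : 0 ≤ P) (hT : 0 ≤ T)
    (h1 : B ^ 2 ≤ A * D) (h2 : R ^ 2 ≤ P * T) : 0 ≤ D * P - 2 * B * R + A * T := by
  by_contra hlt
  push Not at hlt
  have h3 : 0 ≤ D * P + A * T := by positivity
  have h4 : D * P + A * T < 2 * (B * R) := by linarith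
  have h5 : (D * P + A * T) ^ 2 < (2 * (B * R)) ^ 2 := by
    apply pow_lt_pow_left₀ h4 h3 (by norm_num)
  have h6 : (B * R) ^ 2 ≤ (A * D) * (P * T) := by
    rw [mul_pow]
    exact mul_le_mul h1 h2 (sq_nonneg _) (by positivity)
  nlinarith [sq_nonneg (D * P - A * T)]

theorem crv_alg2 (A B D P R T s t s' t' : ℝ) (h1 : s' * A + t' * B = 0) (h2 : s' * B + t' * D = 0) :
    (s ^ 2 * A + 2 * s * t * B + t ^ 2 * D) * (s' ^ 2 * P + 2 * s' * t' * R + t' ^ 2 * T) =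
      (s * t' - s' * t) ^ 2 * (D * P - 2 * B * R + A * T) := by
  linear_combination (2 * (s * s' * P + (s * t' + t * s') * R + t * t' * T) * s -
      (s ^ 2 * P + 2 * s * t * R + t ^ 2 * T) * s') * h1 +
    (2 * (s * s' * P + (s * t' + t * s') * R + t * t' * T) * t -
      (s ^ 2 * P + 2 * s * t * R + t ^ 2 * T) * t') * h2

end block

section forms

variable {E : Type*} [AddCommGroup E] [Module ℝ E]

theorem crv_expand (F : E → E → ℝ) (hadd : ∀ a a' b, F (a + a') b = F a b + F a' b)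
    (hsmul : ∀ (t : ℝ) a b, F (t • a) b = t * F a b) (hsymm : ∀ a b, F a b = F b a) (a b : E)
    (s t : ℝ) : F (s • a + t • b) (s • a + t • b) =
      s ^ 2 * F a a + 2 * s * t * F a b + t ^ 2 * F b b := by
  rw [hadd, hsmul, hsmul, hsymm a (s • a + t • b), hsymm b (s • a + t • b), hadd, hadd, hsmul,
    hsmul, hsmul, hsmul, hsymm b a]
  ring

theorem crv_cs (F : E → E → ℝ) (hadd : ∀ a a' b, F (a + a') b = F a b + F a' b)
    (hsmul : ∀ (t : ℝ) a b, F (t • a) b = t * F a b) (hsymm : ∀ a b, F a b = F b a)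
    (hnn : ∀ a, 0 ≤ F a a) (a b : E) : F a b ^ 2 ≤ F a a * F b b := by
  have h : ∀ x : ℝ, 0 ≤ F b b * (x * x) + (2 * F a b) * x + F a a := by
    intro x
    have h1 := hnn ((1 : ℝ) • a + x • b)
    rw [crv_expand F hadd hsmul hsymm] at h1
    linarith
  have h2 := discrim_le_zero h
  unfold discrim at h2
  linarith

end forms

section dep

variable {E : Type*} [NormedAddCommGroup E] [NormedSpace ℝ E] {g : E → E → E → ℝ} {U : Set E}
  {y : E} {Γ : E → E → E → E}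

theorem crv_dep (hg : IsMet g U) (hU : IsOpen U) (hy : y ∈ U)
    (hch : ∀ᶠ z in 𝓝 y, IsChristoffel g z (Γ z)) (hd : ∀ a b, DifferentiableAt ℝ (fun z => Γ z a b) y)
    {α β : E} {s t : ℝ} (h : s • α + t • β = 0) (hst : ¬(s = 0 ∧ t = 0)) :
    riem Γ y α β β = 0 := by
  have hch0 := hch.self_of_nhds
  have hev : ∀ᶠ z in 𝓝 y, z ∈ U ∧ IsChristoffel g z (Γ z) := (hU.eventually_mem hy).and hch
  have hl : ∀ z, z ∈ U → IsChristoffel g z (Γ z) → ∀ (c : ℝ) a b, Γ z (c • a) b = c • Γ z a b := by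
    intro z hz hc c a b
    rw [crv_G_symm hg hz hc, crv_G_smul hg hU hz hc, crv_G_symm hg hz hc b a]
  by_cases ht : t = 0
  · have hs : s ≠ 0 := fun hs => hst ⟨hs, ht⟩
    have hα : α = 0 := by
      rw [ht, zero_smul, add_zero] at h
      exact (smul_eq_zero.1 h).resolve_left hs
    have h0 : ∀ z, z ∈ U → IsChristoffel g z (Γ z) → ∀ b, Γ z 0 b = 0 := by
      intro z hz hc b
      have := hl z hz hc 0 0 b
      rwa [zero_smul, zero_smul] at this
    have h1 : (fun z => Γ z α β) =ᶠ[𝓝 y] fun _ => (0 : E) := by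
      filter_upwards [hev] with z hz
      rw [hα, h0 z hz.1 hz.2]
    unfold riem
    rw [h1.fderiv_eq, hα, h0 y hy hch0, h0 y hy hch0, crv_G_symm hg hy hch0 β 0, h0 y hy hch0]
    simp
  · obtain ⟨c, hc⟩ : ∃ c : ℝ, β = c • α := by
      refine ⟨-(t⁻¹ * s), ?_⟩
      have h1 : t • β = -(s • α) := eq_neg_of_add_eq_zero_right h
      have h2 : β = t⁻¹ • (t • β) := by rw [smul_smul, inv_mul_cancel₀ ht, one_smul]
      rw [h2, h1, smul_neg, smul_smul, neg_smul]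
    have h1 : (fun z => Γ z β β) =ᶠ[𝓝 y] fun z => (c * c) • Γ z α α := by
      filter_upwards [hev] with z hz
      rw [hc, hl z hz.1 hz.2, crv_G_smul hg hU hz.1 hz.2, smul_smul]
    have h2 : (fun z => Γ z α β) =ᶠ[𝓝 y] fun z => c • Γ z α α := by
      filter_upwards [hev] with z hz
      rw [hc, crv_G_smul hg hU hz.1 hz.2]
    have h1' : Γ y β β = (c * c) • Γ y α α := h1.self_of_nhds
    have h2' : Γ y α β = c • Γ y α α := h2.self_of_nhds
    unfold riem
    rw [h1.fderiv_eq, h2.fderiv_eq, fderiv_fun_const_smul (hd α α), fderiv_fun_const_smul (hd α α),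
      h1', h2', hc, hl y hy hch0, crv_G_smul hg hU hy hch0, crv_G_smul hg hU hy hch0]
    simp only [smul_apply, map_smul, smul_smul]
    abel

end dep

theorem t_CRV : S_CRV := by
  intro hHYP d C g2 U p hU hp hg hC hgood
  obtain ⟨hCpos, Γ2, hΓd, hch, hneg, hH⟩ := hgood
  obtain ⟨hyM, -⟩ := hHYP (V d)
  obtain ⟨G, hG1, hGd, hG2⟩ := crv_grad hg hU hC
  have hch0 := hch.self_of_nhds
  have hC0 : C p.2 ≠ 0 := hCpos.ne'
  refine ⟨crv_Gam C Γ2 G, ?_, ?_, ?_⟩
  · intro a b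
    obtain ⟨L, hL, -⟩ := crv_Gam_fderiv hU hC hp hC0 hΓd (hGd _ hp) a b
    exact hL.differentiableAt
  · have h1 : ∀ᶠ x in 𝓝 p.2, 0 < C x :=
      (crv_dC hU hC hp).continuousAt.eventually (lt_mem_nhds hCpos)
    have h2 : ∀ᶠ x in 𝓝 p.2, x ∈ U ∧ 0 < C x ∧ IsChristoffel g2 x (Γ2 x) :=
      (hU.eventually_mem hp).and (h1.and hch)
    have h3 : ∀ᶠ z : P d in 𝓝 p, z.2 ∈ U ∧ 0 < C z.2 ∧ IsChristoffel g2 z.2 (Γ2 z.2) :=
      (continuous_snd.tendsto p).eventually h2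
    filter_upwards [h3] with z hz
    exact crv_isChr hg hU hC hz.1 hz.2.1.ne' hz.2.2 (hG1 _ hz.1)
  · intro u v huv
    rw [crv_main hg hU hC hp hC0 hch0 hΓd (hGd _ hp) (hG1 _ hp) (fun α β => by
      rw [hG2 _ hp, crv_Q2 hU hC hp])]
    -- the two forms
    obtain ⟨S, hS⟩ : ∃ S : V d → V d → ℝ, S = hyp p.1 := ⟨_, rfl⟩
    have Sadd : ∀ a a' b, S (a + a') b = S a b + S a' b := by
      rw [hS]; exact crv_hyp_add p.1
    have Ssmul : ∀ (t : ℝ) a b, S (t • a) b = t * S a b := by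
      rw [hS]; exact crv_hyp_smul p.1
    have Ssymm : ∀ a b, S a b = S b a := by
      rw [hS]; exact crv_hyp_symm p.1
    have Spos : ∀ a, a ≠ 0 → 0 < S a a := by
      rw [hS]; exact hyM.pos p.1 (Set.mem_univ _)
    have S0 : ∀ b, S 0 b = 0 := by
      intro b
      have := Ssmul 0 0 b
      rwa [zero_smul, zero_mul] at this
    have Snn : ∀ a, 0 ≤ S a a := by
      intro a
      rcases eq_or_ne a 0 with h | h
      · rw [h, S0]
      · exact (Spos a h).le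
    obtain ⟨H, hHd⟩ : ∃ H : W → W → ℝ, H = fun α β =>
      fderiv ℝ (fderiv ℝ C) p.2 α β - fderiv ℝ C p.2 (Γ2 p.2 α β) := ⟨_, rfl⟩
    have Hsymm : ∀ a b, H a b = H b a := by
      intro a b
      rw [hHd]
      simp only
      rw [crv_Q2_symm hU hC hp, crv_G_symm hg hp hch0]
    have Hadd : ∀ a a' b, H (a + a') b = H a b + H a' b := by
      intro a a' b
      rw [hHd]
      simp only
      rw [crv_G_symm hg hp hch0, crv_G_add hg hU hp hch0, map_add, map_add,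
        crv_G_symm hg hp hch0 b a, crv_G_symm hg hp hch0 b a']
      simp only [add_apply]
      ring
    have Hsmul : ∀ (t : ℝ) a b, H (t • a) b = t * H a b := by
      intro t a b
      rw [hHd]
      simp only
      rw [crv_G_symm hg hp hch0, crv_G_smul hg hU hp hch0, map_smul, map_smul,
        crv_G_symm hg hp hch0 b a]
      simp only [smul_apply, smul_eq_mul]
      ring
    have Hpos : ∀ a, a ≠ 0 → 0 < H a a := by
      intro a ha
      have h1 := hH a ha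
      rw [crv_dd hU hC hp] at h1
      rw [hHd]
      exact h1
    have H0 : ∀ b, H 0 b = 0 := by
      intro b
      have := Hsmul 0 0 b
      rwa [zero_smul, zero_mul] at this
    have Hnn : ∀ a, 0 ≤ H a a := by
      intro a
      rcases eq_or_ne a 0 with h | h
      · rw [h, H0]
      · exact (Hpos a h).le
    have Hval : ∀ α β, fderiv ℝ (fderiv ℝ C) p.2 α β - fderiv ℝ C p.2 (Γ2 p.2 α β) = H α β := by
      intro α β
      rw [hHd]
    rw [Hval, Hval, Hval, ← hS]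
    have csS := crv_cs S Sadd Ssmul Ssymm Snn u.1 v.1
    have csH := crv_cs H Hadd Hsmul Hsymm Hnn u.2 v.2
    have hQ := crv_alg (S u.1 u.1) (S u.1 v.1) (S v.1 v.1) (H u.2 u.2) (H u.2 v.2) (H v.2 v.2)
      (Snn _) (Snn _) (Hnn _) (Hnn _) csS csH
    have hGG : 0 ≤ g2 p.2 (G p.2) (G p.2) := by
      rcases eq_or_ne (G p.2) 0 with h | h
      · rw [h]
        have := hg.smul p.2 0 0 (0 : W)
        rw [zero_smul, zero_mul] at this
        rw [this]
      · exact (hg.pos p.2 hp _ h).le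
    have hR : g2 p.2 (riem Γ2 p.2 u.2 v.2 v.2) u.2 ≤ 0 := by
      by_cases hli : LinearIndependent ℝ ![u.2, v.2]
      · exact (hneg _ _ hli).le
      · rw [LinearIndependent.pair_iff] at hli
        push Not at hli
        obtain ⟨s, t, h1, h2⟩ := hli
        rw [crv_dep hg hU hp hch hΓd h1 (fun h => h2 h.1 h.2)]
        have := hg.smul p.2 0 0 u.2
        rw [zero_smul, zero_mul] at this
        rw [this]
    have hgram : 0 ≤ S u.1 u.1 * S v.1 v.1 - S u.1 v.1 ^ 2 := by linarith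
    have hk1 : 0 < C p.2 ^ 2 * (1 + g2 p.2 (G p.2) (G p.2)) := by positivity
    by_contra hcon
    push Not at hcon
    have m1 : 0 ≤ C p.2 * (S v.1 v.1 * H u.2 u.2 - 2 * S u.1 v.1 * H u.2 v.2 +
        S u.1 u.1 * H v.2 v.2) := mul_nonneg hCpos.le hQ
    have m2 : 0 ≤ C p.2 ^ 2 * (1 + g2 p.2 (G p.2) (G p.2)) *
        (S u.1 u.1 * S v.1 v.1 - S u.1 v.1 ^ 2) := mul_nonneg hk1.le hgram
    have z1 : g2 p.2 (riem Γ2 p.2 u.2 v.2 v.2) u.2 = 0 := by linarith
    have z2 : C p.2 * (S v.1 v.1 * H u.2 u.2 - 2 * S u.1 v.1 * H u.2 v.2 +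
        S u.1 u.1 * H v.2 v.2) = 0 := by linarith
    have z3 : C p.2 ^ 2 * (1 + g2 p.2 (G p.2) (G p.2)) *
        (S u.1 u.1 * S v.1 v.1 - S u.1 v.1 ^ 2) = 0 := by linarith
    have z2' := (mul_eq_zero.1 z2).resolve_left hC0
    have z3' := (mul_eq_zero.1 z3).resolve_left hk1.ne'
    have hli : ¬ LinearIndependent ℝ ![u.2, v.2] := by
      intro h
      have := hneg _ _ h
      linarith
    rw [LinearIndependent.pair_iff] at hli huv
    push Not at hli
    obtain ⟨s, t, hst, hst0⟩ := hli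
    obtain ⟨s', t', hst', hst0'⟩ : ∃ s' t' : ℝ, s' • u.1 + t' • v.1 = 0 ∧ ¬(s' = 0 ∧ t' = 0) := by
      by_cases hb : v.1 = 0
      · exact ⟨0, 1, by rw [hb]; simp, by simp⟩
      · refine ⟨S v.1 v.1, -S u.1 v.1, ?_, fun h => (Spos _ hb).ne' h.1⟩
        by_contra hne
        have h1 := Spos _ hne
        rw [crv_expand S Sadd Ssmul Ssymm] at h1
        have h2 : S v.1 v.1 ^ 2 * S u.1 u.1 + 2 * S v.1 v.1 * -S u.1 v.1 * S u.1 v.1 +
            (-S u.1 v.1) ^ 2 * S v.1 v.1 =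
            S v.1 v.1 * (S u.1 u.1 * S v.1 v.1 - S u.1 v.1 ^ 2) := by ring
        rw [h2, z3', mul_zero] at h1
        exact lt_irrefl _ h1
    have hc : s • u.1 + t • v.1 ≠ 0 := by
      intro h
      have h1 := huv s t (Prod.ext h hst)
      exact hst0 h1.1 h1.2
    have hγ : s' • u.2 + t' • v.2 ≠ 0 := by
      intro h
      exact hst0' (huv s' t' (Prod.ext hst' h))
    have k1 := Spos _ hc
    have k2 := Hpos _ hγ
    rw [crv_expand S Sadd Ssmul Ssymm] at k1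
    rw [crv_expand H Hadd Hsmul Hsymm] at k2
    have k3 := crv_alg2 (S u.1 u.1) (S u.1 v.1) (S v.1 v.1) (H u.2 u.2) (H u.2 v.2) (H v.2 v.2)
      s t s' t' (by
        have h1 : S (s' • u.1 + t' • v.1) u.1 = 0 := by rw [hst', S0]
        rw [Sadd, Ssmul, Ssmul, Ssymm v.1 u.1] at h1
        exact h1) (by
        have h1 : S (s' • u.1 + t' • v.1) v.1 = 0 := by rw [hst', S0]
        rw [Sadd, Ssmul, Ssmul] at h1
        exact h1)
    rw [z2', mul_zero] at k3
    exact (mul_pos k1 k2).ne' k3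

end Pool.Agent.Helper473.LY
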