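import Pool.Agent.Helper473.LY.Stmts2

set_option autoImplicit false

open scoped Manifold ContDiff Topology RealInnerProductSpace
open Module

namespace Pool.Agent.Helper473.LY

open Pool.Agent.H234R3

theorem fold_cont (hSM : S_SM) (n : ℕ) (s ε r : ℝ) (hn : 1 ≤ n) (hε : 0 < ε) (hr : 0 < r) :
    Continuous (fun t : ℝ => (t + zc n ε s (t ^ 2)) / (1 + r * t ^ 2)) := by
  have hz : Continuous (fun t : ℝ => zh n ε s (t ^ 2)) := by
    rw [continuous_iff_continuousAt]
    intro t
    have h1 := (hSM n ε (t ^ 2) hn hε.le (sq_nonneg t) (by positivity)).2.2.2.2.1 s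
    have h2 := h1.continuousAt
    have h3 : ContinuousAt (fun t : ℝ => ((ε, s, t ^ 2) : ℝ × ℝ × ℝ)) t := by fun_prop
    exact ContinuousAt.comp (f := fun t : ℝ => ((ε, s, t ^ 2) : ℝ × ℝ × ℝ))
      (g := fun q : ℝ × ℝ × ℝ => zh n q.1 q.2.1 q.2.2) h2 h3
  have hc : Continuous (fun t : ℝ => chi1 (t ^ 2)) := by
    unfold chi1
    exact Real.smoothTransition.continuous.comp (by fun_prop)
  have hzc : Continuous (fun t : ℝ => zc n ε s (t ^ 2)) := by
    unfold zc
    exact hc.mul hz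
  apply Continuous.div (continuous_id.add hzc) (by fun_prop)
  intro t
  positivity

theorem t_FOLD : S_FOLD := by
  intro _ hSM n s ε r t0 hn hε _ hr hr10 ht0 hd
  by_contra hcon
  push Not at hcon
  set g : ℝ → ℝ := fun t => (t + zc n ε s (t ^ 2)) / (1 + r * t ^ 2) with hg
  have hcont : Continuous g := fold_cont hSM n s ε r hn hε hr
  have hsmall : ∀ t ∈ Set.Icc (-(3/2) : ℝ) (3/2), r * t ^ 2 < 1 := by
    intro t ht
    have h1 : t ^ 2 ≤ 9 / 4 := by nlinarith [ht.1, ht.2]
    nlinarith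
  have hinj : Set.InjOn g (Set.Icc (-(3/2) : ℝ) (3/2)) := by
    intro a ha b hb hab
    by_contra hne
    exact hcon a b hne (hsmall a ha) (hsmall b hb) hab
  have hzero : ∀ t : ℝ, 2 ≤ t ^ 2 → g t = t / (1 + r * t ^ 2) := by
    intro t ht
    have : chi1 (t ^ 2) = 0 := by
      unfold chi1
      exact Real.smoothTransition.zero_of_nonpos (by linarith)
    simp [hg, zc, this]
  have h12 : g (71 / 50) < g (3 / 2) := by
    rw [hzero _ (by norm_num), hzero _ (by norm_num)]
    rw [div_lt_div_iff₀ (by positivity) (by positivity)]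
    nlinarith
  have hmem1 : (71 / 50 : ℝ) ∈ Set.Icc (-(3/2) : ℝ) (3/2) := by constructor <;> norm_num
  have hmem2 : (3 / 2 : ℝ) ∈ Set.Icc (-(3/2) : ℝ) (3/2) := by constructor <;> norm_num
  rcases ContinuousOn.strictMonoOn_of_injOn_Icc' (by norm_num) hcont.continuousOn hinj with hm | ha
  · have hnn : 0 ≤ derivWithin g (Set.Icc (-(3/2) : ℝ) (3/2)) t0 :=
      hm.monotoneOn.derivWithin_nonneg
    have hin : Set.Icc (-(3/2) : ℝ) (3/2) ∈ 𝓝 t0 := by
      apply Icc_mem_nhds
      · linarith [(abs_lt.mp ht0).1]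
      · linarith [(abs_lt.mp ht0).2]
    rw [derivWithin_of_mem_nhds hin] at hnn
    exact absurd hd (not_lt.mpr hnn)
  · exact absurd (ha hmem1 hmem2 (by norm_num)) (not_lt.mpr h12.le)

end Pool.Agent.Helper473.LY
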