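import Pool.Agent.Helper473.LY.Stmts2

set_option autoImplicit false

open scoped Manifold ContDiff Topology RealInnerProductSpace
open Module

namespace Pool.Agent.Helper473.LY

open Pool.Agent.H234R3

section Germ

variable {E : Type*} [NormedAddCommGroup E] [NormedSpace ℝ E]
  {F : Type*} [NormedAddCommGroup F] [NormedSpace ℝ F]

theorem germ_der {U U' : E → F} {y : E} (h : ∀ᶠ z in 𝓝 y, U z = U' z) (a : E) :
    der U y a = der U' y a := by
  have h1 : U =ᶠ[𝓝 y] U' := h
  unfold der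
  rw [h1.fderiv_eq]

theorem germ_dd {U U' : E → F} {y : E} (h : ∀ᶠ z in 𝓝 y, U z = U' z) (a : E) :
    dd U y a = dd U' y a := by
  have hc : Filter.Tendsto (fun t : ℝ => y + t • a) (𝓝 0) (𝓝 y) := by
    have : Continuous (fun t : ℝ => y + t • a) := by fun_prop
    simpa using this.tendsto 0
  have h1 : (fun t : ℝ => U (y + t • a)) =ᶠ[𝓝 0] fun t : ℝ => U' (y + t • a) := hc.eventually h
  unfold dd
  exact h1.deriv.deriv_eq

theorem germ_koszul {g g' : E → E → E → ℝ} {y : E} (h : ∀ᶠ z in 𝓝 y, g z = g' z) (a b c : E) :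
    koszul g y a b c = koszul g' y a b c := by
  have h1 : ∀ u v : E, ∀ᶠ z in 𝓝 y, (fun z => g z u v) z = (fun z => g' z u v) z := fun u v =>
    h.mono fun z hz => by simp only [hz]
  unfold koszul
  rw [germ_der (h1 b c), germ_der (h1 a c), germ_der (h1 a b)]

theorem germ_chris {g g' : E → E → E → ℝ} {y : E} (h : ∀ᶠ z in 𝓝 y, g z = g' z)
    {Γ : E → E → E} (hΓ : IsChristoffel g y Γ) : IsChristoffel g' y Γ := by
  intro a b c
  rw [← h.self_of_nhds, ← germ_koszul h a b c]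
  exact hΓ a b c

theorem germ_chris_ev {g g' : E → E → E → ℝ} {y : E} (h : ∀ᶠ z in 𝓝 y, g z = g' z)
    {Γ : E → E → E → E} (hΓ : ∀ᶠ z in 𝓝 y, IsChristoffel g z (Γ z)) :
    ∀ᶠ z in 𝓝 y, IsChristoffel g' z (Γ z) := by
  filter_upwards [h.eventually_nhds, hΓ] with z h1 h2
  exact germ_chris h1 h2

end Germ

theorem t_GERM : S_GERM := by
  refine ⟨?_, ?_, ?_⟩
  · intro E _ _ g g' y h hn
    obtain ⟨Γ, h1, h2, h3⟩ := hn
    refine ⟨Γ, h1, germ_chris_ev h h2, fun a b hab => ?_⟩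
    rw [← h.self_of_nhds]
    exact h3 a b hab
  · intro C C' g g' y hC h hn
    obtain ⟨h0, Γ, h1, h2, h3, h4⟩ := hn
    refine ⟨?_, Γ, h1, germ_chris_ev h h2, fun a b hab => ?_, fun a ha => ?_⟩
    · rw [← hC.self_of_nhds]
      exact h0
    · rw [← h.self_of_nhds]
      exact h3 a b hab
    · rw [← germ_dd hC, ← germ_der hC]
      exact h4 a ha
  · intro E F _ _ _ _ g g' h h' U U' y hg hh hU hT
    obtain ⟨Γ, Γ', e, h1, h2, h3, h4⟩ := hT
    have hy : U y = U' y := hU.self_of_nhds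
    refine ⟨Γ, Γ', e, germ_chris hg h1, ?_, ?_, ?_⟩
    · rw [← hy]
      exact germ_chris hh h2
    · intro i j
      rw [← hg.self_of_nhds]
      exact h3 i j
    · rw [← h4]
      refine Finset.sum_congr rfl fun i _ => ?_
      unfold nablaD
      rw [← germ_dd hU, ← germ_der hU, ← germ_der hU]

end Pool.Agent.Helper473.LY
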