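import Mathlib
import Pool.Agent.Helper473.LY.Stmts

/-!
# Lawson–Yau: gluing the tubes
-/

set_option autoImplicit false

open scoped Manifold ContDiff Topology RealInnerProductSpace
open Module

namespace Pool.Agent.Helper473.LY

open Pool.Agent.H234R3

variable {d : ℕ}

/-! ### The hyperboloid -/

theorem glue_pos {X : Type*} [NormedAddCommGroup X] (x : X) : 0 < 1 + ‖x‖ ^ 2 := by positivity

theorem glue_spos {X : Type*} [NormedAddCommGroup X] (x : X) : 0 < √(1 + ‖x‖ ^ 2) :=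
  Real.sqrt_pos.2 (glue_pos x)

theorem glue_ssq {X : Type*} [NormedAddCommGroup X] (x : X) :
    √(1 + ‖x‖ ^ 2) ^ 2 = 1 + ‖x‖ ^ 2 := Real.sq_sqrt (glue_pos x).le

theorem glue_piP_iota (p : P d) : piP (iota p) = p := by
  have h := (glue_spos p.2).ne'
  unfold piP iota
  ext1
  · simp only
    rw [smul_smul, inv_mul_cancel₀ h, one_smul]
  · rfl

theorem glue_J_iota (p : P d) : J (iota p) (iota p) = -1 := by
  unfold J iota
  simp only [inner_smul_left, inner_smul_right, real_inner_self_eq_norm_sq, conj_trivial]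
  have h1 := glue_ssq p.1
  have h2 := glue_ssq p.2
  set a := √(1 + ‖p.1‖ ^ 2)
  set b := √(1 + ‖p.2‖ ^ 2)
  have : -(b * a * (b * a)) + b * (b * ‖p.1‖ ^ 2) + ‖p.2‖ ^ 2
      = -(b ^ 2 * a ^ 2) + b ^ 2 * ‖p.1‖ ^ 2 + ‖p.2‖ ^ 2 := by ring
  rw [this, h1, h2]
  ring

theorem glue_iota_piP (x : L d) (h : J x x = -1) (h0 : 0 < x.1) : iota (piP x) = x := by
  have hs := glue_spos x.2.2
  have hss := glue_ssq x.2.2
  unfold J at h
  simp only [real_inner_self_eq_norm_sq] at h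
  unfold piP iota
  ext1
  · simp only
    rw [norm_smul, mul_pow, norm_inv, Real.norm_of_nonneg hs.le, ← Real.sqrt_mul (glue_pos _).le]
    rw [Real.sqrt_eq_iff_mul_self_eq_of_pos h0, inv_pow, hss]
    have : (1 + ‖x.2.2‖ ^ 2) ≠ 0 := (glue_pos _).ne'
    field_simp
    nlinarith
  · simp only
    ext1
    · simp only
      rw [smul_smul, mul_inv_cancel₀ hs.ne', one_smul]
    · rfl

theorem glue_iota_act {γ : L d ≃ₗ[ℝ] L d} (hJ : ∀ x y, J (γ x) (γ y) = J x y)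
    (hu : ∀ p, 0 < (γ (iota p)).1) (p : P d) : iota (act γ p) = γ (iota p) := by
  unfold act
  exact glue_iota_piP _ (by rw [hJ, glue_J_iota]) (hu p)

theorem glue_contDiff_s {X : Type*} [NormedAddCommGroup X] [InnerProductSpace ℝ X] :
    ContDiff ℝ ∞ (fun x : X => √(1 + ‖x‖ ^ 2)) :=
  (contDiff_const.add (contDiff_norm_sq ℝ)).sqrt fun x => (glue_pos x).ne'

theorem glue_contDiff_iota : ContDiff ℝ ∞ (iota (d := d)) := by
  unfold iota
  have h1 : ContDiff ℝ ∞ (fun p : P d => √(1 + ‖p.1‖ ^ 2)) := glue_contDiff_s.comp contDiff_fst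
  have h2 : ContDiff ℝ ∞ (fun p : P d => √(1 + ‖p.2‖ ^ 2)) := glue_contDiff_s.comp contDiff_snd
  exact (h2.mul h1).prodMk ((h2.smul contDiff_fst).prodMk contDiff_snd)

theorem glue_contDiff_piP : ContDiff ℝ ∞ (piP (d := d)) := by
  unfold piP
  have h2 : ContDiff ℝ ∞ (fun x : L d => √(1 + ‖x.2.2‖ ^ 2)) :=
    glue_contDiff_s.comp (contDiff_snd.comp contDiff_snd)
  exact ((h2.inv fun x => (glue_spos x.2.2).ne').smul (contDiff_fst.comp contDiff_snd)).prodMk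
    (contDiff_snd.comp contDiff_snd)

theorem glue_contDiff_act (γ : L d ≃ₗ[ℝ] L d) : ContDiff ℝ ∞ (act γ) := by
  unfold act
  exact glue_contDiff_piP.comp
    ((LinearMap.toContinuousLinearMap (γ : L d →ₗ[ℝ] L d)).contDiff.comp glue_contDiff_iota)

theorem glue_hasFDerivAt_s {X : Type*} [NormedAddCommGroup X] [InnerProductSpace ℝ X] (x : X) :
    HasFDerivAt (fun x : X => √(1 + ‖x‖ ^ 2)) ((√(1 + ‖x‖ ^ 2))⁻¹ • innerSL ℝ x) x := by
  have h := (((hasStrictFDerivAt_norm_sq x).hasFDerivAt).const_add 1).sqrt (glue_pos x).ne'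
  convert h using 1
  rw [← Nat.cast_smul_eq_nsmul ℝ, smul_smul]
  congr 1
  have := (glue_spos x).ne'
  push_cast
  field_simp

theorem glue_fderiv_iota (p u : P d) : fderiv ℝ iota p u
    = (√(1 + ‖p.2‖ ^ 2) * ((√(1 + ‖p.1‖ ^ 2))⁻¹ * ⟪p.1, u.1⟫)
        + √(1 + ‖p.1‖ ^ 2) * ((√(1 + ‖p.2‖ ^ 2))⁻¹ * ⟪p.2, u.2⟫),
      √(1 + ‖p.2‖ ^ 2) • u.1 + ((√(1 + ‖p.2‖ ^ 2))⁻¹ * ⟪p.2, u.2⟫) • p.1, u.2) := by
  have h1 := (glue_hasFDerivAt_s p.1).comp p hasFDerivAt_fst
  have h2 := (glue_hasFDerivAt_s p.2).comp p hasFDerivAt_snd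
  have h := (h2.mul h1).prodMk ((h2.smul (hasFDerivAt_fst (𝕜 := ℝ) (p := p))).prodMk
    (hasFDerivAt_snd (𝕜 := ℝ) (p := p)))
  have h' : HasFDerivAt (iota (d := d)) _ p := h
  rw [h'.fderiv]
  simp

theorem glue_blk_eq (p u v : P d) :
    blk ch hyp p u v = J (fderiv ℝ iota p u) (fderiv ℝ iota p v) := by
  rw [glue_fderiv_iota, glue_fderiv_iota]
  unfold blk ch hyp J
  simp only [inner_add_left, inner_add_right, inner_smul_left, inner_smul_right, conj_trivial,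
    real_inner_self_eq_norm_sq]
  rw [real_inner_comm p.1 u.1]
  have h1 := glue_ssq p.1
  have h2 := glue_ssq p.2
  have h1' := (glue_spos p.1).ne'
  have h2' := (glue_spos p.2).ne'
  generalize √(1 + ‖p.1‖ ^ 2) = a at *
  generalize √(1 + ‖p.2‖ ^ 2) = b at *
  rw [← h1, ← h2]
  have e1 : ‖p.1‖ ^ 2 = a ^ 2 - 1 := by rw [h1]; ring
  rw [e1]
  field_simp
  ring

/-! ### The action of the isometries -/

/-- Linear isometries of Minkowski space which preserve the upper sheet of the hyperboloid. -/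
structure glue_Iso (γ : L d ≃ₗ[ℝ] L d) : Prop where
  isom : ∀ x y, J (γ x) (γ y) = J x y
  up : ∀ p, 0 < (γ (iota p)).1

theorem glue_act_one (p : P d) : act (1 : L d ≃ₗ[ℝ] L d) p = p := glue_piP_iota p

theorem glue_act_mul (γ : L d ≃ₗ[ℝ] L d) {δ : L d ≃ₗ[ℝ] L d} (h : glue_Iso δ) (p : P d) :
    act (γ * δ) p = act γ (act δ p) := by
  unfold act
  have := glue_iota_act h.isom h.up p
  unfold act at this
  rw [this]
  rfl

theorem glue_act_inv {γ : L d ≃ₗ[ℝ] L d} (h : glue_Iso γ) (p : P d) :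
    act γ⁻¹ (act γ p) = p := by
  rw [← glue_act_mul _ h, inv_mul_cancel, glue_act_one]

theorem glue_fderiv_act {γ : L d ≃ₗ[ℝ] L d} (h : glue_Iso γ) (p u : P d) :
    fderiv ℝ iota (act γ p) (fderiv ℝ (act γ) p u) = γ (fderiv ℝ iota p u) := by
  have h1 : DifferentiableAt ℝ (iota (d := d)) (act γ p) :=
    glue_contDiff_iota.contDiffAt.differentiableAt (by simp)
  have h2 : DifferentiableAt ℝ (act γ) p :=
    (glue_contDiff_act γ).contDiffAt.differentiableAt (by simp)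
  have h3 : DifferentiableAt ℝ (iota (d := d)) p :=
    glue_contDiff_iota.contDiffAt.differentiableAt (by simp)
  have e : (iota ∘ act γ) = (LinearMap.toContinuousLinearMap (γ : L d →ₗ[ℝ] L d)) ∘ iota := by
    funext q
    exact glue_iota_act h.isom h.up q
  have e1 := fderiv_comp p h1 h2
  have e2 := fderiv_comp p (LinearMap.toContinuousLinearMap (γ : L d →ₗ[ℝ] L d)).differentiableAt h3
  rw [e, e2, ContinuousLinearMap.fderiv] at e1
  have := congrArg (fun T : P d →L[ℝ] L d => T u) e1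
  exact this.symm

theorem glue_blk_inv {γ : L d ≃ₗ[ℝ] L d} (h : glue_Iso γ) (p u v : P d) :
    blk ch hyp (act γ p) (fderiv ℝ (act γ) p u) (fderiv ℝ (act γ) p v) = blk ch hyp p u v := by
  rw [glue_blk_eq, glue_blk_eq, glue_fderiv_act h, glue_fderiv_act h, h.isom]

theorem glue_stab_snd {γ : L d ≃ₗ[ℝ] L d} (h : glue_Iso γ)
    (hs : ∀ w : W, γ (0, 0, w) = (0, 0, w)) (x : L d) : (γ x).2.2 = x.2.2 := by
  refine ext_inner_right ℝ fun w => ?_
  have := h.isom x (0, 0, w)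
  rw [hs w] at this
  simpa [J] using this

/-- The restriction to the core of an isometry which preserves the tube. -/
noncomputable def glue_A (γ : L d ≃ₗ[ℝ] L d) (ζ : V d) : V d :=
  (γ (√(1 + ‖ζ‖ ^ 2), ζ, (0 : W))).2.1

theorem glue_contDiff_A (γ : L d ≃ₗ[ℝ] L d) : ContDiff ℝ ∞ (glue_A γ) := by
  unfold glue_A
  have h := (glue_contDiff_s (X := V d)).prodMk (contDiff_id.prodMk (contDiff_const (c := (0 : W))))
  exact contDiff_fst.comp (contDiff_snd.comp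
    ((LinearMap.toContinuousLinearMap (γ : L d →ₗ[ℝ] L d)).contDiff.comp h))

theorem glue_stab_act {γ : L d ≃ₗ[ℝ] L d} (h : glue_Iso γ)
    (hs : ∀ w : W, γ (0, 0, w) = (0, 0, w)) (p : P d) : act γ p = (glue_A γ p.1, p.2) := by
  have e : iota p = √(1 + ‖p.2‖ ^ 2) • ((√(1 + ‖p.1‖ ^ 2), p.1, (0 : W)) : L d)
      + ((0, 0, p.2) : L d) := by
    unfold iota
    simp
  have h2 : (γ (iota p)).2.2 = p.2 := glue_stab_snd h hs _
  unfold act piP
  rw [h2]
  refine Prod.ext ?_ rfl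
  simp only
  rw [e, map_add, map_smul, hs]
  simp only [Prod.snd_add, Prod.fst_add, Prod.smul_snd, Prod.smul_fst, add_zero]
  rw [smul_smul, inv_mul_cancel₀ (glue_spos p.2).ne', one_smul]
  rfl

theorem glue_stab_fderiv {γ : L d ≃ₗ[ℝ] L d} (h : glue_Iso γ)
    (hs : ∀ w : W, γ (0, 0, w) = (0, 0, w)) (p u : P d) :
    fderiv ℝ (act γ) p u = (fderiv ℝ (glue_A γ) p.1 u.1, u.2) := by
  have e : act γ = fun p : P d => (glue_A γ p.1, p.2) := by
    funext q
    exact glue_stab_act h hs q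
  have h1 : DifferentiableAt ℝ (glue_A γ) p.1 :=
    (glue_contDiff_A γ).contDiffAt.differentiableAt (by simp)
  have h5 : HasFDerivAt (fun q : P d => q.1) (ContinuousLinearMap.fst ℝ (V d) W) p :=
    hasFDerivAt_fst
  have h6 : HasFDerivAt (fun q : P d => q.2) (ContinuousLinearMap.snd ℝ (V d) W) p :=
    hasFDerivAt_snd
  have h2 := (HasFDerivAt.comp p h1.hasFDerivAt h5).prodMk h6
  rw [e]
  exact (congrArg (fun T : P d →L[ℝ] P d => T u) h2.fderiv).trans (by simp)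

theorem glue_stab_blk {γ : L d ≃ₗ[ℝ] L d} (h : glue_Iso γ)
    (hs : ∀ w : W, γ (0, 0, w) = (0, 0, w)) (C : W → ℝ) (g2 : W → W → W → ℝ) (p u v : P d) :
    blk C g2 (act γ p) (fderiv ℝ (act γ) p u) (fderiv ℝ (act γ) p v) = blk C g2 p u v := by
  have h1 := glue_blk_inv h p u v
  rw [glue_stab_fderiv h hs, glue_stab_fderiv h hs, glue_stab_act h hs] at h1 ⊢
  unfold blk at h1 ⊢
  simp only at h1 ⊢
  have h2 : ch p.2 ^ 2 ≠ 0 := by
    unfold ch
    exact pow_ne_zero _ (glue_spos p.2).ne'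
  have h3 : ch p.2 ^ 2 * hyp (glue_A γ p.1) (fderiv ℝ (glue_A γ) p.1 u.1)
      (fderiv ℝ (glue_A γ) p.1 v.1) = ch p.2 ^ 2 * hyp p.1 u.1 v.1 := by linarith
  rw [mul_left_cancel₀ h2 h3]

/-! ### Distances -/

theorem glue_inner_le {X : Type*} [NormedAddCommGroup X] [InnerProductSpace ℝ X] (x y : X) :
    1 + ⟪x, y⟫ ≤ √(1 + ‖x‖ ^ 2) * √(1 + ‖y‖ ^ 2) := by
  rw [← Real.sqrt_mul (glue_pos x).le]
  have h := real_inner_le_norm x y
  refine (add_le_add_right h 1).trans (Real.le_sqrt_of_sq_le ?_)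
  nlinarith [sq_nonneg (‖x‖ - ‖y‖)]

theorem glue_near (p q : P d) (h : -J (iota p) (iota q) < 1 + 1 / 1000) (hq : ‖q.2‖ ≤ 18) :
    ‖p.2‖ < 19 := by
  by_contra hp
  push Not at hp
  have h1 := glue_inner_le p.1 q.1
  have h2 := real_inner_le_norm p.2 q.2
  have h3 : -J (iota p) (iota q) = √(1 + ‖p.2‖ ^ 2) * √(1 + ‖q.2‖ ^ 2)
      * (√(1 + ‖p.1‖ ^ 2) * √(1 + ‖q.1‖ ^ 2) - ⟪p.1, q.1⟫) - ⟪p.2, q.2⟫ := by
    unfold J iota
    simp only [inner_smul_left, inner_smul_right, conj_trivial]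
    ring
  rw [h3] at h
  have h4 : 0 < √(1 + ‖p.2‖ ^ 2) * √(1 + ‖q.2‖ ^ 2) := mul_pos (glue_spos _) (glue_spos _)
  have h5 : √(1 + ‖p.2‖ ^ 2) * √(1 + ‖q.2‖ ^ 2) < 1 + 1 / 1000 + ‖p.2‖ * ‖q.2‖ := by
    nlinarith
  rw [← Real.sqrt_mul (glue_pos _).le, Real.sqrt_lt' (by positivity)] at h5
  have h0 := norm_nonneg q.2
  generalize ‖p.2‖ = a at *
  generalize ‖q.2‖ = b at *
  nlinarith

/-! ### Pullbacks -/

/-- The pullback of the coefficients `G` by the action of `γ`. -/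
noncomputable def glue_pull (G : P d → P d → P d → ℝ) (γ : L d ≃ₗ[ℝ] L d) (p u v : P d) : ℝ :=
  G (act γ p) (fderiv ℝ (act γ) p u) (fderiv ℝ (act γ) p v)

theorem glue_fderiv_mul (γ : L d ≃ₗ[ℝ] L d) {δ : L d ≃ₗ[ℝ] L d} (h : glue_Iso δ) (p u : P d) :
    fderiv ℝ (act (γ * δ)) p u = fderiv ℝ (act γ) (act δ p) (fderiv ℝ (act δ) p u) := by
  have h1 : DifferentiableAt ℝ (act γ) (act δ p) :=
    (glue_contDiff_act γ).contDiffAt.differentiableAt (by simp)
  have h2 : DifferentiableAt ℝ (act δ) p :=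
    (glue_contDiff_act δ).contDiffAt.differentiableAt (by simp)
  have e : act (γ * δ) = act γ ∘ act δ := by
    funext q
    exact glue_act_mul γ h q
  rw [e, fderiv_comp p h1 h2]
  rfl

theorem glue_fderiv_one (p u : P d) : fderiv ℝ (act (1 : L d ≃ₗ[ℝ] L d)) p u = u := by
  have e : act (1 : L d ≃ₗ[ℝ] L d) = id := by
    funext q
    exact glue_act_one q
  rw [e, fderiv_id]
  rfl

theorem glue_pull_mul (G : P d → P d → P d → ℝ) (γ : L d ≃ₗ[ℝ] L d) {δ : L d ≃ₗ[ℝ] L d}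
    (h : glue_Iso δ) (p u v : P d) : glue_pull G (γ * δ) p u v
      = glue_pull G γ (act δ p) (fderiv ℝ (act δ) p u) (fderiv ℝ (act δ) p v) := by
  unfold glue_pull
  rw [glue_act_mul γ h, glue_fderiv_mul γ h, glue_fderiv_mul γ h]

theorem glue_bij {γ : L d ≃ₗ[ℝ] L d} (h : glue_Iso γ) (h' : glue_Iso γ⁻¹) (p : P d) :
    Function.Bijective (fderiv ℝ (act γ) p) := by
  rw [Function.bijective_iff_has_inverse]
  refine ⟨fderiv ℝ (act γ⁻¹) (act γ p), fun u => ?_, fun u => ?_⟩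
  · rw [← glue_fderiv_mul _ h, inv_mul_cancel, glue_fderiv_one]
  · have := glue_fderiv_mul γ h' (act γ p) u
    rw [glue_act_inv h, mul_inv_cancel, glue_fderiv_one] at this
    exact this.symm

theorem glue_expand {E : Type*} [NormedAddCommGroup E] [NormedSpace ℝ E] {ι : Type*} [Fintype ι]
    (b : Basis ι ℝ E) {G : E → E → E → ℝ} (hG : IsMet G Set.univ) (y u v : E) :
    G y u v = ∑ i, ∑ j, b.repr u i * (b.repr v j * G y (b i) (b j)) := by
  let B : E →ₗ[ℝ] E →ₗ[ℝ] ℝ := LinearMap.mk₂ ℝ (G y) (hG.add y) (hG.smul y)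
    (fun u v v' => by rw [hG.symm y u, hG.add, hG.symm y v, hG.symm y v'])
    (fun c u v => by rw [hG.symm y u, hG.smul, hG.symm y v]; rfl)
  have h1 : G y u v = B u v := rfl
  rw [h1]
  conv_lhs => rw [← b.sum_repr u, ← b.sum_repr v]
  simp only [map_sum, LinearMap.sum_apply, map_smul, LinearMap.smul_apply, smul_eq_mul,
    Finset.mul_sum]
  rw [Finset.sum_comm]
  refine Finset.sum_congr rfl fun i _ => Finset.sum_congr rfl fun j _ => ?_
  simp only [B, LinearMap.mk₂_apply]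
  ring

theorem glue_smooth {G : P d → P d → P d → ℝ} (hG : IsMet G Set.univ) (γ : L d ≃ₗ[ℝ] L d)
    (u v : P d) : ContDiff ℝ ∞ (fun p => glue_pull G γ p u v) := by
  have hb := Module.finBasis ℝ (P d)
  have hD : ∀ u : P d, ContDiff ℝ ∞ (fun p => fderiv ℝ (act γ) p u) := fun u =>
    ((glue_contDiff_act γ).fderiv_right (m := ∞) (by simp)).clm_apply contDiff_const
  have hc : ∀ (u : P d) (i), ContDiff ℝ ∞ (fun p => hb.repr (fderiv ℝ (act γ) p u) i) := by
    intro u i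
    have := (LinearMap.toContinuousLinearMap (hb.coord i)).contDiff.comp (hD u)
    exact this
  have e : (fun p => glue_pull G γ p u v) = fun p => ∑ i, ∑ j,
      hb.repr (fderiv ℝ (act γ) p u) i * (hb.repr (fderiv ℝ (act γ) p v) j
        * G (act γ p) (hb i) (hb j)) := by
    funext p
    exact glue_expand hb hG _ _ _
  rw [e]
  refine ContDiff.sum fun i _ => ContDiff.sum fun j _ => (hc u i).mul ((hc v j).mul ?_)
  have := hG.smooth (hb i) (hb j)
  rw [contDiffOn_univ] at this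
  exact this.comp (glue_contDiff_act γ)

/-! ### Gluing -/

/-- `γ` may be used at the point `p`: either it brings `p` into the tube or no tube is near `p`. -/
def glue_Good (Γ : Subgroup (L d ≃ₗ[ℝ] L d)) (γ : L d ≃ₗ[ℝ] L d) (p : P d) : Prop :=
  γ ∈ Γ ∧ (‖(act γ p).2‖ < 19 ∨ ∀ δ ∈ Γ, 18 ≤ ‖(act δ p).2‖)

variable {Γ : Subgroup (L d ≃ₗ[ℝ] L d)}

theorem glue_iso (hΓ : IsLattice Γ 19) {γ : L d ≃ₗ[ℝ] L d} (h : γ ∈ Γ) : glue_Iso γ :=
  ⟨hΓ.isom γ h, hΓ.up γ h⟩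

theorem glue_good_near {γ : L d ≃ₗ[ℝ] L d} (h : γ ∈ Γ) {p : P d} (hp : ‖(act γ p).2‖ < 19) :
    ∀ᶠ q in 𝓝 p, glue_Good Γ γ q := by
  have hc : Continuous fun q => ‖(act γ q).2‖ :=
    (continuous_snd.comp (glue_contDiff_act γ).continuous).norm
  filter_upwards [hc.continuousAt.eventually_lt (continuousAt_const (y := (19 : ℝ))) hp] with q hq
  exact ⟨h, Or.inl hq⟩

theorem glue_good_far (hΓ : IsLattice Γ 19) {p : P d} (hp : ∀ γ ∈ Γ, 19 ≤ ‖(act γ p).2‖) :
    ∀ᶠ q in 𝓝 p, ∀ δ ∈ Γ, 18 ≤ ‖(act δ q).2‖ := by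
  have hι : Continuous (iota (d := d)) := glue_contDiff_iota.continuous
  have hc : Continuous fun q : P d => -J (iota p) (iota q) := by
    unfold J
    fun_prop
  have h0 : -J (iota p) (iota p) < 1 + 1 / 1000 := by
    rw [glue_J_iota]
    norm_num
  filter_upwards [hc.continuousAt.eventually_lt
    (continuousAt_const (y := (1 + 1 / 1000 : ℝ))) h0] with q hq δ hδ
  by_contra hh
  push Not at hh
  have hi := glue_iso hΓ hδ
  have := glue_near (act δ p) (act δ q)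
    (by rwa [glue_iota_act hi.isom hi.up, glue_iota_act hi.isom hi.up, hi.isom]) hh.le
  linarith [hp δ hδ]

theorem glue_pull_far (hΓ : IsLattice Γ 19) {C : W → ℝ} {g2 : W → W → W → ℝ}
    (hC : ∀ v : W, 18 ≤ ‖v‖ → C v = ch v) (hg : ∀ v : W, 18 ≤ ‖v‖ → ∀ a b, g2 v a b = hyp v a b)
    {p : P d} {γ : L d ≃ₗ[ℝ] L d} (h : γ ∈ Γ) (hp : ∀ δ ∈ Γ, 18 ≤ ‖(act δ p).2‖) (u v : P d) :
    glue_pull (blk C g2) γ p u v = blk ch hyp p u v := by
  rw [← glue_blk_inv (glue_iso hΓ h) p u v]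
  unfold glue_pull blk
  rw [hC _ (hp γ h), hg _ (hp γ h)]

theorem glue_tube (hΓ : IsLattice Γ 19) {p : P d} {γ δ : L d ≃ₗ[ℝ] L d} (hγ : γ ∈ Γ) (hδ : δ ∈ Γ)
    (h1 : ‖(act γ p).2‖ < 19) (h2 : ‖(act δ p).2‖ < 19) (w : W) :
    (γ * δ⁻¹) (0, 0, w) = (0, 0, w) := by
  refine hΓ.tube _ (Γ.mul_mem hγ (Γ.inv_mem hδ)) (act δ p) h2 ?_ w
  have hi := glue_iso hΓ hδ
  rw [glue_iota_act hi.isom hi.up]
  have : (γ * δ⁻¹) (δ (iota p)) = γ (iota p) := by
    have : (γ * δ⁻¹ * δ) (iota p) = γ (iota p) := by rw [inv_mul_cancel_right]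
    exact this
  rw [this]
  exact h1

theorem glue_agree (hΓ : IsLattice Γ 19) {C : W → ℝ} {g2 : W → W → W → ℝ}
    (hC : ∀ v : W, 18 ≤ ‖v‖ → C v = ch v) (hg : ∀ v : W, 18 ≤ ‖v‖ → ∀ a b, g2 v a b = hyp v a b)
    {p : P d} {γ δ : L d ≃ₗ[ℝ] L d} (h1 : glue_Good Γ γ p) (h2 : glue_Good Γ δ p) (u v : P d) :
    glue_pull (blk C g2) γ p u v = glue_pull (blk C g2) δ p u v := by
  obtain ⟨hγ, h1⟩ := h1
  obtain ⟨hδ, h2⟩ := h2
  rcases h1 with h1 | h1
  · rcases h2 with h2 | h2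
    · have hi := glue_iso hΓ hδ
      have hs := glue_tube hΓ hγ hδ h1 h2
      have hj := glue_iso hΓ (Γ.mul_mem hγ (Γ.inv_mem hδ))
      have e : γ = (γ * δ⁻¹) * δ := by rw [inv_mul_cancel_right]
      rw [e, glue_pull_mul _ _ hi]
      unfold glue_pull
      rw [glue_stab_blk hj hs]
    · rw [glue_pull_far hΓ hC hg hγ h2, glue_pull_far hΓ hC hg hδ h2]
  · rw [glue_pull_far hΓ hC hg hγ h1, glue_pull_far hΓ hC hg hδ h1]

/-- The map in the tube. -/
def glue_fm (f : W → W) (p : P d) : P d := (p.1, f p.2)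

/-- The map in the translate of the tube by `γ⁻¹`. -/
noncomputable def glue_conj (f : W → W) (γ : L d ≃ₗ[ℝ] L d) (p : P d) : P d :=
  act γ⁻¹ (glue_fm f (act γ p))

theorem glue_conj_far (hΓ : IsLattice Γ 19) {f : W → W} (hf : ∀ v : W, 18 ≤ ‖v‖ → f v = v)
    {p : P d} {γ : L d ≃ₗ[ℝ] L d} (h : γ ∈ Γ) (hp : ∀ δ ∈ Γ, 18 ≤ ‖(act δ p).2‖) :
    glue_conj f γ p = p := by
  unfold glue_conj glue_fm
  rw [hf _ (hp γ h)]
  exact glue_act_inv (glue_iso hΓ h) p

theorem glue_agree' (hΓ : IsLattice Γ 19) {f : W → W} (hf : ∀ v : W, 18 ≤ ‖v‖ → f v = v)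
    {p : P d} {γ δ : L d ≃ₗ[ℝ] L d} (h1 : glue_Good Γ γ p) (h2 : glue_Good Γ δ p) :
    glue_conj f γ p = glue_conj f δ p := by
  obtain ⟨hγ, h1⟩ := h1
  obtain ⟨hδ, h2⟩ := h2
  rcases h1 with h1 | h1
  · rcases h2 with h2 | h2
    · have hi := glue_iso hΓ hδ
      have hs := glue_tube hΓ hγ hδ h1 h2
      have hj := glue_iso hΓ (Γ.mul_mem hγ (Γ.inv_mem hδ))
      have e : act γ p = act (γ * δ⁻¹) (act δ p) := by
        rw [← glue_act_mul _ hi, inv_mul_cancel_right]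
      have e2 : glue_fm f (act γ p) = act (γ * δ⁻¹) (glue_fm f (act δ p)) := by
        rw [e, glue_stab_act hj hs, glue_stab_act hj hs]
        rfl
      unfold glue_conj
      rw [e2, ← glue_act_mul _ hj, inv_mul_cancel_left]
    · rw [glue_conj_far hΓ hf hγ h2, glue_conj_far hΓ hf hδ h2]
  · rw [glue_conj_far hΓ hf hγ h1, glue_conj_far hΓ hf hδ h1]

theorem glue_f_lt {f : W → W} (h1 : ∀ v : W, 18 ≤ ‖v‖ → f v = v)
    (h2 : ∀ v : W, ‖v‖ < 18 → ‖f v‖ < 18) {v : W} (hv : ‖v‖ < 19) : ‖f v‖ < 19 := by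
  rcases lt_or_ge ‖v‖ 18 with h | h
  · linarith [h2 v h]
  · rwa [h1 v h]

theorem glue_both (hΓ : IsLattice Γ 19) {f : W → W} (h1 : ∀ v : W, 18 ≤ ‖v‖ → f v = v)
    (h2 : ∀ v : W, ‖v‖ < 18 → ‖f v‖ < 18) (x : P d) :
    ∃ γ ∈ Γ, (∀ᶠ q in 𝓝 x, glue_Good Γ γ q) ∧ ∀ᶠ q in 𝓝 (glue_conj f γ x), glue_Good Γ γ q := by
  by_cases hx : ∃ γ ∈ Γ, ‖(act γ x).2‖ < 19
  · obtain ⟨γ, hγ, hx⟩ := hx
    refine ⟨γ, hγ, glue_good_near hγ hx, glue_good_near hγ ?_⟩
    have e : act γ (glue_conj f γ x) = glue_fm f (act γ x) := by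
      unfold glue_conj
      have := glue_act_mul γ (glue_iso hΓ (Γ.inv_mem hγ)) (glue_fm f (act γ x))
      rw [← this, mul_inv_cancel, glue_act_one]
    rw [e]
    exact glue_f_lt h1 h2 hx
  · push Not at hx
    have h := glue_good_far hΓ hx
    refine ⟨1, Γ.one_mem, ?_, ?_⟩
    · filter_upwards [h] with q hq
      exact ⟨Γ.one_mem, Or.inr hq⟩
    · rw [glue_conj_far hΓ h1 Γ.one_mem h.self_of_nhds]
      filter_upwards [h] with q hq
      exact ⟨Γ.one_mem, Or.inr hq⟩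

/-- Gluing the tubes. -/
theorem t_GLUE : S_GLUE := by
  intro hN1 hN2 hHYP hBMET d Γ C g2 c f hd hΓ hT
  have hGs : IsMet (blk (d := d) C g2) Set.univ := by
    have := hBMET hHYP d C g2 Set.univ isOpen_univ hT.g2_met hT.C_smooth.contDiffOn
      (fun x _ => hT.C_pos x)
    simpa using this
  have hGt : IsMet (blk (d := d) c hyp) Set.univ := by
    have := hBMET hHYP d c hyp Set.univ isOpen_univ (hHYP W).1 hT.c_smooth.contDiffOn
      (fun x _ => hT.c_pos x)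
    simpa using this
  have hboth := glue_both hΓ hT.f_out hT.f_in
  have hex : ∀ p : P d, ∃ γ, glue_Good Γ γ p := fun p => by
    obtain ⟨γ, _, h, _⟩ := hboth p
    exact ⟨γ, h.self_of_nhds⟩
  choose σ hσ using hex
  -- the data
  obtain ⟨g, hg⟩ : ∃ g : P d → P d → P d → ℝ, ∀ p γ, glue_Good Γ γ p → ∀ u v,
      g p u v = glue_pull (blk C g2) γ p u v :=
    ⟨fun p => glue_pull (blk C g2) (σ p) p, fun p γ h u v =>
      glue_agree hΓ hT.C_out hT.g2_out (hσ p) h u v⟩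
  obtain ⟨h, hh⟩ : ∃ h : P d → P d → P d → ℝ, ∀ p γ, glue_Good Γ γ p → ∀ u v,
      h p u v = glue_pull (blk c hyp) γ p u v :=
    ⟨fun p => glue_pull (blk c hyp) (σ p) p, fun p γ h u v =>
      glue_agree hΓ hT.c_out (fun _ _ _ _ => rfl) (hσ p) h u v⟩
  obtain ⟨F, hF⟩ : ∃ F : P d → P d, ∀ p γ, glue_Good Γ γ p → F p = glue_conj f γ p :=
    ⟨fun p => glue_conj f (σ p) p, fun p γ h => glue_agree' hΓ hT.f_out (hσ p) h⟩
  -- metrics
  have hmet : ∀ (G : P d → P d → P d → ℝ) (g : P d → P d → P d → ℝ), IsMet G Set.univ →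
      (∀ p γ, glue_Good Γ γ p → ∀ u v, g p u v = glue_pull G γ p u v) → IsMet g Set.univ := by
    intro G g hG hg
    refine ⟨fun y u u' v => ?_, fun y c u v => ?_, fun y u v => ?_, fun y _ u hu => ?_,
      fun u v => ?_⟩
    · rw [hg y _ (hσ y), hg y _ (hσ y), hg y _ (hσ y)]
      unfold glue_pull
      rw [map_add, hG.add]
    · rw [hg y _ (hσ y), hg y _ (hσ y)]
      unfold glue_pull
      rw [map_smul, hG.smul]
    · rw [hg y _ (hσ y), hg y _ (hσ y)]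
      unfold glue_pull
      rw [hG.symm]
    · rw [hg y _ (hσ y)]
      unfold glue_pull
      refine hG.pos _ (Set.mem_univ _) _ fun h0 => hu ?_
      have hb := glue_bij (glue_iso hΓ (hσ y).1) (glue_iso hΓ (Γ.inv_mem (hσ y).1)) y
      exact hb.1 (by rw [h0, map_zero])
    · rw [contDiffOn_univ, contDiff_iff_contDiffAt]
      intro y
      obtain ⟨γ, _, hy, _⟩ := hboth y
      refine (glue_smooth hG γ u v).contDiffAt.congr_of_eventuallyEq ?_
      filter_upwards [hy] with q hq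
      exact hg q γ hq u v
  have hgood : ∀ γ ∈ Γ, ∀ δ x, glue_Good Γ δ (act γ x) → glue_Good Γ (δ * γ) x := by
    intro γ hγ δ x hx
    refine ⟨Γ.mul_mem hx.1 hγ, hx.2.imp (fun h1 => ?_) fun h1 ε hε => ?_⟩
    · rwa [glue_act_mul _ (glue_iso hΓ hγ)]
    · have := h1 (ε * γ⁻¹) (Γ.mul_mem hε (Γ.inv_mem hγ))
      rwa [← glue_act_mul _ (glue_iso hΓ hγ), inv_mul_cancel_right] at this
  have hinv : ∀ (G : P d → P d → P d → ℝ) (g : P d → P d → P d → ℝ),
      (∀ p γ, glue_Good Γ γ p → ∀ u v, g p u v = glue_pull G γ p u v) → ∀ γ ∈ Γ, ∀ x a b,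
      g (act γ x) (fderiv ℝ (act γ) x a) (fderiv ℝ (act γ) x b) = g x a b := by
    intro G g hg γ hγ x a b
    rw [hg _ _ (hσ (act γ x)), hg x _ (hgood γ hγ _ x (hσ (act γ x))),
      glue_pull_mul _ _ (glue_iso hΓ hγ)]
  have hneg : ∀ (G : P d → P d → P d → ℝ) (g : P d → P d → P d → ℝ), IsMet G Set.univ →
      (∀ p, NegAt G p) →
      (∀ p γ, glue_Good Γ γ p → ∀ u v, g p u v = glue_pull G γ p u v) → ∀ x, NegAt g x := by
    intro G g hG hn hg x
    obtain ⟨γ, hγ, hx, _⟩ := hboth x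
    refine hN1 (P d) (P d) g G Set.univ (act γ) x isOpen_univ hG (Set.mem_univ _)
      (glue_contDiff_act γ).contDiffAt
      (glue_bij (glue_iso hΓ hγ) (glue_iso hΓ (Γ.inv_mem hγ)) x) ?_ (hn _)
    filter_upwards [hx] with q hq a b
    exact hg q γ hq a b
  have hfm : ContDiff ℝ ∞ (glue_fm (d := d) f) := by
    unfold glue_fm
    exact contDiff_fst.prodMk (hT.f_smooth.comp contDiff_snd)
  have hconj : ∀ γ : L d ≃ₗ[ℝ] L d, ContDiff ℝ ∞ (glue_conj f γ) := fun γ => by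
    unfold glue_conj
    exact (glue_contDiff_act _).comp (hfm.comp (glue_contDiff_act γ))
  have hFs : ContDiff ℝ ∞ F := by
    rw [contDiff_iff_contDiffAt]
    intro y
    obtain ⟨γ, _, hy, _⟩ := hboth y
    refine (hconj γ).contDiffAt.congr_of_eventuallyEq ?_
    filter_upwards [hy] with q hq
    exact hF q γ hq
  refine ⟨g, h, F, hmet _ g hGs hg, hmet _ h hGt hh, hinv _ g hg, hinv _ h hh,
    hneg _ g hGs hT.neg_src hg, hneg _ h hGt hT.neg_tgt hh, hFs, ?_, ?_, ?_⟩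
  · intro γ hγ x
    rw [hF _ _ (hσ (act γ x)), hF x _ (hgood γ hγ _ x (hσ (act γ x)))]
    have hi := glue_iso hΓ hγ
    have hj := glue_iso hΓ (Γ.inv_mem (hσ (act γ x)).1)
    unfold glue_conj
    rw [mul_inv_rev, glue_act_mul _ hj, glue_act_mul _ hi]
    have := glue_act_inv (glue_iso hΓ (Γ.inv_mem hγ))
      (act (σ (act γ x))⁻¹ (glue_fm f (act (σ (act γ x)) (act γ x))))
    rw [inv_inv] at this
    exact this.symm
  · intro x
    obtain ⟨γ, hγ, hx, hFx⟩ := hboth x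
    have e : F x = glue_conj f γ x := hF x γ hx.self_of_nhds
    rw [← e] at hFx
    have hi := glue_iso hΓ hγ
    have hi' := glue_iso hΓ (Γ.inv_mem hγ)
    refine hN2 (P d) (P d) (P d) (P d) g (blk C g2) h (blk c hyp) Set.univ Set.univ
      (act γ) (act γ) F (glue_fm f) x isOpen_univ isOpen_univ hGs hGt (Set.mem_univ _)
      (Set.mem_univ _) (glue_contDiff_act γ).contDiffAt (glue_bij hi hi' x)
      (glue_contDiff_act γ).contDiffAt (glue_bij hi hi' _) hFs.contDiffAt hfm.contDiffAt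
      ?_ ?_ ?_ (hT.harm _)
    · filter_upwards [hx] with q hq
      rw [hF q γ hq]
      unfold glue_conj
      have := glue_act_mul γ hi' (glue_fm f (act γ q))
      rw [← this, mul_inv_cancel, glue_act_one]
    · filter_upwards [hx] with q hq a b
      exact hg q γ hq a b
    · filter_upwards [hFx] with q hq a b
      exact hh q γ hq a b
  · obtain ⟨v, v', hne, hvv⟩ := hT.fold
    have key : ∀ v v' : W, v ≠ v' → f v = f v' → ‖v‖ < 18 := by
      intro v v' hne hvv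
      by_contra hv
      push Not at hv
      rw [hT.f_out v hv] at hvv
      rcases lt_or_ge ‖v'‖ 18 with h1 | h1
      · have := hT.f_in v' h1
        rw [← hvv] at this
        linarith
      · rw [hT.f_out v' h1] at hvv
        exact hne hvv
    have hv := key v v' hne hvv
    have hv' := key v' v hne.symm hvv.symm
    have hG1 : ∀ v : W, ‖v‖ < 18 → glue_Good Γ 1 ((0, v) : P d) := fun v hv =>
      ⟨Γ.one_mem, Or.inl (by rw [glue_act_one]; linarith)⟩
    have hF1 : ∀ v : W, ‖v‖ < 18 → F ((0, v) : P d) = (0, f v) := fun v hv => by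
      rw [hF _ _ (hG1 v hv)]
      unfold glue_conj
      rw [inv_one, glue_act_one, glue_act_one]
      rfl
    refine ⟨(0, v), (0, v'), by rw [hF1 v hv, hF1 v' hv', hvv], fun γ hγ he => hne ?_⟩
    have h2 : ‖(γ (iota ((0, v) : P d))).2.2‖ < 19 := by
      have : (γ (iota ((0, v) : P d))).2.2 = v' := congrArg Prod.snd he
      rw [this]
      linarith
    have hs := hΓ.tube γ hγ ((0, v) : P d) (by simp only; linarith) h2
    rw [glue_stab_act (glue_iso hΓ hγ) hs] at he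
    exact congrArg Prod.snd he

end Pool.Agent.Helper473.LY
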