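import Pool.Agent.Helper473.LY.Stmts2

set_option autoImplicit false

open scoped Manifold ContDiff Topology RealInnerProductSpace
open Module

namespace Pool.Agent.Helper473.LY

open Pool.Agent.H234R3

section hb_aux

variable {X : Type*} [NormedAddCommGroup X] [InnerProductSpace ℝ X]

theorem hb_sqrt_pos (x : X) : 0 < √(1 + ‖x‖ ^ 2) := Real.sqrt_pos.2 (by positivity)

theorem hb_sqrt_sq (x : X) : √(1 + ‖x‖ ^ 2) ^ 2 = 1 + ‖x‖ ^ 2 := Real.sq_sqrt (by positivity)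

theorem hb_one_le (x : X) : 1 ≤ √(1 + ‖x‖ ^ 2) := by
  rw [Real.one_le_sqrt]
  nlinarith [sq_nonneg ‖x‖]

theorem hb_sqrt_contDiff : ContDiff ℝ ∞ (fun x : X => √(1 + ‖x‖ ^ 2)) := by
  apply ContDiff.sqrt
  · exact contDiff_const.add (contDiff_norm_sq ℝ)
  · intro x
    positivity

theorem hb_sqrt_hasFDerivAt (x : X) : HasFDerivAt (fun x : X => √(1 + ‖x‖ ^ 2))
    ((√(1 + ‖x‖ ^ 2))⁻¹ • innerSL ℝ x) x := by
  have h1 : HasFDerivAt (fun x : X => 1 + ‖x‖ ^ 2) (2 • innerSL ℝ x) x :=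
    ((hasStrictFDerivAt_norm_sq x).hasFDerivAt).const_add 1
  have h2 := h1.sqrt (by positivity)
  refine h2.congr_fderiv ?_
  ext y
  simp
  field_simp

theorem hb_hyp_pos (x a : X) (ha : a ≠ 0) : 0 < hyp x a a := by
  unfold hyp
  have h1 : ⟪x, a⟫ * ⟪x, a⟫ ≤ (‖x‖ * ‖a‖) * (‖x‖ * ‖a‖) := by
    have := real_inner_mul_inner_self_le x a
    rw [real_inner_self_eq_norm_sq, real_inner_self_eq_norm_sq] at this
    nlinarith
  have h2 : 0 < ‖a‖ := norm_pos_iff.2 ha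
  rw [real_inner_self_eq_norm_sq, sub_pos, div_lt_iff₀ (by positivity)]
  have : 0 < ‖a‖ ^ 2 := by positivity
  nlinarith

theorem hb_hyp_zero (x : X) : hyp x 0 0 = 0 := by simp [hyp]

theorem hb_hyp_nonneg (x a : X) : 0 ≤ hyp x a a := by
  rcases eq_or_ne a 0 with rfl | h
  · rw [hb_hyp_zero]
  · exact (hb_hyp_pos x a h).le

theorem hb_cosh (x y : X) : 1 + ⟪x, y⟫ ≤ √(1 + ‖x‖ ^ 2) * √(1 + ‖y‖ ^ 2) := by
  have h1 : ⟪x, y⟫ ≤ ‖x‖ * ‖y‖ := real_inner_le_norm x y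
  have h2 : 1 + ‖x‖ * ‖y‖ ≤ √(1 + ‖x‖ ^ 2) * √(1 + ‖y‖ ^ 2) := by
    rw [← Real.sqrt_mul (by positivity)]
    apply Real.le_sqrt_of_sq_le
    nlinarith [sq_nonneg (‖x‖ - ‖y‖)]
  linarith

end hb_aux

variable {d : ℕ}

theorem hb_iota_contDiff : ContDiff ℝ ∞ (iota (d := d)) := by
  unfold iota
  have h1 : ContDiff ℝ ∞ (fun p : P d => √(1 + ‖p.2‖ ^ 2)) := hb_sqrt_contDiff.comp contDiff_snd
  have h2 : ContDiff ℝ ∞ (fun p : P d => √(1 + ‖p.1‖ ^ 2)) := hb_sqrt_contDiff.comp contDiff_fst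
  exact (h1.mul h2).prodMk ((h1.smul contDiff_fst).prodMk contDiff_snd)

theorem hb_piP_contDiff : ContDiff ℝ ∞ (piP (d := d)) := by
  unfold piP
  have h0 : ContDiff ℝ ∞ (fun x : L d => x.2.2) := contDiff_snd.comp contDiff_snd
  have h0' : ContDiff ℝ ∞ (fun x : L d => x.2.1) := contDiff_fst.comp contDiff_snd
  have h1 : ContDiff ℝ ∞ (fun x : L d => √(1 + ‖x.2.2‖ ^ 2)) := hb_sqrt_contDiff.comp h0
  exact ((h1.inv (fun x => (hb_sqrt_pos _).ne')).smul h0').prodMk h0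

theorem hb_J_iota (p : P d) : J (iota p) (iota p) = -1 := by
  unfold J iota
  simp only [inner_smul_left, inner_smul_right, real_inner_self_eq_norm_sq]
  have h1 := hb_sqrt_sq p.1
  have h2 := hb_sqrt_sq p.2
  simp only [conj_trivial]
  have e1 : √(1 + ‖p.2‖ ^ 2) * √(1 + ‖p.1‖ ^ 2) * (√(1 + ‖p.2‖ ^ 2) * √(1 + ‖p.1‖ ^ 2)) =
    √(1 + ‖p.2‖ ^ 2) ^ 2 * √(1 + ‖p.1‖ ^ 2) ^ 2 := by ring
  have e2 : √(1 + ‖p.2‖ ^ 2) * (√(1 + ‖p.2‖ ^ 2) * ‖p.1‖ ^ 2) =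
    √(1 + ‖p.2‖ ^ 2) ^ 2 * ‖p.1‖ ^ 2 := by ring
  rw [e1, e2, h1, h2]
  ring

theorem hb_one_le_iota (p : P d) : 1 ≤ (iota p).1 := by
  unfold iota
  exact one_le_mul_of_one_le_of_one_le (hb_one_le _) (hb_one_le _)

theorem hb_piP_iota (p : P d) : piP (iota p) = p := by
  unfold piP iota
  ext1
  · simp only
    rw [inv_smul_smul₀ (hb_sqrt_pos _).ne']
  · rfl

theorem hb_iota_piP (x : L d) (h : J x x = -1) (h0 : 0 < x.1) : iota (piP x) = x := by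
  obtain ⟨t, a, v⟩ := x
  unfold J at h
  simp only [real_inner_self_eq_norm_sq] at h h0
  unfold iota piP
  simp only
  have h2 := hb_sqrt_sq v
  have h3 := hb_sqrt_pos v
  ext1
  · simp only
    rw [← Real.sqrt_mul (by positivity)]
    rw [norm_smul, norm_inv, Real.norm_eq_abs, abs_of_pos h3, mul_pow, inv_pow, h2]
    have e : (1 + ‖v‖ ^ 2) * (1 + (1 + ‖v‖ ^ 2)⁻¹ * ‖a‖ ^ 2) = t ^ 2 := by
      have : (1 + ‖v‖ ^ 2) ≠ 0 := by positivity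
      field_simp
      linarith
    rw [e, Real.sqrt_sq h0.le]
  · simp only
    rw [smul_inv_smul₀ h3.ne']

theorem hb_iota_fderiv (p a : P d) : fderiv ℝ iota p a =
    (√(1 + ‖p.2‖ ^ 2) * ((√(1 + ‖p.1‖ ^ 2))⁻¹ * ⟪p.1, a.1⟫) +
      √(1 + ‖p.1‖ ^ 2) * ((√(1 + ‖p.2‖ ^ 2))⁻¹ * ⟪p.2, a.2⟫),
      √(1 + ‖p.2‖ ^ 2) • a.1 + ((√(1 + ‖p.2‖ ^ 2))⁻¹ * ⟪p.2, a.2⟫) • p.1, a.2) := by
  have h1 : HasFDerivAt (fun p : P d => √(1 + ‖p.2‖ ^ 2))
      (((√(1 + ‖p.2‖ ^ 2))⁻¹ • innerSL ℝ p.2).comp (ContinuousLinearMap.snd ℝ (V d) W)) p :=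
    (hb_sqrt_hasFDerivAt p.2).comp p hasFDerivAt_snd
  have h2 : HasFDerivAt (fun p : P d => √(1 + ‖p.1‖ ^ 2))
      (((√(1 + ‖p.1‖ ^ 2))⁻¹ • innerSL ℝ p.1).comp (ContinuousLinearMap.fst ℝ (V d) W)) p :=
    (hb_sqrt_hasFDerivAt p.1).comp p hasFDerivAt_fst
  have h3 := (h1.mul h2).prodMk ((h1.smul (hasFDerivAt_fst (𝕜 := ℝ) (E := V d) (F := W) (p := p))).prodMk
    (hasFDerivAt_snd (𝕜 := ℝ) (E := V d) (F := W) (p := p)))
  have h4 : fderiv ℝ (iota (d := d)) p = _ := h3.fderiv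
  rw [h4]
  simp

theorem hb_blk (p a b : P d) : blk ch hyp p a b = J (fderiv ℝ iota p a) (fderiv ℝ iota p b) := by
  rw [hb_iota_fderiv, hb_iota_fderiv]
  unfold blk J hyp ch
  simp only [inner_add_left, inner_add_right, inner_smul_left, inner_smul_right, conj_trivial,
    real_inner_self_eq_norm_sq]
  rw [real_inner_comm p.1 a.1]
  have h1 := hb_sqrt_sq p.1
  have h2 := hb_sqrt_sq p.2
  have h3 := hb_sqrt_pos p.1
  have h4 := hb_sqrt_pos p.2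
  generalize √(1 + ‖p.1‖ ^ 2) = s at *
  generalize √(1 + ‖p.2‖ ^ 2) = t at *
  rw [← h1, ← h2]
  have h5 : ‖p.1‖ ^ 2 = s ^ 2 - 1 := by linarith
  rw [h5]
  field_simp
  ring

theorem hb_J_cosh (p q : P d) :
    √(1 + ‖p.2‖ ^ 2) * √(1 + ‖q.2‖ ^ 2) - ‖p.2‖ * ‖q.2‖ ≤ -J (iota p) (iota q) := by
  unfold J iota
  simp only [inner_smul_left, inner_smul_right, conj_trivial]
  have h1 := hb_cosh p.1 q.1
  have h2 : ⟪p.2, q.2⟫ ≤ ‖p.2‖ * ‖q.2‖ := real_inner_le_norm _ _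
  have h3 := mul_pos (hb_sqrt_pos p.2) (hb_sqrt_pos q.2)
  have h4 := mul_le_mul_of_nonneg_left h1 h3.le
  nlinarith

theorem hb_iota_act (γ : L d ≃ₗ[ℝ] L d) (hJ : ∀ x y, J (γ x) (γ y) = J x y)
    (hup : ∀ p, 0 < (γ (iota p)).1) (p : P d) : iota (act γ p) = γ (iota p) := by
  unfold act
  exact hb_iota_piP _ (by rw [hJ, hb_J_iota]) (hup p)

theorem hb_act_contDiff (γ : L d ≃ₗ[ℝ] L d) : ContDiff ℝ ∞ (act γ) := by
  unfold act
  exact hb_piP_contDiff.comp ((γ.toContinuousLinearEquiv.contDiff).comp hb_iota_contDiff)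

theorem hb_isom (γ : L d ≃ₗ[ℝ] L d) (hJ : ∀ x y, J (γ x) (γ y) = J x y)
    (hup : ∀ p, 0 < (γ (iota p)).1) (p a b : P d) :
    blk ch hyp (act γ p) (fderiv ℝ (act γ) p a) (fderiv ℝ (act γ) p b) = blk ch hyp p a b := by
  have hi : ∀ q : P d, DifferentiableAt ℝ (iota (d := d)) q := fun q =>
    hb_iota_contDiff.differentiable (by simp) q
  have ha : DifferentiableAt ℝ (act γ) p := (hb_act_contDiff γ).differentiable (by simp) p
  have h1 : (fun q => iota (act γ q)) = fun q => γ.toContinuousLinearEquiv (iota q) := by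
    funext q
    exact hb_iota_act γ hJ hup q
  have h2 : fderiv ℝ (fun q => iota (act γ q)) p =
      (fderiv ℝ iota (act γ p)).comp (fderiv ℝ (act γ) p) := fderiv_comp p (hi _) ha
  have h3 : fderiv ℝ (fun q => γ.toContinuousLinearEquiv (iota q)) p =
      (γ.toContinuousLinearEquiv : L d →L[ℝ] L d).comp (fderiv ℝ iota p) := by
    exact ((γ.toContinuousLinearEquiv : L d →L[ℝ] L d).hasFDerivAt.comp p (hi p).hasFDerivAt).fderiv
  rw [h1, h3] at h2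
  have h4 : ∀ c, fderiv ℝ iota (act γ p) (fderiv ℝ (act γ) p c) = γ (fderiv ℝ iota p c) := by
    intro c
    have := congrArg (fun T : P d →L[ℝ] L d => T c) h2
    exact this.symm
  rw [hb_blk, hb_blk, h4, h4, hJ]

theorem hb_blk_pos (p a : P d) (ha : blk ch hyp p a a = 0) : a = 0 := by
  unfold blk at ha
  have h1 := hb_hyp_nonneg p.1 a.1
  have h2 := hb_hyp_nonneg p.2 a.2
  have h3 : 0 < ch p.2 ^ 2 := by
    have := hb_sqrt_pos p.2
    unfold ch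
    positivity
  have h4 := mul_nonneg h3.le h1
  have h5 : hyp p.2 a.2 a.2 = 0 := by linarith
  have h6 : hyp p.1 a.1 a.1 = 0 := by
    rcases mul_eq_zero.1 (by linarith : ch p.2 ^ 2 * hyp p.1 a.1 a.1 = 0) with h | h
    · exact absurd h h3.ne'
    · exact h
  ext1
  · by_contra h
    exact (hb_hyp_pos p.1 a.1 h).ne' h6
  · by_contra h
    exact (hb_hyp_pos p.2 a.2 h).ne' h5

theorem hb_bij (γ : L d ≃ₗ[ℝ] L d) (hJ : ∀ x y, J (γ x) (γ y) = J x y)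
    (hup : ∀ p, 0 < (γ (iota p)).1) (p : P d) : Function.Bijective (fderiv ℝ (act γ) p) := by
  have hinj : Function.Injective (fderiv ℝ (act γ) p) := by
    rw [injective_iff_map_eq_zero]
    intro a ha
    apply hb_blk_pos p a
    rw [← hb_isom γ hJ hup p a a, ha]
    simp [blk, hb_hyp_zero]
  refine ⟨hinj, ?_⟩
  exact (LinearMap.injective_iff_surjective (f := (fderiv ℝ (act γ) p : P d →ₗ[ℝ] P d))).1 hinj

theorem hb_last (γ : L d ≃ₗ[ℝ] L d) (hJ : ∀ x y, J (γ x) (γ y) = J x y)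
    (hw : ∀ w : W, γ (0, 0, w) = (0, 0, w)) (x : L d) : (γ x).2.2 = x.2.2 := by
  apply ext_inner_right ℝ
  intro w
  have h := hJ x (0, 0, w)
  rw [hw w] at h
  simpa [J] using h

theorem hb_iota_split (ζ : V d) (w : W) : iota (ζ, w) =
    √(1 + ‖w‖ ^ 2) • ((√(1 + ‖ζ‖ ^ 2), ζ, 0) : L d) + (0, 0, w) := by
  simp [iota]

theorem hb_act_fst (γ : L d ≃ₗ[ℝ] L d) (hJ : ∀ x y, J (γ x) (γ y) = J x y)
    (hw : ∀ w : W, γ (0, 0, w) = (0, 0, w)) (ζ : V d)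
    (w : W) : (act γ (ζ, w)).1 = (γ (√(1 + ‖ζ‖ ^ 2), ζ, 0)).2.1 := by
  have h1 := hb_last γ hJ hw (iota (ζ, w))
  unfold act piP
  simp only
  rw [h1]
  have h2 : (iota (ζ, w)).2.2 = w := rfl
  rw [h2, hb_iota_split, map_add, map_smul, hw w]
  simp only [Prod.snd_add, Prod.fst_add, Prod.smul_snd, Prod.smul_fst, add_zero]
  rw [inv_smul_smul₀ (hb_sqrt_pos _).ne']

theorem hb_act_snd (γ : L d ≃ₗ[ℝ] L d) (hJ : ∀ x y, J (γ x) (γ y) = J x y)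
    (hw : ∀ w : W, γ (0, 0, w) = (0, 0, w)) (p : P d) : (act γ p).2 = p.2 := by
  have h1 := hb_last γ hJ hw (iota p)
  unfold act piP
  simp only
  rw [h1]
  rfl

theorem hb_act_fderiv (γ : L d ≃ₗ[ℝ] L d) (hJ : ∀ x y, J (γ x) (γ y) = J x y)
    (hw : ∀ w : W, γ (0, 0, w) = (0, 0, w)) (p a : P d) :
    fderiv ℝ (act γ) p a = (fderiv ℝ (fun ζ : V d => (act γ (ζ, (0 : W))).1) p.1 a.1, a.2) := by
  have h1 : act γ = fun q : P d => ((act γ (q.1, (0 : W))).1, q.2) := by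
    funext q
    ext1
    · change (act γ (q.1, q.2)).1 = _
      rw [hb_act_fst γ hJ hw, hb_act_fst γ hJ hw]
    · exact hb_act_snd γ hJ hw q
  have h2 : ContDiff ℝ ∞ (fun ζ : V d => (act γ (ζ, (0 : W))).1) :=
    contDiff_fst.comp ((hb_act_contDiff γ).comp (contDiff_id.prodMk contDiff_const))
  have h3 : HasFDerivAt (fun q : P d => (act γ (q.1, (0 : W))).1)
      ((fderiv ℝ (fun ζ : V d => (act γ (ζ, (0 : W))).1) p.1).comp
        (ContinuousLinearMap.fst ℝ (V d) W)) p := by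
    have h4 : HasFDerivAt (fun ζ : V d => (act γ (ζ, (0 : W))).1)
        (fderiv ℝ (fun ζ : V d => (act γ (ζ, (0 : W))).1) p.1) p.1 :=
      (h2.differentiable (by simp) p.1).hasFDerivAt
    exact h4.comp p hasFDerivAt_fst
  have h5 := (h3.prodMk (hasFDerivAt_snd (𝕜 := ℝ) (E := V d) (F := W) (p := p))).fderiv
  conv_lhs => rw [h1]
  rw [h5]
  rfl

theorem t_HB : S_HB := by
  intro d
  refine ⟨hb_iota_contDiff, hb_piP_contDiff,
    fun p => ⟨hb_J_iota p, hb_one_le_iota p, hb_piP_iota p⟩, hb_iota_piP, hb_blk, hb_J_cosh, ?_⟩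
  intro γ hJ hup
  refine ⟨hb_iota_act γ hJ hup, hb_act_contDiff γ, hb_isom γ hJ hup, hb_bij γ hJ hup, ?_⟩
  intro hw
  refine ⟨hb_last γ hJ hw, ?_⟩
  intro C g2 p a b
  refine ⟨hb_act_snd γ hJ hw p, ?_, ?_⟩
  · have h1 := hb_isom γ hJ hup p (a.1, 0) (b.1, 0)
    rw [hb_act_fderiv γ hJ hw, hb_act_fderiv γ hJ hw] at h1 ⊢
    unfold blk at h1 ⊢
    rw [hb_act_snd γ hJ hw] at h1 ⊢
    simp only at h1 ⊢
    have h2 : 0 < ch p.2 ^ 2 := by
      have := hb_sqrt_pos p.2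
      unfold ch
      positivity
    have h3 := mul_left_cancel₀ h2.ne' (add_right_cancel h1)
    rw [h3]
  · intro w w'
    rw [hb_act_fst γ hJ hw, hb_act_fst γ hJ hw]

end Pool.Agent.Helper473.LY
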