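import Pool.Agent.Helper473.LY.Stmts

set_option autoImplicit false

open scoped Manifold ContDiff Topology RealInnerProductSpace
open Module

namespace Pool.Agent.Helper473.LY

open Pool.Agent.H234R3

/-- the quadratic form of a matrix -/
noncomputable def hermQ {n : ℕ} (G : Matrix (Fin n) (Fin n) ℝ) (x : Fin n → ℝ) : ℝ :=
  x ⬝ᵥ G.mulVec x

/-- integer vectors as real vectors -/
def hermC {n : ℕ} (x : Fin n → ℤ) : Fin n → ℝ := fun i => (x i : ℝ)

/-- a primitive vector is the first column of a unimodular matrix -/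
lemma herm_complete (n : ℕ) (b : Fin (n + 1) → ℤ) (hb : b ≠ 0)
    (hprim : ∀ (k : ℤ) (w : Fin (n + 1) → ℤ), b = k • w → IsUnit k) :
    ∃ u : Matrix (Fin (n + 1)) (Fin (n + 1)) ℤ, IsUnit u.det ∧ (fun j => u j 0) = b := by
  classical
  obtain ⟨k, snf⟩ := Submodule.smithNormalForm (Pi.basisFun ℤ (Fin (n + 1)))
    (Submodule.span ℤ {b})
  have hk : k = 1 := by
    have h1 : Module.finrank ℤ (Submodule.span ℤ {b}) = k := by
      rw [Module.finrank_eq_card_basis snf.bN, Fintype.card_fin]
    have h2 : Module.finrank ℤ (Submodule.span ℤ {b}) = 1 := by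
      rw [← (LinearEquiv.toSpanNonzeroSingleton ℤ _ b hb).finrank_eq]
      simp
    omega
  subst hk
  -- `b` is a multiple of the basis vector of the submodule
  have hbN : (⟨b, Submodule.mem_span_singleton_self b⟩ : Submodule.span ℤ {b}) =
      (snf.bN.repr ⟨b, Submodule.mem_span_singleton_self b⟩ 0) • snf.bN 0 := by
    conv_lhs => rw [← snf.bN.sum_repr ⟨b, Submodule.mem_span_singleton_self b⟩]
    simp
  set e : ℤ := snf.bN.repr ⟨b, Submodule.mem_span_singleton_self b⟩ 0 with he
  have hb2 : b = (e * snf.a 0) • snf.bM (snf.f 0) := by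
    have h := congrArg (fun z : Submodule.span ℤ {b} => (z : Fin (n + 1) → ℤ)) hbN
    simp only [Submodule.coe_smul] at h
    rw [snf.snf 0] at h
    rw [mul_smul]
    exact h
  have hunit := hprim _ _ hb2
  obtain ⟨ε, hε⟩ := hunit
  -- reindex the basis and multiply the first vector by the unit
  set σ : Equiv.Perm (Fin (n + 1)) := Equiv.swap (snf.f 0) 0 with hσ
  set B : Basis (Fin (n + 1)) ℤ (Fin (n + 1) → ℤ) :=
    (snf.bM.reindex σ).unitsSMul (fun i => if i = 0 then ε else 1) with hB
  have hB0 : B 0 = b := by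
    rw [hB, Basis.unitsSMul_apply, if_pos rfl, Basis.reindex_apply, hσ, Equiv.symm_swap,
      Equiv.swap_apply_right]
    refine Eq.trans ?_ hb2.symm
    rw [← hε]
    rfl
  refine ⟨(Pi.basisFun ℤ (Fin (n + 1))).toMatrix B, ?_, ?_⟩
  · exact (Pi.basisFun ℤ (Fin (n + 1))).isUnit_det B
  · funext j
    rw [Basis.toMatrix_apply, Pi.basisFun_repr, hB0]

/-- the Schur complement -/
noncomputable def hermH {n : ℕ} (G : Matrix (Fin (n + 1)) (Fin (n + 1)) ℝ) :
    Matrix (Fin n) (Fin n) ℝ :=
  fun i j => G i.succ j.succ - G i.succ 0 / G 0 0 * G 0 j.succ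

lemma herm_det {n : ℕ} (G : Matrix (Fin (n + 1)) (Fin (n + 1)) ℝ) (h0 : G 0 0 ≠ 0) :
    G.det = G 0 0 * (hermH G).det := by
  classical
  set c : Fin (n + 1) → ℝ := Fin.cons 0 (fun i => G i.succ 0 / G 0 0) with hc
  set R : Matrix (Fin (n + 1)) (Fin (n + 1)) ℝ := fun i j => G i j - c i * G 0 j with hR
  have hR0 : ∀ j, R 0 j = G 0 j := by
    intro j
    simp [hR, hc]
  have h1 : G.det = R.det := by
    refine Matrix.det_eq_of_forall_row_eq_smul_add_const c 0 (by simp [hc]) ?_
    intro i j
    rw [hR0]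
    simp [hR]
  rw [h1, Matrix.det_succ_column_zero, Fin.sum_univ_succ]
  have h2 : ∀ i : Fin n, R i.succ 0 = 0 := by
    intro i
    simp only [hR, hc, Fin.cons_succ]
    field_simp
    ring
  have h3 : R.submatrix Fin.succ Fin.succ = hermH G := by
    ext i j
    show R i.succ j.succ = hermH G i j
    simp only [hR, hc, hermH, Fin.cons_succ]
  simp only [h2]
  simp [h3, hR0]

lemma herm_form {n : ℕ} (G : Matrix (Fin (n + 1)) (Fin (n + 1)) ℝ) (h0 : G 0 0 ≠ 0)
    (hs : ∀ i j, G i j = G j i) (t : ℝ) (x : Fin n → ℝ) :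
    hermQ G (Fin.cons t x) =
      hermQ (hermH G) x + G 0 0 * (t + (∑ j, G 0 j.succ * x j) / G 0 0) ^ 2 := by
  set s : ℝ := ∑ j, G 0 j.succ * x j with hsdef
  have h1 : hermQ G (Fin.cons t x) =
      G 0 0 * t ^ 2 + 2 * t * s + ∑ i, ∑ j, x i * (G i.succ j.succ * x j) := by
    unfold hermQ
    simp only [dotProduct, Matrix.mulVec, Fin.sum_univ_succ, Fin.cons_zero, Fin.cons_succ]
    have h2 : ∀ i : Fin n, x i * (G i.succ 0 * t + ∑ j, G i.succ j.succ * x j) =
        t * (G 0 i.succ * x i) + ∑ j, x i * (G i.succ j.succ * x j) := by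
      intro i
      rw [mul_add, Finset.mul_sum, hs i.succ 0]
      ring
    rw [Finset.sum_congr rfl (fun i _ => h2 i), Finset.sum_add_distrib, ← Finset.mul_sum,
      ← hsdef]
    ring
  have h3 : hermQ (hermH G) x = (∑ i, ∑ j, x i * (G i.succ j.succ * x j)) - s ^ 2 / G 0 0 := by
    unfold hermQ hermH
    simp only [dotProduct, Matrix.mulVec]
    have h4 : ∀ i : Fin n, x i * ∑ j, (G i.succ j.succ - G i.succ 0 / G 0 0 * G 0 j.succ) * x j
        = (∑ j, x i * (G i.succ j.succ * x j)) - (G 0 i.succ * x i) * (s / G 0 0) := by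
      intro i
      rw [Finset.mul_sum, hsdef, Finset.sum_div, Finset.mul_sum, ← Finset.sum_sub_distrib]
      refine Finset.sum_congr rfl fun j _ => ?_
      rw [hs i.succ 0]
      ring
    rw [Finset.sum_congr rfl (fun i _ => h4 i), Finset.sum_sub_distrib, ← Finset.sum_mul,
      ← hsdef]
    ring
  rw [h1, h3]
  field_simp
  ring

lemma herm_posdef_iff {n : ℕ} (G : Matrix (Fin n) (Fin n) ℝ) :
    G.PosDef ↔ (∀ i j, G i j = G j i) ∧ ∀ x : Fin n → ℝ, x ≠ 0 → 0 < hermQ G x := by
  rw [Matrix.posDef_iff_dotProduct_mulVec]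
  refine and_congr ?_ ?_
  · constructor
    · intro h i j
      have := h.apply i j
      simpa using this.symm
    · intro h
      ext i j
      simp [h i j]
  · constructor
    · intro h x hx
      simpa [hermQ] using h hx
    · intro h x hx
      simpa [hermQ] using h x hx

lemma herm_cong {n : ℕ} (G : Matrix (Fin n) (Fin n) ℝ) (u : Matrix (Fin n) (Fin n) ℝ)
    (y : Fin n → ℝ) : hermQ G (u.mulVec y) = hermQ (u.transpose * G * u) y := by
  unfold hermQ
  rw [← Matrix.mulVec_mulVec, ← Matrix.mulVec_mulVec, Matrix.dotProduct_mulVec y,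
    Matrix.vecMul_transpose]

lemma herm_cast {n : ℕ} (u : Matrix (Fin n) (Fin n) ℤ) (y : Fin n → ℤ) :
    hermC (u.mulVec y) = (u.map (Int.cast : ℤ → ℝ)).mulVec (hermC y) := by
  funext i
  simp [hermC, Matrix.mulVec, dotProduct]

lemma hermC_ne {n : ℕ} {x : Fin n → ℤ} (hx : x ≠ 0) : hermC x ≠ 0 := by
  intro h
  apply hx
  funext i
  have := congrFun h i
  simpa [hermC] using this

lemma hermQ_smul {n : ℕ} (G : Matrix (Fin n) (Fin n) ℝ) (k : ℝ) (x : Fin n → ℝ) :
    hermQ G (k • x) = k ^ 2 * hermQ G x := by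
  unfold hermQ
  rw [Matrix.mulVec_smul, dotProduct_smul, smul_dotProduct]
  simp only [smul_eq_mul]
  ring

/-- a nearly shortest vector -/
lemma herm_short {n : ℕ} (G : Matrix (Fin (n + 1)) (Fin (n + 1)) ℝ) (μ : ℝ) (hμ : 0 < μ)
    (hmin : ∀ x : Fin (n + 1) → ℤ, x ≠ 0 → μ ≤ hermQ G (hermC x)) :
    ∃ b : Fin (n + 1) → ℤ, b ≠ 0 ∧
      ∀ x : Fin (n + 1) → ℤ, x ≠ 0 → hermQ G (hermC b) ≤ 6 / 5 * hermQ G (hermC x) := by
  set S : Set ℝ := {r | ∃ x : Fin (n + 1) → ℤ, x ≠ 0 ∧ hermQ G (hermC x) = r} with hS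
  have hne : S.Nonempty := ⟨_, fun _ => 1, by
    intro h
    have := congrFun h 0
    simp at this, rfl⟩
  have hbd : BddBelow S := ⟨μ, by
    rintro r ⟨x, hx, rfl⟩
    exact hmin x hx⟩
  have hinf : μ ≤ sInf S := le_csInf hne (by
    rintro r ⟨x, hx, rfl⟩
    exact hmin x hx)
  obtain ⟨r, ⟨b, hb, hbr⟩, hr⟩ := exists_lt_of_csInf_lt hne
    (show sInf S < 6 / 5 * sInf S by linarith)
  refine ⟨b, hb, fun x hx => ?_⟩
  have h1 : sInf S ≤ hermQ G (hermC x) := csInf_le hbd ⟨x, hx, rfl⟩
  rw [hbr]
  linarith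

lemma herm_main (n : ℕ) : ∀ (μ D : ℝ), 0 < μ → ∃ c : ℝ, ∀ G : Matrix (Fin n) (Fin n) ℝ,
    G.PosDef → G.det ≤ D → (∀ x : Fin n → ℤ, x ≠ 0 → μ ≤ hermQ G (hermC x)) →
    ∃ u : Matrix (Fin n) (Fin n) ℤ, IsUnit u.det ∧ ∀ i, hermQ G (hermC fun j => u j i) ≤ c := by
  classical
  induction n with
  | zero =>
    intro μ D _
    exact ⟨0, fun G _ _ _ => ⟨1, by simp, fun i => i.elim0⟩⟩
  | succ n ih =>
    intro μ D hμ
    obtain ⟨c', hc'⟩ := ih (7 / 12 * μ) (D / μ) (by positivity)
    refine ⟨|c'| + |D| + |12 / 7 * c'|, fun G hG hdet hmin => ?_⟩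
    obtain ⟨b, hb, hshort⟩ := herm_short G μ hμ hmin
    have hbpos : μ ≤ hermQ G (hermC b) := hmin b hb
    obtain ⟨u0, hu0, hu0b⟩ := herm_complete n b hb (by
      intro k w hbw
      have hw : w ≠ 0 := by
        rintro rfl
        exact hb (by rw [hbw, smul_zero])
      have h1 := hshort w hw
      have h2 : hermC b = (k : ℝ) • hermC w := by
        funext i
        rw [hbw]
        simp [hermC]
      rw [h2, hermQ_smul] at h1
      have h3 := hmin w hw
      have h4 : (k : ℝ) ^ 2 ≤ 6 / 5 := by
        by_contra hcon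
        push Not at hcon
        nlinarith
      have h5 : k ^ 2 < 2 := by
        have : ((k ^ 2 : ℤ) : ℝ) < 2 := by push_cast; linarith
        exact_mod_cast this
      have h6 : k ≠ 0 := by
        rintro rfl
        exact hb (by rw [hbw, zero_smul])
      have h7 : k = 1 ∨ k = -1 := by
        have : k < 2 := by nlinarith
        have : -2 < k := by nlinarith
        omega
      rcases h7 with rfl | rfl
      · exact isUnit_one
      · exact isUnit_one.neg)
    set U : Matrix (Fin (n + 1)) (Fin (n + 1)) ℝ := u0.map (Int.cast : ℤ → ℝ) with hU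
    have hUdet : U.det = 1 ∨ U.det = -1 := by
      have h1 : U.det = ((u0.det : ℤ) : ℝ) := by
        rw [hU]
        exact (Int.cast_det u0).symm
      rcases Int.isUnit_iff.mp hu0 with h | h
      · left; rw [h1, h]; simp
      · right; rw [h1, h]; simp
    have hUne : U.det ≠ 0 := by
      rcases hUdet with h | h <;> rw [h] <;> norm_num
    have hUinj : Function.Injective U.mulVec := by
      rw [Matrix.mulVec_injective_iff_isUnit, Matrix.isUnit_iff_isUnit_det]
      exact isUnit_iff_ne_zero.mpr hUne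
    set G' : Matrix (Fin (n + 1)) (Fin (n + 1)) ℝ := U.transpose * G * U with hG'
    have hQ : ∀ y, hermQ G' y = hermQ G (U.mulVec y) := fun y => (herm_cong G U y).symm
    have hdet' : G'.det = G.det := by
      rw [hG', Matrix.det_mul, Matrix.det_mul, Matrix.det_transpose]
      rcases hUdet with h | h <;> rw [h] <;> ring
    have hGpd := (herm_posdef_iff G).mp hG
    have hsym' : ∀ i j, G' i j = G' j i := by
      have hGt : G.transpose = G := by
        ext i j
        exact hGpd.1 j i
      have h1 : G'.transpose = G' := by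
        rw [hG', Matrix.transpose_mul, Matrix.transpose_mul, Matrix.transpose_transpose, hGt,
          Matrix.mul_assoc]
      intro i j
      conv_lhs => rw [← h1]
      rfl
    have hpos' : ∀ y : Fin (n + 1) → ℝ, y ≠ 0 → 0 < hermQ G' y := by
      intro y hy
      rw [hQ]
      refine hGpd.2 _ fun h => hy (hUinj ?_)
      rw [h, Matrix.mulVec_zero]
    -- the first diagonal entry
    have hcol : ∀ (M : Matrix (Fin (n + 1)) (Fin (n + 1)) ℝ),
        hermQ M (Fin.cons 1 0) = M 0 0 := by
      intro M
      unfold hermQ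
      simp [dotProduct, Matrix.mulVec, Fin.sum_univ_succ]
    have hm0 : G' 0 0 = hermQ G (hermC b) := by
      rw [← hcol G', hQ]
      congr 1
      funext j
      rw [← hu0b]
      simp [hU, hermC, dotProduct, Matrix.mulVec, Fin.sum_univ_succ]
    set m : ℝ := G' 0 0 with hm
    have hmμ : μ ≤ m := by rw [hm0]; exact hbpos
    have hmpos : 0 < m := lt_of_lt_of_le hμ hmμ
    have hm' : G' 0 0 ≠ 0 := hmpos.ne'
    -- integer vectors for the new form
    have hint : ∀ y : Fin (n + 1) → ℤ, y ≠ 0 → m ≤ 6 / 5 * hermQ G' (hermC y) := by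
      intro y hy
      rw [hm0, hQ, hU, ← herm_cast]
      refine hshort _ fun h => hermC_ne hy (hUinj ?_)
      rw [hU, ← herm_cast, h, Matrix.mulVec_zero]
      funext i
      simp [hermC]
    -- rounding
    have hround : ∀ x : Fin n → ℤ, ∃ t : ℤ,
        hermQ G' (hermC (Fin.cons t x)) ≤ hermQ (hermH G') (hermC x) + m / 4 := by
      intro x
      set r : ℝ := (∑ j, G' 0 j.succ * hermC x j) / G' 0 0 with hr
      refine ⟨round (-r), ?_⟩
      have hcons : hermC (Fin.cons (round (-r)) x : Fin (n + 1) → ℤ) =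
          Fin.cons ((round (-r) : ℤ) : ℝ) (hermC x) := by
        funext i
        refine Fin.cases ?_ (fun i => ?_) i <;> simp [hermC]
      rw [hcons, herm_form G' hm' hsym', ← hr]
      have h1 := abs_sub_round (-r)
      have h2 : ((round (-r) : ℤ) + r) ^ 2 ≤ (1 / 4 : ℝ) := by
        rw [abs_le] at h1
        nlinarith
      have h3 : m * ((round (-r) : ℤ) + r) ^ 2 ≤ m * (1 / 4) :=
        mul_le_mul_of_nonneg_left h2 hmpos.le
      linarith
    have hHpd : (hermH G').PosDef := by
      rw [herm_posdef_iff]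
      constructor
      · intro i j
        unfold hermH
        rw [hsym' i.succ j.succ, hsym' i.succ 0, hsym' 0 j.succ]
        ring
      · intro x hx
        have h1 := herm_form G' hm' hsym' (-((∑ j, G' 0 j.succ * x j) / G' 0 0)) x
        rw [neg_add_cancel] at h1
        have h2 := hpos' (Fin.cons (-((∑ j, G' 0 j.succ * x j) / G' 0 0)) x) (by
          intro h
          apply hx
          funext i
          have := congrFun h i.succ
          simpa using this)
        rw [h1] at h2
        simpa using h2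
    have hdetH : (hermH G').det ≤ D / μ := by
      have h1 := herm_det G' hm'
      rw [hdet'] at h1
      have h2 : 0 < G.det := hG.det_pos
      have h3 : (hermH G').det = G.det / m := by
        rw [h1, ← hm, mul_div_cancel_left₀ _ hmpos.ne']
      rw [h3]
      have hD : 0 < D := lt_of_lt_of_le h2 hdet
      calc G.det / m ≤ D / m := by gcongr
        _ ≤ D / μ := by gcongr
    have hHmin' : ∀ x : Fin n → ℤ, x ≠ 0 → 7 / 12 * m ≤ hermQ (hermH G') (hermC x) := by
      intro x hx
      obtain ⟨t, ht⟩ := hround x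
      have h1 := hint (Fin.cons t x) (by
        intro h
        apply hx
        funext i
        have := congrFun h i.succ
        simpa using this)
      linarith
    obtain ⟨v, hv, hvc⟩ := hc' (hermH G') hHpd hdetH (fun x hx => by
      have := hHmin' x hx
      linarith)
    -- bound for the first vector
    have hmb : m ≤ |D| + |12 / 7 * c'| := by
      rcases Nat.eq_zero_or_pos n with h0 | h0
      · subst h0
        have h1 := herm_det G' hm'
        have h5 : (hermH G').det = 1 := Matrix.det_isEmpty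
        rw [hdet', h5, mul_one] at h1
        have : m ≤ D := by
          rw [hm, ← h1]
          exact hdet
        have h2 := le_abs_self D
        have h3 := abs_nonneg (12 / 7 * c')
        linarith
      · have h1 := hvc ⟨0, h0⟩
        have h2 := hHmin' (fun j => v j ⟨0, h0⟩) (by
          intro h
          have h3 : v.det = 0 := Matrix.det_eq_zero_of_column_eq_zero ⟨0, h0⟩ (fun i => congrFun h i)
          rw [h3] at hv
          simp at hv)
        have h3 := le_abs_self (12 / 7 * c')
        have h4 := abs_nonneg D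
        linarith
    choose t ht using fun i : Fin n => hround (fun j => v j i)
    set w : Matrix (Fin (n + 1)) (Fin (n + 1)) ℤ :=
      fun i j => (Fin.cons (Fin.cons 1 (fun j => t j) : Fin (n + 1) → ℤ)
        (fun i => (Fin.cons 0 (fun j => v i j) : Fin (n + 1) → ℤ)) :
          Fin (n + 1) → Fin (n + 1) → ℤ) i j with hw
    have hwdet : w.det = v.det := by
      rw [Matrix.det_succ_column_zero, Fin.sum_univ_succ]
      have h2 : ∀ i : Fin n, w i.succ 0 = 0 := by
        intro i
        simp [hw]
      have h3 : w.submatrix Fin.succ Fin.succ = v := by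
        ext i j
        show w i.succ j.succ = v i j
        simp [hw]
      have h4 : w 0 0 = 1 := by simp [hw]
      simp only [h2]
      simp [h3, h4]
    have hcolw : ∀ i, hermQ G (hermC fun j => (u0 * w) j i) =
        hermQ G' (hermC fun j => w j i) := by
      intro i
      rw [hQ, hU, ← herm_cast]
      rfl
    refine ⟨u0 * w, ?_, fun i => ?_⟩
    · rw [Matrix.det_mul, hwdet]
      exact hu0.mul hv
    · rw [hcolw]
      have e1 := le_abs_self c'
      have e2 := abs_nonneg c'
      have e3 := abs_nonneg D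
      have e4 := abs_nonneg (12 / 7 * c')
      refine Fin.cases ?_ (fun i => ?_) i
      · have h1 : (hermC fun j => w j 0) = Fin.cons 1 0 := by
          funext j
          refine Fin.cases ?_ (fun j => ?_) j <;> simp [hw, hermC]
        rw [h1, hcol]
        linarith
      · have h1 : (fun j => w j i.succ) = Fin.cons (t i) (fun j => v j i) := by
          funext j
          refine Fin.cases ?_ (fun j => ?_) j <;> simp [hw]
        rw [h1]
        have h2 := ht i
        have h3 := hvc i
        linarith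

theorem t_HERM : S_HERM := by
  intro n D
  obtain ⟨c, hc⟩ := herm_main n 1 D one_pos
  refine ⟨c, fun G hG hdet hmin => ?_⟩
  obtain ⟨u, hu, huc⟩ := hc G hG hdet hmin
  exact ⟨u, hu, huc⟩

end Pool.Agent.Helper473.LY
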