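import Pool.Agent.Helper473.LY.Stmts

set_option autoImplicit false

open scoped Manifold ContDiff Topology RealInnerProductSpace
open Module

namespace Pool.Agent.Helper473.LY

open Pool.Agent.H234R3

section HypAux

variable {X : Type*} [NormedAddCommGroup X] [InnerProductSpace ℝ X]

theorem hyp_spos (z : X) : (0 : ℝ) < 1 + ‖z‖ ^ 2 := by positivity

theorem hyp_addl (z u u' v : X) : hyp z (u + u') v = hyp z u v + hyp z u' v := by
  unfold hyp
  rw [inner_add_left, inner_add_right]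
  ring

theorem hyp_smull (z : X) (c : ℝ) (u v : X) : hyp z (c • u) v = c * hyp z u v := by
  unfold hyp
  rw [real_inner_smul_left, real_inner_smul_right]
  ring

theorem hyp_symm (z u v : X) : hyp z u v = hyp z v u := by
  unfold hyp
  rw [real_inner_comm v u]
  ring

theorem hyp_addr (z u v v' : X) : hyp z u (v + v') = hyp z u v + hyp z u v' := by
  rw [hyp_symm, hyp_addl, hyp_symm z v, hyp_symm z v']

theorem hyp_smulr (z : X) (c : ℝ) (u v : X) : hyp z u (c • v) = c * hyp z u v := by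
  rw [hyp_symm, hyp_smull, hyp_symm z v]

theorem hyp_zz (z c : X) : hyp z z c = ⟪z, c⟫ / (1 + ‖z‖ ^ 2) := by
  unfold hyp
  rw [real_inner_self_eq_norm_sq]
  have h := (hyp_spos z).ne'
  field_simp
  ring

theorem hyp_pos (z a : X) (ha : a ≠ 0) : 0 < hyp z a a := by
  unfold hyp
  have hs := hyp_spos z
  have h1 : ⟪z, a⟫ * ⟪z, a⟫ ≤ ‖z‖ ^ 2 * ‖a‖ ^ 2 := by
    have h2 := abs_real_inner_le_norm z a
    have h3 : |⟪z, a⟫| ^ 2 ≤ (‖z‖ * ‖a‖) ^ 2 := pow_le_pow_left₀ (abs_nonneg _) h2 2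
    rw [sq_abs] at h3
    nlinarith
  have h4 : 0 < ‖a‖ ^ 2 := by
    have := norm_pos_iff.2 ha
    positivity
  rw [real_inner_self_eq_norm_sq, sub_pos, div_lt_iff₀ hs]
  nlinarith

theorem hyp_deriv (z a b : X) : ∃ L : X →L[ℝ] ℝ, HasFDerivAt (fun w => hyp w a b) L z ∧
    ∀ c, L c = -(⟪c, a⟫ * ⟪z, b⟫ + ⟪z, a⟫ * ⟪c, b⟫) / (1 + ‖z‖ ^ 2) +
      2 * ⟪z, c⟫ * ⟪z, a⟫ * ⟪z, b⟫ / (1 + ‖z‖ ^ 2) ^ 2 := by
  have hs := (hyp_spos z).ne'
  have h1 : ∀ a : X, HasFDerivAt (fun w : X => (⟪w, a⟫ : ℝ)) (innerSL ℝ a) z := by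
    intro a
    have : (fun w : X => (⟪w, a⟫ : ℝ)) = fun w => innerSL ℝ a w := by
      funext w
      rw [innerSL_apply_apply, real_inner_comm]
    rw [this]
    exact (innerSL ℝ a).hasFDerivAt
  have h3 : HasFDerivAt (fun w : X => 1 + ‖w‖ ^ 2) (2 • innerSL ℝ z) z :=
    (hasStrictFDerivAt_norm_sq z).hasFDerivAt.const_add 1
  have h4 := (hasDerivAt_inv hs).comp_hasFDerivAt z h3
  have h5 := (((h1 a).mul (h1 b)).mul h4).const_sub (⟪a, b⟫ : ℝ)
  refine ⟨_, h5.congr_of_eventuallyEq ?_, ?_⟩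
  · refine Filter.Eventually.of_forall fun w => ?_
    simp only [hyp, Function.comp, div_eq_mul_inv]
    rfl
  · intro c
    simp only [neg_apply, add_apply, smul_apply, innerSL_apply_apply, smul_eq_mul, nsmul_eq_mul,
      Function.comp, Pi.mul_apply]
    rw [real_inner_comm a c, real_inner_comm b c]
    field_simp
    ring

theorem hyp_fderiv (z a b c : X) : fderiv ℝ (fun w => hyp w a b) z c =
    -(⟪c, a⟫ * ⟪z, b⟫ + ⟪z, a⟫ * ⟪c, b⟫) / (1 + ‖z‖ ^ 2) +
      2 * ⟪z, c⟫ * ⟪z, a⟫ * ⟪z, b⟫ / (1 + ‖z‖ ^ 2) ^ 2 := by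
  obtain ⟨L, h1, h2⟩ := hyp_deriv z a b
  rw [h1.fderiv, h2]

theorem hyp_contDiff (a b : X) : ContDiff ℝ ∞ (fun w : X => hyp w a b) := by
  unfold hyp
  have h1 : ∀ a : X, ContDiff ℝ ∞ (fun w : X => (⟪w, a⟫ : ℝ)) := fun a =>
    contDiff_id.inner ℝ contDiff_const
  have h3 : ContDiff ℝ ∞ (fun w : X => 1 + ‖w‖ ^ 2) :=
    contDiff_const.add (contDiff_norm_sq ℝ)
  exact contDiff_const.sub (((h1 a).mul (h1 b)).div h3 fun w => (hyp_spos w).ne')

theorem hyp_isMet : IsMet (hyp (X := X)) Set.univ where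
  add := hyp_addl
  smul := hyp_smull
  symm := hyp_symm
  pos := fun y _ u hu => hyp_pos y u hu
  smooth := fun u v => (hyp_contDiff u v).contDiffOn

/-- the Christoffel symbols of the hyperbolic metric -/
noncomputable def hyp_G (z a b : X) : X := -(hyp z a b) • z

theorem hyp_G_hasFDerivAt (z a b : X) : ∃ L : X →L[ℝ] X, HasFDerivAt (fun w => hyp_G w a b) L z ∧
    ∀ c, L c = -(fderiv ℝ (fun w => hyp w a b) z c) • z - hyp z a b • c := by
  obtain ⟨L, h1, -⟩ := hyp_deriv z a b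
  have h2 := h1.neg.smul (hasFDerivAt_id z)
  refine ⟨_, h2.congr_of_eventuallyEq ?_, ?_⟩
  · exact Filter.Eventually.of_forall fun w => rfl
  · intro c
    rw [h1.fderiv]
    simp only [neg_apply, add_apply, smul_apply, ContinuousLinearMap.smulRight_apply,
      ContinuousLinearMap.id_apply, Pi.neg_apply, id]
    module

theorem hyp_G_christoffel (z : X) : IsChristoffel (hyp (X := X)) z (hyp_G z) := by
  intro a b c
  have hs := (hyp_spos z).ne'
  unfold hyp_G koszul der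
  rw [hyp_smull, hyp_zz, hyp_fderiv, hyp_fderiv, hyp_fderiv]
  unfold hyp
  rw [real_inner_comm b a, real_inner_comm c a, real_inner_comm c b]
  field_simp
  ring

theorem hyp_riem (z a b : X) : riem hyp_G z a b b = (hyp z a b) • b - (hyp z b b) • a := by
  unfold riem
  obtain ⟨L1, h1, h1'⟩ := hyp_G_hasFDerivAt z b b
  obtain ⟨L2, h2, h2'⟩ := hyp_G_hasFDerivAt z a b
  rw [h1.fderiv, h2.fderiv, h1', h2']
  unfold hyp_G
  rw [hyp_smulr, hyp_smulr, hyp_symm z a z, hyp_symm z b z, hyp_zz, hyp_zz]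
  have key : -(fderiv ℝ (fun w => hyp w b b) z a) + fderiv ℝ (fun w => hyp w a b) z b
      + hyp z b b * (⟪z, a⟫ / (1 + ‖z‖ ^ 2)) - hyp z a b * (⟪z, b⟫ / (1 + ‖z‖ ^ 2)) = 0 := by
    have hs := (hyp_spos z).ne'
    rw [hyp_fderiv, hyp_fderiv]
    unfold hyp
    rw [real_inner_comm b a]
    field_simp
    ring
  have e : (-(fderiv ℝ (fun w => hyp w b b) z a) • z - hyp z b b • a)
      - (-(fderiv ℝ (fun w => hyp w a b) z b) • z - hyp z a b • b)
      + -(-hyp z b b * (⟪z, a⟫ / (1 + ‖z‖ ^ 2))) • z - -(-hyp z a b * (⟪z, b⟫ / (1 + ‖z‖ ^ 2))) • z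
      = (-(fderiv ℝ (fun w => hyp w b b) z a) + fderiv ℝ (fun w => hyp w a b) z b
      + hyp z b b * (⟪z, a⟫ / (1 + ‖z‖ ^ 2)) - hyp z a b * (⟪z, b⟫ / (1 + ‖z‖ ^ 2))) • z
      + (hyp z a b • b - hyp z b b • a) := by
    module
  rw [key, zero_smul, zero_add] at e
  exact e

theorem hyp_neg (z : X) : NegAt (hyp (X := X)) z := by
  refine ⟨hyp_G, ?_, ?_, ?_⟩
  · intro a b
    obtain ⟨L, h, -⟩ := hyp_G_hasFDerivAt z a b
    exact h.differentiableAt
  · exact Filter.Eventually.of_forall hyp_G_christoffel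
  · intro a b hab
    have hb : b ≠ 0 := by
      have := hab.ne_zero 1
      simpa using this
    have hbb := hyp_pos z b hb
    have hne : hyp z b b • a - hyp z a b • b ≠ 0 := by
      intro h0
      have h1 := LinearIndependent.pair_iff.1 hab (hyp z b b) (-hyp z a b) (by
        rw [neg_smul, ← sub_eq_add_neg]; exact h0)
      exact hbb.ne' h1.1
    have hp := hyp_pos z _ hne
    rw [sub_eq_add_neg, ← neg_smul, hyp_addl, hyp_addr, hyp_addr, hyp_smull, hyp_smulr, hyp_smull,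
      hyp_smulr, hyp_smull, hyp_smulr, hyp_smull, hyp_smulr, hyp_symm z b a] at hp
    rw [hyp_riem, sub_eq_add_neg, ← neg_smul, hyp_addl, hyp_smull, hyp_smull, hyp_symm z b a]
    have h2 : 0 < hyp z b b * (hyp z b b * hyp z a a - hyp z a b * hyp z a b) := by nlinarith
    have h3 : 0 < hyp z b b * hyp z a a - hyp z a b * hyp z a b := by
      by_contra h4
      push Not at h4
      nlinarith
    nlinarith

end HypAux

theorem t_HYP : S_HYP := fun X _ _ _ => ⟨hyp_isMet, fun x => hyp_neg x⟩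

theorem t_BMET : S_BMET := by
  intro _ d C g2 U hU hg hC hCp
  refine ⟨?_, ?_, ?_, ?_, ?_⟩
  · intro y u u' v
    unfold blk
    rw [Prod.fst_add, Prod.snd_add, hyp_addl, hg.add]
    ring
  · intro y c u v
    unfold blk
    rw [Prod.smul_fst, Prod.smul_snd, hyp_smull, hg.smul]
    ring
  · intro y u v
    unfold blk
    rw [hyp_symm, hg.symm]
  · intro y hy u hu
    unfold blk
    have hC2 : 0 < C y.2 ^ 2 := pow_pos (hCp _ hy) 2
    have h1 : 0 ≤ hyp y.1 u.1 u.1 := by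
      by_cases h : u.1 = 0
      · rw [h]; simp [hyp]
      · exact (hyp_pos _ _ h).le
    have h2 : 0 ≤ g2 y.2 u.2 u.2 := by
      by_cases h : u.2 = 0
      · have := hg.smul y.2 0 u.2 u.2
        rw [zero_smul, zero_mul] at this
        rw [h] at this ⊢
        exact this.ge
      · exact (hg.pos _ hy _ h).le
    by_cases h : u.1 = 0
    · have h' : u.2 ≠ 0 := by
        intro h'
        exact hu (Prod.ext h h')
      have := hg.pos _ hy _ h'
      have := mul_nonneg hC2.le h1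
      linarith
    · have := mul_pos hC2 (hyp_pos y.1 _ h)
      linarith
  · intro u v
    unfold blk
    have hm : Set.MapsTo (fun p : P d => p.2) {p | p.2 ∈ U} U := fun p hp => hp
    have h1 : ContDiffOn ℝ ∞ (fun p : P d => C p.2) {p | p.2 ∈ U} :=
      hC.comp contDiff_snd.contDiffOn hm
    have h2 : ContDiffOn ℝ ∞ (fun p : P d => g2 p.2 u.2 v.2) {p | p.2 ∈ U} :=
      (hg.smooth u.2 v.2).comp contDiff_snd.contDiffOn hm
    have h3 : ContDiffOn ℝ ∞ (fun p : P d => hyp p.1 u.1 v.1) {p | p.2 ∈ U} :=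
      ((hyp_contDiff u.1 v.1).comp contDiff_fst).contDiffOn
    exact ((h1.pow 2).mul h3).add h2

end Pool.Agent.Helper473.LY
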