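import Pool.Agent.Helper473.LY.Stmts

set_option autoImplicit false

open scoped Manifold ContDiff Topology RealInnerProductSpace
open Module

namespace Pool.Agent.Helper473.LY

open Pool.Agent.H234R3

/-- the Christoffel symbols of a conformal metric with the factor `L` and its gradient `v` -/
noncomputable def idc_cs (L : ℝ) (v a b : W) : W :=
  (1 / (2 * L)) • (⟪v, a⟫ • b + ⟪v, b⟫ • a - ⟪a, b⟫ • v)

/-- the gradient -/
noncomputable def idc_grad (f : W → ℝ) (x : W) : W :=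
  (InnerProductSpace.toDual ℝ W).symm (fderiv ℝ f x)

theorem idc_grad_inner (f : W → ℝ) (x a : W) : ⟪idc_grad f x, a⟫ = fderiv ℝ f x a := by
  rw [idc_grad, InnerProductSpace.toDual_symm_apply]

theorem idc_der (f : W → ℝ) (x a : W) (k : ℝ) (hf : DifferentiableAt ℝ f x) :
    der (fun z => f z * k) x a = fderiv ℝ f x a * k := by
  rw [der, fderiv_mul_const hf]
  simp [mul_comm]

theorem idc_chr (f : W → ℝ) (x : W) (hf : DifferentiableAt ℝ f x) (hx : 0 < f x) :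
    IsChristoffel (fun z a b => f z * ⟪a, b⟫) x (idc_cs (f x) (idc_grad f x)) := by
  intro a b c
  rw [koszul, idc_der f x a _ hf, idc_der f x b _ hf, idc_der f x c _ hf, idc_cs]
  simp only [real_inner_smul_left, inner_add_left, inner_sub_left, idc_grad_inner]
  have := hx.ne'
  field_simp

theorem idc_sum (L s : ℝ) (v : W) :
    ∑ i : Fin 2, idc_cs L v (s • EuclideanSpace.basisFun (Fin 2) ℝ i)
      (s • EuclideanSpace.basisFun (Fin 2) ℝ i) = 0 := by
  have h1 := (EuclideanSpace.basisFun (Fin 2) ℝ).sum_repr' v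
  rw [Fin.sum_univ_two] at h1 ⊢
  set b := EuclideanSpace.basisFun (Fin 2) ℝ with hb
  have n0 : ⟪b 0, b 0⟫ = 1 := by
    rw [real_inner_self_eq_norm_sq, b.norm_eq_one]; norm_num
  have n1 : ⟪b 1, b 1⟫ = 1 := by
    rw [real_inner_self_eq_norm_sq, b.norm_eq_one]; norm_num
  simp only [idc_cs, real_inner_smul_left, real_inner_smul_right, n0, n1]
  rw [← smul_add]
  have h2 : ⟪v, b 0⟫ = ⟪b 0, v⟫ := real_inner_comm _ _
  have h3 : ⟪v, b 1⟫ = ⟪b 1, v⟫ := real_inner_comm _ _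
  rw [h2, h3]
  have h4 : (s * ⟪b 0, v⟫) • s • b 0 + (s * ⟪b 0, v⟫) • s • b 0 - (s * (s * 1)) • v +
      ((s * ⟪b 1, v⟫) • s • b 1 + (s * ⟪b 1, v⟫) • s • b 1 - (s * (s * 1)) • v) =
      (2 * s ^ 2) • ((⟪b 0, v⟫ • b 0 + ⟪b 1, v⟫ • b 1) - v) := by
    module
  rw [h4, h1, sub_self, smul_zero, smul_zero]

theorem idc_met (f : W → ℝ) (U : Set W) (hf : ContDiffOn ℝ ∞ f U) (hp : ∀ x ∈ U, 0 < f x) :
    IsMet (fun z a b => f z * ⟪a, b⟫) U where
  add := fun y u u' v => by rw [inner_add_left]; ring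
  smul := fun y c u v => by rw [real_inner_smul_left]; ring
  symm := fun y u v => by rw [real_inner_comm]
  pos := fun y hy u hu => mul_pos (hp y hy) (real_inner_self_pos.2 hu)
  smooth := fun u v => hf.mul contDiffOn_const

theorem idc_dd (x a : W) : dd (fun z : W => z) x a = 0 := by
  have h : (deriv fun t : ℝ => x + t • a) = fun _ => a := by
    funext t
    have h1 : HasDerivAt (fun t : ℝ => x + t • a) a t := by
      have := ((hasDerivAt_id t).smul_const a).const_add x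
      simpa using this
    exact h1.deriv
  rw [dd]
  simp only [h]
  exact deriv_const _ _

theorem idc_nabla (Γ Γ' : W → W → W) (x a : W) :
    nablaD Γ Γ' (fun z : W => z) x a = Γ' a a - Γ a a := by
  have h : ∀ b : W, der (fun z : W => z) x b = b := by
    intro b
    rw [der, fderiv_fun_id]
    rfl
  rw [nablaD, idc_dd, h, h]
  abel

theorem t_IDC : S_IDC := by
  intro hH hT d C c Λ Λ' U p hU hp hC hc hΛ hΛ' hC0 hc0 hΛ0 hΛ0' hyp
  have hn : U ∈ 𝓝 p.2 := hU.mem_nhds hp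
  have dC : DifferentiableAt ℝ C p.2 := (hC.contDiffAt hn).differentiableAt (by simp)
  have dc : DifferentiableAt ℝ c p.2 := (hc.contDiffAt hn).differentiableAt (by simp)
  have dΛ : DifferentiableAt ℝ Λ p.2 := (hΛ.contDiffAt hn).differentiableAt (by simp)
  have dΛ' : DifferentiableAt ℝ Λ' p.2 := (hΛ'.contDiffAt hn).differentiableAt (by simp)
  have pC := hC0 _ hp
  have pc := hc0 _ hp
  have pΛ := hΛ0 _ hp
  have pΛ' := hΛ0' _ hp
  have hs : √(Λ p.2) ≠ 0 := (Real.sqrt_pos.2 pΛ).ne'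
  set s : ℝ := (√(Λ p.2))⁻¹ with hsd
  have hs2 : Λ p.2 * (s * s) = 1 := by
    rw [hsd, ← mul_inv, Real.mul_self_sqrt pΛ.le, mul_inv_cancel₀ pΛ.ne']
  set e : Basis (Fin 2) ℝ W := (EuclideanSpace.basisFun (Fin 2) ℝ).toBasis.unitsSMul
    (fun _ => Units.mk0 s (inv_ne_zero hs)) with he
  have hei : ∀ i, e i = s • EuclideanSpace.basisFun (Fin 2) ℝ i := by
    intro i
    rw [he, Basis.unitsSMul_apply, OrthonormalBasis.coe_toBasis]
    rfl
  refine hT hH d C c (fun z a b => Λ z * ⟪a, b⟫) (fun z a b => Λ' z * ⟪a, b⟫) U U (fun z => z) p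
    (idc_cs (Λ p.2) (idc_grad Λ p.2)) (idc_cs (Λ' p.2) (idc_grad Λ' p.2)) e
    ((Λ p.2)⁻¹ • idc_grad C p.2) ((Λ' p.2)⁻¹ • idc_grad c p.2) hU hU hp hp
    (idc_met Λ U hΛ hΛ0) (idc_met Λ' U hΛ' hΛ0') hC hc hC0 hc0 contDiffOn_id
    (idc_chr Λ p.2 dΛ pΛ) (idc_chr Λ' p.2 dΛ' pΛ') ?_ ?_ ?_ ?_
  · intro i j
    show Λ p.2 * ⟪e i, e j⟫ = _
    rw [hei, hei, real_inner_smul_left, real_inner_smul_right,
      (EuclideanSpace.basisFun (Fin 2) ℝ).inner_eq_ite, ← mul_assoc, ← mul_assoc, mul_assoc (Λ p.2),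
      hs2, one_mul]
  · intro a
    show Λ p.2 * ⟪(Λ p.2)⁻¹ • idc_grad C p.2, a⟫ = _
    rw [real_inner_smul_left, idc_grad_inner, mul_inv_cancel_left₀ pΛ.ne']
  · intro a
    show Λ' p.2 * ⟪(Λ' p.2)⁻¹ • idc_grad c p.2, a⟫ = _
    rw [real_inner_smul_left, idc_grad_inner, mul_inv_cancel_left₀ pΛ'.ne']
  · have h1 : ∑ i, nablaD (idc_cs (Λ p.2) (idc_grad Λ p.2)) (idc_cs (Λ' p.2) (idc_grad Λ' p.2))
        (fun z : W => z) p.2 (e i) = 0 := by
      simp only [idc_nabla, hei]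
      rw [Finset.sum_sub_distrib, idc_sum, idc_sum, sub_zero]
    rw [h1, zero_add, fderiv_fun_id]
    show (d / C p.2 : ℝ) • ((Λ p.2)⁻¹ • idc_grad C p.2) -
      (d * c p.2 / C p.2 ^ 2 : ℝ) • ((Λ' p.2)⁻¹ • idc_grad c p.2) = 0
    refine ext_inner_right ℝ fun a => ?_
    simp only [inner_sub_left, real_inner_smul_left, idc_grad_inner, inner_zero_left]
    have h2 := hyp a
    have h3 : fderiv ℝ (fun z => c z ^ 2) p.2 a = 2 * c p.2 * fderiv ℝ c p.2 a := by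
      have := dc.hasFDerivAt.pow 2
      rw [this.fderiv]
      simp
    have h4 : fderiv ℝ (fun z => C z ^ 2) p.2 a = 2 * C p.2 * fderiv ℝ C p.2 a := by
      have := dC.hasFDerivAt.pow 2
      rw [this.fderiv]
      simp
    rw [h3, h4] at h2
    have n1 := pC.ne'
    have n2 := pΛ.ne'
    have n3 := pΛ'.ne'
    have h5 : c p.2 * fderiv ℝ c p.2 a / Λ' p.2 = C p.2 * fderiv ℝ C p.2 a / Λ p.2 := by
      have e1 : 2 * c p.2 * fderiv ℝ c p.2 a / Λ' p.2 = 2 * (c p.2 * fderiv ℝ c p.2 a / Λ' p.2) := by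
        ring
      have e2 : 2 * C p.2 * fderiv ℝ C p.2 a / Λ p.2 = 2 * (C p.2 * fderiv ℝ C p.2 a / Λ p.2) := by
        ring
      rw [e1, e2] at h2
      linarith
    have h6 : (d / C p.2 : ℝ) * ((Λ p.2)⁻¹ * fderiv ℝ C p.2 a) =
        d / C p.2 ^ 2 * (C p.2 * fderiv ℝ C p.2 a / Λ p.2) := by
      field_simp
    have h7 : (d * c p.2 / C p.2 ^ 2 : ℝ) * ((Λ' p.2)⁻¹ * fderiv ℝ c p.2 a) =
        d / C p.2 ^ 2 * (c p.2 * fderiv ℝ c p.2 a / Λ' p.2) := by
      field_simp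
    rw [h6, h7, h5, sub_self]

end Pool.Agent.Helper473.LY
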