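import Pool.Agent.Helper473.LY.Stmts

/-!
# Lawson–Yau: task INGOOD (the inner metrics are good)
-/

set_option autoImplicit false

open scoped Manifold ContDiff Topology RealInnerProductSpace
open Module

namespace Pool.Agent.Helper473.LY

open Pool.Agent.H234R3

/-! ### One-variable facts -/

theorem ingood_deriv_eq (f g : ℝ → ℝ) (y : ℝ) (hf : DifferentiableAt ℝ f y)
    (hg : DifferentiableAt ℝ g y) (h : ∀ t, y ≤ t → f t = g t) : deriv f y = deriv g y := by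
  have h1 := hf.hasDerivAt.hasDerivWithinAt (s := Set.Ici y)
  have h2 := hg.hasDerivAt.hasDerivWithinAt (s := Set.Ici y)
  have h3 : HasDerivWithinAt g (deriv f y) (Set.Ici y) y :=
    h1.congr (fun t ht => (h t ht).symm) (h y le_rfl).symm
  exact (uniqueDiffOn_Ici y y Set.self_mem_Ici).eq_deriv _ h3 h2

theorem ingood_dd {f : ℝ → ℝ} {y : ℝ} (h : ContDiffAt ℝ ∞ f y) :
    DifferentiableAt ℝ (deriv f) y := by
  have h1 : ContDiffAt ℝ 1 (fderiv ℝ f) y := h.fderiv_right (m := 1) (by norm_cast)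
  have h2 : ContDiffAt ℝ 1 (fun t => fderiv ℝ f t 1) y := h1.clm_apply contDiffAt_const
  exact h2.differentiableAt (by norm_num)

theorem ingood_M (hS : S_SM) {n : ℕ} (hn : 1 ≤ n) {ε y : ℝ} (hε : 0 ≤ ε) (hy : 0 ≤ y)
    (h : 0 < ε + y) : ContDiffAt ℝ ∞ (Mf n ε) y :=
  (hS n ε y hn hε hy h).1.comp y (contDiffAt_const.prodMk contDiffAt_id)

theorem ingood_G (hS : S_SM) {n : ℕ} (hn : 1 ≤ n) {ε y : ℝ} (hε : 0 ≤ ε) (hy : 0 ≤ y)
    (h : 0 < ε + y) : ContDiffAt ℝ ∞ (Gf n ε) y :=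
  (hS n ε y hn hε hy h).2.1.comp y (contDiffAt_const.prodMk contDiffAt_id)

theorem ingood_lV (hS : S_SM) {n : ℕ} (hn : 1 ≤ n) {ε y : ℝ} (hε : 0 ≤ ε) (hy : 0 ≤ y)
    (h : 0 < ε + y) : ContDiffAt ℝ ∞ (lV n ε) y :=
  (hS n ε y hn hε hy h).2.2.1.comp y (contDiffAt_const.prodMk contDiffAt_id)

theorem ingood_zh (hS : S_SM) {n : ℕ} (hn : 1 ≤ n) {ε y : ℝ} (s : ℝ) (hε : 0 ≤ ε) (hy : 0 ≤ y)
    (h : 0 < ε + y) : ContDiffAt ℝ ∞ (zh n ε s) y :=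
  ContDiffAt.comp (g := fun q : ℝ × ℝ × ℝ => zh n q.1 q.2.1 q.2.2) (f := fun t => (ε, s, t)) y
    ((hS n ε y hn hε hy h).2.2.2.2.1 s)
    (contDiffAt_const.prodMk (contDiffAt_const.prodMk contDiffAt_id))

theorem ingood_lV_d (hS : S_SM) {n : ℕ} (hn : 1 ≤ n) {ε y : ℝ} (hε : 0 ≤ ε) (hy : 0 ≤ y)
    (h : 0 < ε + y) : HasDerivAt (lV n ε) (Mf n ε y / 2) y := by
  have h1 := ((ingood_lV hS hn hε hy h).differentiableAt (by simp)).hasDerivAt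
  rwa [(hS n ε y hn hε hy h).2.2.2.2.2.1] at h1

theorem ingood_zh_d (hS : S_SM) {n : ℕ} (hn : 1 ≤ n) {ε y : ℝ} (s : ℝ) (hε : 0 ≤ ε) (hy : 0 ≤ y)
    (h : 0 < ε + y) : HasDerivAt (zh n ε s) (Gf n ε y / 2 * zh n ε s y) y := by
  have h1 := ((ingood_zh hS hn s hε hy h).differentiableAt (by simp)).hasDerivAt
  rwa [(hS n ε y hn hε hy h).2.2.2.2.2.2 s] at h1

theorem ingood_chi1_c : ContDiff ℝ ∞ chi1 :=
  (Real.smoothTransition.contDiff (n := ⊤)).comp (contDiff_const.sub contDiff_id)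

theorem ingood_chi2_c : ContDiff ℝ ∞ chi2 :=
  (Real.smoothTransition.contDiff (n := ⊤)).comp
    ((contDiff_const.mul contDiff_id).sub contDiff_const)

theorem ingood_chi1_c1 : ContDiff ℝ ∞ (deriv chi1) := (contDiff_infty_iff_deriv.1 ingood_chi1_c).2

theorem ingood_chi1_c2 : ContDiff ℝ ∞ (deriv (deriv chi1)) :=
  (contDiff_infty_iff_deriv.1 ingood_chi1_c1).2

theorem ingood_chi2_c1 : ContDiff ℝ ∞ (deriv chi2) := (contDiff_infty_iff_deriv.1 ingood_chi2_c).2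

theorem ingood_chi1_one {y : ℝ} (h : y ≤ 1) : chi1 y = 1 :=
  Real.smoothTransition.one_of_one_le (by linarith)

theorem ingood_chi1_zero {y : ℝ} (h : 2 ≤ y) : chi1 y = 0 :=
  Real.smoothTransition.zero_of_nonpos (by linarith)

theorem ingood_chi1_d {y : ℝ} (h : y < 1 ∨ 2 < y) :
    deriv chi1 y = 0 ∧ deriv (deriv chi1) y = 0 := by
  have h1 : ∀ᶠ t in 𝓝 y, deriv chi1 t = 0 := by
    rcases h with h | h
    · filter_upwards [isOpen_Iio.mem_nhds h] with t ht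
      have : chi1 =ᶠ[𝓝 t] fun _ => (1:ℝ) := by
        filter_upwards [isOpen_Iio.mem_nhds ht] with u hu
        exact ingood_chi1_one (le_of_lt hu)
      rw [this.deriv_eq, deriv_const]
    · filter_upwards [isOpen_Ioi.mem_nhds h] with t ht
      have : chi1 =ᶠ[𝓝 t] fun _ => (0:ℝ) := by
        filter_upwards [isOpen_Ioi.mem_nhds ht] with u hu
        exact ingood_chi1_zero (le_of_lt hu)
      rw [this.deriv_eq, deriv_const]
  refine ⟨h1.self_of_nhds, ?_⟩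
  have h2 : deriv chi1 =ᶠ[𝓝 y] fun _ => (0:ℝ) := h1
  rw [h2.deriv_eq, deriv_const]

/-- The formula for `EEf`. -/
theorem ingood_EE (hP : S_POLY) (hS : S_SM) {n : ℕ} (hn : 1 ≤ n) {ε y : ℝ} (s : ℝ) (hε : 0 ≤ ε)
    (hy : 0 < y) :
    EEf (Mf n ε) (zc n ε s) y = zh n ε s y * (4 * y ^ 2 * deriv (deriv chi1) y
      + deriv chi1 y * (4 * y + 4 * y ^ 2 * Gf n ε y + 2 * y ^ 2 * Mf n ε y)) := by
  have d1 : ∀ t, 0 < t → HasDerivAt (zc n ε s)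
      (deriv chi1 t * zh n ε s t + chi1 t * (Gf n ε t / 2 * zh n ε s t)) t := by
    intro t ht
    have h1 := (ingood_chi1_c.differentiable (by simp) t).hasDerivAt
    exact h1.mul (ingood_zh_d hS hn s hε ht.le (by linarith))
  have d2 : deriv (zc n ε s) =ᶠ[𝓝 y]
      fun t => deriv chi1 t * zh n ε s t + chi1 t * (Gf n ε t / 2 * zh n ε s t) := by
    filter_upwards [isOpen_Ioi.mem_nhds hy] with t ht
    exact (d1 t ht).deriv
  have hG := ((ingood_G hS hn hε hy.le (by linarith : 0 < ε + y)).differentiableAt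
    (by simp)).hasDerivAt
  have hc1 := (ingood_chi1_c.differentiable (by simp) y).hasDerivAt
  have hc2 := (ingood_chi1_c1.differentiable (by simp) y).hasDerivAt
  have hz := ingood_zh_d hS hn s hε hy.le (by linarith : 0 < ε + y)
  have d3 := (hc2.mul hz).add (hc1.mul ((hG.div_const 2).mul hz))
  have hR := (hP n ε y hn hε hy.le (by linarith)).2.2.2.2.2.2.2.2.1
  have e1 : deriv (zc n ε s) y = _ := (d1 y hy).deriv
  have e2 : deriv (deriv (zc n ε s)) y = _ := d2.deriv_eq.trans d3.deriv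
  unfold EEf
  rw [e2, e1]
  simp only [zc, Pi.mul_apply]
  have hR' : y * deriv (Gf n ε) y = (Mf n ε y * (1 - y * Gf n ε y) - y * Gf n ε y ^ 2) / 2
      - Gf n ε y := by linarith
  linear_combination (2 * y * chi1 y * zh n ε s y) * hR'

theorem ingood_EE0 (hP : S_POLY) (hS : S_SM) {n : ℕ} (hn : 1 ≤ n) {ε y : ℝ} (s : ℝ) (hε : 0 ≤ ε)
    (hy : 0 ≤ y) (h : y < 1 ∨ 2 < y) : EEf (Mf n ε) (zc n ε s) y = 0 := by
  rcases hy.eq_or_lt with hy | hy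
  · subst hy; simp [EEf]
  · rw [ingood_EE hP hS hn s hε hy, (ingood_chi1_d h).1, (ingood_chi1_d h).2]; ring

theorem ingood_nu0 (hP : S_POLY) (hS : S_SM) {n : ℕ} (hn : 1 ≤ n) {ε : ℝ} (s : ℝ) (hε : 0 ≤ ε)
    (x : W) (h : ‖x‖ ^ 2 < 1 ∨ 2 < ‖x‖ ^ 2) : nuf (Mf n ε) (zc n ε s) x = 0 := by
  unfold nuf
  rw [ingood_EE0 hP hS hn s hε (sq_nonneg _) h]; simp

theorem ingood_zc0 (n : ℕ) (ε : ℝ) : zc n ε 0 = fun _ => 0 := by
  funext y; simp [zc, zh]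

theorem ingood_nu00 (n : ℕ) (ε : ℝ) (x : W) : nuf (Mf n ε) (zc n ε 0) x = 0 := by
  rw [ingood_zc0]; simp [nuf, EEf]

/-! ### The metrics at `r = 0` -/

theorem ingood_Y0 (z : ℝ → ℝ) (x : W) : Y2f 0 z x = 0 := by simp [Y2f]

theorem ingood_kr0 (M χ : ℝ → ℝ) (y : ℝ) : krf 0 M χ y = M y := by
  simp [krf]

theorem ingood_C0 (n : ℕ) (ε s : ℝ) (x : W) (h : nuf (Mf n ε) (zc n ε s) x = 0) :
    Cin n s ε 0 x = Real.exp (lV n ε (‖x‖ ^ 2) / n) := by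
  simp [Cin, Cf, ingood_Y0, h]

theorem ingood_g0 (n : ℕ) (ε s : ℝ) (x : W) (h : nuf (Mf n ε) (zc n ε s) x = 0) (a b : W) :
    gin n s ε 0 x a b = Real.exp (lV n ε (‖x‖ ^ 2) / n) ^ 2 * Mf n ε (‖x‖ ^ 2) * ⟪a, b⟫ := by
  have := ingood_C0 n ε s x h
  unfold Cin at this
  simp [gin, gf, this, kf, ingood_Y0, h, ingood_kr0]

/-- The radial metrics at `r = 0` are good. -/
theorem ingood_rad (hP : S_POLY) (hS : S_SM) (hR : S_RAD) {n : ℕ} (hn : 1 ≤ n) {ε : ℝ} (s : ℝ)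
    (hε : 0 ≤ ε) (x : W) (h : 0 < ε + ‖x‖ ^ 2)
    (hnu : ∀ᶠ z in 𝓝 x, nuf (Mf n ε) (zc n ε s) z = 0) :
    GoodAt (Cin n s ε 0) (gin n s ε 0) x := by
  have hn0 : (0:ℝ) < n := by exact_mod_cast hn
  have hy := sq_nonneg ‖x‖
  generalize hyx : ‖x‖ ^ 2 = y at *
  obtain ⟨pA, pB, pN, pb, -, pb1, pM', -, -, -, -⟩ := hP n ε y hn hε hy h
  have hM : ∀ t, y ≤ t → 0 < Mf n ε t := by
    intro t ht
    obtain ⟨qA, qB, qN, -⟩ := hP n ε t hn hε (hy.trans ht) (by linarith)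
    unfold Mf; positivity
  -- derivatives
  have dM : ∀ t, y ≤ t → HasDerivAt (Mf n ε) (deriv (Mf n ε) t) t := fun t ht =>
    ((ingood_M hS hn hε (hy.trans ht) (by linarith)).differentiableAt (by simp)).hasDerivAt
  have dc : ∀ t, y ≤ t → HasDerivAt (fun t => Real.exp (lV n ε t / n))
      (Real.exp (lV n ε t / n) * (Mf n ε t / 2 / n)) t := fun t ht =>
    ((ingood_lV_d hS hn hε (hy.trans ht) (by linarith)).div_const (n:ℝ)).exp
  have cc : ContDiffAt ℝ ∞ (fun t => Real.exp (lV n ε t / n)) y :=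
    ((ingood_lV hS hn hε hy h).div_const _).exp
  have cM := ingood_M hS hn hε hy h
  have cL : ContDiffAt ℝ ∞ (fun t => Real.exp (lV n ε t / n) ^ 2 * Mf n ε t) y :=
    (cc.pow 2).mul cM
  have dL : ∀ t, y ≤ t → HasDerivAt (fun t => Real.exp (lV n ε t / n) ^ 2 * Mf n ε t)
      (Real.exp (lV n ε t / n) ^ 2 * (Mf n ε t ^ 2 / n + deriv (Mf n ε) t)) t := by
    intro t ht
    have h2 : HasDerivAt (fun t => Real.exp (lV n ε t / n) ^ 2)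
        (2 * Real.exp (lV n ε t / n) * (Real.exp (lV n ε t / n) * (Mf n ε t / 2 / n))) t := by
      simpa using (dc t ht).fun_pow 2
    have h3 := h2.fun_mul (dM t ht)
    exact h3.congr_deriv (by ring)
  have hLL : ∀ t, y ≤ t → t * deriv (fun t => Real.exp (lV n ε t / n) ^ 2 * Mf n ε t) t /
      (Real.exp (lV n ε t / n) ^ 2 * Mf n ε t) = bf n ε t - 1 := by
    intro t ht
    have h1 := hM t ht
    have h2 := Real.exp_pos (lV n ε t / n)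
    rw [(dL t ht).deriv, bf]
    field_simp
    ring
  refine hR _ _ (fun t => Real.exp (lV n ε t / n))
    (fun t => Real.exp (lV n ε t / n) ^ 2 * Mf n ε t) x ?_ ?_ ?_ ?_ ?_ ?_ ?_ ?_ ?_ ?_
  · filter_upwards [hnu] with z hz
    exact ingood_C0 n ε s z hz
  · filter_upwards [hnu] with z hz a b
    exact ingood_g0 n ε s z hz a b
  · rw [hyx]; exact cc
  · rw [hyx]; exact cL
  · positivity
  · rw [hyx]
    have := hM y le_rfl
    positivity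
  · rw [hyx]
    have e : deriv (fun t => t * deriv (fun t => Real.exp (lV n ε t / n) ^ 2 * Mf n ε t) t /
        (Real.exp (lV n ε t / n) ^ 2 * Mf n ε t)) y = deriv (fun t => bf n ε t - 1) y := by
      apply ingood_deriv_eq
      · have h1 := hM y le_rfl
        have h2 := Real.exp_pos (lV n ε y / n)
        exact ((differentiableAt_id.mul (ingood_dd cL)).div (cL.differentiableAt (by simp))
          (by positivity))
      · exact (differentiableAt_of_deriv_ne_zero pb.ne').sub_const 1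
      · exact hLL
    rw [e, deriv_sub_const]
    exact pb
  · rw [hyx, (dc y le_rfl).deriv]
    have := hM y le_rfl
    positivity
  · rw [hyx]
    have := hLL y le_rfl
    linarith
  · rw [hyx]
    have e1 : deriv (fun t => Real.exp (lV n ε t / n)) y
        = Real.exp (lV n ε y / n) * (Mf n ε y / 2 / n) := (dc y le_rfl).deriv
    have e3 : HasDerivAt (fun t => Real.exp (lV n ε t / n) * (Mf n ε t / 2 / n))
        (Real.exp (lV n ε y / n) * (Mf n ε y / 2 / n) * (Mf n ε y / 2 / n)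
          + Real.exp (lV n ε y / n) * (deriv (Mf n ε) y / 2 / n)) y :=
      (dc y le_rfl).mul (((dM y le_rfl).div_const 2).div_const _)
    have e2 : deriv (deriv (fun t => Real.exp (lV n ε t / n))) y
        = Real.exp (lV n ε y / n) * (Mf n ε y / 2 / n) * (Mf n ε y / 2 / n)
          + Real.exp (lV n ε y / n) * (deriv (Mf n ε) y / 2 / n) := by
      rw [← e3.deriv]
      apply ingood_deriv_eq
      · exact ingood_dd cc
      · exact e3.differentiableAt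
      · intro t ht
        exact (dc t ht).deriv
    have e4 : deriv (fun t => t * Mf n ε t) y = Mf n ε y + y * deriv (Mf n ε) y := by
      have := (hasDerivAt_id' y).fun_mul (dM y le_rfl)
      simpa using this.deriv
    rw [e4] at pM'
    have hm := hM y le_rfl
    have hE := Real.exp_pos (lV n ε y / n)
    rw [(dL y le_rfl).deriv, e1, e2]
    have key : Real.exp (lV n ε y / n) * (Mf n ε y / 2 / n)
        + 2 * y * (Real.exp (lV n ε y / n) * (Mf n ε y / 2 / n) * (Mf n ε y / 2 / n)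
          + Real.exp (lV n ε y / n) * (deriv (Mf n ε) y / 2 / n))
        - y * (Real.exp (lV n ε y / n) ^ 2 * (Mf n ε y ^ 2 / n + deriv (Mf n ε) y))
          / (Real.exp (lV n ε y / n) ^ 2 * Mf n ε y)
          * (Real.exp (lV n ε y / n) * (Mf n ε y / 2 / n))
        = Real.exp (lV n ε y / n) / (2 * n) * (Mf n ε y + y * deriv (Mf n ε) y) := by
      field_simp
      ring
    rw [key]
    positivity

/-! ### Smoothness in the parameters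

The parameter space is `ℝ × ℝ × ℝ` with the points `(s, e, r)`, `ε = e²`. -/

/-- The parameters and the points. -/
abbrev IGP : Type := (ℝ × ℝ × ℝ) × W

theorem ingood_cs : ContDiff ℝ ∞ (fun z : IGP => z.1.1) := by fun_prop

theorem ingood_ce : ContDiff ℝ ∞ (fun z : IGP => z.1.2.1 ^ 2) := by fun_prop

theorem ingood_cr : ContDiff ℝ ∞ (fun z : IGP => z.1.2.2) := by fun_prop

theorem ingood_cy : ContDiff ℝ ∞ (fun z : IGP => ‖z.2‖ ^ 2) :=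
  (contDiff_norm_sq ℝ).comp contDiff_snd

theorem ingood_cx (i : Fin 2) : ContDiff ℝ ∞ (fun z : IGP => z.2 i) :=
  ((EuclideanSpace.proj (𝕜 := ℝ) i : W →L[ℝ] ℝ).contDiff).comp contDiff_snd

section Smooth

variable (hP : S_POLY) (hS : S_SM) {n : ℕ} (hn : 1 ≤ n) {z0 : IGP}

include hS hn

theorem ingood_sM (h : 0 < z0.1.2.1 ^ 2 + ‖z0.2‖ ^ 2) :
    ContDiffAt ℝ ∞ (fun z : IGP => Mf n (z.1.2.1 ^ 2) (‖z.2‖ ^ 2)) z0 :=
  ContDiffAt.comp (g := fun q : ℝ × ℝ => Mf n q.1 q.2)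
    (f := fun z : IGP => (z.1.2.1 ^ 2, ‖z.2‖ ^ 2)) z0
    ((hS n _ _ hn (sq_nonneg _) (sq_nonneg _) h).1)
    (ingood_ce.prodMk ingood_cy).contDiffAt

theorem ingood_sG (h : 0 < z0.1.2.1 ^ 2 + ‖z0.2‖ ^ 2) :
    ContDiffAt ℝ ∞ (fun z : IGP => Gf n (z.1.2.1 ^ 2) (‖z.2‖ ^ 2)) z0 :=
  ContDiffAt.comp (g := fun q : ℝ × ℝ => Gf n q.1 q.2)
    (f := fun z : IGP => (z.1.2.1 ^ 2, ‖z.2‖ ^ 2)) z0
    ((hS n _ _ hn (sq_nonneg _) (sq_nonneg _) h).2.1)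
    (ingood_ce.prodMk ingood_cy).contDiffAt

theorem ingood_sl (h : 0 < z0.1.2.1 ^ 2 + ‖z0.2‖ ^ 2) :
    ContDiffAt ℝ ∞ (fun z : IGP => lV n (z.1.2.1 ^ 2) (‖z.2‖ ^ 2)) z0 :=
  ContDiffAt.comp (g := fun q : ℝ × ℝ => lV n q.1 q.2)
    (f := fun z : IGP => (z.1.2.1 ^ 2, ‖z.2‖ ^ 2)) z0
    ((hS n _ _ hn (sq_nonneg _) (sq_nonneg _) h).2.2.1)
    (ingood_ce.prodMk ingood_cy).contDiffAt

theorem ingood_sz (h : 0 < z0.1.2.1 ^ 2 + ‖z0.2‖ ^ 2) :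
    ContDiffAt ℝ ∞ (fun z : IGP => zh n (z.1.2.1 ^ 2) z.1.1 (‖z.2‖ ^ 2)) z0 :=
  ContDiffAt.comp (g := fun q : ℝ × ℝ × ℝ => zh n q.1 q.2.1 q.2.2)
    (f := fun z : IGP => (z.1.2.1 ^ 2, z.1.1, ‖z.2‖ ^ 2)) z0
    ((hS n _ _ hn (sq_nonneg _) (sq_nonneg _) h).2.2.2.2.1 _)
    (ingood_ce.prodMk (ingood_cs.prodMk ingood_cy)).contDiffAt

theorem ingood_szc (h : 0 < z0.1.2.1 ^ 2 + ‖z0.2‖ ^ 2) :
    ContDiffAt ℝ ∞ (fun z : IGP => zc n (z.1.2.1 ^ 2) z.1.1 (‖z.2‖ ^ 2)) z0 :=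
  ((ingood_chi1_c.comp ingood_cy).contDiffAt).mul (ingood_sz hS hn h)

/-- The denominator `y + z x_1`. -/
theorem ingood_sden (h : 0 < z0.1.2.1 ^ 2 + ‖z0.2‖ ^ 2) :
    ContDiffAt ℝ ∞ (fun z : IGP => ‖z.2‖ ^ 2 + zc n (z.1.2.1 ^ 2) z.1.1 (‖z.2‖ ^ 2) * z.2 0) z0 :=
  ingood_cy.contDiffAt.add ((ingood_szc hS hn h).mul (ingood_cx 0).contDiffAt)

theorem ingood_sY (h : 0 < z0.1.2.1 ^ 2 + ‖z0.2‖ ^ 2) (hr : -1 < z0.1.2.2 * ‖z0.2‖ ^ 2) :
    ContDiffAt ℝ ∞ (fun z : IGP => Y2f z.1.2.2 (zc n (z.1.2.1 ^ 2) z.1.1) z.2) z0 := by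
  unfold Y2f
  have h1 : ContDiffAt ℝ ∞
      (fun z : IGP => z.2 + zc n (z.1.2.1 ^ 2) z.1.1 (‖z.2‖ ^ 2) • e0) z0 :=
    contDiffAt_snd.add ((ingood_szc hS hn h).smul contDiffAt_const)
  have h2 : ContDiffAt ℝ ∞ (fun z : IGP => 1 + z.1.2.2 * ‖z.2‖ ^ 2) z0 :=
    contDiffAt_const.add (ingood_cr.contDiffAt.mul ingood_cy.contDiffAt)
  exact ((contDiffAt_const.mul ingood_cr.contDiffAt).mul (h1.norm_sq ℝ)).div (h2.pow 2)
    (pow_ne_zero 2 (by linarith))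

include hP

theorem ingood_snu (h : 0 < z0.1.2.1 ^ 2 + ‖z0.2‖ ^ 2)
    (h' : ‖z0.2‖ ^ 2 < 1 ∨ 0 < ‖z0.2‖ ^ 2 + zc n (z0.1.2.1 ^ 2) z0.1.1 (‖z0.2‖ ^ 2) * z0.2 0) :
    ContDiffAt ℝ ∞ (fun z : IGP => nuf (Mf n (z.1.2.1 ^ 2)) (zc n (z.1.2.1 ^ 2) z.1.1) z.2) z0 := by
  rcases h' with h' | h'
  · have : (fun z : IGP => nuf (Mf n (z.1.2.1 ^ 2)) (zc n (z.1.2.1 ^ 2) z.1.1) z.2)
        =ᶠ[𝓝 z0] fun _ => 0 := by
      filter_upwards [ingood_cy.continuous.continuousAt.eventually_lt continuousAt_const h'] with z hz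
      exact ingood_nu0 hP hS hn _ (sq_nonneg _) _ (Or.inl hz)
    exact contDiffAt_const.congr_of_eventuallyEq this
  · have hy : 0 < ‖z0.2‖ ^ 2 := by
      rcases (sq_nonneg ‖z0.2‖).eq_or_lt with h0 | h0
      · have : z0.2 = 0 := by simpa using h0.symm
        rw [this] at h'; simp at h'
      · exact h0
    have e : (fun z : IGP => nuf (Mf n (z.1.2.1 ^ 2)) (zc n (z.1.2.1 ^ 2) z.1.1) z.2)
        =ᶠ[𝓝 z0] fun z => -(zh n (z.1.2.1 ^ 2) z.1.1 (‖z.2‖ ^ 2) *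
          (4 * (‖z.2‖ ^ 2) ^ 2 * deriv (deriv chi1) (‖z.2‖ ^ 2)
            + deriv chi1 (‖z.2‖ ^ 2) * (4 * ‖z.2‖ ^ 2
              + 4 * (‖z.2‖ ^ 2) ^ 2 * Gf n (z.1.2.1 ^ 2) (‖z.2‖ ^ 2)
              + 2 * (‖z.2‖ ^ 2) ^ 2 * Mf n (z.1.2.1 ^ 2) (‖z.2‖ ^ 2))) * z.2 0) /
          (‖z.2‖ ^ 2 + zc n (z.1.2.1 ^ 2) z.1.1 (‖z.2‖ ^ 2) * z.2 0) := by
      filter_upwards [continuousAt_const.eventually_lt ingood_cy.continuous.continuousAt hy] with z hz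
      unfold nuf
      rw [ingood_EE hP hS hn _ (sq_nonneg _) hz]
    refine ContDiffAt.congr_of_eventuallyEq ?_ e
    have c1 := ingood_cy.contDiffAt (x := z0)
    have c2 := (ingood_chi1_c1.comp ingood_cy).contDiffAt (x := z0)
    have c3 := (ingood_chi1_c2.comp ingood_cy).contDiffAt (x := z0)
    have cG := ingood_sG hS hn h
    have cM := ingood_sM hS hn h
    have cz := ingood_sz hS hn h
    have cd := ingood_sden hS hn h
    refine ContDiffAt.div ?_ cd h'.ne'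
    refine ContDiffAt.neg (ContDiffAt.mul (cz.mul ?_) (ingood_cx 0).contDiffAt)
    exact ((contDiffAt_const.mul (c1.pow 2)).mul c3).add (c2.mul
      (((contDiffAt_const.mul c1).add ((contDiffAt_const.mul (c1.pow 2)).mul cG)).add
        ((contDiffAt_const.mul (c1.pow 2)).mul cM)))

theorem ingood_skr (h : 0 < z0.1.2.1 ^ 2 + ‖z0.2‖ ^ 2) (hr : -1 < z0.1.2.2 * ‖z0.2‖ ^ 2)
    (hr' : z0.1.2.2 * ‖z0.2‖ ^ 2 < 1) :
    ContDiffAt ℝ ∞ (fun z : IGP => krf z.1.2.2 (Mf n (z.1.2.1 ^ 2)) chi2 (‖z.2‖ ^ 2)) z0 := by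
  have c0 := ingood_cr.contDiffAt (x := z0)
  have c1 := ingood_cy.contDiffAt (x := z0)
  have cM := ingood_sM hS hn h
  have cp : ContDiffAt ℝ ∞ (fun z : IGP => 1 + z.1.2.2 * ‖z.2‖ ^ 2) z0 :=
    contDiffAt_const.add (c0.mul c1)
  have cm : ContDiffAt ℝ ∞ (fun z : IGP => 1 - z.1.2.2 * ‖z.2‖ ^ 2) z0 :=
    contDiffAt_const.sub (c0.mul c1)
  have hp : 1 + z0.1.2.2 * ‖z0.2‖ ^ 2 ≠ 0 := by linarith
  have hm : 1 - z0.1.2.2 * ‖z0.2‖ ^ 2 ≠ 0 := by linarith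
  have c2 := (ingood_chi2_c.comp ingood_cy).contDiffAt (x := z0)
  have c3 := (ingood_chi2_c1.comp ingood_cy).contDiffAt (x := z0)
  have e : (fun z : IGP => krf z.1.2.2 (Mf n (z.1.2.1 ^ 2)) chi2 (‖z.2‖ ^ 2)) =ᶠ[𝓝 z0] fun z =>
      -(8 * z.1.2.2) / (1 + z.1.2.2 * ‖z.2‖ ^ 2) ^ 2 +
        (Mf n (z.1.2.1 ^ 2) (‖z.2‖ ^ 2) + 4 * z.1.2.2 / (1 + z.1.2.2 * ‖z.2‖ ^ 2)
          - 4 * (deriv chi2 (‖z.2‖ ^ 2) * Real.log (1 - z.1.2.2 * ‖z.2‖ ^ 2)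
            + chi2 (‖z.2‖ ^ 2) * (-z.1.2.2 / (1 - z.1.2.2 * ‖z.2‖ ^ 2)))) *
        ((1 - z.1.2.2 * ‖z.2‖ ^ 2) / (1 + z.1.2.2 * ‖z.2‖ ^ 2)) := by
    filter_upwards [cm.continuousAt.eventually_ne hm] with z hz
    have hd : HasDerivAt (fun t => 1 - z.1.2.2 * t) (-z.1.2.2) (‖z.2‖ ^ 2) := by
      simpa using ((hasDerivAt_id' (‖z.2‖ ^ 2)).const_mul z.1.2.2).const_sub 1
    have h1 := (ingood_chi2_c.differentiable (by simp) (‖z.2‖ ^ 2)).hasDerivAt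
    have h2 := h1.fun_mul (hd.log hz)
    unfold krf
    rw [h2.deriv]
  refine ContDiffAt.congr_of_eventuallyEq ?_ e
  exact ((contDiffAt_const.mul c0).neg.div (cp.pow 2) (pow_ne_zero 2 hp)).add
    (((cM.add ((contDiffAt_const.mul c0).div cp hp)).sub (contDiffAt_const.mul
      ((c3.mul (cm.log hm)).add (c2.mul (c0.neg.div cm hm))))).mul (cm.div cp hp))

theorem ingood_hy (h' : ‖z0.2‖ ^ 2 < 1 ∨
      0 < ‖z0.2‖ ^ 2 + zc n (z0.1.2.1 ^ 2) z0.1.1 (‖z0.2‖ ^ 2) * z0.2 0) :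
    ‖z0.2‖ ^ 2 < 1 ∨ (0 < ‖z0.2‖ ^ 2 ∧
      0 < ‖z0.2‖ ^ 2 + zc n (z0.1.2.1 ^ 2) z0.1.1 (‖z0.2‖ ^ 2) * z0.2 0) := by
  rcases h' with h' | h'
  · exact Or.inl h'
  · refine Or.inr ⟨?_, h'⟩
    rcases (sq_nonneg ‖z0.2‖).eq_or_lt with h0 | h0
    · have : z0.2 = 0 := by simpa using h0.symm
      rw [this] at h'; simp at h'
    · exact h0

theorem ingood_sk (h : 0 < z0.1.2.1 ^ 2 + ‖z0.2‖ ^ 2) (hr : -1 < z0.1.2.2 * ‖z0.2‖ ^ 2)
    (hr' : z0.1.2.2 * ‖z0.2‖ ^ 2 < 1)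
    (h' : ‖z0.2‖ ^ 2 < 1 ∨ 0 < ‖z0.2‖ ^ 2 + zc n (z0.1.2.1 ^ 2) z0.1.1 (‖z0.2‖ ^ 2) * z0.2 0) :
    ContDiffAt ℝ ∞ (fun z : IGP =>
      kf z.1.2.2 (Mf n (z.1.2.1 ^ 2)) (zc n (z.1.2.1 ^ 2) z.1.1) chi2 z.2) z0 := by
  have ck := ingood_skr hP hS hn h hr hr'
  have cn := ingood_snu hP hS hn h h'
  rcases ingood_hy hP hS hn h' with h1 | ⟨hy, h1⟩
  · have : (fun z : IGP => kf z.1.2.2 (Mf n (z.1.2.1 ^ 2)) (zc n (z.1.2.1 ^ 2) z.1.1) chi2 z.2)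
        =ᶠ[𝓝 z0] fun z : IGP => krf z.1.2.2 (Mf n (z.1.2.1 ^ 2)) chi2 (‖z.2‖ ^ 2) := by
      filter_upwards [ingood_cy.continuous.continuousAt.eventually_lt continuousAt_const h1] with z hz
      unfold kf
      rw [ingood_nu0 hP hS hn _ (sq_nonneg _) _ (Or.inl hz)]
      simp
    exact ck.congr_of_eventuallyEq this
  · unfold kf
    have cd := ingood_sden hS hn h
    have cz := ingood_szc hS hn h
    have c1 := ingood_cy.contDiffAt (x := z0)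
    exact ck.sub ((cn.mul ((contDiffAt_const.mul c1).add (cz.mul (ingood_cx 0).contDiffAt))).div
      (c1.mul cd) (mul_pos hy h1).ne')

theorem ingood_sC (h : 0 < z0.1.2.1 ^ 2 + ‖z0.2‖ ^ 2) (hr : -1 < z0.1.2.2 * ‖z0.2‖ ^ 2)
    (hr' : z0.1.2.2 * ‖z0.2‖ ^ 2 < 1)
    (hY : Y2f z0.1.2.2 (zc n (z0.1.2.1 ^ 2) z0.1.1) z0.2 < 1)
    (h' : ‖z0.2‖ ^ 2 < 1 ∨ 0 < ‖z0.2‖ ^ 2 + zc n (z0.1.2.1 ^ 2) z0.1.1 (‖z0.2‖ ^ 2) * z0.2 0)
    (hn' : 0 < 1 + nuf (Mf n (z0.1.2.1 ^ 2)) (zc n (z0.1.2.1 ^ 2) z0.1.1) z0.2) :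
    ContDiffAt ℝ ∞ (fun z : IGP => Cin n z.1.1 (z.1.2.1 ^ 2) z.1.2.2 z.2) z0 := by
  have c0 := ingood_cr.contDiffAt (x := z0)
  have c1 := ingood_cy.contDiffAt (x := z0)
  have cn := ingood_snu hP hS hn h h'
  have cY := ingood_sY hS hn h hr
  have cl := ingood_sl hS hn h
  have cp : ContDiffAt ℝ ∞ (fun z : IGP => 1 + z.1.2.2 * ‖z.2‖ ^ 2) z0 :=
    contDiffAt_const.add (c0.mul c1)
  have cm : ContDiffAt ℝ ∞ (fun z : IGP => 1 - z.1.2.2 * ‖z.2‖ ^ 2) z0 :=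
    contDiffAt_const.sub (c0.mul c1)
  have hp : 1 + z0.1.2.2 * ‖z0.2‖ ^ 2 ≠ 0 := by linarith
  have hm : 1 - z0.1.2.2 * ‖z0.2‖ ^ 2 ≠ 0 := by linarith
  have c2 := (ingood_chi2_c.comp ingood_cy).contDiffAt (x := z0)
  unfold Cin Cf
  refine (((((((contDiffAt_const.sub cY).log ?_).add cl).add (contDiffAt_const.mul (cp.log hp))).sub
    ((contDiffAt_const.mul c2).mul (cm.log hm))).add
    (((contDiffAt_const.add cn).log hn'.ne').div_const 2)).div_const (n:ℝ)).exp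
  exact (by linarith : 0 < 1 - Y2f z0.1.2.2 (zc n (z0.1.2.1 ^ 2) z0.1.1) z0.2).ne'

omit hP hS hn in
theorem ingood_perp (x a : W) : ⟪perp x, a⟫ = x 0 * a 1 - x 1 * a 0 := by
  simp [perp, PiLp.inner_apply, Fin.sum_univ_two]
  ring

theorem ingood_sg (h : 0 < z0.1.2.1 ^ 2 + ‖z0.2‖ ^ 2) (hr : -1 < z0.1.2.2 * ‖z0.2‖ ^ 2)
    (hr' : z0.1.2.2 * ‖z0.2‖ ^ 2 < 1)
    (hY : Y2f z0.1.2.2 (zc n (z0.1.2.1 ^ 2) z0.1.1) z0.2 < 1)
    (h' : ‖z0.2‖ ^ 2 < 1 ∨ 0 < ‖z0.2‖ ^ 2 + zc n (z0.1.2.1 ^ 2) z0.1.1 (‖z0.2‖ ^ 2) * z0.2 0)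
    (hn' : 0 < 1 + nuf (Mf n (z0.1.2.1 ^ 2)) (zc n (z0.1.2.1 ^ 2) z0.1.1) z0.2) (a b : W) :
    ContDiffAt ℝ ∞ (fun z : IGP => gin n z.1.1 (z.1.2.1 ^ 2) z.1.2.2 z.2 a b) z0 := by
  have cC := ingood_sC hP hS hn h hr hr' hY h' hn'
  have ck := ingood_sk hP hS hn h hr hr' h'
  have cn := ingood_snu hP hS hn h h'
  have cY := ingood_sY hS hn h hr
  have c1 := ingood_cy.contDiffAt (x := z0)
  have hs : 0 < 1 - Y2f z0.1.2.2 (zc n (z0.1.2.1 ^ 2) z0.1.1) z0.2 := by linarith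
  have cs := (contDiffAt_const (c := (1:ℝ)).sub cY).sqrt hs.ne'
  have cpp : ∀ a : W, ContDiffAt ℝ ∞ (fun z : IGP => ⟪perp z.2, a⟫) z0 := by
    intro a
    simp only [ingood_perp]
    exact ((ingood_cx 0).contDiffAt.mul contDiffAt_const).sub
      ((ingood_cx 1).contDiffAt.mul contDiffAt_const)
  unfold gin gf
  unfold Cin at cC
  refine (((cC.pow 2).mul ck).div cs (Real.sqrt_pos.2 hs).ne').mul (contDiffAt_const.sub ?_)
  rcases ingood_hy hP hS hn h' with h1 | ⟨hy, h1⟩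
  · have : (fun z : IGP => nuf (Mf n (z.1.2.1 ^ 2)) (zc n (z.1.2.1 ^ 2) z.1.1) z.2 /
        ((1 + nuf (Mf n (z.1.2.1 ^ 2)) (zc n (z.1.2.1 ^ 2) z.1.1) z.2) * ‖z.2‖ ^ 2) *
        (⟪perp z.2, a⟫ * ⟪perp z.2, b⟫)) =ᶠ[𝓝 z0] fun _ => 0 := by
      filter_upwards [ingood_cy.continuous.continuousAt.eventually_lt continuousAt_const h1] with z hz
      rw [ingood_nu0 hP hS hn _ (sq_nonneg _) _ (Or.inl hz)]
      simp
    exact contDiffAt_const.congr_of_eventuallyEq this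
  · exact (cn.div ((contDiffAt_const.add cn).mul c1) (mul_pos hn' hy).ne').mul
      ((cpp a).mul (cpp b))

end Smooth

/-! ### Bilinearity and positivity -/

theorem ingood_add (d s ε r : ℝ) (x u u' v : W) :
    gin d s ε r x (u + u') v = gin d s ε r x u v + gin d s ε r x u' v := by
  unfold gin gf
  rw [inner_add_left, inner_add_right]; ring

theorem ingood_smul (d s ε r : ℝ) (x : W) (c : ℝ) (u v : W) :
    gin d s ε r x (c • u) v = c * gin d s ε r x u v := by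
  unfold gin gf
  rw [real_inner_smul_left, real_inner_smul_right]; ring

theorem ingood_symm (d s ε r : ℝ) (x u v : W) : gin d s ε r x u v = gin d s ε r x v u := by
  unfold gin gf
  rw [real_inner_comm u v]; ring

theorem ingood_pos (hP : S_POLY) (hS : S_SM) {n : ℕ} (hn : 1 ≤ n) {s ε r : ℝ} (hε : 0 ≤ ε) (x : W)
    (hY : Y2f r (zc n ε s) x < 1) (h' : ‖x‖ ^ 2 < 1 ∨ 0 < ‖x‖ ^ 2)
    (hn' : 0 < 1 + nuf (Mf n ε) (zc n ε s) x) (hk : 0 < kf r (Mf n ε) (zc n ε s) chi2 x) (u : W)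
    (hu : u ≠ 0) : 0 < gin n s ε r x u u := by
  unfold gin gf
  have h1 : 0 < Cf n r (Mf n ε) (lV n ε) (zc n ε s) chi2 x := Real.exp_pos _
  have h2 : 0 < √(1 - Y2f r (zc n ε s) x) := Real.sqrt_pos.2 (by linarith)
  refine mul_pos (by positivity) ?_
  have hu2 : 0 < ‖u‖ ^ 2 := by positivity
  rw [real_inner_self_eq_norm_sq]
  rcases h' with h' | h'
  · rw [ingood_nu0 hP hS hn s hε x (Or.inl h')]
    simp only [zero_div, zero_mul, sub_zero]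
    exact hu2
  · generalize nuf (Mf n ε) (zc n ε s) x = ν at *
    have hcs : ⟪perp x, u⟫ ^ 2 ≤ ‖x‖ ^ 2 * ‖u‖ ^ 2 := by
      rw [ingood_perp, EuclideanSpace.real_norm_sq_eq, EuclideanSpace.real_norm_sq_eq,
        Fin.sum_univ_two, Fin.sum_univ_two]
      nlinarith [sq_nonneg (x 0 * u 0 + x 1 * u 1)]
    have h3 : ν / ((1 + ν) * ‖x‖ ^ 2) * (⟪perp x, u⟫ * ⟪perp x, u⟫) < ‖u‖ ^ 2 := by
      rw [div_mul_eq_mul_div, div_lt_iff₀ (by positivity)]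
      have h4 : 0 < ‖x‖ ^ 2 * ‖u‖ ^ 2 := by positivity
      rcases le_or_gt 0 ν with hν | hν
      · nlinarith [mul_le_mul_of_nonneg_left hcs hν]
      · nlinarith [mul_nonneg (neg_nonneg.2 hν.le) (sq_nonneg ⟪perp x, u⟫), mul_pos hn' h4]
    linarith

/-! ### The open set of the good parameters -/

/-- The parameters and points at which everything is smooth. -/
def ingoodOm (n : ℕ) : Set IGP :=
  {z | 0 < z.1.2.1 ^ 2 + ‖z.2‖ ^ 2 ∧ -1 < z.1.2.2 * ‖z.2‖ ^ 2 ∧ z.1.2.2 * ‖z.2‖ ^ 2 < 1 ∧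
    Y2f z.1.2.2 (zc n (z.1.2.1 ^ 2) z.1.1) z.2 < 1 ∧
    (‖z.2‖ ^ 2 < 1 ∨ 0 < ‖z.2‖ ^ 2 + zc n (z.1.2.1 ^ 2) z.1.1 (‖z.2‖ ^ 2) * z.2 0) ∧
    0 < 1 + nuf (Mf n (z.1.2.1 ^ 2)) (zc n (z.1.2.1 ^ 2) z.1.1) z.2 ∧
    0 < kf z.1.2.2 (Mf n (z.1.2.1 ^ 2)) (zc n (z.1.2.1 ^ 2) z.1.1) chi2 z.2}

theorem ingood_open1 (hP : S_POLY) (hS : S_SM) {n : ℕ} (hn : 1 ≤ n) : IsOpen (ingoodOm n) := by
  rw [isOpen_iff_mem_nhds]
  rintro z0 ⟨h, hr, hr', hY, h', hn', hk⟩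
  have c1 : ContinuousAt (fun z : IGP => z.1.2.1 ^ 2 + ‖z.2‖ ^ 2) z0 :=
    (ingood_ce.continuous.add ingood_cy.continuous).continuousAt
  have c2 : ContinuousAt (fun z : IGP => z.1.2.2 * ‖z.2‖ ^ 2) z0 :=
    (ingood_cr.continuous.mul ingood_cy.continuous).continuousAt
  have e5 : ∀ᶠ z : IGP in 𝓝 z0, (‖z.2‖ ^ 2 < 1 ∨
      0 < ‖z.2‖ ^ 2 + zc n (z.1.2.1 ^ 2) z.1.1 (‖z.2‖ ^ 2) * z.2 0) := by
    rcases h' with h' | h'
    · filter_upwards [ingood_cy.continuous.continuousAt.eventually_lt continuousAt_const h'] with z hz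
      exact Or.inl hz
    · filter_upwards [continuousAt_const.eventually_lt (ingood_sden hS hn h).continuousAt h']
        with z hz
      exact Or.inr hz
  filter_upwards [continuousAt_const.eventually_lt c1 h, continuousAt_const.eventually_lt c2 hr,
    c2.eventually_lt continuousAt_const hr',
    (ingood_sY hS hn h hr).continuousAt.eventually_lt continuousAt_const hY, e5,
    continuousAt_const.eventually_lt
      (continuousAt_const.add (ingood_snu hP hS hn h h').continuousAt) hn',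
    continuousAt_const.eventually_lt (ingood_sk hP hS hn h hr hr' h').continuousAt hk]
    with z a1 a2 a3 a4 a5 a6 a7
  exact ⟨a1, a2, a3, a4, a5, a6, a7⟩

/-- The good parameters and points. -/
def ingoodG (n : ℕ) : Set IGP :=
  {z | z ∈ ingoodOm n ∧ GoodAt (Cin n z.1.1 (z.1.2.1 ^ 2) z.1.2.2)
    (gin n z.1.1 (z.1.2.1 ^ 2) z.1.2.2) z.2}

theorem ingood_open2 (hP : S_POLY) (hS : S_SM) (hO : S_OPEN) {n : ℕ} (hn : 1 ≤ n) :
    IsOpen (ingoodG n) := by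
  refine hO (ℝ × ℝ × ℝ) (ingoodOm n) (fun q x => Cin n q.1 (q.2.1 ^ 2) q.2.2 x)
    (fun q x a b => gin n q.1 (q.2.1 ^ 2) q.2.2 x a b) (ingood_open1 hP hS hn) ?_ ?_ ?_ ?_ ?_ ?_
  · rintro z0 ⟨h, hr, hr', hY, h', hn', hk⟩
    exact (ingood_sC hP hS hn h hr hr' hY h' hn').contDiffWithinAt
  · rintro a b z0 ⟨h, hr, hr', hY, h', hn', hk⟩
    exact (ingood_sg hP hS hn h hr hr' hY h' hn' a b).contDiffWithinAt
  · intro q y u u' v; exact ingood_add _ _ _ _ _ _ _ _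
  · intro q y c u v; exact ingood_smul _ _ _ _ _ _ _ _
  · intro q y u v; exact ingood_symm _ _ _ _ _ _ _
  · rintro z0 ⟨h, hr, hr', hY, h', hn', hk⟩ u hu
    refine ingood_pos hP hS hn (sq_nonneg _) _ hY ?_ hn' hk u hu
    rcases ingood_hy hP hS hn h' with h1 | ⟨h1, -⟩
    · exact Or.inl h1
    · exact Or.inr h1

theorem ingood_kf0 (n : ℕ) (ε s : ℝ) (x : W) (h : nuf (Mf n ε) (zc n ε s) x = 0) :
    kf 0 (Mf n ε) (zc n ε s) chi2 x = Mf n ε (‖x‖ ^ 2) := by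
  simp [kf, h, ingood_kr0]

theorem ingood_Mpos (hP : S_POLY) {n : ℕ} (hn : 1 ≤ n) {ε y : ℝ} (hε : 0 ≤ ε) (hy : 0 ≤ y)
    (h : 0 < ε + y) : 0 < Mf n ε y := by
  obtain ⟨qA, qB, qN, -⟩ := hP n ε y hn hε hy h
  have hn0 : (0:ℝ) < n := by exact_mod_cast hn
  unfold Mf; positivity

/-- Radial points at `r = 0` are in the good set. -/
theorem ingood_mem0 (hP : S_POLY) (hS : S_SM) (hR : S_RAD) {n : ℕ} (hn : 1 ≤ n) (s e : ℝ) (x : W)
    (h : 0 < e ^ 2 + ‖x‖ ^ 2) (hnu : ∀ᶠ z in 𝓝 x, nuf (Mf n (e ^ 2)) (zc n (e ^ 2) s) z = 0)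
    (h' : ‖x‖ ^ 2 < 1 ∨ 0 < ‖x‖ ^ 2 + zc n (e ^ 2) s (‖x‖ ^ 2) * x 0) :
    (((s, e, 0), x) : IGP) ∈ ingoodG n := by
  refine ⟨⟨h, ?_, ?_, ?_, h', ?_, ?_⟩, ?_⟩
  · simp
  · simp
  · simp [ingood_Y0]
  · simp [hnu.self_of_nhds]
  · simp only [ingood_kf0 n (e ^ 2) s x hnu.self_of_nhds]
    exact ingood_Mpos hP hn (sq_nonneg _) (sq_nonneg _) h
  · exact ingood_rad hP hS hR hn s (sq_nonneg _) x h hnu

/-! ### The lower bound for the radial solution -/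

theorem ingood_zlow (hP : S_POLY) (hS : S_SM) {n : ℕ} (hn : 1 ≤ n) {ε : ℝ} (s : ℝ) (hs : 0 < s)
    (hε : 0 < ε) (h1 : ε ≤ 1) :
    s * Real.exp (4 * n / (1 + 8 * n) * Real.log ε) ≤ zh n ε s ε := by
  unfold zh
  have hn0 : (0:ℝ) < n := by exact_mod_cast hn
  refine mul_le_mul_of_nonneg_left (Real.exp_le_exp.2 ?_) hs.le
  have i1 : ∫ t in ε..1, Gf n ε t / 2 ≤ ∫ t in ε..1, (4 * n / (1 + 8 * n)) * t⁻¹ := by
    apply intervalIntegral.integral_mono_on h1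
    · apply ContinuousOn.intervalIntegrable
      rw [Set.uIcc_of_le h1]
      intro t ht
      exact ((ingood_G hS hn hε.le (hε.le.trans ht.1)
        (by linarith [ht.1])).continuousAt.div_const 2).continuousWithinAt
    · apply ContinuousOn.intervalIntegrable
      rw [Set.uIcc_of_le h1]
      intro t ht
      exact (continuousAt_const.mul
        (continuousAt_inv₀ (by linarith [ht.1] : (0:ℝ) < t).ne')).continuousWithinAt
    · intro t ht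
      have ht0 : 0 < t := hε.trans_le ht.1
      have hb := (hP n ε t hn hε.le ht0.le (by linarith)).2.2.2.2.2.2.2.2.2.1
      have h2 : t * Gf n ε t ≤ 8 * n / (1 + 8 * n) := by
        have : (8 * n / (1 + 8 * n) : ℝ) = 1 - 1 / (1 + 8 * n) := by field_simp; ring
        rw [this]; linarith
      have h3 : Gf n ε t ≤ 8 * n / (1 + 8 * n) * t⁻¹ := by
        rw [← div_eq_mul_inv, le_div_iff₀ ht0]; linarith
      have h4 : (4 * n / (1 + 8 * n) : ℝ) = 8 * n / (1 + 8 * n) / 2 := by ring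
      rw [h4]; linarith
  rw [intervalIntegral.integral_const_mul, integral_inv_of_pos hε one_pos, one_div,
    Real.log_inv] at i1
  rw [intervalIntegral.integral_symm]
  linarith

theorem ingood_cpt (a b : ℝ) : IsCompact {x : W | a ≤ ‖x‖ ^ 2 ∧ ‖x‖ ^ 2 ≤ b} := by
  refine (isCompact_closedBall (0:W) (1 + |b|)).of_isClosed_subset ?_ ?_
  · have c : Continuous (fun x : W => ‖x‖ ^ 2) := (continuous_norm.pow 2)
    exact (isClosed_le continuous_const c).inter (isClosed_le c continuous_const)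
  · rintro x ⟨-, hx⟩
    rw [mem_closedBall_zero_iff]
    nlinarith [norm_nonneg x, le_abs_self b, abs_nonneg b]

/-- Tube lemma around a parameter. -/
theorem ingood_tube {X : Type} [TopologicalSpace X] (K : Set X) (hK : IsCompact K)
    (G : Set (ℝ × X)) (hG : IsOpen G) (h : ∀ x ∈ K, ((0:ℝ), x) ∈ G) :
    ∃ δ > 0, ∀ t : ℝ, |t| < δ → ∀ x ∈ K, (t, x) ∈ G := by
  obtain ⟨u, v, hu, hv, hu0, hKv, huv⟩ := generalized_tube_lemma (isCompact_singleton (x := (0:ℝ)))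
    hK hG (by rintro ⟨a, x⟩ ⟨ha, hx⟩; rw [Set.mem_singleton_iff] at ha; subst ha; exact h x hx)
  obtain ⟨δ, hδ, hb⟩ := Metric.isOpen_iff.1 hu 0 (hu0 rfl)
  exact ⟨δ, hδ, fun t ht x hx => huv ⟨hb (by simpa using ht), hKv hx⟩⟩

theorem ingood_s (hP : S_POLY) (hS : S_SM) (hR : S_RAD) (hO : S_OPEN) {n : ℕ} (hn : 1 ≤ n) :
    ∃ s > 0, ∀ e : ℝ, 0 ≤ e → e ≤ 1 → ∀ x : W, 1 ≤ ‖x‖ ^ 2 → ‖x‖ ^ 2 ≤ 2 →
      (((s, e, 0), x) : IGP) ∈ ingoodG n := by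
  obtain ⟨δ, hδ, h⟩ := ingood_tube (X := ℝ × W) (Set.Icc 0 1 ×ˢ {x : W | 1 ≤ ‖x‖ ^ 2 ∧ ‖x‖ ^ 2 ≤ 2})
    (isCompact_Icc.prod (ingood_cpt 1 2))
    ((fun p : ℝ × ℝ × W => (((p.1, p.2.1, 0), p.2.2) : IGP)) ⁻¹' ingoodG n)
    ((ingood_open2 hP hS hO hn).preimage (by fun_prop)) (by
      rintro ⟨e, x⟩ ⟨he, hx1, hx2⟩
      simp only at he hx1 hx2
      refine ingood_mem0 hP hS hR hn 0 e x (by positivity) ?_ ?_
      · exact Filter.Eventually.of_forall fun z => ingood_nu00 n _ z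
      · right
        rw [ingood_zc0]; simp only [zero_mul, add_zero]; linarith)
  refine ⟨δ / 2, by linarith, fun e he0 he1 x hx1 hx2 => ?_⟩
  exact h (δ / 2) (by rw [abs_of_pos (by linarith)]; linarith) (e, x) ⟨⟨he0, he1⟩, hx1, hx2⟩

theorem ingood_mem1 (hP : S_POLY) (hS : S_SM) (hR : S_RAD) {n : ℕ} (hn : 1 ≤ n) {s : ℝ}
    (hs : ∀ e : ℝ, 0 ≤ e → e ≤ 1 → ∀ x : W, 1 ≤ ‖x‖ ^ 2 → ‖x‖ ^ 2 ≤ 2 →
      (((s, e, 0), x) : IGP) ∈ ingoodG n) {e : ℝ} (he : 0 < e) (he1 : e ≤ 1) (x : W) :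
    (((s, e, 0), x) : IGP) ∈ ingoodG n := by
  have hc : ContinuousAt (fun z : W => ‖z‖ ^ 2) x := (continuous_norm.pow 2).continuousAt
  rcases lt_or_ge (‖x‖ ^ 2) 1 with h1 | h1
  · refine ingood_mem0 hP hS hR hn s e x (by positivity) ?_ (Or.inl h1)
    filter_upwards [hc.eventually_lt continuousAt_const h1] with z hz
    exact ingood_nu0 hP hS hn s (sq_nonneg _) z (Or.inl hz)
  · rcases le_or_gt (‖x‖ ^ 2) 2 with h2 | h2
    · exact hs e he.le he1 x h1 h2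
    · refine ingood_mem0 hP hS hR hn s e x (by positivity) ?_ (Or.inr ?_)
      · filter_upwards [continuousAt_const.eventually_lt hc h2] with z hz
        exact ingood_nu0 hP hS hn s (sq_nonneg _) z (Or.inr hz)
      · simp only [zc, ingood_chi1_zero h2.le, zero_mul, add_zero]
        linarith

theorem ingood_r (hP : S_POLY) (hS : S_SM) (hR : S_RAD) (hO : S_OPEN) {n : ℕ} (hn : 1 ≤ n) {s : ℝ}
    (hs : ∀ e : ℝ, 0 ≤ e → e ≤ 1 → ∀ x : W, 1 ≤ ‖x‖ ^ 2 → ‖x‖ ^ 2 ≤ 2 →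
      (((s, e, 0), x) : IGP) ∈ ingoodG n) {e : ℝ} (he : 0 < e) (he1 : e ≤ 1) :
    ∃ δ > 0, ∀ r : ℝ, |r| < δ → ∀ x : W, ‖x‖ ^ 2 ≤ 5 → (((s, e, r), x) : IGP) ∈ ingoodG n ∧
      Y2f r (zc n (e ^ 2) s) x < 1 / 2 := by
  have hopen : IsOpen {z : IGP | z ∈ ingoodG n ∧
      Y2f z.1.2.2 (zc n (z.1.2.1 ^ 2) z.1.1) z.2 < 1 / 2} := by
    rw [isOpen_iff_mem_nhds]
    rintro z0 ⟨h1, h2⟩
    have h3 := h1
    obtain ⟨⟨h, hr, -⟩, -⟩ := h3
    filter_upwards [(ingood_open2 hP hS hO hn).mem_nhds h1,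
      (ingood_sY hS hn h hr).continuousAt.eventually_lt continuousAt_const h2] with z a b
    exact ⟨a, b⟩
  obtain ⟨δ, hδ, h⟩ := ingood_tube (X := W) {x : W | 0 ≤ ‖x‖ ^ 2 ∧ ‖x‖ ^ 2 ≤ 5}
    (ingood_cpt 0 5) ((fun p : ℝ × W => (((s, e, p.1), p.2) : IGP)) ⁻¹' _)
    (hopen.preimage (by fun_prop)) (by
      rintro x ⟨-, hx⟩
      exact ⟨ingood_mem1 hP hS hR hn hs he he1 x, by simp [ingood_Y0]⟩)
  exact ⟨δ, hδ, fun r hr x hx => h r hr x ⟨sq_nonneg _, hx⟩⟩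

/-- The choice of `e`. -/
theorem ingood_fold (hP : S_POLY) (hS : S_SM) {n : ℕ} (hn : 1 ≤ n) {s : ℝ} (hs : 0 < s) :
    ∃ e : ℝ, 0 < e ∧ e < 1 ∧ 1 < e * Gf n (e ^ 2) (e ^ 2) * zh n (e ^ 2) s (e ^ 2) := by
  have hn0 : (0:ℝ) < n := by exact_mod_cast hn
  set T : ℝ := 11 / (8 * s) with hT
  have hT0 : 0 < T := by positivity
  set e : ℝ := Real.exp (-((1 + 8 * n) * T)) with he
  have he0 : 0 < e := Real.exp_pos _
  have he1 : e < 1 := by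
    rw [he, Real.exp_lt_one_iff]
    have : 0 < (1 + 8 * n) * T := by positivity
    linarith
  refine ⟨e, he0, he1, ?_⟩
  have he2 : e ^ 2 ≤ 1 := by nlinarith
  have h1 := ingood_zlow hP hS hn s hs (pow_pos he0 2) he2
  have h2 := (hP n (e ^ 2) (e ^ 2) hn (sq_nonneg _) (sq_nonneg _) (by positivity)).2.2.2.2.2.2.2.2.2.2
    (by positivity)
  have hl : Real.log (e ^ 2) = -(2 * ((1 + 8 * n) * T)) := by
    rw [Real.log_pow, he, Real.log_exp]; push_cast; ring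
  have h3 : Real.exp (4 * n / (1 + 8 * n) * Real.log (e ^ 2)) = e * Real.exp T := by
    rw [hl, he, ← Real.exp_add]
    congr 1
    field_simp
    ring
  rw [h3] at h1
  have h4 : T < Real.exp T := by linarith [Real.add_one_le_exp T]
  have h5 : 8 * s / 11 * T = 1 := by rw [hT]; field_simp
  have h6 : 1 < 8 / 11 * (s * Real.exp T) := by
    have : 8 * s / 11 * T < 8 * s / 11 * Real.exp T := mul_lt_mul_of_pos_left h4 (by positivity)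
    linarith
  have hG : 0 < Gf n (e ^ 2) (e ^ 2) := by
    by_contra hcon
    have : e ^ 2 * Gf n (e ^ 2) (e ^ 2) ≤ 0 :=
      mul_nonpos_of_nonneg_of_nonpos (sq_nonneg _) (not_lt.1 hcon)
    linarith
  calc 1 < 8 / 11 * (s * Real.exp T) := h6
    _ ≤ e ^ 2 * Gf n (e ^ 2) (e ^ 2) * (s * Real.exp T) :=
        mul_le_mul_of_nonneg_right h2 (by positivity)
    _ = e * Gf n (e ^ 2) (e ^ 2) * (s * (e * Real.exp T)) := by ring
    _ ≤ _ := mul_le_mul_of_nonneg_left h1 (by positivity)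

theorem ingood_fold2 (hS : S_SM) {n : ℕ} (hn : 1 ≤ n) {s e : ℝ} (he0 : 0 < e)
    (he1 : e < 1) (h : 1 < e * Gf n (e ^ 2) (e ^ 2) * zh n (e ^ 2) s (e ^ 2)) :
    ∃ δ > 0, ∀ r : ℝ, 0 ≤ r → r < δ →
      deriv (fun t => (t + zc n (e ^ 2) s (t ^ 2)) / (1 + r * t ^ 2)) (-e) < 0 := by
  have hε : 0 < e ^ 2 := by positivity
  have hε1 : e ^ 2 < 1 := by nlinarith
  have hz : HasDerivAt (zc n (e ^ 2) s) (Gf n (e ^ 2) (e ^ 2) / 2 * zh n (e ^ 2) s (e ^ 2))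
      ((-e) ^ 2) := by
    have e2 : (-e) ^ 2 = e ^ 2 := by ring
    rw [e2]
    refine (ingood_zh_d hS hn s hε.le hε.le (by linarith)).congr_of_eventuallyEq ?_
    filter_upwards [isOpen_Iio.mem_nhds hε1] with t ht
    rw [zc, ingood_chi1_one (le_of_lt ht), one_mul]
  have h1 : HasDerivAt (fun t : ℝ => t ^ 2) (2 * (-e)) (-e) := by
    simpa using hasDerivAt_pow 2 (-e)
  have h2 : HasDerivAt (fun t : ℝ => zc n (e ^ 2) s (t ^ 2))
      (Gf n (e ^ 2) (e ^ 2) / 2 * zh n (e ^ 2) s (e ^ 2) * (2 * (-e))) (-e) :=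
    HasDerivAt.comp (h₂ := zc n (e ^ 2) s) (h := fun t : ℝ => t ^ 2) (-e) hz h1
  set η : ℝ := e * Gf n (e ^ 2) (e ^ 2) * zh n (e ^ 2) s (e ^ 2) - 1 with hη
  have hη0 : 0 < η := by linarith
  set Z : ℝ := zc n (e ^ 2) s ((-e) ^ 2) with hZ
  refine ⟨η / (2 * e * |Z - e| + 1), by positivity, fun r hr0 hr => ?_⟩
  have h3 : HasDerivAt (fun t : ℝ => t + zc n (e ^ 2) s (t ^ 2)) (-η) (-e) := by
    refine ((hasDerivAt_id' (-e)).add h2).congr_deriv ?_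
    rw [hη]; ring
  have h4 : HasDerivAt (fun t : ℝ => 1 + r * t ^ 2) (r * (2 * (-e))) (-e) :=
    (h1.const_mul r).const_add 1
  have h5 : 0 < 1 + r * (-e) ^ 2 := by positivity
  have h6 := h3.fun_div h4 h5.ne'
  rw [h6.deriv]
  apply div_neg_of_neg_of_pos _ (by positivity)
  rw [lt_div_iff₀ (by positivity)] at hr
  have h7 : 2 * e * r * (Z - e) ≤ 2 * e * r * |Z - e| :=
    mul_le_mul_of_nonneg_left (le_abs_self _) (by positivity)
  have h8 : 0 ≤ η * (r * (-e) ^ 2) := by positivity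
  rw [← hZ]
  nlinarith

theorem t_INGOOD : S_INGOOD := by
  intro hP hS hR hO n hn
  obtain ⟨s, hs0, hs⟩ := ingood_s hP hS hR hO hn
  obtain ⟨e, he0, he1, hf⟩ := ingood_fold hP hS hn hs0
  obtain ⟨δ1, hδ1, h1⟩ := ingood_fold2 (s := s) hS hn he0 he1 hf
  obtain ⟨δ2, hδ2, h2⟩ := ingood_r hP hS hR hO hn hs he0 he1.le
  refine ⟨s, e ^ 2, min (1 / 20) (min δ1 δ2), hs0, by positivity, by nlinarith, by positivity,
    lt_of_le_of_lt (min_le_left _ _) (by norm_num), ⟨-e, ?_, ?_⟩, ?_⟩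
  · rw [abs_neg, abs_of_pos he0]; exact he1
  · intro r hr0 hr
    exact h1 r hr0 (hr.trans_le ((min_le_right _ _).trans (min_le_left _ _)))
  · intro r hr0 hr x hx
    have hr2 : |r| < δ2 := by
      rw [abs_of_pos hr0]
      exact hr.trans_le ((min_le_right _ _).trans (min_le_right _ _))
    obtain ⟨⟨⟨g1, g2, g3, g4, g5, g6, g7⟩, g8⟩, g9⟩ := h2 r hr2 x hx.le
    obtain ⟨qA, qB, qN, -⟩ := hP n (e ^ 2) (‖x‖ ^ 2) hn (sq_nonneg _) (sq_nonneg _) (by positivity)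
    exact ⟨⟨g2, g3, g4, qA, qB, qN, g6, g7, g5⟩, g8, g9⟩

end Pool.Agent.Helper473.LY
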