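import Pool.Agent.Helper473.LY.Stmts2

set_option autoImplicit false

open scoped Manifold ContDiff Topology RealInnerProductSpace
open Module

namespace Pool.Agent.Helper473.LY

open Pool.Agent.H234R3

theorem insm_poly3 (c0 c1 c2 c3 t : ℝ) :
    HasDerivAt (fun y : ℝ => c0 + c1 * y + c2 * y ^ 2 + c3 * y ^ 3)
      (c1 + 2 * c2 * t + 3 * c3 * t ^ 2) t := by
  have h1 : HasDerivAt (fun y : ℝ => y) 1 t := hasDerivAt_id t
  have h2 : HasDerivAt (fun y : ℝ => c0 + c1 * y) (c1 * 1) t := (h1.const_mul c1).const_add c0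
  have h3 : HasDerivAt (fun y : ℝ => c2 * y ^ 2) (c2 * (2 * t)) t := by
    have := (hasDerivAt_pow 2 t).const_mul c2
    exact this.congr_deriv (by push_cast; ring)
  have h4 : HasDerivAt (fun y : ℝ => c3 * y ^ 3) (c3 * (3 * t ^ 2)) t := by
    have := (hasDerivAt_pow 3 t).const_mul c3
    exact this.congr_deriv (by push_cast; ring)
  exact ((h2.add h3).add h4).congr_deriv (by ring)

/-- the derivative of `Bf` -/
noncomputable def insm_B' (d ε t : ℝ) : ℝ :=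
  (4 * ε + 8 * d * ε ^ 2 + 16 * d * ε) + 2 * (4 * ε + 4 + 32 * d * ε + 16 * d) * t
    + 3 * (4 + 32 * d) * t ^ 2

theorem insm_hasB (d ε t : ℝ) : HasDerivAt (Bf d ε) (insm_B' d ε t) t := by
  have h := insm_poly3 (4 * d * ε ^ 2) (4 * ε + 8 * d * ε ^ 2 + 16 * d * ε)
    (4 * ε + 4 + 32 * d * ε + 16 * d) (4 + 32 * d) t
  have e : Bf d ε = fun y : ℝ => 4 * d * ε ^ 2 + (4 * ε + 8 * d * ε ^ 2 + 16 * d * ε) * y
      + (4 * ε + 4 + 32 * d * ε + 16 * d) * y ^ 2 + (4 + 32 * d) * y ^ 3 := by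
    funext y
    unfold Bf Af
    ring
  rw [e]
  exact h

theorem insm_hasG (d ε t : ℝ) (hB : Bf d ε t ≠ 0) :
    HasDerivAt (Gf d ε) (((16 * d * (1 + 2 * ε) + 64 * d * t) * Bf d ε t
      - (16 * d * ε + 16 * d * (1 + 2 * ε) * t + 32 * d * t ^ 2) * insm_B' d ε t)
        / Bf d ε t ^ 2) t := by
  have h1 := insm_poly3 (16 * d * ε) (16 * d * (1 + 2 * ε)) (32 * d) 0 t
  have h2 := h1.fun_div (insm_hasB d ε t) hB
  have e : Gf d ε = fun y : ℝ => (16 * d * ε + 16 * d * (1 + 2 * ε) * y + 32 * d * y ^ 2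
      + 0 * y ^ 3) / Bf d ε y := by
    funext y
    unfold Gf
    congr 1
    ring
  rw [e]
  refine h2.congr_deriv ?_
  congr 1
  ring

theorem insm_riccati (d ε t : ℝ) (hA : Af d ε t ≠ 0) (hB : Bf d ε t ≠ 0) :
    2 * (Gf d ε t + t * deriv (Gf d ε) t) + t * Gf d ε t ^ 2
      = Mf d ε t * (1 - t * Gf d ε t) := by
  rw [(insm_hasG d ε t hB).deriv]
  have hBA : Bf d ε t = Af d ε t + 4 * d * (1 + 2 * t) * (4 * t * (ε + t)) := rfl
  unfold Mf Gf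
  field_simp
  rw [hBA]
  unfold insm_B' Nf Af
  ring

/-- near the half line `A` and `B` are positive -/
theorem insm_delta {n : ℕ} {ε : ℝ} (hP : S_POLY) (hn : 1 ≤ n) (hε : 0 < ε) :
    ∃ δ : ℝ, 0 < δ ∧ ∀ t : ℝ, -δ < t → 0 < Af n ε t ∧ 0 < Bf n ε t := by
  have h0 := hP n ε 0 hn hε.le le_rfl (by linarith)
  have cA : Continuous (Af (n : ℝ) ε) := by
    unfold Af
    fun_prop
  have cB : Continuous (Bf (n : ℝ) ε) := by
    unfold Bf Af
    fun_prop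
  have e1 : ∀ᶠ t in 𝓝 (0 : ℝ), 0 < Af n ε t := cA.continuousAt.eventually_const_lt h0.1
  have e2 : ∀ᶠ t in 𝓝 (0 : ℝ), 0 < Bf n ε t := cB.continuousAt.eventually_const_lt h0.2.1
  obtain ⟨δ, hδ, hδ'⟩ := Metric.eventually_nhds_iff.1 (e1.and e2)
  refine ⟨δ, hδ, fun t ht => ?_⟩
  rcases lt_or_ge t 0 with h | h
  · apply hδ'
    rw [Real.dist_eq, sub_zero, abs_lt]
    constructor <;> linarith
  · have := hP n ε t hn hε.le h (by linarith)
    exact ⟨this.1, this.2.1⟩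

theorem insm_contM {d ε δ : ℝ} (h : ∀ t : ℝ, -δ < t → 0 < Af d ε t ∧ 0 < Bf d ε t) :
    ContinuousOn (fun t => Mf d ε t / 2) (Set.Ioi (-δ)) := by
  have cA : Continuous (Af d ε) := by unfold Af; fun_prop
  have cB : Continuous (Bf d ε) := by unfold Bf Af; fun_prop
  have cN : Continuous (Nf d ε) := by unfold Nf; fun_prop
  unfold Mf
  refine ContinuousOn.div_const (ContinuousOn.div (by fun_prop) (by fun_prop) ?_) 2
  intro t ht
  exact mul_ne_zero (h t ht).1.ne' (h t ht).2.ne'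

theorem insm_contG {d ε δ : ℝ} (h : ∀ t : ℝ, -δ < t → 0 < Af d ε t ∧ 0 < Bf d ε t) :
    ContinuousOn (fun t => Gf d ε t / 2) (Set.Ioi (-δ)) := by
  have cB : Continuous (Bf d ε) := by unfold Bf Af; fun_prop
  unfold Gf
  refine ContinuousOn.div_const (ContinuousOn.div (by fun_prop) (by fun_prop) ?_) 2
  intro t ht
  exact (h t ht).2.ne'

theorem insm_ftc {f : ℝ → ℝ} {δ : ℝ} (hδ : 0 < δ) (hf : ContinuousOn f (Set.Ioi (-δ))) {t : ℝ}
    (ht : -δ < t) : HasDerivAt (fun y => ∫ u in (1:ℝ)..y, f u) (f t) t := by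
  have hsub : Set.uIcc (1:ℝ) t ⊆ Set.Ioi (-δ) := by
    intro u hu
    rw [Set.mem_Ioi]
    have h1 := hu.1
    exact lt_of_lt_of_le (lt_min (by linarith) ht) h1
  refine intervalIntegral.integral_hasDerivAt_right ((hf.mono hsub).intervalIntegrable)
    (hf.stronglyMeasurableAtFilter isOpen_Ioi t ht) (hf.continuousAt (isOpen_Ioi.mem_nhds ht))

theorem insm_haslV {d ε δ : ℝ} (hδ : 0 < δ) (h : ∀ t : ℝ, -δ < t → 0 < Af d ε t ∧ 0 < Bf d ε t)
    {t : ℝ} (ht : -δ < t) : HasDerivAt (lV d ε) (Mf d ε t / 2) t :=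
  insm_ftc hδ (insm_contM h) ht

theorem insm_haszh {d ε δ : ℝ} (hδ : 0 < δ) (h : ∀ t : ℝ, -δ < t → 0 < Af d ε t ∧ 0 < Bf d ε t)
    (s : ℝ) {t : ℝ} (ht : -δ < t) : HasDerivAt (zh d ε s) (Gf d ε t / 2 * zh d ε s t) t := by
  have h1 := (insm_ftc hδ (insm_contG h) ht).exp.const_mul s
  refine h1.congr_deriv ?_
  unfold zh
  ring

theorem insm_chi1_one {t : ℝ} (ht : t ≤ 1) : chi1 t = 1 :=
  Real.smoothTransition.one_of_one_le (by linarith)

theorem insm_chi1_zero {t : ℝ} (ht : 2 ≤ t) : chi1 t = 0 :=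
  Real.smoothTransition.zero_of_nonpos (by linarith)

theorem insm_chi2_one {t : ℝ} (ht : 3 ≤ t) : chi2 t = 1 :=
  Real.smoothTransition.one_of_one_le (by linarith)

theorem insm_chi2_zero {t : ℝ} (ht : t ≤ 5 / 2) : chi2 t = 0 :=
  Real.smoothTransition.zero_of_nonpos (by linarith)

theorem insm_chi1_sm : ContDiff ℝ ∞ chi1 :=
  Real.smoothTransition.contDiff.comp (contDiff_const.sub contDiff_id)

theorem insm_chi2_sm : ContDiff ℝ ∞ chi2 :=
  Real.smoothTransition.contDiff.comp ((contDiff_const.mul contDiff_id).sub contDiff_const)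

/-- the inner equation for `t < 1` -/
theorem insm_EE0 {d ε δ : ℝ} (hδ : 0 < δ) (h : ∀ t : ℝ, -δ < t → 0 < Af d ε t ∧ 0 < Bf d ε t)
    (s : ℝ) {t : ℝ} (ht : -δ < t) (ht1 : t < 1) : EEf (Mf d ε) (zc d ε s) t = 0 := by
  have hz : ∀ u, -δ < u → u < 1 → HasDerivAt (zc d ε s) (Gf d ε u / 2 * zh d ε s u) u := by
    intro u hu hu1
    refine (insm_haszh hδ h s hu).congr_of_eventuallyEq ?_
    filter_upwards [isOpen_Iio.mem_nhds hu1] with v hv
    unfold zc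
    rw [insm_chi1_one (le_of_lt hv), one_mul]
  have hzt : zc d ε s t = zh d ε s t := by
    unfold zc
    rw [insm_chi1_one ht1.le, one_mul]
  have hd1 := (hz t ht ht1).deriv
  have hd2 : deriv (deriv (zc d ε s)) t = deriv (Gf d ε) t / 2 * zh d ε s t
      + Gf d ε t / 2 * (Gf d ε t / 2 * zh d ε s t) := by
    have e : deriv (zc d ε s) =ᶠ[𝓝 t] fun u => Gf d ε u / 2 * zh d ε s u := by
      filter_upwards [(isOpen_Ioo (a := -δ) (b := (1:ℝ))).mem_nhds ⟨ht, ht1⟩] with u hu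
      exact (hz u hu.1 hu.2).deriv
    rw [e.deriv_eq]
    have hG := insm_hasG d ε t (h t ht).2.ne'
    have h2 := (hG.differentiableAt.hasDerivAt.div_const 2).mul (insm_haszh hδ h s ht)
    exact h2.deriv
  unfold EEf
  rw [hd1, hd2, hzt]
  have hr := insm_riccati d ε t (h t ht).1.ne' (h t ht).2.ne'
  linear_combination (t * zh d ε s t) * hr

/-! ### smoothness of functions of one variable -/

theorem insm_deriv_sm {f : ℝ → ℝ} {y : ℝ} (hf : ContDiffAt ℝ ∞ f y) :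
    ContDiffAt ℝ ∞ (deriv f) y := by
  have h1 : ContDiffAt ℝ ∞ (fderiv ℝ f) y := hf.fderiv_right (by simp)
  have h2 : ContDiffAt ℝ ∞ (fun t => fderiv ℝ f t 1) y := h1.clm_apply contDiffAt_const
  exact h2

theorem insm_slice2 {F : ℝ → ℝ → ℝ} {ε y : ℝ}
    (h : ContDiffAt ℝ ∞ (fun q : ℝ × ℝ => F q.1 q.2) (ε, y)) : ContDiffAt ℝ ∞ (F ε) y := by
  have hg : ContDiffAt ℝ ∞ (fun t : ℝ => ((ε, t) : ℝ × ℝ)) y :=
    contDiffAt_const.prodMk contDiffAt_id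
  exact ContDiffAt.comp (g := fun q : ℝ × ℝ => F q.1 q.2) y h hg

theorem insm_slice3 {F : ℝ → ℝ → ℝ → ℝ} {ε s y : ℝ}
    (h : ContDiffAt ℝ ∞ (fun q : ℝ × ℝ × ℝ => F q.1 q.2.1 q.2.2) (ε, s, y)) :
    ContDiffAt ℝ ∞ (F ε s) y := by
  have hg : ContDiffAt ℝ ∞ (fun t : ℝ => ((ε, s, t) : ℝ × ℝ × ℝ)) y :=
    contDiffAt_const.prodMk (contDiffAt_const.prodMk contDiffAt_id)
  exact ContDiffAt.comp (g := fun q : ℝ × ℝ × ℝ => F q.1 q.2.1 q.2.2) y h hg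

theorem insm_sm {n : ℕ} {ε y : ℝ} (hS : S_SM) (hn : 1 ≤ n) (hε : 0 < ε) (hy : 0 ≤ y) (s : ℝ) :
    ContDiffAt ℝ ∞ (Mf n ε) y ∧ ContDiffAt ℝ ∞ (lV n ε) y ∧ ContDiffAt ℝ ∞ (zh n ε s) y := by
  obtain ⟨h1, -, h2, -, h3, -⟩ := hS n ε y hn hε.le hy (by linarith)
  exact ⟨insm_slice2 (F := Mf n) h1, insm_slice2 (F := lV n) h2, insm_slice3 (F := zh n) (h3 s)⟩

theorem insm_EE_sm {M z : ℝ → ℝ} {y : ℝ} (hM : ContDiffAt ℝ ∞ M y) (hz : ContDiffAt ℝ ∞ z y) :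
    ContDiffAt ℝ ∞ (EEf M z) y := by
  have h1 := insm_deriv_sm hz
  have h2 := insm_deriv_sm h1
  have hid : ContDiffAt ℝ ∞ (fun t : ℝ => t) y := contDiffAt_id
  unfold EEf
  exact (contDiffAt_const.mul ((hid.mul h1).add ((hid.pow 2).mul h2))).add
    ((hid.mul hM).mul (((contDiffAt_const.mul hid).mul h1).sub hz))

theorem insm_kr_sm {r : ℝ} {M χ : ℝ → ℝ} {y : ℝ} (hM : ContDiffAt ℝ ∞ M y)
    (hχ : ContDiffAt ℝ ∞ χ y) (h1 : 0 < 1 + r * y) (h2 : 0 < 1 - r * y) :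
    ContDiffAt ℝ ∞ (krf r M χ) y := by
  have hid : ContDiffAt ℝ ∞ (fun t : ℝ => t) y := contDiffAt_id
  have ha : ContDiffAt ℝ ∞ (fun t : ℝ => 1 + r * t) y :=
    contDiffAt_const.add (contDiffAt_const.mul hid)
  have hb : ContDiffAt ℝ ∞ (fun t : ℝ => 1 - r * t) y :=
    contDiffAt_const.sub (contDiffAt_const.mul hid)
  have hl : ContDiffAt ℝ ∞ (fun t => χ t * Real.log (1 - r * t)) y :=
    hχ.mul (hb.log h2.ne')
  have hd := insm_deriv_sm hl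
  unfold krf
  exact ((contDiffAt_const.div (ha.pow 2) (by positivity)).add
    (((hM.add (contDiffAt_const.div ha h1.ne')).sub (contDiffAt_const.mul hd)).mul
      (hb.div ha h1.ne')))

/-! ### functions on the plane -/

theorem insm_nsq_sm (x : W) : ContDiffAt ℝ ∞ (fun z : W => ‖z‖ ^ 2) x :=
  (contDiff_norm_sq ℝ).contDiffAt

theorem insm_coord_sm (i : Fin 2) (x : W) : ContDiffAt ℝ ∞ (fun z : W => z i) x :=
  (EuclideanSpace.proj i : W →L[ℝ] ℝ).contDiff.contDiffAt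

theorem insm_comp {f : ℝ → ℝ} {x : W} (hf : ContDiffAt ℝ ∞ f (‖x‖ ^ 2)) :
    ContDiffAt ℝ ∞ (fun z : W => f (‖z‖ ^ 2)) x :=
  ContDiffAt.comp (g := f) x hf (insm_nsq_sm x)

theorem insm_inner_perp (x a : W) : ⟪perp x, a⟫ = x 0 * a 1 - x 1 * a 0 := by
  unfold perp
  simp [PiLp.inner_apply, Fin.sum_univ_two]
  ring

theorem insm_nsq (x : W) : ‖x‖ ^ 2 = x 0 ^ 2 + x 1 ^ 2 := by
  rw [EuclideanSpace.norm_sq_eq, Fin.sum_univ_two]
  simp

theorem insm_perp_le (x a : W) : ⟪perp x, a⟫ ^ 2 ≤ ‖x‖ ^ 2 * ‖a‖ ^ 2 := by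
  rw [insm_inner_perp, insm_nsq, insm_nsq]
  nlinarith [sq_nonneg (x 0 * a 0 + x 1 * a 1)]

theorem insm_perp_sm (a x : W) : ContDiffAt ℝ ∞ (fun z : W => ⟪perp z, a⟫) x := by
  have e : (fun z : W => ⟪perp z, a⟫) = fun z : W => z 0 * a 1 - z 1 * a 0 := by
    funext z
    exact insm_inner_perp z a
  rw [e]
  exact ((insm_coord_sm 0 x).mul contDiffAt_const).sub ((insm_coord_sm 1 x).mul contDiffAt_const)

theorem insm_nu_zero {M z : ℝ → ℝ} {x : W} (h : ∀ᶠ t in 𝓝 (‖x‖ ^ 2), EEf M z t = 0) :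
    ∀ᶠ w in 𝓝 x, nuf M z w = 0 := by
  have hc : ContinuousAt (fun w : W => ‖w‖ ^ 2) x := by fun_prop
  filter_upwards [hc.eventually h] with w hw
  unfold nuf
  rw [hw]
  simp

theorem insm_nu_sm {M z : ℝ → ℝ} {x : W} (hM : ContDiffAt ℝ ∞ M (‖x‖ ^ 2))
    (hz : ContDiffAt ℝ ∞ z (‖x‖ ^ 2)) (hpos : 0 < ‖x‖ ^ 2 + z (‖x‖ ^ 2) * x 0) :
    ContDiffAt ℝ ∞ (nuf M z) x := by
  unfold nuf
  exact (((insm_comp (insm_EE_sm hM hz)).mul (insm_coord_sm 0 x)).neg).div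
    ((insm_nsq_sm x).add ((insm_comp hz).mul (insm_coord_sm 0 x))) hpos.ne'

theorem insm_Y_sm {r : ℝ} {z : ℝ → ℝ} {x : W} (hz : ContDiffAt ℝ ∞ z (‖x‖ ^ 2))
    (h1 : 0 < 1 + r * ‖x‖ ^ 2) : ContDiffAt ℝ ∞ (Yf r z) x := by
  unfold Yf
  exact (contDiffAt_const.div (contDiffAt_const.add (contDiffAt_const.mul (insm_nsq_sm x)))
    h1.ne').smul (contDiffAt_id.add ((insm_comp hz).smul contDiffAt_const))

theorem insm_Y_norm {r : ℝ} (hr : 0 < r) (z : ℝ → ℝ) (x : W) :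
    ‖Yf r z x‖ ^ 2 = Y2f r z x := by
  unfold Yf Y2f
  rw [norm_smul, mul_pow, Real.norm_eq_abs, sq_abs, div_pow, mul_pow, Real.sq_sqrt hr.le]
  ring

theorem insm_Y2_sm {r : ℝ} {z : ℝ → ℝ} {x : W} (hz : ContDiffAt ℝ ∞ z (‖x‖ ^ 2))
    (h1 : 0 < 1 + r * ‖x‖ ^ 2) : ContDiffAt ℝ ∞ (Y2f r z) x := by
  unfold Y2f
  have h2 : ContDiffAt ℝ ∞ (fun w : W => w + z (‖w‖ ^ 2) • e0) x :=
    contDiffAt_id.add ((insm_comp hz).smul contDiffAt_const)
  have h3 : ContDiffAt ℝ ∞ (fun w : W => ‖w + z (‖w‖ ^ 2) • e0‖ ^ 2) x := h2.norm_sq ℝ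
  exact (contDiffAt_const.mul h3).div
    ((contDiffAt_const.add (contDiffAt_const.mul (insm_nsq_sm x))).pow 2) (by positivity)

/-! ### the outer part -/

theorem insm_z_zero (d ε s : ℝ) {y : ℝ} (hy : 2 < y) : ∀ᶠ t in 𝓝 y, zc d ε s t = 0 := by
  filter_upwards [isOpen_Ioi.mem_nhds hy] with t ht
  unfold zc
  rw [insm_chi1_zero (le_of_lt ht), zero_mul]

theorem insm_EE_zero (M : ℝ → ℝ) {z : ℝ → ℝ} {y : ℝ} (h : ∀ᶠ t in 𝓝 y, z t = 0) :
    EEf M z y = 0 := by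
  have h0 : z =ᶠ[𝓝 y] fun _ => (0 : ℝ) := h
  have h1 : deriv z =ᶠ[𝓝 y] fun _ => (0 : ℝ) := by
    have := h0.deriv
    simpa using this
  have h2 : deriv (deriv z) y = 0 := by
    rw [h1.deriv_eq]
    simp
  have h3 : deriv z y = 0 := h1.eq_of_nhds
  have h4 : z y = 0 := h0.eq_of_nhds
  unfold EEf
  rw [h2, h3, h4]
  ring

theorem insm_chi_log {r y : ℝ} (hy : 3 < y) (h1 : 0 < 1 - r * y) :
    deriv (fun t => chi2 t * Real.log (1 - r * t)) y = -r / (1 - r * y) := by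
  have e : (fun t => chi2 t * Real.log (1 - r * t)) =ᶠ[𝓝 y] fun t => Real.log (1 - r * t) := by
    filter_upwards [isOpen_Ioi.mem_nhds hy] with t ht
    rw [insm_chi2_one (le_of_lt ht), one_mul]
  rw [e.deriv_eq]
  have h2 : HasDerivAt (fun t : ℝ => 1 - r * t) (-r) y := by
    have := ((hasDerivAt_id y).const_mul r).const_sub 1
    exact this.congr_deriv (by ring)
  exact (h2.log h1.ne').deriv

theorem insm_outer {r : ℝ} (M l z : ℝ → ℝ) {d : ℝ} {x : W} (hy : 3 < ‖x‖ ^ 2)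
    (hz : ∀ᶠ t in 𝓝 (‖x‖ ^ 2), z t = 0) (h1 : 0 < 1 + r * ‖x‖ ^ 2) (h2 : 0 < 1 - r * ‖x‖ ^ 2) :
    Cf d r M l z chi2 x = Real.exp (l (‖x‖ ^ 2) / d) ∧
    ∀ a b, gf d r M l z chi2 x a b = Cf d r M l z chi2 x ^ 2 * M (‖x‖ ^ 2) * ⟪a, b⟫ := by
  have hz0 : z (‖x‖ ^ 2) = 0 := hz.self_of_nhds
  have hnu : nuf M z x = 0 := by
    unfold nuf
    rw [insm_EE_zero M hz]
    simp
  have hY : 1 - Y2f r z x = ((1 - r * ‖x‖ ^ 2) / (1 + r * ‖x‖ ^ 2)) ^ 2 := by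
    unfold Y2f
    rw [hz0, zero_smul, add_zero]
    field_simp
    ring
  have hq : 0 < (1 - r * ‖x‖ ^ 2) / (1 + r * ‖x‖ ^ 2) := div_pos h2 h1
  have hk : kf r M z chi2 x = M (‖x‖ ^ 2) * ((1 - r * ‖x‖ ^ 2) / (1 + r * ‖x‖ ^ 2)) := by
    unfold kf krf
    rw [hnu, insm_chi_log hy h2]
    field_simp
    ring
  refine ⟨?_, ?_⟩
  · unfold Cf
    rw [hnu, hY, insm_chi2_one hy.le, Real.log_pow, Real.log_div h2.ne' h1.ne']
    congr 2
    simp
    ring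
  · intro a b
    unfold gf
    rw [hk, hY, Real.sqrt_sq hq.le, hnu]
    have hne : (1 - r * ‖x‖ ^ 2) / (1 + r * ‖x‖ ^ 2) ≠ 0 := hq.ne'
    rw [← mul_assoc, mul_div_assoc, div_self hne]
    simp

theorem t_INSM : S_INSM := by
  intro hP hS n s ε r hn hε hε1 hr hr10 hOK
  obtain ⟨δ, hδ, hAB⟩ := insm_delta hP hn hε
  have hsm : ∀ y : ℝ, 0 ≤ y → ContDiffAt ℝ ∞ (Mf n ε) y ∧ ContDiffAt ℝ ∞ (lV n ε) y ∧
      ContDiffAt ℝ ∞ (zc n ε s) y := by
    intro y hy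
    obtain ⟨h1, h2, h3⟩ := insm_sm hS hn hε hy s
    exact ⟨h1, h2, insm_chi1_sm.contDiffAt.mul h3⟩
  have hEE : ∀ y : ℝ, 0 ≤ y → y < 1 → ∀ᶠ t in 𝓝 y, EEf (Mf n ε) (zc n ε s) t = 0 := by
    intro y hy hy1
    filter_upwards [(isOpen_Ioo (a := -δ) (b := (1:ℝ))).mem_nhds ⟨by linarith, hy1⟩] with t ht
    exact insm_EE0 hδ hAB s ht.1 ht.2
  have hpos : ∀ x : W, ‖x‖ ^ 2 < 5 → ¬ ‖x‖ ^ 2 < 1 →
      0 < ‖x‖ ^ 2 + zc n ε s (‖x‖ ^ 2) * x 0 := fun x hx h1 =>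
    (hOK x hx).2.2.2.2.2.2.2.2.resolve_left h1
  have hnu0 : ∀ x : W, ‖x‖ ^ 2 < 1 → ∀ᶠ w in 𝓝 x, nuf (Mf n ε) (zc n ε s) w = 0 := fun x hx =>
    insm_nu_zero (hEE _ (by positivity) hx)
  have hnu : ∀ x : W, ‖x‖ ^ 2 < 5 → ContDiffAt ℝ ∞ (nuf (Mf n ε) (zc n ε s)) x := by
    intro x hx
    by_cases h1 : ‖x‖ ^ 2 < 1
    · exact (contDiffAt_const (c := (0:ℝ))).congr_of_eventuallyEq (hnu0 x h1)
    · obtain ⟨hM, -, hz⟩ := hsm (‖x‖ ^ 2) (by positivity)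
      exact insm_nu_sm hM hz (hpos x hx h1)
  have h1r : ∀ x : W, ‖x‖ ^ 2 < 5 → 0 < 1 + r * ‖x‖ ^ 2 ∧ 0 < 1 - r * ‖x‖ ^ 2 := by
    intro x hx
    have h := hOK x hx
    exact ⟨by linarith [h.1], by linarith [h.2.1]⟩
  have hY2 : ∀ x : W, ‖x‖ ^ 2 < 5 → ContDiffAt ℝ ∞ (Y2f r (zc n ε s)) x := fun x hx =>
    insm_Y2_sm (hsm _ (by positivity)).2.2 (h1r x hx).1
  have hC : ∀ x : W, ‖x‖ ^ 2 < 5 → ContDiffAt ℝ ∞ (Cin n s ε r) x := by
    intro x hx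
    have h := hOK x hx
    obtain ⟨hM, hl, hz⟩ := hsm (‖x‖ ^ 2) (by positivity)
    have h1 := (h1r x hx).1
    have h2 := (h1r x hx).2
    have t1 : ContDiffAt ℝ ∞ (fun w : W => Real.log (1 - Y2f r (zc n ε s) w)) x :=
      (contDiffAt_const.sub (hY2 x hx)).log (by have := h.2.2.1; linarith)
    have t2 : ContDiffAt ℝ ∞ (fun w : W => lV n ε (‖w‖ ^ 2)) x := insm_comp hl
    have t3 : ContDiffAt ℝ ∞ (fun w : W => Real.log (1 + r * ‖w‖ ^ 2)) x :=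
      (contDiffAt_const.add (contDiffAt_const.mul (insm_nsq_sm x))).log h1.ne'
    have t4 : ContDiffAt ℝ ∞ (fun w : W => Real.log (1 - r * ‖w‖ ^ 2)) x :=
      (contDiffAt_const.sub (contDiffAt_const.mul (insm_nsq_sm x))).log h2.ne'
    have t5 : ContDiffAt ℝ ∞ (fun w : W => chi2 (‖w‖ ^ 2)) x :=
      insm_comp insm_chi2_sm.contDiffAt
    have t6 : ContDiffAt ℝ ∞ (fun w : W => Real.log (1 + nuf (Mf n ε) (zc n ε s) w)) x :=
      (contDiffAt_const.add (hnu x hx)).log h.2.2.2.2.2.2.1.ne'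
    exact (((((t1.add t2).add (contDiffAt_const.mul t3)).sub
      ((contDiffAt_const.mul t5).mul t4)).add (t6.div_const 2)).div_const (n : ℝ)).exp
  have hk : ∀ x : W, ‖x‖ ^ 2 < 5 →
      ContDiffAt ℝ ∞ (kf r (Mf n ε) (zc n ε s) chi2) x := by
    intro x hx
    obtain ⟨hM, hl, hz⟩ := hsm (‖x‖ ^ 2) (by positivity)
    have hkr : ContDiffAt ℝ ∞ (fun w : W => krf r (Mf n ε) chi2 (‖w‖ ^ 2)) x :=
      insm_comp (insm_kr_sm hM insm_chi2_sm.contDiffAt (h1r x hx).1 (h1r x hx).2)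
    by_cases h1 : ‖x‖ ^ 2 < 1
    · refine hkr.congr_of_eventuallyEq ?_
      filter_upwards [hnu0 x h1] with w hw
      unfold kf
      rw [hw, zero_mul, zero_div, sub_zero]
    · have h0 : ‖x‖ ^ 2 ≠ 0 := by intro h0; rw [h0] at h1; exact h1 one_pos
      have hzx : ContDiffAt ℝ ∞ (fun w : W => zc n ε s (‖w‖ ^ 2) * w 0) x :=
        (insm_comp hz).mul (insm_coord_sm 0 x)
      exact hkr.sub (((hnu x hx).mul ((contDiffAt_const.mul (insm_nsq_sm x)).add hzx)).div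
        ((insm_nsq_sm x).mul ((insm_nsq_sm x).add hzx))
        (mul_ne_zero h0 (hpos x hx h1).ne'))
  have hw : ∀ x : W, ‖x‖ ^ 2 < 5 → ContDiffAt ℝ ∞ (fun w : W =>
      nuf (Mf n ε) (zc n ε s) w / ((1 + nuf (Mf n ε) (zc n ε s) w) * ‖w‖ ^ 2)) x := by
    intro x hx
    by_cases h1 : ‖x‖ ^ 2 < 1
    · refine (contDiffAt_const (c := (0:ℝ))).congr_of_eventuallyEq ?_
      filter_upwards [hnu0 x h1] with w hw
      rw [hw, zero_div]
    · have h0 : ‖x‖ ^ 2 ≠ 0 := by intro h0; rw [h0] at h1; exact h1 one_pos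
      exact (hnu x hx).div ((contDiffAt_const.add (hnu x hx)).mul (insm_nsq_sm x))
        (mul_ne_zero (hOK x hx).2.2.2.2.2.2.1.ne' h0)
  have hsqrt : ∀ x : W, ‖x‖ ^ 2 < 5 → 0 < 1 - Y2f r (zc n ε s) x := fun x hx => by
    have := (hOK x hx).2.2.1
    linarith
  refine ⟨fun x hx => (hC x hx).contDiffWithinAt, fun x => Real.exp_pos _, ?_, ?_, ?_, hEE, ?_⟩
  · refine ⟨?_, ?_, ?_, ?_, ?_⟩
    · intro y u u' v
      unfold gin gf
      rw [inner_add_left, inner_add_right]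
      ring
    · intro y c u v
      unfold gin gf
      rw [real_inner_smul_left, real_inner_smul_right]
      ring
    · intro y u v
      unfold gin gf
      rw [real_inner_comm u v]
      ring
    · intro x hx u hu
      have h := hOK x hx
      have hν := h.2.2.2.2.2.2.1
      have hkp := h.2.2.2.2.2.2.2.1
      have hn2 : 0 < ‖u‖ ^ 2 := by
        have := norm_pos_iff.2 hu
        positivity
      unfold gin gf
      have hfac : 0 < Cf n r (Mf n ε) (lV n ε) (zc n ε s) chi2 x ^ 2 *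
          kf r (Mf n ε) (zc n ε s) chi2 x / √(1 - Y2f r (zc n ε s) x) := by
        refine div_pos (mul_pos (pow_pos (Real.exp_pos _) 2) hkp) (Real.sqrt_pos.2 (hsqrt x hx))
      refine mul_pos hfac ?_
      rw [real_inner_self_eq_norm_sq]
      set ν := nuf (Mf n ε) (zc n ε s) x with hνdef
      have hcs := insm_perp_le x u
      have hsq : ⟪perp x, u⟫ * ⟪perp x, u⟫ = ⟪perp x, u⟫ ^ 2 := by ring
      rw [hsq]
      rcases eq_or_ne (‖x‖ ^ 2) 0 with h0 | h0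
      · rw [h0, mul_zero, div_zero, zero_mul, sub_zero]
        exact hn2
      · have hx2 : 0 < ‖x‖ ^ 2 := lt_of_le_of_ne (by positivity) (Ne.symm h0)
        rcases le_or_gt ν 0 with hneg | hpos'
        · have : ν / ((1 + ν) * ‖x‖ ^ 2) * ⟪perp x, u⟫ ^ 2 ≤ 0 := by
            apply mul_nonpos_of_nonpos_of_nonneg _ (sq_nonneg _)
            exact div_nonpos_of_nonpos_of_nonneg hneg (by positivity)
          linarith
        · have h3 : ν / ((1 + ν) * ‖x‖ ^ 2) * ⟪perp x, u⟫ ^ 2 ≤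
              ν / ((1 + ν) * ‖x‖ ^ 2) * (‖x‖ ^ 2 * ‖u‖ ^ 2) :=
            mul_le_mul_of_nonneg_left hcs (by positivity)
          have hxn : ‖x‖ ≠ 0 := by
            intro h7
            rw [h7] at h0
            simp at h0
          have h4 : ν / ((1 + ν) * ‖x‖ ^ 2) * (‖x‖ ^ 2 * ‖u‖ ^ 2) = ν / (1 + ν) * ‖u‖ ^ 2 := by
            field_simp
          have h5 : ν / (1 + ν) < 1 := by
            rw [div_lt_one hν]
            linarith
          have h6 : ν / (1 + ν) * ‖u‖ ^ 2 < 1 * ‖u‖ ^ 2 := mul_lt_mul_of_pos_right h5 hn2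
          linarith
    · intro u v x hx
      apply ContDiffAt.contDiffWithinAt
      have t1 : ContDiffAt ℝ ∞ (fun w : W => √(1 - Y2f r (zc n ε s) w)) x :=
        (contDiffAt_const.sub (hY2 x hx)).sqrt (hsqrt x hx).ne'
      have hpp := (insm_perp_sm u x).mul (insm_perp_sm v x)
      exact ((((hC x hx).pow 2).mul (hk x hx)).div t1 (Real.sqrt_pos.2 (hsqrt x hx)).ne').mul
        (contDiffAt_const.sub ((hw x hx).mul hpp))
  · intro x hx3 hx5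
    exact insm_outer (Mf n ε) (lV n ε) (zc n ε s) (d := n) hx3
      (insm_z_zero n ε s (by linarith)) (h1r x hx5).1 (h1r x hx5).2
  · intro y hy hy5
    obtain ⟨hM, hl, hz⟩ := hsm y hy
    refine ⟨hM, hl, hz, insm_chi2_sm.contDiffAt, ?_, ?_⟩
    · filter_upwards [isOpen_Ioi.mem_nhds (show -δ < y by linarith)] with t ht
      exact (insm_haslV hδ hAB ht).deriv
    · rcases lt_or_ge 2 y with h | h
      · exact Or.inl (insm_z_zero n ε s h)
      · right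
        filter_upwards [isOpen_Iio.mem_nhds (show y < 5 / 2 by linarith)] with t ht
        exact insm_chi2_zero (le_of_lt ht)
  · intro x hx
    exact ⟨insm_Y_sm (hsm _ (by positivity)).2.2 (h1r x hx).1, insm_Y_norm hr _ x⟩

end Pool.Agent.Helper473.LY
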