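import Mathlib
import Pool.Agent.Helper473.LY.Stmts

set_option autoImplicit false

open scoped Manifold ContDiff Topology RealInnerProductSpace
open Module

namespace Pool.Agent.Helper473.LY

open Pool.Agent.H234R3

private theorem klein_perp_zero : (perp e0) 0 = 0 := by simp [perp, e0]
private theorem klein_perp_one : (perp e0) 1 = 1 := by simp [perp, e0]
private theorem klein_e0_zero : e0 0 = 1 := by simp [e0]
private theorem klein_e0_one : e0 1 = 0 := by simp [e0]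

private theorem klein_dec (a : W) : a = a 0 • e0 + a 1 • perp e0 := by
  ext i
  fin_cases i <;> simp [klein_perp_zero, klein_perp_one, klein_e0_zero, klein_e0_one]

private theorem klein_inner (a b : W) : ⟪a, b⟫ = a 0 * b 0 + a 1 * b 1 := by
  simp [PiLp.inner_apply, Fin.sum_univ_two, mul_comm]

private theorem klein_norm (a : W) : ‖a‖ ^ 2 = a 0 * a 0 + a 1 * a 1 := by
  rw [← real_inner_self_eq_norm_sq, klein_inner]

/-- Expansion of a bilinear form. -/
private theorem klein_exp {g : W → W → W → ℝ} {U : Set W} (hg : IsMet g U) (z a b : W) :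
    g z a b = a 0 * b 0 * g z e0 e0 + (a 0 * b 1 + a 1 * b 0) * g z e0 (perp e0)
      + a 1 * b 1 * g z (perp e0) (perp e0) := by
  have h1 : ∀ a, g z a b = a 0 * g z e0 b + a 1 * g z (perp e0) b := by
    intro a
    conv_lhs => rw [klein_dec a]
    rw [hg.add, hg.smul, hg.smul]
  have h2 : ∀ u, g z u b = b 0 * g z u e0 + b 1 * g z u (perp e0) := by
    intro u
    rw [hg.symm]
    conv_lhs => rw [klein_dec b]
    rw [hg.add, hg.smul, hg.smul, hg.symm z e0 u, hg.symm z (perp e0) u]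
  rw [h1, h2, h2, hg.symm z (perp e0) e0]
  ring

private theorem klein_lin (L : W →L[ℝ] ℝ) (v : W) : L v = v 0 * L e0 + v 1 * L (perp e0) := by
  conv_lhs => rw [klein_dec v]
  simp

private theorem klein_lin2 (L : W →L[ℝ] W) (v : W) : L v = v 0 • L e0 + v 1 • L (perp e0) := by
  conv_lhs => rw [klein_dec v]
  simp

private theorem klein_diff {g : W → W → W → ℝ} {U : Set W} (hg : IsMet g U) (hU : IsOpen U)
    {y : W} (hy : y ∈ U) (a b : W) : DifferentiableAt ℝ (fun z => g z a b) y :=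
  ((hg.smooth a b).contDiffAt (hU.mem_nhds hy)).differentiableAt (by simp)

private theorem klein_der {g : W → W → W → ℝ} {U : Set W} (hg : IsMet g U) (hU : IsOpen U)
    {y : W} (hy : y ∈ U) (a b v : W) :
    der (fun z => g z a b) y v = a 0 * b 0 * fderiv ℝ (fun z => g z e0 e0) y v
      + (a 0 * b 1 + a 1 * b 0) * fderiv ℝ (fun z => g z e0 (perp e0)) y v
      + a 1 * b 1 * fderiv ℝ (fun z => g z (perp e0) (perp e0)) y v := by
  have h : (fun z => g z a b) = fun z => a 0 * b 0 * g z e0 e0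
      + (a 0 * b 1 + a 1 * b 0) * g z e0 (perp e0)
      + a 1 * b 1 * g z (perp e0) (perp e0) := funext fun z => klein_exp hg z a b
  have d1 := (klein_diff hg hU hy e0 e0).hasFDerivAt
  have d2 := (klein_diff hg hU hy e0 (perp e0)).hasFDerivAt
  have d3 := (klein_diff hg hU hy (perp e0) (perp e0)).hasFDerivAt
  unfold der
  rw [h]
  have := (((d1.const_mul (a 0 * b 0)).add (d2.const_mul (a 0 * b 1 + a 1 * b 0))).add
    (d3.const_mul (a 1 * b 1))).fderiv
  erw [this]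
  simp

/-- The Christoffel symbols of a metric of the plane. -/
private noncomputable def klein_Gam (g : W → W → W → ℝ) (y a b : W) : W :=
  ((g y (perp e0) (perp e0) * koszul g y a b e0 - g y e0 (perp e0) * koszul g y a b (perp e0)) /
      (g y e0 e0 * g y (perp e0) (perp e0) - g y e0 (perp e0) ^ 2)) • e0
    + ((g y e0 e0 * koszul g y a b (perp e0) - g y e0 (perp e0) * koszul g y a b e0) /
      (g y e0 e0 * g y (perp e0) (perp e0) - g y e0 (perp e0) ^ 2)) • perp e0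

private theorem klein_det {g : W → W → W → ℝ} {U : Set W} (hg : IsMet g U) {y : W} (hy : y ∈ U) :
    0 < g y e0 e0 ∧ 0 < g y e0 e0 * g y (perp e0) (perp e0) - g y e0 (perp e0) ^ 2 := by
  have h0 : e0 ≠ 0 := by
    intro h
    have := congrArg (fun v : W => v 0) h
    simp [klein_e0_zero] at this
  have hE := hg.pos y hy e0 h0
  refine ⟨hE, ?_⟩
  have h1 : g y e0 e0 • perp e0 + (-g y e0 (perp e0)) • e0 ≠ 0 := by
    intro h
    have := congrArg (fun v : W => v 1) h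
    simp [klein_perp_one, klein_e0_one] at this
    exact hE.ne' this
  have h2 := hg.pos y hy _ h1
  rw [klein_exp hg] at h2
  simp only [PiLp.add_apply, PiLp.smul_apply, klein_perp_one, klein_e0_one, klein_perp_zero,
    klein_e0_zero, smul_eq_mul] at h2
  have h3 : 0 < g y e0 e0 * (g y e0 e0 * g y (perp e0) (perp e0) - g y e0 (perp e0) ^ 2) := by
    nlinarith [h2]
  exact (pos_iff_pos_of_mul_pos h3).mp hE

private theorem klein_alg0 (E F G D k0 k1 c0 c1 : ℝ) (hD : D ≠ 0) (h : D = E * G - F ^ 2) :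
    ((G * k0 - F * k1) / D * 1 + (E * k1 - F * k0) / D * 0) * c0 * E
      + (((G * k0 - F * k1) / D * 1 + (E * k1 - F * k0) / D * 0) * c1
        + ((G * k0 - F * k1) / D * 0 + (E * k1 - F * k0) / D * 1) * c0) * F
      + ((G * k0 - F * k1) / D * 0 + (E * k1 - F * k0) / D * 1) * c1 * G = c0 * k0 + c1 * k1 := by
  field_simp
  rw [h]
  ring

private theorem klein_chr {g : W → W → W → ℝ} {U : Set W} (hg : IsMet g U) (hU : IsOpen U)
    {y : W} (hy : y ∈ U) : IsChristoffel g y (klein_Gam g y) := by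
  intro a b c
  obtain ⟨hE, hD⟩ := klein_det hg hy
  have hk : koszul g y a b c = c 0 * koszul g y a b e0 + c 1 * koszul g y a b (perp e0) := by
    unfold koszul
    simp only [klein_der hg hU hy]
    have hl : ∀ b' c' : W, fderiv ℝ (fun z => g z b' c') y c
        = c 0 * fderiv ℝ (fun z => g z b' c') y e0 + c 1 * fderiv ℝ (fun z => g z b' c') y (perp e0) :=
      fun b' c' => klein_lin _ c
    rw [hl e0 e0, hl e0 (perp e0), hl (perp e0) (perp e0)]
    simp only [klein_perp_one, klein_e0_one, klein_perp_zero, klein_e0_zero]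
    ring
  rw [hk, klein_exp hg]
  unfold klein_Gam
  simp only [PiLp.add_apply, PiLp.smul_apply, klein_perp_one, klein_e0_one, klein_perp_zero,
    klein_e0_zero, smul_eq_mul]
  exact klein_alg0 _ _ _ _ _ _ _ _ hD.ne' rfl

/-- `kl` is a metric on the unit disc. -/
private theorem klein_kl_met {U' : Set W} (h : ∀ x ∈ U', ‖x‖ < 1) : IsMet kl U' where
  add y u u' v := by
    unfold kl
    simp only [inner_add_left, inner_add_right]
    ring
  smul y c u v := by
    unfold kl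
    simp only [inner_smul_left, inner_smul_right]
    simp
    ring
  symm y u v := by
    unfold kl
    rw [real_inner_comm u v]
    ring
  pos y hy u hu := by
    unfold kl
    have h1 : 0 < 1 - ‖y‖ ^ 2 := by nlinarith [h y hy, norm_nonneg y]
    have h2 : 0 < ⟪u, u⟫ := real_inner_self_pos.mpr hu
    have : 0 ≤ ⟪y, u⟫ * ⟪y, u⟫ / (1 - ‖y‖ ^ 2) ^ 2 :=
      div_nonneg (mul_self_nonneg _) (by positivity)
    positivity
  smooth u v := by
    unfold kl
    have h1 : ∀ x ∈ U', 1 - ‖x‖ ^ 2 ≠ 0 := fun x hx => by nlinarith [h x hx, norm_nonneg x]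
    have h2 : ContDiffOn ℝ ∞ (fun x : W => 1 - ‖x‖ ^ 2) U' :=
      (contDiff_const.sub (contDiff_norm_sq ℝ)).contDiffOn
    refine (contDiffOn_const.div h2 h1).add ?_
    refine ContDiffOn.div ?_ (h2.pow 2) (fun x hx => pow_ne_zero 2 (h1 x hx))
    exact ((contDiff_id.inner ℝ contDiff_const).mul (contDiff_id.inner ℝ contDiff_const)).contDiffOn

private theorem klein_kl_der {y : W} (hy : ‖y‖ < 1) (a b v : W) :
    der (fun z => kl z a b) y v = (⟪a, b⟫ * (2 * ⟪y, v⟫) + (⟪v, a⟫ * ⟪y, b⟫ + ⟪y, a⟫ * ⟪v, b⟫)) /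
      (1 - ‖y‖ ^ 2) ^ 2 + 4 * ⟪y, v⟫ * ⟪y, a⟫ * ⟪y, b⟫ / (1 - ‖y‖ ^ 2) ^ 3 := by
  have h1 : (1 - ‖y‖ ^ 2) ≠ 0 := by nlinarith [norm_nonneg y]
  have d1 : HasFDerivAt (fun z : W => 1 - ‖z‖ ^ 2) (-(2 • (innerSL ℝ y))) y := by
    have := (hasStrictFDerivAt_norm_sq y).hasFDerivAt
    have h := this.const_sub 1
    exact h
  have d2 : ∀ a : W, HasFDerivAt (fun z : W => ⟪z, a⟫) (innerSL ℝ a) y := by
    intro a
    have := (innerSL ℝ a).hasFDerivAt (x := y)
    refine this.congr_of_eventuallyEq (Filter.Eventually.of_forall fun z => ?_)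
    simp [real_inner_comm]
  have i1 := (hasDerivAt_inv h1).comp_hasFDerivAt y d1
  have i2 := (hasDerivAt_inv (pow_ne_zero 2 h1)).comp_hasFDerivAt y (d1.pow 2)
  have d3 := ((i1.const_mul ⟪a, b⟫)).add ((((d2 a).mul (d2 b))).mul i2)
  have e : (fun z => kl z a b) = fun z : W => ⟪a, b⟫ * (1 - ‖z‖ ^ 2)⁻¹
      + (⟪z, a⟫ * ⟪z, b⟫) * ((1 - ‖z‖ ^ 2) ^ 2)⁻¹ := by
    funext z
    unfold kl
    rw [div_eq_mul_inv, div_eq_mul_inv]
  unfold der
  rw [e]
  erw [d3.fderiv]
  simp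
  rw [real_inner_comm a v, real_inner_comm b v]
  field_simp
  ring

private theorem klein_kl_chr {y : W} (hy : ‖y‖ < 1) :
    IsChristoffel kl y (fun a b => (1 - ‖y‖ ^ 2)⁻¹ • (⟪y, a⟫ • b + ⟪y, b⟫ • a)) := by
  intro a b c
  unfold koszul
  rw [klein_kl_der hy, klein_kl_der hy, klein_kl_der hy]
  have h1 : (1 - ‖y‖ ^ 2) ≠ 0 := by nlinarith [norm_nonneg y]
  unfold kl
  simp only [inner_add_left, inner_add_right, inner_smul_left, inner_smul_right]
  simp
  rw [real_inner_comm b c, real_inner_comm a c, real_inner_comm a b]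
  field_simp
  ring

private theorem klein_dd {y : W} {Y : W → W} (hY : ContDiffAt ℝ ∞ Y y) (a : W) :
    dd Y y a = fderiv ℝ (fderiv ℝ Y) y a a := by
  unfold dd
  have hl : ∀ t : ℝ, HasDerivAt (fun t : ℝ => y + t • a) a t := by
    intro t
    have := ((hasDerivAt_id t).smul_const a).const_add y
    simpa using this
  have hev : ∀ᶠ t in 𝓝 (0 : ℝ), deriv (fun t : ℝ => Y (y + t • a)) t = fderiv ℝ Y (y + t • a) a := by
    have h1 : ∀ᶠ z in 𝓝 y, DifferentiableAt ℝ Y z :=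
      ((hY.of_le (m := 1) (by norm_cast)).eventually (by norm_cast)).mono fun z hz =>
        hz.differentiableAt (by simp)
    have h2 : Filter.Tendsto (fun t : ℝ => y + t • a) (𝓝 0) (𝓝 y) := by
      have := (hl 0).continuousAt.tendsto
      simpa using this
    filter_upwards [h2.eventually h1] with t ht
    have := ht.hasFDerivAt.comp_hasDerivAt t (hl t)
    exact this.deriv
  rw [Filter.EventuallyEq.deriv_eq hev]
  have h3 : HasFDerivAt (fderiv ℝ Y) (fderiv ℝ (fderiv ℝ Y) y) (y + (0 : ℝ) • a) := by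
    simp only [zero_smul, add_zero]
    exact ((hY.fderiv_right (m := 1) (by norm_cast)).differentiableAt (by norm_cast)).hasFDerivAt
  have h4 := h3.comp_hasDerivAt (0 : ℝ) (hl 0)
  have h5 := h4.clm_apply (hasDerivAt_const (0 : ℝ) a)
  have h6 := h5.deriv
  simp at h6
  exact h6

private theorem klein_symm {y : W} {Y : W → W} (hY : ContDiffAt ℝ ∞ Y y) (a b : W) :
    fderiv ℝ (fderiv ℝ Y) y a b = fderiv ℝ (fderiv ℝ Y) y b a :=
  (hY.isSymmSndFDerivAt (by simp; norm_cast)).eq a b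

private theorem klein_comp {x : W} {Y : W → W} (hY : DifferentiableAt ℝ Y x) (j : Fin 2) (v : W) :
    fderiv ℝ (fun z => Y z j) x v = (fderiv ℝ Y x v) j := by
  have h := (EuclideanSpace.proj (𝕜 := ℝ) j).hasFDerivAt.comp x
    hY.hasFDerivAt
  have h2 : (fun z => Y z j) = (EuclideanSpace.proj (𝕜 := ℝ) j) ∘ Y := by
    funext z
    simp
  rw [h2, h.fderiv]
  simp

private theorem klein_comp2 {y : W} {Y : W → W} (hY : ContDiffAt ℝ ∞ Y y) (j : Fin 2) (v : W) :
    HasFDerivAt (fun x => fderiv ℝ (fun z => Y z j) x v)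
      ((EuclideanSpace.proj (𝕜 := ℝ) j).comp
        ((fderiv ℝ (fderiv ℝ Y) y).flip v)) y := by
  have h1 : ∀ᶠ z in 𝓝 y, DifferentiableAt ℝ Y z :=
    ((hY.of_le (m := 1) (by norm_cast)).eventually (by norm_cast)).mono fun z hz =>
      hz.differentiableAt (by simp)
  have h3 : HasFDerivAt (fderiv ℝ Y) (fderiv ℝ (fderiv ℝ Y) y) y :=
    ((hY.fderiv_right (m := 1) (by norm_cast)).differentiableAt (by norm_cast)).hasFDerivAt
  have h4 := (EuclideanSpace.proj (𝕜 := ℝ) j).hasFDerivAt.comp y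
    (h3.clm_apply (hasFDerivAt_const v y))
  refine HasFDerivAt.congr_of_eventuallyEq ?_ (h1.mono fun z hz => klein_comp hz j v)
  rw [ContinuousLinearMap.comp_zero, zero_add] at h4
  exact h4

private theorem klein_alg (E F G D E0 E1 F0 F1 G0 G1 D0 D1 ρ q0 q1 C C0 C1 P P0 P1 n h00 h01 h11 u0 u1 t11 t12
    t22 t110 t120 t121 t221 k1 yj sr : ℝ)
    (hE : 0 < E) (hD : 0 < D) (hDD : D ^ 2 = E * G - F ^ 2) (hC : 0 < C) (hP : 0 < P)
    (hsr : 0 < sr) (hρ : sr ^ 2 = ρ)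
    (hP0 : C * P0 = n * P * C0) (hP1 : C * P1 = n * P * C1)
    (hD0 : 2 * D * D0 = E0 * G + E * G0 - 2 * F * F0)
    (hD1 : 2 * D * D1 = E1 * G + E * G1 - 2 * F * F1)
    (ht11 : t11 * (D * ρ) = P * G) (ht12 : t12 * (D * ρ) = -(P * F)) (ht22 : t22 * (D * ρ) = P * E)
    (ht110 : t110 * (D * ρ) + t11 * (D0 * ρ + D * (-2 * q0)) = P0 * G + P * G0)
    (ht120 : t120 * (D * ρ) + t12 * (D0 * ρ + D * (-2 * q0)) = -(P0 * F + P * F0))
    (ht121 : t121 * (D * ρ) + t12 * (D1 * ρ + D * (-2 * q1)) = -(P1 * F + P * F1))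
    (ht221 : t221 * (D * ρ) + t22 * (D1 * ρ + D * (-2 * q1)) = P1 * E + P * E1)
    (heq : t11 * h00 + t110 * u0 + (t12 * h01 + t120 * u1)
      + (t12 * h01 + t121 * u0 + (t22 * h11 + t221 * u1)) = (n / 2 * k1 * P / C ^ 2 * D / sr) * yj) :
    (G * (h00 - (u0 * ((G * (E0 / 2) - F * (F0 - E1 / 2)) / D ^ 2)
          + u1 * ((E * (F0 - E1 / 2) - F * (E0 / 2)) / D ^ 2)) + 2 * q0 * u0 / ρ)
      - 2 * F * (h01 - (u0 * ((G * (E1 / 2) - F * (G0 / 2)) / D ^ 2)
          + u1 * ((E * (G0 / 2) - F * (E1 / 2)) / D ^ 2)) + (q0 * u1 + q1 * u0) / ρ)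
      + E * (h11 - (u0 * ((G * (F1 - G0 / 2) - F * (G1 / 2)) / D ^ 2)
          + u1 * ((E * (G1 / 2) - F * (F1 - G0 / 2)) / D ^ 2)) + 2 * q1 * u1 / ρ)) / D ^ 2
      + n / C * (u0 * ((G * C0 - F * C1) / D ^ 2) + u1 * ((E * C1 - F * C0) / D ^ 2))
      - n * (k1 / 2 * sr) * yj / C ^ 2 = 0 := by
  have hρ0 : 0 < ρ := by rw [← hρ]; positivity
  have e1 : G = (D ^ 2 + F ^ 2) / E := by field_simp; linarith
  have e2 : P0 = n * P * C0 / C := by field_simp; linarith
  have e3 : P1 = n * P * C1 / C := by field_simp; linarith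
  have e4 : D0 = (E0 * G + E * G0 - 2 * F * F0) / (2 * D) := by field_simp; linarith
  have e5 : D1 = (E1 * G + E * G1 - 2 * F * F1) / (2 * D) := by field_simp; linarith
  have e6 : t11 = P * G / (D * ρ) := by field_simp; linarith
  have e7 : t12 = -(P * F) / (D * ρ) := by field_simp; linarith
  have e8 : t22 = P * E / (D * ρ) := by field_simp; linarith
  have e9 : t110 = (P0 * G + P * G0 - t11 * (D0 * ρ + D * (-2 * q0))) / (D * ρ) := by
    field_simp; linarith
  have e10 : t120 = (-(P0 * F + P * F0) - t12 * (D0 * ρ + D * (-2 * q0))) / (D * ρ) := by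
    field_simp; linarith
  have e11 : t121 = (-(P1 * F + P * F1) - t12 * (D1 * ρ + D * (-2 * q1))) / (D * ρ) := by
    field_simp; linarith
  have e12 : t221 = (P1 * E + P * E1 - t22 * (D1 * ρ + D * (-2 * q1))) / (D * ρ) := by
    field_simp; linarith
  have key : (G * (h00 - (u0 * ((G * (E0 / 2) - F * (F0 - E1 / 2)) / D ^ 2)
          + u1 * ((E * (F0 - E1 / 2) - F * (E0 / 2)) / D ^ 2)) + 2 * q0 * u0 / ρ)
      - 2 * F * (h01 - (u0 * ((G * (E1 / 2) - F * (G0 / 2)) / D ^ 2)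
          + u1 * ((E * (G0 / 2) - F * (E1 / 2)) / D ^ 2)) + (q0 * u1 + q1 * u0) / ρ)
      + E * (h11 - (u0 * ((G * (F1 - G0 / 2) - F * (G1 / 2)) / D ^ 2)
          + u1 * ((E * (G1 / 2) - F * (F1 - G0 / 2)) / D ^ 2)) + 2 * q1 * u1 / ρ)) / D ^ 2
      + n / C * (u0 * ((G * C0 - F * C1) / D ^ 2) + u1 * ((E * C1 - F * C0) / D ^ 2))
      = ρ / (P * D) * (t11 * h00 + t110 * u0 + (t12 * h01 + t120 * u1)
      + (t12 * h01 + t121 * u0 + (t22 * h11 + t221 * u1))) := by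
    rw [e9, e10, e11, e12, e6, e7, e8, e4, e5, e2, e3, e1]
    field_simp
    ring
  rw [key, heq, ← hρ]
  field_simp
  ring

private theorem klein_quot {T P G D ρ : W → ℝ} {x : W} (hT : T =ᶠ[𝓝 x] fun z => P z * G z / (D z * ρ z))
    (hP : DifferentiableAt ℝ P x) (hG : DifferentiableAt ℝ G x) (hD : DifferentiableAt ℝ D x)
    (hρ : DifferentiableAt ℝ ρ x) (hD0 : D x ≠ 0) (hρ0 : ρ x ≠ 0) :
    DifferentiableAt ℝ T x ∧ T x * (D x * ρ x) = P x * G x ∧
      ∀ v, fderiv ℝ T x v * (D x * ρ x) + T x * (fderiv ℝ D x v * ρ x + D x * fderiv ℝ ρ x v)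
      = fderiv ℝ P x v * G x + P x * fderiv ℝ G x v := by
  have ha : DifferentiableAt ℝ (fun z => P z * G z) x := hP.mul hG
  have hb : DifferentiableAt ℝ (fun z => D z * ρ z) x := hD.mul hρ
  have h0 : DifferentiableAt ℝ (fun z => P z * G z / (D z * ρ z)) x := by
    have := ha.mul (hb.inv (mul_ne_zero hD0 hρ0))
    have e : (fun z => P z * G z / (D z * ρ z)) = (fun z => P z * G z) * (fun z => D z * ρ z)⁻¹ := by
      funext z
      simp only [div_eq_mul_inv, Pi.mul_apply, Pi.inv_apply]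
    rw [e]
    exact this
  have h1 : DifferentiableAt ℝ T x := h0.congr_of_eventuallyEq hT
  have h2 : (fun z => T z * (D z * ρ z)) =ᶠ[𝓝 x] fun z => P z * G z := by
    have hc := (hD.mul hρ).continuousAt.eventually_ne (mul_ne_zero hD0 hρ0)
    filter_upwards [hT, hc] with z hz hz2
    have hz3 : D z * ρ z ≠ 0 := hz2
    rw [hz, div_mul_cancel₀ _ hz3]
  refine ⟨h1, h2.self_of_nhds, fun v => ?_⟩
  have h3 := (h1.hasFDerivAt.mul (hD.hasFDerivAt.mul hρ.hasFDerivAt)).congr_of_eventuallyEq h2.symm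
  have h4 := h3.unique (hP.hasFDerivAt.mul hG.hasFDerivAt)
  have h5 := congrArg (fun L : W →L[ℝ] ℝ => L v) h4
  simp at h5
  linarith

/-- An orthonormal basis. -/
private theorem klein_basis {g : W → W → W → ℝ} {U : Set W} (hg : IsMet g U) {y : W} (hy : y ∈ U)
    (D : ℝ) (hD : 0 < D) (hDD : D ^ 2 = g y e0 e0 * g y (perp e0) (perp e0) - g y e0 (perp e0) ^ 2) :
    ∃ (e : Basis (Fin 2) ℝ W), (∀ i j, g y (e i) (e j) = if i = j then 1 else 0) ∧
      e 0 0 * e 0 0 + e 1 0 * e 1 0 = g y (perp e0) (perp e0) / D ^ 2 ∧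
      e 0 0 * e 0 1 + e 1 0 * e 1 1 = - g y e0 (perp e0) / D ^ 2 ∧
      e 0 1 * e 0 1 + e 1 1 * e 1 1 = g y e0 e0 / D ^ 2 := by
  obtain ⟨hE, -⟩ := klein_det hg hy
  set E := g y e0 e0 with hEdef
  set F := g y e0 (perp e0) with hFdef
  set G := g y (perp e0) (perp e0) with hGdef
  obtain ⟨s, hs0, hs⟩ : ∃ s : ℝ, 0 < s ∧ s ^ 2 = E := ⟨√E, Real.sqrt_pos.mpr hE, Real.sq_sqrt hE.le⟩
  have hG : G = (D ^ 2 + F ^ 2) / s ^ 2 := by rw [hs]; field_simp; linarith
  let v : Fin 2 → W := ![s⁻¹ • e0, (-(F / (s * D))) • e0 + (s / D) • perp e0]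
  have hv : ∀ i j, g y (v i) (v j) = if i = j then 1 else 0 := by
    intro i j
    rw [klein_exp hg, ← hEdef, ← hFdef, ← hGdef, ← hs, hG]
    fin_cases i <;> fin_cases j <;>
      simp [v, klein_perp_one, klein_e0_one, klein_perp_zero, klein_e0_zero] <;> field_simp <;> ring
  have hli : LinearIndependent ℝ v := by
    rw [Fintype.linearIndependent_iff]
    intro c hc i
    have h1 : g y (∑ j, c j • v j) (v i) = c i := by
      rw [Fin.sum_univ_two, hg.add, hg.smul, hg.smul, hv, hv]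
      fin_cases i <;> simp
    rw [hc] at h1
    have h2 : g y 0 (v i) = 0 := by
      have := hg.smul y 0 (v i) (v i)
      simpa using this
    rw [← h1, h2]
  have hcard : Fintype.card (Fin 2) = finrank ℝ W := by simp
  refine ⟨basisOfLinearIndependentOfCardEqFinrank hli hcard, ?_, ?_, ?_, ?_⟩
  · intro i j
    rw [coe_basisOfLinearIndependentOfCardEqFinrank]
    exact hv i j
  · rw [coe_basisOfLinearIndependentOfCardEqFinrank]
    simp [v, klein_perp_zero, klein_e0_zero]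
    rw [hG]
    field_simp
  · rw [coe_basisOfLinearIndependentOfCardEqFinrank]
    simp [v, klein_perp_one, klein_e0_one, klein_perp_zero, klein_e0_zero]
    field_simp
  · rw [coe_basisOfLinearIndependentOfCardEqFinrank]
    simp [v, klein_perp_one, klein_e0_one]
    rw [← hs]
    field_simp

private theorem klein_alg2 (w0 k1 q n2 s c0 δ : ℝ) (hs : 0 < s) (hc : 0 < c0) (hn : s ^ 2 = 1 - n2)
    (h4 : -((c0 * c0 - w0 + k1) * (s⁻¹ * 2⁻¹ * (2 * q))) + (s * (c0 * δ) + s * (c0 * δ)) = 0)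
    (h5 : (c0 * c0 - w0 + k1) * s = k1) :
    k1 / (2 * c0) * s * q / (1 - n2) + k1 / (2 * c0) * s * n2 * q / (1 - n2) ^ 2 = δ := by
  rw [← hn]
  have hn2 : n2 = 1 - s ^ 2 := by linarith
  have e1 : c0 * c0 - w0 + k1 = k1 / s := by field_simp; linarith
  rw [e1] at h4
  have e2 : δ = k1 * q / (2 * c0 * s ^ 3) := by
    field_simp at h4 ⊢
    linarith
  rw [e2, hn2]
  field_simp
  ring

theorem t_KLEIN : S_KLEIN := by
  intro hHYP hTEN d C c g2 U U' Y p w0 k1 D T11 T12 T22 hd hU hU' hp hYp hg hC hc hC0 hc0 hY hU'1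
    hYU hcc hD h11 h12 h22 heq
  set x : W := p.2 with hxdef
  have hYx : ContDiffAt ℝ ∞ Y x := hY.contDiffAt (hU.mem_nhds hp)
  have hYd : DifferentiableAt ℝ Y x := hYx.differentiableAt (by simp)
  have hCx : ContDiffAt ℝ ∞ C x := hC.contDiffAt (hU.mem_nhds hp)
  have hCd : DifferentiableAt ℝ C x := hCx.differentiableAt (by simp)
  have hcx : ContDiffAt ℝ ∞ c (Y x) := hc.contDiffAt (hU'.mem_nhds hYp)
  have hcd : DifferentiableAt ℝ c (Y x) := hcx.differentiableAt (by simp)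
  have hYn : ‖Y x‖ < 1 := hU'1 _ hYp
  have hρ0 : 0 < 1 - ‖Y x‖ ^ 2 := by nlinarith [norm_nonneg (Y x)]
  have hCpos : 0 < C x := hC0 x hp
  have hcpos : 0 < c (Y x) := hc0 _ hYp
  obtain ⟨hE0, hΔ0⟩ := klein_det hg hp
  have hEd := klein_diff hg hU hp e0 e0
  have hFd := klein_diff hg hU hp e0 (perp e0)
  have hGd := klein_diff hg hU hp (perp e0) (perp e0)
  have hUev : ∀ᶠ z in 𝓝 x, z ∈ U := hU.mem_nhds hp
  -- the function D
  have hDx : D x ^ 2 = g2 x e0 e0 * g2 x (perp e0) (perp e0) - g2 x e0 (perp e0) ^ 2 := by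
    rw [hD x hp, Real.sq_sqrt hΔ0.le]
  have hDpos : 0 < D x := by
    rw [hD x hp]
    exact Real.sqrt_pos.mpr hΔ0
  have hΔd : DifferentiableAt ℝ (fun z => g2 z e0 e0 * g2 z (perp e0) (perp e0)
      - g2 z e0 (perp e0) ^ 2) x := (hEd.mul hGd).sub (hFd.pow 2)
  have hDd : DifferentiableAt ℝ D x :=
    (hΔd.sqrt hΔ0.ne').congr_of_eventuallyEq (hUev.mono fun z hz => hD z hz)
  have hD' : ∀ v, 2 * D x * fderiv ℝ D x v
      = fderiv ℝ (fun z => g2 z e0 e0) x v * g2 x (perp e0) (perp e0)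
        + g2 x e0 e0 * fderiv ℝ (fun z => g2 z (perp e0) (perp e0)) x v
        - 2 * g2 x e0 (perp e0) * fderiv ℝ (fun z => g2 z e0 (perp e0)) x v := by
    intro v
    have h1 : (fun z => D z * D z) =ᶠ[𝓝 x] fun z => g2 z e0 e0 * g2 z (perp e0) (perp e0)
      - g2 z e0 (perp e0) * g2 z e0 (perp e0) := by
      filter_upwards [hUev] with z hz
      rw [hD z hz, Real.mul_self_sqrt (klein_det hg hz).2.le]
      ring
    have h3 := (hDd.hasFDerivAt.mul hDd.hasFDerivAt).congr_of_eventuallyEq h1.symm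
    have h4 := h3.unique ((hEd.hasFDerivAt.mul hGd.hasFDerivAt).sub
      (hFd.hasFDerivAt.mul hFd.hasFDerivAt))
    have h5 := congrArg (fun L : W →L[ℝ] ℝ => L v) h4
    simp at h5
    linarith
  -- the function P
  have hPd : DifferentiableAt ℝ (fun z => C z ^ d) x := hCd.pow d
  have hP' : ∀ v, C x * fderiv ℝ (fun z => C z ^ d) x v = d * C x ^ d * fderiv ℝ C x v := by
    intro v
    have h1 := (hCd.hasFDerivAt.pow d).fderiv
    have h2 : fderiv ℝ (fun z => C z ^ d) x v = (d * C x ^ (d - 1)) * fderiv ℝ C x v := by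
      have := congrArg (fun L : W →L[ℝ] ℝ => L v) h1
      simp at this
      exact this
    rw [h2]
    have h3 : C x ^ d = C x * C x ^ (d - 1) := by
      rw [← pow_succ']
      congr 1
      omega
    rw [h3]
    ring
  -- the function rho
  have hρd : DifferentiableAt ℝ (fun z => 1 - ‖Y z‖ ^ 2) x := (hYd.norm_sq ℝ).const_sub 1
  have hρ' : ∀ v, fderiv ℝ (fun z => 1 - ‖Y z‖ ^ 2) x v = -2 * ⟪Y x, fderiv ℝ Y x v⟫ := by
    intro v
    have h1 := (hYd.hasFDerivAt.norm_sq.const_sub 1).fderiv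
    have := congrArg (fun L : W →L[ℝ] ℝ => L v) h1
    simp at this
    rw [this]
    ring
  obtain ⟨T11d, T11x, T11'⟩ := klein_quot (T := T11) (P := fun z => C z ^ d)
    (G := fun z => g2 z (perp e0) (perp e0)) (D := D) (ρ := fun z => 1 - ‖Y z‖ ^ 2) (x := x)
    (hUev.mono fun z hz => h11 z hz) hPd hGd hDd hρd hDpos.ne' hρ0.ne'
  obtain ⟨T12d, T12x, T12'⟩ := klein_quot (T := T12) (P := fun z => C z ^ d)
    (G := fun z => -g2 z e0 (perp e0)) (D := D) (ρ := fun z => 1 - ‖Y z‖ ^ 2) (x := x)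
    (hUev.mono fun z hz => by rw [h12 z hz]; simp) hPd hFd.neg hDd hρd hDpos.ne' hρ0.ne'
  obtain ⟨T22d, T22x, T22'⟩ := klein_quot (T := T22) (P := fun z => C z ^ d)
    (G := fun z => g2 z e0 e0) (D := D) (ρ := fun z => 1 - ‖Y z‖ ^ 2) (x := x)
    (hUev.mono fun z hz => h22 z hz) hPd hEd hDd hρd hDpos.ne' hρ0.ne'
  obtain ⟨e, he, hG', hF', hE'⟩ := klein_basis hg hp (D x) hDpos hDx
  set s : ℝ := √(1 - ‖Y x‖ ^ 2) with hsdef
  have hs0 : 0 < s := Real.sqrt_pos.mpr hρ0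
  have hs2 : s ^ 2 = 1 - ‖Y x‖ ^ 2 := Real.sq_sqrt hρ0.le
  refine hTEN hHYP d C c g2 kl U U' Y p (klein_Gam g2 x)
    (fun a b => (1 - ‖Y x‖ ^ 2)⁻¹ • (⟪Y x, a⟫ • b + ⟪Y x, b⟫ • a)) e
    (((g2 x (perp e0) (perp e0) * fderiv ℝ C x e0 - g2 x e0 (perp e0) * fderiv ℝ C x (perp e0)) /
        D x ^ 2) • e0
      + ((g2 x e0 e0 * fderiv ℝ C x (perp e0) - g2 x e0 (perp e0) * fderiv ℝ C x e0) /
        D x ^ 2) • perp e0)
    ((k1 / (2 * c (Y x)) * s) • Y x) hU hU' hp hYp hg (klein_kl_met hU'1) hC hc hC0 hc0 hY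
    (klein_chr hg hU hp) (klein_kl_chr hYn) he ?_ ?_ ?_
  · intro a
    rw [klein_exp hg, klein_lin (fderiv ℝ C x) a]
    simp only [PiLp.add_apply, PiLp.smul_apply, klein_perp_one, klein_e0_one, klein_perp_zero,
      klein_e0_zero, smul_eq_mul]
    exact klein_alg0 _ _ _ _ _ _ _ _ (pow_pos hDpos 2).ne' hDx
  · intro a
    have hsd : HasFDerivAt (fun z : W => √(1 - ‖z‖ ^ 2))
        ((1 / (2 * s)) • (-(2 • (innerSL ℝ (Y x))) : W →L[ℝ] ℝ)) (Y x) := by
      have d1 : HasFDerivAt (fun z : W => 1 - ‖z‖ ^ 2) (-(2 • (innerSL ℝ (Y x)))) (Y x) :=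
        (hasStrictFDerivAt_norm_sq (Y x)).hasFDerivAt.const_sub 1
      exact d1.sqrt hρ0.ne'
    have hU'ev : ∀ᶠ z in 𝓝 (Y x), z ∈ U' := hU'.mem_nhds hYp
    have h1 : (fun z => (c z * c z - w0 + k1) * √(1 - ‖z‖ ^ 2)) =ᶠ[𝓝 (Y x)] fun z => k1 := by
      filter_upwards [hU'ev] with z hz
      have hz1 : 0 < 1 - ‖z‖ ^ 2 := by nlinarith [norm_nonneg z, hU'1 z hz]
      have hz2 : 0 < √(1 - ‖z‖ ^ 2) := Real.sqrt_pos.mpr hz1
      have hz3 := hcc z hz
      have hz4 : c z * c z = w0 + k1 * (1 / √(1 - ‖z‖ ^ 2) - 1) := by rw [← hz3]; ring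
      rw [hz4]
      field_simp
      ring
    have h2 := ((((hcd.hasFDerivAt.mul hcd.hasFDerivAt).sub_const w0).add_const k1).mul
      hsd).congr_of_eventuallyEq h1.symm
    have h3 := h2.unique (hasFDerivAt_const k1 (Y x))
    have h4 := congrArg (fun L : W →L[ℝ] ℝ => L a) h3
    simp at h4
    have h5 : (c (Y x) * c (Y x) - w0 + k1) * s = k1 := h1.self_of_nhds
    change kl (Y x) ((k1 / (2 * c (Y x)) * s) • Y x) a = fderiv ℝ c (Y x) a
    unfold kl
    rw [inner_smul_left, inner_smul_right, real_inner_self_eq_norm_sq]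
    exact klein_alg2 w0 k1 _ _ s _ _ hs0 hcpos hs2 h4 h5
  · have hH01 := klein_symm hYx (perp e0) e0
    ext j
    have h1 := heq j
    have hY0 := klein_comp2 hYx j e0
    have hY1 := klein_comp2 hYx j (perp e0)
    have ha := ((T11d.hasFDerivAt.mul hY0).add (T12d.hasFDerivAt.mul hY1)).fderiv
    have hb := ((T12d.hasFDerivAt.mul hY0).add (T22d.hasFDerivAt.mul hY1)).fderiv
    have ha2 := congrArg (fun L : W →L[ℝ] ℝ => L e0) ha
    have hb2 := congrArg (fun L : W →L[ℝ] ℝ => L (perp e0)) hb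
    simp [klein_comp hYd] at ha2 hb2
    set E := g2 x e0 e0 with hEdef
    set F := g2 x e0 (perp e0) with hFdef
    set G := g2 x (perp e0) (perp e0) with hGdef
    set E0 := fderiv ℝ (fun z => g2 z e0 e0) x e0 with hE0def
    set E1 := fderiv ℝ (fun z => g2 z e0 e0) x (perp e0) with hE1def
    set F0 := fderiv ℝ (fun z => g2 z e0 (perp e0)) x e0 with hF0def
    set F1 := fderiv ℝ (fun z => g2 z e0 (perp e0)) x (perp e0) with hF1def
    set G0 := fderiv ℝ (fun z => g2 z (perp e0) (perp e0)) x e0 with hG0def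
    set G1 := fderiv ℝ (fun z => g2 z (perp e0) (perp e0)) x (perp e0) with hG1def
    have hQ : ∀ a : W, (nablaD (klein_Gam g2 x)
      (fun a b => (1 - ‖Y x‖ ^ 2)⁻¹ • (⟪Y x, a⟫ • b + ⟪Y x, b⟫ • a)) Y x a) j
      = a 0 * a 0 * ((fderiv ℝ (fderiv ℝ Y) x e0 e0) j
          - ((fderiv ℝ Y x e0) j * ((G * (E0 / 2) - F * (F0 - E1 / 2)) / D x ^ 2)
          + (fderiv ℝ Y x (perp e0)) j * ((E * (F0 - E1 / 2) - F * (E0 / 2)) / D x ^ 2))
          + 2 * ⟪Y x, fderiv ℝ Y x e0⟫ * (fderiv ℝ Y x e0) j / (1 - ‖Y x‖ ^ 2))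
        + 2 * (a 0 * a 1) * ((fderiv ℝ (fderiv ℝ Y) x e0 (perp e0)) j
          - ((fderiv ℝ Y x e0) j * ((G * (E1 / 2) - F * (G0 / 2)) / D x ^ 2)
          + (fderiv ℝ Y x (perp e0)) j * ((E * (G0 / 2) - F * (E1 / 2)) / D x ^ 2))
          + (⟪Y x, fderiv ℝ Y x e0⟫ * (fderiv ℝ Y x (perp e0)) j
            + ⟪Y x, fderiv ℝ Y x (perp e0)⟫ * (fderiv ℝ Y x e0) j) / (1 - ‖Y x‖ ^ 2))
        + a 1 * a 1 * ((fderiv ℝ (fderiv ℝ Y) x (perp e0) (perp e0)) j
          - ((fderiv ℝ Y x e0) j * ((G * (F1 - G0 / 2) - F * (G1 / 2)) / D x ^ 2)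
          + (fderiv ℝ Y x (perp e0)) j * ((E * (G1 / 2) - F * (F1 - G0 / 2)) / D x ^ 2))
          + 2 * ⟪Y x, fderiv ℝ Y x (perp e0)⟫ * (fderiv ℝ Y x (perp e0)) j / (1 - ‖Y x‖ ^ 2)) := by
      intro a
      unfold nablaD
      rw [klein_dd hYx]
      have hD2 : (fderiv ℝ (fderiv ℝ Y) x a) a
          = (a 0 * a 0) • fderiv ℝ (fderiv ℝ Y) x e0 e0
            + (2 * (a 0 * a 1)) • fderiv ℝ (fderiv ℝ Y) x e0 (perp e0)
            + (a 1 * a 1) • fderiv ℝ (fderiv ℝ Y) x (perp e0) (perp e0) := by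
        have h1 : (fderiv ℝ (fderiv ℝ Y) x a) = a 0 • (fderiv ℝ (fderiv ℝ Y) x e0)
            + a 1 • (fderiv ℝ (fderiv ℝ Y) x (perp e0)) := by
          conv_lhs => rw [klein_dec a]
          simp
        rw [h1]
        simp only [add_apply, smul_apply]
        rw [klein_lin2 (fderiv ℝ (fderiv ℝ Y) x e0) a, klein_lin2 (fderiv ℝ (fderiv ℝ Y) x (perp e0)) a,
          hH01]
        module
      have hin : ∀ v w : W, ⟪Y x, v + w⟫ = ⟪Y x, v⟫ + ⟪Y x, w⟫ := fun v w => inner_add_right _ _ _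
      have hk0 : koszul g2 x a a e0 = a 0 * a 0 * (E0 / 2) + 2 * (a 0 * a 1) * (E1 / 2)
          + a 1 * a 1 * (F1 - G0 / 2) := by
        unfold koszul
        simp only [klein_der hg hU hp]
        have hl : ∀ b' c' : W, fderiv ℝ (fun z => g2 z b' c') x a
            = a 0 * fderiv ℝ (fun z => g2 z b' c') x e0
              + a 1 * fderiv ℝ (fun z => g2 z b' c') x (perp e0) := fun b' c' => klein_lin _ a
        rw [hl e0 e0, hl e0 (perp e0), hl (perp e0) (perp e0)]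
        simp only [klein_perp_one, klein_e0_one, klein_perp_zero, klein_e0_zero]
        ring
      have hk1 : koszul g2 x a a (perp e0) = a 0 * a 0 * (F0 - E1 / 2) + 2 * (a 0 * a 1) * (G0 / 2)
          + a 1 * a 1 * (G1 / 2) := by
        unfold koszul
        simp only [klein_der hg hU hp]
        have hl : ∀ b' c' : W, fderiv ℝ (fun z => g2 z b' c') x a
            = a 0 * fderiv ℝ (fun z => g2 z b' c') x e0
              + a 1 * fderiv ℝ (fun z => g2 z b' c') x (perp e0) := fun b' c' => klein_lin _ a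
        rw [hl e0 e0, hl e0 (perp e0), hl (perp e0) (perp e0)]
        simp only [klein_perp_one, klein_e0_one, klein_perp_zero, klein_e0_zero]
        ring
      rw [hD2]
      unfold der klein_Gam
      rw [hk0, hk1, ← hDx, map_add, map_smul, map_smul, klein_lin2 (fderiv ℝ Y x) a]
      simp only [PiLp.add_apply, PiLp.sub_apply, PiLp.smul_apply, smul_eq_mul, inner_add_right,
        inner_smul_right]
      ring
    have hF0' : ∀ v, fderiv ℝ (fun z => -g2 z e0 (perp e0)) x v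
        = -fderiv ℝ (fun z => g2 z e0 (perp e0)) x v := by
      intro v
      have h2 := hFd.hasFDerivAt.neg.fderiv
      have h3 := congrArg (fun L : W →L[ℝ] ℝ => L v) h2
      exact h3
    have hkey := klein_alg E F G (D x) E0 E1 F0 F1 G0 G1 (fderiv ℝ D x e0) (fderiv ℝ D x (perp e0))
      (1 - ‖Y x‖ ^ 2) ⟪Y x, fderiv ℝ Y x e0⟫ ⟪Y x, fderiv ℝ Y x (perp e0)⟫ (C x) (fderiv ℝ C x e0)
      (fderiv ℝ C x (perp e0)) (C x ^ d) (fderiv ℝ (fun z => C z ^ d) x e0)
      (fderiv ℝ (fun z => C z ^ d) x (perp e0)) d ((fderiv ℝ (fderiv ℝ Y) x e0 e0) j)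
      ((fderiv ℝ (fderiv ℝ Y) x e0 (perp e0)) j) ((fderiv ℝ (fderiv ℝ Y) x (perp e0) (perp e0)) j)
      ((fderiv ℝ Y x e0) j) ((fderiv ℝ Y x (perp e0)) j) (T11 x) (T12 x) (T22 x)
      (fderiv ℝ T11 x e0) (fderiv ℝ T12 x e0) (fderiv ℝ T12 x (perp e0))
      (fderiv ℝ T22 x (perp e0)) k1 (Y x j) s hE0 hDpos hDx hCpos (pow_pos hCpos d) hs0 hs2
      (hP' e0) (hP' (perp e0)) (hD' e0) (hD' (perp e0)) T11x (by rw [T12x]; ring) T22x
      ?_ ?_ ?_ ?_ ?_
    · have hcc0 : (d * c (Y x) / C x ^ 2) * (k1 / (2 * c (Y x)) * s * (Y x) j)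
          = d * (k1 / 2 * s) * (Y x) j / C x ^ 2 := by
        field_simp
      rw [Fin.sum_univ_two]
      simp only [← hxdef]
      rw [map_add, map_smul, map_smul]
      simp only [PiLp.add_apply, PiLp.sub_apply, PiLp.smul_apply, smul_eq_mul, PiLp.zero_apply]
      rw [hQ, hQ]
      linear_combination hkey + ((fderiv ℝ (fderiv ℝ Y) x e0 e0) j
          - ((fderiv ℝ Y x e0) j * ((G * (E0 / 2) - F * (F0 - E1 / 2)) / D x ^ 2)
          + (fderiv ℝ Y x (perp e0)) j * ((E * (F0 - E1 / 2) - F * (E0 / 2)) / D x ^ 2))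
          + 2 * ⟪Y x, fderiv ℝ Y x e0⟫ * (fderiv ℝ Y x e0) j / (1 - ‖Y x‖ ^ 2)) * hG'
        + 2 * ((fderiv ℝ (fderiv ℝ Y) x e0 (perp e0)) j
          - ((fderiv ℝ Y x e0) j * ((G * (E1 / 2) - F * (G0 / 2)) / D x ^ 2)
          + (fderiv ℝ Y x (perp e0)) j * ((E * (G0 / 2) - F * (E1 / 2)) / D x ^ 2))
          + (⟪Y x, fderiv ℝ Y x e0⟫ * (fderiv ℝ Y x (perp e0)) j
            + ⟪Y x, fderiv ℝ Y x (perp e0)⟫ * (fderiv ℝ Y x e0) j) / (1 - ‖Y x‖ ^ 2)) * hF'
        + ((fderiv ℝ (fderiv ℝ Y) x (perp e0) (perp e0)) j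
          - ((fderiv ℝ Y x e0) j * ((G * (F1 - G0 / 2) - F * (G1 / 2)) / D x ^ 2)
          + (fderiv ℝ Y x (perp e0)) j * ((E * (G1 / 2) - F * (F1 - G0 / 2)) / D x ^ 2))
          + 2 * ⟪Y x, fderiv ℝ Y x (perp e0)⟫ * (fderiv ℝ Y x (perp e0)) j / (1 - ‖Y x‖ ^ 2)) * hE'
        - hcc0
    · have := T11' e0
      rw [hρ'] at this
      exact this
    · have := T12' e0
      rw [hρ', hF0'] at this
      linear_combination this
    · have := T12' (perp e0)
      rw [hρ', hF0'] at this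
      linear_combination this
    · have := T22' (perp e0)
      rw [hρ'] at this
      exact this
    · rw [← h1]
      have e1 : (fun x => T11 x * (fderiv ℝ (fun z => (Y z) j) x) e0
          + T12 x * (fderiv ℝ (fun z => (Y z) j) x) (perp e0))
          = (T11 * fun x => (fderiv ℝ (fun z => (Y z) j) x) e0)
            + T12 * fun x => (fderiv ℝ (fun z => (Y z) j) x) (perp e0) := rfl
      have e2 : (fun x => T12 x * (fderiv ℝ (fun z => (Y z) j) x) e0
          + T22 x * (fderiv ℝ (fun z => (Y z) j) x) (perp e0))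
          = (T12 * fun x => (fderiv ℝ (fun z => (Y z) j) x) e0)
            + T22 * fun x => (fderiv ℝ (fun z => (Y z) j) x) (perp e0) := rfl
      rw [e1, e2, ha2, hb2, hH01]
      ring

end Pool.Agent.Helper473.LY
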