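import Pool.Agent.Helper473.LY.Stmts

set_option autoImplicit false

open scoped Manifold ContDiff Topology RealInnerProductSpace
open Module

namespace Pool.Agent.Helper473.LY

open Pool.Agent.H234R3

theorem l1_ss : √(√2) * √(√2) = √2 := Real.mul_self_sqrt (Real.sqrt_nonneg _)

theorem l1_ss_pos : 0 < √(√2) := Real.sqrt_pos.2 (Real.sqrt_pos.2 (by norm_num))

theorem l1_coo_inj {d : ℕ} {x y : L d} (h : coo x = coo y) : x = y := by
  have h1 := congrFun h (Sum.inl ())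
  have h2 : ∀ i, x.2.1 i = y.2.1 i := fun i => congrFun h (Sum.inr (Sum.inl i))
  have h3 : ∀ j, x.2.2 j = y.2.2 j := fun j => congrFun h (Sum.inr (Sum.inr j))
  have h0 : x.1 = y.1 := by
    have h4 : x.1 / √(√2) = y.1 / √(√2) := h1
    exact (div_left_inj' l1_ss_pos.ne').1 h4
  exact Prod.ext h0 (Prod.ext (PiLp.ext h2) (PiLp.ext h3))

theorem l1_emb_sqrt : emb ⟨0, 1⟩ = √2 := by
  unfold emb
  simp [Zsqrtd.toReal, Zsqrtd.lift]

theorem l1_J {d : ℕ} (x y : L d) :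
    J x y = (coo x) ⬝ᵥ ((Jm d).map emb).mulVec (coo y) := by
  have h : ((Jm d).map emb) = Matrix.diagonal (fun i : Idx d => match i with
    | Sum.inl _ => -√2
    | Sum.inr _ => 1) := by
    unfold Jm
    rw [Matrix.diagonal_map (map_zero emb)]
    congr 1
    funext i
    rcases i with i | i
    · show emb (-⟨0, 1⟩) = _
      rw [map_neg, l1_emb_sqrt]
    · show emb 1 = 1
      exact map_one emb
  rw [h]
  unfold J dotProduct
  simp only [Matrix.mulVec_diagonal, Fintype.sum_sum_type, Finset.univ_unique, Finset.sum_singleton]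
  have e1 : coo x (Sum.inl default) * (-√2 * coo y (Sum.inl default)) = -(x.1 * y.1) := by
    show x.1 / √(√2) * (-√2 * (y.1 / √(√2))) = -(x.1 * y.1)
    have h2 := l1_ss_pos.ne'
    have h3 := l1_ss
    field_simp
    rw [sq, h3]
  rw [e1, add_assoc]
  congr 1
  congr 1
  · rw [PiLp.inner_apply]
    refine Finset.sum_congr rfl fun i _ => ?_
    show ⟪x.2.1 i, y.2.1 i⟫ = x.2.1 i * (1 * y.2.1 i)
    rw [one_mul]
    exact mul_comm _ _
  · rw [PiLp.inner_apply]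
    refine Finset.sum_congr rfl fun i _ => ?_
    show ⟪x.2.2 i, y.2.2 i⟫ = x.2.2 i * (1 * y.2.2 i)
    rw [one_mul]
    exact mul_comm _ _

theorem l1_isom {d m : ℕ} {γ : L d ≃ₗ[ℝ] L d} (hγ : InGam d m γ) (x y : L d) :
    J (γ x) (γ y) = J x y := by
  obtain ⟨M, hM, -, hc⟩ := hγ.mat
  rw [l1_J, l1_J, hc, hc]
  have h : (M.val.map emb).transpose * (Jm d).map emb * M.val.map emb = (Jm d).map emb := by
    conv_rhs => rw [← hM]
    rw [Matrix.map_mul, Matrix.map_mul, Matrix.transpose_map]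
  conv_rhs => rw [← h]
  rw [Matrix.dotProduct_mulVec, Matrix.dotProduct_mulVec, Matrix.dotProduct_mulVec,
    Matrix.vecMul_mulVec, Matrix.vecMul_vecMul]

theorem l1_iota_pos {d : ℕ} (p : P d) : 0 < (iota p).1 := by
  show 0 < √(1 + ‖p.2‖ ^ 2) * √(1 + ‖p.1‖ ^ 2)
  positivity

theorem l1_J_self {d : ℕ} (x : L d) : J x x = -x.1 ^ 2 + ‖x.2.1‖ ^ 2 + ‖x.2.2‖ ^ 2 := by
  unfold J
  rw [real_inner_self_eq_norm_sq, real_inner_self_eq_norm_sq]
  ring

theorem l1_J_iota {d : ℕ} (p : P d) : J (iota p) (iota p) = -1 := by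
  rw [l1_J_self]
  show -(√(1 + ‖p.2‖ ^ 2) * √(1 + ‖p.1‖ ^ 2)) ^ 2 + ‖√(1 + ‖p.2‖ ^ 2) • p.1‖ ^ 2 + ‖p.2‖ ^ 2 = -1
  rw [norm_smul, mul_pow, mul_pow, Real.sq_sqrt (by positivity), Real.sq_sqrt (by positivity),
    Real.norm_of_nonneg (Real.sqrt_nonneg _), Real.sq_sqrt (by positivity)]
  ring

theorem l1_iota_piP {d : ℕ} (x : L d) (h : J x x = -1) (h0 : 0 < x.1) : iota (piP x) = x := by
  rw [l1_J_self] at h
  set s := √(1 + ‖x.2.2‖ ^ 2) with hs
  have hs0 : 0 < s := by positivity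
  have hs2 : s ^ 2 = 1 + ‖x.2.2‖ ^ 2 := Real.sq_sqrt (by positivity)
  refine Prod.ext ?_ (Prod.ext ?_ rfl)
  · show s * √(1 + ‖s⁻¹ • x.2.1‖ ^ 2) = x.1
    have e : s * √(1 + ‖s⁻¹ • x.2.1‖ ^ 2) = √(s ^ 2 * (1 + ‖s⁻¹ • x.2.1‖ ^ 2)) := by
      rw [Real.sqrt_mul (by positivity), Real.sqrt_sq hs0.le]
    rw [e, norm_smul, Real.norm_of_nonneg (inv_nonneg.2 hs0.le), mul_pow]
    have e2 : s ^ 2 * (1 + s⁻¹ ^ 2 * ‖x.2.1‖ ^ 2) = x.1 ^ 2 := by
      have e3 : s ^ 2 * (1 + s⁻¹ ^ 2 * ‖x.2.1‖ ^ 2) = s ^ 2 + ‖x.2.1‖ ^ 2 := by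
        field_simp
      rw [e3, hs2]
      linarith
    rw [e2, Real.sqrt_sq h0.le]
  · show s • (s⁻¹ • x.2.1) = x.2.1
    rw [smul_smul, mul_inv_cancel₀ hs0.ne', one_smul]

theorem l1_dvd_mul {n : Type*} [Fintype n] {R : Type*} [CommRing R] (m : R)
    (A B : Matrix n n R) (hB : ∀ i j, m ∣ B i j) (i j : n) : m ∣ (A * B) i j := by
  rw [Matrix.mul_apply]
  exact Finset.dvd_sum fun k _ => (hB k j).mul_left _

theorem l1_one (d m : ℕ) : InGam d m (1 : L d ≃ₗ[ℝ] L d) := by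
  refine ⟨fun p => l1_iota_pos p, 1, ?_, ?_, ?_⟩
  · simp
  · intro i j
    simp
  · intro x
    simp

theorem l1_mul {d m : ℕ} {γ δ : L d ≃ₗ[ℝ] L d} (hγ : InGam d m γ) (hδ : InGam d m δ) :
    InGam d m (γ * δ) := by
  have hisom := fun x y => l1_isom hδ x y
  obtain ⟨hu, M, hM, hm, hc⟩ := hγ
  obtain ⟨hu', M', hM', hm', hc'⟩ := hδ
  refine ⟨?_, M * M', ?_, ?_, ?_⟩
  · intro p
    have h1 : iota (piP (δ (iota p))) = δ (iota p) :=
      l1_iota_piP _ (by rw [hisom, l1_J_iota]) (hu' p)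
    have h2 := hu (piP (δ (iota p)))
    rw [h1] at h2
    exact h2
  · rw [Units.val_mul, Matrix.transpose_mul]
    calc _ = M'.val.transpose * (M.val.transpose * Jm d * M.val) * M'.val := by
          simp only [Matrix.mul_assoc]
      _ = _ := by rw [hM, hM']
  · intro i j
    have e : (M * M').val - 1 = M.val * (M'.val - 1) + (M.val - 1) := by
      rw [Units.val_mul, Matrix.mul_sub, Matrix.mul_one]
      abel
    rw [e, Matrix.add_apply]
    exact (l1_dvd_mul _ _ _ hm' i j).add (hm i j)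
  · intro x
    show coo (γ (δ x)) = _
    rw [hc, hc', Units.val_mul, Matrix.map_mul, Matrix.mulVec_mulVec]

theorem l1_inv {d m : ℕ} {γ : L d ≃ₗ[ℝ] L d} (hγ : InGam d m γ) : InGam d m γ⁻¹ := by
  have hisom := fun x y => l1_isom hγ x y
  obtain ⟨hu, M, hM, hm, hc⟩ := hγ
  have hinv : ∀ x, γ (γ⁻¹ x) = x := fun x => LinearEquiv.apply_symm_apply γ x
  have hMM : M.val * M⁻¹.val = 1 := Units.mul_inv M
  have hMM' : M⁻¹.val * M.val = 1 := Units.inv_mul M
  refine ⟨?_, M⁻¹, ?_, ?_, ?_⟩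
  · intro p
    set y := γ⁻¹ (iota p) with hy
    have hJ : J y y = -1 := by
      rw [← hisom, hy, hinv, l1_J_iota]
    by_contra hneg
    push Not at hneg
    have hne : y.1 ≠ 0 := by
      intro h0
      rw [l1_J_self, h0] at hJ
      nlinarith [sq_nonneg ‖y.2.1‖, sq_nonneg ‖y.2.2‖]
    have hlt : y.1 < 0 := lt_of_le_of_ne hneg hne
    have hJ' : J (-y) (-y) = -1 := by
      rw [l1_J_self] at hJ ⊢
      simpa using hJ
    have h1 : iota (piP (-y)) = -y := l1_iota_piP _ hJ' (by simpa using hlt)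
    have h2 := hu (piP (-y))
    rw [h1, map_neg, hy, hinv] at h2
    have h3 := l1_iota_pos p
    have h4 : (-(iota p)).1 = -(iota p).1 := rfl
    rw [h4] at h2
    linarith
  · have ht : M⁻¹.val.transpose * M.val.transpose = 1 := by
      rw [← Matrix.transpose_mul, hMM, Matrix.transpose_one]
    calc M⁻¹.val.transpose * Jm d * M⁻¹.val
        = M⁻¹.val.transpose * (M.val.transpose * Jm d * M.val) * M⁻¹.val := by rw [hM]
      _ = (M⁻¹.val.transpose * M.val.transpose) * Jm d * (M.val * M⁻¹.val) := by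
          simp only [Matrix.mul_assoc]
      _ = Jm d := by rw [ht, hMM, Matrix.one_mul, Matrix.mul_one]
  · intro i j
    have e : M⁻¹.val - 1 = -(M⁻¹.val * (M.val - 1)) := by
      rw [Matrix.mul_sub, Matrix.mul_one, hMM']
      abel
    rw [e, Matrix.neg_apply]
    exact (l1_dvd_mul _ _ _ hm i j).neg_right
  · intro x
    have h1 : coo x = (M.val.map emb).mulVec (coo (γ⁻¹ x)) := by
      rw [← hc, hinv]
    rw [h1, Matrix.mulVec_mulVec, ← Matrix.map_mul, hMM', Matrix.map_one _ (map_zero emb)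
      (map_one emb), Matrix.one_mulVec]

theorem t_L1 : S_L1 := by
  intro d m _
  refine ⟨⟨{ carrier := {γ | InGam d m γ}
             mul_mem' := fun ha hb => l1_mul ha hb
             one_mem' := l1_one d m
             inv_mem' := fun ha => l1_inv ha }, fun γ => Iff.rfl⟩, fun γ hγ x y => l1_isom hγ x y⟩

end Pool.Agent.Helper473.LY
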