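/-
PROJECT LY (MP_dbccd7_gt, helper473): Lawson-Yau problem: theorem t_L2 : S_L2 (discreteness of the arithmetic group).
-/
import Pool.Agent.Helper473.LY.Stmts

set_option autoImplicit false

open scoped Manifold ContDiff Topology RealInnerProductSpace
open Module

namespace Pool.Agent.Helper473.LY

open Pool.Agent.H234R3

theorem l2_emb (z : ℤ√2) : emb z = z.re + z.im * √2 := by
  simp [emb, Zsqrtd.toReal]

/-- the conjugate embedding -/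
noncomputable def l2_cj : ℤ√2 →+* ℝ := emb.comp (starRingEnd (ℤ√2))

theorem l2_cj_apply (z : ℤ√2) : l2_cj z = z.re - z.im * √2 := by
  unfold l2_cj
  rw [RingHom.comp_apply, l2_emb, starRingEnd_apply]
  simp
  ring

theorem l2_sqrt : (0 : ℝ) < √2 ∧ √(2 : ℝ) ≤ 2 ∧ 1 ≤ √(2 : ℝ) ∧ √(2 : ℝ) * √2 = 2 := by
  have h : √(2 : ℝ) * √2 = 2 := Real.mul_self_sqrt (by norm_num)
  have h0 : (0 : ℝ) < √2 := by positivity
  refine ⟨h0, ?_, ?_, h⟩ <;> nlinarith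

/-- elements of `ℤ[√2]` with bounded conjugates -/
theorem l2_fin (C : ℝ) : {z : ℤ√2 | |emb z| ≤ C ∧ |l2_cj z| ≤ C}.Finite := by
  have hfin : ((Set.Icc (-⌈C⌉) ⌈C⌉ : Set ℤ) ×ˢ (Set.Icc (-⌈C⌉) ⌈C⌉ : Set ℤ)).Finite :=
    (Set.finite_Icc _ _).prod (Set.finite_Icc _ _)
  refine Set.Finite.of_injOn (f := fun z : ℤ√2 => (z.re, z.im)) ?_ ?_ hfin
  · intro z hz
    obtain ⟨h1, h2⟩ := hz
    rw [l2_emb, abs_le] at h1
    rw [l2_cj_apply, abs_le] at h2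
    obtain ⟨hs0, hs2, hs1, hss⟩ := l2_sqrt
    have ha : |(z.re : ℝ)| ≤ C := by
      rw [abs_le]
      constructor <;> linarith
    have hb' : |(z.im : ℝ) * √2| ≤ C := by
      rw [abs_le]
      constructor <;> linarith
    have hb : |(z.im : ℝ)| ≤ C := by
      rw [abs_mul, abs_of_pos hs0] at hb'
      nlinarith [abs_nonneg (z.im : ℝ)]
    have key : ∀ n : ℤ, |(n : ℝ)| ≤ C → n ∈ Set.Icc (-⌈C⌉) ⌈C⌉ := by
      intro n hn
      have h3 : |(n : ℝ)| ≤ (⌈C⌉ : ℝ) := hn.trans (Int.le_ceil C)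
      rw [abs_le] at h3
      exact ⟨by exact_mod_cast h3.1, by exact_mod_cast h3.2⟩
    exact ⟨key _ ha, key _ hb⟩
  · intro z _ w _ h
    have h' := Prod.mk.inj h
    exact Zsqrtd.ext h'.1 h'.2

theorem l2_finM {ι : Type} [Fintype ι] {S : Set (ℤ√2)} (hS : S.Finite) :
    {M : Matrix ι ι (ℤ√2) | ∀ i j, M i j ∈ S}.Finite := by
  have h1 : (Set.univ.pi fun _ : ι => (Set.univ.pi fun _ : ι => S)).Finite :=
    Set.Finite.pi fun _ => Set.Finite.pi fun _ => hS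
  refine Set.Finite.subset h1 ?_
  intro M hM i _ j _
  exact hM i j

/-- the bilinear form in the coordinates -/
theorem l2_form {d : ℕ} (φ : ℤ√2 →+* ℝ) (x y : Idx d → ℝ) :
    x ⬝ᵥ ((Jm d).map φ).mulVec y = φ (-⟨0, 1⟩) * (x (Sum.inl ()) * y (Sum.inl ())) +
      ∑ i : Fin d ⊕ Fin 2, x (Sum.inr i) * y (Sum.inr i) := by
  have h : (Jm d).map φ = Matrix.diagonal fun i : Idx d => φ (match i with
    | Sum.inl _ => -⟨0, 1⟩
    | Sum.inr _ => 1) := by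
    unfold Jm
    rw [Matrix.diagonal_map (map_zero φ)]
    rfl
  rw [h]
  simp only [dotProduct, Matrix.mulVec_diagonal]
  rw [Fintype.sum_sum_type]
  congr 1
  · simp only [Finset.univ_unique, Finset.sum_singleton]
    ring_nf
  · refine Finset.sum_congr rfl fun i _ => ?_
    rw [map_one, one_mul]

theorem l2_inv {d : ℕ} (φ : ℤ√2 →+* ℝ) {M : Matrix (Idx d) (Idx d) (ℤ√2)}
    (hM : M.transpose * Jm d * M = Jm d) (x y : Idx d → ℝ) :
    ((M.map φ).mulVec x) ⬝ᵥ ((Jm d).map φ).mulVec ((M.map φ).mulVec y) =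
      x ⬝ᵥ ((Jm d).map φ).mulVec y := by
  have h : (M.map φ).transpose * (Jm d).map φ * M.map φ = (Jm d).map φ := by
    have := congrArg (fun A : Matrix (Idx d) (Idx d) (ℤ√2) => A.map φ) hM
    rw [Matrix.map_mul, Matrix.map_mul, Matrix.transpose_map] at this
    exact this
  conv_rhs => rw [← h]
  rw [← Matrix.mulVec_mulVec, ← Matrix.mulVec_mulVec, Matrix.dotProduct_mulVec x,
    Matrix.vecMul_transpose]

theorem l2_core {ι : Type} [Fintype ι] (a q0 : ℝ) (u q : ι → ℝ)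
    (hq : √2 * q0 ^ 2 = 1 + ∑ i, q i ^ 2) :
    ∑ i, u i ^ 2 ≤ (2 * (√2 * q0 ^ 2) - 1) *
      ((-√2 * a ^ 2 + ∑ i, u i ^ 2) + 2 * (-√2 * (a * q0) + ∑ i, u i * q i) ^ 2) := by
  have hs := Finset.sum_mul_sq_le_sq_mul_sq Finset.univ u q
  obtain ⟨U, hU⟩ : ∃ U : ℝ, U = ∑ i, u i ^ 2 := ⟨_, rfl⟩
  obtain ⟨k, hk⟩ : ∃ k : ℝ, k = ∑ i, q i ^ 2 := ⟨_, rfl⟩
  obtain ⟨s, hss⟩ : ∃ s : ℝ, s = ∑ i, u i * q i := ⟨_, rfl⟩
  obtain ⟨w, hw⟩ : ∃ w : ℝ, w = √2 := ⟨_, rfl⟩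
  have hw0 : 0 < w := by rw [hw]; exact l2_sqrt.1
  rw [← hU, ← hk, ← hss] at hs
  rw [← hk, ← hw] at hq
  rw [← hU, ← hss, ← hw]
  have hk' : k = w * q0 ^ 2 - 1 := by linarith
  have h1 : 0 ≤ w * (2 * q0 * s - (2 * (w * q0 ^ 2) - 1) * a) ^ 2 := by positivity
  have h2 : (2 * (w * q0 ^ 2) - 1) *
      ((-w * a ^ 2 + U) + 2 * (-w * (a * q0) + s) ^ 2) - U =
      2 * (U * k - s ^ 2) + w * (2 * q0 * s - (2 * (w * q0 ^ 2) - 1) * a) ^ 2 := by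
    rw [hk']
    ring
  linarith

theorem l2_sq {d : ℕ} (p : P d) : √2 * (coo (iota p) (Sum.inl ())) ^ 2 = (iota p).1 ^ 2 ∧
    (iota p).1 ^ 2 = 1 + ∑ i : Fin d ⊕ Fin 2, coo (iota p) (Sum.inr i) ^ 2 := by
  constructor
  · simp only [coo]
    rw [div_pow, Real.sq_sqrt (Real.sqrt_nonneg _)]
    have := l2_sqrt.1.ne'
    field_simp
  · rw [Fintype.sum_sum_type]
    simp only [coo, iota]
    have h1 : ∑ i : Fin d, ((√(1 + ‖p.2‖ ^ 2) • p.1) i) ^ 2 = (1 + ‖p.2‖ ^ 2) * ‖p.1‖ ^ 2 := by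
      rw [← EuclideanSpace.real_norm_sq_eq, norm_smul, mul_pow, Real.norm_eq_abs, sq_abs,
        Real.sq_sqrt (by positivity)]
    have h2 : ∑ i : Fin 2, (p.2 i) ^ 2 = ‖p.2‖ ^ 2 := (EuclideanSpace.real_norm_sq_eq _).symm
    rw [h1, h2, mul_pow, Real.sq_sqrt (by positivity), Real.sq_sqrt (by positivity)]
    ring

theorem l2_coo_inj {d : ℕ} {x y : L d} (h : coo x = coo y) : x = y := by
  have hpos : √(√(2 : ℝ)) ≠ 0 := (Real.sqrt_pos.2 l2_sqrt.1).ne'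
  refine Prod.ext ?_ (Prod.ext ?_ ?_)
  · have := congrFun h (Sum.inl ())
    simp only [coo] at this
    exact (div_left_inj' hpos).1 this
  · ext i
    exact congrFun h (Sum.inr (Sum.inl i))
  · ext i
    exact congrFun h (Sum.inr (Sum.inr i))

theorem l2_bound {d : ℕ} (R : ℝ) {M : Matrix (Idx d) (Idx d) (ℤ√2)}
    (hM : M.transpose * Jm d * M = Jm d) (p : P d) (hp : (iota p).1 ≤ R) (q0 : ℝ)
    (hq : q0 = (M.map emb).mulVec (coo (iota p)) (Sum.inl ())) (hqR : √2 * q0 ^ 2 ≤ R ^ 2)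
    (j : Idx d) : (∀ i, (M.map emb) i j ^ 2 ≤ 2 * R ^ 2 * (2 + 8 * R ^ 2) + 2) := by
  classical
  obtain ⟨hs0, hs2, hs1, hss⟩ := l2_sqrt
  have hemb : emb (-⟨0, 1⟩ : ℤ√2) = -√2 := by
    rw [map_neg, l2_emb]
    simp
  obtain ⟨hP1, hP2⟩ := l2_sq p
  have hp0 : 0 ≤ (iota p).1 := by
    simp only [iota]
    positivity
  have hpR : (iota p).1 ^ 2 ≤ R ^ 2 := pow_le_pow_left₀ hp0 hp 2
  obtain ⟨Pc, hPc⟩ : ∃ Pc : Idx d → ℝ, Pc = coo (iota p) := ⟨_, rfl⟩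
  rw [← hPc] at hP1 hP2 hq
  obtain ⟨Q, hQ⟩ : ∃ Q : Idx d → ℝ, Q = (M.map emb).mulVec Pc := ⟨_, rfl⟩
  rw [← hQ] at hq
  -- the form at `P`
  have hPP : Pc ⬝ᵥ ((Jm d).map emb).mulVec Pc = -1 := by
    rw [l2_form, hemb]
    have : ∑ i : Fin d ⊕ Fin 2, Pc (Sum.inr i) * Pc (Sum.inr i) = ∑ i : Fin d ⊕ Fin 2, Pc (Sum.inr i) ^ 2 :=
      Finset.sum_congr rfl fun i _ => by ring
    rw [this]
    linarith [hP1, hP2, pow_two (Pc (Sum.inl ()))]
  have hQQ : Q ⬝ᵥ ((Jm d).map emb).mulVec Q = -1 := by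
    rw [hQ, l2_inv emb hM, hPP]
  have hq1 : √2 * q0 ^ 2 = 1 + ∑ i : Fin d ⊕ Fin 2, Q (Sum.inr i) ^ 2 := by
    rw [l2_form, hemb, ← hq] at hQQ
    have : ∑ i : Fin d ⊕ Fin 2, Q (Sum.inr i) * Q (Sum.inr i) = ∑ i : Fin d ⊕ Fin 2, Q (Sum.inr i) ^ 2 :=
      Finset.sum_congr rfl fun i _ => by ring
    rw [this] at hQQ
    linarith [pow_two q0]
  -- the columns
  obtain ⟨y, hy⟩ : ∃ y : Idx d → ℝ, y = (M.map emb).mulVec (Pi.single j 1) := ⟨_, rfl⟩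
  have hyi : ∀ i, y i = (M.map emb) i j := by
    intro i
    rw [hy, Matrix.mulVec_single_one]
    rfl
  have hyy : y ⬝ᵥ ((Jm d).map emb).mulVec y =
      (Pi.single j 1 : Idx d → ℝ) ⬝ᵥ ((Jm d).map emb).mulVec (Pi.single j 1) := by
    rw [hy, l2_inv emb hM]
  have hyQ : y ⬝ᵥ ((Jm d).map emb).mulVec Q =
      (Pi.single j 1 : Idx d → ℝ) ⬝ᵥ ((Jm d).map emb).mulVec Pc := by
    rw [hy, hQ, l2_inv emb hM]
  -- the coordinate computations
  have hbd : |(Pi.single j 1 : Idx d → ℝ) ⬝ᵥ ((Jm d).map emb).mulVec (Pi.single j 1)| ≤ 2 ∧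
      ((Pi.single j 1 : Idx d → ℝ) ⬝ᵥ ((Jm d).map emb).mulVec Pc) ^ 2 ≤ 4 * R ^ 2 := by
    rw [l2_form, l2_form, hemb]
    rcases j with j | j
    · have hz : ∀ i : Fin d ⊕ Fin 2, (Pi.single (Sum.inl j) 1 : Idx d → ℝ) (Sum.inr i) = 0 := by
        intro i
        exact Pi.single_eq_of_ne (by simp) _
      have ho : (Pi.single (Sum.inl j) 1 : Idx d → ℝ) (Sum.inl ()) = 1 := Pi.single_eq_same _ _
      simp only [hz, ho, zero_mul, Finset.sum_const_zero, add_zero, one_mul, mul_one]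
      constructor
      · rw [abs_neg, abs_of_pos hs0]
        exact hs2
      · have hS : 0 ≤ ∑ i : Fin d ⊕ Fin 2, Pc (Sum.inr i) ^ 2 := Finset.sum_nonneg fun i _ => sq_nonneg _
        have h1 : (-√2 * Pc (Sum.inl ())) ^ 2 = √2 * (√2 * Pc (Sum.inl ()) ^ 2) := by ring
        rw [h1, hP1]
        nlinarith [sq_nonneg R, sq_nonneg (iota p).1]
    · have hz : (Pi.single (Sum.inr j) 1 : Idx d → ℝ) (Sum.inl ()) = 0 :=
        Pi.single_eq_of_ne (by simp) _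
      have ho : ∀ v : Idx d → ℝ, ∑ i : Fin d ⊕ Fin 2, (Pi.single (Sum.inr j) 1 : Idx d → ℝ) (Sum.inr i) * v (Sum.inr i) =
          v (Sum.inr j) := by
        intro v
        rw [Finset.sum_eq_single j]
        · rw [Pi.single_eq_same, one_mul]
        · intro b _ hb
          rw [Pi.single_eq_of_ne (by simpa using hb), zero_mul]
        · intro hj
          exact absurd (Finset.mem_univ j) hj
      rw [ho, ho, hz, Pi.single_eq_same]
      simp only [zero_mul, mul_zero, zero_add]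
      constructor
      · norm_num
      · have h1 : Pc (Sum.inr j) ^ 2 ≤ ∑ i : Fin d ⊕ Fin 2, Pc (Sum.inr i) ^ 2 :=
          Finset.single_le_sum (f := fun i : Fin d ⊕ Fin 2 => Pc (Sum.inr i) ^ 2)
            (fun i _ => sq_nonneg _) (Finset.mem_univ j)
        nlinarith [sq_nonneg R]
  obtain ⟨D1, hD1⟩ : ∃ D1 : ℝ, D1 = (Pi.single j 1 : Idx d → ℝ) ⬝ᵥ ((Jm d).map emb).mulVec (Pi.single j 1) :=
    ⟨_, rfl⟩
  obtain ⟨D2, hD2⟩ : ∃ D2 : ℝ, D2 = (Pi.single j 1 : Idx d → ℝ) ⬝ᵥ ((Jm d).map emb).mulVec Pc :=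
    ⟨_, rfl⟩
  rw [← hD1, ← hD2] at hbd
  rw [← hD1] at hyy
  rw [← hD2] at hyQ
  rw [l2_form, hemb] at hyy hyQ
  have hcore := l2_core (y (Sum.inl ())) q0 (fun i : Fin d ⊕ Fin 2 => y (Sum.inr i))
    (fun i => Q (Sum.inr i)) hq1
  have hsq : ∑ i : Fin d ⊕ Fin 2, y (Sum.inr i) * y (Sum.inr i) = ∑ i : Fin d ⊕ Fin 2, y (Sum.inr i) ^ 2 :=
    Finset.sum_congr rfl fun i _ => by ring
  rw [hsq] at hyy
  rw [← hq] at hyQ
  rw [hyQ] at hcore
  have hyy' : -√2 * y (Sum.inl ()) ^ 2 + ∑ i : Fin d ⊕ Fin 2, y (Sum.inr i) ^ 2 = D1 := by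
    rw [← hyy]
    ring
  rw [hyy'] at hcore
  have hD1' := abs_le.1 hbd.1
  have hK1 : 1 ≤ √2 * q0 ^ 2 := by
    rw [hq1]
    have : 0 ≤ ∑ i : Fin d ⊕ Fin 2, Q (Sum.inr i) ^ 2 := Finset.sum_nonneg fun i _ => sq_nonneg _
    linarith
  have hU : ∑ i : Fin d ⊕ Fin 2, y (Sum.inr i) ^ 2 ≤ 2 * R ^ 2 * (2 + 8 * R ^ 2) := by
    refine hcore.trans ?_
    calc (2 * (√2 * q0 ^ 2) - 1) * (D1 + 2 * D2 ^ 2)
        ≤ (2 * (√2 * q0 ^ 2) - 1) * (2 + 8 * R ^ 2) := by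
          apply mul_le_mul_of_nonneg_left _ (by linarith)
          linarith [hbd.2, hD1'.2]
      _ ≤ 2 * R ^ 2 * (2 + 8 * R ^ 2) := by
          apply mul_le_mul_of_nonneg_right _ (by positivity)
          linarith
  intro i
  rw [← hyi i]
  rcases i with i | i
  · have h0 : y (Sum.inl ()) ^ 2 ≤ √2 * y (Sum.inl ()) ^ 2 := by nlinarith [sq_nonneg (y (Sum.inl ()))]
    have : i = () := rfl
    rw [this]
    linarith [hD1'.1]
  · have h1 : y (Sum.inr i) ^ 2 ≤ ∑ i : Fin d ⊕ Fin 2, y (Sum.inr i) ^ 2 :=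
      Finset.single_le_sum (f := fun i : Fin d ⊕ Fin 2 => y (Sum.inr i) ^ 2)
        (fun i _ => sq_nonneg _) (Finset.mem_univ i)
    linarith

theorem l2_boundc {d : ℕ} {M : Matrix (Idx d) (Idx d) (ℤ√2)}
    (hM : M.transpose * Jm d * M = Jm d) (i j : Idx d) : (M.map l2_cj) i j ^ 2 ≤ 2 := by
  classical
  obtain ⟨hs0, hs2, hs1, hss⟩ := l2_sqrt
  have hemb : l2_cj (-⟨0, 1⟩ : ℤ√2) = √2 := by
    rw [map_neg, l2_cj_apply]
    simp
  obtain ⟨y, hy⟩ : ∃ y : Idx d → ℝ, y = (M.map l2_cj).mulVec (Pi.single j 1) := ⟨_, rfl⟩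
  have hyi : ∀ i, y i = (M.map l2_cj) i j := by
    intro i
    rw [hy, Matrix.mulVec_single_one]
    rfl
  have hyy : y ⬝ᵥ ((Jm d).map l2_cj).mulVec y =
      (Pi.single j 1 : Idx d → ℝ) ⬝ᵥ ((Jm d).map l2_cj).mulVec (Pi.single j 1) := by
    rw [hy, l2_inv l2_cj hM]
  have hbd : (Pi.single j 1 : Idx d → ℝ) ⬝ᵥ ((Jm d).map l2_cj).mulVec (Pi.single j 1) ≤ 2 := by
    rw [l2_form, hemb]
    rcases j with j | j
    · have hz : ∀ i : Fin d ⊕ Fin 2, (Pi.single (Sum.inl j) 1 : Idx d → ℝ) (Sum.inr i) = 0 := by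
        intro i
        exact Pi.single_eq_of_ne (by simp) _
      have ho : (Pi.single (Sum.inl j) 1 : Idx d → ℝ) (Sum.inl ()) = 1 := Pi.single_eq_same _ _
      simp only [hz, ho, zero_mul, Finset.sum_const_zero, add_zero, mul_one]
      exact hs2
    · have hz : (Pi.single (Sum.inr j) 1 : Idx d → ℝ) (Sum.inl ()) = 0 :=
        Pi.single_eq_of_ne (by simp) _
      have ho : ∀ v : Idx d → ℝ, ∑ i : Fin d ⊕ Fin 2, (Pi.single (Sum.inr j) 1 : Idx d → ℝ) (Sum.inr i) * v (Sum.inr i) =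
          v (Sum.inr j) := by
        intro v
        rw [Finset.sum_eq_single j]
        · rw [Pi.single_eq_same, one_mul]
        · intro b _ hb
          rw [Pi.single_eq_of_ne (by simpa using hb), zero_mul]
        · intro hj
          exact absurd (Finset.mem_univ j) hj
      rw [ho, hz, Pi.single_eq_same]
      norm_num
  rw [← hyy, l2_form, hemb] at hbd
  have hsq : ∑ i : Fin d ⊕ Fin 2, y (Sum.inr i) * y (Sum.inr i) = ∑ i : Fin d ⊕ Fin 2, y (Sum.inr i) ^ 2 :=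
    Finset.sum_congr rfl fun i _ => by ring
  rw [hsq] at hbd
  have hS : 0 ≤ ∑ i : Fin d ⊕ Fin 2, y (Sum.inr i) ^ 2 := Finset.sum_nonneg fun i _ => sq_nonneg _
  rw [← hyi i]
  rcases i with i | i
  · have h0 : y (Sum.inl ()) ^ 2 ≤ √2 * (y (Sum.inl ()) * y (Sum.inl ())) := by
      nlinarith [sq_nonneg (y (Sum.inl ()))]
    have : i = () := rfl
    rw [this]
    linarith
  · have h1 : y (Sum.inr i) ^ 2 ≤ ∑ i : Fin d ⊕ Fin 2, y (Sum.inr i) ^ 2 :=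
      Finset.single_le_sum (f := fun i : Fin d ⊕ Fin 2 => y (Sum.inr i) ^ 2)
        (fun i _ => sq_nonneg _) (Finset.mem_univ i)
    have h2 : 0 ≤ √2 * (y (Sum.inl ()) * y (Sum.inl ())) := mul_nonneg hs0.le (mul_self_nonneg _)
    linarith

theorem t_L2 : S_L2 := by
  classical
  intro d m R
  obtain ⟨hs0, hs2, hs1, hss⟩ := l2_sqrt
  obtain ⟨B, hB⟩ : ∃ B : ℝ, B = 2 * R ^ 2 * (2 + 8 * R ^ 2) + 2 := ⟨_, rfl⟩
  have hB2 : 2 ≤ B := by
    rw [hB]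
    nlinarith [mul_nonneg (sq_nonneg R) (by positivity : (0 : ℝ) ≤ 2 + 8 * R ^ 2)]
  have hfin := l2_finM (ι := Idx d) (l2_fin B)
  refine Set.Finite.of_injOn (f := fun γ : L d ≃ₗ[ℝ] L d =>
    if h : InGam d m γ then (Classical.choose h.mat).val else 0) ?_ ?_ hfin
  · intro γ hγ
    obtain ⟨hG, p, hp1, hp2⟩ := hγ
    simp only [dif_pos hG]
    obtain ⟨hM1, _, hM3⟩ := Classical.choose_spec hG.mat
    obtain ⟨M, hMdef⟩ : ∃ M : Matrix (Idx d) (Idx d) (ℤ√2), M = (Classical.choose hG.mat).val := ⟨_, rfl⟩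
    rw [← hMdef] at hM1 hM3 ⊢
    have hq0 : 0 < (γ (iota p)).1 := hG.up p
    have hqR : √2 * ((M.map emb).mulVec (coo (iota p)) (Sum.inl ())) ^ 2 ≤ R ^ 2 := by
      rw [← hM3]
      simp only [coo]
      rw [div_pow, Real.sq_sqrt (Real.sqrt_nonneg _)]
      have h1 : √2 * ((γ (iota p)).1 ^ 2 / √2) = (γ (iota p)).1 ^ 2 := by
        field_simp
      rw [h1]
      exact pow_le_pow_left₀ hq0.le hp2 2
    intro i j
    have hb1 := l2_bound R hM1 p hp1 _ rfl hqR j i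
    have hb2 := l2_boundc hM1 i j
    rw [← hB] at hb1
    rw [Matrix.map_apply] at hb1 hb2
    constructor
    · exact abs_le_of_sq_le_sq (by nlinarith) (by linarith)
    · exact abs_le_of_sq_le_sq (by nlinarith) (by linarith)
  · intro γ hγ δ hδ h
    have hG := hγ.1
    have hD := hδ.1
    simp only [dif_pos hG, dif_pos hD] at h
    obtain ⟨_, _, h1⟩ := Classical.choose_spec hG.mat
    obtain ⟨_, _, h2⟩ := Classical.choose_spec hD.mat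
    apply LinearEquiv.ext
    intro x
    apply l2_coo_inj
    rw [h1 x, h2 x, h]

end Pool.Agent.Helper473.LY
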