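import Pool.Agent.Helper473.LY.Stmts

set_option autoImplicit false

open scoped Manifold ContDiff Topology RealInnerProductSpace
open Module

namespace Pool.Agent.Helper473.LY

open Pool.Agent.H234R3

open Matrix in
open scoped MatrixOrder in
/-- A matrix preserving a positive definite form has trace of absolute value at most the dimension,
with equality only for the identity. -/
theorem l3_trace {n : Type} [Fintype n] [DecidableEq n] (G A : Matrix n n ℝ) (hG : G.PosDef)
    (h : Aᵀ * G * A = G) :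
    |A.trace| ≤ Fintype.card n ∧ (A.trace = Fintype.card n → A = 1) := by
  obtain ⟨B, hB, rfl⟩ := CStarAlgebra.isStrictlyPositive_iff_eq_star_mul_self.mp
    hG.isStrictlyPositive
  have hstar : star B = Bᵀ := by
    rw [Matrix.star_eq_conjTranspose, Matrix.conjTranspose_eq_transpose_of_trivial]
  rw [hstar] at h
  have hBd : IsUnit B.det := (Matrix.isUnit_iff_isUnit_det B).1 hB
  have hBi : B * B⁻¹ = 1 := Matrix.mul_nonsing_inv B hBd
  have hiB : B⁻¹ * B = 1 := Matrix.nonsing_inv_mul B hBd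
  obtain ⟨O, hO⟩ : ∃ O, O = B * A * B⁻¹ := ⟨_, rfl⟩
  have hO1 : Oᵀ * O = 1 := by
    rw [hO, Matrix.transpose_mul, Matrix.transpose_mul]
    have h2 : (B⁻¹)ᵀ * (Aᵀ * Bᵀ) * (B * A * B⁻¹) = (B⁻¹)ᵀ * (Aᵀ * (Bᵀ * B) * A) * B⁻¹ := by
      simp only [Matrix.mul_assoc]
    rw [h2, h]
    have h3 : (B⁻¹)ᵀ * (Bᵀ * B) * B⁻¹ = (B * B⁻¹)ᵀ * (B * B⁻¹) := by
      rw [Matrix.transpose_mul]; simp only [Matrix.mul_assoc]
    rw [h3, hBi]; simp
  have htr : O.trace = A.trace := by
    rw [hO, Matrix.trace_mul_comm, ← Matrix.mul_assoc, hiB, Matrix.one_mul]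
  have hct : ∀ X : Matrix n n ℝ, Xᴴ = Xᵀ := fun X =>
    Matrix.conjTranspose_eq_transpose_of_trivial X
  have hP : ((O - 1)ᴴ * (O - 1)).trace = 2 * Fintype.card n - 2 * A.trace := by
    rw [hct, Matrix.transpose_sub, Matrix.transpose_one, Matrix.sub_mul, Matrix.mul_sub, hO1,
      Matrix.mul_one, Matrix.one_mul]
    simp only [Matrix.trace_sub, Matrix.trace_one, Matrix.trace_transpose, htr]
    ring
  have hM : ((O + 1)ᴴ * (O + 1)).trace = 2 * Fintype.card n + 2 * A.trace := by
    rw [hct, Matrix.transpose_add, Matrix.transpose_one, Matrix.add_mul, Matrix.mul_add, hO1,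
      Matrix.mul_one, Matrix.one_mul]
    simp only [Matrix.trace_add, Matrix.trace_one, Matrix.trace_transpose, htr]
    ring
  have hP0 := (Matrix.posSemidef_conjTranspose_mul_self (O - 1)).trace_nonneg
  have hM0 := (Matrix.posSemidef_conjTranspose_mul_self (O + 1)).trace_nonneg
  rw [hP] at hP0
  rw [hM] at hM0
  refine ⟨abs_le.2 ⟨by linarith, by linarith⟩, fun he => ?_⟩
  rw [he] at hP
  have hz : ((O - 1)ᴴ * (O - 1)).trace = 0 := by rw [hP]; ring
  rw [Matrix.trace_conjTranspose_mul_self_eq_zero_iff] at hz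
  have hO2 : O = 1 := by rwa [sub_eq_zero] at hz
  have h5 : B⁻¹ * O * B = A := by
    rw [hO]
    calc B⁻¹ * (B * A * B⁻¹) * B = (B⁻¹ * B) * A * (B⁻¹ * B) := by simp only [Matrix.mul_assoc]
      _ = A := by rw [hiB]; simp
  rw [← h5, hO2, Matrix.mul_one, hiB]

/-- The diagonal of the real form. -/
noncomputable def l3_dg {ι : Type} (c : ℝ) : Unit ⊕ ι → ℝ
  | Sum.inl _ => -c
  | Sum.inr _ => 1

/-- The positive form attached to a timelike vector. -/
noncomputable def l3_G {ι : Type} [DecidableEq ι] (c : ℝ) (x : Unit ⊕ ι → ℝ) :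
    Matrix (Unit ⊕ ι) (Unit ⊕ ι) ℝ :=
  Matrix.diagonal (l3_dg c) + (2:ℝ) • Matrix.vecMulVec (fun i => l3_dg c i * x i)
    (fun i => l3_dg c i * x i)

theorem l3_G_posDef {ι : Type} [Fintype ι] [DecidableEq ι] (c : ℝ) (hc : 0 < c)
    (x : Unit ⊕ ι → ℝ) (hx : ∑ i, l3_dg c i * x i ^ 2 = -1) : (l3_G c x).PosDef := by
  refine Matrix.PosDef.of_dotProduct_mulVec_pos ?_ ?_
  · unfold Matrix.IsHermitian
    rw [Matrix.conjTranspose_eq_transpose_of_trivial]
    unfold l3_G
    rw [Matrix.transpose_add, Matrix.diagonal_transpose, Matrix.transpose_smul]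
    congr 2
    ext i j
    simp [Matrix.vecMulVec_apply, mul_comm]
  · intro y hy
    have hform : star y ⬝ᵥ (l3_G c x).mulVec y
        = ∑ i, l3_dg c i * y i ^ 2 + 2 * (∑ i, l3_dg c i * x i * y i) ^ 2 := by
      unfold l3_G
      rw [Matrix.add_mulVec, dotProduct_add, Matrix.smul_mulVec, dotProduct_smul,
        Matrix.vecMulVec_mulVec, star_trivial]
      congr 1
      · simp only [dotProduct, Matrix.mulVec_diagonal]
        exact Finset.sum_congr rfl fun i _ => by ring
      · simp only [dotProduct, smul_eq_mul, Pi.smul_apply, MulOpposite.smul_eq_mul_unop,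
          MulOpposite.unop_op]
        rw [sq, Finset.sum_mul]
        congr 1
        rw [Finset.sum_congr rfl]
        intro i _
        ring
    rw [hform]
    simp only [Fintype.sum_sum_type, l3_dg, Finset.univ_unique, Finset.sum_singleton,
      PUnit.default_eq_unit, one_mul] at hx ⊢
    obtain ⟨t, ht⟩ : ∃ t, t = x (Sum.inl ()) := ⟨_, rfl⟩
    obtain ⟨a, ha⟩ : ∃ a, a = y (Sum.inl ()) := ⟨_, rfl⟩
    obtain ⟨V, hV⟩ : ∃ V, V = ∑ i : ι, x (Sum.inr i) ^ 2 := ⟨_, rfl⟩
    obtain ⟨U, hU⟩ : ∃ U, U = ∑ i : ι, y (Sum.inr i) ^ 2 := ⟨_, rfl⟩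
    obtain ⟨b, hb⟩ : ∃ b, b = ∑ i : ι, x (Sum.inr i) * y (Sum.inr i) := ⟨_, rfl⟩
    rw [← ht, ← hV] at hx
    rw [← ht, ← ha, ← hU, ← hb]
    have hV0 : 0 ≤ V := hV ▸ Finset.sum_nonneg fun i _ => sq_nonneg _
    have hU0 : 0 ≤ U := hU ▸ Finset.sum_nonneg fun i _ => sq_nonneg _
    have hcs : b ^ 2 ≤ V * U := by
      rw [hb, hV, hU]
      exact Finset.sum_mul_sq_le_sq_mul_sq _ _ _
    have ht2 : c * t ^ 2 = 1 + V := by linarith
    have key : (1 + 2 * V) * (-c * a ^ 2 + U + 2 * (-c * t * a + b) ^ 2)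
        = c * ((1 + 2 * V) * a - 2 * t * b) ^ 2 + U + 2 * (V * U - b ^ 2) := by
      have h6 : (c * t ^ 2) = 1 + V := ht2
      linear_combination (2 * (1 + 2 * V) * c * a ^ 2 - 4 * b ^ 2) * h6
    have hpos : 0 < c * ((1 + 2 * V) * a - 2 * t * b) ^ 2 + U + 2 * (V * U - b ^ 2) := by
      rcases hU0.lt_or_eq with hU1 | hU1
      · have := sq_nonneg ((1 + 2 * V) * a - 2 * t * b)
        have := mul_nonneg hc.le this
        linarith
      · have hb0 : b = 0 := by
          rw [← hU1, mul_zero] at hcs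
          exact pow_eq_zero_iff (two_ne_zero) |>.1 (le_antisymm hcs (sq_nonneg b))
        have ha0 : a ≠ 0 := by
          intro h0
          apply hy
          funext i
          rcases i with i | i
          · simpa [ha] using h0
          · have h7 := (Finset.sum_eq_zero_iff_of_nonneg (fun i _ => sq_nonneg _)).1
              (hU.symm.trans hU1.symm) i (Finset.mem_univ i)
            simpa using h7
        rw [← hU1, hb0]
        have : 0 < (1 + 2 * V) * a - 2 * t * 0 ∨ (1 + 2 * V) * a - 2 * t * 0 < 0 := by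
          rcases lt_or_gt_of_ne ha0 with h8 | h8
          · right; nlinarith
          · left; nlinarith
        have h9 : 0 < ((1 + 2 * V) * a - 2 * t * 0) ^ 2 := by
          rcases this with h | h
          · positivity
          · nlinarith
        nlinarith [mul_pos hc h9]
    rw [← key] at hpos
    exact (mul_pos_iff_of_pos_left (by linarith)).1 hpos

theorem l3_G_pres {ι : Type} [Fintype ι] [DecidableEq ι] (c : ℝ)
    (x : Unit ⊕ ι → ℝ) (A : Matrix (Unit ⊕ ι) (Unit ⊕ ι) ℝ)
    (hA : A.transpose * Matrix.diagonal (l3_dg c) * A = Matrix.diagonal (l3_dg c))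
    (hx : A.mulVec x = x) : A.transpose * l3_G c x * A = l3_G c x := by
  have hD : (fun i => l3_dg c i * x i) = (Matrix.diagonal (l3_dg c)).mulVec x := by
    funext i; rw [Matrix.mulVec_diagonal]
  have h1 : A.transpose.mulVec ((Matrix.diagonal (l3_dg c)).mulVec x)
      = (Matrix.diagonal (l3_dg c)).mulVec x := by
    conv_lhs => rw [← hx]
    rw [Matrix.mulVec_mulVec, Matrix.mulVec_mulVec, hA]
  unfold l3_G
  rw [hD]
  generalize hw : (Matrix.diagonal (l3_dg c)).mulVec x = w at h1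
  rw [Matrix.mul_add, Matrix.add_mul, hA, Matrix.mul_smul, Matrix.smul_mul,
    Matrix.mul_vecMulVec, Matrix.vecMulVec_mul, h1, ← Matrix.mulVec_transpose, h1]

theorem l3_emb (a : ℤ√2) : emb a = a.re + a.im * √2 := by
  simp [emb, Zsqrtd.toReal, Zsqrtd.lift]

/-- The other embedding. -/
noncomputable def l3_emb' : ℤ√2 →+* ℝ := emb.comp (starRingEnd (ℤ√2))

theorem l3_emb'_apply (a : ℤ√2) : l3_emb' a = a.re - a.im * √2 := by
  simp [l3_emb', l3_emb, starRingEnd_apply, Zsqrtd.re_star, Zsqrtd.im_star]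
  ring

theorem l3_zero (b : ℤ√2) (h1 : |emb b| < 1) (h2 : |l3_emb' b| < 1) : b = 0 := by
  have h3 : ((b.norm : ℤ) : ℝ) = emb b * l3_emb' b := by
    rw [l3_emb, l3_emb'_apply, Zsqrtd.norm_def]
    push_cast
    have : √2 * √2 = (2:ℝ) := Real.mul_self_sqrt (by norm_num)
    linear_combination (b.im : ℝ) ^ 2 * this
  have h4 : |((b.norm : ℤ) : ℝ)| < 1 := by
    rw [h3, abs_mul]
    exact mul_lt_one_of_nonneg_of_lt_one_left (abs_nonneg _) h1 h2.le
  have h5 : b.norm = 0 := by
    rw [← Int.cast_abs] at h4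
    have : |b.norm| < 1 := by exact_mod_cast h4
    exact Int.abs_lt_one_iff.1 this
  refine (Zsqrtd.norm_eq_zero ?_ b).1 h5
  intro n hn
  have h6 : n < 2 := by nlinarith
  have h7 : -2 < n := by nlinarith
  interval_cases n <;> omega

theorem l3_coo_inj {d : ℕ} (x y : L d) (h : coo x = coo y) : x = y := by
  have h0 := congrFun h (Sum.inl ())
  have hs : √(√2) ≠ (0:ℝ) := by positivity
  simp only [coo] at h0
  rw [div_left_inj' hs] at h0
  refine Prod.ext h0 (Prod.ext ?_ ?_)
  · ext i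
    exact congrFun h (Sum.inr (Sum.inl i))
  · ext i
    exact congrFun h (Sum.inr (Sum.inr i))

theorem l3_coo_form {d : ℕ} (p : P d) :
    ∑ i, l3_dg (√2) i * coo (iota p) i ^ 2 = -1 := by
  have hs : (√(√2)) ^ 2 = √2 := Real.sq_sqrt (by positivity)
  have hs0 : √2 ≠ (0:ℝ) := by positivity
  have h1 : (√(1 + ‖p.2‖ ^ 2)) ^ 2 = 1 + ‖p.2‖ ^ 2 := Real.sq_sqrt (by positivity)
  have h2 : (√(1 + ‖p.1‖ ^ 2)) ^ 2 = 1 + ‖p.1‖ ^ 2 := Real.sq_sqrt (by positivity)
  have h3 : ∑ i, (p.1 i) ^ 2 = ‖p.1‖ ^ 2 := by rw [EuclideanSpace.real_norm_sq_eq]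
  have h4 : ∑ i, (p.2 i) ^ 2 = ‖p.2‖ ^ 2 := by rw [EuclideanSpace.real_norm_sq_eq]
  simp only [Fintype.sum_sum_type, l3_dg, coo, iota, Finset.univ_unique, Finset.sum_singleton,
    one_mul, PiLp.smul_apply, smul_eq_mul, mul_pow, div_pow, hs, h1, h2, h4, ← Finset.mul_sum, h3]
  field_simp
  ring

theorem l3_Jm (d : ℕ) : (Jm d).map emb = Matrix.diagonal (l3_dg (√2)) := by
  unfold Jm
  rw [Matrix.diagonal_map (map_zero emb)]
  congr 1
  funext i
  rcases i with i | i
  · simp [l3_dg, l3_emb]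
  · simp [l3_dg]

theorem l3_Jm' (d : ℕ) : (Jm d).map l3_emb' = Matrix.diagonal (fun i => match i with
    | Sum.inl _ => √2
    | Sum.inr _ => 1) := by
  unfold Jm
  rw [Matrix.diagonal_map (map_zero l3_emb')]
  congr 1
  funext i
  rcases i with i | i
  · simp [l3_emb'_apply]
  · simp

theorem t_L3 : S_L3 := by
  intro d m hm γ hγ p hp
  obtain ⟨M, hM1, hM2, hM3⟩ := hγ.mat
  have hcard : (Fintype.card (Idx d) : ℝ) = d + 3 := by
    simp [Idx]
    ring
  -- the first embedding
  have hA : (M.val.map emb).transpose * Matrix.diagonal (l3_dg (√2)) * (M.val.map emb)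
      = Matrix.diagonal (l3_dg (√2)) := by
    rw [← l3_Jm, ← Matrix.transpose_map, ← Matrix.map_mul, ← Matrix.map_mul, hM1]
  have hfix : (M.val.map emb).mulVec (coo (iota p)) = coo (iota p) := by
    rw [← hM3, hp]
  have hG := l3_G_posDef (√2) (by positivity) (coo (iota p)) (l3_coo_form p)
  have hGA := l3_G_pres (√2) (coo (iota p)) _ hA hfix
  obtain ⟨ht1, ht2⟩ := l3_trace _ _ hG hGA
  -- the second embedding
  have hA' : (M.val.map l3_emb').transpose * (Jm d).map l3_emb' * (M.val.map l3_emb')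
      = (Jm d).map l3_emb' := by
    rw [← Matrix.transpose_map, ← Matrix.map_mul, ← Matrix.map_mul, hM1]
  have hG' : ((Jm d).map l3_emb').PosDef := by
    rw [l3_Jm']
    refine Matrix.PosDef.diagonal fun i => ?_
    rcases i with i | i <;> simp
  obtain ⟨ht1', -⟩ := l3_trace _ _ hG' hA'
  -- divisibility
  choose B hB using hM2
  obtain ⟨b, hb⟩ : ∃ b : ℤ√2, b = ∑ i, B i i := ⟨_, rfl⟩
  have htr : M.val.trace - Fintype.card (Idx d) = (m : ℤ√2) * b := by
    rw [hb, Finset.mul_sum, Finset.sum_congr rfl fun i _ => (hB i i).symm]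
    simp [Matrix.trace, Matrix.sub_apply, Finset.sum_sub_distrib]
  have hm0 : (0:ℝ) < m := by
    have : 0 < m := by omega
    exact_mod_cast this
  have hm' : 2 * ((d:ℝ) + 3) < m := by exact_mod_cast hm
  have e1 : (M.val.map emb).trace - Fintype.card (Idx d) = m * emb b := by
    have := congrArg emb htr
    rw [map_sub, map_mul, map_natCast, map_natCast] at this
    rw [← this]; simp [Matrix.trace, map_sum]
  have e2 : (M.val.map l3_emb').trace - Fintype.card (Idx d) = m * l3_emb' b := by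
    have := congrArg l3_emb' htr
    rw [map_sub, map_mul, map_natCast, map_natCast] at this
    rw [← this]; simp [Matrix.trace, map_sum]
  have hb0 : b = 0 := by
    refine l3_zero b ?_ ?_
    · have : |(m:ℝ) * emb b| < m := by
        rw [← e1]
        calc _ ≤ |(M.val.map emb).trace| + |(Fintype.card (Idx d) : ℝ)| := abs_sub _ _
          _ ≤ Fintype.card (Idx d) + Fintype.card (Idx d) := by
              rw [abs_of_nonneg (Nat.cast_nonneg _ : (0:ℝ) ≤ Fintype.card (Idx d))]
              linarith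
          _ < m := by rw [hcard]; linarith
      rw [abs_mul, abs_of_pos hm0] at this
      by_contra h
      push Not at h
      nlinarith
    · have : |(m:ℝ) * l3_emb' b| < m := by
        rw [← e2]
        calc _ ≤ |(M.val.map l3_emb').trace| + |(Fintype.card (Idx d) : ℝ)| := abs_sub _ _
          _ ≤ Fintype.card (Idx d) + Fintype.card (Idx d) := by
              rw [abs_of_nonneg (Nat.cast_nonneg _ : (0:ℝ) ≤ Fintype.card (Idx d))]
              linarith
          _ < m := by rw [hcard]; linarith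
      rw [abs_mul, abs_of_pos hm0] at this
      by_contra h
      push Not at h
      nlinarith
  have hone := ht2 (by rw [hb0, map_zero, mul_zero] at e1; linarith)
  ext1 x
  apply l3_coo_inj
  rw [hM3, hone, Matrix.one_mulVec]
  rfl

end Pool.Agent.Helper473.LY
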