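import Pool.Agent.Helper473.LY.Stmts

set_option autoImplicit false

open scoped Manifold ContDiff Topology RealInnerProductSpace
open Module

namespace Pool.Agent.Helper473.LY

open Pool.Agent.H234R3

theorem l4_nsq : ∀ n : ℤ, (2 : ℤ) ≠ n * n := by
  intro n h
  have h1 : n ≤ 1 := by nlinarith
  have h2 : -1 ≤ n := by nlinarith
  interval_cases n <;> omega

theorem l4_inj : Function.Injective emb :=
  Zsqrtd.toReal_injective (by norm_num) l4_nsq

theorem l4_emb_sqrt : emb ⟨0, 1⟩ = √2 := by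
  simp [emb, Zsqrtd.toReal, Zsqrtd.lift]

theorem l4_norm (b : ℤ√2) (hb : b ≠ 0) : 1 ≤ |emb b| * |emb (star b)| := by
  have h1 : emb b * emb (star b) = ((Zsqrtd.norm b : ℤ) : ℝ) := by
    rw [← map_mul, ← Zsqrtd.norm_eq_mul_conj]
    simp
  rw [← abs_mul, h1]
  have h2 : Zsqrtd.norm b ≠ 0 := fun h => hb ((Zsqrtd.norm_eq_zero l4_nsq b).1 h)
  have h3 : (1 : ℤ) ≤ |Zsqrtd.norm b| := Int.one_le_abs h2
  exact_mod_cast h3

theorem l4_J_comm {d : ℕ} (x y : L d) : J x y = J y x := by
  unfold J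
  rw [real_inner_comm x.2.1, real_inner_comm x.2.2]
  ring

theorem l4_J_add {d : ℕ} (x y z : L d) : J (x + y) z = J x z + J y z := by
  unfold J
  simp only [Prod.fst_add, Prod.snd_add, inner_add_left]
  ring

theorem l4_J_smul {d : ℕ} (c : ℝ) (x z : L d) : J (c • x) z = c * J x z := by
  unfold J
  simp only [Prod.smul_fst, Prod.smul_snd, inner_smul_left, smul_eq_mul, RCLike.conj_to_real]
  ring

theorem l4_J_add' {d : ℕ} (x y z : L d) : J z (x + y) = J z x + J z y := by
  rw [l4_J_comm, l4_J_add, l4_J_comm x, l4_J_comm y]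

theorem l4_J_smul' {d : ℕ} (c : ℝ) (x z : L d) : J z (c • x) = c * J z x := by
  rw [l4_J_comm, l4_J_smul, l4_J_comm x]

theorem l4_coo {d : ℕ} (x y : L d) :
    J x y = dotProduct (coo x) (((Jm d).map emb).mulVec (coo y)) := by
  have h2 : √(√2) * √(√2) = √2 := Real.mul_self_sqrt (Real.sqrt_nonneg _)
  have h3 : √(√2) ≠ 0 := by positivity
  have hm : ∀ k, ((Jm d).map emb).mulVec (coo y) k = emb ((Jm d) k k) * coo y k := by
    intro k
    simp only [Matrix.mulVec, dotProduct, Matrix.map_apply, Jm]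
    rw [Finset.sum_eq_single k]
    · intro b _ hb
      rw [Matrix.diagonal_apply_ne _ (Ne.symm hb)]
      simp
    · simp
  unfold dotProduct
  simp only [hm]
  rw [Fintype.sum_sum_type, Fintype.sum_sum_type]
  simp only [Jm, Matrix.diagonal_apply_eq, map_neg, l4_emb_sqrt, coo, map_one, one_mul,
    Finset.univ_unique, Finset.sum_singleton]
  have e1 : x.1 / √(√2) * (-√2 * (y.1 / √(√2))) = -(x.1 * y.1) := by
    rw [div_mul_eq_mul_div, div_eq_iff h3]
    rw [show -√2 * (y.1 / √(√2)) = -(√(√2) * √(√2)) * (y.1 / √(√2)) by rw [h2]]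
    field_simp
  rw [e1]
  unfold J
  rw [PiLp.inner_apply, PiLp.inner_apply]
  simp only [RCLike.inner_apply, conj_trivial]
  have : ∀ (n : ℕ) (a b : Fin n → ℝ), ∑ i, a i * b i = ∑ i, b i * a i := by
    intro n a b
    exact Finset.sum_congr rfl (fun i _ => mul_comm _ _)
  rw [this d, this 2]
  ring

theorem l4_isom {d : ℕ} (γ : L d ≃ₗ[ℝ] L d) (M : Matrix (Idx d) (Idx d) (ℤ√2))
    (hM : M.transpose * Jm d * M = Jm d) (hc : ∀ x, coo (γ x) = (M.map emb).mulVec (coo x))
    (x y : L d) : J (γ x) (γ y) = J x y := by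
  have h : (M.map emb).transpose * (Jm d).map emb * M.map emb = (Jm d).map emb := by
    have h' := congrArg (fun A => A.map emb) hM
    simp only [Matrix.map_mul, Matrix.transpose_map] at h'
    exact h'
  rw [l4_coo, l4_coo, hc, hc]
  conv_rhs => rw [← h, ← Matrix.mulVec_mulVec, ← Matrix.mulVec_mulVec,
    Matrix.dotProduct_mulVec, Matrix.vecMul_transpose]

/-- The form is positive semidefinite on the orthogonal complement of a timelike vector. -/
theorem l4_pos {d : ℕ} (q x : L d) (hq : J q q = -1) (hx : J q x = 0) : 0 ≤ J x x := by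
  unfold J at *
  have c1 := real_inner_mul_inner_self_le q.2.1 x.2.1
  have c2 := real_inner_mul_inner_self_le q.2.2 x.2.2
  set a := ⟪q.2.1, x.2.1⟫ with ha
  set b := ⟪q.2.2, x.2.2⟫ with hb
  set A := ⟪q.2.1, q.2.1⟫ with hA
  set B := ⟪q.2.2, q.2.2⟫ with hB
  set C := ⟪x.2.1, x.2.1⟫ with hC
  set D := ⟪x.2.2, x.2.2⟫ with hD
  have hA0 : 0 ≤ A := real_inner_self_nonneg
  have hB0 : 0 ≤ B := real_inner_self_nonneg
  have hC0 : 0 ≤ C := real_inner_self_nonneg
  have hD0 : 0 ≤ D := real_inner_self_nonneg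
  have h1 : q.1 * x.1 = a + b := by linarith
  have h2 : q.1 ^ 2 = 1 + (A + B) := by nlinarith
  have hcs : (a + b) ^ 2 ≤ (A + B) * (C + D) := by
    have h3 : a ^ 2 ≤ A * C := by nlinarith
    have h4 : b ^ 2 ≤ B * D := by nlinarith
    have h5 : (a * b) ^ 2 ≤ (A * D) * (B * C) := by
      calc (a * b) ^ 2 = a ^ 2 * b ^ 2 := by ring
        _ ≤ (A * C) * (B * D) := mul_le_mul h3 h4 (sq_nonneg _) (by positivity)
        _ = (A * D) * (B * C) := by ring
    have h6 : 2 * (a * b) ≤ A * D + B * C := by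
      have p1 : 0 ≤ A * D := by positivity
      have p2 : 0 ≤ B * C := by positivity
      have h7 : (2 * (a * b)) ^ 2 ≤ (A * D + B * C) ^ 2 := by
        nlinarith [sq_nonneg (A * D - B * C)]
      exact (abs_le_of_sq_le_sq' h7 (by positivity)).2
    nlinarith
  have h3 : (1 + (A + B)) * x.1 ^ 2 ≤ (A + B) * (C + D) := by
    calc (1 + (A + B)) * x.1 ^ 2 = (q.1 * x.1) ^ 2 := by rw [← h2]; ring
      _ = (a + b) ^ 2 := by rw [h1]
      _ ≤ _ := hcs
  by_contra hcon
  have h4 : C + D < x.1 ^ 2 := by nlinarith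
  have h5 : (1 + (A + B)) * (C + D) ≤ (1 + (A + B)) * x.1 ^ 2 :=
    mul_le_mul_of_nonneg_left h4.le (by positivity)
  have h6 : C + D = 0 := by nlinarith
  nlinarith


theorem l4_cs {d : ℕ} (q e f : L d) (ρ : ℝ) (hq : J q q = -1) (he : J e e = 1) (hf : J f f = 1)
    (h1 : |J q e| < ρ) (h2 : |J q f| < ρ) : |J e f| < 1 + 2 * ρ ^ 2 := by
  have hρ : 0 < ρ := lt_of_le_of_lt (abs_nonneg _) h1
  set a := J q e with ha
  set b := J q f with hb
  have a1 : a ^ 2 < ρ ^ 2 := by rw [← sq_abs]; nlinarith [abs_nonneg a]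
  have b1 : b ^ 2 < ρ ^ 2 := by rw [← sq_abs]; nlinarith [abs_nonneg b]
  have eq1 : J e q = a := by rw [l4_J_comm]
  have eq2 : J f q = b := by rw [l4_J_comm]
  have fe : J f e = J e f := l4_J_comm _ _
  have hp : ∀ t : ℝ, 0 ≤ (1 + a ^ 2) + 2 * t * (J e f + a * b) + t ^ 2 * (1 + b ^ 2) := by
    intro t
    have h := l4_pos q ((e + a • q) + t • (f + b • q)) hq (by
      simp only [l4_J_add', l4_J_smul', hq, ← ha, ← hb]; ring)
    simp only [l4_J_add', l4_J_smul', l4_J_add, l4_J_smul, hq, he, hf, eq1, eq2, fe,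
      ← ha, ← hb] at h
    nlinarith
  have p1 := hp 1
  have p2 := hp (-1)
  have ab : |a * b| < ρ ^ 2 := by
    rw [abs_mul]; nlinarith [abs_nonneg a, abs_nonneg b]
  obtain ⟨ab1, ab2⟩ := abs_lt.1 ab
  rw [abs_lt]
  constructor
  · nlinarith
  · nlinarith

/-- The unit vector of one of the last two coordinates. -/
noncomputable def l4_e (d : ℕ) (j : Fin 2) : L d := (0, 0, EuclideanSpace.single j 1)

theorem l4_J_e {d : ℕ} (x : L d) (j : Fin 2) : J x (l4_e d j) = x.2.2 j := by
  simp [J, l4_e, EuclideanSpace.inner_single_right]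

theorem l4_coo_w {d : ℕ} (w : W) (k : Idx d) :
    coo ((0, 0, w) : L d) k = match k with
      | Sum.inl _ => 0
      | Sum.inr (Sum.inl _) => 0
      | Sum.inr (Sum.inr j) => w j := by
  rcases k with k | k | k <;> simp [coo]

theorem l4_mulVec {d : ℕ} (A : Matrix (Idx d) (Idx d) ℝ) (w : W) (k : Idx d) :
    A.mulVec (coo ((0, 0, w) : L d)) k = ∑ j : Fin 2, A k (Sum.inr (Sum.inr j)) * w j := by
  unfold Matrix.mulVec dotProduct
  rw [Fintype.sum_sum_type, Fintype.sum_sum_type]
  simp [l4_coo_w]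

theorem l4_coo_inj {d : ℕ} (x y : L d) (h : coo x = coo y) : x = y := by
  obtain ⟨x1, x2, x3⟩ := x
  obtain ⟨y1, y2, y3⟩ := y
  have h3 : √(√2) ≠ 0 := by positivity
  have e1 := congrFun h (Sum.inl ())
  simp only [coo] at e1
  rw [div_left_inj' h3] at e1
  refine Prod.ext e1 (Prod.ext ?_ ?_)
  · ext i
    exact congrFun h (Sum.inr (Sum.inl i))
  · ext i
    exact congrFun h (Sum.inr (Sum.inr i))

theorem t_L4 : S_L4 := by
  intro d m ρ hρ hm γ hγ p hp hq w
  obtain ⟨M', hM, hdiv, hc⟩ := hγ.mat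
  set M := M'.val with hMdef
  have hiso := l4_isom γ M hM hc
  have hm0 : (0 : ℝ) < m := by
    rcases Nat.eq_zero_or_pos m with h | h
    · rw [h] at hm
      norm_num at hm
      nlinarith
    · exact_mod_cast h
  -- the entries
  have hent : ∀ (j : Fin 2) (k : Idx d), coo (γ (l4_e d j)) k = emb (M k (Sum.inr (Sum.inr j))) := by
    intro j k
    rw [hc, l4_e, l4_mulVec, Finset.sum_eq_single j]
    · simp
    · intro b _ hb; simp [hb]
    · simp
  have hq1 : J (γ (iota p)) (γ (iota p)) = -1 := by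
    rw [hiso]
    have s1 : √(1 + ‖p.2‖ ^ 2) ^ 2 = 1 + ‖p.2‖ ^ 2 := Real.sq_sqrt (by positivity)
    have s2 : √(1 + ‖p.1‖ ^ 2) ^ 2 = 1 + ‖p.1‖ ^ 2 := Real.sq_sqrt (by positivity)
    simp only [J, iota, inner_smul_left, inner_smul_right, real_inner_self_eq_norm_sq,
      RCLike.conj_to_real]
    linear_combination (-√(1 + ‖p.2‖ ^ 2) ^ 2) * s2 - s1
  have hnorm : ∀ (v : W) (i : Fin 2), |v i| ≤ ‖v‖ := by
    intro v i
    have := PiLp.norm_apply_le v i
    simpa using this
  have hsmall : ∀ i j : Fin 2, |emb (M (Sum.inr (Sum.inr i)) (Sum.inr (Sum.inr j)))| <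
      1 + 2 * ρ ^ 2 := by
    intro i j
    rw [← hent]
    have h1 : coo (γ (l4_e d j)) (Sum.inr (Sum.inr i)) = J (γ (l4_e d j)) (l4_e d i) := by
      rw [l4_J_e]; rfl
    rw [h1]
    refine l4_cs (γ (iota p)) _ _ ρ hq1 ?_ ?_ ?_ ?_
    · rw [hiso, l4_J_e]; simp [l4_e]
    · rw [l4_J_e]; simp [l4_e]
    · rw [hiso, l4_J_e]
      exact lt_of_le_of_lt (hnorm _ _) hp
    · rw [l4_J_e]
      exact lt_of_le_of_lt (hnorm _ _) hq
  -- the conjugate matrix
  have hsum : ∀ j : Idx d, ∑ k, Jm d k k * M k j ^ 2 = Jm d j j := by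
    intro j
    have h : (M.transpose * Jm d * M) j j = Jm d j j := by rw [hM]
    rw [← h, Matrix.mul_apply]
    refine Finset.sum_congr rfl (fun k _ => ?_)
    have : (M.transpose * Jm d) j k = M k j * Jm d k k := by
      unfold Jm
      rw [Matrix.mul_diagonal, Matrix.diagonal_apply_eq, Matrix.transpose_apply]
    rw [this]
    ring
  have hD : ∀ k : Idx d, 1 ≤ emb (star (Jm d k k)) := by
    intro k
    rcases k with k | k
    · have : star (Jm d (Sum.inl k) (Sum.inl k)) = (⟨0, 1⟩ : ℤ√2) := by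
        unfold Jm
        rw [Matrix.diagonal_apply_eq]
        ext <;> simp
      rw [this, l4_emb_sqrt]
      exact Real.one_le_sqrt.2 (by norm_num)
    · have : star (Jm d (Sum.inr k) (Sum.inr k)) = (1 : ℤ√2) := by
        unfold Jm
        rw [Matrix.diagonal_apply_eq]
        simp
      rw [this, map_one]
  have hstar : ∀ j : Fin 2, ∑ k, emb (star (Jm d k k)) *
      emb (star (M k (Sum.inr (Sum.inr j)))) ^ 2 = 1 := by
    intro j
    have h := congrArg (fun z => emb (star z)) (hsum (Sum.inr (Sum.inr j)))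
    simp only [star_sum, map_sum, star_mul', star_pow, map_mul, map_pow] at h
    rw [h]
    have : star (Jm d (Sum.inr (Sum.inr j)) (Sum.inr (Sum.inr j))) = (1 : ℤ√2) := by
      unfold Jm
      rw [Matrix.diagonal_apply_eq]
      simp
    rw [this, map_one]
  have hst1 : ∀ (j : Fin 2) (k : Idx d), |emb (star (M k (Sum.inr (Sum.inr j))))| ≤ 1 := by
    intro j k
    have h1 : emb (star (Jm d k k)) * emb (star (M k (Sum.inr (Sum.inr j)))) ^ 2 ≤ 1 := by
      rw [← hstar j]
      exact Finset.single_le_sum (f := fun k => emb (star (Jm d k k)) *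
        emb (star (M k (Sum.inr (Sum.inr j)))) ^ 2)
        (fun i _ => mul_nonneg (by linarith [hD i]) (sq_nonneg _)) (Finset.mem_univ k)
    rw [← sq_le_one_iff_abs_le_one]
    nlinarith [hD k, sq_nonneg (emb (star (M k (Sum.inr (Sum.inr j)))))]
  have hdelta : ∀ i j : Fin 2, M (Sum.inr (Sum.inr i)) (Sum.inr (Sum.inr j)) =
      if i = j then 1 else 0 := by
    intro i j
    obtain ⟨b, hb⟩ := hdiv (Sum.inr (Sum.inr i)) (Sum.inr (Sum.inr j))
    have hb' : M (Sum.inr (Sum.inr i)) (Sum.inr (Sum.inr j)) =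
        (m : ℤ√2) * b + if i = j then 1 else 0 := by
      rw [← hb, Matrix.sub_apply, Matrix.one_apply]
      simp
    have hb0 : b = 0 := by
      by_contra hne
      have n1 := l4_norm b hne
      have k1 := hsmall i j
      have k2 := hst1 j (Sum.inr (Sum.inr i))
      rw [hb'] at k1 k2
      have e1 : |(m : ℝ) * emb b| < 2 + 2 * ρ ^ 2 := by
        split_ifs at k1
        · rw [map_add, map_mul, map_natCast, map_one] at k1
          obtain ⟨u1, u2⟩ := abs_lt.1 k1
          rw [abs_lt]; constructor <;> linarith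
        · rw [add_zero, map_mul, map_natCast] at k1
          linarith
      have e2 : |(m : ℝ) * emb (star b)| ≤ 2 := by
        split_ifs at k2
        · rw [star_add, star_mul', star_natCast, star_one, map_add, map_mul, map_natCast,
            map_one] at k2
          obtain ⟨u1, u2⟩ := abs_le.1 k2
          rw [abs_le]; constructor <;> linarith
        · rw [add_zero, star_mul', star_natCast, map_mul, map_natCast] at k2
          linarith
      have e3 : |(m : ℝ) * emb b| * |(m : ℝ) * emb (star b)| =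
          (m : ℝ) ^ 2 * (|emb b| * |emb (star b)|) := by
        rw [abs_mul, abs_mul, abs_of_pos hm0]; ring
      have e4 : (m : ℝ) ^ 2 ≤ |(m : ℝ) * emb b| * |(m : ℝ) * emb (star b)| := by
        rw [e3]
        nlinarith [sq_nonneg (m : ℝ)]
      nlinarith [abs_nonneg ((m : ℝ) * emb b), abs_nonneg ((m : ℝ) * emb (star b))]
    rw [hb', hb0]
    simp
  have hcol : ∀ (j : Fin 2) (k : Idx d), M k (Sum.inr (Sum.inr j)) =
      if k = Sum.inr (Sum.inr j) then 1 else 0 := by
    intro j k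
    split_ifs with hk
    · rw [hk, hdelta j j]; simp
    · have h1 := hstar j
      rw [← Finset.add_sum_erase _ _ (Finset.mem_univ (Sum.inr (Sum.inr j) : Idx d))] at h1
      have h2 : emb (star (Jm d (Sum.inr (Sum.inr j)) (Sum.inr (Sum.inr j)))) *
          emb (star (M (Sum.inr (Sum.inr j)) (Sum.inr (Sum.inr j)))) ^ 2 = 1 := by
        rw [hdelta j j]
        unfold Jm
        rw [Matrix.diagonal_apply_eq]
        simp
      rw [h2] at h1
      have h3 : ∑ x ∈ Finset.univ.erase (Sum.inr (Sum.inr j) : Idx d), emb (star (Jm d x x)) *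
          emb (star (M x (Sum.inr (Sum.inr j)))) ^ 2 = 0 := by linarith
      rw [Finset.sum_eq_zero_iff_of_nonneg
        (fun i _ => mul_nonneg (by linarith [hD i]) (sq_nonneg _))] at h3
      have h4 := h3 k (Finset.mem_erase.2 ⟨hk, Finset.mem_univ _⟩)
      have h5 : emb (star (M k (Sum.inr (Sum.inr j)))) = 0 := by
        rcases mul_eq_zero.1 h4 with h | h
        · have := hD k
          linarith
        · exact pow_eq_zero_iff (two_ne_zero) |>.1 h
      have h6 : star (M k (Sum.inr (Sum.inr j))) = 0 := l4_inj (by rw [h5, map_zero])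
      exact star_eq_zero.1 h6
  refine l4_coo_inj _ _ ?_
  funext k
  rw [hc, l4_mulVec]
  simp only [Matrix.map_apply, hcol]
  rcases k with k | k | k
  · simp [coo]
  · simp [coo]
  · rw [Finset.sum_eq_single k]
    · simp [coo]
    · intro b _ hb
      simp [Ne.symm hb]
    · simp

end Pool.Agent.Helper473.LY
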