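import Mathlib
import Pool.Agent.Helper473.LY.Stmts

/-!
# Task L5: cocompactness of the arithmetic group
-/

set_option autoImplicit false

open scoped Manifold ContDiff Topology RealInnerProductSpace
open Module

namespace Pool.Agent.Helper473.LY

open Pool.Agent.H234R3

/-! ### Hermite reduction for arbitrary index types -/

theorem l5_herm (H : S_HERM) (κ : Type) [Fintype κ] [DecidableEq κ] (D : ℝ) : ∃ c : ℝ,
    ∀ G : Matrix κ κ ℝ, G.PosDef → G.det ≤ D →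
    (∀ x : κ → ℤ, x ≠ 0 → 1 ≤ (fun i => (x i : ℝ)) ⬝ᵥ G.mulVec fun i => (x i : ℝ)) →
    ∃ u : Matrix κ κ ℤ, IsUnit u.det ∧
      ∀ i, (fun j => (u j i : ℝ)) ⬝ᵥ G.mulVec (fun j => (u j i : ℝ)) ≤ c := by
  obtain ⟨c, hc⟩ := H (Fintype.card κ) D
  refine ⟨c, fun G hG hdet hmin => ?_⟩
  set e : κ ≃ Fin (Fintype.card κ) := Fintype.equivFin κ
  have hquad : ∀ x : Fin (Fintype.card κ) → ℝ,
      x ⬝ᵥ (Matrix.reindex e e G).mulVec x = (fun i => x (e i)) ⬝ᵥ G.mulVec (fun i => x (e i)) := by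
    intro x
    unfold Matrix.mulVec dotProduct
    rw [← Equiv.sum_comp e]
    apply Finset.sum_congr rfl
    intro i _
    congr 1
    show ∑ j, Matrix.reindex e e G (e i) j * x j = ∑ j, G i j * x (e j)
    rw [← Equiv.sum_comp e]
    apply Finset.sum_congr rfl
    intro j _
    simp
  obtain ⟨u, hu1, hu2⟩ := hc (Matrix.reindex e e G) (by
      rw [Matrix.reindex_apply]
      exact hG.submatrix e.symm.injective) (by
      rw [Matrix.det_reindex_self]
      exact hdet) (by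
      intro x hx
      rw [hquad]
      apply hmin (fun i => x (e i))
      intro h0
      apply hx
      funext k
      have := congrFun h0 (e.symm k)
      simpa using this)
  refine ⟨Matrix.reindex e.symm e.symm u, ?_, ?_⟩
  · rw [Matrix.det_reindex_self]
    exact hu1
  · intro i
    have := hu2 (e i)
    rw [hquad] at this
    simpa using this

/-! ### The two embeddings -/

/-- the second embedding -/
noncomputable def emb2 : ℤ√2 →+* ℝ :=
  Zsqrtd.lift ⟨-√2, by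
    rw [neg_mul_neg, Real.mul_self_sqrt (by norm_num)]
    norm_num⟩

theorem l5_emb (z : ℤ√2) : emb z = z.re + z.im * √2 := by
  unfold emb Zsqrtd.toReal
  simp

theorem l5_emb2 (z : ℤ√2) : emb2 z = z.re - z.im * √2 := by
  unfold emb2
  simp
  ring

theorem l5_norm (z : ℤ√2) : emb z * emb2 z = (z.norm : ℝ) := by
  rw [l5_emb, l5_emb2, Zsqrtd.norm_def]
  push_cast
  have : √2 * √2 = (2 : ℝ) := Real.mul_self_sqrt (by norm_num)
  linear_combination (-(z.im : ℝ) ^ 2) * this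

theorem l5_nonsq : ∀ n : ℤ, (2 : ℤ) ≠ n * n := by
  intro n h
  rcases le_or_gt n (-2) with h1 | h1
  · nlinarith
  · rcases le_or_gt 2 n with h2 | h2
    · nlinarith
    · have : n = -1 ∨ n = 0 ∨ n = 1 := by omega
      rcases this with rfl | rfl | rfl <;> norm_num at h

theorem l5_norm_ge (z : ℤ√2) (hz : z ≠ 0) : 1 ≤ |emb z| * |emb2 z| := by
  rw [← abs_mul, l5_norm]
  have h1 : z.norm ≠ 0 := by
    rw [Ne, Zsqrtd.norm_eq_zero l5_nonsq]
    exact hz
  have h2 : 1 ≤ |z.norm| := Int.one_le_abs h1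
  exact_mod_cast h2

theorem l5_emb_inj : Function.Injective emb := Zsqrtd.toReal_injective _ l5_nonsq

theorem l5_emb2_ne (z : ℤ√2) (hz : z ≠ 0) : emb2 z ≠ 0 := by
  intro h
  have := l5_norm_ge z hz
  rw [h, abs_zero, mul_zero] at this
  linarith

theorem l5_fin (C : ℝ) : {z : ℤ√2 | |emb z| ≤ C ∧ |emb2 z| ≤ C}.Finite := by
  have h1 : ({z : ℤ√2 | |emb z| ≤ C ∧ |emb2 z| ≤ C}) ⊆
      (fun p : ℤ × ℤ => (⟨p.1, p.2⟩ : ℤ√2)) '' (Set.Icc (-⌈C⌉) ⌈C⌉ ×ˢ Set.Icc (-⌈C⌉) ⌈C⌉) := by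
    rintro z ⟨hz1, hz2⟩
    rw [l5_emb, abs_le] at hz1
    rw [l5_emb2, abs_le] at hz2
    have hs : (1 : ℝ) ≤ √2 := by
      rw [Real.one_le_sqrt]
      norm_num
    have hC : C ≤ ⌈C⌉ := Int.le_ceil C
    have ha : |(z.re : ℝ)| ≤ ⌈C⌉ := by
      rw [abs_le]
      constructor <;> linarith [hz1.1, hz1.2, hz2.1, hz2.2]
    have hb0 : |(z.im : ℝ) * √2| ≤ ⌈C⌉ := by
      rw [abs_le]
      constructor <;> linarith [hz1.1, hz1.2, hz2.1, hz2.2]
    have hb : |(z.im : ℝ)| ≤ ⌈C⌉ := by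
      rw [abs_mul, abs_of_nonneg (by positivity : (0 : ℝ) ≤ √2)] at hb0
      nlinarith [abs_nonneg (z.im : ℝ)]
    have ha' : |z.re| ≤ ⌈C⌉ := by exact_mod_cast ha
    have hb' : |z.im| ≤ ⌈C⌉ := by exact_mod_cast hb
    rw [abs_le] at ha' hb'
    exact ⟨(z.re, z.im), ⟨⟨ha'.1, ha'.2⟩, ⟨hb'.1, hb'.2⟩⟩, rfl⟩
  exact (((Set.finite_Icc _ _).prod (Set.finite_Icc _ _)).image _).subset h1

/-! ### Matrix algebra over the ring of integers -/

/-- the vectors of the lattice in terms of their integral coordinates -/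
def l5C (d : ℕ) : Matrix (Idx d) (Idx d ⊕ Idx d) (ℤ√2) :=
  Matrix.fromCols 1 ((⟨0, 1⟩ : ℤ√2) • (1 : Matrix (Idx d) (Idx d) (ℤ√2)))

/-- a section -/
def l5I (d : ℕ) : Matrix (Idx d ⊕ Idx d) (Idx d) (ℤ√2) := Matrix.fromRows 1 0

theorem l5_CI (d : ℕ) : l5C d * l5I d = 1 := by
  unfold l5C l5I
  rw [Matrix.fromCols_mul_fromRows]
  simp

/-- integral matrices -/
def l5i {κ κ' : Type} (u : Matrix κ κ' ℤ) : Matrix κ κ' (ℤ√2) := u.map (Int.castRingHom (ℤ√2))

theorem l5i_mul {κ : Type} [Fintype κ] (u v : Matrix κ κ ℤ) : l5i (u * v) = l5i u * l5i v :=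
  Matrix.map_mul

theorem l5i_one {κ : Type} [DecidableEq κ] : l5i (1 : Matrix κ κ ℤ) = 1 := by
  unfold l5i
  simp

theorem l5_Jinj (d : ℕ) {κ : Type} (X : Matrix (Idx d) κ (ℤ√2)) (h : Jm d * X = 0) : X = 0 := by
  ext1 i j
  have h1 := congrFun (congrFun h i) j
  unfold Jm at h1
  rw [Matrix.diagonal_mul] at h1
  rcases i with i | i
  · have h2 : (-⟨0, 1⟩ : ℤ√2) * X (Sum.inl i) j = 0 := h1
    have h3 := congrArg emb h2
    rw [map_mul, map_neg, l5_emb, map_zero] at h3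
    have h4 : emb (X (Sum.inl i) j) = 0 := by
      have hs : (0 : ℝ) < √2 := by positivity
      have : (-(((0 : ℤ) : ℝ) + ((1 : ℤ) : ℝ) * √2)) ≠ 0 := by
        push_cast
        intro h5
        linarith
      exact (mul_eq_zero.1 h3).resolve_left this
    have h5 := l5_emb_inj (h4.trans (map_zero emb).symm)
    exact h5
  · have h2 : (1 : ℤ√2) * X (Sum.inr i) j = 0 := h1
    rw [one_mul] at h2
    exact h2

theorem l5_lin (d : ℕ) (T T' : Matrix (Idx d ⊕ Idx d) (Idx d ⊕ Idx d) (ℤ√2)) (h1 : T * T' = 1)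
    (hK : T.transpose * ((l5C d).transpose * Jm d * l5C d) * T =
      (l5C d).transpose * Jm d * l5C d) :
    l5C d * T * l5I d * l5C d = l5C d * T := by
  have h2 : T'.transpose * T.transpose = 1 := by
    rw [← Matrix.transpose_mul, h1, Matrix.transpose_one]
  have h3 : (l5I d).transpose * (l5C d).transpose = 1 := by
    rw [← Matrix.transpose_mul, l5_CI, Matrix.transpose_one]
  rw [← sub_eq_zero]
  have e0 : l5C d * T * l5I d * l5C d - l5C d * T = l5C d * T * (l5I d * l5C d - 1) := by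
    rw [Matrix.mul_sub, Matrix.mul_one, Matrix.mul_assoc (l5C d * T)]
  apply l5_Jinj
  have e1 : (l5C d).transpose * Jm d * (l5C d * T * l5I d * l5C d - l5C d * T) =
      T'.transpose * (T.transpose * ((l5C d).transpose * Jm d * l5C d) * T * (l5I d * l5C d - 1)) := by
    have : T'.transpose * (T.transpose * ((l5C d).transpose * Jm d * l5C d) * T * (l5I d * l5C d - 1))
        = (T'.transpose * T.transpose) * ((l5C d).transpose * Jm d * (l5C d * T * (l5I d * l5C d - 1))) := by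
      simp only [Matrix.mul_assoc]
    rw [this, h2, Matrix.one_mul, e0]
  have e2 : (l5C d).transpose * Jm d * l5C d * (l5I d * l5C d - 1) = 0 := by
    have : l5C d * (l5I d * l5C d - 1) = 0 := by
      rw [Matrix.mul_sub, ← Matrix.mul_assoc, l5_CI, Matrix.one_mul, Matrix.mul_one, sub_self]
    rw [Matrix.mul_assoc, this, Matrix.mul_zero]
  rw [hK, e2, Matrix.mul_zero] at e1
  have e3 : Jm d * (l5C d * T * l5I d * l5C d - l5C d * T) = (l5I d).transpose *
      ((l5C d).transpose * Jm d * (l5C d * T * l5I d * l5C d - l5C d * T)) := by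
    rw [Matrix.mul_assoc (l5C d).transpose, ← Matrix.mul_assoc (l5I d).transpose, h3, Matrix.one_mul]
  rw [e3, e1, Matrix.mul_zero]

theorem l5_B (d m : ℕ) (u u' w : Matrix (Idx d ⊕ Idx d) (Idx d ⊕ Idx d) ℤ) (hu : IsUnit u.det)
    (hu' : IsUnit u'.det) (hw : u' = u + (m : ℤ) • w)
    (hg : (l5C d * l5i u).transpose * Jm d * (l5C d * l5i u) =
      (l5C d * l5i u').transpose * Jm d * (l5C d * l5i u')) :
    ∃ M : (Matrix (Idx d) (Idx d) (ℤ√2))ˣ,
      M.val.transpose * Jm d * M.val = Jm d ∧ (∀ i j, (m : ℤ√2) ∣ (M.val - 1) i j) ∧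
      M.val * (l5C d * l5i u) = l5C d * l5i u' := by
  have a1 : u * u⁻¹ = 1 := Matrix.mul_nonsing_inv _ hu
  have a2 : u⁻¹ * u = 1 := Matrix.nonsing_inv_mul _ hu
  have a3 : u' * u'⁻¹ = 1 := Matrix.mul_nonsing_inv _ hu'
  have a4 : u'⁻¹ * u' = 1 := Matrix.nonsing_inv_mul _ hu'
  set T := l5i (u' * u⁻¹) with hT
  set T' := l5i (u * u'⁻¹) with hT'
  have b1 : T * T' = 1 := by
    rw [hT, hT', ← l5i_mul]
    have : u' * u⁻¹ * (u * u'⁻¹) = 1 := by
      rw [Matrix.mul_assoc, ← Matrix.mul_assoc u⁻¹, a2, Matrix.one_mul, a3]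
    rw [this, l5i_one]
  have b2 : T' * T = 1 := by
    rw [hT, hT', ← l5i_mul]
    have : u * u'⁻¹ * (u' * u⁻¹) = 1 := by
      rw [Matrix.mul_assoc, ← Matrix.mul_assoc u'⁻¹, a4, Matrix.one_mul, a1]
    rw [this, l5i_one]
  have b3 : T * l5i u = l5i u' := by
    rw [hT, ← l5i_mul, Matrix.mul_assoc, a2, Matrix.mul_one]
  set K := (l5C d).transpose * Jm d * l5C d with hK
  have c1 : (l5i u).transpose * K * l5i u = (l5i u').transpose * K * l5i u' := by
    have e : ∀ v : Matrix (Idx d ⊕ Idx d) (Idx d ⊕ Idx d) (ℤ√2),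
        v.transpose * K * v = (l5C d * v).transpose * Jm d * (l5C d * v) := by
      intro v
      rw [hK, Matrix.transpose_mul]
      simp only [Matrix.mul_assoc]
    rw [e, e, hg]
  have d1 : l5i u * l5i u⁻¹ = 1 := by rw [← l5i_mul, a1, l5i_one]
  have c2 : T.transpose * K * T = K := by
    have e1 : T = l5i u' * l5i u⁻¹ := by rw [hT, l5i_mul]
    have e2 : T.transpose * K * T =
        (l5i u⁻¹).transpose * ((l5i u').transpose * K * l5i u') * l5i u⁻¹ := by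
      rw [e1, Matrix.transpose_mul]
      simp only [Matrix.mul_assoc]
    have e3 : (l5i u⁻¹).transpose * (l5i u).transpose = 1 := by
      rw [← Matrix.transpose_mul, d1, Matrix.transpose_one]
    have e4 : (l5i u⁻¹).transpose * ((l5i u).transpose * K * l5i u) * l5i u⁻¹ =
        ((l5i u⁻¹).transpose * (l5i u).transpose) * K * (l5i u * l5i u⁻¹) := by
      simp only [Matrix.mul_assoc]
    rw [e2, ← c1, e4, e3, d1, Matrix.one_mul, Matrix.mul_one]
  have c3 : T'.transpose * K * T' = K := by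
    have e1 : T'.transpose * (T.transpose * K * T) * T' =
        (T'.transpose * T.transpose) * K * (T * T') := by
      simp only [Matrix.mul_assoc]
    rw [c2, ← Matrix.transpose_mul, b1, Matrix.transpose_one, Matrix.one_mul, Matrix.mul_one] at e1
    exact e1
  have l1 := l5_lin d T T' b1 c2
  have l2 := l5_lin d T' T b2 c3
  refine ⟨⟨l5C d * T * l5I d, l5C d * T' * l5I d, ?_, ?_⟩, ?_, ?_, ?_⟩
  · rw [← Matrix.mul_assoc, ← Matrix.mul_assoc, l1, Matrix.mul_assoc (l5C d), b1, Matrix.mul_one,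
      l5_CI]
  · rw [← Matrix.mul_assoc, ← Matrix.mul_assoc, l2, Matrix.mul_assoc (l5C d), b2, Matrix.mul_one,
      l5_CI]
  · show (l5C d * T * l5I d).transpose * Jm d * (l5C d * T * l5I d) = Jm d
    have e1 : (l5C d * T * l5I d).transpose * Jm d * (l5C d * T * l5I d) =
        (l5I d).transpose * (T.transpose * K * T) * l5I d := by
      rw [Matrix.transpose_mul, Matrix.transpose_mul, hK]
      simp only [Matrix.mul_assoc]
    have e2 : (l5I d).transpose * K * l5I d = (l5C d * l5I d).transpose * Jm d * (l5C d * l5I d) := by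
      rw [Matrix.transpose_mul, hK]
      simp only [Matrix.mul_assoc]
    rw [e1, c2, e2, l5_CI, Matrix.transpose_one, Matrix.one_mul, Matrix.mul_one]
  · intro i j
    show (m : ℤ√2) ∣ (l5C d * T * l5I d - 1 : Matrix (Idx d) (Idx d) (ℤ√2)) i j
    have e1 : u' * u⁻¹ = 1 + (m : ℤ) • (w * u⁻¹) := by
      rw [hw, Matrix.add_mul, a1, Matrix.smul_mul]
    have e2 : T = 1 + (m : ℤ√2) • l5i (w * u⁻¹) := by
      rw [hT, e1]
      ext1 a b
      simp only [l5i, Matrix.map_apply, Matrix.add_apply, Matrix.smul_apply, smul_eq_mul,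
        map_add, map_mul]
      congr 1
      by_cases hab : a = b
      · subst hab
        simp
      · simp [hab]
    have e3 : l5C d * T * l5I d - 1 = (m : ℤ√2) • (l5C d * l5i (w * u⁻¹) * l5I d) := by
      rw [e2, Matrix.mul_add, Matrix.mul_one, Matrix.add_mul, l5_CI, Matrix.mul_smul,
        Matrix.smul_mul, add_sub_cancel_left]
    rw [e3, Matrix.smul_apply, smul_eq_mul]
    exact dvd_mul_right _ _
  · show l5C d * T * l5I d * (l5C d * l5i u) = l5C d * l5i u'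
    rw [← Matrix.mul_assoc, l1, Matrix.mul_assoc, b3]

/-! ### The quadratic forms -/

theorem l5_s : (0 : ℝ) < √(√2) := by positivity

theorem l5_s2 : √(√2) * √(√2) = √2 := Real.mul_self_sqrt (by positivity)

theorem l5_s3 : √2 * √2 = (2 : ℝ) := Real.mul_self_sqrt (by norm_num)

/-- the coordinates as a linear equivalence -/
noncomputable def l5coo (d : ℕ) : L d ≃ₗ[ℝ] (Idx d → ℝ) where
  toFun := coo
  map_add' := by
    intro x y
    funext i
    rcases i with i | i | i <;> simp [coo, add_div]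
  map_smul' := by
    intro c x
    funext i
    rcases i with i | i | i <;> simp [coo, mul_div_assoc]
  invFun y := (y (Sum.inl ()) * √(√2), WithLp.toLp 2 (fun i => y (Sum.inr (Sum.inl i))),
    WithLp.toLp 2 (fun j => y (Sum.inr (Sum.inr j))))
  left_inv := by
    intro x
    have h : x.1 / √(√2) * √(√2) = x.1 := div_mul_cancel₀ _ l5_s.ne'
    exact Prod.ext h rfl
  right_inv := by
    intro y
    funext i
    rcases i with i | i | i
    · exact mul_div_cancel_right₀ _ l5_s.ne'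
    · rfl
    · rfl

/-- the form over the reals -/
noncomputable def l5F (d : ℕ) : Matrix (Idx d) (Idx d) ℝ := (Jm d).map emb

/-- the conjugate form over the reals -/
noncomputable def l5F2 (d : ℕ) : Matrix (Idx d) (Idx d) ℝ := (Jm d).map emb2

theorem l5F_eq (d : ℕ) : l5F d = Matrix.diagonal (fun i => match i with
    | Sum.inl _ => -√2
    | Sum.inr _ => 1) := by
  unfold l5F Jm
  rw [Matrix.diagonal_map (map_zero _)]
  congr 1
  funext i
  rcases i with i | i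
  · show emb (-⟨0, 1⟩) = -√2
    rw [map_neg, l5_emb]
    simp
  · show emb 1 = 1
    exact map_one _

theorem l5F2_eq (d : ℕ) : l5F2 d = Matrix.diagonal (fun i => match i with
    | Sum.inl _ => √2
    | Sum.inr _ => 1) := by
  unfold l5F2 Jm
  rw [Matrix.diagonal_map (map_zero _)]
  congr 1
  funext i
  rcases i with i | i
  · show emb2 (-⟨0, 1⟩) = √2
    rw [map_neg, l5_emb2]
    simp
  · show emb2 1 = 1
    exact map_one _

theorem l5F_dot (d : ℕ) (x y : Idx d → ℝ) : x ⬝ᵥ (l5F d).mulVec y =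
    -√2 * (x (Sum.inl ()) * y (Sum.inl ())) + ∑ i, x (Sum.inr i) * y (Sum.inr i) := by
  rw [l5F_eq]
  unfold dotProduct
  rw [Fintype.sum_sum_type]
  congr 1
  · simp only [Finset.univ_unique, Finset.sum_singleton, Matrix.mulVec_diagonal]
    show x (Sum.inl ()) * (-√2 * y (Sum.inl ())) = _
    ring
  · apply Finset.sum_congr rfl
    intro i _
    rw [Matrix.mulVec_diagonal]
    simp

theorem l5F2_dot (d : ℕ) (x y : Idx d → ℝ) : x ⬝ᵥ (l5F2 d).mulVec y =
    √2 * (x (Sum.inl ()) * y (Sum.inl ())) + ∑ i, x (Sum.inr i) * y (Sum.inr i) := by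
  rw [l5F2_eq]
  unfold dotProduct
  rw [Fintype.sum_sum_type]
  congr 1
  · simp only [Finset.univ_unique, Finset.sum_singleton, Matrix.mulVec_diagonal]
    show x (Sum.inl ()) * (√2 * y (Sum.inl ())) = _
    ring
  · apply Finset.sum_congr rfl
    intro i _
    rw [Matrix.mulVec_diagonal]
    simp

theorem l5J (d : ℕ) (x y : L d) : J x y = coo x ⬝ᵥ (l5F d).mulVec (coo y) := by
  rw [l5F_dot]
  unfold J
  rw [Fintype.sum_sum_type]
  have h1 : -√2 * (coo x (Sum.inl ()) * coo y (Sum.inl ())) = -(x.1 * y.1) := by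
    show -√2 * (x.1 / √(√2) * (y.1 / √(√2))) = _
    rw [div_mul_div_comm, l5_s2]
    have : √2 ≠ (0 : ℝ) := by positivity
    field_simp
  rw [h1, add_assoc, PiLp.inner_apply, PiLp.inner_apply]
  congr 1
  congr 1
  · apply Finset.sum_congr rfl
    intro i _
    show _ = x.2.1 i * y.2.1 i
    simp [mul_comm]
  · apply Finset.sum_congr rfl
    intro i _
    show _ = x.2.2 i * y.2.2 i
    simp [mul_comm]

theorem l5_iota (d : ℕ) (p : P d) : J (iota p) (iota p) = -1 := by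
  unfold J iota
  rw [real_inner_smul_left, real_inner_smul_right, real_inner_self_eq_norm_sq,
    real_inner_self_eq_norm_sq]
  have h1 : √(1 + ‖p.2‖ ^ 2) * √(1 + ‖p.2‖ ^ 2) = 1 + ‖p.2‖ ^ 2 := Real.mul_self_sqrt (by positivity)
  have h2 : √(1 + ‖p.1‖ ^ 2) * √(1 + ‖p.1‖ ^ 2) = 1 + ‖p.1‖ ^ 2 := Real.mul_self_sqrt (by positivity)
  show -(√(1 + ‖p.2‖ ^ 2) * √(1 + ‖p.1‖ ^ 2) * (√(1 + ‖p.2‖ ^ 2) * √(1 + ‖p.1‖ ^ 2))) +
    √(1 + ‖p.2‖ ^ 2) * (√(1 + ‖p.2‖ ^ 2) * ‖p.1‖ ^ 2) + ‖p.2‖ ^ 2 = -1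
  have e : -(√(1 + ‖p.2‖ ^ 2) * √(1 + ‖p.1‖ ^ 2) * (√(1 + ‖p.2‖ ^ 2) * √(1 + ‖p.1‖ ^ 2))) +
    √(1 + ‖p.2‖ ^ 2) * (√(1 + ‖p.2‖ ^ 2) * ‖p.1‖ ^ 2) + ‖p.2‖ ^ 2 =
    -((√(1 + ‖p.2‖ ^ 2) * √(1 + ‖p.2‖ ^ 2)) * (√(1 + ‖p.1‖ ^ 2) * √(1 + ‖p.1‖ ^ 2))) +
    (√(1 + ‖p.2‖ ^ 2) * √(1 + ‖p.2‖ ^ 2)) * ‖p.1‖ ^ 2 + ‖p.2‖ ^ 2 := by ring
  rw [e, h1, h2]
  ring

theorem l5_iota_pos (d : ℕ) (p : P d) : 0 < (iota p).1 := by
  show 0 < √(1 + ‖p.2‖ ^ 2) * √(1 + ‖p.1‖ ^ 2)
  positivity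

/-- space part of the scalar product -/
theorem l5_cs (d : ℕ) (x y : L d) :
    (⟪x.2.1, y.2.1⟫ + ⟪x.2.2, y.2.2⟫) ^ 2 ≤
      (⟪x.2.1, x.2.1⟫ + ⟪x.2.2, x.2.2⟫) * (⟪y.2.1, y.2.1⟫ + ⟪y.2.2, y.2.2⟫) := by
  have h1 := abs_real_inner_le_norm x.2.1 y.2.1
  have h2 := abs_real_inner_le_norm x.2.2 y.2.2
  simp only [real_inner_self_eq_norm_sq]
  have a1 := norm_nonneg x.2.1
  have a2 := norm_nonneg x.2.2
  have a3 := norm_nonneg y.2.1
  have a4 := norm_nonneg y.2.2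
  have h3 : |⟪x.2.1, y.2.1⟫ + ⟪x.2.2, y.2.2⟫| ≤ ‖x.2.1‖ * ‖y.2.1‖ + ‖x.2.2‖ * ‖y.2.2‖ :=
    (abs_add_le _ _).trans (add_le_add h1 h2)
  have h4 : (⟪x.2.1, y.2.1⟫ + ⟪x.2.2, y.2.2⟫) ^ 2 ≤ (‖x.2.1‖ * ‖y.2.1‖ + ‖x.2.2‖ * ‖y.2.2‖) ^ 2 := by
    rw [← sq_abs]
    exact pow_le_pow_left₀ (abs_nonneg _) h3 2
  nlinarith [sq_nonneg (‖x.2.1‖ * ‖y.2.2‖ - ‖x.2.2‖ * ‖y.2.1‖)]

theorem l5_key (d : ℕ) (x q : L d) (hq : J q q = -1) : 0 ≤ J x x + J x q ^ 2 := by
  have h := l5_cs d x q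
  unfold J at hq ⊢
  set t := ⟪x.2.1, q.2.1⟫ + ⟪x.2.2, q.2.2⟫ with ht
  set s := ⟪x.2.1, x.2.1⟫ + ⟪x.2.2, x.2.2⟫ with hs
  set a := ⟪q.2.1, q.2.1⟫ + ⟪q.2.2, q.2.2⟫ with ha
  have hs0 : 0 ≤ s := add_nonneg real_inner_self_nonneg real_inner_self_nonneg
  have ha0 : 0 ≤ a := add_nonneg real_inner_self_nonneg real_inner_self_nonneg
  rw [add_assoc] at hq
  have f1 : -(x.1 * x.1) + ⟪x.2.1, x.2.1⟫ + ⟪x.2.2, x.2.2⟫ = -(x.1 * x.1) + s := by rw [hs]; ring
  have f2 : -(x.1 * q.1) + ⟪x.2.1, q.2.1⟫ + ⟪x.2.2, q.2.2⟫ = -(x.1 * q.1) + t := by rw [ht]; ring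
  rw [f1, f2]
  rw [← ha] at hq
  have hp : q.1 * q.1 = 1 + a := by linarith
  have e : -(x.1 * x.1) + s + (-(x.1 * q.1) + t) ^ 2 =
      a * x.1 ^ 2 - 2 * x.1 * q.1 * t + t ^ 2 + s := by
    linear_combination (x.1 ^ 2) * hp
  rw [e]
  rcases eq_or_lt_of_le ha0 with h0 | h0
  · have ht0 : t = 0 := by
      rw [← h0, mul_zero] at h
      nlinarith
    rw [← h0, ht0]
    simpa using hs0
  · have : 0 ≤ a * (a * x.1 ^ 2 - 2 * x.1 * q.1 * t + t ^ 2 + s) := by
      have e2 : a * (a * x.1 ^ 2 - 2 * x.1 * q.1 * t + t ^ 2 + s) =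
          (a * x.1 - q.1 * t) ^ 2 + (s * a - t ^ 2) := by
        linear_combination (-t ^ 2) * hp
      rw [e2]
      nlinarith [sq_nonneg (a * x.1 - q.1 * t)]
    exact nonneg_of_mul_nonneg_right this h0

theorem l5_pos (d : ℕ) (x q : L d) (hq : J q q = -1) (hx : x ≠ 0) : 0 < J x x + 2 * J x q ^ 2 := by
  have hk := l5_key d x q hq
  rcases (by nlinarith [sq_nonneg (J x q)] : 0 ≤ J x x + 2 * J x q ^ 2).lt_or_eq with h | h
  · exact h
  exfalso
  apply hx
  have h1 : J x q = 0 := by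
    have : J x q ^ 2 ≤ 0 := by linarith
    nlinarith [sq_nonneg (J x q)]
  have h2 : J x x = 0 := by rw [h1] at h; linarith
  have hc := l5_cs d x q
  unfold J at hq h1 h2
  set t := ⟪x.2.1, q.2.1⟫ + ⟪x.2.2, q.2.2⟫ with ht
  set s := ⟪x.2.1, x.2.1⟫ + ⟪x.2.2, x.2.2⟫ with hs
  set a := ⟪q.2.1, q.2.1⟫ + ⟪q.2.2, q.2.2⟫ with ha
  rw [add_assoc] at hq h1 h2
  rw [← ht] at h1
  rw [← hs] at h2
  rw [← ha] at hq
  have hp : q.1 * q.1 = 1 + a := by linarith
  have ht' : t = x.1 * q.1 := by linarith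
  have hs' : s = x.1 * x.1 := by linarith
  rw [ht', hs'] at hc
  have hx0 : x.1 = 0 := by
    have : x.1 ^ 2 ≤ 0 := by
      have e : (x.1 * q.1) ^ 2 = x.1 ^ 2 * (1 + a) := by rw [← hp]; ring
      rw [e] at hc
      nlinarith
    nlinarith [sq_nonneg x.1]
  have hs0 : s = 0 := by rw [hs', hx0]; ring
  have b1 : (0 : ℝ) ≤ ⟪x.2.1, x.2.1⟫ := real_inner_self_nonneg
  have b2 : (0 : ℝ) ≤ ⟪x.2.2, x.2.2⟫ := real_inner_self_nonneg
  have c1 : ⟪x.2.1, x.2.1⟫ = (0 : ℝ) := by linarith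
  have c2 : ⟪x.2.2, x.2.2⟫ = (0 : ℝ) := by linarith
  exact Prod.ext hx0 (Prod.ext (inner_self_eq_zero.1 c1) (inner_self_eq_zero.1 c2))

theorem l5_sheet (d : ℕ) (x y : L d) (hx : J x x = -1) (hy : J y y = -1) (hx0 : 0 < x.1)
    (hy0 : 0 < y.1) : J x y < 0 := by
  have hc := l5_cs d x y
  unfold J at hx hy ⊢
  set t := ⟪x.2.1, y.2.1⟫ + ⟪x.2.2, y.2.2⟫ with ht
  set s := ⟪x.2.1, x.2.1⟫ + ⟪x.2.2, x.2.2⟫ with hs
  set a := ⟪y.2.1, y.2.1⟫ + ⟪y.2.2, y.2.2⟫ with ha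
  rw [add_assoc] at hx hy ⊢
  rw [← ht]
  rw [← hs] at hx
  rw [← ha] at hy
  have hs0 : 0 ≤ s := add_nonneg real_inner_self_nonneg real_inner_self_nonneg
  have ha0 : 0 ≤ a := add_nonneg real_inner_self_nonneg real_inner_self_nonneg
  have h1 : t ^ 2 < (x.1 * y.1) ^ 2 := by
    have e : (x.1 * y.1) ^ 2 = (1 + s) * (1 + a) := by
      have e1 : x.1 * x.1 = 1 + s := by linarith
      have e2 : y.1 * y.1 = 1 + a := by linarith
      rw [← e1, ← e2]
      ring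
    rw [e]
    nlinarith
  have h2 : |t| < |x.1 * y.1| := sq_lt_sq.1 h1
  rw [abs_of_pos (mul_pos hx0 hy0)] at h2
  have := le_abs_self t
  linarith

/-- the positive definite form of a point -/
noncomputable def l5A (d : ℕ) (v : Idx d → ℝ) : Matrix (Idx d) (Idx d) ℝ :=
  l5F d + (2 : ℝ) • Matrix.vecMulVec ((l5F d).mulVec v) ((l5F d).mulVec v)

theorem l5F_symm (d : ℕ) : (l5F d).transpose = l5F d := by
  rw [l5F_eq, Matrix.diagonal_transpose]

theorem l5F2_symm (d : ℕ) : (l5F2 d).transpose = l5F2 d := by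
  rw [l5F2_eq, Matrix.diagonal_transpose]

theorem l5A_quad (d : ℕ) (v y : Idx d → ℝ) : y ⬝ᵥ (l5A d v).mulVec y =
    y ⬝ᵥ (l5F d).mulVec y + 2 * (y ⬝ᵥ (l5F d).mulVec v) ^ 2 := by
  unfold l5A
  rw [Matrix.add_mulVec, Matrix.smul_mulVec, dotProduct_add, dotProduct_smul,
    Matrix.vecMulVec_mulVec, smul_eq_mul]
  congr 1
  congr 1
  rw [dotProduct_comm ((l5F d).mulVec v) y]
  simp [dotProduct_smul]
  ring

theorem l5A_det (d : ℕ) (v : Idx d → ℝ) (hv : v ⬝ᵥ (l5F d).mulVec v = -1) :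
    (l5A d v).det = -(l5F d).det := by
  have h : l5A d v = l5F d * (1 + Matrix.replicateCol Unit ((2 : ℝ) • v) *
      Matrix.replicateRow Unit ((l5F d).mulVec v)) := by
    unfold l5A
    rw [Matrix.mul_add, Matrix.mul_one]
    congr 1
    rw [← Matrix.vecMulVec_eq, Matrix.mul_vecMulVec, Matrix.mulVec_smul, Matrix.smul_vecMulVec]
  rw [h, Matrix.det_mul, Matrix.det_one_add_replicateCol_mul_replicateRow, dotProduct_smul,
    dotProduct_comm, hv, smul_eq_mul]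
  ring

/-- both embeddings together -/
noncomputable def l5E (d : ℕ) : Matrix (Idx d ⊕ Idx d) (Idx d ⊕ Idx d) ℝ :=
  Matrix.fromRows ((l5C d).map emb) ((l5C d).map emb2)

/-- the Gram matrix of the positive definite form on the lattice -/
noncomputable def l5G (d : ℕ) (v : Idx d → ℝ) : Matrix (Idx d ⊕ Idx d) (Idx d ⊕ Idx d) ℝ :=
  (l5E d).transpose * Matrix.fromBlocks (l5A d v) 0 0 (l5F2 d) * l5E d

theorem l5G_quad (d : ℕ) (v : Idx d → ℝ) (x : Idx d ⊕ Idx d → ℝ) :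
    x ⬝ᵥ (l5G d v).mulVec x =
      ((l5C d).map emb).mulVec x ⬝ᵥ (l5A d v).mulVec (((l5C d).map emb).mulVec x) +
      ((l5C d).map emb2).mulVec x ⬝ᵥ (l5F2 d).mulVec (((l5C d).map emb2).mulVec x) := by
  have h : x ⬝ᵥ (l5G d v).mulVec x = (l5E d).mulVec x ⬝ᵥ
      (Matrix.fromBlocks (l5A d v) 0 0 (l5F2 d)).mulVec ((l5E d).mulVec x) := by
    unfold l5G
    rw [← Matrix.mulVec_mulVec, ← Matrix.mulVec_mulVec, Matrix.dotProduct_mulVec x,
      Matrix.vecMul_transpose]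
  rw [h]
  unfold l5E
  rw [Matrix.fromRows_mulVec, Matrix.fromBlocks_mulVec]
  simp only [Matrix.zero_mulVec, add_zero, zero_add, Sum.elim_comp_inl, Sum.elim_comp_inr]
  rw [sumElim_dotProduct_sumElim]

theorem l5G_det (d : ℕ) (v : Idx d → ℝ) (hv : v ⬝ᵥ (l5F d).mulVec v = -1) :
    (l5G d v).det = (l5E d).det * (-(l5F d).det * (l5F2 d).det) * (l5E d).det := by
  unfold l5G
  rw [Matrix.det_mul, Matrix.det_mul, Matrix.det_transpose, Matrix.det_fromBlocks_zero₂₁,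
    l5A_det d v hv]

theorem l5_mv (d : ℕ) (f : ℤ√2 →+* ℝ) (x : Idx d ⊕ Idx d → ℝ) (k : Idx d) :
    ((l5C d).map f).mulVec x k = x (Sum.inl k) + f ⟨0, 1⟩ * x (Sum.inr k) := by
  unfold Matrix.mulVec dotProduct
  rw [Fintype.sum_sum_type]
  congr 1
  · rw [Finset.sum_eq_single k]
    · simp [l5C]
    · intro b _ hb
      simp [l5C, hb.symm]
    · intro h
      exact absurd (Finset.mem_univ k) h
  · rw [Finset.sum_eq_single k]
    · simp [l5C]
    · intro b _ hb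
      simp [l5C, hb.symm]
    · intro h
      exact absurd (Finset.mem_univ k) h

theorem l5_quadpos (d : ℕ) (q : L d) (hq : J q q = -1) (y : Idx d → ℝ) (hy : y ≠ 0) :
    0 < y ⬝ᵥ (l5A d (coo q)).mulVec y := by
  have h1 : coo ((l5coo d).symm y) = y := (l5coo d).apply_symm_apply y
  have h2 := l5_pos d ((l5coo d).symm y) q hq (by
    intro h
    apply hy
    rw [← h1, h]
    exact (l5coo d).map_zero)
  rw [l5J, l5J, h1] at h2
  rw [l5A_quad]
  exact h2

theorem l5_quadabs (d : ℕ) (q : L d) (hq : J q q = -1) (y : Idx d → ℝ) :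
    |y ⬝ᵥ (l5F d).mulVec y| ≤ y ⬝ᵥ (l5A d (coo q)).mulVec y := by
  have h1 : coo ((l5coo d).symm y) = y := (l5coo d).apply_symm_apply y
  have h2 := l5_key d ((l5coo d).symm y) q hq
  rw [l5J, l5J, h1] at h2
  rw [l5A_quad, abs_le]
  constructor
  · nlinarith [sq_nonneg (y ⬝ᵥ (l5F d).mulVec (coo q))]
  · nlinarith [sq_nonneg (y ⬝ᵥ (l5F d).mulVec (coo q))]

theorem l5_lin2 (d : ℕ) (q : L d) (hq : J q q = -1) (y : Idx d → ℝ) :
    (y ⬝ᵥ (l5F d).mulVec (coo q)) ^ 2 ≤ y ⬝ᵥ (l5A d (coo q)).mulVec y := by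
  have h1 : coo ((l5coo d).symm y) = y := (l5coo d).apply_symm_apply y
  have h2 := l5_key d ((l5coo d).symm y) q hq
  rw [l5J, l5J, h1] at h2
  rw [l5A_quad]
  linarith

theorem l5F2_pos (d : ℕ) (y : Idx d → ℝ) (hy : y ≠ 0) : 0 < y ⬝ᵥ (l5F2 d).mulVec y := by
  rw [l5F2_dot]
  have h1 : 0 ≤ ∑ i, y (Sum.inr i) * y (Sum.inr i) :=
    Finset.sum_nonneg fun i _ => mul_self_nonneg _
  have h2 : 0 ≤ y (Sum.inl ()) * y (Sum.inl ()) := mul_self_nonneg _
  have h3 : (0 : ℝ) < √2 := by positivity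
  by_contra hcon
  have h5 : y (Sum.inl ()) * y (Sum.inl ()) = 0 := by
    by_contra h6
    have h7 : 0 < y (Sum.inl ()) * y (Sum.inl ()) := lt_of_le_of_ne h2 (Ne.symm h6)
    nlinarith [mul_pos h3 h7]
  rw [h5, mul_zero, zero_add, not_lt] at hcon
  have h6 := (Finset.sum_eq_zero_iff_of_nonneg (fun i _ => mul_self_nonneg (y (Sum.inr i)))).1
    (le_antisymm hcon h1)
  apply hy
  funext i
  rcases i with i | i
  · exact mul_self_eq_zero.1 h5
  · exact mul_self_eq_zero.1 (h6 i (Finset.mem_univ _))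

theorem l5F2_nonneg (d : ℕ) (y : Idx d → ℝ) : 0 ≤ y ⬝ᵥ (l5F2 d).mulVec y := by
  by_cases hy : y = 0
  · rw [hy]; simp
  · exact (l5F2_pos d y hy).le

theorem l5A_nonneg (d : ℕ) (q : L d) (hq : J q q = -1) (y : Idx d → ℝ) :
    0 ≤ y ⬝ᵥ (l5A d (coo q)).mulVec y := by
  by_cases hy : y = 0
  · rw [hy]; simp
  · exact (l5_quadpos d q hq y hy).le

theorem l5_polar {κ : Type} [Fintype κ] (S A : Matrix κ κ ℝ) (hS : S.transpose = S)
    (h : ∀ y, |y ⬝ᵥ S.mulVec y| ≤ y ⬝ᵥ A.mulVec y) (y z : κ → ℝ) (c : ℝ)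
    (hy : y ⬝ᵥ A.mulVec y ≤ c) (hz : z ⬝ᵥ A.mulVec z ≤ c) : |y ⬝ᵥ S.mulVec z| ≤ c := by
  have h1 := h (y + z)
  have h2 := h (y - z)
  have hs : z ⬝ᵥ S.mulVec y = y ⬝ᵥ S.mulVec z := by
    rw [Matrix.dotProduct_mulVec, ← Matrix.mulVec_transpose, hS, dotProduct_comm]
  simp only [Matrix.mulVec_add, Matrix.mulVec_sub, dotProduct_add, add_dotProduct, dotProduct_sub,
    sub_dotProduct, hs] at h1 h2
  rw [abs_le] at h1 h2 ⊢
  constructor <;> linarith [h1.1, h1.2, h2.1, h2.2]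

theorem l5G_pos (d : ℕ) (q : L d) (hq : J q q = -1) : (l5G d (coo q)).PosDef := by
  apply Matrix.PosDef.of_dotProduct_mulVec_pos
  · show (l5G d (coo q)).conjTranspose = _
    rw [Matrix.conjTranspose_eq_transpose_of_trivial]
    unfold l5G
    rw [Matrix.transpose_mul, Matrix.transpose_mul, Matrix.transpose_transpose,
      Matrix.fromBlocks_transpose, Matrix.mul_assoc, l5F2_symm, Matrix.transpose_zero]
    have : (l5A d (coo q)).transpose = l5A d (coo q) := by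
      unfold l5A
      rw [Matrix.transpose_add, Matrix.transpose_smul, l5F_symm, Matrix.transpose_vecMulVec]
    rw [this]
  · intro x hx
    rw [star_trivial, l5G_quad]
    by_cases h1 : ((l5C d).map emb).mulVec x = 0
    · have h2 : ((l5C d).map emb2).mulVec x ≠ 0 := by
        intro h2
        apply hx
        have hs : (0 : ℝ) < √2 := by positivity
        have e1 : emb ⟨0, 1⟩ = √2 := by rw [l5_emb]; simp
        have e2 : emb2 ⟨0, 1⟩ = -√2 := by rw [l5_emb2]; simp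
        have h3 : ∀ k, x (Sum.inl k) = 0 ∧ x (Sum.inr k) = 0 := by
          intro k
          have a1 := congrFun h1 k
          have a2 := congrFun h2 k
          rw [l5_mv, e1, Pi.zero_apply] at a1
          rw [l5_mv, e2, Pi.zero_apply] at a2
          have a3 : √2 * x (Sum.inr k) = 0 := by linarith
          have a4 : x (Sum.inr k) = 0 := (mul_eq_zero.1 a3).resolve_left hs.ne'
          exact ⟨by rw [a4] at a1; linarith, a4⟩
        funext k
        rcases k with k | k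
        · exact (h3 k).1
        · exact (h3 k).2
      have a1 := l5F2_pos d _ h2
      have a2 := l5A_nonneg d q hq (((l5C d).map emb).mulVec x)
      linarith
    · have a1 := l5_quadpos d q hq _ h1
      have a2 := l5F2_nonneg d (((l5C d).map emb2).mulVec x)
      linarith

/-- the minimum of the forms on the lattice -/
theorem l5G_min (d : ℕ) (q : L d) (hq : J q q = -1) (x : Idx d ⊕ Idx d → ℤ) (hx : x ≠ 0) :
    1 ≤ (fun i => (x i : ℝ)) ⬝ᵥ (l5G d (coo q)).mulVec (fun i => (x i : ℝ)) := by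
  rw [l5G_quad]
  set w : Idx d → ℤ√2 := fun k => ⟨x (Sum.inl k), x (Sum.inr k)⟩ with hw
  have e1 : ((l5C d).map emb).mulVec (fun i => (x i : ℝ)) = fun k => emb (w k) := by
    funext k
    rw [l5_mv, hw, l5_emb, l5_emb]
    simp
    ring
  have e2 : ((l5C d).map emb2).mulVec (fun i => (x i : ℝ)) = fun k => emb2 (w k) := by
    funext k
    rw [l5_mv, hw, l5_emb2, l5_emb2]
    simp
    ring
  rw [e1, e2]
  have hw0 : ∃ k, w k ≠ 0 := by
    by_contra hcon
    have hcon' : ∀ k, w k = 0 := fun k => by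
      by_contra h
      exact hcon ⟨k, h⟩
    apply hx
    funext k
    rcases k with k | k
    · have := congrArg Zsqrtd.re (hcon' k)
      exact this
    · have := congrArg Zsqrtd.im (hcon' k)
      exact this
  have a1 := l5_quadabs d q hq (fun k => emb (w k))
  have a2 : (0 : ℝ) < (fun k => emb2 (w k)) ⬝ᵥ (l5F2 d).mulVec (fun k => emb2 (w k)) := by
    apply l5F2_pos
    obtain ⟨k, hk⟩ := hw0
    intro h
    exact l5_emb2_ne _ hk (congrFun h k)
  set φ : ℤ√2 := w ⬝ᵥ (Jm d).mulVec w with hφ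
  have b1 : emb φ = (fun k => emb (w k)) ⬝ᵥ (l5F d).mulVec (fun k => emb (w k)) := by
    rw [hφ, RingHom.map_dotProduct]
    congr 1
    funext k
    show emb ((Jm d).mulVec w k) = _
    rw [RingHom.map_mulVec]
    rfl
  have b2 : emb2 φ = (fun k => emb2 (w k)) ⬝ᵥ (l5F2 d).mulVec (fun k => emb2 (w k)) := by
    rw [hφ, RingHom.map_dotProduct]
    congr 1
    funext k
    show emb2 ((Jm d).mulVec w k) = _
    rw [RingHom.map_mulVec]
    rfl
  have hφ0 : φ ≠ 0 := by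
    intro h
    rw [← b2, h, map_zero] at a2
    exact lt_irrefl _ a2
  have hn := l5_norm_ge φ hφ0
  rw [← b1] at a1
  rw [← b2] at a2 ⊢
  rw [abs_of_pos a2] at hn
  have h0 : 0 ≤ |emb φ| := abs_nonneg _
  nlinarith [sq_nonneg (|emb φ| - emb2 φ)]

/-! ### Isometries -/

theorem l5_Mt (d : ℕ) (M : Matrix (Idx d) (Idx d) (ℤ√2)) (hM : M.transpose * Jm d * M = Jm d) :
    (M.map emb).transpose * l5F d * (M.map emb) = l5F d := by
  have := congrArg (fun X : Matrix (Idx d) (Idx d) (ℤ√2) => X.map emb) hM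
  simp only [Matrix.map_mul] at this
  exact this

/-- the linear map given by a matrix -/
theorem l5_gam (d : ℕ) (M : (Matrix (Idx d) (Idx d) (ℤ√2))ˣ) :
    ∃ γ : L d ≃ₗ[ℝ] L d, ∀ x, coo (γ x) = (M.val.map emb).mulVec (coo x) := by
  have h1 : M.val.map emb * M.inv.map emb = 1 := by
    rw [← Matrix.map_mul, M.val_inv]
    simp
  have h2 : M.inv.map emb * M.val.map emb = 1 := by
    rw [← Matrix.map_mul, M.inv_val]
    simp
  refine ⟨(l5coo d).trans ((Matrix.toLin'OfInv h2 h1).trans (l5coo d).symm), ?_⟩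
  intro x
  show (l5coo d) ((l5coo d).symm ((Matrix.toLin'OfInv h2 h1) ((l5coo d) x))) = _
  rw [LinearEquiv.apply_symm_apply]
  rfl

theorem l5_isom (d : ℕ) (M : Matrix (Idx d) (Idx d) (ℤ√2)) (hM : M.transpose * Jm d * M = Jm d)
    (γ : L d ≃ₗ[ℝ] L d) (hγ : ∀ x, coo (γ x) = (M.map emb).mulVec (coo x)) (x y : L d) :
    J (γ x) (γ y) = J x y := by
  rw [l5J, l5J, hγ, hγ]
  have h : (M.map emb).mulVec (coo x) ⬝ᵥ (l5F d).mulVec ((M.map emb).mulVec (coo y)) =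
      coo x ⬝ᵥ ((M.map emb).transpose * l5F d * (M.map emb)).mulVec (coo y) := by
    rw [← Matrix.mulVec_mulVec, ← Matrix.mulVec_mulVec, Matrix.dotProduct_mulVec (coo x),
      Matrix.vecMul_transpose]
  rw [h, l5_Mt d M hM]

theorem l5_ne (d : ℕ) (x : L d) (hx : J x x = -1) : x.1 ≠ 0 := by
  intro h
  unfold J at hx
  rw [h] at hx
  have h1 : (0 : ℝ) ≤ ⟪x.2.1, x.2.1⟫ := real_inner_self_nonneg
  have h2 : (0 : ℝ) ≤ ⟪x.2.2, x.2.2⟫ := real_inner_self_nonneg
  linarith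

theorem l5_Jneg (d : ℕ) (x y : L d) : J x (-y) = -J x y := by
  unfold J
  show -(x.1 * -y.1) + ⟪x.2.1, -y.2.1⟫ + ⟪x.2.2, -y.2.2⟫ = _
  rw [inner_neg_right, inner_neg_right]
  ring

theorem l5_Jcomm (d : ℕ) (x y : L d) : J x y = J y x := by
  unfold J
  rw [real_inner_comm, real_inner_comm y.2.2]
  ring

theorem l5_sheet' (d : ℕ) (x y : L d) (hx : J x x = -1) (hy : J y y = -1) :
    (0 < x.1 ↔ 0 < y.1) ↔ J x y < 0 := by
  have hny : J (-y) (-y) = -1 := by
    rw [l5_Jneg, l5_Jcomm, l5_Jneg, neg_neg, hy]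
  have hnx : J (-x) (-x) = -1 := by
    rw [l5_Jneg, l5_Jcomm, l5_Jneg, neg_neg, hx]
  have hn : ∀ z : L d, (-z).1 = -z.1 := fun z => rfl
  rcases lt_or_gt_of_ne (l5_ne d x hx) with h1 | h1 <;>
    rcases lt_or_gt_of_ne (l5_ne d y hy) with h2 | h2
  · have := l5_sheet d (-x) (-y) hnx hny (by rw [hn]; linarith) (by rw [hn]; linarith)
    rw [l5_Jneg, l5_Jcomm, l5_Jneg, neg_neg, l5_Jcomm] at this
    exact ⟨fun _ => this, fun _ => ⟨fun h => absurd h (not_lt.2 h1.le), fun h => absurd h (not_lt.2 h2.le)⟩⟩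
  · have := l5_sheet d (-x) y hnx hy (by rw [hn]; linarith) h2
    rw [l5_Jcomm, l5_Jneg, l5_Jcomm] at this
    constructor
    · intro h
      exact absurd (h.2 h2) (not_lt.2 h1.le)
    · intro h
      linarith
  · have := l5_sheet d x (-y) hx hny h1 (by rw [hn]; linarith)
    rw [l5_Jneg] at this
    constructor
    · intro h
      exact absurd (h.1 h1) (not_lt.2 h2.le)
    · intro h
      linarith
  · have := l5_sheet d x y hx hy h1 h2
    exact ⟨fun _ => this, fun _ => ⟨fun _ => h2, fun _ => h1⟩⟩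

/-- the Gram matrix of a basis -/
def l5g {d : ℕ} (u : Matrix (Idx d ⊕ Idx d) (Idx d ⊕ Idx d) ℤ) :
    Matrix (Idx d ⊕ Idx d) (Idx d ⊕ Idx d) (ℤ√2) :=
  (l5C d * l5i u).transpose * Jm d * (l5C d * l5i u)

theorem l5_col (d : ℕ) (f : ℤ√2 →+* ℝ) (u : Matrix (Idx d ⊕ Idx d) (Idx d ⊕ Idx d) ℤ)
    (i : Idx d ⊕ Idx d) : (fun k => f ((l5C d * l5i u) k i)) =
      ((l5C d).map f).mulVec (fun j => (u j i : ℝ)) := by
  funext k
  rw [Matrix.mul_apply, map_sum]
  unfold Matrix.mulVec dotProduct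
  apply Finset.sum_congr rfl
  intro j _
  rw [map_mul]
  congr 1
  show f ((u j i : ℤ) : ℤ√2) = (u j i : ℝ)
  exact map_intCast f _

theorem l5_gent (d : ℕ) (f : ℤ√2 →+* ℝ) (u : Matrix (Idx d ⊕ Idx d) (Idx d ⊕ Idx d) ℤ)
    (i j : Idx d ⊕ Idx d) : f (l5g u i j) =
      (fun k => f ((l5C d * l5i u) k i)) ⬝ᵥ ((Jm d).map f).mulVec (fun k => f ((l5C d * l5i u) k j)) := by
  have h : l5g u i j = (fun k => (l5C d * l5i u) k i) ⬝ᵥ (Jm d).mulVec (fun k => (l5C d * l5i u) k j) := by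
    unfold l5g
    rw [Matrix.mul_assoc, Matrix.mul_apply]
    unfold dotProduct
    apply Finset.sum_congr rfl
    intro k _
    rfl
  rw [h, RingHom.map_dotProduct]
  congr 1
  funext k
  show f ((Jm d).mulVec _ k) = _
  rw [RingHom.map_mulVec]
  rfl

/-- the bases given by Hermite reduction -/
theorem l5_base (H : S_HERM) (d : ℕ) : ∃ c : ℝ, ∀ p : P d,
    ∃ u : Matrix (Idx d ⊕ Idx d) (Idx d ⊕ Idx d) ℤ, IsUnit u.det ∧
      (∀ i j, |emb (l5g u i j)| ≤ c ∧ |emb2 (l5g u i j)| ≤ c) ∧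
      ∀ i, ((fun k => emb ((l5C d * l5i u) k i)) ⬝ᵥ (l5F d).mulVec (coo (iota p))) ^ 2 ≤ c := by
  obtain ⟨c, hc⟩ := l5_herm H (Idx d ⊕ Idx d)
    ((l5E d).det * (-(l5F d).det * (l5F2 d).det) * (l5E d).det)
  refine ⟨c, fun p => ?_⟩
  have hq := l5_iota d p
  have hv : coo (iota p) ⬝ᵥ (l5F d).mulVec (coo (iota p)) = -1 := by
    rw [← l5J]
    exact hq
  obtain ⟨u, hu1, hu2⟩ := hc (l5G d (coo (iota p))) (l5G_pos d _ hq) (l5G_det d _ hv).le
    (l5G_min d _ hq)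
  have e1 : ∀ i, (fun k => emb ((l5C d * l5i u) k i)) ⬝ᵥ
      (l5A d (coo (iota p))).mulVec (fun k => emb ((l5C d * l5i u) k i)) ≤ c := by
    intro i
    have := hu2 i
    rw [l5G_quad, ← l5_col, ← l5_col] at this
    have h2 := l5F2_nonneg d (fun k => emb2 ((l5C d * l5i u) k i))
    linarith
  have e2 : ∀ i, (fun k => emb2 ((l5C d * l5i u) k i)) ⬝ᵥ
      (l5F2 d).mulVec (fun k => emb2 ((l5C d * l5i u) k i)) ≤ c := by
    intro i
    have := hu2 i
    rw [l5G_quad, ← l5_col, ← l5_col] at this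
    have h2 := l5A_nonneg d _ hq (fun k => emb ((l5C d * l5i u) k i))
    linarith
  refine ⟨u, hu1, ?_, ?_⟩
  · intro i j
    constructor
    · rw [l5_gent]
      exact l5_polar (l5F d) (l5A d (coo (iota p))) (l5F_symm d) (l5_quadabs d _ hq) _ _ c (e1 i) (e1 j)
    · rw [l5_gent]
      exact l5_polar (l5F2 d) (l5F2 d) (l5F2_symm d)
        (fun y => by rw [abs_of_nonneg (l5F2_nonneg d y)]) _ _ c (e2 i) (e2 j)
  · intro i
    exact (l5_lin2 d _ hq _).trans (e1 i)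

/-- the bound for the moved point -/
theorem l5_bound (d : ℕ) (c : ℝ) (p : P d) (u u' : Matrix (Idx d ⊕ Idx d) (Idx d ⊕ Idx d) ℤ)
    (hu' : IsUnit u'.det)
    (hc : ∀ i, ((fun k => emb ((l5C d * l5i u) k i)) ⬝ᵥ (l5F d).mulVec (coo (iota p))) ^ 2 ≤ c)
    (M : Matrix (Idx d) (Idx d) (ℤ√2)) (hM : M.transpose * Jm d * M = Jm d)
    (hMu : M * (l5C d * l5i u) = l5C d * l5i u')
    (γ : L d ≃ₗ[ℝ] L d) (hγ : ∀ x, coo (γ x) = (M.map emb).mulVec (coo x)) :
    (γ (iota p)).1 ≤ ∑ i, |emb ((l5i u'⁻¹ * l5I d) i (Sum.inl ()))| * (c + 1) := by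
  set z := coo (γ (iota p)) with hz
  -- the products with the vectors of the basis
  have h1 : ∀ i, (fun k => emb ((l5C d * l5i u') k i)) ⬝ᵥ (l5F d).mulVec z =
      (fun k => emb ((l5C d * l5i u) k i)) ⬝ᵥ (l5F d).mulVec (coo (iota p)) := by
    intro i
    have e1 : (fun k => emb ((l5C d * l5i u') k i)) =
        (M.map emb).mulVec (fun k => emb ((l5C d * l5i u) k i)) := by
      rw [← hMu]
      funext k
      rw [Matrix.mul_apply, map_sum]
      unfold Matrix.mulVec dotProduct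
      apply Finset.sum_congr rfl
      intro j _
      rw [map_mul]
      rfl
    rw [hz, hγ, e1]
    have h : ∀ a b : Idx d → ℝ, (M.map emb).mulVec a ⬝ᵥ (l5F d).mulVec ((M.map emb).mulVec b) =
        a ⬝ᵥ ((M.map emb).transpose * l5F d * (M.map emb)).mulVec b := by
      intro a b
      rw [← Matrix.mulVec_mulVec, ← Matrix.mulVec_mulVec, Matrix.dotProduct_mulVec a,
        Matrix.vecMul_transpose]
    rw [h, l5_Mt d M hM]
  have h2 : ∀ i, |(fun k => emb ((l5C d * l5i u') k i)) ⬝ᵥ (l5F d).mulVec z| ≤ c + 1 := by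
    intro i
    rw [h1 i]
    have h3 := hc i
    set t := (fun k => emb ((l5C d * l5i u) k i)) ⬝ᵥ (l5F d).mulVec (coo (iota p))
    rw [← sq_abs] at h3
    nlinarith [sq_nonneg (|t| - 1), abs_nonneg t]
  -- the first unit vector in the basis
  have e0 : l5C d * l5i u' * (l5i u'⁻¹ * l5I d) = 1 := by
    rw [Matrix.mul_assoc, ← Matrix.mul_assoc (l5i u'), ← l5i_mul, Matrix.mul_nonsing_inv _ hu',
      l5i_one, Matrix.one_mul, l5_CI]
  have e3 : ∀ k, (if k = Sum.inl () then (1 : ℝ) else 0) =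
      ∑ i, emb ((l5C d * l5i u') k i) * emb ((l5i u'⁻¹ * l5I d) i (Sum.inl ())) := by
    intro k
    have h4 := congrArg emb (congrFun (congrFun e0 k) (Sum.inl ()))
    rw [Matrix.mul_apply, map_sum] at h4
    simp only [map_mul] at h4
    rw [h4, Matrix.one_apply]
    split_ifs
    · exact (map_one emb).symm
    · exact (map_zero emb).symm
  have h5 : (l5F d).mulVec z (Sum.inl ()) = ∑ i, emb ((l5i u'⁻¹ * l5I d) i (Sum.inl ())) *
      ((fun k => emb ((l5C d * l5i u') k i)) ⬝ᵥ (l5F d).mulVec z) := by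
    have e4 : (l5F d).mulVec z (Sum.inl ()) =
        ∑ k, (if k = Sum.inl () then (1 : ℝ) else 0) * (l5F d).mulVec z k := by
      simp
    rw [e4]
    unfold dotProduct
    simp_rw [e3, Finset.sum_mul, Finset.mul_sum]
    rw [Finset.sum_comm]
    apply Finset.sum_congr rfl
    intro i _
    apply Finset.sum_congr rfl
    intro k _
    ring
  have h6 : |(l5F d).mulVec z (Sum.inl ())| ≤
      ∑ i, |emb ((l5i u'⁻¹ * l5I d) i (Sum.inl ()))| * (c + 1) := by
    rw [h5]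
    refine (Finset.abs_sum_le_sum_abs _ _).trans (Finset.sum_le_sum fun i _ => ?_)
    rw [abs_mul]
    exact mul_le_mul_of_nonneg_left (h2 i) (abs_nonneg _)
  have h7 : (l5F d).mulVec z (Sum.inl ()) = -√2 * z (Sum.inl ()) := by
    rw [l5F_eq, Matrix.mulVec_diagonal]
  have h8 : z (Sum.inl ()) = (γ (iota p)).1 / √(√2) := rfl
  have h9 : √2 * ((γ (iota p)).1 / √(√2)) = √(√2) * (γ (iota p)).1 := by
    have := l5_s.ne'
    field_simp
    rw [pow_two, l5_s2]
    ring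
  have h10 : (1 : ℝ) ≤ √(√2) := by
    rw [Real.one_le_sqrt, Real.one_le_sqrt]
    norm_num
  rw [h7, h8, neg_mul, abs_neg, h9] at h6
  have h11 := le_abs_self (√(√2) * (γ (iota p)).1)
  rcases le_or_gt (γ (iota p)).1 0 with h12 | h12
  · have h13 := abs_nonneg (√(√2) * (γ (iota p)).1)
    linarith
  · nlinarith

theorem l5_fin2 {α β : Type} [Nonempty α] (D : α → β) (hD : (Set.range D).Finite) (R : α → ℝ) :
    ∃ B : ℝ, ∀ p, ∃ p', D p = D p' ∧ R p' ≤ B := by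
  obtain ⟨B, hB⟩ := (hD.image (fun t => R (Function.invFun D t))).bddAbove
  refine ⟨B, fun p => ⟨Function.invFun D (D p), ?_, ?_⟩⟩
  · exact (Function.invFun_eq ⟨p, rfl⟩).symm
  · exact hB ⟨D p, ⟨p, rfl⟩, rfl⟩

open Classical in
theorem t_L5 : S_L5 := by
  intro H d m hm
  have hmz : NeZero m := ⟨by omega⟩
  obtain ⟨c, hc⟩ := l5_base H d
  choose u hu1 hu2 hu3 using hc
  -- the first invariant
  let D : P d → Matrix (Idx d ⊕ Idx d) (Idx d ⊕ Idx d) (ℤ√2) × Matrix (Idx d ⊕ Idx d) (Idx d ⊕ Idx d) (ZMod m) :=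
    fun p => (l5g (u p), (u p).map (Int.castRingHom (ZMod m)))
  have hDfin : (Set.range D).Finite := by
    have h1 : {g : Matrix (Idx d ⊕ Idx d) (Idx d ⊕ Idx d) (ℤ√2) |
        ∀ i j, g i j ∈ {z : ℤ√2 | |emb z| ≤ c ∧ |emb2 z| ≤ c}}.Finite := by
      have := Set.Finite.pi' (fun _ : Idx d ⊕ Idx d => Set.Finite.pi' (fun _ : Idx d ⊕ Idx d => l5_fin c))
      exact this
    refine (h1.prod (Set.finite_univ (α := Matrix (Idx d ⊕ Idx d) (Idx d ⊕ Idx d) (ZMod m)))).subset ?_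
    rintro _ ⟨p, rfl⟩
    exact ⟨fun i j => hu2 p i j, Set.mem_univ _⟩
  -- the matrices
  have hB : ∀ p p', D p = D p' → ∃ M : (Matrix (Idx d) (Idx d) (ℤ√2))ˣ,
      M.val.transpose * Jm d * M.val = Jm d ∧ (∀ i j, (m : ℤ√2) ∣ (M.val - 1) i j) ∧
      M.val * (l5C d * l5i (u p)) = l5C d * l5i (u p') := by
    intro p p' h
    have h1 := congrArg Prod.fst h
    have h2 := congrArg Prod.snd h
    have h3 : ∀ i j, (m : ℤ) ∣ u p' i j - u p i j := by
      intro i j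
      have := congrFun (congrFun h2 i) j
      exact (ZMod.intCast_eq_intCast_iff_dvd_sub _ _ _).1 this
    choose w hw using h3
    refine l5_B d m (u p) (u p') (Matrix.of w) (hu1 p) (hu1 p') ?_ h1
    ext i j
    show u p' i j = u p i j + (m : ℤ) • w i j
    rw [smul_eq_mul, ← hw i j]
    ring
  let r : P d → P d := fun p => Function.invFun D (D p)
  have hr : ∀ p, D p = D (r p) := fun p => (Function.invFun_eq ⟨p, rfl⟩).symm
  choose M hM1 hM2 hM3 using fun p => hB p (r p) (hr p)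
  choose γ hγ using fun p => l5_gam d (M p)
  let x0 : L d := iota 0
  let D2 : P d → (Matrix (Idx d ⊕ Idx d) (Idx d ⊕ Idx d) (ℤ√2) ×
      Matrix (Idx d ⊕ Idx d) (Idx d ⊕ Idx d) (ZMod m)) × Prop := fun p => (D p, 0 < (γ p x0).1)
  have hD2fin : (Set.range D2).Finite := by
    refine (hDfin.prod (Set.finite_univ (α := Prop))).subset ?_
    rintro _ ⟨p, rfl⟩
    exact ⟨⟨p, rfl⟩, Set.mem_univ _⟩
  obtain ⟨B, hBd⟩ := l5_fin2 D2 hD2fin
    (fun p' => ∑ i, |emb ((l5i (u p')⁻¹ * l5I d) i (Sum.inl ()))| * (c + 1))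
  refine ⟨B, fun p => ?_⟩
  obtain ⟨p', hp, hpB⟩ := hBd p
  have hpD : D p = D p' := congrArg Prod.fst hp
  have hps : (0 < (γ p x0).1) = (0 < (γ p' x0).1) := congrArg Prod.snd hp
  obtain ⟨N, hN1, hN2, hN3⟩ := hB p p' hpD
  obtain ⟨δ, hδ⟩ := l5_gam d N
  have hrr : r p = r p' := by
    show Function.invFun D (D p) = Function.invFun D (D p')
    rw [hpD]
  -- the composition
  have hcomp : (M p').val * N.val = (M p).val := by
    have e1 : (M p').val * N.val * (l5C d * l5i (u p)) = (M p).val * (l5C d * l5i (u p)) := by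
      rw [Matrix.mul_assoc, hN3, hM3, hM3, hrr]
    have e2 : l5C d * l5i (u p) * (l5i (u p)⁻¹ * l5I d) = 1 := by
      rw [Matrix.mul_assoc, ← Matrix.mul_assoc (l5i (u p)), ← l5i_mul,
        Matrix.mul_nonsing_inv _ (hu1 p), l5i_one, Matrix.one_mul, l5_CI]
    have e3 := congrArg (fun X => X * (l5i (u p)⁻¹ * l5I d)) e1
    simp only [Matrix.mul_assoc _ (l5C d * l5i (u p)), e2, Matrix.mul_one] at e3
    exact e3
  have hcomp2 : ∀ x, γ p' (δ x) = γ p x := by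
    intro x
    apply (l5coo d).injective
    show coo (γ p' (δ x)) = coo (γ p x)
    rw [hγ, hδ, hγ, Matrix.mulVec_mulVec, ← Matrix.map_mul, hcomp]
  have i1 := l5_isom d (M p).val (hM1 p) (γ p) (hγ p)
  have i2 := l5_isom d (M p').val (hM1 p') (γ p') (hγ p')
  have i3 := l5_isom d N.val hN1 δ hδ
  have hx0 : J x0 x0 = -1 := l5_iota d 0
  refine ⟨δ, ⟨?_, N, hN1, hN2, hδ⟩, ?_⟩
  · intro x
    have hx := l5_iota d x
    have hz : J (δ (iota x)) (δ (iota x)) = -1 := by rw [i3]; exact hx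
    have a1 := l5_sheet' d (γ p' (δ (iota x))) (γ p' x0) (by rw [i2]; exact hz) (by rw [i2]; exact hx0)
    rw [i2, ← l5_sheet' d (δ (iota x)) x0 hz hx0] at a1
    have a2 := l5_sheet' d (γ p (iota x)) (γ p x0) (by rw [i1]; exact hx) (by rw [i1]; exact hx0)
    rw [i1, ← l5_sheet' d (iota x) x0 hx hx0] at a2
    have a3 : 0 < (iota x).1 := l5_iota_pos d x
    have a4 : 0 < x0.1 := l5_iota_pos d 0
    rw [hcomp2] at a1
    rw [hps] at a2
    tauto
  · exact (l5_bound d c p (u p) (u p') (hu1 p') (hu3 p) N.val hN1 hN3 δ hδ).trans hpB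

end Pool.Agent.Helper473.LY
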