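import Pool.Agent.Helper473.LY.Stmts

set_option autoImplicit false

open scoped Manifold ContDiff Topology RealInnerProductSpace
open Module

namespace Pool.Agent.Helper473.LY

open Pool.Agent.H234R3

section n1

variable {E E' : Type} [NormedAddCommGroup E] [NormedSpace ℝ E] [FiniteDimensional ℝ E]
  [NormedAddCommGroup E'] [NormedSpace ℝ E'] [FiniteDimensional ℝ E']

/-- The metric as a map to the continuous bilinear forms. -/
noncomputable def n1_B (g : E' → E' → E' → ℝ) (U : Set E') (hg : IsMet g U) (z : E') :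
    E' →L[ℝ] E' →L[ℝ] ℝ :=
  LinearMap.toContinuousLinearMap
    { toFun := fun u => LinearMap.toContinuousLinearMap
        { toFun := fun v => g z u v
          map_add' := fun v v' => by rw [hg.symm, hg.add, hg.symm z v, hg.symm z v']
          map_smul' := fun c v => by rw [hg.symm, hg.smul, hg.symm z v]; rfl }
      map_add' := fun u u' => by ext v; exact hg.add z u u' v
      map_smul' := fun c u => by ext v; exact hg.smul z c u v }

theorem n1_B_apply (g : E' → E' → E' → ℝ) (U : Set E') (hg : IsMet g U) (z u v : E') :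
    n1_B g U hg z u v = g z u v := rfl

theorem n1_B_smooth (g : E' → E' → E' → ℝ) (U : Set E') (hg : IsMet g U) :
    ContDiffOn ℝ ∞ (n1_B g U hg) U := by
  rw [contDiffOn_clm_apply]
  intro u
  rw [contDiffOn_clm_apply]
  intro v
  exact hg.smooth u v

theorem n1_der (g : E' → E' → E' → ℝ) (U : Set E') (hg : IsMet g U) (hU : IsOpen U) (z : E')
    (hz : z ∈ U) (a b c : E') :
    der (fun w => g w b c) z a = fderiv ℝ (n1_B g U hg) z a b c := by
  have h1 : DifferentiableAt ℝ (n1_B g U hg) z :=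
    ((n1_B_smooth g U hg).contDiffAt (hU.mem_nhds hz)).differentiableAt (by simp)
  have h2 := (h1.hasFDerivAt.clm_apply (hasFDerivAt_const b z)).clm_apply (hasFDerivAt_const c z)
  have h3 : der (fun w => g w b c) z a = fderiv ℝ (fun w => n1_B g U hg w b c) z a := rfl
  rw [h3, h2.fderiv]
  simp

theorem n1_koszul (g : E' → E' → E' → ℝ) (U : Set E') (hg : IsMet g U) (hU : IsOpen U) (z : E')
    (hz : z ∈ U) (a b c : E') :
    koszul g z a b c = (fderiv ℝ (n1_B g U hg) z a b c + fderiv ℝ (n1_B g U hg) z b a c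
      - fderiv ℝ (n1_B g U hg) z c a b) / 2 := by
  unfold koszul
  rw [n1_der g U hg hU z hz, n1_der g U hg hU z hz, n1_der g U hg hU z hz]

theorem n1_nondeg (g : E' → E' → E' → ℝ) (U : Set E') (hg : IsMet g U) (z : E')
    (hz : z ∈ U) (u v : E') (h : ∀ c, g z u c = g z v c) : u = v := by
  by_contra huv
  have h1 := hg.pos z hz (u - v) (sub_ne_zero.mpr huv)
  have h2 : g z (u - v) (u - v) = 0 := by
    have h3 := h (u - v)
    have e : n1_B g U hg z (u - v) (u - v)
        = n1_B g U hg z u (u - v) - n1_B g U hg z v (u - v) := by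
      rw [(n1_B g U hg z).map_sub u v]; rfl
    simp only [n1_B_apply] at e
    rw [e, h3, sub_self]
  linarith

/-- The Christoffel symbols as a bilinear map. -/
noncomputable def n1_G (Γ : E' → E' → E' → E') (z : E') : E' →L[ℝ] E' →L[ℝ] E' :=
  ∑ i, ∑ j, (LinearMap.toContinuousLinearMap ((finBasis ℝ E').coord i)).smulRight
    ((LinearMap.toContinuousLinearMap ((finBasis ℝ E').coord j)).smulRight
      (Γ z (finBasis ℝ E' i) (finBasis ℝ E' j)))

omit [FiniteDimensional ℝ E'] in
theorem n1_G_diff1 (ci cj : E' →L[ℝ] ℝ) (f : E' → E') (z : E') (h1 : DifferentiableAt ℝ f z) :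
    DifferentiableAt ℝ (fun z => ci.smulRight (cj.smulRight (f z))) z := by
  let Lj : E' →L[ℝ] (E' →L[ℝ] E') := ContinuousLinearMap.smulRightL ℝ E' E' cj
  let Li : (E' →L[ℝ] E') →L[ℝ] (E' →L[ℝ] (E' →L[ℝ] E')) :=
    ContinuousLinearMap.smulRightL ℝ E' (E' →L[ℝ] E') ci
  have h2 : DifferentiableAt ℝ (fun z => Lj (f z)) z :=
    DifferentiableAt.comp (g := Lj) z Lj.differentiableAt h1
  exact DifferentiableAt.comp (g := Li) z Li.differentiableAt h2

theorem n1_G_diff (Γ : E' → E' → E' → E') (z : E')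
    (h : ∀ a b, DifferentiableAt ℝ (fun z => Γ z a b) z) : DifferentiableAt ℝ (n1_G Γ) z := by
  have key : ∀ i j, DifferentiableAt ℝ (fun z =>
      (LinearMap.toContinuousLinearMap ((finBasis ℝ E').coord i)).smulRight
      ((LinearMap.toContinuousLinearMap ((finBasis ℝ E').coord j)).smulRight
      (Γ z (finBasis ℝ E' i) (finBasis ℝ E' j)))) z := by
    intro i j
    exact n1_G_diff1 _ _ _ _ (h _ _)
  exact DifferentiableAt.fun_sum (u := Finset.univ) (A := fun i z => ∑ j,
      (LinearMap.toContinuousLinearMap ((finBasis ℝ E').coord i)).smulRight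
      ((LinearMap.toContinuousLinearMap ((finBasis ℝ E').coord j)).smulRight
      (Γ z (finBasis ℝ E' i) (finBasis ℝ E' j)))) fun i _ =>
      DifferentiableAt.fun_sum (u := Finset.univ) fun j _ => key i j

theorem n1_G_apply (g : E' → E' → E' → ℝ) (U : Set E') (hg : IsMet g U) (hU : IsOpen U) (z : E')
    (hz : z ∈ U) (Γ : E' → E' → E' → E') (hΓ : IsChristoffel g z (Γ z)) (u v : E') :
    n1_G Γ z u v = Γ z u v := by
  have hk := n1_koszul g U hg hU z hz
  have hnd := n1_nondeg g U hg z hz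
  have ea : ∀ u u' c, g z (u + u') c = g z u c + g z u' c := fun u u' c => hg.add z u u' c
  have es : ∀ (r : ℝ) u c, g z (r • u) c = r * g z u c := fun r u c => hg.smul z r u c
  let L : E' →ₗ[ℝ] E' →ₗ[ℝ] E' := LinearMap.mk₂ ℝ (Γ z)
    (fun a a' b => hnd _ _ fun c => by
      rw [ea, hΓ, hΓ, hΓ, hk, hk, hk]
      simp only [map_add, add_apply]; ring)
    (fun r a b => hnd _ _ fun c => by
      rw [es, hΓ, hΓ, hk, hk]
      simp only [map_smul, smul_apply, smul_eq_mul]; ring)
    (fun a b b' => hnd _ _ fun c => by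
      rw [ea, hΓ, hΓ, hΓ, hk, hk, hk]
      simp only [map_add, add_apply]; ring)
    (fun r a b => hnd _ _ fun c => by
      rw [es, hΓ, hΓ, hk, hk]
      simp only [map_smul, smul_apply, smul_eq_mul]; ring)
  have hL : ∀ a b, L a b = Γ z a b := fun a b => rfl
  have h1 : Γ z u v = L (∑ i, (finBasis ℝ E').repr u i • finBasis ℝ E' i)
      (∑ j, (finBasis ℝ E').repr v j • finBasis ℝ E' j) := by
    rw [Basis.sum_repr, Basis.sum_repr, hL]
  rw [h1]
  simp only [n1_G, map_sum, map_smul, LinearMap.sum_apply, LinearMap.smul_apply,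
    sum_apply, ContinuousLinearMap.smulRight_apply,
    LinearMap.coe_toContinuousLinearMap', Basis.coord_apply, smul_apply, hL]
  simp only [Finset.smul_sum]
  rw [Finset.sum_comm]
  refine Finset.sum_congr rfl fun i _ => Finset.sum_congr rfl fun j _ => ?_
  first | rfl | rw [smul_comm]

end n1

theorem t_N1 : S_N1 := by
  intro E E' _ _ _ _ _ _ g g' U' φ y hU' hg' hy hφ hbij hgg' hneg
  obtain ⟨Γ', hΓd, hΓc, hΓn⟩ := hneg
  have hφ4 : ContDiffAt ℝ 4 φ y := hφ.of_le
    (WithTop.coe_le_coe.2 le_top : ((4 : ℕ∞) : WithTop ℕ∞) ≤ ((⊤ : ℕ∞) : WithTop ℕ∞))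
  have hφ4e : ∀ᶠ z in 𝓝 y, ContDiffAt ℝ 4 φ z := hφ4.eventually (by simp)
  set B := n1_B g' U' hg' with hB
  set G := n1_G Γ' with hG
  set A : E → E →L[ℝ] E' := fderiv ℝ φ with hA
  set A2 : E → E →L[ℝ] E →L[ℝ] E' := fderiv ℝ A with hA2
  set A3 : E →L[ℝ] E →L[ℝ] E →L[ℝ] E' := fderiv ℝ A2 y with hA3
  have hA1 : ∀ᶠ z in 𝓝 y, HasFDerivAt φ (A z) z := by
    filter_upwards [hφ4e] with z hz
    exact (hz.differentiableAt (by norm_num)).hasFDerivAt
  have hAc : ∀ z, ContDiffAt ℝ 4 φ z → ContDiffAt ℝ 3 A z := fun z hz =>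
    hz.fderiv_right (by norm_num)
  have hA2c : ∀ z, ContDiffAt ℝ 4 φ z → ContDiffAt ℝ 2 A2 z := fun z hz =>
    (hAc z hz).fderiv_right (by norm_num)
  have hA2d : ∀ᶠ z in 𝓝 y, HasFDerivAt A (A2 z) z := by
    filter_upwards [hφ4e] with z hz
    exact ((hAc z hz).differentiableAt (by norm_num)).hasFDerivAt
  have hA3d : HasFDerivAt A2 A3 y := ((hA2c y hφ4).differentiableAt (by norm_num)).hasFDerivAt
  have hsym2 : ∀ᶠ z in 𝓝 y, ∀ a b, A2 z a b = A2 z b a := by
    filter_upwards [hφ4e] with z hz a b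
    exact (hz.isSymmSndFDerivAt (by rw [minSmoothness_of_isRCLikeNormedField]; norm_num)) a b
  have hsym3 : ∀ a b, A3 a b = A3 b a := fun a b =>
    ((hAc y hφ4).isSymmSndFDerivAt
      (by rw [minSmoothness_of_isRCLikeNormedField]; norm_num)) a b
  have hGap : ∀ᶠ w in 𝓝 (φ y), ∀ u v, G w u v = Γ' w u v := by
    filter_upwards [hΓc, hU'.mem_nhds hy] with w hw hwU u v
    exact n1_G_apply g' U' hg' hU' w hwU Γ' hw u v
  have hGd : HasFDerivAt G (fderiv ℝ G (φ y)) (φ y) := (n1_G_diff Γ' (φ y) hΓd).hasFDerivAt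
  have hφc : ContinuousAt φ y := hφ.continuousAt
  obtain ⟨e, he⟩ : ∃ e : E ≃L[ℝ] E', (e : E →L[ℝ] E') = A y :=
    ⟨(LinearEquiv.ofBijective (A y : E →ₗ[ℝ] E') hbij).toContinuousLinearEquiv, by ext x; rfl⟩
  have hinv : ∀ᶠ z in 𝓝 y, ∃ e : E ≃L[ℝ] E', (e : E →L[ℝ] E') = A z := by
    have h1 := e.nhds
    rw [he] at h1
    exact (hAc y hφ4).continuousAt.eventually h1
  let Γ : E → E → E → E := fun z a b =>
    ContinuousLinearMap.inverse (A z) (G (φ z) (A z a) (A z b) + A2 z a b)
  have hrel : ∀ᶠ z in 𝓝 y, ∀ a b, A z (Γ z a b) = G (φ z) (A z a) (A z b) + A2 z a b := by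
    filter_upwards [hinv] with z hz a b
    obtain ⟨e, he⟩ := hz
    simp only [Γ]
    rw [← he, ContinuousLinearMap.inverse_equiv]
    simp
  have hinvd : DifferentiableAt ℝ (fun z => ContinuousLinearMap.inverse (A z)) y := by
    have h1 : ContDiffAt ℝ 1 (ContinuousLinearMap.inverse : (E →L[ℝ] E') → E' →L[ℝ] E) (A y) := by
      rw [← he]; exact contDiffAt_map_inverse e
    exact (h1.differentiableAt (by norm_num)).comp y
      ((hAc y hφ4).differentiableAt (by norm_num))
  have hφy : HasFDerivAt φ (A y) y := hA1.self_of_nhds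
  have hA2y : HasFDerivAt A (A2 y) y := hA2d.self_of_nhds
  have hGφ : HasFDerivAt (fun z => G (φ z)) ((fderiv ℝ G (φ y)).comp (A y)) y :=
    HasFDerivAt.comp (g := G) y hGd hφy
  have hrhs : ∀ p q, HasFDerivAt (fun z => G (φ z) (A z p) (A z q) + A2 z p q) _ y := fun p q =>
    ((hGφ.clm_apply (hA2y.clm_apply (hasFDerivAt_const p y))).clm_apply
      (hA2y.clm_apply (hasFDerivAt_const q y))).add
      ((hA3d.clm_apply (hasFDerivAt_const p y)).clm_apply (hasFDerivAt_const q y))
  have hΓd' : ∀ a b, DifferentiableAt ℝ (fun z => Γ z a b) y := fun a b =>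
    hinvd.clm_apply (hrhs a b).differentiableAt
  refine ⟨Γ, hΓd', ?_, ?_⟩
  · filter_upwards [hgg'.eventually_nhds, hφc.eventually hΓc, hφc.eventually (hU'.mem_nhds hy),
      hφc.eventually hGap, hA1, hA2d, hsym2, hrel] with z h1 h2 h3 h4 h5 h6 h7 h8 a b c
    have hBd : HasFDerivAt B (fderiv ℝ B (φ z)) (φ z) :=
      (((n1_B_smooth g' U' hg').contDiffAt (hU'.mem_nhds h3)).differentiableAt
        (by simp)).hasFDerivAt
    have hder : ∀ a b c, der (fun w => g w b c) z a = fderiv ℝ B (φ z) (A z a) (A z b) (A z c)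
        + B (φ z) (A2 z a b) (A z c) + B (φ z) (A z b) (A2 z a c) := by
      intro a b c
      have e1 : (fun w => g w b c) =ᶠ[𝓝 z] fun w => B (φ w) (A w b) (A w c) := by
        filter_upwards [h1] with w hw
        exact hw b c
      have hBφ : HasFDerivAt (fun w => B (φ w)) ((fderiv ℝ B (φ z)).comp (A z)) z :=
        HasFDerivAt.comp (g := B) z hBd h5
      have e2 := ((hBφ.clm_apply (h6.clm_apply (hasFDerivAt_const b z))).clm_apply
        (h6.clm_apply (hasFDerivAt_const c z)))
      have e3 : HasFDerivAt (fun w => B (φ w) (A w b) (A w c)) _ z := e2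
      unfold der
      rw [e1.fderiv_eq, e3.fderiv]
      simp
      ring
    have hk := n1_koszul g' U' hg' hU' (φ z) h3
    have e4 : g z (Γ z a b) c = B (φ z) (A z (Γ z a b)) (A z c) := h1.self_of_nhds _ _
    have e5 : B (φ z) (G (φ z) (A z a) (A z b)) (A z c)
        = koszul g' (φ z) (A z a) (A z b) (A z c) := by
      rw [h4]; exact h2 _ _ _
    rw [e4, h8, map_add, add_apply, e5, hk]
    unfold koszul
    rw [hder, hder, hder, h7 b a, h7 c a, h7 c b]
    have e6 : ∀ u v, B (φ z) u v = B (φ z) v u := fun u v => hg'.symm (φ z) u v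
    rw [e6 (A z b) (A2 z a c), e6 (A z a) (A2 z b c)]
    ring
  · intro a b hab
    have hkey : ∀ p q r, A y (fderiv ℝ (fun z => Γ z p q) y r) + A2 y r (Γ y p q)
        = fderiv ℝ G (φ y) (A y r) (A y p) (A y q) + G (φ y) (A2 y r p) (A y q)
          + G (φ y) (A y p) (A2 y r q) + A3 r p q := by
      intro p q r
      have e1 : (fun z => A z (Γ z p q)) =ᶠ[𝓝 y]
          (fun z => G (φ z) (A z p) (A z q) + A2 z p q) := by
        filter_upwards [hrel] with z hz
        exact hz p q
      have e2 : HasFDerivAt (fun z => A z (Γ z p q)) _ y :=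
        hA2y.clm_apply (hΓd' p q).hasFDerivAt
      have e3 := congrArg (fun T : E →L[ℝ] E' => T r)
        ((e2.congr_of_eventuallyEq e1.symm).unique (hrhs p q))
      simp only [add_apply, ContinuousLinearMap.comp_apply, ContinuousLinearMap.flip_apply] at e3
      simp at e3
      rw [e3]
      abel
    have hGy : ∀ u v, G (φ y) u v = Γ' (φ y) u v := hGap.self_of_nhds
    have hry : ∀ a b, A y (Γ y a b) = G (φ y) (A y a) (A y b) + A2 y a b := hrel.self_of_nhds
    have hs2 : ∀ a b, A2 y a b = A2 y b a := hsym2.self_of_nhds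
    have hGf : ∀ v w u, fderiv ℝ (fun z => Γ' z v w) (φ y) u = fderiv ℝ G (φ y) u v w := by
      intro v w u
      have e1 : (fun z => Γ' z v w) =ᶠ[𝓝 (φ y)] (fun z => G z v w) := by
        filter_upwards [hGap] with z hz
        exact (hz v w).symm
      have e2 := (hGd.clm_apply (hasFDerivAt_const v (φ y))).clm_apply
        (hasFDerivAt_const w (φ y))
      have e3 : HasFDerivAt (fun z => G z v w) _ (φ y) := e2
      rw [e1.fderiv_eq, e3.fderiv]
      simp
    have hriem : A y (riem Γ y a b b) = riem Γ' (φ y) (A y a) (A y b) (A y b) := by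
      unfold riem
      rw [hGf, hGf, ← hGy, ← hGy, ← hGy, ← hGy]
      have k1 := hkey b b a
      have k2 := hkey a b b
      simp only [map_add, map_sub, hry]
      rw [← eq_sub_iff_add_eq] at k1 k2
      rw [k1, k2, hs2 b a, show A3 b a b = A3 a b b from by rw [hsym3]]
      abel
    have e4 : g y (riem Γ y a b b) a = g' (φ y) (A y (riem Γ y a b b)) (A y a) :=
      hgg'.self_of_nhds _ _
    rw [e4, hriem]
    apply hΓn
    have h1 := hab.map' (A y : E →ₗ[ℝ] E') (LinearMap.ker_eq_bot.mpr hbij.1)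
    have e5 : (⇑(A y : E →ₗ[ℝ] E') ∘ ![a, b]) = ![A y a, A y b] := by
      ext i
      fin_cases i <;> rfl
    rw [e5] at h1
    exact h1

end Pool.Agent.Helper473.LY
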