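/-
PROJECT LY (MP_dbccd7_gt, helper473): Lawson-Yau problem. Task N2: vanishing of the tension field is
invariant under changes of coordinates.
-/
import Pool.Agent.Helper473.LY.Stmts

set_option autoImplicit false

open scoped Manifold ContDiff Topology RealInnerProductSpace
open Module

namespace Pool.Agent.Helper473.LY

open Pool.Agent.H234R3

lemma n2_le2 : (2 : WithTop ℕ∞) ≤ ∞ := WithTop.coe_le_coe.2 le_top

lemma n2_le : (1 : WithTop ℕ∞) + 1 ≤ ∞ := by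
  rw [one_add_one_eq_two]
  exact n2_le2

lemma n2_le1 : (1 : WithTop ℕ∞) ≤ ∞ := WithTop.coe_le_coe.2 le_top

/-- A metric as a smooth map to the continuous bilinear forms. -/
lemma n2_clm {E : Type} [NormedAddCommGroup E] [NormedSpace ℝ E] [FiniteDimensional ℝ E]
    {g : E → E → E → ℝ} {A : Set E} (hg : IsMet g A) :
    ∃ G : E → E →L[ℝ] E →L[ℝ] ℝ, (∀ y u v, G y u v = g y u v) ∧ ContDiffOn ℝ ∞ G A := by
  have addr : ∀ y u v v', g y u (v + v') = g y u v + g y u v' := by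
    intro y u v v'
    rw [hg.symm y u, hg.add, hg.symm y v, hg.symm y v']
  have smulr : ∀ y (c : ℝ) u v, g y u (c • v) = c * g y u v := by
    intro y c u v
    rw [hg.symm y u, hg.smul, hg.symm y v]
  let B : E → E →ₗ[ℝ] E →ₗ[ℝ] ℝ := fun y => LinearMap.mk₂ ℝ (g y) (fun u u' v => hg.add y u u' v)
    (fun c u v => hg.smul y c u v) (fun u v v' => addr y u v v') (fun c u v => smulr y c u v)
  let G : E → E →L[ℝ] E →L[ℝ] ℝ := fun y => LinearMap.toContinuousLinearMap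
    ((LinearMap.toContinuousLinearMap : (E →ₗ[ℝ] ℝ) ≃ₗ[ℝ] (E →L[ℝ] ℝ)).toLinearMap ∘ₗ B y)
  have hG : ∀ y u v, G y u v = g y u v := fun y u v => rfl
  refine ⟨G, hG, ?_⟩
  rw [contDiffOn_clm_apply]
  intro u
  rw [contDiffOn_clm_apply]
  intro v
  exact hg.smooth u v

/-- Derivative of a pull-back. -/
lemma n2_pull {E E' : Type} [NormedAddCommGroup E] [NormedSpace ℝ E]
    [NormedAddCommGroup E'] [NormedSpace ℝ E'] {G : E' → E' →L[ℝ] E' →L[ℝ] ℝ} {φ : E → E'} {y : E}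
    (hG : DifferentiableAt ℝ G (φ y)) (hφ : DifferentiableAt ℝ φ y) {X Y : E → E'}
    (hX : DifferentiableAt ℝ X y) (hY : DifferentiableAt ℝ Y y) (a : E) :
    fderiv ℝ (fun z => G (φ z) (X z) (Y z)) y a =
      fderiv ℝ G (φ y) (fderiv ℝ φ y a) (X y) (Y y) + G (φ y) (fderiv ℝ X y a) (Y y) +
        G (φ y) (X y) (fderiv ℝ Y y a) := by
  have h0 : HasFDerivAt (fun z => G (φ z)) ((fderiv ℝ G (φ y)).comp (fderiv ℝ φ y)) y :=
    HasFDerivAt.comp (g := G) (f := φ) y hG.hasFDerivAt hφ.hasFDerivAt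
  have h1 := h0.clm_apply hX.hasFDerivAt
  have h2 := h1.clm_apply hY.hasFDerivAt
  rw [h2.fderiv]
  simp only [add_apply, ContinuousLinearMap.comp_apply, ContinuousLinearMap.flip_apply]
  ring

/-- Christoffel symbols of a pull-back. -/
lemma n2_chr {E E' : Type} [NormedAddCommGroup E] [NormedSpace ℝ E] [FiniteDimensional ℝ E]
    [NormedAddCommGroup E'] [NormedSpace ℝ E'] [FiniteDimensional ℝ E']
    {g : E → E → E → ℝ} {g' : E' → E' → E' → ℝ} {A : Set E'} {φ : E → E'} {y : E}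
    (hA : IsOpen A) (hg : IsMet g' A) (hy : φ y ∈ A) (hφ : ContDiffAt ℝ ∞ φ y)
    (hgg : ∀ᶠ z in 𝓝 y, ∀ a b, g z a b = g' (φ z) (fderiv ℝ φ z a) (fderiv ℝ φ z b))
    {Γ' : E' → E' → E'} (hΓ' : IsChristoffel g' (φ y) Γ') {Γ : E → E → E}
    (hΓ : ∀ a b, fderiv ℝ φ y (Γ a b) =
      Γ' (fderiv ℝ φ y a) (fderiv ℝ φ y b) + fderiv ℝ (fderiv ℝ φ) y a b) :
    IsChristoffel g y Γ := by
  obtain ⟨G, hG, hGs⟩ := n2_clm hg
  have hGd : DifferentiableAt ℝ G (φ y) :=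
    (hGs.contDiffAt (hA.mem_nhds hy)).differentiableAt (by simp)
  have hφd : DifferentiableAt ℝ φ y := hφ.differentiableAt (by simp)
  have hφ2 : DifferentiableAt ℝ (fderiv ℝ φ) y :=
    (hφ.fderiv_right (m := 1) n2_le).differentiableAt (by simp)
  have hsym : ∀ a b, fderiv ℝ (fderiv ℝ φ) y a b = fderiv ℝ (fderiv ℝ φ) y b a := by
    intro a b
    have := (hφ.of_le (m := 2) n2_le2).isSymmSndFDerivAt (by simp)
    exact this a b
  have hXd : ∀ b, DifferentiableAt ℝ (fun z => fderiv ℝ φ z b) y := fun b =>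
    hφ2.clm_apply (differentiableAt_const b)
  have hXf : ∀ a b, fderiv ℝ (fun z => fderiv ℝ φ z b) y a = fderiv ℝ (fderiv ℝ φ) y a b := by
    intro a b
    have h := (hφ2.hasFDerivAt.clm_apply (hasFDerivAt_const b y)).fderiv
    rw [h]
    simp
  -- the derivative of `g`
  have hder : ∀ a b c, der (fun z => g z b c) y a =
      fderiv ℝ G (φ y) (fderiv ℝ φ y a) (fderiv ℝ φ y b) (fderiv ℝ φ y c) +
        G (φ y) (fderiv ℝ (fderiv ℝ φ) y a b) (fderiv ℝ φ y c) +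
        G (φ y) (fderiv ℝ φ y b) (fderiv ℝ (fderiv ℝ φ) y a c) := by
    intro a b c
    have h1 : (fun z => g z b c) =ᶠ[𝓝 y] fun z => G (φ z) (fderiv ℝ φ z b) (fderiv ℝ φ z c) := by
      filter_upwards [hgg] with z hz
      rw [hz, hG]
    unfold der
    rw [h1.fderiv_eq, n2_pull hGd hφd (hXd b) (hXd c), hXf, hXf]
  have hder' : ∀ a b c, der (fun z => g' z b c) (φ y) a = fderiv ℝ G (φ y) a b c := by
    intro a b c
    have h1 : (fun z => g' z b c) = fun z => G z b c := by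
      ext z
      rw [hG]
    unfold der
    rw [h1]
    have h := ((hGd.hasFDerivAt.clm_apply (hasFDerivAt_const b (φ y))).clm_apply
      (hasFDerivAt_const c (φ y))).fderiv
    rw [h]
    simp
  intro a b c
  have h1 := hgg.self_of_nhds (Γ a b) c
  have h2 := hΓ' (fderiv ℝ φ y a) (fderiv ℝ φ y b) (fderiv ℝ φ y c)
  have hsymG : ∀ u v, G (φ y) u v = G (φ y) v u := by
    intro u v
    rw [hG, hG, hg.symm]
  rw [h1, hΓ, hg.add, h2]
  unfold koszul
  rw [hder, hder, hder, hder', hder', hder', ← hG, hsym b a, hsym c a, hsym c b,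
    hsymG (fderiv ℝ (fderiv ℝ φ) y a c) (fderiv ℝ φ y b)]
  ring

/-- The second derivative along a line. -/
lemma n2_dd {E F : Type} [NormedAddCommGroup E] [NormedSpace ℝ E]
    [NormedAddCommGroup F] [NormedSpace ℝ F] {U : E → F} {y : E} (hU : ContDiffAt ℝ ∞ U y) (a : E) :
    dd U y a = fderiv ℝ (fderiv ℝ U) y a a := by
  have hU2 : DifferentiableAt ℝ (fderiv ℝ U) y :=
    (hU.fderiv_right (m := 1) n2_le).differentiableAt (by simp)
  have hline : ∀ t : ℝ, HasDerivAt (fun t : ℝ => y + t • a) a t := by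
    intro t
    have := ((hasDerivAt_id t).smul_const a).const_add y
    simpa using this
  have hcont : Filter.Tendsto (fun t : ℝ => y + t • a) (𝓝 0) (𝓝 y) := by
    have : ContinuousAt (fun t : ℝ => y + t • a) 0 := (hline 0).continuousAt
    simpa [ContinuousAt] using this
  have hev : ∀ᶠ z in 𝓝 y, DifferentiableAt ℝ U z := by
    have h1 : ContDiffAt ℝ 1 U y := hU.of_le n2_le1
    filter_upwards [h1.eventually (by simp)] with z hz
    exact hz.differentiableAt (by simp)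
  have h1 : deriv (fun t : ℝ => U (y + t • a)) =ᶠ[𝓝 0] fun t => fderiv ℝ U (y + t • a) a := by
    filter_upwards [hcont.eventually hev] with t ht
    exact (ht.hasFDerivAt.comp_hasDerivAt t (hline t)).deriv
  unfold dd
  rw [h1.deriv_eq]
  have h0 : y + (0 : ℝ) • a = y := by simp
  have h2 : HasFDerivAt (fderiv ℝ U) (fderiv ℝ (fderiv ℝ U) y) (y + (0 : ℝ) • a) := by
    rw [h0]
    exact hU2.hasFDerivAt
  have h3 : HasDerivAt (fun t : ℝ => fderiv ℝ U (y + t • a)) (fderiv ℝ (fderiv ℝ U) y a) 0 :=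
    h2.comp_hasDerivAt (0 : ℝ) (hline 0)
  have h4 : HasDerivAt (fun t : ℝ => fderiv ℝ U (y + t • a) a)
      (fderiv ℝ (fderiv ℝ U) y a a) 0 := by
    have h5 : HasFDerivAt (fun L : E →L[ℝ] F => L a) (ContinuousLinearMap.apply ℝ F a)
        (fderiv ℝ U (y + (0 : ℝ) • a)) := (ContinuousLinearMap.apply ℝ F a).hasFDerivAt
    exact HasFDerivAt.comp_hasDerivAt (l := fun L : E →L[ℝ] F => L a)
      (f := fun t : ℝ => fderiv ℝ U (y + t • a)) (0 : ℝ) h5 h3
  exact h4.deriv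

/-- The second derivative of a composition. -/
lemma n2_comp {E F G : Type} [NormedAddCommGroup E] [NormedSpace ℝ E]
    [NormedAddCommGroup F] [NormedSpace ℝ F] [NormedAddCommGroup G] [NormedSpace ℝ G]
    {U : E → F} {ψ : F → G} {y : E} (hU : ContDiffAt ℝ ∞ U y) (hψ : ContDiffAt ℝ ∞ ψ (U y))
    (a b : E) :
    fderiv ℝ (fderiv ℝ fun z => ψ (U z)) y a b =
      fderiv ℝ (fderiv ℝ ψ) (U y) (fderiv ℝ U y a) (fderiv ℝ U y b) +
        fderiv ℝ ψ (U y) (fderiv ℝ (fderiv ℝ U) y a b) := by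
  have hU2 : DifferentiableAt ℝ (fderiv ℝ U) y :=
    (hU.fderiv_right (m := 1) n2_le).differentiableAt (by simp)
  have hψ2 : DifferentiableAt ℝ (fderiv ℝ ψ) (U y) :=
    (hψ.fderiv_right (m := 1) n2_le).differentiableAt (by simp)
  have hUd : DifferentiableAt ℝ U y := hU.differentiableAt (by simp)
  have hev : ∀ᶠ z in 𝓝 y, DifferentiableAt ℝ U z := by
    have h1 : ContDiffAt ℝ 1 U y := hU.of_le n2_le1
    filter_upwards [h1.eventually (by simp)] with z hz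
    exact hz.differentiableAt (by simp)
  have hev' : ∀ᶠ z in 𝓝 (U y), DifferentiableAt ℝ ψ z := by
    have h1 : ContDiffAt ℝ 1 ψ (U y) := hψ.of_le n2_le1
    filter_upwards [h1.eventually (by simp)] with z hz
    exact hz.differentiableAt (by simp)
  have h1 : (fderiv ℝ fun z => ψ (U z)) =ᶠ[𝓝 y]
      fun z => (fderiv ℝ ψ (U z)).comp (fderiv ℝ U z) := by
    filter_upwards [hev, hUd.continuousAt.eventually hev'] with z hz hz'
    exact (hz'.hasFDerivAt.comp z hz.hasFDerivAt).fderiv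
  rw [h1.fderiv_eq]
  have h0 : HasFDerivAt (fun z => fderiv ℝ ψ (U z))
      ((fderiv ℝ (fderiv ℝ ψ) (U y)).comp (fderiv ℝ U y)) y :=
    HasFDerivAt.comp (g := fderiv ℝ ψ) (f := U) y hψ2.hasFDerivAt hUd.hasFDerivAt
  have h2 := (h0.clm_comp hU2.hasFDerivAt).fderiv
  rw [h2]
  simp
  abel

theorem t_N2 : S_N2 := by
  intro E1 E2 F1 F2 _ _ _ _ _ _ _ _ _ _ _ _ g1 g2 h1 h2 A B φ ψ U1 U2 y hA hB hg2 hh2 hφA hψB
    hφ hφb hψ hψb hU1 hU2 hcomm hgg hhh hten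
  obtain ⟨Γ2, Γ2', e2, hΓ2, hΓ2', he2, hsum⟩ := hten
  have hyy : ψ (U1 y) = U2 (φ y) := hcomm.self_of_nhds
  -- the inverses of the derivatives
  let P : E1 ≃ₗ[ℝ] E2 := LinearEquiv.ofBijective (fderiv ℝ φ y : E1 →ₗ[ℝ] E2) hφb
  let Q : F1 ≃ₗ[ℝ] F2 := LinearEquiv.ofBijective (fderiv ℝ ψ (U1 y) : F1 →ₗ[ℝ] F2) hψb
  have hP : ∀ x, fderiv ℝ φ y (P.symm x) = x := fun x => P.apply_symm_apply x
  have hQ : ∀ x, fderiv ℝ ψ (U1 y) (Q.symm x) = x := fun x => Q.apply_symm_apply x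
  have hQ0 : ∀ x, fderiv ℝ ψ (U1 y) x = 0 → x = 0 := fun x hx => by
    have : Q x = Q 0 := by
      rw [map_zero]
      exact hx
    exact Q.injective this
  let Γ1 : E1 → E1 → E1 := fun a b =>
    P.symm (Γ2 (fderiv ℝ φ y a) (fderiv ℝ φ y b) + fderiv ℝ (fderiv ℝ φ) y a b)
  let Γ1' : F1 → F1 → F1 := fun a b =>
    Q.symm (Γ2' (fderiv ℝ ψ (U1 y) a) (fderiv ℝ ψ (U1 y) b) + fderiv ℝ (fderiv ℝ ψ) (U1 y) a b)
  have hΓ1 : ∀ a b, fderiv ℝ φ y (Γ1 a b) =
      Γ2 (fderiv ℝ φ y a) (fderiv ℝ φ y b) + fderiv ℝ (fderiv ℝ φ) y a b := fun a b => hP _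
  have hΓ1' : ∀ a b, fderiv ℝ ψ (U1 y) (Γ1' a b) =
      Γ2' (fderiv ℝ ψ (U1 y) a) (fderiv ℝ ψ (U1 y) b) + fderiv ℝ (fderiv ℝ ψ) (U1 y) a b :=
    fun a b => hQ _
  have hcard : finrank ℝ E2 = finrank ℝ E1 := P.symm.finrank_eq
  let e1 : Basis (Fin (finrank ℝ E1)) ℝ E1 := (e2.map P.symm).reindex (finCongr hcard)
  have he1 : ∀ i, fderiv ℝ φ y (e1 i) = e2 ((finCongr hcard).symm i) := by
    intro i
    rw [Basis.reindex_apply, Basis.map_apply, hP]
  rw [← hyy] at hΓ2'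
  refine ⟨Γ1, Γ1', e1, n2_chr hA hg2 hφA hφ hgg hΓ2 hΓ1, n2_chr hB hh2 hψB hψ hhh hΓ2' hΓ1', ?_, ?_⟩
  · intro i j
    rw [hgg.self_of_nhds, he1, he1, he2]
    simp only [EmbeddingLike.apply_eq_iff_eq]
  · -- the first derivatives
    have hU1d : DifferentiableAt ℝ U1 y := hU1.differentiableAt (by simp)
    have hφd : DifferentiableAt ℝ φ y := hφ.differentiableAt (by simp)
    have hψd : DifferentiableAt ℝ ψ (U1 y) := hψ.differentiableAt (by simp)
    have hU2d : DifferentiableAt ℝ U2 (φ y) := hU2.differentiableAt (by simp)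
    have hcomm' : (fun z => ψ (U1 z)) =ᶠ[𝓝 y] fun z => U2 (φ z) := hcomm
    have hD1 : ∀ a, fderiv ℝ ψ (U1 y) (fderiv ℝ U1 y a) = fderiv ℝ U2 (φ y) (fderiv ℝ φ y a) := by
      intro a
      have e3 : fderiv ℝ (fun z => ψ (U1 z)) y = fderiv ℝ (fun z => U2 (φ z)) y :=
        hcomm'.fderiv_eq
      rw [fderiv_fun_comp (g := ψ) y hψd hU1d, fderiv_fun_comp (g := U2) y hU2d hφd] at e3
      exact DFunLike.congr_fun e3 a
    have hD2 : ∀ a, fderiv ℝ (fderiv ℝ ψ) (U1 y) (fderiv ℝ U1 y a) (fderiv ℝ U1 y a) +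
        fderiv ℝ ψ (U1 y) (fderiv ℝ (fderiv ℝ U1) y a a) =
        fderiv ℝ (fderiv ℝ U2) (φ y) (fderiv ℝ φ y a) (fderiv ℝ φ y a) +
        fderiv ℝ U2 (φ y) (fderiv ℝ (fderiv ℝ φ) y a a) := by
      intro a
      rw [← n2_comp hU1 hψ, ← n2_comp hφ hU2, hcomm'.fderiv.fderiv_eq]
    have key : ∀ a, fderiv ℝ ψ (U1 y) (nablaD Γ1 Γ1' U1 y a) =
        nablaD Γ2 Γ2' U2 (φ y) (fderiv ℝ φ y a) := by
      intro a
      unfold nablaD der
      rw [map_add, map_sub, hΓ1', hD1, hD1, hΓ1, n2_dd hU1, n2_dd hU2, map_add]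
      have := hD2 a
      have h5 : fderiv ℝ ψ (U1 y) (fderiv ℝ (fderiv ℝ U1) y a a) =
          fderiv ℝ (fderiv ℝ U2) (φ y) (fderiv ℝ φ y a) (fderiv ℝ φ y a) +
          fderiv ℝ U2 (φ y) (fderiv ℝ (fderiv ℝ φ) y a a) -
          fderiv ℝ (fderiv ℝ ψ) (U1 y) (fderiv ℝ U1 y a) (fderiv ℝ U1 y a) := by
        rw [← this]
        abel
      rw [h5]
      abel
    apply hQ0
    rw [map_sum]
    simp only [key, he1]
    rw [← hsum]
    exact Equiv.sum_comp (finCongr hcard).symm fun i => nablaD Γ2 Γ2' U2 (φ y) (e2 i)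

end Pool.Agent.Helper473.LY
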