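import Pool.Agent.Helper473.LY.Stmts

/-!
# Lawson–Yau: `GoodAt` is an open condition (job LY OPEN)

The derivatives in the plane direction of a function on `Q × W` are `open_pd`. The Christoffel
symbols are written with explicit smooth functions `open_Gk`. The condition on the curvature is
`T(e0, e1, e1, e0) < 0`, the condition on the Hessian is positive definiteness of a `2 × 2` matrix.
-/

set_option autoImplicit false

open scoped Manifold ContDiff Topology RealInnerProductSpace
open Module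

namespace Pool.Agent.Helper473.LY

open Pool.Agent.H234R3

/-! ### the plane -/

/-- the standard basis of the plane -/
noncomputable def open_E (i : Fin 2) : W := EuclideanSpace.single i 1

theorem open_E_coord (a : W) : a = a 0 • open_E 0 + a 1 • open_E 1 := by
  ext i
  fin_cases i <;> simp [open_E]

theorem open_E_apply (i j : Fin 2) : open_E i j = if j = i then 1 else 0 := by
  simp [open_E]

/-- an additive, homogeneous, alternating map is a multiple of the determinant -/
theorem open_alt {B : W → W → ℝ} (h1 : ∀ a a' b, B (a + a') b = B a b + B a' b)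
    (h2 : ∀ (c : ℝ) a b, B (c • a) b = c * B a b) (h3 : ∀ a b b', B a (b + b') = B a b + B a b')
    (h4 : ∀ (c : ℝ) a b, B a (c • b) = c * B a b) (h5 : ∀ a, B a a = 0) (a b : W) :
    B a b = (a 0 * b 1 - a 1 * b 0) * B (open_E 0) (open_E 1) := by
  have h6 : B (open_E 1) (open_E 0) = -B (open_E 0) (open_E 1) := by
    have := h5 (open_E 0 + open_E 1)
    rw [h1, h3, h3, h5, h5] at this
    linarith
  conv_lhs => rw [open_E_coord a, open_E_coord b]
  simp only [h1, h2, h3, h4, h5, h6]
  ring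

/-- positive definite forms in two variables -/
theorem open_quad (p q r : ℝ) :
    (∀ s t : ℝ, (s ≠ 0 ∨ t ≠ 0) → 0 < p * s ^ 2 + q * (s * t) + r * t ^ 2) ↔ 0 < p ∧ 0 < 4 * p * r - q ^ 2 := by
  constructor
  · intro h
    have hp : 0 < p := by simpa using h 1 0 (Or.inl one_ne_zero)
    refine ⟨hp, ?_⟩
    have h1 := h (-q) (2 * p) (Or.inr (by positivity))
    have h2 : p * (-q) ^ 2 + q * (-q * (2 * p)) + r * (2 * p) ^ 2 = p * (4 * p * r - q ^ 2) := by ring
    rw [h2] at h1
    exact (mul_pos_iff_of_pos_left hp).1 h1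
  · rintro ⟨hp, hd⟩ s t hst
    have h1 : 4 * p * (p * s ^ 2 + q * (s * t) + r * t ^ 2) = (2 * p * s + q * t) ^ 2 + (4 * p * r - q ^ 2) * t ^ 2 := by ring
    have h2 : 0 < (2 * p * s + q * t) ^ 2 + (4 * p * r - q ^ 2) * t ^ 2 := by
      by_cases ht : t = 0
      · subst ht
        have hs : s ≠ 0 := by
          rcases hst with h | h
          · exact h
          · exact absurd rfl h
        have : 0 < (2 * p * s + q * 0) ^ 2 := by
          rw [mul_zero, add_zero]; positivity
        simpa using this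
      · have : 0 < (4 * p * r - q ^ 2) * t ^ 2 := by positivity
        have h3 := sq_nonneg (2 * p * s + q * t)
        linarith
    rw [← h1] at h2
    exact (mul_pos_iff_of_pos_left (by positivity)).1 h2

section PD

variable {Q : Type} [NormedAddCommGroup Q] [NormedSpace ℝ Q] {F : Type*} [NormedAddCommGroup F]
  [NormedSpace ℝ F] {Ω : Set (Q × W)}

/-- derivative in the direction `a` of the plane -/
noncomputable def open_pd (φ : Q × W → F) (a : W) (z : Q × W) : F := fderiv ℝ φ z (0, a)

theorem open_pd_add_dir (φ : Q × W → F) (a b : W) (z : Q × W) :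
    open_pd φ (a + b) z = open_pd φ a z + open_pd φ b z := by
  unfold open_pd
  rw [← map_add]
  congr 1
  simp

theorem open_pd_smul_dir (φ : Q × W → F) (c : ℝ) (a : W) (z : Q × W) :
    open_pd φ (c • a) z = c • open_pd φ a z := by
  unfold open_pd
  rw [← map_smul]
  congr 1
  simp

theorem open_pd_smooth (hΩ : IsOpen Ω) {φ : Q × W → F} (h : ContDiffOn ℝ ∞ φ Ω) (a : W) :
    ContDiffOn ℝ ∞ (open_pd φ a) Ω := by
  have h1 : ContDiffOn ℝ ∞ (fderiv ℝ φ) Ω := h.fderiv_of_isOpen hΩ (by simp)
  exact h1.clm_apply contDiffOn_const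

theorem open_diff (hΩ : IsOpen Ω) {φ : Q × W → F} (h : ContDiffOn ℝ ∞ φ Ω) {z : Q × W} (hz : z ∈ Ω) :
    DifferentiableAt ℝ φ z :=
  (h.contDiffAt (hΩ.mem_nhds hz)).differentiableAt (by simp)

theorem open_pd_congr (hΩ : IsOpen Ω) {φ ψ : Q × W → F} (h : ∀ z ∈ Ω, φ z = ψ z) {z : Q × W} (hz : z ∈ Ω)
    (a : W) : open_pd φ a z = open_pd ψ a z := by
  unfold open_pd
  have : φ =ᶠ[𝓝 z] ψ := by
    filter_upwards [hΩ.mem_nhds hz] with y hy using h y hy
  rw [this.fderiv_eq]

theorem open_pd_add {φ ψ : Q × W → F} {z : Q × W} (h1 : DifferentiableAt ℝ φ z) (h2 : DifferentiableAt ℝ ψ z)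
    (a : W) : open_pd (fun z => φ z + ψ z) a z = open_pd φ a z + open_pd ψ a z := by
  unfold open_pd
  rw [fderiv_fun_add h1 h2]
  rfl

theorem open_pd_smul {φ : Q × W → F} {z : Q × W} (h1 : DifferentiableAt ℝ φ z) (c : ℝ)
    (a : W) : open_pd (fun z => c • φ z) a z = c • open_pd φ a z := by
  unfold open_pd
  rw [fderiv_fun_const_smul h1]
  rfl

theorem open_hasFDerivAt_slice {φ : Q × W → F} {z : Q × W} (h : DifferentiableAt ℝ φ z) :
    HasFDerivAt (fun y => φ (z.1, y)) ((fderiv ℝ φ z).comp (ContinuousLinearMap.inr ℝ Q W)) z.2 := by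
  have h1 : HasFDerivAt φ (fderiv ℝ φ z) (z.1, z.2) := h.hasFDerivAt
  exact h1.comp z.2 (hasFDerivAt_prodMk_right z.1 z.2)

theorem open_der {φ : Q × W → F} {z : Q × W} (h : DifferentiableAt ℝ φ z) (a : W) :
    fderiv ℝ (fun y => φ (z.1, y)) z.2 a = open_pd φ a z := by
  rw [(open_hasFDerivAt_slice h).fderiv]
  simp [open_pd]

theorem open_pd_symm (hΩ : IsOpen Ω) {φ : Q × W → F} (h : ContDiffOn ℝ ∞ φ Ω) {z : Q × W} (hz : z ∈ Ω)
    (a b : W) : open_pd (open_pd φ a) b z = open_pd (open_pd φ b) a z := by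
  have hd : DifferentiableAt ℝ (fderiv ℝ φ) z := by
    have h1 : ContDiffOn ℝ ∞ (fderiv ℝ φ) Ω := h.fderiv_of_isOpen hΩ (by simp)
    exact open_diff hΩ h1 hz
  have key : ∀ a b : W, open_pd (open_pd φ a) b z = fderiv ℝ (fderiv ℝ φ) z (0, b) (0, a) := by
    intro a b
    unfold open_pd
    have h2 : HasFDerivAt (fun z => fderiv ℝ φ z (0, a))
        ((fderiv ℝ (fderiv ℝ φ) z).flip (0, a)) z := by
      have := hd.hasFDerivAt.clm_apply (hasFDerivAt_const ((0 : Q), a) z)
      simpa using this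
    rw [h2.fderiv]
    rfl
  rw [key, key]
  have h3 : ContDiffAt ℝ ∞ φ z := h.contDiffAt (hΩ.mem_nhds hz)
  exact (h3.isSymmSndFDerivAt (by rw [minSmoothness_of_isRCLikeNormedField]; exact WithTop.coe_le_coe.2 le_top)).eq _ _

theorem open_dd (hΩ : IsOpen Ω) {φ : Q × W → F} (h : ContDiffOn ℝ ∞ φ Ω) {z : Q × W} (hz : z ∈ Ω) (a : W) :
    dd (fun y => φ (z.1, y)) z.2 a = open_pd (open_pd φ a) a z := by
  have hc : Continuous (fun t : ℝ => (z.1, z.2 + t • a)) := by fun_prop
  have hev : ∀ᶠ t in 𝓝 (0 : ℝ), (z.1, z.2 + t • a) ∈ Ω := by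
    refine hc.continuousAt.eventually_mem (hΩ.mem_nhds ?_)
    simpa using hz
  have hd1 : ∀ t : ℝ, (z.1, z.2 + t • a) ∈ Ω → ∀ {G : Q × W → F}, DifferentiableAt ℝ G (z.1, z.2 + t • a) →
      HasDerivAt (fun t : ℝ => G (z.1, z.2 + t • a)) (open_pd G a (z.1, z.2 + t • a)) t := by
    intro t ht G hG
    have h1 : HasDerivAt (fun t : ℝ => (z.1, z.2 + t • a)) ((0 : Q), a) t := by
      have h2 : HasDerivAt (fun t : ℝ => z.2 + t • a) a t := by
        simpa using ((hasDerivAt_id t).smul_const a).const_add z.2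
      exact (hasDerivAt_const t z.1).prodMk h2
    exact hG.hasFDerivAt.comp_hasDerivAt t h1
  unfold dd
  have h1 : (deriv fun t : ℝ => φ (z.1, z.2 + t • a)) =ᶠ[𝓝 0] fun t => open_pd φ a (z.1, z.2 + t • a) := by
    filter_upwards [hev] with t ht
    exact (hd1 t ht (open_diff hΩ h ht)).deriv
  have h0 : (z.1, z.2 + (0 : ℝ) • a) = z := by simp
  have h2 := hd1 0 (by rw [h0]; exact hz) (G := open_pd φ a) (by rw [h0]; exact open_diff hΩ (open_pd_smooth hΩ h a) hz)
  rw [h0] at h2
  rw [h1.deriv_eq]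
  exact h2.deriv

theorem open_pd_coord (φ : Q × W → F) (a : W) (z : Q × W) :
    open_pd φ a z = a 0 • open_pd φ (open_E 0) z + a 1 • open_pd φ (open_E 1) z := by
  conv_lhs => rw [open_E_coord a]
  rw [open_pd_add_dir, open_pd_smul_dir, open_pd_smul_dir]

theorem open_pd_mul {φ ψ : Q × W → ℝ} {z : Q × W} (h1 : DifferentiableAt ℝ φ z) (h2 : DifferentiableAt ℝ ψ z)
    (a : W) : open_pd (fun z => φ z * ψ z) a z = open_pd φ a z * ψ z + φ z * open_pd ψ a z := by
  unfold open_pd
  rw [fderiv_fun_mul h1 h2]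
  simp only [add_apply, smul_apply, smul_eq_mul]
  ring

theorem open_apply_pd {φ : Q × W → W} {z : Q × W} (h : DifferentiableAt ℝ φ z) (a : W) (i : Fin 2) :
    open_pd (fun z => φ z i) a z = open_pd φ a z i := by
  unfold open_pd
  have h1 : HasFDerivAt (fun z => φ z i) ((EuclideanSpace.proj i : W →L[ℝ] ℝ).comp (fderiv ℝ φ z)) z :=
    (EuclideanSpace.proj i : W →L[ℝ] ℝ).hasFDerivAt.comp z h.hasFDerivAt
  rw [h1.fderiv]
  rfl

theorem open_apply_diff {φ : Q × W → W} {z : Q × W} (h : DifferentiableAt ℝ φ z) (i : Fin 2) :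
    DifferentiableAt ℝ (fun z => φ z i) z :=
  ((EuclideanSpace.proj i : W →L[ℝ] ℝ).hasFDerivAt.comp z h.hasFDerivAt).differentiableAt

theorem open_apply_smooth {φ : Q × W → W} (h : ContDiffOn ℝ ∞ φ Ω) (i : Fin 2) :
    ContDiffOn ℝ ∞ (fun z => φ z i) Ω :=
  (EuclideanSpace.proj i : W →L[ℝ] ℝ).contDiff.comp_contDiffOn h

end PD

/-! ### the metric -/

section Met

variable {Q : Type} [NormedAddCommGroup Q] [NormedSpace ℝ Q] {Ω : Set (Q × W)}

/-- a smooth family of metrics -/
structure open_Fam (Ω : Set (Q × W)) (g : Q → W → W → W → ℝ) : Prop where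
  isOpen : IsOpen Ω
  smooth : ∀ a b, ContDiffOn ℝ ∞ (fun z : Q × W => g z.1 z.2 a b) Ω
  add : ∀ q y u u' v, g q y (u + u') v = g q y u v + g q y u' v
  smul : ∀ q y (c : ℝ) u v, g q y (c • u) v = c * g q y u v
  symm : ∀ q y u v, g q y u v = g q y v u
  pos : ∀ z ∈ Ω, ∀ u, u ≠ 0 → 0 < g z.1 z.2 u u

variable {g : Q → W → W → W → ℝ}

/-- the coefficients as functions on the product -/
def open_G (g : Q → W → W → W → ℝ) (a b : W) (z : Q × W) : ℝ := g z.1 z.2 a b

/-- the Koszul formula -/
noncomputable def open_K (g : Q → W → W → W → ℝ) (a b c : W) (z : Q × W) : ℝ :=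
  (open_pd (open_G g b c) a z + open_pd (open_G g a c) b z - open_pd (open_G g a b) c z) / 2

/-- the determinant -/
noncomputable def open_D (g : Q → W → W → W → ℝ) (z : Q × W) : ℝ :=
  open_G g (open_E 0) (open_E 0) z * open_G g (open_E 1) (open_E 1) z - open_G g (open_E 0) (open_E 1) z ^ 2

/-- the Christoffel symbols of the basis vectors -/
noncomputable def open_Gk (g : Q → W → W → W → ℝ) (i j : Fin 2) (z : Q × W) : W :=
  (open_D g z)⁻¹ • ((open_G g (open_E 1) (open_E 1) z * open_K g (open_E i) (open_E j) (open_E 0) z -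
      open_G g (open_E 0) (open_E 1) z * open_K g (open_E i) (open_E j) (open_E 1) z) • open_E 0 +
    (open_G g (open_E 0) (open_E 0) z * open_K g (open_E i) (open_E j) (open_E 1) z -
      open_G g (open_E 0) (open_E 1) z * open_K g (open_E i) (open_E j) (open_E 0) z) • open_E 1)

/-- the Christoffel symbols -/
noncomputable def open_Gam (g : Q → W → W → W → ℝ) (z : Q × W) (a b : W) : W :=
  (a 0 * b 0) • open_Gk g 0 0 z + (a 0 * b 1) • open_Gk g 0 1 z + (a 1 * b 0) • open_Gk g 1 0 z +
    (a 1 * b 1) • open_Gk g 1 1 z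

theorem open_Fam.sm (H : open_Fam Ω g) (a b : W) : ContDiffOn ℝ ∞ (open_G g a b) Ω := H.smooth a b

theorem open_Fam.G_add (H : open_Fam Ω g) (a a' b : W) (z : Q × W) :
    open_G g (a + a') b z = open_G g a b z + open_G g a' b z := H.add _ _ _ _ _

theorem open_Fam.G_smul (H : open_Fam Ω g) (c : ℝ) (a b : W) (z : Q × W) :
    open_G g (c • a) b z = c * open_G g a b z := H.smul _ _ _ _ _

theorem open_Fam.G_symm (H : open_Fam Ω g) (a b : W) (z : Q × W) :
    open_G g a b z = open_G g b a z := H.symm _ _ _ _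

theorem open_Fam.G_add' (H : open_Fam Ω g) (a b b' : W) (z : Q × W) :
    open_G g a (b + b') z = open_G g a b z + open_G g a b' z := by
  rw [H.G_symm a, H.G_add, H.G_symm b, H.G_symm b']

theorem open_Fam.G_smul' (H : open_Fam Ω g) (c : ℝ) (a b : W) (z : Q × W) :
    open_G g a (c • b) z = c * open_G g a b z := by
  rw [H.G_symm a, H.G_smul, H.G_symm b]

theorem open_Fam.G_zero (H : open_Fam Ω g) (b : W) (z : Q × W) : open_G g 0 b z = 0 := by
  have := H.G_smul 0 0 b z
  rwa [zero_smul, zero_mul] at this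

theorem open_Fam.G_sub (H : open_Fam Ω g) (a a' b : W) (z : Q × W) :
    open_G g (a - a') b z = open_G g a b z - open_G g a' b z := by
  have h1 : a - a' = a + (-1 : ℝ) • a' := by simp [sub_eq_add_neg]
  rw [h1, H.G_add, H.G_smul]; ring

theorem open_Fam.G_sub' (H : open_Fam Ω g) (a b b' : W) (z : Q × W) :
    open_G g a (b - b') z = open_G g a b z - open_G g a b' z := by
  rw [H.G_symm a, H.G_sub, H.G_symm b, H.G_symm b']

theorem open_Fam.D_pos (H : open_Fam Ω g) {z : Q × W} (hz : z ∈ Ω) : 0 < open_D g z := by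
  have h0 : 0 < open_G g (open_E 0) (open_E 0) z := by
    refine H.pos z hz _ ?_
    intro h
    have := congrArg (fun v : W => v 0) h
    simp [open_E] at this
  have h1 := H.pos z hz (open_G g (open_E 0) (open_E 1) z • open_E 0 - open_G g (open_E 0) (open_E 0) z • open_E 1) (by
    intro h
    have := congrArg (fun v : W => v 1) h
    simp [open_E] at this
    exact h0.ne' this)
  have h2 : g z.1 z.2 (open_G g (open_E 0) (open_E 1) z • open_E 0 - open_G g (open_E 0) (open_E 0) z • open_E 1)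
      (open_G g (open_E 0) (open_E 1) z • open_E 0 - open_G g (open_E 0) (open_E 0) z • open_E 1) =
      open_G g (open_E 0) (open_E 0) z * open_D g z := by
    show open_G g (open_G g (open_E 0) (open_E 1) z • open_E 0 - open_G g (open_E 0) (open_E 0) z • open_E 1)
      (open_G g (open_E 0) (open_E 1) z • open_E 0 - open_G g (open_E 0) (open_E 0) z • open_E 1) z = _
    simp only [H.G_sub, H.G_sub', H.G_smul, H.G_smul']
    rw [H.G_symm (open_E 1) (open_E 0)]
    unfold open_D
    ring
  rw [h2] at h1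
  exact (mul_pos_iff_of_pos_left h0).1 h1

theorem open_Fam.K_smooth (H : open_Fam Ω g) (a b c : W) : ContDiffOn ℝ ∞ (open_K g a b c) Ω := by
  unfold open_K
  exact (((open_pd_smooth H.isOpen (H.sm b c) a).add (open_pd_smooth H.isOpen (H.sm a c) b)).sub
    (open_pd_smooth H.isOpen (H.sm a b) c)).div_const 2

theorem open_Fam.D_smooth (H : open_Fam Ω g) : ContDiffOn ℝ ∞ (open_D g) Ω := by
  unfold open_D
  exact ((H.sm _ _).mul (H.sm _ _)).sub ((H.sm _ _).pow 2)

theorem open_Fam.Gk_smooth (H : open_Fam Ω g) (i j : Fin 2) : ContDiffOn ℝ ∞ (open_Gk g i j) Ω := by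
  unfold open_Gk
  refine (H.D_smooth.inv fun z hz => (H.D_pos hz).ne').smul ?_
  refine ContDiffOn.add ?_ ?_
  · exact (((H.sm _ _).mul (H.K_smooth _ _ _)).sub ((H.sm _ _).mul (H.K_smooth _ _ _))).smul contDiffOn_const
  · exact (((H.sm _ _).mul (H.K_smooth _ _ _)).sub ((H.sm _ _).mul (H.K_smooth _ _ _))).smul contDiffOn_const

theorem open_Fam.Gam_smooth (H : open_Fam Ω g) (a b : W) : ContDiffOn ℝ ∞ (fun z => open_Gam g z a b) Ω := by
  unfold open_Gam
  exact (((((H.Gk_smooth 0 0).const_smul _).add ((H.Gk_smooth 0 1).const_smul _)).add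
    ((H.Gk_smooth 1 0).const_smul _)).add ((H.Gk_smooth 1 1).const_smul _))

theorem open_Gam_add (z : Q × W) (a a' b : W) : open_Gam g z (a + a') b = open_Gam g z a b + open_Gam g z a' b := by
  unfold open_Gam
  simp only [PiLp.add_apply]
  module

theorem open_Gam_smul (z : Q × W) (c : ℝ) (a b : W) : open_Gam g z (c • a) b = c • open_Gam g z a b := by
  unfold open_Gam
  simp only [PiLp.smul_apply, smul_eq_mul]
  module

theorem open_Gam_add' (z : Q × W) (a b b' : W) : open_Gam g z a (b + b') = open_Gam g z a b + open_Gam g z a b' := by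
  unfold open_Gam
  simp only [PiLp.add_apply]
  module

theorem open_Gam_smul' (z : Q × W) (c : ℝ) (a b : W) : open_Gam g z a (c • b) = c • open_Gam g z a b := by
  unfold open_Gam
  simp only [PiLp.smul_apply, smul_eq_mul]
  module

theorem open_Gam_E (z : Q × W) (i j : Fin 2) : open_Gam g z (open_E i) (open_E j) = open_Gk g i j z := by
  unfold open_Gam
  fin_cases i <;> fin_cases j <;> simp [open_E]

/-- on the basis vectors -/
theorem open_Fam.Gk_spec (H : open_Fam Ω g) {z : Q × W} (hz : z ∈ Ω) (i j k : Fin 2) :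
    open_G g (open_Gk g i j z) (open_E k) z = open_K g (open_E i) (open_E j) (open_E k) z := by
  have hD := (H.D_pos hz).ne'
  unfold open_Gk
  rw [H.G_smul, H.G_add, H.G_smul, H.G_smul, inv_mul_eq_iff_eq_mul₀ hD]
  unfold open_D
  fin_cases k
  · simp only [Fin.zero_eta, Fin.isValue]
    rw [H.G_symm (open_E 1) (open_E 0)]
    ring
  · simp only [Fin.mk_one, Fin.isValue]
    ring

/-- linearity of the derivative of the coefficients -/
theorem open_Fam.pdG_add (H : open_Fam Ω g) {z : Q × W} (hz : z ∈ Ω) (a a' b c : W) :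
    open_pd (open_G g (a + a') b) c z = open_pd (open_G g a b) c z + open_pd (open_G g a' b) c z := by
  rw [← open_pd_add (open_diff H.isOpen (H.sm a b) hz) (open_diff H.isOpen (H.sm a' b) hz)]
  congr 1
  funext y
  exact H.G_add a a' b y

theorem open_Fam.pdG_smul (H : open_Fam Ω g) {z : Q × W} (hz : z ∈ Ω) (t : ℝ) (a b c : W) :
    open_pd (open_G g (t • a) b) c z = t * open_pd (open_G g a b) c z := by
  rw [← smul_eq_mul, ← open_pd_smul (open_diff H.isOpen (H.sm a b) hz)]
  congr 1
  funext y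
  exact H.G_smul t a b y

theorem open_Fam.pdG_symm (H : open_Fam Ω g) (z : Q × W) (a b c : W) :
    open_pd (open_G g a b) c z = open_pd (open_G g b a) c z := by
  congr 1
  funext y
  exact H.G_symm a b y

theorem open_Fam.pdG_add' (H : open_Fam Ω g) {z : Q × W} (hz : z ∈ Ω) (a b b' c : W) :
    open_pd (open_G g a (b + b')) c z = open_pd (open_G g a b) c z + open_pd (open_G g a b') c z := by
  rw [H.pdG_symm z a, H.pdG_add hz, H.pdG_symm z b, H.pdG_symm z b']

theorem open_Fam.pdG_smul' (H : open_Fam Ω g) {z : Q × W} (hz : z ∈ Ω) (t : ℝ) (a b c : W) :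
    open_pd (open_G g a (t • b)) c z = t * open_pd (open_G g a b) c z := by
  rw [H.pdG_symm z a, H.pdG_smul hz, H.pdG_symm z b]

/-- the Christoffel property in full -/
theorem open_Fam.Gam_spec (H : open_Fam Ω g) {z : Q × W} (hz : z ∈ Ω) (a b c : W) :
    open_G g (open_Gam g z a b) c z = open_K g a b c z := by
  have h1 : open_K g a b c z = ∑ i, ∑ j, ∑ k, a i * b j * c k * open_K g (open_E i) (open_E j) (open_E k) z := by
    simp only [Fin.sum_univ_two]
    conv_lhs => rw [open_E_coord a, open_E_coord b, open_E_coord c]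
    unfold open_K
    simp only [open_pd_add_dir, open_pd_smul_dir, H.pdG_add hz, H.pdG_add' hz, H.pdG_smul hz, H.pdG_smul' hz, smul_eq_mul]
    ring
  have h2 : open_G g (open_Gam g z a b) c z =
      ∑ i, ∑ j, ∑ k, a i * b j * c k * open_G g (open_Gk g i j z) (open_E k) z := by
    simp only [Fin.sum_univ_two]
    conv_lhs => rw [open_E_coord c]
    unfold open_Gam
    simp only [H.G_add, H.G_smul, H.G_add', H.G_smul']
    ring
  rw [h1, h2]
  simp only [H.Gk_spec hz]

theorem open_Fam.koszul_eq (H : open_Fam Ω g) {z : Q × W} (hz : z ∈ Ω) (a b c : W) :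
    koszul (g z.1) z.2 a b c = open_K g a b c z := by
  have h : ∀ a b c, der (fun y => g z.1 y a b) z.2 c = open_pd (open_G g a b) c z := by
    intro a b c
    exact open_der (open_diff H.isOpen (H.sm a b) hz) c
  unfold koszul open_K
  rw [h, h, h]

theorem open_Fam.isChr (H : open_Fam Ω g) {z : Q × W} (hz : z ∈ Ω) : IsChristoffel (g z.1) z.2 (open_Gam g z) := by
  intro a b c
  rw [H.koszul_eq hz]
  exact H.Gam_spec hz a b c

theorem open_Fam.chr_unique (H : open_Fam Ω g) {z : Q × W} (hz : z ∈ Ω) {Γ : W → W → W}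
    (h : IsChristoffel (g z.1) z.2 Γ) (a b : W) : Γ a b = open_Gam g z a b := by
  by_contra hne
  have h1 := H.pos z hz (Γ a b - open_Gam g z a b) (sub_ne_zero.2 hne)
  have h2 : open_G g (Γ a b - open_Gam g z a b) (Γ a b - open_Gam g z a b) z = 0 := by
    rw [H.G_sub]
    have h3 : open_G g (Γ a b) (Γ a b - open_Gam g z a b) z = koszul (g z.1) z.2 a b (Γ a b - open_Gam g z a b) := h a b _
    rw [h3, H.koszul_eq hz, H.Gam_spec hz, sub_self]
  exact h1.ne' h2

/-! ### curvature -/

/-- the curvature -/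
noncomputable def open_R (g : Q → W → W → W → ℝ) (z : Q × W) (a b c : W) : W :=
  open_pd (fun z => open_Gam g z b c) a z - open_pd (fun z => open_Gam g z a c) b z
    + open_Gam g z a (open_Gam g z b c) - open_Gam g z b (open_Gam g z a c)

theorem open_Fam.riem_eq (H : open_Fam Ω g) {z : Q × W} (hz : z ∈ Ω) (a b c : W) :
    riem (fun x => open_Gam g (z.1, x)) z.2 a b c = open_R g z a b c := by
  unfold riem open_R
  rw [open_der (φ := fun z => open_Gam g z b c) (open_diff H.isOpen (H.Gam_smooth b c) hz),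
    open_der (φ := fun z => open_Gam g z a c) (open_diff H.isOpen (H.Gam_smooth a c) hz)]

/-- product rule -/
theorem open_Fam.pd_G_apply (H : open_Fam Ω g) {z : Q × W} (hz : z ∈ Ω) {w : Q × W → W}
    (hw : DifferentiableAt ℝ w z) (b c : W) :
    open_pd (fun y => open_G g (w y) c y) b z = open_G g (open_pd w b z) c z + open_pd (open_G g (w z) c) b z := by
  have hG : ∀ (u : W) (y : Q × W), open_G g u c y = u 0 * open_G g (open_E 0) c y + u 1 * open_G g (open_E 1) c y := by
    intro u y
    conv_lhs => rw [open_E_coord u]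
    rw [H.G_add, H.G_smul, H.G_smul]
  have h0 := open_diff H.isOpen (H.sm (open_E 0) c) hz
  have h1 := open_diff H.isOpen (H.sm (open_E 1) c) hz
  have hw0 := open_apply_diff hw 0
  have hw1 := open_apply_diff hw 1
  have h2 : (fun y => open_G g (w y) c y) =
      fun y => w y 0 * open_G g (open_E 0) c y + w y 1 * open_G g (open_E 1) c y := by
    funext y
    exact hG (w y) y
  have h3 : open_pd (open_G g (w z) c) b z = w z 0 * open_pd (open_G g (open_E 0) c) b z +
      w z 1 * open_pd (open_G g (open_E 1) c) b z := by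
    conv_lhs => rw [open_E_coord (w z)]
    rw [H.pdG_add hz, H.pdG_smul hz, H.pdG_smul hz]
  rw [h2, open_pd_add (hw0.fun_mul h0) (hw1.fun_mul h1), open_pd_mul hw0 h0, open_pd_mul hw1 h1, open_apply_pd hw,
    open_apply_pd hw, h3, hG (open_pd w b z) z]
  ring

theorem open_Fam.pdG_eq (H : open_Fam Ω g) {z : Q × W} (hz : z ∈ Ω) (u c b : W) :
    open_pd (open_G g u c) b z = open_G g (open_Gam g z b u) c z + open_G g (open_Gam g z b c) u z := by
  rw [H.Gam_spec hz, H.Gam_spec hz]
  unfold open_K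
  rw [H.pdG_symm z c u b]
  ring

/-- second derivative of the coefficients -/
theorem open_Fam.pdpdG (H : open_Fam Ω g) {z : Q × W} (hz : z ∈ Ω) (a b c : W) :
    open_pd (open_pd (open_G g c c) a) b z =
      2 * (open_G g (open_pd (fun z => open_Gam g z a c) b z) c z + open_G g (open_Gam g z b (open_Gam g z a c)) c z +
        open_G g (open_Gam g z b c) (open_Gam g z a c) z) := by
  have h1 : ∀ y ∈ Ω, open_pd (open_G g c c) a y = (2 : ℝ) • open_G g (open_Gam g y a c) c y := by
    intro y hy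
    rw [H.pdG_eq hy, smul_eq_mul]
    ring
  rw [open_pd_congr H.isOpen h1 hz]
  have hw : DifferentiableAt ℝ (fun z => open_Gam g z a c) z := open_diff H.isOpen (H.Gam_smooth a c) hz
  have hd : DifferentiableAt ℝ (fun y => open_G g (open_Gam g y a c) c y) z := by
    have h2 : (fun y => open_G g (open_Gam g y a c) c y) =
        fun y => (open_Gam g y a c) 0 * open_G g (open_E 0) c y + (open_Gam g y a c) 1 * open_G g (open_E 1) c y := by
      funext y
      conv_lhs => rw [open_E_coord (open_Gam g y a c)]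
      rw [H.G_add, H.G_smul, H.G_smul]
    rw [h2]
    exact ((open_apply_diff hw 0).mul (open_diff H.isOpen (H.sm _ c) hz)).add
      ((open_apply_diff hw 1).mul (open_diff H.isOpen (H.sm _ c) hz))
  rw [open_pd_smul hd, H.pd_G_apply hz hw, H.pdG_eq hz, smul_eq_mul]
  ring

theorem open_Fam.R_cc (H : open_Fam Ω g) {z : Q × W} (hz : z ∈ Ω) (a b c : W) :
    open_G g (open_R g z a b c) c z = 0 := by
  have h1 := open_pd_symm H.isOpen (H.sm c c) hz a b
  rw [H.pdpdG hz, H.pdpdG hz] at h1
  have h2 := H.G_symm (open_Gam g z b c) (open_Gam g z a c) z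
  unfold open_R
  simp only [H.G_sub, H.G_add]
  linarith

theorem open_R_antisymm (z : Q × W) (a b c : W) : open_R g z b a c = -open_R g z a b c := by
  unfold open_R
  abel

theorem open_Fam.R_add (H : open_Fam Ω g) {z : Q × W} (hz : z ∈ Ω) (a a' b c : W) :
    open_R g z (a + a') b c = open_R g z a b c + open_R g z a' b c := by
  unfold open_R
  have h1 : open_pd (fun z => open_Gam g z (a + a') c) b z =
      open_pd (fun z => open_Gam g z a c) b z + open_pd (fun z => open_Gam g z a' c) b z := by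
    rw [← open_pd_add (open_diff H.isOpen (H.Gam_smooth a c) hz) (open_diff H.isOpen (H.Gam_smooth a' c) hz)]
    congr 1
    funext y
    exact open_Gam_add y a a' c
  rw [h1, open_pd_add_dir, open_Gam_add, open_Gam_add, open_Gam_add']
  abel

theorem open_Fam.R_smul (H : open_Fam Ω g) {z : Q × W} (hz : z ∈ Ω) (t : ℝ) (a b c : W) :
    open_R g z (t • a) b c = t • open_R g z a b c := by
  unfold open_R
  have h1 : open_pd (fun z => open_Gam g z (t • a) c) b z = t • open_pd (fun z => open_Gam g z a c) b z := by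
    rw [← open_pd_smul (open_diff H.isOpen (H.Gam_smooth a c) hz)]
    congr 1
    funext y
    exact open_Gam_smul y t a c
  rw [h1, open_pd_smul_dir, open_Gam_smul, open_Gam_smul, open_Gam_smul']
  module

theorem open_Fam.R_add_c (H : open_Fam Ω g) {z : Q × W} (hz : z ∈ Ω) (a b c c' : W) :
    open_R g z a b (c + c') = open_R g z a b c + open_R g z a b c' := by
  unfold open_R
  have h1 : ∀ a b : W, open_pd (fun z => open_Gam g z a (c + c')) b z =
      open_pd (fun z => open_Gam g z a c) b z + open_pd (fun z => open_Gam g z a c') b z := by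
    intro a b
    rw [← open_pd_add (open_diff H.isOpen (H.Gam_smooth a c) hz) (open_diff H.isOpen (H.Gam_smooth a c') hz)]
    congr 1
    funext y
    exact open_Gam_add' y a c c'
  rw [h1, h1, open_Gam_add', open_Gam_add', open_Gam_add', open_Gam_add']
  abel

theorem open_Fam.R_smul_c (H : open_Fam Ω g) {z : Q × W} (hz : z ∈ Ω) (t : ℝ) (a b c : W) :
    open_R g z a b (t • c) = t • open_R g z a b c := by
  unfold open_R
  have h1 : ∀ a b : W, open_pd (fun z => open_Gam g z a (t • c)) b z = t • open_pd (fun z => open_Gam g z a c) b z := by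
    intro a b
    rw [← open_pd_smul (open_diff H.isOpen (H.Gam_smooth a c) hz)]
    congr 1
    funext y
    exact open_Gam_smul' y t a c
  rw [h1, h1, open_Gam_smul', open_Gam_smul', open_Gam_smul', open_Gam_smul']
  module

/-- the curvature in dimension two -/
theorem open_Fam.T_det (H : open_Fam Ω g) {z : Q × W} (hz : z ∈ Ω) (a b : W) :
    open_G g (open_R g z a b b) a z =
      (a 0 * b 1 - a 1 * b 0) ^ 2 * open_G g (open_R g z (open_E 0) (open_E 1) (open_E 1)) (open_E 0) z := by
  have hneg : ∀ (u v : W), open_G g (-u) v z = -open_G g u v z := by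
    intro u v
    have := H.G_smul (-1) u v z
    rwa [neg_one_smul, neg_one_mul] at this
  -- first in the first pair
  have h1 : ∀ c d : W, open_G g (open_R g z a b c) d z =
      (a 0 * b 1 - a 1 * b 0) * open_G g (open_R g z (open_E 0) (open_E 1) c) d z := by
    intro c d
    refine open_alt (B := fun a b => open_G g (open_R g z a b c) d z) ?_ ?_ ?_ ?_ ?_ a b
    · intro a a' b
      show open_G g (open_R g z (a + a') b c) d z = _
      rw [H.R_add hz, H.G_add]
    · intro t a b
      show open_G g (open_R g z (t • a) b c) d z = _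
      rw [H.R_smul hz, H.G_smul]
    · intro a b b'
      show open_G g (open_R g z a (b + b') c) d z = _
      rw [open_R_antisymm z (b + b') a c, H.R_add hz, neg_add, H.G_add, ← open_R_antisymm, ← open_R_antisymm]
    · intro t a b
      show open_G g (open_R g z a (t • b) c) d z = _
      rw [open_R_antisymm z (t • b) a c, H.R_smul hz, ← smul_neg, H.G_smul, ← open_R_antisymm]
    · intro a
      show open_G g (open_R g z a a c) d z = 0
      have h := open_R_antisymm (g := g) z a a c
      have h' : open_R g z a a c = 0 := by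
        have h2 : (2 : ℝ) • open_R g z a a c = 0 := by
          rw [two_smul]
          nth_rewrite 1 [h]
          simp
        exact (smul_eq_zero.1 h2).resolve_left two_ne_zero
      rw [h', H.G_zero]
  -- then in the second pair
  have h2 : ∀ c d : W, open_G g (open_R g z (open_E 0) (open_E 1) c) d z =
      (c 0 * d 1 - c 1 * d 0) * open_G g (open_R g z (open_E 0) (open_E 1) (open_E 0)) (open_E 1) z := by
    intro c d
    refine open_alt (B := fun c d => open_G g (open_R g z (open_E 0) (open_E 1) c) d z) ?_ ?_ ?_ ?_ ?_ c d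
    · intro c c' d
      show open_G g (open_R g z _ _ (c + c')) d z = _
      rw [H.R_add_c hz, H.G_add]
    · intro t c d
      show open_G g (open_R g z _ _ (t • c)) d z = _
      rw [H.R_smul_c hz, H.G_smul]
    · intro c d d'
      exact H.G_add' _ _ _ _
    · intro t c d
      exact H.G_smul' _ _ _ _
    · intro c
      exact H.R_cc hz _ _ c
  rw [h1 b a, h2 b a, h2 (open_E 1) (open_E 0)]
  simp only [open_E_apply]
  simp
  ring

theorem open_LI_det {a b : W} (h : LinearIndependent ℝ ![a, b]) : a 0 * b 1 - a 1 * b 0 ≠ 0 := by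
  rw [LinearIndependent.pair_iff] at h
  intro hd
  have h1 := h (b 1) (-(a 1)) (by
    ext i
    fin_cases i
    · simp; linarith
    · simp; ring)
  have h2 := h (b 0) (-(a 0)) (by
    ext i
    fin_cases i
    · simp; ring
    · simp; linarith)
  have ha1 : a 1 = 0 := by simpa using h1.2
  have ha0 : a 0 = 0 := by simpa using h2.2
  have h3 := h 1 0 (by
    ext i
    fin_cases i
    · simp [ha0]
    · simp [ha1])
  exact one_ne_zero h3.1

theorem open_LI_E : LinearIndependent ℝ ![open_E 0, open_E 1] := by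
  rw [LinearIndependent.pair_iff]
  intro s t hst
  have h0 := congrArg (fun v : W => v 0) hst
  have h1 := congrArg (fun v : W => v 1) hst
  simp [open_E] at h0 h1
  exact ⟨h0, h1⟩

/-- smoothness of the curvature -/
theorem open_Fam.Gam_comp_smooth (H : open_Fam Ω g) (a : W) {w : Q × W → W} (hw : ContDiffOn ℝ ∞ w Ω) :
    ContDiffOn ℝ ∞ (fun z => open_Gam g z a (w z)) Ω := by
  unfold open_Gam
  have h0 := open_apply_smooth hw 0
  have h1 := open_apply_smooth hw 1
  exact ((((contDiffOn_const.mul h0).smul (H.Gk_smooth 0 0)).add ((contDiffOn_const.mul h1).smul (H.Gk_smooth 0 1))).add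
    ((contDiffOn_const.mul h0).smul (H.Gk_smooth 1 0))).add ((contDiffOn_const.mul h1).smul (H.Gk_smooth 1 1))

theorem open_Fam.R_smooth (H : open_Fam Ω g) (a b c : W) : ContDiffOn ℝ ∞ (fun z => open_R g z a b c) Ω := by
  unfold open_R
  exact (((open_pd_smooth H.isOpen (H.Gam_smooth b c) a).sub (open_pd_smooth H.isOpen (H.Gam_smooth a c) b)).add
    (H.Gam_comp_smooth a (H.Gam_smooth b c))).sub (H.Gam_comp_smooth b (H.Gam_smooth a c))

theorem open_Fam.G_comp_smooth (H : open_Fam Ω g) (d : W) {w : Q × W → W} (hw : ContDiffOn ℝ ∞ w Ω) :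
    ContDiffOn ℝ ∞ (fun z => open_G g (w z) d z) Ω := by
  have h2 : (fun y => open_G g (w y) d y) =
      fun y => w y 0 * open_G g (open_E 0) d y + w y 1 * open_G g (open_E 1) d y := by
    funext y
    conv_lhs => rw [open_E_coord (w y)]
    rw [H.G_add, H.G_smul, H.G_smul]
  rw [h2]
  exact ((open_apply_smooth hw 0).mul (H.sm _ d)).add ((open_apply_smooth hw 1).mul (H.sm _ d))

/-! ### the Hessian -/

/-- the Hessian of the function `φ` on the basis vectors -/
noncomputable def open_H (φ : Q × W → ℝ) (g : Q → W → W → W → ℝ) (i j : Fin 2) (z : Q × W) : ℝ :=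
  open_pd (open_pd φ (open_E i)) (open_E j) z -
    (open_Gk g i j z 0 * open_pd φ (open_E 0) z + open_Gk g i j z 1 * open_pd φ (open_E 1) z)

theorem open_Fam.H_smooth (H : open_Fam Ω g) {φ : Q × W → ℝ} (hφ : ContDiffOn ℝ ∞ φ Ω) (i j : Fin 2) :
    ContDiffOn ℝ ∞ (open_H φ g i j) Ω := by
  unfold open_H
  have h1 := fun a => open_pd_smooth H.isOpen hφ a
  exact (open_pd_smooth H.isOpen (h1 _) _).sub (((open_apply_smooth (H.Gk_smooth i j) 0).mul (h1 _)).add
    ((open_apply_smooth (H.Gk_smooth i j) 1).mul (h1 _)))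

theorem open_Fam.hess_eq (H : open_Fam Ω g) {φ : Q × W → ℝ} (hφ : ContDiffOn ℝ ∞ φ Ω) {z : Q × W} (hz : z ∈ Ω) (a : W) :
    dd (fun y => φ (z.1, y)) z.2 a - der (fun y => φ (z.1, y)) z.2 (open_Gam g z a a) =
      open_H φ g 0 0 z * a 0 ^ 2 + (open_H φ g 0 1 z + open_H φ g 1 0 z) * (a 0 * a 1) + open_H φ g 1 1 z * a 1 ^ 2 := by
  have h1 : der (fun y => φ (z.1, y)) z.2 (open_Gam g z a a) = open_pd φ (open_Gam g z a a) z :=
    open_der (open_diff H.isOpen hφ hz) _
  have hd : ∀ b, DifferentiableAt ℝ (open_pd φ b) z := fun b => open_diff H.isOpen (open_pd_smooth H.isOpen hφ b) hz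
  have h2 : ∀ b, open_pd (open_pd φ a) b z =
      a 0 * open_pd (open_pd φ (open_E 0)) b z + a 1 * open_pd (open_pd φ (open_E 1)) b z := by
    intro b
    have : open_pd φ a = fun y => a 0 • open_pd φ (open_E 0) y + a 1 • open_pd φ (open_E 1) y := by
      funext y
      exact open_pd_coord φ a y
    rw [this, open_pd_add ((hd _).fun_const_smul _) ((hd _).fun_const_smul _), open_pd_smul (hd _), open_pd_smul (hd _)]
    rfl
  have h3 : open_pd φ (open_Gam g z a a) z =
      (open_Gam g z a a) 0 * open_pd φ (open_E 0) z + (open_Gam g z a a) 1 * open_pd φ (open_E 1) z :=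
    open_pd_coord φ _ z
  have h4 : ∀ k : Fin 2, (open_Gam g z a a) k = (a 0 * a 0) * open_Gk g 0 0 z k + (a 0 * a 1) * open_Gk g 0 1 z k +
      (a 1 * a 0) * open_Gk g 1 0 z k + (a 1 * a 1) * open_Gk g 1 1 z k := by
    intro k
    unfold open_Gam
    simp only [PiLp.add_apply, PiLp.smul_apply, smul_eq_mul]
  rw [open_dd H.isOpen hφ hz, h1, h3, h4, h4, open_pd_coord _ a z, h2, h2, smul_eq_mul, smul_eq_mul]
  unfold open_H
  ring

end Met

/-! ### the theorem -/

section Main

variable {Q : Type} [NormedAddCommGroup Q] [NormedSpace ℝ Q] {Ω : Set (Q × W)} {g : Q → W → W → W → ℝ}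

theorem open_Fam.goodAt_iff (H : open_Fam Ω g) {C : Q → W → ℝ} (hC : ContDiffOn ℝ ∞ (fun z : Q × W => C z.1 z.2) Ω)
    {z : Q × W} (hz : z ∈ Ω) :
    GoodAt (C z.1) (g z.1) z.2 ↔ 0 < C z.1 z.2 ∧
      open_G g (open_R g z (open_E 0) (open_E 1) (open_E 1)) (open_E 0) z < 0 ∧
      0 < open_H (fun z => C z.1 z.2) g 0 0 z ∧
      0 < 4 * open_H (fun z => C z.1 z.2) g 0 0 z * open_H (fun z => C z.1 z.2) g 1 1 z -
        (open_H (fun z => C z.1 z.2) g 0 1 z + open_H (fun z => C z.1 z.2) g 1 0 z) ^ 2 := by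
  have hev : ∀ᶠ x in 𝓝 z.2, (z.1, x) ∈ Ω := by
    have hc : Continuous (fun x : W => (z.1, x)) := by fun_prop
    exact hc.continuousAt.eventually_mem (H.isOpen.mem_nhds hz)
  have hC1 : ∀ x, C z.1 x = (fun z : Q × W => C z.1 z.2) (z.1, x) := fun _ => rfl
  have hhess := fun a => H.hess_eq hC hz a
  have hq : (∀ a : W, a ≠ 0 → 0 < dd (C z.1) z.2 a - der (C z.1) z.2 (open_Gam g z a a)) ↔
      0 < open_H (fun z => C z.1 z.2) g 0 0 z ∧
      0 < 4 * open_H (fun z => C z.1 z.2) g 0 0 z * open_H (fun z => C z.1 z.2) g 1 1 z -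
        (open_H (fun z => C z.1 z.2) g 0 1 z + open_H (fun z => C z.1 z.2) g 1 0 z) ^ 2 := by
    rw [← open_quad]
    constructor
    · intro h s t hst
      have h1 := h (s • open_E 0 + t • open_E 1) (by
        intro h0
        have e0 := congrArg (fun v : W => v 0) h0
        have e1 := congrArg (fun v : W => v 1) h0
        simp [open_E] at e0 e1
        rcases hst with h2 | h2
        · exact h2 e0
        · exact h2 e1)
      have h2 := hhess (s • open_E 0 + t • open_E 1)
      have e0 : (s • open_E 0 + t • open_E 1 : W) 0 = s := by simp [open_E]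
      have e1 : (s • open_E 0 + t • open_E 1 : W) 1 = t := by simp [open_E]
      rw [e0, e1] at h2
      rw [← h2]
      exact h1
    · intro h a ha
      have h2 := hhess a
      have h3 : dd (C z.1) z.2 a - der (C z.1) z.2 (open_Gam g z a a) = _ := h2
      rw [h3]
      refine h (a 0) (a 1) ?_
      by_contra hcon
      push Not at hcon
      apply ha
      rw [open_E_coord a, hcon.1, hcon.2]
      simp
  have hT : (∀ a b : W, LinearIndependent ℝ ![a, b] → open_G g (open_R g z a b b) a z < 0) ↔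
      open_G g (open_R g z (open_E 0) (open_E 1) (open_E 1)) (open_E 0) z < 0 := by
    constructor
    · intro h
      exact h _ _ open_LI_E
    · intro h a b hab
      rw [H.T_det hz]
      have := open_LI_det hab
      exact mul_neg_of_pos_of_neg (by positivity) h
  rw [← hq, ← hT]
  unfold GoodAt
  refine and_congr_right fun _ => ?_
  constructor
  · rintro ⟨Γ, -, hΓ, h1, h2⟩
    have hEq : ∀ᶠ x in 𝓝 z.2, ∀ a b, Γ x a b = open_Gam g (z.1, x) a b := by
      filter_upwards [hev, hΓ] with x hx hch a b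
      exact H.chr_unique (z := (z.1, x)) hx hch a b
    have hz' : ∀ a b, Γ z.2 a b = open_Gam g z a b := hEq.self_of_nhds
    constructor
    · intro a b hab
      have h3 := h1 a b hab
      have h4 : riem Γ z.2 a b b = riem (fun x => open_Gam g (z.1, x)) z.2 a b b := by
        unfold riem
        have e : ∀ u v, (fun x => Γ x u v) =ᶠ[𝓝 z.2] fun x => open_Gam g (z.1, x) u v := by
          intro u v
          filter_upwards [hEq] with x hx using hx u v
        rw [(e b b).fderiv_eq, (e a b).fderiv_eq]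
        simp only [hz']
      rw [h4, H.riem_eq hz] at h3
      exact h3
    · intro a ha
      have := h2 a ha
      rwa [hz'] at this
  · rintro ⟨h1, h2⟩
    refine ⟨fun x => open_Gam g (z.1, x), ?_, ?_, ?_, h2⟩
    · intro a b
      exact (open_hasFDerivAt_slice (φ := fun z => open_Gam g z a b)
        (open_diff H.isOpen (H.Gam_smooth a b) hz)).differentiableAt
    · filter_upwards [hev] with x hx
      exact H.isChr (z := (z.1, x)) hx
    · intro a b hab
      rw [H.riem_eq hz]
      exact h1 a b hab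

end Main

theorem t_OPEN : S_OPEN := by
  intro Q _ _ _ Ω C g hΩ hC hg hadd hsmul hsymm hpos
  have H : open_Fam Ω g := ⟨hΩ, hg, hadd, hsmul, hsymm, hpos⟩
  obtain ⟨f1, hf1⟩ : ∃ f : Q × W → ℝ, f = fun z => open_G g (open_R g z (open_E 0) (open_E 1) (open_E 1)) (open_E 0) z := ⟨_, rfl⟩
  obtain ⟨f2, hf2⟩ : ∃ f : Q × W → ℝ, f = open_H (fun z => C z.1 z.2) g 0 0 := ⟨_, rfl⟩
  obtain ⟨f3, hf3⟩ : ∃ f : Q × W → ℝ, f = fun z => 4 * open_H (fun z => C z.1 z.2) g 0 0 z * open_H (fun z => C z.1 z.2) g 1 1 z -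
        (open_H (fun z => C z.1 z.2) g 0 1 z + open_H (fun z => C z.1 z.2) g 1 0 z) ^ 2 := ⟨_, rfl⟩
  have c1 : ContinuousOn f1 Ω := by
    rw [hf1]; exact (H.G_comp_smooth _ (H.R_smooth _ _ _)).continuousOn
  have c2 : ContinuousOn f2 Ω := by
    rw [hf2]; exact (H.H_smooth hC 0 0).continuousOn
  have c3 : ContinuousOn f3 Ω := by
    rw [hf3]
    have h := fun i j => (H.H_smooth hC i j).continuousOn
    exact ((continuousOn_const.mul (h 0 0)).mul (h 1 1)).sub (((h 0 1).add (h 1 0)).pow 2)
  have c0 : ContinuousOn (fun z : Q × W => C z.1 z.2) Ω := hC.continuousOn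
  have hset : {z | z ∈ Ω ∧ GoodAt (C z.1) (g z.1) z.2} =
      (Ω ∩ (fun z : Q × W => C z.1 z.2) ⁻¹' Set.Ioi 0) ∩ ((Ω ∩ f1 ⁻¹' Set.Iio 0) ∩
        ((Ω ∩ f2 ⁻¹' Set.Ioi 0) ∩ (Ω ∩ f3 ⁻¹' Set.Ioi 0))) := by
    ext z
    simp only [Set.mem_ofPred_eq, Set.mem_inter_iff, Set.mem_preimage, Set.mem_Ioi, Set.mem_Iio]
    constructor
    · rintro ⟨hz, h⟩
      obtain ⟨h0, h1, h2, h3⟩ := (H.goodAt_iff hC hz).1 h
      rw [hf1, hf2, hf3]
      exact ⟨⟨hz, h0⟩, ⟨hz, h1⟩, ⟨hz, h2⟩, hz, h3⟩
    · rintro ⟨⟨hz, h0⟩, ⟨-, h1⟩, ⟨-, h2⟩, -, h3⟩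
      rw [hf1] at h1
      rw [hf2] at h2
      rw [hf3] at h3
      exact ⟨hz, (H.goodAt_iff hC hz).2 ⟨h0, h1, h2, h3⟩⟩
  rw [hset]
  exact (c0.isOpen_inter_preimage hΩ isOpen_Ioi).inter ((c1.isOpen_inter_preimage hΩ isOpen_Iio).inter
    ((c2.isOpen_inter_preimage hΩ isOpen_Ioi).inter (c3.isOpen_inter_preimage hΩ isOpen_Ioi)))

end Pool.Agent.Helper473.LY
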