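import Mathlib
import Pool.Agent.Helper473.LY.Stmts

/-!
# Lawson–Yau: the outer radial functions (task OUT)
-/

set_option autoImplicit false

open scoped Manifold ContDiff Topology RealInnerProductSpace
open Module

namespace Pool.Agent.Helper473.LY

open Pool.Agent.H234R3

/-! ### General lemmas -/

theorem out_int (p q c : ℝ) (f : ℝ → ℝ) (hc : c ∈ Set.Ioo p q)
    (hf : ContDiffOn ℝ ∞ f (Set.Ioo p q)) :
    (∀ y ∈ Set.Ioo p q, HasDerivAt (fun y => ∫ t in c..y, f t) (f y) y) ∧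
      ContDiffOn ℝ ∞ (fun y => ∫ t in c..y, f t) (Set.Ioo p q) := by
  have h1 : ∀ y ∈ Set.Ioo p q, HasDerivAt (fun y => ∫ t in c..y, f t) (f y) y := by
    intro y hy
    have hcont : ContinuousOn f (Set.Ioo p q) := hf.continuousOn
    have hsub : Set.uIcc c y ⊆ Set.Ioo p q := Set.ordConnected_Ioo.uIcc_subset hc hy
    apply intervalIntegral.integral_hasDerivAt_right
    · exact (hcont.mono hsub).intervalIntegrable
    · exact hcont.stronglyMeasurableAtFilter isOpen_Ioo y hy
    · exact (hcont y hy).continuousAt (isOpen_Ioo.mem_nhds hy)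
  refine ⟨h1, ?_⟩
  rw [contDiffOn_infty_iff_deriv_of_isOpen isOpen_Ioo]
  refine ⟨fun y hy => (h1 y hy).differentiableAt.differentiableWithinAt, ?_⟩
  exact hf.congr (fun y hy => (h1 y hy).deriv)

theorem out_ode (p q c u0 : ℝ) (f : ℝ → ℝ) (hc : c ∈ Set.Ioo p q)
    (hf : ContDiffOn ℝ ∞ f (Set.Ioo p q)) (h0 : 0 < u0) :
    ∃ u : ℝ → ℝ, ContDiffOn ℝ ∞ u (Set.Ioo p q) ∧ (∀ y, 0 < u y) ∧
      (∀ y ∈ Set.Ioo p q, HasDerivAt u (f y * u y) y) ∧ u c = u0 := by
  obtain ⟨h1, h2⟩ := out_int p q c f hc hf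
  refine ⟨fun y => u0 * Real.exp (∫ t in c..y, f t), ?_, ?_, ?_, ?_⟩
  · exact contDiffOn_const.mul (Real.contDiff_exp.comp_contDiffOn h2)
  · intro y
    positivity
  · intro y hy
    have h3 := ((h1 y hy).exp).const_mul u0
    have h4 : f y * (u0 * Real.exp (∫ t in c..y, f t)) = u0 * (Real.exp (∫ t in c..y, f t) * f y) := by
      ring
    show HasDerivAt _ (f y * (u0 * Real.exp (∫ t in c..y, f t))) y
    rw [h4]
    exact h3
  · simp

theorem out_uniq (u v f : ℝ → ℝ) (y z : ℝ) (hyz : y ≤ z)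
    (hu : ∀ t ∈ Set.Icc y z, HasDerivAt u (f t * u t) t)
    (hv : ∀ t ∈ Set.Icc y z, HasDerivAt v (f t * v t) t)
    (hv0 : ∀ t ∈ Set.Icc y z, 0 < v t) : u z * v y = u y * v z := by
  have hd : ∀ t ∈ Set.Icc y z, HasDerivAt (fun t => u t / v t) 0 t := by
    intro t ht
    have h := (hu t ht).div (hv t ht) (hv0 t ht).ne'
    have h4 : f t * u t * v t - u t * (f t * v t) = 0 := by ring
    rw [h4, zero_div] at h
    exact h
  have hc : ContinuousOn (fun t => u t / v t) (Set.Icc y z) :=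
    fun t ht => (hd t ht).continuousAt.continuousWithinAt
  have h := constant_of_has_deriv_right_zero hc
    (fun t ht => (hd t (Set.Ico_subset_Icc_self ht)).hasDerivWithinAt) z ⟨hyz, le_refl z⟩
  have h1 := (hv0 y ⟨le_refl y, hyz⟩).ne'
  have h2 := (hv0 z ⟨hyz, le_refl z⟩).ne'
  rw [div_eq_div_iff h2 h1] at h
  exact h

theorem out_chi_nonneg (s : ℝ) : 0 ≤ deriv Real.smoothTransition s :=
  Real.smoothTransition.monotone.deriv_nonneg

theorem out_chi_zero (s : ℝ) (hs : s < 0) : deriv Real.smoothTransition s = 0 := by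
  have h : Real.smoothTransition =ᶠ[𝓝 s] fun _ => (0:ℝ) := by
    filter_upwards [isOpen_Iio.mem_nhds hs] with t ht
    exact Real.smoothTransition.zero_of_nonpos (le_of_lt ht)
  rw [h.deriv_eq, deriv_const]

/-! ### The variable `X` -/

/-- `cosh` of the distance, as a function of `y` -/
noncomputable def outX (r y : ℝ) : ℝ := (1 + r * y) / (1 - r * y)

/-- `y` as a function of `X` -/
noncomputable def outY (r X : ℝ) : ℝ := (X - 1) / (r * (X + 1))

theorem out_den {r y : ℝ} (hr : 0 < r) (hy : y ∈ Set.Ioo 0 (1 / r)) : 0 < 1 - r * y := by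
  have h : y < 1 / r := hy.2
  rw [lt_div_iff₀ hr] at h
  linarith

theorem out_X_gt {r y : ℝ} (hr : 0 < r) (hy : y ∈ Set.Ioo 0 (1 / r)) : 1 < outX r y := by
  have h := out_den hr hy
  have h1 : 0 < r * y := mul_pos hr hy.1
  rw [outX, lt_div_iff₀ h]
  linarith

theorem out_X_sq {r y : ℝ} (hr : 0 < r) (hy : y ∈ Set.Ioo 0 (1 / r)) :
    outX r y ^ 2 - 1 = 4 * r * y / (1 - r * y) ^ 2 := by
  have h := (out_den hr hy).ne'
  rw [outX]
  field_simp
  ring

theorem out_Y_mem {r X : ℝ} (hr : 0 < r) (hX : 1 < X) : outY r X ∈ Set.Ioo 0 (1 / r) := by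
  have h1 : 0 < X - 1 := by linarith
  have h2 : 0 < X + 1 := by linarith
  rw [outY]
  constructor
  · positivity
  · rw [div_lt_div_iff₀ (by positivity) hr]
    nlinarith

theorem out_XY {r X : ℝ} (hr : 0 < r) (hX : 1 < X) : outX r (outY r X) = X := by
  have h2 : X + 1 ≠ 0 := by linarith
  have h1 := (out_den hr (out_Y_mem hr hX)).ne'
  rw [outX, div_eq_iff h1, outY]
  field_simp
  ring

theorem out_YX {r y : ℝ} (hr : 0 < r) (hy : y ∈ Set.Ioo 0 (1 / r)) : outY r (outX r y) = y := by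
  have h1 := (out_den hr hy).ne'
  have h2 : outX r y + 1 ≠ 0 := by
    have := out_X_gt hr hy
    linarith
  rw [outY, div_eq_iff (mul_ne_zero hr.ne' h2), outX]
  field_simp
  ring

theorem out_dX {r y : ℝ} (hr : 0 < r) (hy : y ∈ Set.Ioo 0 (1 / r)) :
    HasDerivAt (outX r) ((outX r y ^ 2 - 1) / (2 * y)) y := by
  have h1 := (out_den hr hy).ne'
  have h2 : HasDerivAt (fun y => (1 + r * y) / (1 - r * y))
      ((r * (1 - r * y) - (1 + r * y) * (-r)) / (1 - r * y) ^ 2) y := by
    apply HasDerivAt.div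
    · simpa using ((hasDerivAt_id y).const_mul r).const_add 1
    · simpa using ((hasDerivAt_id y).const_mul r).const_sub 1
    · exact h1
  have h3 : (r * (1 - r * y) - (1 + r * y) * (-r)) / (1 - r * y) ^ 2
      = (outX r y ^ 2 - 1) / (2 * y) := by
    rw [out_X_sq hr hy]
    have := hy.1.ne'
    field_simp
    ring
  rw [← h3]
  exact h2

theorem out_dY {r X : ℝ} (hr : 0 < r) (hX : 1 < X) :
    HasDerivAt (outY r) (2 * outY r X / (X ^ 2 - 1)) X := by
  have h2 : X + 1 ≠ 0 := by linarith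
  have h4 : X - 1 ≠ 0 := by linarith
  have h5 : X ^ 2 - 1 ≠ 0 := by
    have : X ^ 2 - 1 = (X - 1) * (X + 1) := by ring
    rw [this]
    exact mul_ne_zero h4 h2
  have h3 : HasDerivAt (fun X => (X - 1) / (r * (X + 1)))
      ((1 * (r * (X + 1)) - (X - 1) * (r * 1)) / (r * (X + 1)) ^ 2) X := by
    apply HasDerivAt.div
    · exact (hasDerivAt_id X).sub_const 1
    · exact ((hasDerivAt_id X).add_const 1).const_mul r
    · exact mul_ne_zero hr.ne' h2
  have h6 : (1 * (r * (X + 1)) - (X - 1) * (r * 1)) / (r * (X + 1)) ^ 2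
      = 2 * outY r X / (X ^ 2 - 1) := by
    rw [outY]
    have : X ^ 2 - 1 = (X - 1) * (X + 1) := by ring
    rw [this]
    field_simp
    ring
  rw [← h6]
  exact h3

theorem out_mono {r y z : ℝ} (hr : 0 < r) (hy : y ∈ Set.Ioo 0 (1 / r))
    (hz : z ∈ Set.Ioo 0 (1 / r)) (h : y ≤ z) : outX r y ≤ outX r z := by
  have h1 := out_den hr hy
  have h2 := out_den hr hz
  rw [outX, outX, div_le_div_iff₀ h1 h2]
  nlinarith

theorem out_smX {r : ℝ} (hr : 0 < r) : ContDiffOn ℝ ∞ (outX r) (Set.Ioo 0 (1 / r)) := by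
  unfold outX
  apply ContDiffOn.div
  · fun_prop
  · fun_prop
  · intro y hy
    exact (out_den hr hy).ne'

theorem out_smY {r : ℝ} (hr : 0 < r) : ContDiffOn ℝ ∞ (outY r) (Set.Ioi 1) := by
  unfold outY
  apply ContDiffOn.div
  · fun_prop
  · fun_prop
  · intro X hX
    have : (1:ℝ) < X := hX
    exact mul_ne_zero hr.ne' (by linarith)

/-! ### The interpolated exponents -/

theorem out_ineq (a0 b0 X θ η c : ℝ) (h0 : 0 < a0) (h1 : a0 < b0) (h2 : b0 < 8) (hX : 1 < X)
    (hθ0 : 0 ≤ θ) (_ : θ ≤ 1) (_ : 0 ≤ η) (hη1 : η ≤ 1) (hc : 0 ≤ c)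
    (hc0 : X < 16 → c = 0) (hθX : X ≤ 16 → θ = 0) (hθX' : 17 ≤ X → θ = 1)
    (hηX : X ≤ 17 → η = 0) :
    0 < (1 - θ) * (2 * a0 * (b0 - a0)) + θ * ((1 + 1 / X ^ 2) * (X ^ 2 - 1))
      + c * (X ^ 2 - 1) * (X - 1 / X - a0)
      + ((1 - θ) * a0 + θ * (X - 1 / X)) *
        (((1 - θ) * a0 + θ * (X - 1 / X)) - ((1 - η) * b0 + η * X)) := by
  have hp : 0 < a0 * (b0 - a0) := mul_pos h0 (by linarith)
  rcases lt_or_ge X 16 with h | h
  · rw [hc0 h, hθX h.le, hηX (by linarith)]
    nlinarith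
  · have hXi : 1 / X ≤ 1 := by
      rw [div_le_one (by linarith)]
      linarith
    have hXi0 : 0 < 1 / X := by positivity
    have hXX : X * (1 / X) = 1 := by field_simp
    have hD : 0 < X - 1 / X - a0 := by linarith
    have h3 : 0 ≤ c * (X ^ 2 - 1) * (X - 1 / X - a0) := by
      apply mul_nonneg (mul_nonneg hc (by nlinarith)) hD.le
    have h4 : (1 + 1 / X ^ 2) * (X ^ 2 - 1) = X ^ 2 - (1 / X) ^ 2 := by
      field_simp
      ring
    rw [h4]
    generalize 1 / X = i at *
    have hi2 : i ^ 2 ≤ 1 := by nlinarith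
    rcases le_or_gt X 17 with h5 | h5
    · rw [hηX h5]
      have h6 : a0 * (b0 - a0) ≤ 16 := by nlinarith [sq_nonneg (b0 - 2 * a0)]
      have h7 : (X - i - a0) * b0 ≤ X * 8 := by
        apply mul_le_mul (by linarith) h2.le (by linarith) (by linarith)
      have h8 : 0 ≤ θ * (X ^ 2 - i ^ 2 - 8 * X - 2 * (a0 * (b0 - a0))) := by
        apply mul_nonneg hθ0
        nlinarith
      have h9 : 0 ≤ θ * (X * 8 - (X - i - a0) * b0) := mul_nonneg hθ0 (by linarith)
      have h10 : 0 ≤ θ * a0 * (X - i - a0) := by positivity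
      have h11 : 0 ≤ θ ^ 2 * (X - i - a0) ^ 2 := by positivity
      nlinarith
    · rw [hθX' h5.le]
      have h6 : (1 - η) * b0 + η * X ≤ X := by nlinarith
      have h7 : 0 < X - i := by linarith
      have h8 : (X - i) * ((1 - η) * b0 + η * X) ≤ (X - i) * X :=
        mul_le_mul_of_nonneg_left h6 h7.le
      nlinarith

/-- The interpolated exponent `a` -/
noncomputable def outa (r : ℝ) (a0 : ℝ → ℝ) (y : ℝ) : ℝ :=
  (1 - Real.smoothTransition (outX r y - 16)) * a0 y
    + Real.smoothTransition (outX r y - 16) * (outX r y - 1 / outX r y)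

/-- The interpolated exponent `b` -/
noncomputable def outb (r : ℝ) (b0 : ℝ → ℝ) (y : ℝ) : ℝ :=
  (1 - Real.smoothTransition (outX r y - 17)) * b0 y
    + Real.smoothTransition (outX r y - 17) * outX r y

/-- The properties of the exponents -/
structure OutAB (r : ℝ) (a0 b0 a b : ℝ → ℝ) : Prop where
  a_smooth : ContDiffOn ℝ ∞ a (Set.Ioo 0 (1 / r))
  b_smooth : ContDiffOn ℝ ∞ b (Set.Ioo 0 (1 / r))
  a_pos : ∀ y ∈ Set.Ioo 0 (1 / r), 0 < a y
  b_pos : ∀ y ∈ Set.Ioo 0 (1 / r), 0 < b y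
  db : ∀ y ∈ Set.Ioo 0 (1 / r), 0 < deriv b y
  da : ∀ y ∈ Set.Ioo 0 (1 / r), 0 < 2 * y * deriv a y + a y * (a y - b y)
  b_le : ∀ y ∈ Set.Ioo 0 (1 / r), 16 ≤ outX r y → b y ≤ outX r y
  a_in : ∀ y ∈ Set.Ioo 0 (1 / r), outX r y ≤ 16 → a y = a0 y
  b_in : ∀ y ∈ Set.Ioo 0 (1 / r), outX r y ≤ 16 → b y = b0 y
  a_out : ∀ y ∈ Set.Ioo 0 (1 / r), 18 ≤ outX r y → a y = outX r y - 1 / outX r y
  b_out : ∀ y ∈ Set.Ioo 0 (1 / r), 18 ≤ outX r y → b y = outX r y

theorem out_ab (r : ℝ) (a0 b0 : ℝ → ℝ) (hr : 0 < r)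
    (ha : ContDiffOn ℝ ∞ a0 (Set.Ioo 0 (1 / r))) (hb : ContDiffOn ℝ ∞ b0 (Set.Ioo 0 (1 / r)))
    (h0 : ∀ y ∈ Set.Ioo 0 (1 / r), 0 < a0 y) (h1 : ∀ y ∈ Set.Ioo 0 (1 / r), a0 y < b0 y)
    (h2 : ∀ y ∈ Set.Ioo 0 (1 / r), b0 y < 8)
    (h3 : ∀ y ∈ Set.Ioo 0 (1 / r), 2 * y * deriv a0 y = 2 * a0 y * (b0 y - a0 y))
    (h4 : ∀ y ∈ Set.Ioo 0 (1 / r), 0 < deriv b0 y) :
    OutAB r a0 b0 (outa r a0) (outb r b0) := by
  have hX0 : ∀ y ∈ Set.Ioo 0 (1 / r), outX r y ≠ 0 := fun y hy => by
    have := out_X_gt hr hy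
    linarith
  have hst : ∀ c : ℝ, ContDiffOn ℝ ∞ (fun y => Real.smoothTransition (outX r y - c))
      (Set.Ioo 0 (1 / r)) := fun c =>
    (Real.smoothTransition.contDiff (n := ⊤)).comp_contDiffOn ((out_smX hr).sub contDiffOn_const)
  have hdst : ∀ c : ℝ, ∀ y ∈ Set.Ioo 0 (1 / r),
      HasDerivAt (fun y => Real.smoothTransition (outX r y - c))
        (deriv Real.smoothTransition (outX r y - c) * ((outX r y ^ 2 - 1) / (2 * y))) y := by
    intro c y hy
    have h5 : HasDerivAt Real.smoothTransition (deriv Real.smoothTransition (outX r y - c))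
        (outX r y - c) :=
      ((Real.smoothTransition.contDiff (n := 1)).differentiable (by norm_num) _).hasDerivAt
    exact h5.comp y ((out_dX hr hy).sub_const c)
  have hda0 : ∀ y ∈ Set.Ioo 0 (1 / r), HasDerivAt a0 (deriv a0 y) y := fun y hy =>
    ((ha.contDiffAt (isOpen_Ioo.mem_nhds hy)).differentiableAt (by norm_num)).hasDerivAt
  have hdb0 : ∀ y ∈ Set.Ioo 0 (1 / r), HasDerivAt b0 (deriv b0 y) y := fun y hy =>
    ((hb.contDiffAt (isOpen_Ioo.mem_nhds hy)).differentiableAt (by norm_num)).hasDerivAt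
  refine ⟨?_, ?_, ?_, ?_, ?_, ?_, ?_, ?_, ?_, ?_, ?_⟩
  · unfold outa
    apply ContDiffOn.add
    · exact (contDiffOn_const.sub (hst 16)).mul ha
    · exact (hst 16).mul ((out_smX hr).sub (contDiffOn_const.div (out_smX hr) hX0))
  · unfold outb
    apply ContDiffOn.add
    · exact (contDiffOn_const.sub (hst 17)).mul hb
    · exact (hst 17).mul (out_smX hr)
  · intro y hy
    have hX := out_X_gt hr hy
    have h5 : 0 < outX r y - 1 / outX r y := by
      have : 1 / outX r y < 1 := by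
        rw [div_lt_one (by linarith)]
        exact hX
      linarith
    have h6 := Real.smoothTransition.nonneg (outX r y - 16)
    have h7 := Real.smoothTransition.le_one (outX r y - 16)
    have h8 := h0 y hy
    unfold outa
    generalize Real.smoothTransition (outX r y - 16) = t at *
    rcases lt_or_ge t 1 with h | h
    · have : 0 < (1 - t) * a0 y := mul_pos (by linarith) h8
      have : 0 ≤ t * (outX r y - 1 / outX r y) := mul_nonneg h6 h5.le
      linarith
    · have : t = 1 := le_antisymm h7 h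
      rw [this]
      linarith
  · intro y hy
    have hX := out_X_gt hr hy
    have h6 := Real.smoothTransition.nonneg (outX r y - 17)
    have h7 := Real.smoothTransition.le_one (outX r y - 17)
    have h8 := (h0 y hy).trans (h1 y hy)
    unfold outb
    generalize Real.smoothTransition (outX r y - 17) = t at *
    rcases lt_or_ge t 1 with h | h
    · have : 0 < (1 - t) * b0 y := mul_pos (by linarith) h8
      have : 0 ≤ t * (outX r y) := mul_nonneg h6 (by linarith)
      linarith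
    · have : t = 1 := le_antisymm h7 h
      rw [this]
      linarith
  · intro y hy
    have hX := out_X_gt hr hy
    have h5 := (((hdst 17 y hy).const_sub 1).mul (hdb0 y hy)).add
      ((hdst 17 y hy).mul (out_dX hr hy))
    have h6 : deriv (outb r b0) y = _ := h5.deriv
    rw [h6]
    have h7 := Real.smoothTransition.nonneg (outX r y - 17)
    have h8 := Real.smoothTransition.le_one (outX r y - 17)
    have h9 := out_chi_nonneg (outX r y - 17)
    have hP : 0 < (outX r y ^ 2 - 1) / (2 * y) := by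
      have : 0 < outX r y ^ 2 - 1 := by nlinarith
      have := hy.1
      positivity
    have h10 : 0 ≤ deriv Real.smoothTransition (outX r y - 17) * (outX r y - b0 y) := by
      rcases lt_or_ge (outX r y) 17 with h | h
      · rw [out_chi_zero _ (by linarith)]
        simp
      · exact mul_nonneg h9 (by linarith [h2 y hy])
    have h11 : 0 < (1 - Real.smoothTransition (outX r y - 17)) * deriv b0 y +
        Real.smoothTransition (outX r y - 17) * ((outX r y ^ 2 - 1) / (2 * y)) := by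
      generalize Real.smoothTransition (outX r y - 17) = t at *
      rcases lt_or_ge t 1 with h | h
      · have : 0 < (1 - t) * deriv b0 y := mul_pos (by linarith) (h4 y hy)
        have : 0 ≤ t * ((outX r y ^ 2 - 1) / (2 * y)) := mul_nonneg h7 hP.le
        linarith
      · have : t = 1 := le_antisymm h8 h
        rw [this]
        linarith
    have h12 := mul_nonneg h10 hP.le
    generalize (outX r y ^ 2 - 1) / (2 * y) = P at *
    nlinarith
  · intro y hy
    have hX := out_X_gt hr hy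
    have hy0 := hy.1
    have h5 : HasDerivAt (outa r a0) _ y := (((hdst 16 y hy).const_sub 1).mul (hda0 y hy)).add
      ((hdst 16 y hy).mul ((out_dX hr hy).sub
        ((hasDerivAt_const y (1:ℝ)).div (out_dX hr hy) (hX0 y hy))))
    have h6 := h5.deriv
    rw [h6]
    have key := out_ineq (a0 y) (b0 y) (outX r y) (Real.smoothTransition (outX r y - 16))
      (Real.smoothTransition (outX r y - 17)) (deriv Real.smoothTransition (outX r y - 16))
      (h0 y hy) (h1 y hy) (h2 y hy) hX (Real.smoothTransition.nonneg _)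
      (Real.smoothTransition.le_one _) (Real.smoothTransition.nonneg _)
      (Real.smoothTransition.le_one _) (out_chi_nonneg _) (fun h => out_chi_zero _ (by linarith))
      (fun h => Real.smoothTransition.zero_of_nonpos (by linarith))
      (fun h => Real.smoothTransition.one_of_one_le (by linarith))
      (fun h => Real.smoothTransition.zero_of_nonpos (by linarith))
    have e := h3 y hy
    rw [← e] at key
    unfold outa outb
    convert key using 1
    have h8 := hX0 y hy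
    generalize Real.smoothTransition (outX r y - 16) = t at *
    generalize Real.smoothTransition (outX r y - 17) = u at *
    generalize deriv Real.smoothTransition (outX r y - 16) = v at *
    generalize outX r y = X at *
    field_simp
    ring
  · intro y hy h
    have h6 := Real.smoothTransition.nonneg (outX r y - 17)
    have h7 := Real.smoothTransition.le_one (outX r y - 17)
    have h8 := h2 y hy
    unfold outb
    nlinarith
  · intro y hy h
    unfold outa
    rw [Real.smoothTransition.zero_of_nonpos (by linarith)]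
    ring
  · intro y hy h
    unfold outb
    rw [Real.smoothTransition.zero_of_nonpos (by linarith)]
    ring
  · intro y hy h
    unfold outa
    rw [Real.smoothTransition.one_of_one_le (by linarith)]
    ring
  · intro y hy h
    unfold outb
    rw [Real.smoothTransition.one_of_one_le (by linarith)]
    ring

theorem out_smono {r y z : ℝ} (hr : 0 < r) (hy : y ∈ Set.Ioo 0 (1 / r))
    (hz : z ∈ Set.Ioo 0 (1 / r)) (h : y < z) : outX r y < outX r z := by
  have h1 := out_den hr hy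
  have h2 := out_den hr hz
  rw [outX, outX, div_lt_div_iff₀ h1 h2]
  nlinarith

theorem out_le_of {r y X : ℝ} (hr : 0 < r) (hy : y ∈ Set.Ioo 0 (1 / r)) (hX : 1 < X)
    (h : X ≤ outX r y) : outY r X ≤ y := by
  by_contra hc
  push Not at hc
  have h1 := out_smono hr hy (out_Y_mem hr hX) hc
  rw [out_XY hr hX] at h1
  linarith

theorem out_Ymono {r X Z : ℝ} (hr : 0 < r) (hX : 1 < X) (h : X ≤ Z) : outY r X ≤ outY r Z := by
  apply out_le_of hr (out_Y_mem hr (by linarith)) hX
  rw [out_XY hr (by linarith)]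
  exact h

/-- The properties of the solutions -/
structure OutCE (r : ℝ) (a0 b0 a b C E : ℝ → ℝ) : Prop extends OutAB r a0 b0 a b where
  C_smooth : ContDiffOn ℝ ∞ C (Set.Ioo 0 (1 / r))
  E_smooth : ContDiffOn ℝ ∞ E (Set.Ioo 0 (1 / r))
  C_pos : ∀ y, 0 < C y
  E_pos : ∀ y, 0 < E y
  dC : ∀ y ∈ Set.Ioo 0 (1 / r), HasDerivAt C (a y / (2 * y) * C y) y
  dE : ∀ y ∈ Set.Ioo 0 (1 / r), HasDerivAt E (b y / y * E y) y
  C_out : ∀ y ∈ Set.Ioo 0 (1 / r), 18 ≤ outX r y → C y = outX r y
  E_out : ∀ y ∈ Set.Ioo 0 (1 / r), 18 ≤ outX r y → E y = outX r y ^ 2 - 1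

theorem out_ce (r : ℝ) (a0 b0 a b : ℝ → ℝ) (hr : 0 < r) (h : OutAB r a0 b0 a b) :
    ∃ C E, OutCE r a0 b0 a b C E := by
  have h18 : outY r 18 ∈ Set.Ioo 0 (1 / r) := out_Y_mem hr (by norm_num)
  have hyne : ∀ y ∈ Set.Ioo 0 (1 / r), y ≠ 0 := fun y hy => hy.1.ne'
  obtain ⟨C, hC1, hC2, hC3, hC4⟩ := out_ode 0 (1 / r) (outY r 18) 18 (fun y => a y / (2 * y)) h18
    (h.a_smooth.div (contDiffOn_const.mul contDiffOn_id)
      (fun y hy => mul_ne_zero two_ne_zero (hyne y hy))) (by norm_num)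
  obtain ⟨E, hE1, hE2, hE3, hE4⟩ := out_ode 0 (1 / r) (outY r 18) 323 (fun y => b y / y) h18
    (h.b_smooth.div contDiffOn_id hyne) (by norm_num)
  have hsub : ∀ y ∈ Set.Ioo 0 (1 / r), 18 ≤ outX r y → outY r 18 ≤ y ∧
      ∀ t ∈ Set.Icc (outY r 18) y, t ∈ Set.Ioo 0 (1 / r) ∧ 18 ≤ outX r t := by
    intro y hy hX
    refine ⟨out_le_of hr hy (by norm_num) hX, fun t ht => ?_⟩
    have ht' : t ∈ Set.Ioo 0 (1 / r) := ⟨lt_of_lt_of_le h18.1 ht.1, lt_of_le_of_lt ht.2 hy.2⟩
    refine ⟨ht', ?_⟩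
    have := out_mono hr h18 ht' ht.1
    rw [out_XY hr (by norm_num)] at this
    exact this
  refine ⟨C, E, { h with
    C_smooth := hC1, E_smooth := hE1, C_pos := hC2, E_pos := hE2, dC := hC3, dE := hE3
    C_out := ?_, E_out := ?_ }⟩
  · intro y hy hX
    obtain ⟨h1, h2⟩ := hsub y hy hX
    have h3 := out_uniq C (outX r) (fun y => a y / (2 * y)) (outY r 18) y h1
      (fun t ht => hC3 t (h2 t ht).1) (fun t ht => by
        have h4 := out_dX hr (h2 t ht).1
        have h5 : (outX r t ^ 2 - 1) / (2 * t) = a t / (2 * t) * outX r t := by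
          rw [h.a_out t (h2 t ht).1 (h2 t ht).2]
          have h6 : outX r t ≠ 0 := by linarith [(h2 t ht).2]
          have h7 := (h2 t ht).1.1.ne'
          field_simp
        rw [h5] at h4
        exact h4) (fun t ht => by linarith [(h2 t ht).2])
    rw [out_XY hr (by norm_num), hC4] at h3
    linarith
  · intro y hy hX
    obtain ⟨h1, h2⟩ := hsub y hy hX
    have h3 := out_uniq E (fun t => outX r t ^ 2 - 1) (fun y => b y / y) (outY r 18) y h1
      (fun t ht => hE3 t (h2 t ht).1) (fun t ht => by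
        have h4 := ((out_dX hr (h2 t ht).1).pow 2).sub_const 1
        have h5 : ((2:ℕ):ℝ) * outX r t ^ (2 - 1) * ((outX r t ^ 2 - 1) / (2 * t))
            = b t / t * (outX r t ^ 2 - 1) := by
          rw [h.b_out t (h2 t ht).1 (h2 t ht).2]
          have h7 := (h2 t ht).1.1.ne'
          norm_num
          field_simp
        rw [h5] at h4
        exact h4) (fun t ht => by nlinarith [(h2 t ht).2])
    simp only [out_XY hr (show (1:ℝ) < 18 by norm_num), hE4] at h3
    linarith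

/-- the derivative of the target function, as a function of `y` -/
noncomputable def outG (a C E : ℝ → ℝ) (y : ℝ) : ℝ := 2 * a y * C y ^ 2 / E y

/-- the derivative of the target function -/
noncomputable def outw (r k1 : ℝ) (a C E : ℝ → ℝ) (X : ℝ) : ℝ :=
  if X ≤ 16 then k1 else outG a C E (outY r X)

/-- the target function -/
noncomputable def outW (r k1 : ℝ) (a C E : ℝ → ℝ) (X : ℝ) : ℝ :=
  324 + ∫ t in (18:ℝ)..X, outw r k1 a C E t

section Target

variable {r k1 : ℝ} {a0 b0 a b C E : ℝ → ℝ}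

theorem out_w1 (hr : 0 < r)
    (hk : ∀ y ∈ Set.Ioo 0 (1 / r), outX r y ≤ 16 → outG a C E y = k1) {X : ℝ} (hX : 1 < X) :
    outw r k1 a C E X = outG a C E (outY r X) := by
  unfold outw
  split_ifs with h
  · rw [hk _ (out_Y_mem hr hX)]
    rw [out_XY hr hX]
    exact h
  · rfl

theorem out_Gsm (h : OutCE r a0 b0 a b C E) : ContDiffOn ℝ ∞ (outG a C E) (Set.Ioo 0 (1 / r)) := by
  unfold outG
  exact ((contDiffOn_const.mul h.a_smooth).mul (h.C_smooth.pow 2)).div h.E_smooth
    (fun y _ => (h.E_pos y).ne')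

theorem out_Gpos (h : OutCE r a0 b0 a b C E) {y : ℝ} (hy : y ∈ Set.Ioo 0 (1 / r)) :
    0 < outG a C E y := by
  unfold outG
  have := h.a_pos y hy
  have := h.C_pos y
  have := h.E_pos y
  positivity

theorem out_wsm (hr : 0 < r) (h : OutCE r a0 b0 a b C E)
    (hk : ∀ y ∈ Set.Ioo 0 (1 / r), outX r y ≤ 16 → outG a C E y = k1) :
    ContDiff ℝ ∞ (outw r k1 a C E) := by
  rw [contDiff_iff_contDiffAt]
  intro X
  rcases lt_or_ge X 16 with hX | hX
  · have h1 : outw r k1 a C E =ᶠ[𝓝 X] fun _ => k1 := by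
      filter_upwards [isOpen_Iio.mem_nhds hX] with t ht
      have ht' : t ≤ 16 := le_of_lt ht
      unfold outw
      rw [if_pos ht']
    exact contDiffAt_const.congr_of_eventuallyEq h1
  · have hX1 : (1:ℝ) < X := by linarith
    have h1 : outw r k1 a C E =ᶠ[𝓝 X] outG a C E ∘ outY r := by
      filter_upwards [isOpen_Ioi.mem_nhds hX1] with t ht
      exact out_w1 hr hk ht
    have h2 : ContDiffAt ℝ ∞ (outG a C E ∘ outY r) X := by
      apply ContDiffAt.comp
      · exact (out_Gsm h).contDiffAt (isOpen_Ioo.mem_nhds (out_Y_mem hr hX1))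
      · exact (out_smY hr).contDiffAt (isOpen_Ioi.mem_nhds hX1)
    exact h2.congr_of_eventuallyEq h1

theorem out_wpos (hr : 0 < r) (h : OutCE r a0 b0 a b C E) (hk1 : 0 < k1) (X : ℝ) :
    0 < outw r k1 a C E X := by
  unfold outw
  split_ifs with h1
  · exact hk1
  · push Not at h1
    exact out_Gpos h (out_Y_mem hr (by linarith))

theorem out_dW (hr : 0 < r) (h : OutCE r a0 b0 a b C E)
    (hk : ∀ y ∈ Set.Ioo 0 (1 / r), outX r y ≤ 16 → outG a C E y = k1) (X : ℝ) :
    HasDerivAt (outW r k1 a C E) (outw r k1 a C E X) X := by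
  have hc : Continuous (outw r k1 a C E) := (out_wsm hr h hk).continuous
  exact (hc.integral_hasStrictDerivAt 18 X).hasDerivAt.const_add 324

theorem out_Wsm (hr : 0 < r) (h : OutCE r a0 b0 a b C E)
    (hk : ∀ y ∈ Set.Ioo 0 (1 / r), outX r y ≤ 16 → outG a C E y = k1) :
    ContDiff ℝ ∞ (outW r k1 a C E) := by
  rw [contDiff_infty_iff_deriv]
  refine ⟨fun X => (out_dW hr h hk X).differentiableAt, ?_⟩
  have h1 : deriv (outW r k1 a C E) = outw r k1 a C E := funext fun X => (out_dW hr h hk X).deriv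
  rw [h1]
  exact out_wsm hr h hk

theorem out_Wlow (hr : 0 < r) (h : OutCE r a0 b0 a b C E)
    (hk : ∀ y ∈ Set.Ioo 0 (1 / r), outX r y ≤ 16 → outG a C E y = k1) (X : ℝ) (hX : X ≤ 16) :
    outW r k1 a C E X = outW r k1 a C E 1 + k1 * (X - 1) := by
  have hc : Continuous (outw r k1 a C E) := (out_wsm hr h hk).continuous
  have h1 : (∫ t in (18:ℝ)..1, outw r k1 a C E t) + (∫ t in (1:ℝ)..X, outw r k1 a C E t)
      = ∫ t in (18:ℝ)..X, outw r k1 a C E t :=
    intervalIntegral.integral_add_adjacent_intervals (hc.intervalIntegrable _ _)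
      (hc.intervalIntegrable _ _)
  have h2 : (∫ t in (1:ℝ)..X, outw r k1 a C E t) = ∫ t in (1:ℝ)..X, k1 := by
    apply intervalIntegral.integral_congr
    intro t ht
    have h3 : t ≤ max 1 X := ht.2
    have h4 : t ≤ 16 := h3.trans (max_le (by norm_num) hX)
    show outw r k1 a C E t = k1
    unfold outw
    rw [if_pos h4]
  rw [h2, intervalIntegral.integral_const] at h1
  unfold outW
  rw [← h1, smul_eq_mul]
  ring

theorem out_whigh (hr : 0 < r) (h : OutCE r a0 b0 a b C E) (X : ℝ) (hX : 18 ≤ X) :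
    outw r k1 a C E X = 2 * X := by
  have h1 : ¬ X ≤ 16 := by linarith
  have hX1 : (1:ℝ) < X := by linarith
  unfold outw
  rw [if_neg h1]
  have hy := out_Y_mem hr hX1
  have hXY := out_XY hr hX1
  have h2 : 18 ≤ outX r (outY r X) := by rw [hXY]; exact hX
  unfold outG
  rw [h.a_out _ hy h2, h.C_out _ hy h2, h.E_out _ hy h2, hXY]
  have h3 : X ^ 2 - 1 ≠ 0 := by nlinarith
  have h4 : X ≠ 0 := by linarith
  field_simp

theorem out_Whigh (hr : 0 < r) (h : OutCE r a0 b0 a b C E) (X : ℝ) (hX : 18 ≤ X) :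
    outW r k1 a C E X = X ^ 2 := by
  unfold outW
  have h2 : (∫ t in (18:ℝ)..X, outw r k1 a C E t) = ∫ t in (18:ℝ)..X, 2 * t := by
    apply intervalIntegral.integral_congr
    intro t ht
    have h3 : min 18 X ≤ t := ht.1
    rw [min_eq_left hX] at h3
    exact out_whigh hr h t h3
  rw [h2, intervalIntegral.integral_const_mul, integral_id]
  ring

/-- `E ≥ X² - 1` on `[16, 18]` -/
theorem out_S (hr : 0 < r) (h : OutCE r a0 b0 a b C E) (X : ℝ) (hX : 16 ≤ X) (hX' : X ≤ 18) :
    X ^ 2 - 1 ≤ E (outY r X) := by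
  have hd : ∀ Z ∈ Set.Icc (16:ℝ) 18, HasDerivAt (fun X => E (outY r X) / (X ^ 2 - 1))
      ((2 * (b (outY r Z) - Z) * E (outY r Z)) / (Z ^ 2 - 1) ^ 2) Z := by
    intro Z hZ
    have hZ1 : (1:ℝ) < Z := by linarith [hZ.1]
    have hy := out_Y_mem hr hZ1
    have hP : Z ^ 2 - 1 ≠ 0 := by nlinarith
    have h1 : HasDerivAt (fun X => E (outY r X))
        (b (outY r Z) / outY r Z * E (outY r Z) * (2 * outY r Z / (Z ^ 2 - 1))) Z :=
      (h.dE _ hy).comp Z (out_dY hr hZ1)
    have h2 : HasDerivAt (fun X : ℝ => X ^ 2 - 1) (2 * Z) Z := by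
      simpa using (hasDerivAt_pow 2 Z).sub_const 1
    have h3 := h1.div h2 hP
    have hy0 := hy.1.ne'
    refine HasDerivAt.congr_deriv h3 ?_
    generalize outY r Z = y at *
    field_simp
  have hanti : AntitoneOn (fun X => E (outY r X) / (X ^ 2 - 1)) (Set.Icc (16:ℝ) 18) := by
    apply antitoneOn_of_deriv_nonpos (convex_Icc 16 18)
    · exact fun Z hZ => (hd Z hZ).continuousAt.continuousWithinAt
    · exact fun Z hZ => (hd Z (interior_subset hZ)).differentiableAt.differentiableWithinAt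
    · intro Z hZ
      have hZ' := interior_subset hZ
      have hZ1 : (1:ℝ) < Z := by linarith [hZ'.1]
      rw [(hd Z hZ').deriv]
      have h1 := h.b_le (outY r Z) (out_Y_mem hr hZ1) (by rw [out_XY hr hZ1]; exact hZ'.1)
      rw [out_XY hr hZ1] at h1
      apply div_nonpos_of_nonpos_of_nonneg
      · have := h.E_pos (outY r Z)
        nlinarith
      · positivity
  have h1 := hanti (show X ∈ Set.Icc (16:ℝ) 18 from ⟨hX, hX'⟩)
    (show (18:ℝ) ∈ Set.Icc (16:ℝ) 18 by norm_num) hX'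
  have h18 : (1:ℝ) < 18 := by norm_num
  have h2 : E (outY r 18) = 18 ^ 2 - 1 := by
    have := h.E_out (outY r 18) (out_Y_mem hr h18) (by rw [out_XY hr h18])
    rw [out_XY hr h18] at this
    exact this
  simp only [h2] at h1
  have hP : 0 < X ^ 2 - 1 := by nlinarith
  rw [div_self (by norm_num), le_div_iff₀ hP] at h1
  linarith

/-- `W ≥ C²` on `[16, 18]` -/
theorem out_WC (hr : 0 < r) (h : OutCE r a0 b0 a b C E)
    (hk : ∀ y ∈ Set.Ioo 0 (1 / r), outX r y ≤ 16 → outG a C E y = k1)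
    (X : ℝ) (hX : 16 ≤ X) (hX' : X ≤ 18) :
    C (outY r X) ^ 2 ≤ outW r k1 a C E X := by
  have hd : ∀ Z ∈ Set.Icc (16:ℝ) 18, HasDerivAt (fun X => C (outY r X) ^ 2 - outW r k1 a C E X)
      (2 * a (outY r Z) * C (outY r Z) ^ 2 / (Z ^ 2 - 1) - outG a C E (outY r Z)) Z := by
    intro Z hZ
    have hZ1 : (1:ℝ) < Z := by linarith [hZ.1]
    have hy := out_Y_mem hr hZ1
    have hP : Z ^ 2 - 1 ≠ 0 := by nlinarith
    have h1 : HasDerivAt (fun X => C (outY r X))
        (a (outY r Z) / (2 * outY r Z) * C (outY r Z) * (2 * outY r Z / (Z ^ 2 - 1))) Z :=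
      (h.dC _ hy).comp Z (out_dY hr hZ1)
    have h3 := (h1.pow 2).sub (out_dW hr h hk Z)
    rw [out_w1 hr hk hZ1] at h3
    have hy0 := hy.1.ne'
    refine HasDerivAt.congr_deriv h3 ?_
    congr 1
    generalize outY r Z = y at *
    norm_num
    field_simp
  have hmono : MonotoneOn (fun X => C (outY r X) ^ 2 - outW r k1 a C E X) (Set.Icc (16:ℝ) 18) := by
    apply monotoneOn_of_deriv_nonneg (convex_Icc 16 18)
    · exact fun Z hZ => (hd Z hZ).continuousAt.continuousWithinAt
    · exact fun Z hZ => (hd Z (interior_subset hZ)).differentiableAt.differentiableWithinAt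
    · intro Z hZ
      have hZ' := interior_subset hZ
      have hZ1 : (1:ℝ) < Z := by linarith [hZ'.1]
      rw [(hd Z hZ').deriv, sub_nonneg]
      unfold outG
      have h1 := out_S hr h Z hZ'.1 hZ'.2
      have h2 := h.a_pos (outY r Z) (out_Y_mem hr hZ1)
      have h3 := h.C_pos (outY r Z)
      apply div_le_div_of_nonneg_left
      · positivity
      · nlinarith
      · exact h1
  have h1 := hmono (show X ∈ Set.Icc (16:ℝ) 18 from ⟨hX, hX'⟩)
    (show (18:ℝ) ∈ Set.Icc (16:ℝ) 18 by norm_num) hX'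
  have h18 : (1:ℝ) < 18 := by norm_num
  have h2 : C (outY r 18) = 18 := by
    have := h.C_out (outY r 18) (out_Y_mem hr h18) (by rw [out_XY hr h18])
    rw [out_XY hr h18] at this
    exact this
  simp only [h2, out_Whigh hr h 18 (le_refl 18)] at h1
  linarith

theorem out_w0 (hr : 0 < r) (h : OutCE r a0 b0 a b C E)
    (hk : ∀ y ∈ Set.Ioo 0 (1 / r), outX r y ≤ 16 → outG a C E y = k1)
    (ha8 : ∀ y ∈ Set.Ioo 0 (1 / r), a0 y < 8) :
    0 < outW r k1 a C E 1 := by
  have h16 : (1:ℝ) < 16 := by norm_num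
  have hy := out_Y_mem hr h16
  have h1 := out_WC hr h hk 16 (le_refl _) (by norm_num)
  rw [out_Wlow hr h hk 16 (le_refl _)] at h1
  have h2 := hk (outY r 16) hy (by rw [out_XY hr h16])
  have h3 := out_S hr h 16 (le_refl _) (by norm_num)
  have h4 := h.a_in (outY r 16) hy (by rw [out_XY hr h16])
  have h5 := ha8 (outY r 16) hy
  have h6 := h.C_pos (outY r 16)
  have h7 := h.a_pos (outY r 16) hy
  have h8 : k1 * 15 < C (outY r 16) ^ 2 := by
    rw [← h2]
    unfold outG
    rw [h4] at h7 ⊢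
    generalize a0 (outY r 16) = x at *
    generalize C (outY r 16) = c at *
    generalize E (outY r 16) = e at *
    rw [div_mul_eq_mul_div, div_lt_iff₀ (by linarith)]
    have h9 : 2 * x * c ^ 2 * 15 = c ^ 2 * (30 * x) := by ring
    rw [h9]
    apply mul_lt_mul_of_pos_left _ (by positivity)
    linarith
  linarith

theorem out_tgt_ineq (a a' b y X c e w : ℝ) (ha : 0 < a) (hy : 0 < y) (hX : 1 < X) (hc : 0 < c)
    (he : X ^ 2 - 1 ≤ e) (hw : c ^ 2 ≤ w) (hb : b ≤ X) (hm : 0 < 2 * y * a' + a * (a - b)) :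
    0 < X + (X ^ 2 - 1) * (((2 * c ^ 2 / e) * (a' + a ^ 2 / y - a * b / y) * (2 * y / (X ^ 2 - 1)))
      / (2 * a * c ^ 2 / e)) - (X ^ 2 - 1) * (2 * a * c ^ 2 / e) / (2 * w) := by
  have hP : 0 < X ^ 2 - 1 := by nlinarith
  have he0 : 0 < e := by linarith
  have hw0 : 0 < w := lt_of_lt_of_le (by positivity) hw
  have h1 : (X ^ 2 - 1) * (((2 * c ^ 2 / e) * (a' + a ^ 2 / y - a * b / y)
      * (2 * y / (X ^ 2 - 1))) / (2 * a * c ^ 2 / e)) = (2 * y * a' + a * (a - b)) / a + (a - b) := by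
    field_simp
    ring
  have h2 : (X ^ 2 - 1) * (2 * a * c ^ 2 / e) / (2 * w)
      = a * (((X ^ 2 - 1) * c ^ 2) / (e * w)) := by
    field_simp
  rw [h1, h2]
  have h3 : ((X ^ 2 - 1) * c ^ 2) / (e * w) ≤ 1 := by
    rw [div_le_one (by positivity)]
    exact mul_le_mul he hw (by positivity) he0.le
  have h4 : a * (((X ^ 2 - 1) * c ^ 2) / (e * w)) ≤ a * 1 := mul_le_mul_of_nonneg_left h3 ha.le
  have h5 : 0 < (2 * y * a' + a * (a - b)) / a := by positivity
  linarith

theorem out_dG (h : OutCE r a0 b0 a b C E) {y : ℝ} (hy : y ∈ Set.Ioo 0 (1 / r)) :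
    HasDerivAt (outG a C E)
      ((2 * C y ^ 2 / E y) * (deriv a y + a y ^ 2 / y - a y * b y / y)) y := by
  have ha : HasDerivAt a (deriv a y) y :=
    ((h.a_smooth.contDiffAt (isOpen_Ioo.mem_nhds hy)).differentiableAt (by norm_num)).hasDerivAt
  have h1 := ((ha.const_mul 2).mul ((h.dC y hy).pow 2)).div (h.dE y hy) (h.E_pos y).ne'
  have hE := (h.E_pos y).ne'
  have hy0 := hy.1.ne'
  refine HasDerivAt.congr_deriv h1 ?_
  norm_num
  field_simp

theorem out_Wineq (hr : 0 < r) (h : OutCE r a0 b0 a b C E) (hk1 : 0 < k1)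
    (hk : ∀ y ∈ Set.Ioo 0 (1 / r), outX r y ≤ 16 → outG a C E y = k1)
    (ha8 : ∀ y ∈ Set.Ioo 0 (1 / r), a0 y < 8) (X : ℝ) (hX : 1 ≤ X) :
    0 < outW r k1 a C E X ∧ 0 < deriv (outW r k1 a C E) X ∧
      0 < X + (X ^ 2 - 1) * (deriv (deriv (outW r k1 a C E)) X / deriv (outW r k1 a C E) X)
          - (X ^ 2 - 1) * deriv (outW r k1 a C E) X / (2 * outW r k1 a C E X) := by
  have hdW : deriv (outW r k1 a C E) = outw r k1 a C E := funext fun X => (out_dW hr h hk X).deriv
  have hw0 := out_w0 hr h hk ha8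
  rw [hdW]
  have hpos : 0 < outW r k1 a C E X := by
    rcases le_or_gt X 16 with h1 | h1
    · rw [out_Wlow hr h hk X h1]
      have : 0 ≤ k1 * (X - 1) := mul_nonneg hk1.le (by linarith)
      linarith
    · rcases le_or_gt X 18 with h2 | h2
      · have h3 := out_WC hr h hk X h1.le h2
        have h4 := h.C_pos (outY r X)
        exact lt_of_lt_of_le (by positivity) h3
      · rw [out_Whigh hr h X h2.le]
        positivity
  refine ⟨hpos, out_wpos hr h hk1 X, ?_⟩
  rcases lt_or_ge X 16 with h1 | h1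
  · have h2 : outw r k1 a C E =ᶠ[𝓝 X] fun _ => k1 := by
      filter_upwards [isOpen_Iio.mem_nhds h1] with t ht
      have ht' : t ≤ 16 := le_of_lt ht
      unfold outw
      rw [if_pos ht']
    have h3 : outw r k1 a C E X = k1 := h2.eq_of_nhds
    rw [h2.deriv_eq, deriv_const, h3, zero_div, mul_zero, add_zero]
    rw [out_Wlow hr h hk X h1.le] at hpos ⊢
    generalize outW r k1 a C E 1 = w at *
    rw [sub_pos, div_lt_iff₀ (by positivity)]
    have h4 : 0 ≤ k1 * (X - 1) ^ 2 := by positivity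
    have h5 : 0 < X * w := mul_pos (by linarith) hw0
    nlinarith
  · rcases le_or_gt X 18 with h2 | h2
    · have hX1 : (1:ℝ) < X := by linarith
      have hy := out_Y_mem hr hX1
      have h3 : outw r k1 a C E =ᶠ[𝓝 X] outG a C E ∘ outY r := by
        filter_upwards [isOpen_Ioi.mem_nhds hX1] with t ht
        exact out_w1 hr hk ht
      have h4 := (out_dG h hy).comp X (out_dY hr hX1)
      rw [h3.deriv_eq, h4.deriv, out_w1 hr hk hX1]
      have h5 := h.b_le (outY r X) hy (by rw [out_XY hr hX1]; exact h1)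
      rw [out_XY hr hX1] at h5
      exact out_tgt_ineq (a (outY r X)) (deriv a (outY r X)) (b (outY r X)) (outY r X) X
        (C (outY r X)) (E (outY r X)) (outW r k1 a C E X) (h.a_pos _ hy) hy.1 hX1 (h.C_pos _)
        (out_S hr h X h1 h2) (out_WC hr h hk X h1 h2) h5 (h.da _ hy)
    · have h3 : outw r k1 a C E =ᶠ[𝓝 X] fun t => 2 * t := by
        filter_upwards [isOpen_Ioi.mem_nhds h2] with t ht
        exact out_whigh hr h t (le_of_lt ht)
      have h4 : HasDerivAt (fun t : ℝ => 2 * t) 2 X := by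
        simpa using (hasDerivAt_id X).const_mul (2:ℝ)
      rw [h3.deriv_eq, h4.deriv, out_whigh hr h X h2.le, out_Whigh hr h X h2.le]
      have h5 : X ≠ 0 := by linarith
      have h6 : X + (X ^ 2 - 1) * (2 / (2 * X)) - (X ^ 2 - 1) * (2 * X) / (2 * X ^ 2) = X := by
        field_simp
        ring
      rw [h6]
      linarith

end Target

/-! ### The derivatives of `Co` and `Lo` -/

theorem out_dL {r : ℝ} {a0 b0 a b C E : ℝ → ℝ} (h : OutCE r a0 b0 a b C E) {y : ℝ}
    (hy : y ∈ Set.Ioo 0 (1 / r)) :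
    HasDerivAt (fun t => E t / t) ((b y - 1) / y * (E y / y)) y := by
  have h1 := (h.dE y hy).div (hasDerivAt_id y) hy.1.ne'
  have hy0 := hy.1.ne'
  refine HasDerivAt.congr_deriv h1 ?_
  simp only [id]
  field_simp

theorem out_cond {r : ℝ} {a0 b0 a b C E : ℝ → ℝ} (h : OutCE r a0 b0 a b C E) {y : ℝ}
    (hy : y ∈ Set.Ioo 0 (1 / r)) :
    0 < deriv (fun t => t * deriv (fun t => E t / t) t / (E t / t)) y ∧ 0 < deriv C y ∧
      0 < 1 + y * deriv (fun t => E t / t) y / (E y / y) ∧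
      0 < deriv C y + 2 * y * deriv (deriv C) y
        - y * deriv (fun t => E t / t) y / (E y / y) * deriv C y := by
  have hev : ∀ᶠ t in 𝓝 y, t ∈ Set.Ioo 0 (1 / r) := isOpen_Ioo.mem_nhds hy
  have hb1 : ∀ t ∈ Set.Ioo 0 (1 / r), t * deriv (fun t => E t / t) t / (E t / t) = b t - 1 := by
    intro t ht
    rw [(out_dL h ht).deriv]
    have h1 := (h.E_pos t).ne'
    have h2 := ht.1.ne'
    field_simp
  have hy0 := hy.1
  have ha0 := h.a_pos y hy
  have hC0 := h.C_pos y
  refine ⟨?_, ?_, ?_, ?_⟩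
  · have h1 : (fun t => t * deriv (fun t => E t / t) t / (E t / t)) =ᶠ[𝓝 y] fun t => b t - 1 := by
      filter_upwards [hev] with t ht
      exact hb1 t ht
    rw [h1.deriv_eq, deriv_sub_const]
    exact h.db y hy
  · rw [(h.dC y hy).deriv]
    positivity
  · rw [hb1 y hy]
    have := h.b_pos y hy
    linarith
  · rw [hb1 y hy]
    have h1 : deriv C =ᶠ[𝓝 y] fun t => a t / (2 * t) * C t := by
      filter_upwards [hev] with t ht
      exact (h.dC t ht).deriv
    have ha : HasDerivAt a (deriv a y) y :=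
      ((h.a_smooth.contDiffAt (isOpen_Ioo.mem_nhds hy)).differentiableAt (by norm_num)).hasDerivAt
    have h2 : HasDerivAt (fun t => a t / (2 * t) * C t) _ y :=
      (ha.div ((hasDerivAt_id y).const_mul (2:ℝ)) (mul_ne_zero two_ne_zero hy0.ne')).mul (h.dC y hy)
    rw [h1.deriv_eq, h2.deriv, (h.dC y hy).deriv]
    have h3 := h.da y hy
    have h4 : a y / (2 * y) * C y + 2 * y * ((deriv a y * (2 * id y) - a y * (2 * 1)) / (2 * id y) ^ 2
        * C y + a y / (2 * id y) * (a y / (2 * y) * C y)) - (b y - 1) * (a y / (2 * y) * C y)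
        = C y / (2 * y) * (2 * y * deriv a y + a y * (a y - b y)) := by
      simp only [id]
      field_simp
      ring
    refine lt_of_lt_of_eq ?_ h4.symm
    positivity

/-! ### The theorem -/

theorem out_smM (hSM : S_SM) (n : ℕ) (ε : ℝ) (hn : 1 ≤ n) (hε : 0 < ε) :
    ContDiffOn ℝ ∞ (Mf n ε) (Set.Ioi 0) := by
  intro y hy
  have hy' : (0:ℝ) < y := hy
  have h1 := (hSM n ε y hn hε.le hy'.le (by linarith)).1
  have h2 : ContDiffAt ℝ ∞ (fun t : ℝ => (ε, t)) y := by fun_prop
  have h3 : ContDiffAt ℝ ∞ ((fun q : ℝ × ℝ => Mf n q.1 q.2) ∘ fun t : ℝ => (ε, t)) y :=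
    ContDiffAt.comp y h1 h2
  exact h3.contDiffWithinAt

theorem out_dlV (hSM : S_SM) (n : ℕ) (ε : ℝ) (hn : 1 ≤ n) (hε : 0 < ε) (y : ℝ) (hy : 0 < y) :
    HasDerivAt (lV n ε) (Mf n ε y / 2) y := by
  obtain ⟨-, -, h1, -, -, h2, -⟩ := hSM n ε y hn hε.le hy.le (by linarith)
  have h3 : ContDiffAt ℝ ∞ (fun t : ℝ => (ε, t)) y := by fun_prop
  have h4 : ContDiffAt ℝ ∞ ((fun q : ℝ × ℝ => lV n q.1 q.2) ∘ fun t : ℝ => (ε, t)) y :=
    ContDiffAt.comp y h1 h3
  have h5 : DifferentiableAt ℝ (lV n ε) y := h4.differentiableAt (by norm_num)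
  rw [← h2]
  exact h5.hasDerivAt

theorem out_Mpos (hP : S_POLY) (n : ℕ) (ε : ℝ) (hn : 1 ≤ n) (hε : 0 < ε) (y : ℝ) (hy : 0 < y) :
    0 < Mf n ε y := by
  obtain ⟨h1, h2, h3, -⟩ := hP n ε y hn hε.le hy.le (by linarith)
  have hn' : (0:ℝ) < n := by exact_mod_cast hn
  unfold Mf
  positivity

theorem out_h3 (M : ℝ → ℝ) (n y : ℝ) (hM : DifferentiableAt ℝ M y) :
    deriv (fun t => t * M t / n) y = (M y + y * deriv M y) / n := by
  have h1 := (((hasDerivAt_id y).mul hM.hasDerivAt).div_const n).deriv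
  have h2 : (1 * M y + id y * deriv M y) / n = (M y + y * deriv M y) / n := by
    simp
  rw [← h2]
  exact h1

theorem t_OUT : S_OUT := by
  intro hP hSM n ε hn hε hε1
  have hn' : (0:ℝ) < n := by exact_mod_cast hn
  refine ⟨1 / 10, by norm_num, fun r hr hr2 => ?_⟩
  have h5r : 0 < 1 - 5 * r := by linarith
  refine ⟨by linarith, by rw [div_lt_iff₀ h5r]; linarith, ?_⟩
  have hsM := out_smM hSM n ε hn hε
  have hsubI : Set.Ioo 0 (1 / r) ⊆ Set.Ioi (0:ℝ) := fun y hy => hy.1
  have hMd : ∀ y, 0 < y → DifferentiableAt ℝ (Mf n ε) y := fun y hy =>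
    (hsM.contDiffAt (isOpen_Ioi.mem_nhds hy)).differentiableAt (by norm_num)
  have hM0 : ∀ y, 0 < y → 0 < Mf n ε y := out_Mpos hP n ε hn hε
  have hsM' : ContDiffOn ℝ ∞ (deriv (Mf n ε)) (Set.Ioi 0) :=
    ((contDiffOn_infty_iff_deriv_of_isOpen isOpen_Ioi).1 hsM).2
  have hPP := fun (y : ℝ) (hy : 0 < y) => hP n ε y hn hε.le hy.le (by linarith)
  have hMM : ∀ y, 0 < y → 0 < Mf n ε y + y * deriv (Mf n ε) y := by
    intro y hy
    have h1 : 0 < deriv (fun t => t * Mf n ε t) y := (hPP y hy).2.2.2.2.2.2.1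
    have h2 := ((hasDerivAt_id y).mul (hMd y hy).hasDerivAt).deriv
    have h3 : deriv (fun t => t * Mf n ε t) y = 1 * Mf n ε y + id y * deriv (Mf n ε) y := h2
    rw [h3] at h1
    simpa using h1
  have hAB : OutAB r (fun y => y * Mf n ε y / n) (bf n ε)
      (outa r fun y => y * Mf n ε y / n) (outb r (bf n ε)) := by
    apply out_ab r _ _ hr
    · exact ((contDiffOn_id.mul (hsM.mono hsubI)).div_const _)
    · unfold bf
      apply ContDiffOn.add
      · exact ((contDiffOn_id.mul (hsM.mono hsubI)).div_const _).add contDiffOn_const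
      · exact (contDiffOn_id.mul (hsM'.mono hsubI)).div (hsM.mono hsubI)
          (fun y hy => (hM0 y hy.1).ne')
    · intro y hy
      have h1 := hM0 y hy.1
      have h2 := hy.1
      positivity
    · intro y hy
      have h1 := hM0 y hy.1
      have h2 := hMM y hy.1
      have h3 : 1 + y * deriv (Mf n ε) y / Mf n ε y
          = (Mf n ε y + y * deriv (Mf n ε) y) / Mf n ε y := by
        field_simp
      have h4 : 0 < 1 + y * deriv (Mf n ε) y / Mf n ε y := by
        rw [h3]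
        positivity
      unfold bf
      linarith
    · intro y hy
      exact (hPP y hy.1).2.2.2.2.1
    · intro y hy
      rw [out_h3 (Mf n ε) n y (hMd y hy.1)]
      unfold bf
      have h1 := (hM0 y hy.1).ne'
      field_simp
      ring
    · intro y hy
      exact (hPP y hy.1).2.2.2.1
  obtain ⟨C, E, h⟩ := out_ce r _ _ _ _ hr hAB
  have hy1 : (1:ℝ) ∈ Set.Ioo 0 (1 / r) := ⟨one_pos, by rw [lt_div_iff₀ hr]; linarith⟩
  have hX1 : outX r 1 ≤ 16 := by
    rw [outX, div_le_iff₀ (by linarith)]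
    linarith
  have hle : ∀ y ∈ Set.Ioo 0 (1 / r), outX r y ≤ 16 → ∀ t ∈ Set.Icc (min 1 y) (max 1 y),
      t ∈ Set.Ioo 0 (1 / r) ∧ outX r t ≤ 16 := by
    intro y hy hX t ht
    have ht' : t ∈ Set.Ioo 0 (1 / r) :=
      ⟨lt_of_lt_of_le (lt_min one_pos hy.1) ht.1, lt_of_le_of_lt ht.2 (max_lt hy1.2 hy.2)⟩
    refine ⟨ht', ?_⟩
    rcases le_total y 1 with h1 | h1
    · have h2 : t ≤ 1 := by
        have := ht.2
        rwa [max_eq_left h1] at this
      exact (out_mono hr ht' hy1 h2).trans hX1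
    · have h2 : t ≤ y := by
        have := ht.2
        rwa [max_eq_right h1] at this
      exact (out_mono hr ht' hy h2).trans hX
  have hun : ∀ u v f : ℝ → ℝ, (∀ t ∈ Set.Ioo 0 (1 / r), outX r t ≤ 16 →
      HasDerivAt u (f t * u t) t ∧ HasDerivAt v (f t * v t) t ∧ 0 < v t) →
      ∀ y ∈ Set.Ioo 0 (1 / r), outX r y ≤ 16 → u y * v 1 = u 1 * v y := by
    intro u v f huv y hy hX
    rcases le_total y 1 with h1 | h1
    · have h2 : ∀ t ∈ Set.Icc y 1, t ∈ Set.Ioo 0 (1 / r) ∧ outX r t ≤ 16 := by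
        have := hle y hy hX
        rwa [min_eq_right h1, max_eq_left h1] at this
      have := out_uniq u v f y 1 h1 (fun t ht => (huv t (h2 t ht).1 (h2 t ht).2).1)
        (fun t ht => (huv t (h2 t ht).1 (h2 t ht).2).2.1)
        (fun t ht => (huv t (h2 t ht).1 (h2 t ht).2).2.2)
      linarith
    · have h2 : ∀ t ∈ Set.Icc 1 y, t ∈ Set.Ioo 0 (1 / r) ∧ outX r t ≤ 16 := by
        have := hle y hy hX
        rwa [min_eq_left h1, max_eq_right h1] at this
      exact out_uniq u v f 1 y h1 (fun t ht => (huv t (h2 t ht).1 (h2 t ht).2).1)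
        (fun t ht => (huv t (h2 t ht).1 (h2 t ht).2).2.1)
        (fun t ht => (huv t (h2 t ht).1 (h2 t ht).2).2.2)
  have hC : ∀ y ∈ Set.Ioo 0 (1 / r), outX r y ≤ 16 → C y = C 1 * Real.exp (lV n ε y / n) := by
    intro y hy hX
    have h1 := hun C (fun t => Real.exp (lV n ε t / n))
      (fun t => outa r (fun y => y * Mf n ε y / n) t / (2 * t)) (by
        intro t ht hXt
        refine ⟨h.dC t ht, ?_, Real.exp_pos _⟩
        have h2 := ((out_dlV hSM n ε hn hε t ht.1).div_const (n:ℝ)).exp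
        refine HasDerivAt.congr_deriv h2 ?_
        rw [h.a_in t ht hXt]
        have := ht.1.ne'
        field_simp) y hy hX
    have h2 : lV n ε 1 = 0 := by
      unfold lV
      simp
    simp only [h2, zero_div, Real.exp_zero, mul_one] at h1
    exact h1
  have hE : ∀ y ∈ Set.Ioo 0 (1 / r), outX r y ≤ 16 →
      E y = E 1 / (C 1 ^ 2 * Mf n ε 1) * C y ^ 2 * (y * Mf n ε y) := by
    intro y hy hX
    have h1 := hun E (fun t => C t ^ 2 * (t * Mf n ε t)) (fun t => outb r (bf n ε) t / t) (by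
        intro t ht hXt
        have h3 := ht.1
        have h4 := hM0 t ht.1
        have h5 := h.C_pos t
        refine ⟨h.dE t ht, ?_, by positivity⟩
        have h2 := ((h.dC t ht).pow 2).mul ((hasDerivAt_id t).mul (hMd t ht.1).hasDerivAt)
        refine HasDerivAt.congr_deriv h2 ?_
        rw [h.a_in t ht hXt, h.b_in t ht hXt]
        simp only [bf, id, Pi.pow_apply, Pi.mul_apply]
        norm_num
        field_simp
        ring) y hy hX
    have h2 := (h.C_pos 1).ne'
    have h3 := (hM0 1 one_pos).ne'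
    have h4 : E y = E 1 * (C y ^ 2 * (y * Mf n ε y)) / (C 1 ^ 2 * (1 * Mf n ε 1)) := by
      rw [eq_div_iff (by positivity)]
      exact h1
    rw [h4]
    field_simp
  set kk : ℝ := E 1 / (C 1 ^ 2 * Mf n ε 1) with hkk
  have hkk0 : 0 < kk := by
    have h1 := h.E_pos 1
    have h2 := h.C_pos 1
    have h3 := hM0 1 one_pos
    rw [hkk]
    positivity
  have hk : ∀ y ∈ Set.Ioo 0 (1 / r), outX r y ≤ 16 →
      outG (outa r fun y => y * Mf n ε y / n) C E y = 2 / (n * kk) := by
    intro y hy hX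
    unfold outG
    rw [hE y hy hX, h.a_in y hy hX]
    have h1 := (hM0 y hy.1).ne'
    have h2 := (h.C_pos y).ne'
    have h3 := hy.1.ne'
    have h4 := hkk0.ne'
    field_simp
  have hk1 : 0 < 2 / (n * kk) := by positivity
  have ha8 : ∀ y ∈ Set.Ioo 0 (1 / r), y * Mf n ε y / n < 8 := by
    intro y hy
    have h1 : bf n ε y < 8 := (hPP y hy.1).2.2.2.2.1
    have h2 := hMM y hy.1
    have h3 := hM0 y hy.1
    have h4 : 1 + y * deriv (Mf n ε) y / Mf n ε y
        = (Mf n ε y + y * deriv (Mf n ε) y) / Mf n ε y := by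
      field_simp
    have h5 : 0 < 1 + y * deriv (Mf n ε) y / Mf n ε y := by
      rw [h4]
      positivity
    unfold bf at h1
    linarith
  have hX5 : ∀ y ∈ Set.Ioo (0:ℝ) 5, y ∈ Set.Ioo 0 (1 / r) ∧ outX r y ≤ 16 := by
    intro y hy
    have h1 : r * y < 1 / 2 := by nlinarith [hy.1, hy.2]
    refine ⟨⟨hy.1, by rw [lt_div_iff₀ hr]; linarith⟩, ?_⟩
    rw [outX, div_le_iff₀ (by linarith)]
    linarith
  refine ⟨C, fun t => E t / t, outW r (2 / (n * kk)) (outa r fun y => y * Mf n ε y / n) C E,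
    C 1, kk, outW r (2 / (n * kk)) (outa r fun y => y * Mf n ε y / n) C E 1, h.C_pos 1, hkk0,
    out_w0 hr h hk ha8, h.C_smooth, ?_, ?_, ?_, ?_, ?_, out_Wsm hr h hk,
    out_Wlow hr h hk, out_Whigh hr h, out_Wineq hr h hk1 hk ha8, ?_⟩
  · exact h.E_smooth.div contDiffOn_id (fun y hy => hy.1.ne')
  · intro y hy
    exact ⟨h.C_pos y, div_pos (h.E_pos y) hy.1⟩
  · intro y hy
    obtain ⟨h1, h2⟩ := hX5 y hy
    refine ⟨hC y h1 h2, ?_⟩
    simp only
    rw [hE y h1 h2]
    have := hy.1.ne'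
    field_simp
  · intro y hy hX
    refine ⟨h.C_out y hy hX, ?_⟩
    simp only
    rw [h.E_out y hy hX, out_X_sq hr hy]
    have h1 := hy.1.ne'
    have h2 := (out_den hr hy).ne'
    field_simp
  · intro y hy
    exact out_cond h hy
  · intro y hy
    have h1 : HasDerivAt (fun t => outW r (2 / (n * kk)) (outa r fun y => y * Mf n ε y / n) C E
        ((1 + r * t) / (1 - r * t))) _ y :=
      (out_dW hr h hk (outX r y)).comp y (out_dX hr hy)
    have h2 : HasDerivAt (fun t => C t ^ 2) _ y := (h.dC y hy).pow 2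
    rw [h1.deriv, h2.deriv, out_w1 hr hk (out_X_gt hr hy), out_YX hr hy]
    have h3 : 4 * r / (1 - r * y) ^ 2 = (outX r y ^ 2 - 1) / y := by
      rw [out_X_sq hr hy]
      have := hy.1.ne'
      field_simp
    rw [h3]
    unfold outG
    have h4 : outX r y ^ 2 - 1 ≠ 0 := by
      have := out_X_gt hr hy
      nlinarith
    have h5 := hy.1.ne'
    have h6 := (h.E_pos y).ne'
    norm_num
    field_simp

end Pool.Agent.Helper473.LY
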