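import Pool.Agent.Helper473.LY.Stmts

set_option autoImplicit false

open scoped Manifold ContDiff Topology RealInnerProductSpace
open Module

namespace Pool.Agent.Helper473.LY

open Pool.Agent.H234R3

/-! ### Polynomials in three variables with natural coefficients, as nested lists -/

/-- Evaluation of a list of coefficients. -/
def poly_ev {R : Type} (f : R → ℝ) (x : ℝ) : List R → ℝ
  | [] => 0
  | a :: p => f a + x * poly_ev f x p

/-- Sum of two lists of coefficients. -/
def poly_add {R : Type} (add : R → R → R) : List R → List R → List R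
  | [], q => q
  | a :: p, [] => a :: p
  | a :: p, b :: q => add a b :: poly_add add p q

/-- Product of two lists of coefficients. -/
def poly_mul {R : Type} (add mul : R → R → R) (z : R) : List R → List R → List R
  | [], _ => []
  | a :: p, q => poly_add add (q.map (mul a)) (z :: poly_mul add mul z p q)

/-- Comparison of two lists of coefficients. -/
def poly_le {R : Type} (le : R → R → Bool) (z : R) : List R → List R → Bool
  | [], _ => true
  | a :: p, [] => le a z && poly_le le z p []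
  | a :: p, b :: q => le a b && poly_le le z p q

theorem poly_ev_add {R : Type} (f : R → ℝ) (x : ℝ) (add : R → R → R)
    (h : ∀ a b, f (add a b) = f a + f b) :
    ∀ p q : List R, poly_ev f x (poly_add add p q) = poly_ev f x p + poly_ev f x q
  | [], q => by simp [poly_add, poly_ev]
  | a :: p, [] => by simp [poly_add, poly_ev]
  | a :: p, b :: q => by
      simp only [poly_add, poly_ev, h, poly_ev_add f x add h p q]; ring

theorem poly_ev_map {R : Type} (f : R → ℝ) (x : ℝ) (mul : R → R → R)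
    (h : ∀ a b, f (mul a b) = f a * f b) (a : R) :
    ∀ q : List R, poly_ev f x (q.map (mul a)) = f a * poly_ev f x q
  | [] => by simp [poly_ev]
  | b :: q => by
      simp only [List.map_cons, poly_ev, h, poly_ev_map f x mul h a q]; ring

theorem poly_ev_mul {R : Type} (f : R → ℝ) (x : ℝ) (add mul : R → R → R) (z : R)
    (hadd : ∀ a b, f (add a b) = f a + f b) (hmul : ∀ a b, f (mul a b) = f a * f b)
    (hz : f z = 0) :
    ∀ p q : List R, poly_ev f x (poly_mul add mul z p q) = poly_ev f x p * poly_ev f x q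
  | [], q => by simp [poly_mul, poly_ev]
  | a :: p, q => by
      rw [poly_mul, poly_ev_add f x add hadd, poly_ev_map f x mul hmul]
      simp only [poly_ev, hz, poly_ev_mul f x add mul z hadd hmul hz p q]; ring

theorem poly_ev_le {R : Type} (f : R → ℝ) (x : ℝ) (le : R → R → Bool) (z : R) (hx : 0 ≤ x)
    (hz : f z = 0) (h0 : ∀ a, 0 ≤ f a) (h : ∀ a b, le a b = true → f a ≤ f b) :
    ∀ p q : List R, poly_le le z p q = true → poly_ev f x p ≤ poly_ev f x q
  | [], [] => by simp [poly_ev]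
  | [], b :: q => by
      intro _
      have h1 := poly_ev_le f x le z hx hz h0 h [] q (by simp [poly_le])
      have := h0 b
      simp only [poly_ev] at h1 ⊢
      positivity
  | a :: p, [] => by
      intro hh
      simp only [poly_le, Bool.and_eq_true] at hh
      have h1 := poly_ev_le f x le z hx hz h0 h p [] hh.2
      have h2 := h _ _ hh.1
      rw [hz] at h2
      simp only [poly_ev] at h1 ⊢
      nlinarith
  | a :: p, b :: q => by
      intro hh
      simp only [poly_le, Bool.and_eq_true] at hh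
      have h1 := poly_ev_le f x le z hx hz h0 h p q hh.2
      have h2 := h _ _ hh.1
      simp only [poly_ev]
      nlinarith [mul_le_mul_of_nonneg_left h1 hx]

theorem poly_ev_nonneg {R : Type} (f : R → ℝ) (x : ℝ) (hx : 0 ≤ x) (h0 : ∀ a, 0 ≤ f a) :
    ∀ p : List R, 0 ≤ poly_ev f x p
  | [] => le_rfl
  | a :: p => by
      have h1 := poly_ev_nonneg f x hx h0 p
      have h2 := h0 a
      simp only [poly_ev]; positivity

/-- The value of a polynomial in three variables. -/
def poly_e3 (y e m : ℝ) : List (List (List ℕ)) → ℝ :=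
  poly_ev (poly_ev (poly_ev (fun n : ℕ => (n : ℝ)) m) e) y

/-- Sum. -/
def poly_a3 : List (List (List ℕ)) → List (List (List ℕ)) → List (List (List ℕ)) :=
  poly_add (poly_add (poly_add Nat.add))

/-- Product. -/
def poly_m3 : List (List (List ℕ)) → List (List (List ℕ)) → List (List (List ℕ)) :=
  poly_mul (poly_add (poly_add Nat.add))
    (poly_mul (poly_add Nat.add) (poly_mul Nat.add Nat.mul 0) []) []

/-- Comparison. -/
def poly_l3 : List (List (List ℕ)) → List (List (List ℕ)) → Bool :=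
  poly_le (poly_le (poly_le Nat.ble 0) []) []

theorem poly_e3_add (y e m : ℝ) (p q : List (List (List ℕ))) :
    poly_e3 y e m (poly_a3 p q) = poly_e3 y e m p + poly_e3 y e m q :=
  poly_ev_add _ _ _ (poly_ev_add _ _ _ (poly_ev_add _ _ _ (fun a b => Nat.cast_add a b))) p q

theorem poly_e3_mul (y e m : ℝ) (p q : List (List (List ℕ))) :
    poly_e3 y e m (poly_m3 p q) = poly_e3 y e m p * poly_e3 y e m q :=
  poly_ev_mul _ _ _ _ _ (poly_ev_add _ _ _ (poly_ev_add _ _ _ (fun a b => Nat.cast_add a b)))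
    (poly_ev_mul _ _ _ _ _ (poly_ev_add _ _ _ (fun a b => Nat.cast_add a b))
      (poly_ev_mul _ _ _ _ _ (fun a b => Nat.cast_add a b) (fun a b => Nat.cast_mul a b)
        Nat.cast_zero) rfl) rfl p q

theorem poly_e3_le {y e m : ℝ} (hy : 0 ≤ y) (he : 0 ≤ e) (hm : 0 ≤ m)
    {p q : List (List (List ℕ))} (h : poly_l3 p q = true) :
    poly_e3 y e m p ≤ poly_e3 y e m q := by
  have h0 : ∀ n : ℕ, (0:ℝ) ≤ (n : ℝ) := fun n => Nat.cast_nonneg n
  have h1 := poly_ev_nonneg (fun n : ℕ => (n : ℝ)) m hm h0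
  have h2 := poly_ev_nonneg _ e he h1
  refine poly_ev_le (poly_ev (poly_ev (fun n : ℕ => (n : ℝ)) m) e) y _ [] hy rfl h2 ?_ p q h
  refine fun a b => poly_ev_le (poly_ev (fun n : ℕ => (n : ℝ)) m) e _ [] he rfl h1 ?_ a b
  refine fun a b => poly_ev_le (fun n : ℕ => (n : ℝ)) m _ 0 hm Nat.cast_zero h0 ?_ a b
  intro a b hab
  exact Nat.cast_le.2 (Nat.le_of_ble_eq_true hab)

/-- Polynomial expressions. -/
inductive poly_E : Type
  | y : poly_E
  | e : poly_E
  | m : poly_E
  | c : ℕ → poly_E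
  | add : poly_E → poly_E → poly_E
  | mul : poly_E → poly_E → poly_E

/-- The value of an expression. -/
def poly_E.den (y e m : ℝ) : poly_E → ℝ
  | .y => y
  | .e => e
  | .m => m
  | .c n => n
  | .add a b => a.den y e m + b.den y e m
  | .mul a b => a.den y e m * b.den y e m

/-- The normal form of an expression. -/
def poly_E.nf : poly_E → List (List (List ℕ))
  | .y => [[], [[1]]]
  | .e => [[[], [1]]]
  | .m => [[[0, 1]]]
  | .c n => [[[n]]]
  | .add a b => poly_a3 a.nf b.nf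
  | .mul a b => poly_m3 a.nf b.nf

theorem poly_E.nf_den (y e m : ℝ) : ∀ a : poly_E, poly_e3 y e m a.nf = a.den y e m
  | .y => by simp [poly_E.nf, poly_E.den, poly_e3, poly_ev]
  | .e => by simp [poly_E.nf, poly_E.den, poly_e3, poly_ev]
  | .m => by simp [poly_E.nf, poly_E.den, poly_e3, poly_ev]
  | .c n => by simp [poly_E.nf, poly_E.den, poly_e3, poly_ev]
  | .add a b => by
      rw [poly_E.nf, poly_E.den, poly_e3_add, poly_E.nf_den y e m a, poly_E.nf_den y e m b]
  | .mul a b => by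
      rw [poly_E.nf, poly_E.den, poly_e3_mul, poly_E.nf_den y e m a, poly_E.nf_den y e m b]

theorem poly_E_le {y e m : ℝ} (hy : 0 ≤ y) (he : 0 ≤ e) (hm : 0 ≤ m) {a b : poly_E}
    (h : poly_l3 a.nf b.nf = true) : a.den y e m ≤ b.den y e m := by
  rw [← poly_E.nf_den, ← poly_E.nf_den]
  exact poly_e3_le hy he hm h

instance : Add poly_E := ⟨poly_E.add⟩
instance : Mul poly_E := ⟨poly_E.mul⟩

theorem poly_den_add (y e m : ℝ) (a b : poly_E) :
    (a + b).den y e m = a.den y e m + b.den y e m := rfl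
theorem poly_den_mul (y e m : ℝ) (a b : poly_E) :
    (a * b).den y e m = a.den y e m * b.den y e m := rfl

/-- `A`. -/
def poly_A : poly_E := .y * (.e + .y) * (.c 1 + .y) + (.m + .c 1) * (.c 1 + .c 2 * .y) * (.e * .e)
/-- `A'`. -/
def poly_A1 : poly_E :=
  (.e + .c 2 * .y) * (.c 1 + .y) + .y * (.e + .y) + .c 2 * (.m + .c 1) * (.e * .e)
/-- `A''`. -/
def poly_A2 : poly_E := .c 2 * (.c 1 + .y) + .c 2 * (.e + .c 2 * .y)
/-- `B`. -/
def poly_B : poly_E := poly_A + .c 4 * (.m + .c 1) * (.c 1 + .c 2 * .y) * (.y * (.e + .y))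
/-- `B'`. -/
def poly_B1 : poly_E := poly_A1 + .c 4 * (.m + .c 1) *
  (.c 2 * (.y * (.e + .y)) + (.c 1 + .c 2 * .y) * (.e + .c 2 * .y))
/-- `B''`. -/
def poly_B2 : poly_E := poly_A2 + .c 4 * (.m + .c 1) *
  (.c 4 * (.e + .c 2 * .y) + (.c 1 + .c 2 * .y) * .c 2)
/-- `N`. -/
def poly_N : poly_E := (.m + .c 1) * ((.c 1 + .c 2 * .y) * (.c 1 + .c 2 * .y)) *
    (.c 2 * .y * ((.e + .y) * (.e + .y)) + .e * .e * (.e + .c 2 * .y))
  + .y * .y * ((.e + .y) * (.e + .y))
/-- `N'`. -/
def poly_N1 : poly_E := (.m + .c 1) * (.c 4 * (.c 1 + .c 2 * .y) *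
    (.c 2 * .y * ((.e + .y) * (.e + .y)) + .e * .e * (.e + .c 2 * .y))
    + ((.c 1 + .c 2 * .y) * (.c 1 + .c 2 * .y)) *
      (.c 2 * ((.e + .y) * (.e + .y)) + .c 4 * .y * (.e + .y) + .c 2 * (.e * .e)))
  + .c 2 * .y * ((.e + .y) * (.e + .y)) + .c 2 * (.y * .y) * (.e + .y)
/-- `N''`. -/
def poly_N2 : poly_E := (.m + .c 1) * (.c 8 *
    (.c 2 * .y * ((.e + .y) * (.e + .y)) + .e * .e * (.e + .c 2 * .y))
    + .c 8 * (.c 1 + .c 2 * .y) *
      (.c 2 * ((.e + .y) * (.e + .y)) + .c 4 * .y * (.e + .y) + .c 2 * (.e * .e))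
    + ((.c 1 + .c 2 * .y) * (.c 1 + .c 2 * .y)) * (.c 8 * (.e + .y) + .c 4 * .y))
  + .c 2 * ((.e + .y) * (.e + .y)) + .c 8 * .y * (.e + .y) + .c 2 * (.y * .y)

/-- `AB`. -/
def poly_AB : poly_E := poly_A * poly_B
/-- `(AB)'`. -/
def poly_AB1 : poly_E := poly_A1 * poly_B + poly_A * poly_B1

theorem poly_c1 : poly_l3 (poly_E.y * poly_N).nf poly_AB.nf = true := by decide +kernel

/-- Powers. -/
def poly_pw (a : poly_E) : ℕ → poly_E
  | 0 => .c 1
  | n + 1 => poly_pw a n * a

theorem poly_den_pw (y e m : ℝ) (a : poly_E) : ∀ n : ℕ, (poly_pw a n).den y e m = a.den y e m ^ n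
  | 0 => by simp [poly_pw, poly_E.den]
  | n + 1 => by rw [poly_pw, poly_den_mul, poly_den_pw y e m a n, pow_succ]

/-- The coefficients of `N^2`. -/
def poly_lNN : List (List (List ℕ)) :=
    [[[], [], [], [], [], [], [1, 2, 1]], [[], [], [], [], [], [8, 16, 8], [8, 16, 8]], [[], [],
    [], [], [24, 48, 24], [66, 130, 64], [24, 48, 24]], [[], [], [], [36, 72, 36], [204, 396,
    192], [200, 392, 192], [32, 64, 32]], [[], [], [32, 64, 32], [314, 602, 288], [625, 1200,
    576], [264, 520, 256], [16, 32, 16]], [[], [16, 32, 16], [284, 540, 256], [972, 1832, 864],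
    [816, 1584, 768], [128, 256, 128]], [[4, 8, 4], [144, 272, 128], [886, 1648, 768], [1256,
    2408, 1152], [384, 768, 384]], [[36, 68, 32], [452, 832, 384], [1136, 2160, 1024], [576,
    1152, 576]], [[113, 208, 96], [576, 1088, 512], [512, 1024, 512]], [[144, 272, 128], [256,
    512, 256]], [[64, 128, 64]]]

/-- The coefficients of `(AB)^2`. -/
def poly_lQQ : List (List (List ℕ)) :=
    [[[], [], [], [], [], [], [], [], [1, 4, 6, 4, 1]], [[], [], [], [], [], [], [], [12, 44, 60,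
    36, 8], [8, 32, 48, 32, 8]], [[], [], [], [], [], [], [58, 192, 234, 124, 24], [92, 340, 468,
    284, 64], [24, 96, 144, 96, 24]], [[], [], [], [], [], [152, 444, 468, 208, 32], [424, 1428,
    1776, 964, 192], [264, 984, 1368, 840, 192], [32, 128, 192, 128, 32]], [[], [], [], [], [251,
    632, 550, 184, 16], [1052, 3156, 3432, 1584, 256], [1158, 3972, 5046, 2808, 576], [336, 1264,
    1776, 1104, 256], [16, 64, 96, 64, 16]], [[], [], [], [280, 604, 424, 96], [1636, 4260, 3852,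
    1352, 128], [2712, 8364, 9396, 4512, 768], [1400, 4896, 6360, 3632, 768], [160, 608, 864,
    544, 128]], [[], [], [210, 388, 216, 32], [1724, 3868, 2832, 672], [3952, 10640, 10006, 3696,
    384], [3084, 9788, 11376, 5696, 1024], [632, 2256, 3000, 1760, 384]], [[], [100, 160, 64],
    [1228, 2372, 1392, 224], [3916, 9116, 6952, 1728], [4184, 11644, 11400, 4448, 512], [1304,
    4264, 5136, 2688, 512]], [[25, 40, 16], [560, 928, 384], [2640, 5316, 3288, 576], [3876,
    9332, 7392, 1920], [1633, 4696, 4792, 1984, 256]], [[140, 232, 96], [1144, 1952, 832], [2468,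
    5164, 3360, 640], [1404, 3480, 2848, 768]], [[286, 488, 208], [1008, 1760, 768], [846, 1832,
    1248, 256]], [[252, 440, 192], [324, 576, 256]], [[81, 144, 64]]]

/-- The coefficients of `N N' + y (N'' N - N'^2)`. -/
def poly_lWW : List (List (List ℕ)) :=
    [[[], [], [], [], [], [4, 8, 4], [4, 8, 4]], [[], [], [], [], [16, 32, 16], [68, 132, 64],
    [16, 32, 16]], [[], [], [], [34, 68, 34], [246, 470, 224], [228, 452, 224], [16, 32, 16]],
    [[], [], [32, 64, 32], [464, 880, 416], [800, 1568, 768], [256, 512, 256]], [[], [8, 16, 8],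
    [430, 814, 384], [1478, 2868, 1392], [920, 1816, 896], [64, 128, 64]], [[], [144, 272, 128],
    [1380, 2656, 1280], [1744, 3408, 1664], [256, 512, 256]], [[18, 34, 16], [482, 928, 448],
    [1656, 3192, 1536], [544, 1088, 544]], [[64, 128, 64], [576, 1088, 512], [512, 1024, 512]],
    [[72, 136, 64], [128, 256, 128]]]

/-- The coefficients of `The positive part of V`. -/
def poly_lVP : List (List (List ℕ)) :=
    [[[], [], [], [], [], [], [], [2, 2]], [[], [], [], [], [], [], [20, 48, 20]], [[], [], [],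
    [], [], [44, 154, 150, 24], [52]], [[], [], [], [], [0, 112, 272, 128], [416, 944, 368],
    [144]], [[], [], [], [0, 0, 204, 144], [542, 1966, 2194, 700], [1580, 3506, 1334], [516,
    624], [48, 80]], [[], [], [0, 0, 16, 64], [24, 1320, 2464, 1152], [2896, 8880, 8636, 2400],
    [2824, 7272, 4960], [560, 1440, 944]], [[], [], [0, 0, 712, 528], [2050, 8586, 10508, 4000],
    [4940, 15618, 15740, 4816], [1940, 5644, 5176, 1216]], [[], [], [128, 2448, 4064, 1792],
    [3904, 15152, 17600, 6400], [2976, 9696, 10304, 3584]], [[66, 76, 16], [116, 240, 96], [702,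
    5050, 7024, 2752], [2242, 8500, 9968, 3712]], [[172, 304, 128], [0, 288, 256], [364, 2480,
    3648, 1536]], [[122, 292, 160]]]

/-- The coefficients of `The negative part of V`. -/
def poly_lVM : List (List (List ℕ)) :=
    [[[], [], [], [], [], [], [], [0, 0, 6, 10, 4], [4, 16, 24, 16, 4]], [[], [], [], [], [], [],
    [0, 0, 0, 24, 16], [24, 136, 264, 216, 64], [16, 64, 96, 64, 16]], [[], [], [], [], [], [0,
    0, 0, 0, 16], [0, 74, 528, 626, 224], [100, 524, 972, 772, 224], [16, 64, 96, 64, 16]], [[],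
    [], [], [], [32], [0, 0, 0, 416, 256], [0, 384, 1968, 2208, 768], [64, 448, 960, 832, 256]],
    [[], [], [], [180, 118], [0, 0, 0, 0, 64], [0, 0, 0, 1488, 896], [0, 0, 1196, 2200, 896], [0,
    0, 48, 144, 64]], [[], [], [188, 232], [], [0, 0, 0, 0, 256], [0, 0, 0, 512, 1024], [0, 0, 0,
    192, 256]], [[], [50, 80, 32], [374, 210], [], [0, 0, 0, 0, 256], [0, 0, 0, 0, 256]], [[],
    [16, 160, 128]], [], [[], [16]], [[], [162, 288, 128]]]

theorem poly_cNN : poly_l3 (poly_N * poly_N).nf poly_lNN = true := by decide +kernel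
theorem poly_cNN2 : poly_l3 poly_lNN (poly_N * poly_N).nf = true := by decide +kernel
theorem poly_cQQ : poly_l3 (poly_AB * poly_AB).nf poly_lQQ = true := by decide +kernel
theorem poly_cQQ2 : poly_l3 poly_lQQ (poly_AB * poly_AB).nf = true := by decide +kernel
theorem poly_cW : poly_l3 (poly_a3 (poly_E.y * (poly_N1 * poly_N1)).nf poly_lWW)
    (poly_N * poly_N1 + .y * (poly_N2 * poly_N)).nf = true := by decide +kernel
theorem poly_cV : poly_l3 (poly_a3 (.c 8 * (.y * (poly_N * poly_AB1)) + poly_AB1 * poly_AB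
      + .y * (poly_A2 * poly_A * (poly_B * poly_B) + poly_B2 * poly_B * (poly_A * poly_A))).nf
      poly_lVP)
    (poly_a3 (.c 8 * (poly_N * poly_AB + .y * (poly_N1 * poly_AB))
      + .y * (poly_A1 * poly_A1 * (poly_B * poly_B) + poly_B1 * poly_B1 * (poly_A * poly_A))).nf
      poly_lVM) = true := by decide +kernel
theorem poly_cR : poly_l3
    (poly_a3 (poly_m3 poly_lVM poly_lNN) (.c 6 * poly_pw .e 13 + .c 714 * poly_pw .y 14).nf)
    (poly_a3 (poly_m3 poly_lVP poly_lNN) (poly_m3 poly_lWW poly_lQQ)) = true := by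
  decide +kernel

theorem poly_c2 : poly_l3 (poly_N * poly_AB1).nf
    (.c 8 * (poly_N * poly_N) + poly_N1 * poly_AB).nf = true := by decide +kernel

theorem poly_c4 : poly_l3
    (.c 8 * .y * (poly_N * poly_N) + .y * (poly_N1 * poly_AB)
      + (.c 7 * poly_pw .e 7 + .c 48 * poly_pw .y 7)).nf
    (.c 7 * (poly_N * poly_AB) + .y * (poly_N * poly_AB1)).nf = true := by decide +kernel

theorem poly_c5 : poly_l3
    (.y * (poly_N * poly_AB1) + (poly_pw .e 7 + .c 17 * poly_pw .y 8)).nf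
    (poly_N * poly_AB + .y * (poly_N1 * poly_AB)).nf = true := by decide +kernel

/-! ### The inequalities between real polynomials -/

/-- The value of a list. -/
theorem poly_le_of {y e m : ℝ} (hy : 0 ≤ y) (he : 0 ≤ e) (hm : 0 ≤ m)
    {p q : List (List (List ℕ))} (h : poly_l3 p q = true) :
    poly_e3 y e m p ≤ poly_e3 y e m q := poly_e3_le hy he hm h

/-- `A`, as a real function. -/
noncomputable def poly_rA (d e y : ℝ) : ℝ := y * (e + y) * (1 + y) + d * (1 + 2 * y) * e ^ 2
/-- `A'`. -/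
noncomputable def poly_rA1 (d e y : ℝ) : ℝ :=
  (e + 2 * y) * (1 + y) + y * (e + y) + 2 * d * e ^ 2
/-- `A''`. -/
noncomputable def poly_rA2 (e y : ℝ) : ℝ := 2 * (1 + y) + 2 * (e + 2 * y)
/-- `B`. -/
noncomputable def poly_rB (d e y : ℝ) : ℝ := poly_rA d e y + 4 * d * (1 + 2 * y) * (y * (e + y))
/-- `B'`. -/
noncomputable def poly_rB1 (d e y : ℝ) : ℝ :=
  poly_rA1 d e y + 4 * d * (2 * (y * (e + y)) + (1 + 2 * y) * (e + 2 * y))
/-- `B''`. -/
noncomputable def poly_rB2 (d e y : ℝ) : ℝ :=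
  poly_rA2 e y + 4 * d * (4 * (e + 2 * y) + (1 + 2 * y) * 2)
/-- `N`. -/
noncomputable def poly_rN (d e y : ℝ) : ℝ :=
  d * (1 + 2 * y) ^ 2 * (2 * y * (e + y) ^ 2 + e ^ 2 * (e + 2 * y)) + y ^ 2 * (e + y) ^ 2
/-- `N'`. -/
noncomputable def poly_rN1 (d e y : ℝ) : ℝ :=
  d * (4 * (1 + 2 * y) * (2 * y * (e + y) ^ 2 + e ^ 2 * (e + 2 * y))
    + (1 + 2 * y) ^ 2 * (2 * (e + y) ^ 2 + 4 * y * (e + y) + 2 * e ^ 2))
    + 2 * y * (e + y) ^ 2 + 2 * y ^ 2 * (e + y)
/-- `N''`. -/
noncomputable def poly_rN2 (d e y : ℝ) : ℝ :=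
  d * (8 * (2 * y * (e + y) ^ 2 + e ^ 2 * (e + 2 * y))
    + 8 * (1 + 2 * y) * (2 * (e + y) ^ 2 + 4 * y * (e + y) + 2 * e ^ 2)
    + (1 + 2 * y) ^ 2 * (8 * (e + y) + 4 * y))
    + 2 * (e + y) ^ 2 + 8 * y * (e + y) + 2 * y ^ 2

theorem poly_dA (y e m : ℝ) : poly_A.den y e m = poly_rA (m + 1) e y := by
  simp only [poly_A, poly_den_add, poly_E.den, poly_rA]; push_cast; ring
theorem poly_dA1 (y e m : ℝ) : poly_A1.den y e m = poly_rA1 (m + 1) e y := by
  simp only [poly_A1, poly_den_add, poly_den_mul, poly_E.den, poly_rA1]; push_cast; ring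
theorem poly_dA2 (y e m : ℝ) : poly_A2.den y e m = poly_rA2 e y := by
  simp only [poly_A2, poly_den_add, poly_den_mul, poly_E.den, poly_rA2]; push_cast; ring
theorem poly_dB (y e m : ℝ) : poly_B.den y e m = poly_rB (m + 1) e y := by
  simp only [poly_B, poly_den_add, poly_den_mul, poly_dA, poly_E.den, poly_rB]; push_cast; ring
theorem poly_dB1 (y e m : ℝ) : poly_B1.den y e m = poly_rB1 (m + 1) e y := by
  simp only [poly_B1, poly_den_add, poly_den_mul, poly_dA1, poly_E.den, poly_rB1]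
  push_cast; ring
theorem poly_dB2 (y e m : ℝ) : poly_B2.den y e m = poly_rB2 (m + 1) e y := by
  simp only [poly_B2, poly_den_add, poly_den_mul, poly_dA2, poly_E.den, poly_rB2]
  push_cast; ring
theorem poly_dN (y e m : ℝ) : poly_N.den y e m = poly_rN (m + 1) e y := by
  simp only [poly_N, poly_den_add, poly_den_mul, poly_E.den, poly_rN]; push_cast; ring
theorem poly_dN1 (y e m : ℝ) : poly_N1.den y e m = poly_rN1 (m + 1) e y := by
  simp only [poly_N1, poly_den_add, poly_den_mul, poly_E.den, poly_rN1]; push_cast; ring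
theorem poly_dN2 (y e m : ℝ) : poly_N2.den y e m = poly_rN2 (m + 1) e y := by
  simp only [poly_N2, poly_den_add, poly_den_mul, poly_E.den, poly_rN2]; push_cast; ring
theorem poly_dAB (y e m : ℝ) :
    poly_AB.den y e m = poly_rA (m + 1) e y * poly_rB (m + 1) e y := by
  rw [poly_AB, poly_den_mul, poly_dA, poly_dB]
theorem poly_dAB1 (y e m : ℝ) : poly_AB1.den y e m =
    poly_rA1 (m + 1) e y * poly_rB (m + 1) e y + poly_rA (m + 1) e y * poly_rB1 (m + 1) e y := by
  rw [poly_AB1, poly_den_add, poly_den_mul, poly_den_mul, poly_dA, poly_dB, poly_dA1, poly_dB1]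

theorem poly_i1 {y e m : ℝ} (hy : 0 ≤ y) (he : 0 ≤ e) (hm : 0 ≤ m) :
    y * poly_rN (m + 1) e y ≤ poly_rA (m + 1) e y * poly_rB (m + 1) e y := by
  have h := poly_E_le hy he hm poly_c1
  simpa only [poly_den_add, poly_den_mul, poly_dAB, poly_dN, poly_E.den] using h

theorem poly_i2 {y e m : ℝ} (hy : 0 ≤ y) (he : 0 ≤ e) (hm : 0 ≤ m) :
    poly_rN (m + 1) e y * (poly_rA1 (m + 1) e y * poly_rB (m + 1) e y
        + poly_rA (m + 1) e y * poly_rB1 (m + 1) e y)
      ≤ 8 * poly_rN (m + 1) e y ^ 2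
        + poly_rN1 (m + 1) e y * (poly_rA (m + 1) e y * poly_rB (m + 1) e y) := by
  have h := poly_E_le hy he hm poly_c2
  simp only [poly_den_add, poly_den_mul, poly_dAB, poly_dAB1, poly_dN, poly_dN1, poly_E.den] at h
  push_cast at h
  linarith

theorem poly_pow_pos {y e : ℝ} (hy : 0 ≤ y) (he : 0 ≤ e) (h : 0 < e + y) {a b : ℝ} (ha : 0 < a)
    (hb : 0 < b) (i j : ℕ) : 0 < a * e ^ i + b * y ^ j := by
  rcases he.lt_or_eq with h1 | h1
  · positivity
  · have h2 : 0 < y := by rw [← h1] at h; simpa using h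
    positivity

theorem poly_i4 {y e m : ℝ} (hy : 0 ≤ y) (he : 0 ≤ e) (hm : 0 ≤ m) (h0 : 0 < e + y) :
    0 < 7 * (poly_rN (m + 1) e y * (poly_rA (m + 1) e y * poly_rB (m + 1) e y))
      - 8 * y * poly_rN (m + 1) e y ^ 2
      - y * (poly_rN1 (m + 1) e y * (poly_rA (m + 1) e y * poly_rB (m + 1) e y)
        - poly_rN (m + 1) e y * (poly_rA1 (m + 1) e y * poly_rB (m + 1) e y
        + poly_rA (m + 1) e y * poly_rB1 (m + 1) e y)) := by
  have h := poly_E_le hy he hm poly_c4
  simp only [poly_den_add, poly_den_mul, poly_dAB, poly_dAB1, poly_dN, poly_dN1, poly_den_pw,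
    poly_E.den] at h
  push_cast at h
  have h1 := poly_pow_pos hy he h0 (a := 7) (b := 48) (by norm_num) (by norm_num) 7 7
  linarith

theorem poly_i5 {y e m : ℝ} (hy : 0 ≤ y) (he : 0 ≤ e) (hm : 0 ≤ m) (h0 : 0 < e + y) :
    0 < poly_rN (m + 1) e y * (poly_rA (m + 1) e y * poly_rB (m + 1) e y)
      + y * (poly_rN1 (m + 1) e y * (poly_rA (m + 1) e y * poly_rB (m + 1) e y)
        - poly_rN (m + 1) e y * (poly_rA1 (m + 1) e y * poly_rB (m + 1) e y
        + poly_rA (m + 1) e y * poly_rB1 (m + 1) e y)) := by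
  have h := poly_E_le hy he hm poly_c5
  simp only [poly_den_add, poly_den_mul, poly_dAB, poly_dAB1, poly_dN, poly_dN1, poly_den_pw,
    poly_E.den] at h
  push_cast at h
  have h1 := poly_pow_pos hy he h0 (a := 1) (b := 17) (by norm_num) (by norm_num) 7 8
  linarith

/-- The numerator of the derivative of `b`. -/
theorem poly_i3 {y e m : ℝ} (hy : 0 ≤ y) (he : 0 ≤ e) (hm : 0 ≤ m) (h0 : 0 < e + y)
    {A A1 A2 B B1 B2 N N1 N2 : ℝ} (hA : A = poly_rA (m + 1) e y) (hA1 : A1 = poly_rA1 (m + 1) e y)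
    (hA2 : A2 = poly_rA2 e y) (hB : B = poly_rB (m + 1) e y) (hB1 : B1 = poly_rB1 (m + 1) e y)
    (hB2 : B2 = poly_rB2 (m + 1) e y) (hN : N = poly_rN (m + 1) e y)
    (hN1 : N1 = poly_rN1 (m + 1) e y) (hN2 : N2 = poly_rN2 (m + 1) e y) :
    0 < N ^ 2 * (8 * (N * (A * B) + y * (N1 * (A * B) - N * (A1 * B + A * B1)))
        - (A1 * B + A * B1) * (A * B)
        - y * ((A2 * A - A1 ^ 2) * B ^ 2 + (B2 * B - B1 ^ 2) * A ^ 2))
      + (A * B) ^ 2 * (N * N1 + y * (N2 * N - N1 ^ 2)) := by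
  have hV := poly_e3_le hy he hm poly_cV
  have hW := poly_e3_le hy he hm poly_cW
  have hR := poly_e3_le hy he hm poly_cR
  have n1 := poly_e3_le hy he hm poly_cNN
  have n2 := poly_e3_le hy he hm poly_cNN2
  have q1 := poly_e3_le hy he hm poly_cQQ
  have q2 := poly_e3_le hy he hm poly_cQQ2
  simp only [poly_e3_add, poly_e3_mul, poly_E.nf_den, poly_den_add, poly_den_mul, poly_dAB,
    poly_dAB1, poly_dA, poly_dA1, poly_dA2, poly_dB, poly_dB1, poly_dB2, poly_dN, poly_dN1,
    poly_dN2, poly_den_pw, poly_E.den, ← hA, ← hA1, ← hA2, ← hB, ← hB1, ← hB2, ← hN, ← hN1,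
    ← hN2] at hV hW hR n1 n2 q1 q2
  push_cast at hV hW hR n1 n2 q1 q2
  have n3 := le_antisymm n1 n2
  have q3 := le_antisymm q1 q2
  rw [← n3, ← q3] at hR
  set VP := poly_e3 y e m poly_lVP
  set VM := poly_e3 y e m poly_lVM
  set WW := poly_e3 y e m poly_lWW
  have h1 := poly_pow_pos hy he h0 (a := 6) (b := 714) (by norm_num) (by norm_num) 13 14
  have h2 : VP - VM ≤ 8 * (N * (A * B) + y * (N1 * (A * B) - N * (A1 * B + A * B1)))
        - (A1 * B + A * B1) * (A * B)
        - y * ((A2 * A - A1 ^ 2) * B ^ 2 + (B2 * B - B1 ^ 2) * A ^ 2) := by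
    nlinarith only [hV]
  have h3 : WW ≤ N * N1 + y * (N2 * N - N1 ^ 2) := by nlinarith only [hW]
  have h4 := mul_le_mul_of_nonneg_left h2 (sq_nonneg N)
  have h5 := mul_le_mul_of_nonneg_left h3 (sq_nonneg (A * B))
  nlinarith only [h1, h4, h5, hR]


/-! ### Derivatives -/

theorem poly_hA (d e y : ℝ) : HasDerivAt (poly_rA d e) (poly_rA1 d e y) y := by
  have h1 : HasDerivAt (fun t : ℝ => t) 1 y := hasDerivAt_id' y
  have h2 := ((h1.fun_mul (h1.const_add e)).fun_mul (h1.const_add 1)).fun_add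
    ((((h1.const_mul 2).const_add 1).const_mul d).mul_const (e ^ 2))
  refine h2.congr_deriv ?_
  simp only [poly_rA1]; ring

theorem poly_hA1 (d e y : ℝ) : HasDerivAt (poly_rA1 d e) (poly_rA2 e y) y := by
  have h1 : HasDerivAt (fun t : ℝ => t) 1 y := hasDerivAt_id' y
  have h2 := ((((h1.const_mul 2).const_add e).fun_mul (h1.const_add 1)).fun_add
    (h1.fun_mul (h1.const_add e))).add_const (2 * d * e ^ 2)
  refine h2.congr_deriv ?_
  simp only [poly_rA2]; ring

theorem poly_hB (d e y : ℝ) : HasDerivAt (poly_rB d e) (poly_rB1 d e y) y := by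
  have h1 : HasDerivAt (fun t : ℝ => t) 1 y := hasDerivAt_id' y
  have h2 := (poly_hA d e y).fun_add ((((h1.const_mul 2).const_add 1).const_mul (4 * d)).fun_mul
    (h1.fun_mul (h1.const_add e)))
  refine h2.congr_deriv ?_
  simp only [poly_rB1]; ring

theorem poly_hB1 (d e y : ℝ) : HasDerivAt (poly_rB1 d e) (poly_rB2 d e y) y := by
  have h1 : HasDerivAt (fun t : ℝ => t) 1 y := hasDerivAt_id' y
  have h2 := (poly_hA1 d e y).fun_add ((((h1.fun_mul (h1.const_add e)).const_mul 2).fun_add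
    (((h1.const_mul 2).const_add 1).fun_mul ((h1.const_mul 2).const_add e))).const_mul (4 * d))
  refine h2.congr_deriv ?_
  simp only [poly_rB2]; ring

theorem poly_hN (d e y : ℝ) : HasDerivAt (poly_rN d e) (poly_rN1 d e y) y := by
  have h1 : HasDerivAt (fun t : ℝ => t) 1 y := hasDerivAt_id' y
  have h2 := (((((h1.const_mul 2).const_add 1).fun_pow 2).const_mul d).fun_mul
    (((h1.const_mul 2).fun_mul ((h1.const_add e).fun_pow 2)).fun_add
      (((h1.const_mul 2).const_add e).const_mul (e ^ 2)))).fun_add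
    ((h1.fun_pow 2).fun_mul ((h1.const_add e).fun_pow 2))
  refine h2.congr_deriv ?_
  simp only [poly_rN1]; push_cast; ring

theorem poly_hN1 (d e y : ℝ) : HasDerivAt (poly_rN1 d e) (poly_rN2 d e y) y := by
  have h1 : HasDerivAt (fun t : ℝ => t) 1 y := hasDerivAt_id' y
  have h3 := ((h1.const_mul 2).fun_mul ((h1.const_add e).fun_pow 2)).fun_add
      (((h1.const_mul 2).const_add e).const_mul (e ^ 2))
  have h4 := ((h1.const_mul 2).const_add 1)
  have h5 := ((((h1.const_add e).fun_pow 2).const_mul 2).fun_add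
    ((h1.const_mul 4).fun_mul (h1.const_add e))).add_const (2 * e ^ 2)
  have h2 := (((((h4.const_mul 4).fun_mul h3).fun_add ((h4.fun_pow 2).fun_mul h5)).const_mul
    d).fun_add ((h1.const_mul 2).fun_mul ((h1.const_add e).fun_pow 2))).fun_add
    (((h1.fun_pow 2).const_mul 2).fun_mul (h1.const_add e))
  refine h2.congr_deriv ?_
  simp only [poly_rN2]; push_cast; ring

theorem poly_Af (d e y : ℝ) : Af d e y = 4 * poly_rA d e y := by
  simp only [Af, poly_rA]; ring

theorem poly_Bf (d e y : ℝ) : Bf d e y = 4 * poly_rB d e y := by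
  simp only [Bf, Af, poly_rB, poly_rA]; ring

theorem poly_Nf (d e y : ℝ) : Nf d e y = 32 * poly_rN d e y := by
  simp only [Nf, poly_rN]; ring

theorem poly_Mf (d e y : ℝ) :
    Mf d e y = 8 * d * poly_rN d e y / (poly_rA d e y * poly_rB d e y) := by
  rw [Mf, poly_Af, poly_Bf, poly_Nf,
    show 4 * d * (32 * poly_rN d e y) = 16 * (8 * d * poly_rN d e y) by ring,
    show 4 * poly_rA d e y * (4 * poly_rB d e y) = 16 * (poly_rA d e y * poly_rB d e y) by ring,
    mul_div_mul_left _ _ (by norm_num : (16:ℝ) ≠ 0)]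

theorem poly_Gf (d e y : ℝ) :
    Gf d e y = 4 * d * (1 + 2 * y) * (e + y) / poly_rB d e y := by
  rw [Gf, poly_Bf,
    show 4 * d * (1 + 2 * y) * (4 * (e + y)) = 4 * (4 * d * (1 + 2 * y) * (e + y)) by ring,
    mul_div_mul_left _ _ (by norm_num : (4:ℝ) ≠ 0)]

/-- The derivative of `Mf`. -/
theorem poly_hM (d e y : ℝ) (hA : poly_rA d e y ≠ 0) (hB : poly_rB d e y ≠ 0) :
    HasDerivAt (Mf d e) (8 * d * (poly_rN1 d e y * (poly_rA d e y * poly_rB d e y)
      - poly_rN d e y * (poly_rA1 d e y * poly_rB d e y + poly_rA d e y * poly_rB1 d e y))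
      / (poly_rA d e y * poly_rB d e y) ^ 2) y := by
  have h2 := ((poly_hN d e y).const_mul (8 * d)).fun_div
    ((poly_hA d e y).fun_mul (poly_hB d e y)) (mul_ne_zero hA hB)
  refine (h2.congr_deriv ?_).congr_of_eventuallyEq
    (Filter.Eventually.of_forall fun t => poly_Mf d e t)
  congr 1
  ring

/-- The function `bf`, without derivatives. -/
theorem poly_bf (d e y : ℝ) (hd : d ≠ 0) (hA : poly_rA d e y ≠ 0) (hB : poly_rB d e y ≠ 0)
    (hN : poly_rN d e y ≠ 0) :
    bf d e y = 8 * (y * poly_rN d e y) / (poly_rA d e y * poly_rB d e y) + 1 +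
      y * (poly_rN1 d e y * (poly_rA d e y * poly_rB d e y)
      - poly_rN d e y * (poly_rA1 d e y * poly_rB d e y + poly_rA d e y * poly_rB1 d e y))
      / (poly_rN d e y * (poly_rA d e y * poly_rB d e y)) := by
  rw [bf, (poly_hM d e y hA hB).deriv, poly_Mf]
  have h : poly_rA d e y * poly_rB d e y ≠ 0 := mul_ne_zero hA hB
  field_simp

/-- The derivative of `bf`. -/
theorem poly_hb (d e y : ℝ) (hd : d ≠ 0) (hA : poly_rA d e y ≠ 0) (hB : poly_rB d e y ≠ 0)
    (hN : poly_rN d e y ≠ 0) {A A1 A2 B B1 B2 N N1 N2 : ℝ} (gA : A = poly_rA d e y)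
    (gA1 : A1 = poly_rA1 d e y) (gA2 : A2 = poly_rA2 e y) (gB : B = poly_rB d e y)
    (gB1 : B1 = poly_rB1 d e y) (gB2 : B2 = poly_rB2 d e y) (gN : N = poly_rN d e y)
    (gN1 : N1 = poly_rN1 d e y) (gN2 : N2 = poly_rN2 d e y) :
    deriv (bf d e) y = (N ^ 2 * (8 * (N * (A * B) + y * (N1 * (A * B) - N * (A1 * B + A * B1)))
        - (A1 * B + A * B1) * (A * B)
        - y * ((A2 * A - A1 ^ 2) * B ^ 2 + (B2 * B - B1 ^ 2) * A ^ 2))
      + (A * B) ^ 2 * (N * N1 + y * (N2 * N - N1 ^ 2))) / (N * (A * B)) ^ 2 := by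
  have cA := (poly_hA d e y).continuousAt.eventually_ne hA
  have cB := (poly_hB d e y).continuousAt.eventually_ne hB
  have cN := (poly_hN d e y).continuousAt.eventually_ne hN
  have ev : bf d e =ᶠ[𝓝 y] fun y => 8 * (y * poly_rN d e y) / (poly_rA d e y * poly_rB d e y) + 1 +
      y * (poly_rN1 d e y * (poly_rA d e y * poly_rB d e y)
      - poly_rN d e y * (poly_rA1 d e y * poly_rB d e y + poly_rA d e y * poly_rB1 d e y))
      / (poly_rN d e y * (poly_rA d e y * poly_rB d e y)) := by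
    filter_upwards [cA, cB, cN] with t h1 h2 h3
    exact poly_bf d e t hd h1 h2 h3
  rw [ev.deriv_eq]
  have h1 : HasDerivAt (fun t : ℝ => t) 1 y := hasDerivAt_id' y
  have kA := poly_hA d e y
  have kA1 := poly_hA1 d e y
  have kB := poly_hB d e y
  have kB1 := poly_hB1 d e y
  have kN := poly_hN d e y
  have kN1 := poly_hN1 d e y
  have kAB := kA.fun_mul kB
  have hAB : poly_rA d e y * poly_rB d e y ≠ 0 := mul_ne_zero hA hB
  have h2 := ((((h1.fun_mul kN).const_mul 8).fun_div kAB hAB).add_const 1).fun_add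
    ((h1.fun_mul ((kN1.fun_mul kAB).fun_sub (kN.fun_mul ((kA1.fun_mul kB).fun_add
      (kA.fun_mul kB1))))).fun_div (kN.fun_mul kAB) (mul_ne_zero hN hAB))
  rw [h2.deriv]
  simp only [← gA, ← gA1, ← gA2, ← gB, ← gB1, ← gB2, ← gN, ← gN1, ← gN2] at hA hB hN ⊢
  field_simp
  ring

theorem t_POLY : S_POLY := by
  intro n e y hn he hy h0
  obtain ⟨m, hm, hmn⟩ : ∃ m : ℝ, 0 ≤ m ∧ (n : ℝ) = m + 1 :=
    ⟨(n : ℝ) - 1, by have : (1:ℝ) ≤ n := by exact_mod_cast hn
                     linarith, by ring⟩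
  rw [hmn]
  have hd : (0:ℝ) < m + 1 := by linarith
  have e2 : 0 < y ∨ 0 < e := by
    rcases hy.lt_or_eq with h | h
    · exact Or.inl h
    · right; rw [← h] at h0; simpa using h0
  have hA : 0 < poly_rA (m + 1) e y := by
    unfold poly_rA
    rcases e2 with h | h
    · positivity
    · positivity
  have hB : 0 < poly_rB (m + 1) e y := by
    unfold poly_rB; positivity
  have hN : 0 < poly_rN (m + 1) e y := by
    unfold poly_rN
    rcases e2 with h | h
    · positivity
    · positivity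
  have hAB := mul_pos hA hB
  have hNAB := mul_pos hN hAB
  have i1 := poly_i1 hy he hm
  have i2 := poly_i2 hy he hm
  have i4 := poly_i4 hy he hm h0
  have i5 := poly_i5 hy he hm h0
  refine ⟨by rw [poly_Af]; positivity, by rw [poly_Bf]; positivity, by rw [poly_Nf]; positivity,
    ?_, ?_, ?_, ?_, ?_, ?_, ?_, ?_⟩
  · rw [poly_hb (m + 1) e y hd.ne' hA.ne' hB.ne' hN.ne' rfl rfl rfl rfl rfl rfl rfl rfl rfl]
    exact div_pos (poly_i3 hy he hm h0 rfl rfl rfl rfl rfl rfl rfl rfl rfl) (by positivity)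
  · rw [poly_bf (m + 1) e y hd.ne' hA.ne' hB.ne' hN.ne', ← sub_pos]
    have : 8 - (8 * (y * poly_rN (m + 1) e y) / (poly_rA (m + 1) e y * poly_rB (m + 1) e y) + 1 +
        y * (poly_rN1 (m + 1) e y * (poly_rA (m + 1) e y * poly_rB (m + 1) e y)
        - poly_rN (m + 1) e y * (poly_rA1 (m + 1) e y * poly_rB (m + 1) e y
          + poly_rA (m + 1) e y * poly_rB1 (m + 1) e y))
        / (poly_rN (m + 1) e y * (poly_rA (m + 1) e y * poly_rB (m + 1) e y))) =
        (7 * (poly_rN (m + 1) e y * (poly_rA (m + 1) e y * poly_rB (m + 1) e y))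
      - 8 * y * poly_rN (m + 1) e y ^ 2
      - y * (poly_rN1 (m + 1) e y * (poly_rA (m + 1) e y * poly_rB (m + 1) e y)
        - poly_rN (m + 1) e y * (poly_rA1 (m + 1) e y * poly_rB (m + 1) e y
        + poly_rA (m + 1) e y * poly_rB1 (m + 1) e y))) /
        (poly_rN (m + 1) e y * (poly_rA (m + 1) e y * poly_rB (m + 1) e y)) := by
      have := hA.ne'
      have := hB.ne'
      have := hN.ne'
      field_simp
      ring
    rw [this]
    exact div_pos i4 hNAB
  · rw [poly_bf (m + 1) e y hd.ne' hA.ne' hB.ne' hN.ne', ← sub_nonneg]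
    have : (8 * (y * poly_rN (m + 1) e y) / (poly_rA (m + 1) e y * poly_rB (m + 1) e y) + 1 +
        y * (poly_rN1 (m + 1) e y * (poly_rA (m + 1) e y * poly_rB (m + 1) e y)
        - poly_rN (m + 1) e y * (poly_rA1 (m + 1) e y * poly_rB (m + 1) e y
          + poly_rA (m + 1) e y * poly_rB1 (m + 1) e y))
        / (poly_rN (m + 1) e y * (poly_rA (m + 1) e y * poly_rB (m + 1) e y))) - 1 =
        y * (8 * poly_rN (m + 1) e y ^ 2
        + poly_rN1 (m + 1) e y * (poly_rA (m + 1) e y * poly_rB (m + 1) e y)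
        - poly_rN (m + 1) e y * (poly_rA1 (m + 1) e y * poly_rB (m + 1) e y
        + poly_rA (m + 1) e y * poly_rB1 (m + 1) e y)) /
        (poly_rN (m + 1) e y * (poly_rA (m + 1) e y * poly_rB (m + 1) e y)) := by
      have := hA.ne'
      have := hB.ne'
      have := hN.ne'
      field_simp
      ring
    rw [this]
    exact div_nonneg (mul_nonneg hy (by linarith)) hNAB.le
  · have h1 := ((hasDerivAt_id' y).fun_mul (poly_hM (m + 1) e y hA.ne' hB.ne')).deriv
    rw [h1, poly_Mf]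
    have : 1 * (8 * (m + 1) * poly_rN (m + 1) e y
          / (poly_rA (m + 1) e y * poly_rB (m + 1) e y)) +
        y * (8 * (m + 1) * (poly_rN1 (m + 1) e y * (poly_rA (m + 1) e y * poly_rB (m + 1) e y)
      - poly_rN (m + 1) e y * (poly_rA1 (m + 1) e y * poly_rB (m + 1) e y
        + poly_rA (m + 1) e y * poly_rB1 (m + 1) e y))
      / (poly_rA (m + 1) e y * poly_rB (m + 1) e y) ^ 2) =
      8 * (m + 1) * (poly_rN (m + 1) e y * (poly_rA (m + 1) e y * poly_rB (m + 1) e y)
      + y * (poly_rN1 (m + 1) e y * (poly_rA (m + 1) e y * poly_rB (m + 1) e y)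
        - poly_rN (m + 1) e y * (poly_rA1 (m + 1) e y * poly_rB (m + 1) e y
        + poly_rA (m + 1) e y * poly_rB1 (m + 1) e y))) /
      (poly_rA (m + 1) e y * poly_rB (m + 1) e y) ^ 2 := by
      have := hA.ne'
      have := hB.ne'
      field_simp
    rw [this]
    positivity
  · rw [poly_Mf, ← mul_div_assoc, div_le_iff₀ hAB]
    nlinarith
  · have kB := poly_hB (m + 1) e y
    have h1 : HasDerivAt (fun t : ℝ => t) 1 y := hasDerivAt_id' y
    have h2 := (((h1.const_mul 2).const_add 1).const_mul (4 * (m + 1))).fun_mul (h1.const_add e)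
    have h3 : deriv (Gf (m + 1) e) y = _ :=
      ((h2.fun_div kB hB.ne').congr_of_eventuallyEq
        (Filter.Eventually.of_forall fun t => poly_Gf (m + 1) e t)).deriv
    rw [h3, poly_Gf, poly_Mf]
    have := hA.ne'
    have := hB.ne'
    have hBA : poly_rA (m + 1) e y =
        poly_rB (m + 1) e y - 4 * (m + 1) * (1 + 2 * y) * (y * (e + y)) := by
      rw [poly_rB]; ring
    have e1 : 1 - y * (4 * (m + 1) * (1 + 2 * y) * (e + y) / poly_rB (m + 1) e y) =
        poly_rA (m + 1) e y / poly_rB (m + 1) e y := by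
      rw [hBA]; field_simp
    rw [e1]
    have key : 2 * (4 * (m + 1) * (1 + 2 * y) * (e + y)) * poly_rB (m + 1) e y
        + 2 * y * ((4 * (m + 1) * (2 * (e + y) + (1 + 2 * y))) * poly_rB (m + 1) e y
          - 4 * (m + 1) * (1 + 2 * y) * (e + y) * poly_rB1 (m + 1) e y)
        + y * (4 * (m + 1) * (1 + 2 * y) * (e + y)) ^ 2 = 8 * (m + 1) * poly_rN (m + 1) e y := by
      simp only [poly_rB, poly_rA, poly_rB1, poly_rA1, poly_rN]
      ring
    have e3 : 8 * (m + 1) * poly_rN (m + 1) e y / (poly_rA (m + 1) e y * poly_rB (m + 1) e y) *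
        (poly_rA (m + 1) e y / poly_rB (m + 1) e y) =
        8 * (m + 1) * poly_rN (m + 1) e y / poly_rB (m + 1) e y ^ 2 := by
      field_simp
    rw [e3, ← key]
    field_simp
  · rw [poly_Gf]
    have hBA : poly_rA (m + 1) e y =
        poly_rB (m + 1) e y - 4 * (m + 1) * (1 + 2 * y) * (y * (e + y)) := by
      rw [poly_rB]; ring
    have e1 : 1 - y * (4 * (m + 1) * (1 + 2 * y) * (e + y) / poly_rB (m + 1) e y) =
        poly_rA (m + 1) e y / poly_rB (m + 1) e y := by
      have := hB.ne'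
      rw [hBA]; field_simp
    rw [e1, div_le_div_iff₀ (by positivity) hB, poly_rB]
    have h3 : (1 + 2 * y) * (y * (e + y)) ≤ 2 * poly_rA (m + 1) e y := by
      have h5 : 0 ≤ (m + 1) * (1 + 2 * y) * e ^ 2 := by positivity
      have h6 : 0 ≤ y * (e + y) := by positivity
      unfold poly_rA
      nlinarith
    nlinarith [mul_le_mul_of_nonneg_left h3 hd.le]
  · intro he'
    rw [poly_Gf]
    have hB' : 0 < poly_rB (m + 1) e e := by
      unfold poly_rB poly_rA; positivity
    rw [← mul_div_assoc, div_le_div_iff₀ (by norm_num) hB']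
    unfold poly_rB poly_rA
    have h5 : 0 ≤ m * e ^ 2 := by positivity
    have h6 : 0 ≤ m * e ^ 3 := by positivity
    have h7 : 0 ≤ e ^ 3 := by positivity
    nlinarith

end Pool.Agent.Helper473.LY
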