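import Pool.Agent.Helper473.LY.Stmts

set_option autoImplicit false

open scoped Manifold ContDiff Topology RealInnerProductSpace
open Module

namespace Pool.Agent.Helper473.LY

open Pool.Agent.H234R3

lemma rad_deriv_diff {f : ℝ → ℝ} {t : ℝ} (h : ContDiffAt ℝ ∞ f t) :
    DifferentiableAt ℝ (deriv f) t := by
  have h2 : ContDiffAt ℝ 2 f t :=
    h.of_le (show ((2 : ℕ∞) : WithTop ℕ∞) ≤ ∞ from by exact_mod_cast le_top)
  have h3 : ContDiffAt ℝ 1 (fderiv ℝ f) t := h2.fderiv_right (m := 1) (by norm_num)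
  have h4 : DifferentiableAt ℝ (fderiv ℝ f) t := h3.differentiableAt (by norm_num)
  have h5 : deriv f = fun s => fderiv ℝ f s 1 := by
    funext s; exact fderiv_apply_one_eq_deriv.symm
  rw [h5]
  exact h4.clm_apply (differentiableAt_const _)

lemma rad_ev_diff {f : ℝ → ℝ} {t : ℝ} (h : ContDiffAt ℝ ∞ f t) :
    ∀ᶠ s in 𝓝 t, DifferentiableAt ℝ f s := by
  have h2 : ContDiffAt ℝ 1 f t := h.of_le (by exact_mod_cast le_top)
  have h3 := h2.eventually (by simp)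
  exact h3.mono fun s hs => hs.differentiableAt (by norm_num)

lemma rad_hasFDerivAt (z : W) :
    HasFDerivAt (fun z : W => ‖z‖ ^ 2) ((2 : ℝ) • innerSL ℝ z) z := by
  have := (hasStrictFDerivAt_norm_sq z).hasFDerivAt
  refine this.congr_fderiv ?_
  ext v
  simp

/-- the derivative of a radial function -/
lemma rad_fd {f : ℝ → ℝ} {z : W} (h : DifferentiableAt ℝ f (‖z‖ ^ 2)) :
    HasFDerivAt (fun z : W => f (‖z‖ ^ 2)) (deriv f (‖z‖ ^ 2) • ((2 : ℝ) • innerSL ℝ z)) z :=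
  h.hasDerivAt.comp_hasFDerivAt z (rad_hasFDerivAt z)

noncomputable def rad_Ga (Λ : ℝ → ℝ) (z a b : W) : W :=
  (deriv Λ (‖z‖ ^ 2) / Λ (‖z‖ ^ 2)) • (⟪z, a⟫ • b + ⟪z, b⟫ • a - ⟪a, b⟫ • z)

lemma rad_Ga_fd {Λ : ℝ → ℝ} {z : W} (hd : DifferentiableAt ℝ Λ (‖z‖ ^ 2))
    (hdd : DifferentiableAt ℝ (deriv Λ) (‖z‖ ^ 2)) (h0 : Λ (‖z‖ ^ 2) ≠ 0) (a b : W) :
    DifferentiableAt ℝ (fun z => rad_Ga Λ z a b) z ∧ ∀ v : W,
      fderiv ℝ (fun z => rad_Ga Λ z a b) z v =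
        (deriv (fun t => deriv Λ t / Λ t) (‖z‖ ^ 2) * (2 * ⟪z, v⟫)) •
            (⟪z, a⟫ • b + ⟪z, b⟫ • a - ⟪a, b⟫ • z) +
          (deriv Λ (‖z‖ ^ 2) / Λ (‖z‖ ^ 2)) • (⟪v, a⟫ • b + ⟪v, b⟫ • a - ⟪a, b⟫ • v) := by
  have hq : DifferentiableAt ℝ (fun t => deriv Λ t / Λ t) (‖z‖ ^ 2) := hdd.div hd h0
  have e1 := rad_fd hq
  have ia : ∀ a : W, HasFDerivAt (fun z : W => ⟪z, a⟫) (innerSL ℝ a) z := by
    intro a
    have := (innerSL ℝ a).hasFDerivAt (x := z)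
    refine this.congr_of_eventuallyEq (Filter.Eventually.of_forall fun y => ?_)
    simp [real_inner_comm]
  have e2 : HasFDerivAt (fun z : W => ⟪z, a⟫ • b + ⟪z, b⟫ • a - ⟪a, b⟫ • z)
      ((innerSL ℝ a).smulRight b + (innerSL ℝ b).smulRight a - ⟪a, b⟫ • ContinuousLinearMap.id ℝ W) z :=
    (((ia a).smul_const b).add ((ia b).smul_const a)).sub ((hasFDerivAt_id z).const_smul ⟪a, b⟫)
  have e3 := e1.smul e2
  refine ⟨e3.differentiableAt, fun v => ?_⟩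
  have : fderiv ℝ (fun z => rad_Ga Λ z a b) z = _ := e3.fderiv
  rw [this]
  simp [real_inner_comm, smul_smul]
  module

lemma rad_chr {g : W → W → W → ℝ} {Λ : ℝ → ℝ} {z : W}
    (hg : ∀ᶠ z in 𝓝 z, ∀ a b, g z a b = Λ (‖z‖ ^ 2) * ⟪a, b⟫)
    (hd : DifferentiableAt ℝ Λ (‖z‖ ^ 2)) (h0 : Λ (‖z‖ ^ 2) ≠ 0) :
    IsChristoffel g z (rad_Ga Λ z) := by
  intro a b e
  have hgz := hg.self_of_nhds
  have key : ∀ u v w : W, der (fun z => g z u v) z w = deriv Λ (‖z‖ ^ 2) * (2 * ⟪z, w⟫) * ⟪u, v⟫ := by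
    intro u v w
    have e1 : HasFDerivAt (fun z => g z u v) (⟪u, v⟫ • (deriv Λ (‖z‖ ^ 2) • ((2 : ℝ) • innerSL ℝ z))) z := by
      have := (rad_fd hd).mul_const ⟪u, v⟫
      refine this.congr_of_eventuallyEq ?_
      filter_upwards [hg] with y hy using hy u v
    unfold der
    rw [e1.fderiv]
    simp
    ring
  unfold koszul
  rw [key, key, key, hgz]
  unfold rad_Ga
  simp only [inner_smul_left, inner_sub_left, inner_add_left, conj_trivial]
  field_simp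

lemma rad_planar (x a b : W) :
    ⟪x, a⟫ ^ 2 * ⟪b, b⟫ + ⟪x, b⟫ ^ 2 * ⟪a, a⟫ - 2 * ⟪x, a⟫ * ⟪x, b⟫ * ⟪a, b⟫ =
      ⟪x, x⟫ * (⟪a, a⟫ * ⟪b, b⟫ - ⟪a, b⟫ ^ 2) := by
  simp only [EuclideanSpace.inner_eq_star_dotProduct, dotProduct, Fin.sum_univ_two]
  simp
  ring

lemma rad_gram {a b : W} (h : LinearIndependent ℝ ![a, b]) :
    0 < ⟪a, a⟫ * ⟪b, b⟫ - ⟪a, b⟫ ^ 2 := by
  have ha : a ≠ 0 := by simpa using h.ne_zero 0
  have haa : 0 < ⟪a, a⟫ := real_inner_self_pos.2 ha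
  have hne : ⟪a, a⟫ • b - ⟪a, b⟫ • a ≠ 0 := by
    intro h0
    rw [LinearIndependent.pair_iff] at h
    have := h (-⟪a, b⟫) ⟪a, a⟫ (by rw [← h0]; module)
    exact haa.ne' this.2
  have hp := real_inner_self_pos.2 hne
  have : ⟪⟪a, a⟫ • b - ⟪a, b⟫ • a, ⟪a, a⟫ • b - ⟪a, b⟫ • a⟫ =
      ⟪a, a⟫ * (⟪a, a⟫ * ⟪b, b⟫ - ⟪a, b⟫ ^ 2) := by
    simp only [inner_smul_left, inner_sub_left, inner_smul_right, inner_sub_right, conj_trivial,
      real_inner_comm a b]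
    ring
  rw [this] at hp
  exact (mul_pos_iff_of_pos_left haa).1 hp

theorem t_RAD : S_RAD := by
  intro C g c Λ x hC hg hc hΛ hc0 hΛ0 h1 h2 h3 h4
  have hcont : Filter.Tendsto (fun z : W => ‖z‖ ^ 2) (𝓝 x) (𝓝 (‖x‖ ^ 2)) :=
    (continuous_norm.pow 2).continuousAt
  have evd := hcont.eventually (rad_ev_diff hΛ)
  have evp : ∀ᶠ z in 𝓝 x, Λ (‖z‖ ^ 2) ≠ 0 :=
    hcont.eventually ((hΛ.continuousAt).eventually_ne hΛ0.ne')
  have hdd := rad_deriv_diff hΛ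
  have hd : DifferentiableAt ℝ Λ (‖x‖ ^ 2) := (rad_ev_diff hΛ).self_of_nhds
  have hcd := rad_deriv_diff hc
  have hxx : ⟪x, x⟫ = ‖x‖ ^ 2 := real_inner_self_eq_norm_sq x
  have hlam : deriv (fun t => t * deriv Λ t / Λ t) (‖x‖ ^ 2) =
      deriv Λ (‖x‖ ^ 2) / Λ (‖x‖ ^ 2) +
        ‖x‖ ^ 2 * deriv (fun t => deriv Λ t / Λ t) (‖x‖ ^ 2) := by
    have e1 : DifferentiableAt ℝ (fun t => deriv Λ t / Λ t) (‖x‖ ^ 2) := hdd.div hd hΛ0.ne'
    have e2 := (hasDerivAt_id (‖x‖ ^ 2)).mul e1.hasDerivAt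
    have e3 : (fun t => t * deriv Λ t / Λ t) = (id * fun t => deriv Λ t / Λ t) := by
      funext t; simp [mul_div_assoc]
    rw [e3, e2.deriv]; simp
  rw [hlam] at h1
  refine ⟨by rw [hC.self_of_nhds]; exact hc0, rad_Ga Λ, fun a b => (rad_Ga_fd hd hdd hΛ0.ne' a b).1,
    ?_, ?_, ?_⟩
  · filter_upwards [hg.eventually_nhds, evd, evp] with z z1 z2 z3
    exact rad_chr z1 z2 z3
  · intro a b hab
    rw [hg.self_of_nhds]
    have hG := rad_gram hab
    have hpl := rad_planar x a b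
    have key : ⟪riem (rad_Ga Λ) x a b b, a⟫ =
        -2 * (deriv Λ (‖x‖ ^ 2) / Λ (‖x‖ ^ 2) +
          ‖x‖ ^ 2 * deriv (fun t => deriv Λ t / Λ t) (‖x‖ ^ 2)) *
          (⟪a, a⟫ * ⟪b, b⟫ - ⟪a, b⟫ ^ 2) := by
      unfold riem
      rw [(rad_Ga_fd hd hdd hΛ0.ne' b b).2, (rad_Ga_fd hd hdd hΛ0.ne' a b).2]
      unfold rad_Ga
      generalize deriv Λ (‖x‖ ^ 2) / Λ (‖x‖ ^ 2) = l
      generalize deriv (fun t => deriv Λ t / Λ t) (‖x‖ ^ 2) = l'
      rw [← hxx]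
      simp only [inner_smul_left, inner_sub_left, inner_add_left, inner_smul_right, inner_sub_right,
        inner_add_right, conj_trivial, real_inner_comm a b, real_inner_comm x a, real_inner_comm x b]
      linear_combination (-2 * l' + l ^ 2) * hpl
    rw [key]
    have : 0 < Λ (‖x‖ ^ 2) * (2 * (deriv Λ (‖x‖ ^ 2) / Λ (‖x‖ ^ 2) +
          ‖x‖ ^ 2 * deriv (fun t => deriv Λ t / Λ t) (‖x‖ ^ 2)) *
          (⟪a, a⟫ * ⟪b, b⟫ - ⟪a, b⟫ ^ 2)) := by positivity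
    linarith
  · intro a ha
    have hder : ∀ v, der C x v = deriv c (‖x‖ ^ 2) * (2 * ⟪x, v⟫) := by
      intro v
      have e1 : HasFDerivAt C (deriv c (‖x‖ ^ 2) • ((2 : ℝ) • innerSL ℝ x)) x :=
        (rad_fd (rad_ev_diff hc).self_of_nhds).congr_of_eventuallyEq hC
      unfold der
      rw [e1.fderiv]; simp
    have hline : Filter.Tendsto (fun t : ℝ => x + t • a) (𝓝 0) (𝓝 x) := by
      have : Continuous fun t : ℝ => x + t • a := by fun_prop
      have := this.tendsto 0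
      simpa using this
    have hline2 : Filter.Tendsto (fun t : ℝ => ‖x + t • a‖ ^ 2) (𝓝 0) (𝓝 (‖x‖ ^ 2)) :=
      hcont.comp hline
    have hu : ∀ t : ℝ, HasDerivAt (fun t : ℝ => ‖x + t • a‖ ^ 2) (2 * ⟪x, a⟫ + 2 * t * ⟪a, a⟫) t := by
      intro t
      have e : (fun t : ℝ => ‖x + t • a‖ ^ 2) = fun t : ℝ => ‖x‖ ^ 2 + 2 * t * ⟪x, a⟫ + t ^ 2 * ⟪a, a⟫ := by
        funext t
        rw [← real_inner_self_eq_norm_sq, ← real_inner_self_eq_norm_sq]
        simp only [inner_smul_left, inner_add_left, inner_smul_right,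
          inner_add_right, conj_trivial, real_inner_comm x a]
        ring
      rw [e]
      have h0 : HasDerivAt (fun t : ℝ => t) 1 t := hasDerivAt_id' t
      have h1 := ((h0.const_mul 2).mul_const ⟪x, a⟫).const_add (‖x‖ ^ 2)
      have h2 := (h0.pow 2).mul_const ⟪a, a⟫
      exact (h1.add h2).congr_deriv (by push_cast; ring)
    have hdd2 : dd C x a = deriv (deriv c) (‖x‖ ^ 2) * (2 * ⟪x, a⟫) ^ 2 +
        deriv c (‖x‖ ^ 2) * (2 * ⟪a, a⟫) := by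
      unfold dd
      have e1 : (deriv fun t : ℝ => C (x + t • a)) =ᶠ[𝓝 0]
          fun t => deriv c (‖x + t • a‖ ^ 2) * (2 * ⟪x, a⟫ + 2 * t * ⟪a, a⟫) := by
        have q1 := hline.eventually hC.eventually_nhds
        have q2 := hline2.eventually (rad_ev_diff hc)
        filter_upwards [q1, q2] with t t1 t2
        have e2 : (fun t : ℝ => C (x + t • a)) =ᶠ[𝓝 t] fun t => c (‖x + t • a‖ ^ 2) := by
          have cc : ContinuousAt (fun t : ℝ => x + t • a) t := by fun_prop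
          exact cc.eventually t1
        rw [e2.deriv_eq]
        exact (t2.hasDerivAt.comp t (hu t)).deriv
      rw [e1.deriv_eq]
      have r1 : HasDerivAt (fun t : ℝ => deriv c (‖x + t • a‖ ^ 2))
          (deriv (deriv c) (‖x‖ ^ 2) * (2 * ⟪x, a⟫)) 0 := by
        have e3 := hu 0
        have e4 : HasDerivAt (deriv c) (deriv (deriv c) (‖x‖ ^ 2)) (‖x + (0:ℝ) • a‖ ^ 2) := by
          simpa using hcd.hasDerivAt
        have e5 : HasDerivAt (fun t : ℝ => deriv c (‖x + t • a‖ ^ 2))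
          (deriv (deriv c) (‖x‖ ^ 2) * (2 * ⟪x, a⟫ + 2 * 0 * ⟪a, a⟫)) 0 :=
          HasDerivAt.comp (h := fun t : ℝ => ‖x + t • a‖ ^ 2) (h₂ := deriv c) (0:ℝ) e4 e3
        exact e5.congr_deriv (by ring)
      have r2 : HasDerivAt (fun t : ℝ => 2 * ⟪x, a⟫ + 2 * t * ⟪a, a⟫) (2 * ⟪a, a⟫) 0 := by
        have := (((hasDerivAt_id (0:ℝ)).const_mul 2).mul_const ⟪a, a⟫).const_add (2 * ⟪x, a⟫)
        simpa using this
      have r3 := r1.mul r2
      have r4 := r3.deriv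
      refine Eq.trans ?_ (r4.trans ?_)
      · rfl
      · simp; ring
    rw [hdd2, hder]
    have hin : ⟪x, rad_Ga Λ x a a⟫ = (deriv Λ (‖x‖ ^ 2) / Λ (‖x‖ ^ 2)) *
        (2 * ⟪x, a⟫ ^ 2 - ⟪a, a⟫ * ‖x‖ ^ 2) := by
      unfold rad_Ga
      rw [← hxx]
      simp only [inner_smul_right, inner_sub_right, inner_add_right]
      ring
    rw [hin]
    have haa : 0 < ⟪a, a⟫ := real_inner_self_pos.2 ha
    have hcs : ⟪x, a⟫ ^ 2 ≤ ‖x‖ ^ 2 * ⟪a, a⟫ := by
      have := real_inner_mul_inner_self_le x a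
      rw [hxx] at this; nlinarith [this]
    rw [mul_div_assoc] at h3 h4
    generalize deriv Λ (‖x‖ ^ 2) / Λ (‖x‖ ^ 2) = l at *
    generalize deriv (deriv c) (‖x‖ ^ 2) = c2 at *
    generalize deriv c (‖x‖ ^ 2) = c1 at *
    generalize ⟪x, a⟫ = p at *
    generalize ⟪a, a⟫ = q at *
    rcases (sq_nonneg ‖x‖).eq_or_lt with ht | ht
    · rw [← ht] at hcs ⊢
      have hp : p ^ 2 ≤ 0 := by linarith
      have hp0 : p = 0 := by
        have := sq_nonneg p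
        exact pow_eq_zero_iff (two_ne_zero) |>.1 (le_antisymm hp this)
      rw [hp0]; simp; positivity
    · generalize ‖x‖ ^ 2 = t at *
      have hpos : 0 < t * (c2 * (2 * p) ^ 2 + c1 * (2 * q) - c1 * (2 * (l * (2 * p ^ 2 - q * t)))) := by
        have e : t * (c2 * (2 * p) ^ 2 + c1 * (2 * q) - c1 * (2 * (l * (2 * p ^ 2 - q * t)))) =
            2 * c1 * (1 + t * l) * (t * q - p ^ 2) + 2 * p ^ 2 * (c1 + 2 * t * c2 - t * l * c1) := by
          ring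
        rw [e]
        have n1 : 0 ≤ 2 * c1 * (1 + t * l) * (t * q - p ^ 2) := by
          have : 0 ≤ t * q - p ^ 2 := by linarith
          positivity
        rcases (sq_nonneg p).eq_or_lt with hp | hp
        · rw [← hp]
          have : 0 < t * q := by positivity
          simp only [sub_zero, mul_zero, zero_mul, add_zero]
          positivity
        · have : 0 < 2 * p ^ 2 * (c1 + 2 * t * c2 - t * l * c1) := by positivity
          linarith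
      exact (mul_pos_iff_of_pos_left ht).1 hpos

end Pool.Agent.Helper473.LY
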