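import Pool.Agent.Helper473.LY.Stmts
import Pool.Agent.Helper87.CMC.MPI

set_option autoImplicit false

open scoped Manifold ContDiff Topology RealInnerProductSpace
open Module

namespace Pool.Agent.Helper473.LY

open Pool.Agent.H234R3

lemma sm_A_pos {n : ℕ} {ε y : ℝ} (hn : 1 ≤ n) (hε : 0 ≤ ε) (hy : 0 ≤ y) (h : 0 < ε + y) :
    0 < Af n ε y := by
  have hn' : (1 : ℝ) ≤ n := by exact_mod_cast hn
  unfold Af
  rcases hy.eq_or_lt with h0 | h0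
  · subst h0
    have hε' : 0 < ε := by linarith
    have : 0 < 4 * (n : ℝ) * (1 + 2 * 0) * ε ^ 2 := by positivity
    linarith
  · have h1 : 0 < 4 * y * (ε + y) * (1 + y) := by positivity
    have h2 : 0 ≤ 4 * (n : ℝ) * (1 + 2 * y) * ε ^ 2 := by positivity
    linarith

lemma sm_B_pos {n : ℕ} {ε y : ℝ} (hn : 1 ≤ n) (hε : 0 ≤ ε) (hy : 0 ≤ y) (h : 0 < ε + y) :
    0 < Bf n ε y := by
  have hA := sm_A_pos hn hε hy h
  unfold Bf
  have h2 : 0 ≤ 4 * (n : ℝ) * (1 + 2 * y) * (4 * y * (ε + y)) := by positivity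
  linarith

/-- the region where both denominators are positive -/
def sm_D (n : ℕ) : Set (ℝ × ℝ) := {q | 0 < Af n q.1 q.2 ∧ 0 < Bf n q.1 q.2}

lemma sm_Af_smooth (n : ℕ) : ContDiff ℝ ∞ (fun q : ℝ × ℝ => Af n q.1 q.2) := by
  unfold Af; fun_prop

lemma sm_Bf_smooth (n : ℕ) : ContDiff ℝ ∞ (fun q : ℝ × ℝ => Bf n q.1 q.2) := by
  unfold Bf Af; fun_prop

lemma sm_Nf_smooth (n : ℕ) : ContDiff ℝ ∞ (fun q : ℝ × ℝ => Nf n q.1 q.2) := by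
  unfold Nf; fun_prop

lemma sm_D_open (n : ℕ) : IsOpen (sm_D n) :=
  (isOpen_lt continuous_const (sm_Af_smooth n).continuous).inter
    (isOpen_lt continuous_const (sm_Bf_smooth n).continuous)

lemma sm_M_on (n : ℕ) : ContDiffOn ℝ ∞ (fun q : ℝ × ℝ => Mf n q.1 q.2) (sm_D n) := by
  intro q hq
  apply ContDiffAt.contDiffWithinAt
  unfold Mf
  apply ContDiffAt.div
  · exact contDiffAt_const.mul (sm_Nf_smooth n).contDiffAt
  · exact (sm_Af_smooth n).contDiffAt.mul (sm_Bf_smooth n).contDiffAt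
  · exact (mul_pos hq.1 hq.2).ne'

lemma sm_G_on (n : ℕ) : ContDiffOn ℝ ∞ (fun q : ℝ × ℝ => Gf n q.1 q.2) (sm_D n) := by
  intro q hq
  apply ContDiffAt.contDiffWithinAt
  unfold Gf
  apply ContDiffAt.div
  · fun_prop
  · exact (sm_Bf_smooth n).contDiffAt
  · exact hq.2.ne'

lemma sm_int {D : Set (ℝ × ℝ)} (hD : IsOpen D) (h : ℝ × ℝ → ℝ) (hh : ContDiffOn ℝ ∞ h D)
    {ε y : ℝ} (hseg : ∀ t ∈ Set.uIcc 1 y, (ε, t) ∈ D) :
    ContDiffAt ℝ ∞ (fun q : ℝ × ℝ => ∫ t in (1:ℝ)..q.2, h (q.1, t)) (ε, y) := by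
  have hrw : (fun q : ℝ × ℝ => ∫ t in (1:ℝ)..q.2, h (q.1, t)) =
      fun q : ℝ × ℝ => (q.2 - 1) * ∫ τ in (0:ℝ)..1, h (q.1, (q.2 - 1) * τ + 1) := by
    funext q
    have := intervalIntegral.mul_integral_comp_mul_add (a := (0:ℝ)) (b := 1)
      (f := fun t => h (q.1, t)) (q.2 - 1) 1
    rw [this]
    congr 1 <;> ring
  rw [hrw]
  set Φ : ℝ × (ℝ × ℝ) → ℝ × ℝ := fun p => (p.2.1, (p.2.2 - 1) * p.1 + 1) with hΦ
  have hΦc : ContDiff ℝ ∞ Φ := by rw [hΦ]; fun_prop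
  set Wd : Set (ℝ × (ℝ × ℝ)) := Φ ⁻¹' D with hWd
  have hWo : IsOpen Wd := hD.preimage hΦc.continuous
  have hK : ∀ᶠ q in 𝓝 ((ε, y) : ℝ × ℝ), ∀ τ ∈ Set.Icc (0:ℝ) 1, (τ, q) ∈ Wd := by
    apply isCompact_Icc.eventually_forall_of_forall_eventually
    intro τ hτ
    have hmem : (τ, ((ε, y) : ℝ × ℝ)) ∈ Wd := by
      show Φ (τ, (ε, y)) ∈ D
      apply hseg
      show (y - 1) * τ + 1 ∈ Set.uIcc 1 y
      rw [Set.mem_uIcc]
      rcases le_total 1 y with h1 | h1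
      · left
        constructor
        · nlinarith [hτ.1, hτ.2, mul_nonneg (sub_nonneg.mpr h1) hτ.1]
        · nlinarith [hτ.1, hτ.2, mul_nonneg (sub_nonneg.mpr h1) (sub_nonneg.mpr hτ.2)]
      · right
        constructor
        · nlinarith [hτ.1, hτ.2, mul_nonneg (sub_nonneg.mpr h1) (sub_nonneg.mpr hτ.2)]
        · nlinarith [hτ.1, hτ.2, mul_nonneg (sub_nonneg.mpr h1) hτ.1]
    have hcont : Continuous fun z : (ℝ × ℝ) × ℝ => (z.2, z.1) := by fun_prop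
    exact (hWo.preimage hcont).mem_nhds hmem
  obtain ⟨U, hUs, hUo, hUm⟩ := eventually_nhds_iff.1 hK
  have hsm := Pool.Agent.Helper87.CMC.contDiffOn_paramInt01 hWo hUo
    (fun q hq τ hτ => hUs q hq τ hτ) (fun p => h (Φ p)) (by
      exact hh.comp hΦc.contDiffOn (fun p hp => hp))
  have h2 : ContDiffAt ℝ ∞ (fun q : ℝ × ℝ => ∫ τ in (0:ℝ)..1, h (Φ (τ, q))) (ε, y) :=
    hsm.contDiffAt (hUo.mem_nhds hUm)
  have h3 : ContDiffAt ℝ ∞ (fun q : ℝ × ℝ => q.2 - 1) (ε, y) := by fun_prop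
  exact h3.mul h2

lemma sm_hasDeriv {D : Set (ℝ × ℝ)} (hD : IsOpen D) (h : ℝ × ℝ → ℝ) (hh : ContinuousOn h D)
    {ε y : ℝ} (hseg : ∀ t ∈ Set.uIcc 1 y, (ε, t) ∈ D) :
    HasDerivAt (fun z : ℝ => ∫ t in (1:ℝ)..z, h (ε, t)) (h (ε, y)) y := by
  set S : Set ℝ := {t | (ε, t) ∈ D} with hS
  have hSo : IsOpen S := hD.preimage (by fun_prop : Continuous fun t : ℝ => ((ε, t) : ℝ × ℝ))
  have hc : ContinuousOn (fun t => h (ε, t)) S :=
    hh.comp (by fun_prop : Continuous fun t : ℝ => ((ε, t) : ℝ × ℝ)).continuousOn (fun t ht => ht)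
  have hyS : y ∈ S := hseg y Set.right_mem_uIcc
  apply intervalIntegral.integral_hasDerivAt_right
  · exact (hc.mono (fun t ht => hseg t ht)).intervalIntegrable
  · exact hc.stronglyMeasurableAtFilter hSo y hyS
  · exact hc.continuousAt (hSo.mem_nhds hyS)

lemma sm_seg {n : ℕ} {ε y : ℝ} (hn : 1 ≤ n) (hε : 0 ≤ ε) (hy : 0 ≤ y) (h : 0 < ε + y) :
    ∀ t ∈ Set.uIcc 1 y, (ε, t) ∈ sm_D n := by
  intro t ht
  have h1 : 0 ≤ t ∧ 0 < ε + t := by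
    rw [Set.mem_uIcc] at ht
    rcases ht with ht | ht
    · constructor <;> linarith [ht.1]
    · constructor <;> linarith [ht.1]
  exact ⟨sm_A_pos hn hε h1.1 h1.2, sm_B_pos hn hε h1.1 h1.2⟩

theorem t_SM : S_SM := by
  intro n ε y hn hε hy h
  have hmem : ((ε, y) : ℝ × ℝ) ∈ sm_D n := ⟨sm_A_pos hn hε hy h, sm_B_pos hn hε hy h⟩
  have hnh := (sm_D_open n).mem_nhds hmem
  have hseg := sm_seg hn hε hy h
  have hM2 : ContDiffOn ℝ ∞ (fun q : ℝ × ℝ => Mf n q.1 q.2 / 2) (sm_D n) :=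
    (sm_M_on n).div_const 2
  have hG2 : ContDiffOn ℝ ∞ (fun q : ℝ × ℝ => Gf n q.1 q.2 / 2) (sm_D n) :=
    (sm_G_on n).div_const 2
  have hI : ContDiffAt ℝ ∞ (fun q : ℝ × ℝ => ∫ t in (1:ℝ)..q.2, Gf n q.1 t / 2) (ε, y) :=
    sm_int (sm_D_open n) (fun q : ℝ × ℝ => Gf n q.1 q.2 / 2) hG2 hseg
  have hz : ∀ s : ℝ, ContDiffAt ℝ ∞ (fun q : ℝ × ℝ × ℝ => zh n q.1 q.2.1 q.2.2) (ε, s, y) := by
    intro s
    unfold zh
    have hpr : ContDiffAt ℝ ∞ (fun q : ℝ × ℝ × ℝ => ((q.1, q.2.2) : ℝ × ℝ)) (ε, s, y) := by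
      fun_prop
    have hcomp : ContDiffAt ℝ ∞
        (fun q : ℝ × ℝ × ℝ => ∫ t in (1:ℝ)..q.2.2, Gf n q.1 t / 2) (ε, s, y) :=
      ContDiffAt.comp (ε, s, y)
        (g := fun q : ℝ × ℝ => ∫ t in (1:ℝ)..q.2, Gf n q.1 t / 2)
        (f := fun q : ℝ × ℝ × ℝ => ((q.1, q.2.2) : ℝ × ℝ)) hI hpr
    have hs : ContDiffAt ℝ ∞ (fun q : ℝ × ℝ × ℝ => q.2.1) (ε, s, y) := by fun_prop
    exact hs.mul hcomp.exp
  refine ⟨(sm_M_on n).contDiffAt hnh, (sm_G_on n).contDiffAt hnh,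
    sm_int (sm_D_open n) (fun q : ℝ × ℝ => Mf n q.1 q.2 / 2) hM2 hseg, hz 0, hz, ?_, ?_⟩
  · exact (sm_hasDeriv (sm_D_open n) (fun q : ℝ × ℝ => Mf n q.1 q.2 / 2)
      hM2.continuousOn hseg).deriv
  · intro s
    have h1 := sm_hasDeriv (sm_D_open n) (fun q : ℝ × ℝ => Gf n q.1 q.2 / 2)
      hG2.continuousOn hseg
    have h2 := (h1.exp.const_mul s).deriv
    have h3 : zh n ε s = fun z => s * Real.exp (∫ t in (1:ℝ)..z, Gf n ε t / 2) := rfl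
    rw [h3]
    refine h2.trans ?_
    simp only
    ring

end Pool.Agent.Helper473.LY
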