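import Pool.Agent.Helper473.LY.Stmts

set_option autoImplicit false

open scoped Manifold ContDiff Topology RealInnerProductSpace
open Module

namespace Pool.Agent.Helper473.LY

open Pool.Agent.H234R3

section Hyp

variable {X : Type*} [NormedAddCommGroup X] [InnerProductSpace ℝ X]

theorem ten_w_pos (z : X) : 0 < 1 + ‖z‖ ^ 2 := by positivity

theorem ten_diff_hyp (b c : X) : Differentiable ℝ (fun z : X => hyp z b c) := by
  have h1 : ∀ b : X, Differentiable ℝ (fun z : X => ⟪z, b⟫) := fun b =>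
    differentiable_id.inner ℝ (differentiable_const b)
  have h2 : Differentiable ℝ (fun z : X => (1 + ‖z‖ ^ 2)⁻¹) := by
    refine Differentiable.fun_inv ?_ (fun z => (ten_w_pos z).ne')
    exact (differentiable_const _).add (differentiable_id.norm_sq ℝ)
  have he : (fun z : X => hyp z b c) = fun z : X => ⟪b, c⟫ - ⟪z, b⟫ * ⟪z, c⟫ * (1 + ‖z‖ ^ 2)⁻¹ := by
    ext z
    unfold hyp
    rw [div_eq_mul_inv]
  rw [he]
  exact (differentiable_const _).sub (((h1 b).mul (h1 c)).mul h2)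

theorem ten_der_hyp (ζ a b c : X) : der (fun z : X => hyp z b c) ζ a =
    -(⟪a, b⟫ * ⟪ζ, c⟫ + ⟪ζ, b⟫ * ⟪a, c⟫) / (1 + ‖ζ‖ ^ 2)
      + ⟪ζ, b⟫ * ⟪ζ, c⟫ * (2 * ⟪ζ, a⟫) / (1 + ‖ζ‖ ^ 2) ^ 2 := by
  unfold der
  have hl : HasDerivAt (fun t : ℝ => ζ + t • a) a 0 := by
    have := ((hasDerivAt_id (0 : ℝ)).smul_const a).const_add ζ
    simpa using this
  have hd : HasFDerivAt (fun z : X => hyp z b c) (fderiv ℝ (fun z : X => hyp z b c) ζ)
      (ζ + (0 : ℝ) • a) := by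
    rw [zero_smul, add_zero]
    exact (ten_diff_hyp b c ζ).hasFDerivAt
  have h1 := hd.comp_hasDerivAt (0 : ℝ) hl
  have hi : ∀ u : X, HasDerivAt (fun t : ℝ => ⟪ζ, u⟫ + t * ⟪a, u⟫) ⟪a, u⟫ 0 := by
    intro u
    have := ((hasDerivAt_id (0 : ℝ)).mul_const ⟪a, u⟫).const_add ⟪ζ, u⟫
    simpa using this
  have hn : HasDerivAt (fun t : ℝ => 1 + (‖ζ‖ ^ 2 + 2 * (t * ⟪ζ, a⟫) + t ^ 2 * ‖a‖ ^ 2))
      (2 * ⟪ζ, a⟫) 0 := by
    have e1 := (((hasDerivAt_id (0 : ℝ)).mul_const ⟪ζ, a⟫).const_mul 2).const_add (‖ζ‖ ^ 2)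
    have e2 := ((hasDerivAt_pow 2 (0 : ℝ)).mul_const (‖a‖ ^ 2))
    have e3 := (e1.add e2).const_add 1
    refine e3.congr_deriv ?_
    simp
  have hw : (1 + (‖ζ‖ ^ 2 + 2 * ((0 : ℝ) * ⟪ζ, a⟫) + (0 : ℝ) ^ 2 * ‖a‖ ^ 2)) ≠ 0 := by
    have := ten_w_pos ζ
    norm_num
    exact this.ne'
  have h2 := ((((hi b).mul (hi c)).div hn hw).const_sub ⟪b, c⟫)
  have he : (fun t : ℝ => hyp (ζ + t • a) b c) = fun t : ℝ => ⟪b, c⟫ -
      (⟪ζ, b⟫ + t * ⟪a, b⟫) * (⟪ζ, c⟫ + t * ⟪a, c⟫) /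
        (1 + (‖ζ‖ ^ 2 + 2 * (t * ⟪ζ, a⟫) + t ^ 2 * ‖a‖ ^ 2)) := by
    ext t
    unfold hyp
    rw [inner_add_left, inner_add_left, real_inner_smul_left, real_inner_smul_left,
      norm_add_sq_real, real_inner_smul_right, norm_smul, mul_pow, Real.norm_eq_abs, sq_abs]
  have h3 : HasDerivAt (fun t : ℝ => hyp (ζ + t • a) b c)
      (fderiv ℝ (fun z : X => hyp z b c) ζ a) 0 := h1
  rw [he] at h3
  have := h3.unique h2
  rw [this]
  have hw' := (ten_w_pos ζ).ne'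
  simp only [zero_mul, mul_zero, add_zero]
  norm_num
  field_simp
  ring

theorem ten_chr_hyp (ζ : X) : IsChristoffel (hyp (X := X)) ζ (fun a b => -(hyp ζ a b) • ζ) := by
  intro a b c
  unfold koszul
  rw [ten_der_hyp, ten_der_hyp, ten_der_hyp]
  have hw := (ten_w_pos ζ).ne'
  unfold hyp
  rw [real_inner_smul_left, real_inner_smul_right, real_inner_self_eq_norm_sq,
    real_inner_comm b a, real_inner_comm c a, real_inner_comm c b]
  field_simp
  ring

theorem ten_hyp_add (ζ a a' b : X) : hyp ζ (a + a') b = hyp ζ a b + hyp ζ a' b := by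
  unfold hyp
  rw [inner_add_left, inner_add_right]
  ring

theorem ten_hyp_smul (ζ a b : X) (k : ℝ) : hyp ζ (k • a) b = k * hyp ζ a b := by
  unfold hyp
  rw [real_inner_smul_left, real_inner_smul_right]
  ring

theorem ten_hyp_symm (ζ a b : X) : hyp ζ a b = hyp ζ b a := by
  unfold hyp
  rw [real_inner_comm]
  ring

theorem ten_hyp_zero (ζ b : X) : hyp ζ 0 b = 0 := by
  unfold hyp
  simp

/-- the frame -/
noncomputable def ten_E (ζ a : X) : X := a + (⟪ζ, a⟫ / (1 + √(1 + ‖ζ‖ ^ 2))) • ζ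

theorem ten_E_hyp (ζ a b : X) : hyp ζ (ten_E ζ a) (ten_E ζ b) = ⟪a, b⟫ := by
  have hw := ten_w_pos ζ
  have hs : √(1 + ‖ζ‖ ^ 2) ^ 2 = 1 + ‖ζ‖ ^ 2 := Real.sq_sqrt hw.le
  have hs0 : 0 < √(1 + ‖ζ‖ ^ 2) := Real.sqrt_pos.2 hw
  unfold hyp ten_E
  generalize √(1 + ‖ζ‖ ^ 2) = w at hs hs0 ⊢
  have hn : ‖ζ‖ ^ 2 = w ^ 2 - 1 := by linarith
  rw [inner_add_left, inner_add_right, inner_add_right, inner_add_right, inner_add_right,
    real_inner_smul_left, real_inner_smul_left, real_inner_smul_right, real_inner_smul_right,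
    real_inner_smul_right, real_inner_self_eq_norm_sq, real_inner_comm ζ a,
    hn]
  have h1 : (1 + w) ≠ 0 := by positivity
  have h2 : (1 + (w ^ 2 - 1)) ≠ 0 := by
    have : 0 < w ^ 2 := by positivity
    intro h; linarith
  field_simp
  ring

end Hyp

theorem ten_der_blk {d : ℕ} (C : W → ℝ) (g2 : W → W → W → ℝ) (p : P d)
    (hC : DifferentiableAt ℝ C p.2) (hg : ∀ u v, DifferentiableAt ℝ (fun z => g2 z u v) p.2)
    (a b c : P d) :
    der (fun z => blk (d := d) C g2 z b c) p a =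
      2 * C p.2 * fderiv ℝ C p.2 a.2 * hyp p.1 b.1 c.1
        + C p.2 ^ 2 * der (fun z => hyp z b.1 c.1) p.1 a.1
        + der (fun z => g2 z b.2 c.2) p.2 a.2 := by
  have h1 : HasFDerivAt (fun z : P d => C z.2)
      ((fderiv ℝ C p.2).comp (ContinuousLinearMap.snd ℝ (V d) W)) p :=
    hC.hasFDerivAt.comp p hasFDerivAt_snd
  have h2 : HasFDerivAt (fun z : P d => hyp z.1 b.1 c.1)
      ((fderiv ℝ (fun z : V d => hyp z b.1 c.1) p.1).comp (ContinuousLinearMap.fst ℝ (V d) W)) p :=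
    (ten_diff_hyp b.1 c.1 p.1).hasFDerivAt.comp p hasFDerivAt_fst
  have h3 : HasFDerivAt (fun z : P d => g2 z.2 b.2 c.2)
      ((fderiv ℝ (fun z : W => g2 z b.2 c.2) p.2).comp (ContinuousLinearMap.snd ℝ (V d) W)) p :=
    (hg b.2 c.2).hasFDerivAt.comp p hasFDerivAt_snd
  have h4 := ((h1.mul h1).mul h2).add h3
  have he : (fun z => blk (d := d) C g2 z b c) =
      ((fun z : P d => C z.2) * (fun z : P d => C z.2)) * (fun z : P d => hyp z.1 b.1 c.1)
        + (fun z : P d => g2 z.2 b.2 c.2) := by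
    ext z
    simp only [blk, Pi.add_apply, Pi.mul_apply]
    ring
  unfold der
  rw [he, h4.fderiv]
  simp only [ContinuousLinearMap.add_apply, ContinuousLinearMap.smul_apply,
    ContinuousLinearMap.comp_apply, ContinuousLinearMap.coe_fst', ContinuousLinearMap.coe_snd',
    smul_eq_mul, Pi.mul_apply]
  ring

/-- the Christoffel symbols of the block metric -/
noncomputable def ten_G {d : ℕ} (C : W → ℝ) (p : P d) (Γ : W → W → W) (G : W) (a b : P d) : P d :=
  (-(hyp p.1 a.1 b.1) • p.1 + ((C p.2)⁻¹ * fderiv ℝ C p.2 a.2) • b.1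
    + ((C p.2)⁻¹ * fderiv ℝ C p.2 b.2) • a.1, Γ a.2 b.2 + (-(C p.2 * hyp p.1 a.1 b.1)) • G)

theorem ten_chr_blk {d : ℕ} (C : W → ℝ) (g2 : W → W → W → ℝ) (U : Set W) (p : P d)
    (Γ : W → W → W) (G : W) (hU : IsOpen U) (hp : p.2 ∈ U) (hg : IsMet g2 U)
    (hC : ContDiffOn ℝ ∞ C U) (hC0 : ∀ x ∈ U, 0 < C x) (hΓ : IsChristoffel g2 p.2 Γ)
    (hG : ∀ a, g2 p.2 G a = fderiv ℝ C p.2 a) :
    IsChristoffel (blk (d := d) C g2) p (ten_G C p Γ G) := by
  have hn : U ∈ 𝓝 p.2 := hU.mem_nhds hp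
  have h1 : DifferentiableAt ℝ C p.2 := (hC.contDiffAt hn).differentiableAt (by simp)
  have h2 : ∀ u v, DifferentiableAt ℝ (fun z => g2 z u v) p.2 := fun u v =>
    ((hg.smooth u v).contDiffAt hn).differentiableAt (by simp)
  have hC1 : C p.2 ≠ 0 := (hC0 _ hp).ne'
  intro a b c
  have k1 := ten_chr_hyp p.1 a.1 b.1 c.1
  have k2 := hΓ a.2 b.2 c.2
  unfold koszul at k1 k2 ⊢
  rw [ten_der_blk C g2 p h1 h2, ten_der_blk C g2 p h1 h2, ten_der_blk C g2 p h1 h2]
  rw [ten_hyp_smul] at k1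
  unfold blk ten_G
  simp only
  rw [ten_hyp_add, ten_hyp_add, ten_hyp_smul, ten_hyp_smul, ten_hyp_smul, hg.add, hg.smul, hG, k2]
  field_simp
  linear_combination (2 * C p.2 ^ 2) * k1

theorem ten_gamma_zero {E : Type*} [NormedAddCommGroup E] [NormedSpace ℝ E]
    (g : E → E → E → ℝ) (U : Set E) (y : E) (Γ : E → E → E) (hy : y ∈ U) (hg : IsMet g U)
    (hΓ : IsChristoffel g y Γ) : Γ 0 0 = 0 := by
  by_contra h
  have h1 := hg.pos y hy _ h
  rw [hΓ] at h1
  have h0 : ∀ z v, g z 0 v = 0 := by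
    intro z v
    have := hg.smul z 0 0 v
    simpa using this
  unfold koszul der at h1
  simp [h0] at h1

theorem ten_der_U {d : ℕ} (Y : W → W) (p : P d) (hY : DifferentiableAt ℝ Y p.2) (a : P d) :
    der (fun q : P d => (q.1, Y q.2)) p a = (a.1, fderiv ℝ Y p.2 a.2) := by
  have h1 : HasFDerivAt (fun z : P d => Y z.2)
      ((fderiv ℝ Y p.2).comp (ContinuousLinearMap.snd ℝ (V d) W)) p :=
    hY.hasFDerivAt.comp p hasFDerivAt_snd
  have h2 : HasFDerivAt (fun z : P d => z.1) (ContinuousLinearMap.fst ℝ (V d) W) p :=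
    hasFDerivAt_fst
  have h3 := h2.prodMk h1
  unfold der
  rw [h3.fderiv]
  rfl

theorem ten_dd_U {d : ℕ} (Y : W → W) (p : P d) (hY : ContDiffAt ℝ ∞ Y p.2) (a : P d) :
    dd (fun q : P d => (q.1, Y q.2)) p a = (0, dd Y p.2 a.2) := by
  unfold dd
  have hl : ∀ t : ℝ, HasDerivAt (fun t : ℝ => p.2 + t • a.2) a.2 t := by
    intro t
    have := ((hasDerivAt_id t).smul_const a.2).const_add p.2
    simpa using this
  have hl1 : ∀ t : ℝ, HasDerivAt (fun t : ℝ => p.1 + t • a.1) a.1 t := by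
    intro t
    have := ((hasDerivAt_id t).smul_const a.1).const_add p.1
    simpa using this
  have hev : ∀ᶠ z in 𝓝 p.2, DifferentiableAt ℝ Y z := by
    have h1 : ContDiffAt ℝ 1 Y p.2 := hY.of_le (by simp)
    have h2 := h1.eventually (by decide)
    filter_upwards [h2] with z hz
    exact hz.differentiableAt (by simp)
  have hct : Filter.Tendsto (fun t : ℝ => p.2 + t • a.2) (𝓝 0) (𝓝 p.2) := by
    have := (hl 0).continuousAt.tendsto
    simpa using this
  have hev2 : ∀ᶠ t in 𝓝 (0 : ℝ), DifferentiableAt ℝ Y (p.2 + t • a.2) := hct.eventually hev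
  have hd1 : ∀ᶠ t in 𝓝 (0 : ℝ), deriv (fun t : ℝ => Y (p.2 + t • a.2)) t =
      fderiv ℝ Y (p.2 + t • a.2) a.2 := by
    filter_upwards [hev2] with t ht
    exact (ht.hasFDerivAt.comp_hasDerivAt t (hl t)).deriv
  have hd2 : ∀ᶠ t in 𝓝 (0 : ℝ), deriv (fun t : ℝ => (p.1 + t • a.1, Y (p.2 + t • a.2))) t =
      (a.1, deriv (fun t : ℝ => Y (p.2 + t • a.2)) t) := by
    filter_upwards [hev2] with t ht
    have h1 := (ht.hasFDerivAt.comp_hasDerivAt t (hl t)).differentiableAt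
    exact ((hl1 t).prodMk h1.hasDerivAt).deriv
  have h3 : DifferentiableAt ℝ (fun z => fderiv ℝ Y z) p.2 := by
    have h2 : ContDiffAt ℝ 2 Y p.2 :=
      contDiffAt_infty.1 hY 2
    have := h2.fderiv_right (m := 1) (by norm_num)
    exact this.differentiableAt (by simp)
  have h4 : DifferentiableAt ℝ (fun t : ℝ => fderiv ℝ Y (p.2 + t • a.2) a.2) 0 := by
    have h5 : DifferentiableAt ℝ (fun z => fderiv ℝ Y z) (p.2 + (0:ℝ) • a.2) := by
      simpa using h3
    have h6 : DifferentiableAt ℝ (fun t : ℝ => fderiv ℝ Y (p.2 + t • a.2)) 0 :=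
      h5.comp (0 : ℝ) (hl 0).differentiableAt
    exact h6.clm_apply (differentiableAt_const _)
  have h7 : DifferentiableAt ℝ (deriv (fun t : ℝ => Y (p.2 + t • a.2))) 0 :=
    h4.congr_of_eventuallyEq hd1
  have h8 : deriv (deriv fun t : ℝ => ((p + t • a).1, Y (p + t • a).2)) 0 =
      deriv (fun t : ℝ => (a.1, deriv (fun t : ℝ => Y (p.2 + t • a.2)) t)) 0 := by
    apply Filter.EventuallyEq.deriv_eq
    exact hd2
  rw [h8]
  exact ((hasDerivAt_const (0 : ℝ) a.1).prodMk h7.hasDerivAt).deriv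

theorem ten_blk_zero {d : ℕ} (C : W → ℝ) (g2 : W → W → W → ℝ) (U : Set W) (hg : IsMet g2 U)
    (p v : P d) : blk (d := d) C g2 p 0 v = 0 := by
  unfold blk
  have h0 : g2 p.2 0 v.2 = 0 := by
    have := hg.smul p.2 0 0 v.2
    simpa using this
  rw [Prod.fst_zero, Prod.snd_zero, ten_hyp_zero, h0]
  ring

theorem ten_nabla {d : ℕ} (C c : W → ℝ) (Y : W → W) (p : P d)
    (Γ Γ' : W → W → W) (G G' : W) (hY : ContDiffAt ℝ ∞ Y p.2) (a : P d) :
    nablaD (ten_G C p Γ G) (ten_G (d := d) c (p.1, Y p.2) Γ' G') (fun q => (q.1, Y q.2)) p a =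
      (-((2 * (C p.2)⁻¹ * fderiv ℝ C p.2 a.2) • a.1)
        + (2 * (c (Y p.2))⁻¹ * fderiv ℝ c (Y p.2) (fderiv ℝ Y p.2 a.2)) • a.1,
        nablaD Γ Γ' Y p.2 a.2 + (C p.2 * hyp p.1 a.1 a.1) • fderiv ℝ Y p.2 G
          - (c (Y p.2) * hyp p.1 a.1 a.1) • G') := by
  have h1 : DifferentiableAt ℝ Y p.2 := hY.differentiableAt (by simp)
  unfold nablaD
  rw [ten_dd_U Y p hY, ten_der_U Y p h1, ten_der_U Y p h1]
  unfold ten_G der
  ext1
  · simp only [Prod.fst_add, Prod.fst_sub, zero_sub]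
    module
  · simp only [Prod.snd_add, Prod.snd_sub, map_add, map_smul]
    module

/-- the orthonormal frame -/
noncomputable def ten_v {d : ℕ} (C : W → ℝ) (p : P d) (e : Basis (Fin 2) ℝ W) :
    Fin d ⊕ Fin 2 → P d
  | Sum.inl i => ((C p.2)⁻¹ • ten_E p.1 (EuclideanSpace.single i 1), 0)
  | Sum.inr j => (0, e j)

theorem ten_gram {d : ℕ} (C : W → ℝ) (g2 : W → W → W → ℝ) (U : Set W) (p : P d)
    (e : Basis (Fin 2) ℝ W) (hg : IsMet g2 U) (hC : 0 < C p.2)
    (he : ∀ i j, g2 p.2 (e i) (e j) = if i = j then 1 else 0) (i j : Fin d ⊕ Fin 2) :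
    blk (d := d) C g2 p (ten_v C p e i) (ten_v C p e j) = if i = j then 1 else 0 := by
  have h0 : ∀ v, g2 p.2 0 v = 0 := by
    intro v
    have := hg.smul p.2 0 0 v
    simpa using this
  have h0' : ∀ v, g2 p.2 v 0 = 0 := by
    intro v
    rw [hg.symm, h0]
  have hz : ∀ v : V d, hyp p.1 v 0 = 0 := by
    intro v
    rw [ten_hyp_symm, ten_hyp_zero]
  unfold blk
  rcases i with i | i <;> rcases j with j | j
  · simp only [ten_v, h0, add_zero, Sum.inl.injEq]
    rw [ten_hyp_smul, ten_hyp_symm, ten_hyp_smul, ten_E_hyp]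
    have h1 : ⟪(EuclideanSpace.single j 1 : V d), EuclideanSpace.single i 1⟫ =
        if i = j then 1 else 0 := by
      rw [EuclideanSpace.inner_single_left]
      simp [Pi.single_apply, eq_comm]
    rw [h1]
    have := hC.ne'
    field_simp
  · simp only [ten_v, h0, hz, add_zero, mul_zero]
    simp
  · simp only [ten_v, h0', ten_hyp_zero, add_zero, mul_zero]
    simp
  · simp only [ten_v, ten_hyp_zero, he, mul_zero, zero_add, Sum.inr.injEq]

theorem ten_li {d : ℕ} (C : W → ℝ) (g2 : W → W → W → ℝ) (U : Set W) (p : P d)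
    (e : Basis (Fin 2) ℝ W) (hg : IsMet g2 U) (hC : 0 < C p.2)
    (he : ∀ i j, g2 p.2 (e i) (e j) = if i = j then 1 else 0) :
    LinearIndependent ℝ (ten_v C p e) := by
  rw [Fintype.linearIndependent_iff]
  intro k hk j
  let B : P d →ₗ[ℝ] ℝ :=
    { toFun := fun u => blk (d := d) C g2 p u (ten_v C p e j)
      map_add' := by
        intro x y
        simp only [blk, Prod.fst_add, Prod.snd_add]
        rw [ten_hyp_add, hg.add]
        ring
      map_smul' := by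
        intro t x
        simp only [blk, Prod.smul_fst, Prod.smul_snd, RingHom.id_apply, smul_eq_mul]
        rw [ten_hyp_smul, hg.smul]
        ring }
  have hB : ∀ u, B u = blk (d := d) C g2 p u (ten_v C p e j) := fun u => rfl
  have h1 := congrArg B hk
  rw [map_sum, map_zero] at h1
  simp only [map_smul] at h1
  simp only [hB, ten_gram C g2 U p e hg hC he, smul_eq_mul, mul_ite, mul_one,
    mul_zero, Finset.sum_ite_eq', Finset.mem_univ, if_true] at h1
  exact h1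

theorem t_TEN : S_TEN := by
  intro _ d C c g2 h2 U U' Y p Γ Γ' e G G' hU hU' hp hYp hg2 hh2 hC hc hC0 hc0 hY hΓ hΓ' he hG hG' hsum
  have hn : U ∈ 𝓝 p.2 := hU.mem_nhds hp
  have hYc : ContDiffAt ℝ ∞ Y p.2 := hY.contDiffAt hn
  have hCp := hC0 _ hp
  have hcp := hc0 _ hYp
  have hli := ten_li C g2 U p e hg2 hCp he
  have hcard : Fintype.card (Fin d ⊕ Fin 2) = finrank ℝ (P d) := by
    simp [P, V, W]
  have hcard2 : d + 2 = finrank ℝ (P d) := by
    rw [← hcard]; simp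
  haveI : Nonempty (Fin d ⊕ Fin 2) := ⟨Sum.inr 0⟩
  let b : Basis (Fin d ⊕ Fin 2) ℝ (P d) := basisOfLinearIndependentOfCardEqFinrank hli hcard
  let σ : Fin d ⊕ Fin 2 ≃ Fin (finrank ℝ (P d)) := finSumFinEquiv.trans (finCongr hcard2)
  have hb : ∀ i, b i = ten_v C p e i := fun i => by
    simp [b]
  refine ⟨ten_G C p Γ G, ten_G (d := d) c (p.1, Y p.2) Γ' G', b.reindex σ,
    ten_chr_blk C g2 U p Γ G hU hp hg2 hC hC0 hΓ hG,
    ten_chr_blk c h2 U' (p.1, Y p.2) Γ' G' hU' hYp hh2 hc hc0 hΓ' hG', ?_, ?_⟩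
  · intro i j
    rw [Basis.reindex_apply, Basis.reindex_apply, hb, hb, ten_gram C g2 U p e hg2 hCp he]
    simp only [EmbeddingLike.apply_eq_iff_eq]
  · rw [← Equiv.sum_comp σ]
    simp only [Basis.reindex_apply, Equiv.symm_apply_apply, hb]
    rw [Fintype.sum_sum_type]
    have hz1 := ten_gamma_zero g2 U p.2 Γ hp hg2 hΓ
    have hz2 := ten_gamma_zero h2 U' (Y p.2) Γ' hYp hh2 hΓ'
    have hdd0 : dd Y p.2 0 = 0 := by
      unfold dd
      simp
    have hn0 : nablaD Γ Γ' Y p.2 0 = 0 := by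
      unfold nablaD der
      rw [hdd0, hz1, map_zero, hz2]
      simp
    have hleft : ∀ i : Fin d, nablaD (ten_G C p Γ G) (ten_G (d := d) c (p.1, Y p.2) Γ' G')
        (fun q => (q.1, Y q.2)) p (ten_v C p e (Sum.inl i)) =
        (0, (1 / C p.2) • fderiv ℝ Y p.2 G - (c (Y p.2) / C p.2 ^ 2) • G') := by
      intro i
      rw [ten_nabla C c Y p Γ Γ' G G' hYc]
      have hh : hyp p.1 ((C p.2)⁻¹ • ten_E p.1 (EuclideanSpace.single i (1:ℝ)))
          ((C p.2)⁻¹ • ten_E p.1 (EuclideanSpace.single i (1:ℝ))) = 1 / C p.2 ^ 2 := by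
        rw [ten_hyp_smul, ten_hyp_symm, ten_hyp_smul, ten_E_hyp]
        rw [real_inner_self_eq_norm_sq]
        simp
        ring
      simp only [ten_v, hh, hn0, map_zero, mul_zero, zero_smul, neg_zero, add_zero, zero_add]
      ext1
      · rfl
      · simp only
        have h3 : C p.2 * (1 / C p.2 ^ 2) = 1 / C p.2 := by
          field_simp
        rw [h3, mul_one_div]
    have hright : ∀ j : Fin 2, nablaD (ten_G C p Γ G) (ten_G (d := d) c (p.1, Y p.2) Γ' G')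
        (fun q => (q.1, Y q.2)) p (ten_v C p e (Sum.inr j)) =
        (0, nablaD Γ Γ' Y p.2 (e j)) := by
      intro j
      rw [ten_nabla C c Y p Γ Γ' G G' hYc]
      simp only [ten_v, ten_hyp_zero, mul_zero, zero_smul, smul_zero, neg_zero, add_zero, sub_zero]
    simp only [hleft, hright]
    rw [Finset.sum_const, Finset.card_univ, Fintype.card_fin]
    have h5 : ∑ x : Fin 2, ((0 : V d), nablaD Γ Γ' Y p.2 (e x)) =
        ((0 : V d), ∑ x : Fin 2, nablaD Γ Γ' Y p.2 (e x)) := by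
      ext1
      · simp [Prod.fst_sum]
      · simp [Prod.snd_sum]
    rw [h5]
    ext1
    · simp
    · simp only [Prod.snd_add, Prod.smul_snd, Prod.snd_zero]
      rw [← hsum, ← Nat.cast_smul_eq_nsmul ℝ]
      module

end Pool.Agent.Helper473.LY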