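import Pool.Agent.Helper473.LY.Stmts

set_option autoImplicit false

open scoped Manifold ContDiff Topology RealInnerProductSpace
open Module

namespace Pool.Agent.Helper473.LY

open Pool.Agent.H234R3

/-- The change of coordinates on the plane. -/
noncomputable def tgt_sg (v : W) : W := (1 + ch v)⁻¹ • v

theorem tgt_ch_sq (v : W) : ch v ^ 2 = 1 + ‖v‖ ^ 2 := Real.sq_sqrt (by positivity)

theorem tgt_ch_one (v : W) : 1 ≤ ch v := by
  have h1 := tgt_ch_sq v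
  have h2 : 0 ≤ ch v := Real.sqrt_nonneg _
  nlinarith [sq_nonneg ‖v‖]

theorem tgt_ch_smooth : ContDiff ℝ ∞ ch := by
  unfold ch
  exact (contDiff_const.add (contDiff_norm_sq ℝ)).sqrt (fun v => by positivity)

theorem tgt_norm_sg (v : W) : ‖tgt_sg v‖ ^ 2 = (ch v - 1) / (ch v + 1) := by
  have h1 := tgt_ch_one v
  have h2 := tgt_ch_sq v
  have h3 : 0 < 1 + ch v := by linarith
  unfold tgt_sg
  rw [norm_smul, mul_pow, Real.norm_eq_abs, sq_abs]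
  have : ‖v‖ ^ 2 = ch v ^ 2 - 1 := by linarith
  rw [this]
  have h4 : ch v + 1 ≠ 0 := by linarith
  field_simp
  ring

theorem tgt_norm_sg_lt (v : W) : ‖tgt_sg v‖ < 1 := by
  have h1 := tgt_ch_one v
  have h2 := tgt_norm_sg v
  have h3 : ‖tgt_sg v‖ ^ 2 < 1 := by
    rw [h2, div_lt_one (by linarith)]
    linarith
  nlinarith [norm_nonneg (tgt_sg v)]

theorem tgt_X_sg (v : W) : (1 + ‖tgt_sg v‖ ^ 2) / (1 - ‖tgt_sg v‖ ^ 2) = ch v := by
  have h1 := tgt_ch_one v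
  rw [tgt_norm_sg v]
  have h4 : ch v + 1 ≠ 0 := by linarith
  have e1 : 1 + (ch v - 1) / (ch v + 1) = 2 * ch v / (ch v + 1) := by field_simp; ring
  have e2 : 1 - (ch v - 1) / (ch v + 1) = 2 / (ch v + 1) := by field_simp; ring
  rw [e1, e2]
  field_simp

theorem tgt_Lam_sg (v : W) : 4 / (1 - ‖tgt_sg v‖ ^ 2) ^ 2 = (1 + ch v) ^ 2 := by
  have h1 := tgt_ch_one v
  rw [tgt_norm_sg v]
  have h4 : ch v + 1 ≠ 0 := by linarith
  have e2 : 1 - (ch v - 1) / (ch v + 1) = 2 / (ch v + 1) := by field_simp; ring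
  rw [e2]
  field_simp
  ring

theorem tgt_sg_smooth : ContDiff ℝ ∞ tgt_sg := by
  have h : ContDiff ℝ ∞ (fun v : W => (1 + ch v)⁻¹) := by
    apply ContDiff.inv (contDiff_const.add tgt_ch_smooth)
    intro v
    have := tgt_ch_one v
    linarith
  exact h.smul contDiff_id

theorem tgt_ch_deriv (v : W) : HasFDerivAt ch ((ch v)⁻¹ • (innerSL ℝ v)) v := by
  have h1 := tgt_ch_one v
  have h2 : HasFDerivAt (fun z : W => 1 + ‖z‖ ^ 2) (2 • (innerSL ℝ v)) v :=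
    ((hasStrictFDerivAt_norm_sq v).hasFDerivAt).const_add 1
  have h3 := h2.sqrt (by positivity)
  have h4 : (1 / (2 * √(1 + ‖v‖ ^ 2))) • (2 • (innerSL ℝ v)) = (ch v)⁻¹ • (innerSL ℝ v) := by
    ext a
    simp only [smul_apply, smul_eq_mul, nsmul_eq_mul]
    have : √(1 + ‖v‖ ^ 2) = ch v := rfl
    rw [this]
    have : ch v ≠ 0 := by linarith
    push_cast
    field_simp
  rw [← h4]
  exact h3

theorem tgt_sg_deriv (v a : W) : fderiv ℝ tgt_sg v a =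
    (1 + ch v)⁻¹ • a - (⟪v, a⟫ / (ch v * (1 + ch v) ^ 2)) • v := by
  have h1 := tgt_ch_one v
  have h2 := tgt_ch_deriv v
  have h3 : HasFDerivAt (fun z : W => (1 + ch z)) ((ch v)⁻¹ • (innerSL ℝ v)) v := h2.const_add 1
  have h4 : HasDerivAt (fun t : ℝ => t⁻¹) (-((1 + ch v) ^ 2)⁻¹) (1 + ch v) :=
    hasDerivAt_inv (by linarith)
  have h5 := h4.comp_hasFDerivAt v h3
  have h6 : HasFDerivAt (fun z : W => z) (ContinuousLinearMap.id ℝ W) v := hasFDerivAt_id v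
  have h7 := h5.smul h6
  have h8 : HasFDerivAt tgt_sg _ v := h7
  rw [h8.fderiv]
  simp only [add_apply, smul_apply,
    ContinuousLinearMap.smulRight_apply, ContinuousLinearMap.id_apply, innerSL_apply_apply,
    smul_eq_mul]
  have e1 : ((fun t : ℝ => t⁻¹) ∘ fun z => 1 + ch z) v = (1 + ch v)⁻¹ := rfl
  have e2 : -((1 + ch v) ^ 2)⁻¹ * ((ch v)⁻¹ * ⟪v, a⟫) = -(⟪v, a⟫ / (ch v * (1 + ch v) ^ 2)) := by
    have h9 : ch v ≠ 0 := by linarith
    have h10 : 1 + ch v ≠ 0 := by linarith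
    field_simp
  rw [e1, e2, neg_smul, ← sub_eq_add_neg]

theorem tgt_pull (v a b : W) :
    4 / (1 - ‖tgt_sg v‖ ^ 2) ^ 2 * ⟪fderiv ℝ tgt_sg v a, fderiv ℝ tgt_sg v b⟫ = hyp v a b := by
  have h1 := tgt_ch_one v
  have h2 := tgt_ch_sq v
  have h9 : ch v ≠ 0 := by linarith
  have h10 : 1 + ch v ≠ 0 := by linarith
  rw [tgt_Lam_sg, tgt_sg_deriv, tgt_sg_deriv, hyp, ← h2]
  rw [inner_sub_left, inner_sub_right, inner_sub_right]
  simp only [real_inner_smul_left, real_inner_smul_right]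
  rw [real_inner_comm v a, real_inner_self_eq_norm_sq]
  have h3 : ‖v‖ ^ 2 = ch v ^ 2 - 1 := by linarith
  rw [h3]
  field_simp
  ring

/-- The map on the product. -/
noncomputable def tgt_ph {d : ℕ} (q : P d) : P d := (q.1, tgt_sg q.2)

theorem tgt_ph_smooth {d : ℕ} : ContDiff ℝ ∞ (tgt_ph (d := d)) :=
  contDiff_fst.prodMk (tgt_sg_smooth.comp contDiff_snd)

theorem tgt_ph_deriv {d : ℕ} (q a : P d) :
    fderiv ℝ (tgt_ph (d := d)) q a = (a.1, fderiv ℝ tgt_sg q.2 a.2) := by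
  have h1 : HasFDerivAt tgt_sg (fderiv ℝ tgt_sg q.2) q.2 :=
    (tgt_sg_smooth.differentiable (by simp) q.2).hasFDerivAt
  have h2 : HasFDerivAt (fun z : P d => tgt_sg z.2)
      ((fderiv ℝ tgt_sg q.2).comp (ContinuousLinearMap.snd ℝ (V d) W)) q :=
    h1.comp q hasFDerivAt_snd
  have h3 : HasFDerivAt (tgt_ph (d := d)) _ q := hasFDerivAt_fst.prodMk h2
  rw [h3.fderiv]
  rfl

theorem tgt_bij {d : ℕ} (hH : S_HYP) (q : P d) :
    Function.Bijective (fderiv ℝ (tgt_ph (d := d)) q) := by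
  have hinj : Function.Injective (fderiv ℝ (tgt_ph (d := d)) q) := by
    rw [injective_iff_map_eq_zero]
    intro a ha
    rw [tgt_ph_deriv] at ha
    have h1 : a.1 = 0 := congrArg Prod.fst ha
    have h2 : fderiv ℝ tgt_sg q.2 a.2 = 0 := congrArg Prod.snd ha
    have h3 := tgt_pull q.2 a.2 a.2
    rw [h2, inner_zero_left, mul_zero] at h3
    have h4 : a.2 = 0 := by
      by_contra h
      have := (hH W).1.pos q.2 (Set.mem_univ _) a.2 h
      linarith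
    exact Prod.ext h1 h4
  have h2 : Function.Surjective (fderiv ℝ (tgt_ph (d := d)) q) :=
    LinearMap.surjective_of_injective (f := (fderiv ℝ (tgt_ph (d := d)) q : P d →ₗ[ℝ] P d)) hinj
  exact ⟨hinj, h2⟩

/-! ### the functions of one variable -/

/-- `X` as a function of `t`. -/
noncomputable def tgt_X (t : ℝ) : ℝ := (1 + t) / (1 - t)

/-- `c` as a function of `t`. -/
noncomputable def tgt_c (Wt : ℝ → ℝ) (t : ℝ) : ℝ := √(Wt (tgt_X t))

/-- `Λ` as a function of `t`. -/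
noncomputable def tgt_L (t : ℝ) : ℝ := 4 / (1 - t) ^ 2

theorem tgt_X_one {t : ℝ} (h0 : 0 ≤ t) (h1 : t < 1) : 1 ≤ tgt_X t := by
  unfold tgt_X
  rw [le_div_iff₀ (by linarith)]
  linarith

theorem tgt_X_deriv {t : ℝ} (h1 : t < 1) : HasDerivAt tgt_X (2 / (1 - t) ^ 2) t := by
  have h2 : HasDerivAt (fun s : ℝ => 1 + s) 1 t := (hasDerivAt_id t).const_add 1
  have h3 : HasDerivAt (fun s : ℝ => 1 - s) (-1) t := (hasDerivAt_id t).const_sub 1
  have h4 : (1 - t) ≠ 0 := by linarith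
  have h5 := h2.div h3 h4
  have h6 : HasDerivAt tgt_X _ t := h5
  convert h6 using 1
  ring

theorem tgt_X_smooth {t : ℝ} (h1 : t < 1) : ContDiffAt ℝ ∞ tgt_X t := by
  unfold tgt_X
  apply ContDiffAt.div
  · fun_prop
  · fun_prop
  · linarith

theorem tgt_c_smooth {Wt : ℝ → ℝ} (hW : ContDiff ℝ ∞ Wt) {t : ℝ} (h1 : t < 1)
    (hpos : 0 < Wt (tgt_X t)) : ContDiffAt ℝ ∞ (tgt_c Wt) t := by
  unfold tgt_c
  apply ContDiffAt.sqrt
  · exact hW.contDiffAt.comp t (tgt_X_smooth h1)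
  · exact hpos.ne'

theorem tgt_L_smooth {t : ℝ} (h1 : t < 1) : ContDiffAt ℝ ∞ tgt_L t := by
  unfold tgt_L
  apply ContDiffAt.div
  · fun_prop
  · fun_prop
  · have : 0 < 1 - t := by linarith
    positivity

theorem tgt_L_deriv {t : ℝ} (h1 : t < 1) : HasDerivAt tgt_L (8 / (1 - t) ^ 3) t := by
  have h3 : HasDerivAt (fun s : ℝ => 1 - s) (-1) t := (hasDerivAt_id t).const_sub 1
  have h4 : (1 - t) ≠ 0 := by linarith
  have h5 := (h3.pow 2).inv (pow_ne_zero 2 h4)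
  have h6 := h5.const_mul 4
  have h7 : HasDerivAt tgt_L _ t := h6
  convert h7 using 1
  simp
  field_simp
  norm_num

theorem tgt_tL {t : ℝ} (h1 : t < 1) : t * deriv tgt_L t / tgt_L t = 2 * t / (1 - t) := by
  rw [(tgt_L_deriv h1).deriv, tgt_L]
  have h4 : (1 - t) ≠ 0 := by linarith
  field_simp
  ring

theorem tgt_tL_deriv {t : ℝ} (h1 : t < 1) :
    deriv (fun s => s * deriv tgt_L s / tgt_L s) t = 2 / (1 - t) ^ 2 := by
  have h2 : (fun s => s * deriv tgt_L s / tgt_L s) =ᶠ[𝓝 t] fun s => 2 * s / (1 - s) := by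
    filter_upwards [Iio_mem_nhds h1] with s hs
    exact tgt_tL hs
  rw [h2.deriv_eq]
  have h2 : HasDerivAt (fun s : ℝ => 2 * s) (2 * 1) t := (hasDerivAt_id t).const_mul 2
  have h3 : HasDerivAt (fun s : ℝ => 1 - s) (-1) t := (hasDerivAt_id t).const_sub 1
  have h4 : (1 - t) ≠ 0 := by linarith
  have h5 : HasDerivAt (fun s : ℝ => 2 * s / (1 - s)) _ t := h2.div h3 h4
  rw [h5.deriv]
  ring

/-- The derivative of `c`. -/
noncomputable def tgt_dc (Wt : ℝ → ℝ) (t : ℝ) : ℝ :=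
  deriv Wt (tgt_X t) * (2 / (1 - t) ^ 2) / (2 * √(Wt (tgt_X t)))

theorem tgt_c_deriv {Wt : ℝ → ℝ} (hW : ContDiff ℝ ∞ Wt) {t : ℝ} (h1 : t < 1)
    (hpos : 0 < Wt (tgt_X t)) : HasDerivAt (tgt_c Wt) (tgt_dc Wt t) t := by
  have h2 : HasDerivAt Wt (deriv Wt (tgt_X t)) (tgt_X t) :=
    (hW.differentiable (by simp) _).hasDerivAt
  have h3 := h2.comp t (tgt_X_deriv h1)
  exact h3.sqrt hpos.ne'

theorem tgt_ev {Wt : ℝ → ℝ} (hW : ContDiff ℝ ∞ Wt) {t : ℝ} (h1 : t < 1)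
    (hpos : 0 < Wt (tgt_X t)) : ∀ᶠ s in 𝓝 t, s < 1 ∧ 0 < Wt (tgt_X s) := by
  have h2 : ContinuousAt (fun s => Wt (tgt_X s)) t :=
    (hW.continuous.continuousAt).comp (tgt_X_deriv h1).continuousAt
  filter_upwards [Iio_mem_nhds h1, h2.eventually (lt_mem_nhds hpos)] with s hs hs'
  exact ⟨hs, hs'⟩

theorem tgt_c_deriv_deriv {Wt : ℝ → ℝ} (hW : ContDiff ℝ ∞ Wt) {t : ℝ} (h1 : t < 1)
    (hpos : 0 < Wt (tgt_X t)) : deriv (deriv (tgt_c Wt)) t =
      (deriv (deriv Wt) (tgt_X t) * (2 / (1 - t) ^ 2) ^ 2 + deriv Wt (tgt_X t) * (4 / (1 - t) ^ 3))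
        / (2 * √(Wt (tgt_X t))) -
      deriv Wt (tgt_X t) * (2 / (1 - t) ^ 2) * tgt_dc Wt t / (2 * Wt (tgt_X t)) := by
  have h2 : deriv (tgt_c Wt) =ᶠ[𝓝 t] tgt_dc Wt := by
    filter_upwards [tgt_ev hW h1 hpos] with s hs
    exact (tgt_c_deriv hW hs.1 hs.2).deriv
  rw [h2.deriv_eq]
  have hW' : ContDiff ℝ ∞ (deriv Wt) := by
    have := (contDiff_infty_iff_deriv.1 hW).2
    exact this
  have h3 : HasDerivAt (deriv Wt) (deriv (deriv Wt) (tgt_X t)) (tgt_X t) :=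
    (hW'.differentiable (by simp) _).hasDerivAt
  have h4 := h3.comp t (tgt_X_deriv h1)
  have h5 : (1 - t) ≠ 0 := by linarith
  have h6 : HasDerivAt (fun s : ℝ => 1 - s) (-1) t := (hasDerivAt_id t).const_sub 1
  have h7 := ((h6.pow 2).inv (pow_ne_zero 2 h5)).const_mul 2
  have h8 := h4.mul h7
  have h9 := (tgt_c_deriv hW h1 hpos).const_mul 2
  have hc : 0 < √(Wt (tgt_X t)) := Real.sqrt_pos.2 hpos
  have hsq : √(Wt (tgt_X t)) ^ 2 = Wt (tgt_X t) := Real.sq_sqrt hpos.le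
  have h10 := h8.div h9 (show 2 * tgt_c Wt t ≠ 0 by
    have : tgt_c Wt t = √(Wt (tgt_X t)) := rfl
    rw [this]; positivity)
  have h11 : HasDerivAt (tgt_dc Wt) _ t := h10
  rw [h11.deriv]
  have e1 : tgt_c Wt t = √(Wt (tgt_X t)) := rfl
  simp only [e1, Function.comp, Pi.mul_apply, Pi.pow_apply, Pi.inv_apply]
  set R := √(Wt (tgt_X t)) with hR
  rw [← hsq]
  set D := deriv Wt (tgt_X t)
  set E := deriv (deriv Wt) (tgt_X t)
  set Q := tgt_dc Wt t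
  push_cast
  field_simp
  ring

theorem tgt_pos {Wt : ℝ → ℝ} (hW : ContDiff ℝ ∞ Wt) {t : ℝ} (h1 : t < 1)
    (hpos : 0 < Wt (tgt_X t)) (hd : 0 < deriv Wt (tgt_X t))
    (hX : 0 < tgt_X t + (tgt_X t ^ 2 - 1) * (deriv (deriv Wt) (tgt_X t) / deriv Wt (tgt_X t))
          - (tgt_X t ^ 2 - 1) * deriv Wt (tgt_X t) / (2 * Wt (tgt_X t))) :
    0 < deriv (tgt_c Wt) t + 2 * t * deriv (deriv (tgt_c Wt)) t
      - t * deriv tgt_L t / tgt_L t * deriv (tgt_c Wt) t := by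
  rw [tgt_tL h1, tgt_c_deriv_deriv hW h1 hpos, (tgt_c_deriv hW h1 hpos).deriv]
  have hc : 0 < √(Wt (tgt_X t)) := Real.sqrt_pos.2 hpos
  have hsq : √(Wt (tgt_X t)) ^ 2 = Wt (tgt_X t) := Real.sq_sqrt hpos.le
  have h5 : 0 < (1 - t) := by linarith
  have hdc : 0 < tgt_dc Wt t := by
    unfold tgt_dc
    positivity
  have key : tgt_dc Wt t * (tgt_X t + (tgt_X t ^ 2 - 1) * (deriv (deriv Wt) (tgt_X t) / deriv Wt (tgt_X t))
          - (tgt_X t ^ 2 - 1) * deriv Wt (tgt_X t) / (2 * Wt (tgt_X t))) =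
      tgt_dc Wt t + 2 * t * ((deriv (deriv Wt) (tgt_X t) * (2 / (1 - t) ^ 2) ^ 2
        + deriv Wt (tgt_X t) * (4 / (1 - t) ^ 3)) / (2 * √(Wt (tgt_X t))) -
      deriv Wt (tgt_X t) * (2 / (1 - t) ^ 2) * tgt_dc Wt t / (2 * Wt (tgt_X t)))
      - 2 * t / (1 - t) * tgt_dc Wt t := by
    have hX2 : tgt_X t ^ 2 - 1 = 4 * t / (1 - t) ^ 2 := by
      unfold tgt_X
      field_simp
      ring
    have hX1 : tgt_X t = 1 + 2 * t / (1 - t) := by
      unfold tgt_X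
      field_simp
      ring
    rw [hX2]
    set D := deriv Wt (tgt_X t) with hD
    set E := deriv (deriv Wt) (tgt_X t) with hE
    set w := Wt (tgt_X t) with hw
    rw [hX1]
    have e1 : tgt_dc Wt t = D * (2 / (1 - t) ^ 2) / (2 * √w) := rfl
    have e2 : E / D * tgt_dc Wt t = E * (2 / (1 - t) ^ 2) / (2 * √w) := by
      rw [e1]
      field_simp
    have e3 : tgt_dc Wt t * (1 + 2 * t / (1 - t) + 4 * t / (1 - t) ^ 2 * (E / D)
        - 4 * t / (1 - t) ^ 2 * D / (2 * w)) =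
        tgt_dc Wt t * (1 + 2 * t / (1 - t) - 4 * t / (1 - t) ^ 2 * D / (2 * w))
        + 4 * t / (1 - t) ^ 2 * (E / D * tgt_dc Wt t) := by ring
    rw [e3, e2]
    have e4 : D * (4 / (1 - t) ^ 3) / (2 * √w) = 2 / (1 - t) * tgt_dc Wt t := by
      rw [e1]
      field_simp
      norm_num
    have e5 : (E * (2 / (1 - t) ^ 2) ^ 2 + D * (4 / (1 - t) ^ 3)) / (2 * √w) =
        E * (2 / (1 - t) ^ 2) ^ 2 / (2 * √w) + 2 / (1 - t) * tgt_dc Wt t := by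
      rw [add_div, e4]
    rw [e5]
    set Q := tgt_dc Wt t
    field_simp
    ring
  rw [← key]
  positivity

theorem tgt_good {Wt : ℝ → ℝ} (hR : S_RAD) (hW : ContDiff ℝ ∞ Wt)
    (hc : ∀ X : ℝ, 1 ≤ X → 0 < Wt X ∧ 0 < deriv Wt X ∧
        0 < X + (X ^ 2 - 1) * (deriv (deriv Wt) X / deriv Wt X)
          - (X ^ 2 - 1) * deriv Wt X / (2 * Wt X)) (x : W) (hx : ‖x‖ < 1) :
    GoodAt (fun z : W => tgt_c Wt (‖z‖ ^ 2)) (fun z a b => tgt_L (‖z‖ ^ 2) * ⟪a, b⟫) x := by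
  have h0 : 0 ≤ ‖x‖ ^ 2 := by positivity
  have h1 : ‖x‖ ^ 2 < 1 := by nlinarith [norm_nonneg x]
  obtain ⟨hc1, hc2, hc3⟩ := hc (tgt_X (‖x‖ ^ 2)) (tgt_X_one h0 h1)
  have h5 : 0 < 1 - ‖x‖ ^ 2 := by linarith
  have hs : 0 < √(Wt (tgt_X (‖x‖ ^ 2))) := Real.sqrt_pos.2 hc1
  apply hR _ _ (tgt_c Wt) tgt_L x
  · exact Filter.Eventually.of_forall fun z => rfl
  · exact Filter.Eventually.of_forall fun z a b => rfl
  · exact tgt_c_smooth hW h1 hc1
  · exact tgt_L_smooth h1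
  · exact hs
  · unfold tgt_L
    positivity
  · rw [tgt_tL_deriv h1]
    positivity
  · rw [(tgt_c_deriv hW h1 hc1).deriv]
    unfold tgt_dc
    positivity
  · rw [tgt_tL h1]
    positivity
  · exact tgt_pos hW h1 hc1 hc2 hc3

theorem t_TGT : S_TGT := by
  intro hN hH hB hC hR d Wt hW hc p
  have hlt : ∀ x : W, ‖x‖ < 1 → 0 ≤ ‖x‖ ^ 2 ∧ ‖x‖ ^ 2 < 1 := fun x hx =>
    ⟨by positivity, by nlinarith [norm_nonneg x]⟩
  have hopen : IsOpen {x : W | ‖x‖ < 1} := isOpen_lt continuous_norm continuous_const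
  have hsm : ∀ x : W, ContDiffAt ℝ ∞ (fun z : W => ‖z‖ ^ 2) x := fun x =>
    (contDiff_norm_sq ℝ).contDiffAt
  have hm : IsMet (fun (z : W) a b => tgt_L (‖z‖ ^ 2) * ⟪a, b⟫) {x : W | ‖x‖ < 1} := by
    constructor
    · intro y u u' v
      rw [inner_add_left, mul_add]
    · intro y c u v
      rw [real_inner_smul_left]
      ring
    · intro y u v
      rw [real_inner_comm]
    · intro y hy u hu
      have h1 := (hlt y hy).2
      have h5 : 0 < 1 - ‖y‖ ^ 2 := by linarith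
      have h6 : 0 < ⟪u, u⟫ := real_inner_self_pos.2 hu
      unfold tgt_L
      positivity
    · intro u v x hx
      have h1 := (hlt x hx).2
      have h2 : ContDiffAt ℝ ∞ (fun z : W => tgt_L (‖z‖ ^ 2)) x :=
        ContDiffAt.comp (g := tgt_L) (f := fun z : W => ‖z‖ ^ 2) x (tgt_L_smooth h1) (hsm x)
      exact (h2.mul contDiffAt_const).contDiffWithinAt
  have hCs : ContDiffOn ℝ ∞ (fun z : W => tgt_c Wt (‖z‖ ^ 2)) {x : W | ‖x‖ < 1} := by
    intro x hx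
    have h1 := hlt x hx
    have h2 : ContDiffAt ℝ ∞ (fun z : W => tgt_c Wt (‖z‖ ^ 2)) x :=
      ContDiffAt.comp (g := tgt_c Wt) (f := fun z : W => ‖z‖ ^ 2) x
        (tgt_c_smooth hW h1.2 (hc _ (tgt_X_one h1.1 h1.2)).1) (hsm x)
    exact h2.contDiffWithinAt
  have hCp : ∀ x ∈ {x : W | ‖x‖ < 1}, 0 < tgt_c Wt (‖x‖ ^ 2) := by
    intro x hx
    have h1 := hlt x hx
    exact Real.sqrt_pos.2 (hc _ (tgt_X_one h1.1 h1.2)).1
  have hmet := hB hH d _ _ _ hopen hm hCs hCp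
  have hneg : NegAt (blk (d := d) (fun z : W => tgt_c Wt (‖z‖ ^ 2))
      (fun z a b => tgt_L (‖z‖ ^ 2) * ⟪a, b⟫)) (tgt_ph p) :=
    hC hH d _ _ {x : W | ‖x‖ < 1} (tgt_ph p) hopen (tgt_norm_sg_lt p.2) hm hCs
      (tgt_good hR hW hc _ (tgt_norm_sg_lt p.2))
  have hopen2 : IsOpen {q : P d | q.2 ∈ {x : W | ‖x‖ < 1}} := hopen.preimage continuous_snd
  refine hN (P d) (P d) _ _ {q : P d | q.2 ∈ {x : W | ‖x‖ < 1}} tgt_ph p hopen2 hmet
    (tgt_norm_sg_lt p.2) tgt_ph_smooth.contDiffAt (tgt_bij hH p) ?_ hneg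
  refine Filter.Eventually.of_forall fun z a b => ?_
  have e1 : tgt_X (‖tgt_sg z.2‖ ^ 2) = ch z.2 := tgt_X_sg z.2
  have e2 := tgt_pull z.2 a.2 b.2
  rw [tgt_ph_deriv, tgt_ph_deriv]
  show √(Wt (ch z.2)) ^ 2 * hyp z.1 a.1 b.1 + hyp z.2 a.2 b.2 =
    √(Wt (tgt_X (‖tgt_sg z.2‖ ^ 2))) ^ 2 * hyp z.1 a.1 b.1 +
      4 / (1 - ‖tgt_sg z.2‖ ^ 2) ^ 2 * ⟪fderiv ℝ tgt_sg z.2 a.2, fderiv ℝ tgt_sg z.2 b.2⟫
  rw [e1, e2]

end Pool.Agent.Helper473.LY
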