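import Mathlib
import Pool.Agent.Helper473.LY.Stmts2

/-!
# Task TUBE: assembly of the functions on the cross-section
-/

set_option autoImplicit false

open scoped Manifold ContDiff Topology RealInnerProductSpace
open Module

namespace Pool.Agent.Helper473.LY

open Pool.Agent.H234R3

/-! ### maps acting on the second factor -/

/-- the map acting on the second factor -/
def tube_ext {d : ℕ} (φ : W → W) (q : P d) : P d := (q.1, φ q.2)

theorem tube_ext_hasFDerivAt {d : ℕ} (φ : W → W) (q : P d) (h : DifferentiableAt ℝ φ q.2) :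
    HasFDerivAt (tube_ext (d := d) φ)
      ((ContinuousLinearMap.fst ℝ (V d) W).prod
        ((fderiv ℝ φ q.2).comp (ContinuousLinearMap.snd ℝ (V d) W))) q := by
  have h1 : HasFDerivAt (fun q : P d => q.1) (ContinuousLinearMap.fst ℝ (V d) W) q :=
    hasFDerivAt_fst
  have h2 : HasFDerivAt (fun q : P d => q.2) (ContinuousLinearMap.snd ℝ (V d) W) q :=
    hasFDerivAt_snd
  have h3 : HasFDerivAt (fun q : P d => φ q.2)
      ((fderiv ℝ φ q.2).comp (ContinuousLinearMap.snd ℝ (V d) W)) q :=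
    h.hasFDerivAt.comp q h2
  exact h1.prodMk h3

theorem tube_ext_fderiv {d : ℕ} (φ : W → W) (q a : P d) (h : DifferentiableAt ℝ φ q.2) :
    fderiv ℝ (tube_ext (d := d) φ) q a = (a.1, fderiv ℝ φ q.2 a.2) := by
  rw [(tube_ext_hasFDerivAt φ q h).fderiv]
  rfl

theorem tube_ext_bij {d : ℕ} (φ : W → W) (q : P d) (h : DifferentiableAt ℝ φ q.2)
    (hb : Function.Bijective (fderiv ℝ φ q.2)) :
    Function.Bijective (fderiv ℝ (tube_ext (d := d) φ) q) := by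
  constructor
  · intro a b hab
    rw [tube_ext_fderiv φ q a h, tube_ext_fderiv φ q b h, Prod.mk.injEq] at hab
    exact Prod.ext hab.1 (hb.1 hab.2)
  · intro b
    obtain ⟨w, hw⟩ := hb.2 b.2
    refine ⟨(b.1, w), ?_⟩
    rw [tube_ext_fderiv φ q _ h, hw]

theorem tube_ext_smooth {d : ℕ} (φ : W → W) (q : P d) (h : ContDiffAt ℝ ∞ φ q.2) :
    ContDiffAt ℝ ∞ (tube_ext (d := d) φ) q := by
  have h1 : ContDiffAt ℝ ∞ (fun q : P d => q.1) q := contDiffAt_fst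
  have h2 : ContDiffAt ℝ ∞ (fun q : P d => φ q.2) q :=
    ContDiffAt.comp q h contDiffAt_snd
  exact h1.prodMk h2

theorem tube_neg (hN1 : S_N1) (hHYP : S_HYP) (hBMET : S_BMET) (hCRV : S_CRV) {d : ℕ}
    (C C' : W → ℝ) (g2 g' : W → W → W → ℝ) (U : Set W) (φ : W → W) (p : P d) (hU : IsOpen U)
    (hg : IsMet g' U) (hC : ContDiffOn ℝ ∞ C' U) (hC0 : ∀ x ∈ U, 0 < C' x) (hp : φ p.2 ∈ U)
    (hφ : ContDiff ℝ ∞ φ) (hb : Function.Bijective (fderiv ℝ φ p.2))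
    (heq : ∀ᶠ v in 𝓝 p.2, C v = C' (φ v) ∧
      ∀ a b, g2 v a b = g' (φ v) (fderiv ℝ φ v a) (fderiv ℝ φ v b))
    (hgood : GoodAt C' g' (φ p.2)) : NegAt (blk (d := d) C g2) p := by
  have hd : ∀ v, DifferentiableAt ℝ φ v := fun v => hφ.differentiable (by simp) v
  refine hN1 (P d) (P d) (blk (d := d) C g2) (blk (d := d) C' g') {q | q.2 ∈ U} (tube_ext φ) p
    (hU.preimage continuous_snd) (hBMET hHYP d C' g' U hU hg hC hC0) hp
    (tube_ext_smooth φ p hφ.contDiffAt) (tube_ext_bij φ p (hd _) hb) ?_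
    (hCRV hHYP d C' g' U (tube_ext φ p) hU hp hg hC hgood)
  have h1 : ∀ᶠ z : P d in 𝓝 p, C z.2 = C' (φ z.2) ∧
      ∀ a b, g2 z.2 a b = g' (φ z.2) (fderiv ℝ φ z.2 a) (fderiv ℝ φ z.2 b) :=
    continuous_snd.continuousAt.eventually heq
  filter_upwards [h1] with z hz a b
  rw [tube_ext_fderiv φ z a (hd _), tube_ext_fderiv φ z b (hd _)]
  unfold blk tube_ext
  simp only
  rw [hz.1, hz.2]

theorem tube_harm (hN2 : S_N2) (hHYP : S_HYP) (hBMET : S_BMET) {d : ℕ}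
    (C C' c c' : W → ℝ) (g2 g' h2 h' : W → W → W → ℝ) (U U' : Set W) (φ κ f F : W → W) (p : P d)
    (hU : IsOpen U) (hU' : IsOpen U')
    (hg : IsMet g' U) (hC : ContDiffOn ℝ ∞ C' U) (hC0 : ∀ x ∈ U, 0 < C' x)
    (hh : IsMet h' U') (hc : ContDiffOn ℝ ∞ c' U') (hc0 : ∀ x ∈ U', 0 < c' x)
    (hp : φ p.2 ∈ U) (hp' : κ (f p.2) ∈ U')
    (hφ : ContDiff ℝ ∞ φ) (hb : Function.Bijective (fderiv ℝ φ p.2))
    (hκ : ContDiff ℝ ∞ κ) (hb' : Function.Bijective (fderiv ℝ κ (f p.2)))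
    (hf : ContDiffAt ℝ ∞ f p.2) (hF : ContDiffAt ℝ ∞ F (φ p.2))
    (hcomm : ∀ᶠ v in 𝓝 p.2, κ (f v) = F (φ v))
    (heq : ∀ᶠ v in 𝓝 p.2, C v = C' (φ v) ∧
      ∀ a b, g2 v a b = g' (φ v) (fderiv ℝ φ v a) (fderiv ℝ φ v b))
    (heq' : ∀ᶠ v in 𝓝 (f p.2), c v = c' (κ v) ∧
      ∀ a b, h2 v a b = h' (κ v) (fderiv ℝ κ v a) (fderiv ℝ κ v b))
    (hT : TensionZeroAt (blk (d := d) C' g') (blk (d := d) c' h') (fun q => (q.1, F q.2))
      (p.1, φ p.2)) :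
    TensionZeroAt (blk (d := d) C g2) (blk (d := d) c h2) (fun q => (q.1, f q.2)) p := by
  have hd : ∀ v, DifferentiableAt ℝ φ v := fun v => hφ.differentiable (by simp) v
  have hd' : ∀ v, DifferentiableAt ℝ κ v := fun v => hκ.differentiable (by simp) v
  refine hN2 (P d) (P d) (P d) (P d) (blk (d := d) C g2) (blk (d := d) C' g')
    (blk (d := d) c h2) (blk (d := d) c' h') {q | q.2 ∈ U} {q | q.2 ∈ U'} (tube_ext φ)
    (tube_ext κ) (fun q => (q.1, f q.2)) (fun q => (q.1, F q.2)) p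
    (hU.preimage continuous_snd) (hU'.preimage continuous_snd)
    (hBMET hHYP d C' g' U hU hg hC hC0) (hBMET hHYP d c' h' U' hU' hh hc hc0) hp hp'
    (tube_ext_smooth φ p hφ.contDiffAt) (tube_ext_bij φ p (hd _) hb)
    (tube_ext_smooth κ _ hκ.contDiffAt) (tube_ext_bij κ _ (hd' _) hb')
    (tube_ext_smooth f p hf) (tube_ext_smooth F _ hF) ?_ ?_ ?_ hT
  · have h1 : ∀ᶠ z : P d in 𝓝 p, κ (f z.2) = F (φ z.2) :=
      continuous_snd.continuousAt.eventually hcomm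
    filter_upwards [h1] with z hz
    unfold tube_ext
    simp only
    rw [hz]
  · have h1 : ∀ᶠ z : P d in 𝓝 p, C z.2 = C' (φ z.2) ∧
        ∀ a b, g2 z.2 a b = g' (φ z.2) (fderiv ℝ φ z.2 a) (fderiv ℝ φ z.2 b) :=
      continuous_snd.continuousAt.eventually heq
    filter_upwards [h1] with z hz a b
    rw [tube_ext_fderiv φ z a (hd _), tube_ext_fderiv φ z b (hd _)]
    unfold blk tube_ext
    simp only
    rw [hz.1, hz.2]
  · have h1 : ∀ᶠ z : P d in 𝓝 ((fun q : P d => ((q.1, f q.2) : P d)) p), c z.2 = c' (κ z.2) ∧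
        ∀ a b, h2 z.2 a b = h' (κ z.2) (fderiv ℝ κ z.2 a) (fderiv ℝ κ z.2 b) := by
      have h0 : ContinuousAt (fun z : P d => z.2) ((fun q : P d => ((q.1, f q.2) : P d)) p) :=
        continuous_snd.continuousAt
      exact h0.eventually heq'
    filter_upwards [h1] with z hz a b
    rw [tube_ext_fderiv κ z a (hd' _), tube_ext_fderiv κ z b (hd' _)]
    unfold blk tube_ext
    simp only
    rw [hz.1, hz.2]

/-! ### pull-back of metrics of the plane -/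

/-- the standard basis -/
noncomputable def tube_E (i : Fin 2) : W := EuclideanSpace.single i 1

theorem tube_vec (a : W) : a = a 0 • tube_E 0 + a 1 • tube_E 1 := by
  unfold tube_E
  ext i
  fin_cases i <;> simp

theorem tube_expand {g : W → W → W → ℝ} {U : Set W} (hg : IsMet g U) (x a b : W) :
    g x a b = a 0 * b 0 * g x (tube_E 0) (tube_E 0) + a 0 * b 1 * g x (tube_E 0) (tube_E 1) +
      a 1 * b 0 * g x (tube_E 1) (tube_E 0) + a 1 * b 1 * g x (tube_E 1) (tube_E 1) := by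
  have hr : ∀ y u v v', g y u (v + v') = g y u v + g y u v' := fun y u v v' => by
    rw [hg.symm, hg.add, hg.symm y v, hg.symm y v']
  have hs : ∀ y (c : ℝ) u v, g y u (c • v) = c * g y u v := fun y c u v => by
    rw [hg.symm, hg.smul, hg.symm y v]
  conv_lhs => rw [tube_vec a, tube_vec b]
  rw [hg.add, hg.smul, hg.smul, hr, hr, hs, hs, hs, hs]
  ring

theorem tube_met_smooth {g : W → W → W → ℝ} {U : Set W} (hU : IsOpen U) (hg : IsMet g U)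
    {φ A B : W → W} {v : W} (hφ : ContDiffAt ℝ ∞ φ v) (hv : φ v ∈ U) (hA : ContDiffAt ℝ ∞ A v)
    (hB : ContDiffAt ℝ ∞ B v) : ContDiffAt ℝ ∞ (fun w => g (φ w) (A w) (B w)) v := by
  have h1 : (fun w => g (φ w) (A w) (B w)) = fun w =>
      A w 0 * B w 0 * g (φ w) (tube_E 0) (tube_E 0) +
      A w 0 * B w 1 * g (φ w) (tube_E 0) (tube_E 1) +
      A w 1 * B w 0 * g (φ w) (tube_E 1) (tube_E 0) +
      A w 1 * B w 1 * g (φ w) (tube_E 1) (tube_E 1) := by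
    funext w
    exact tube_expand hg _ _ _
  have h2 : ∀ i j, ContDiffAt ℝ ∞ (fun w => g (φ w) (tube_E i) (tube_E j)) v := by
    intro i j
    have h3 : ContDiffAt ℝ ∞ (fun x => g x (tube_E i) (tube_E j)) (φ v) :=
      (hg.smooth _ _).contDiffAt (hU.mem_nhds hv)
    exact h3.comp v hφ
  have h4 : ∀ (D : W → W) (i : Fin 2), ContDiffAt ℝ ∞ D v → ContDiffAt ℝ ∞ (fun w => D w i) v := by
    intro D i hD
    exact (contDiffAt_piLp 2).1 hD i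
  rw [h1]
  exact (((((h4 A 0 hA).mul (h4 B 0 hB)).mul (h2 0 0)).add
    (((h4 A 0 hA).mul (h4 B 1 hB)).mul (h2 0 1))).add
    (((h4 A 1 hA).mul (h4 B 0 hB)).mul (h2 1 0))).add
    (((h4 A 1 hA).mul (h4 B 1 hB)).mul (h2 1 1))

theorem tube_pull_met {g : W → W → W → ℝ} {U : Set W} (hU : IsOpen U) (hg : IsMet g U)
    {φ : W → W} (hφ : ContDiff ℝ ∞ φ) (hv : ∀ v, φ v ∈ U)
    (hb : ∀ v, Function.Bijective (fderiv ℝ φ v)) :
    IsMet (fun v a b => g (φ v) (fderiv ℝ φ v a) (fderiv ℝ φ v b)) Set.univ := by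
  refine ⟨fun y u u' v => ?_, fun y c u v => ?_, fun y u v => hg.symm _ _ _, fun y _ u hu => ?_,
    fun u v y _ => ?_⟩
  · rw [map_add, hg.add]
  · rw [map_smul, hg.smul]
  · refine hg.pos _ (hv y) _ fun h => hu ?_
    exact (hb y).1 (h.trans (map_zero _).symm)
  · refine ContDiffAt.contDiffWithinAt ?_
    have h1 : ∀ a : W, ContDiff ℝ ∞ (fun w => fderiv ℝ φ w a) := fun a =>
      (hφ.fderiv_right (m := ∞) (by simp)).clm_apply contDiff_const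
    exact tube_met_smooth hU hg hφ.contDiffAt (hv y) (h1 u).contDiffAt (h1 v).contDiffAt

theorem tube_met_scale {g : W → W → W → ℝ} {U : Set W} (hg : IsMet g U) (k : ℝ) (hk : 0 < k) :
    IsMet (fun x a b => k * g x a b) U := by
  refine ⟨fun y u u' v => ?_, fun y c u v => ?_, fun y u v => ?_, fun y hy u hu => ?_,
    fun u v => ?_⟩
  · rw [hg.add]; ring
  · rw [hg.smul]; ring
  · rw [hg.symm]
  · exact mul_pos hk (hg.pos y hy u hu)
  · exact contDiffOn_const.mul (hg.smooth u v)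

theorem tube_conf_met (L : ℝ → ℝ) (U : Set W)
    (hs : ∀ x ∈ U, ContDiffAt ℝ ∞ L (‖x‖ ^ 2)) (hp : ∀ x ∈ U, 0 < L (‖x‖ ^ 2)) :
    IsMet (fun (x a b : W) => L (‖x‖ ^ 2) * ⟪a, b⟫) U := by
  refine ⟨fun y u u' v => ?_, fun y c u v => ?_, fun y u v => ?_, fun y hy u hu => ?_,
    fun u v y hy => ?_⟩
  · rw [inner_add_left]; ring
  · rw [real_inner_smul_left]; ring
  · rw [real_inner_comm]
  · refine mul_pos (hp y hy) ?_
    rw [real_inner_self_eq_norm_sq]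
    have := norm_pos_iff.2 hu
    positivity
  · refine ContDiffAt.contDiffWithinAt ?_
    refine ContDiffAt.mul ?_ contDiffAt_const
    exact (hs y hy).comp y (contDiff_norm_sq ℝ).contDiffAt

/-! ### the data -/

/-- all the data used for the construction -/
structure tube_D (d : ℕ) (s ε r : ℝ) (Co Lo Wt : ℝ → ℝ) (cs kk w0 : ℝ) : Prop where
  hd : 1 ≤ d
  hε : 0 < ε
  hε1 : ε ≤ 1
  hr : 0 < r
  h5 : 5 * r < 1
  hX5 : (1 + 5 * r) / (1 - 5 * r) < 16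
  hcs : 0 < cs
  hkk : 0 < kk
  hCo : ContDiffOn ℝ ∞ Co (Set.Ioo 0 (1 / r))
  hLo : ContDiffOn ℝ ∞ Lo (Set.Ioo 0 (1 / r))
  hpos : ∀ y ∈ Set.Ioo 0 (1 / r), 0 < Co y ∧ 0 < Lo y
  hin5 : ∀ y ∈ Set.Ioo (0:ℝ) 5, Co y = cs * Real.exp (lV d ε y / d) ∧
        Lo y = kk * Co y ^ 2 * Mf d ε y
  hout : ∀ y ∈ Set.Ioo 0 (1 / r), 18 ≤ (1 + r * y) / (1 - r * y) →
        Co y = (1 + r * y) / (1 - r * y) ∧ Lo y = 4 * r / (1 - r * y) ^ 2
  hgood : ∀ y ∈ Set.Ioo 0 (1 / r),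
        0 < deriv (fun t => t * deriv Lo t / Lo t) y ∧ 0 < deriv Co y ∧
        0 < 1 + y * deriv Lo y / Lo y ∧
        0 < deriv Co y + 2 * y * deriv (deriv Co) y - y * deriv Lo y / Lo y * deriv Co y
  hWs : ContDiff ℝ ∞ Wt
  hW16 : ∀ X : ℝ, X ≤ 16 → Wt X = w0 + 2 / (d * kk) * (X - 1)
  hW18 : ∀ X : ℝ, 18 ≤ X → Wt X = X ^ 2
  hWp : ∀ X : ℝ, 1 ≤ X → 0 < Wt X
  hh : ∀ y ∈ Set.Ioo 0 (1 / r),
        deriv (fun t => Wt ((1 + r * t) / (1 - r * t))) y / (4 * r / (1 - r * y) ^ 2)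
          = deriv (fun t => Co t ^ 2) y / Lo y
  inC : ContDiffOn ℝ ∞ (Cin d s ε r) {x | ‖x‖ ^ 2 < 5}
  inp : ∀ x, 0 < Cin d s ε r x
  inm : IsMet (gin d s ε r) {x | ‖x‖ ^ 2 < 5}
  ina : ∀ x : W, 3 < ‖x‖ ^ 2 → ‖x‖ ^ 2 < 5 → Cin d s ε r x = Real.exp (lV d ε (‖x‖ ^ 2) / d) ∧
    ∀ a b, gin d s ε r x a b = Cin d s ε r x ^ 2 * Mf d ε (‖x‖ ^ 2) * ⟪a, b⟫
  inr : ∀ y : ℝ, 0 ≤ y → y < 5 → ContDiffAt ℝ ∞ (Mf d ε) y ∧ ContDiffAt ℝ ∞ (lV d ε) y ∧
    ContDiffAt ℝ ∞ (zc d ε s) y ∧ ContDiffAt ℝ ∞ chi2 y ∧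
    (∀ᶠ t in 𝓝 y, deriv (lV d ε) t = Mf d ε t / 2) ∧
    ((∀ᶠ t in 𝓝 y, zc d ε s t = 0) ∨ (∀ᶠ t in 𝓝 y, chi2 t = 0))
  inE : ∀ y : ℝ, 0 ≤ y → y < 1 → ∀ᶠ t in 𝓝 y, EEf (Mf d ε) (zc d ε s) t = 0
  inY : ∀ x : W, ‖x‖ ^ 2 < 5 → ContDiffAt ℝ ∞ (Yf r (zc d ε s)) x ∧
    ‖Yf r (zc d ε s) x‖ ^ 2 = Y2f r (zc d ε s) x
  ing : ∀ x : W, ‖x‖ ^ 2 < 5 → OKin d s ε r x ∧ GoodAt (Cin d s ε r) (gin d s ε r) x ∧
      Y2f r (zc d ε s) x < 1 / 2
  xv : S_XV

/-- `C` in the coordinates `x` -/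
noncomputable def tube_Cx (d : ℕ) (s ε r cs : ℝ) (Co : ℝ → ℝ) (x : W) : ℝ :=
  if ‖x‖ ^ 2 < 4 then cs * Cin d s ε r x else Co (‖x‖ ^ 2)

/-- `g₂` in the coordinates `x` -/
noncomputable def tube_gx (d : ℕ) (s ε r cs kk : ℝ) (Lo : ℝ → ℝ) (x a b : W) : ℝ :=
  if ‖x‖ ^ 2 < 4 then kk * cs ^ 2 * gin d s ε r x a b else Lo (‖x‖ ^ 2) * ⟪a, b⟫

/-- the map -/
noncomputable def tube_f (d : ℕ) (s ε r : ℝ) (v : W) : W := vk (Yf r (zc d ε s) (LY.xv r v))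

section
variable {d : ℕ} {s ε r : ℝ} {Co Lo Wt : ℝ → ℝ} {cs kk w0 : ℝ}

theorem tube_r5 (D : tube_D d s ε r Co Lo Wt cs kk w0) : 5 < 1 / r := by
  rw [lt_div_iff₀ D.hr]
  exact D.h5

theorem tube_C_in (D : tube_D d s ε r Co Lo Wt cs kk w0) (x : W) (hx : ‖x‖ ^ 2 < 5) :
    tube_Cx d s ε r cs Co x = cs * Cin d s ε r x := by
  unfold tube_Cx
  split_ifs with h
  · rfl
  · rw [(D.hin5 _ ⟨by linarith, hx⟩).1, (D.ina x (by linarith) hx).1]

theorem tube_g_in (D : tube_D d s ε r Co Lo Wt cs kk w0) (x : W) (hx : ‖x‖ ^ 2 < 5) (a b : W) :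
    tube_gx d s ε r cs kk Lo x a b = kk * cs ^ 2 * gin d s ε r x a b := by
  unfold tube_gx
  split_ifs with h
  · rfl
  · rw [(D.hin5 _ ⟨by linarith, hx⟩).2, (D.hin5 _ ⟨by linarith, hx⟩).1,
      (D.ina x (by linarith) hx).2, (D.ina x (by linarith) hx).1]
    ring

theorem tube_C_out (D : tube_D d s ε r Co Lo Wt cs kk w0) (x : W) (hx : 3 < ‖x‖ ^ 2) :
    tube_Cx d s ε r cs Co x = Co (‖x‖ ^ 2) := by
  unfold tube_Cx
  split_ifs with h
  · rw [(D.hin5 _ ⟨by linarith, by linarith⟩).1, (D.ina x hx (by linarith)).1]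
  · rfl

theorem tube_g_out (D : tube_D d s ε r Co Lo Wt cs kk w0) (x : W) (hx : 3 < ‖x‖ ^ 2) (a b : W) :
    tube_gx d s ε r cs kk Lo x a b = Lo (‖x‖ ^ 2) * ⟪a, b⟫ := by
  unfold tube_gx
  split_ifs with h
  · rw [(D.hin5 _ ⟨by linarith, by linarith⟩).2, (D.hin5 _ ⟨by linarith, by linarith⟩).1,
      (D.ina x hx (by linarith)).2, (D.ina x hx (by linarith)).1]
    ring
  · rfl

/-- the inner region -/
def tube_Ui : Set W := {x | ‖x‖ ^ 2 < 5}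

/-- the outer region -/
def tube_Uo (r : ℝ) : Set W := {x | 3 < ‖x‖ ^ 2 ∧ r * ‖x‖ ^ 2 < 1}

theorem tube_Ui_open : IsOpen tube_Ui := isOpen_lt (by fun_prop) continuous_const

theorem tube_Uo_open (r : ℝ) : IsOpen (tube_Uo r) := by
  have h1 : Continuous (fun x : W => ‖x‖ ^ 2) := continuous_norm.pow 2
  have h2 : Continuous (fun x : W => r * ‖x‖ ^ 2) := continuous_const.mul h1
  have h3 : IsOpen {x : W | 3 < ‖x‖ ^ 2} := isOpen_lt continuous_const h1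
  have h4 : IsOpen {x : W | r * ‖x‖ ^ 2 < 1} := isOpen_lt h2 continuous_const
  exact h3.inter h4

theorem tube_Uo_mem (hr : 0 < r) {x : W} (hx : x ∈ tube_Uo r) : ‖x‖ ^ 2 ∈ Set.Ioo 0 (1 / r) := by
  refine ⟨by linarith [hx.1], ?_⟩
  rw [lt_div_iff₀ hr, mul_comm]
  exact hx.2

theorem tube_sm_Co (D : tube_D d s ε r Co Lo Wt cs kk w0) {x : W} (hx : x ∈ tube_Uo r) :
    ContDiffAt ℝ ∞ Co (‖x‖ ^ 2) :=
  D.hCo.contDiffAt (isOpen_Ioo.mem_nhds (tube_Uo_mem D.hr hx))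

theorem tube_sm_Lo (D : tube_D d s ε r Co Lo Wt cs kk w0) {x : W} (hx : x ∈ tube_Uo r) :
    ContDiffAt ℝ ∞ Lo (‖x‖ ^ 2) :=
  D.hLo.contDiffAt (isOpen_Ioo.mem_nhds (tube_Uo_mem D.hr hx))

theorem tube_mi (D : tube_D d s ε r Co Lo Wt cs kk w0) :
    IsMet (fun x a b => kk * cs ^ 2 * gin d s ε r x a b) tube_Ui :=
  tube_met_scale D.inm _ (by have := D.hkk; have := D.hcs; positivity)

theorem tube_mo (D : tube_D d s ε r Co Lo Wt cs kk w0) :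
    IsMet (fun (x a b : W) => Lo (‖x‖ ^ 2) * ⟪a, b⟫) (tube_Uo r) :=
  tube_conf_met Lo _ (fun _ hx => tube_sm_Lo D hx)
    (fun _ hx => (D.hpos _ (tube_Uo_mem D.hr hx)).2)

theorem tube_cover (D : tube_D d s ε r Co Lo Wt cs kk w0) (v : W) :
    LY.xv r v ∈ tube_Ui ∨ LY.xv r v ∈ tube_Uo r := by
  by_cases h : ‖LY.xv r v‖ ^ 2 < 5
  · exact Or.inl h
  · refine Or.inr ⟨by linarith, ?_⟩
    exact ((D.xv r D.hr).2.2.2.2.2.1 v).2.2.1

theorem tube_g_met (D : tube_D d s ε r Co Lo Wt cs kk w0) :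
    IsMet (tube_gx d s ε r cs kk Lo) (tube_Ui ∪ tube_Uo r) := by
  refine ⟨fun y u u' v => ?_, fun y c u v => ?_, fun y u v => ?_, fun y hy u hu => ?_,
    fun u v y hy => ?_⟩
  · unfold tube_gx
    split_ifs
    · rw [D.inm.add]; ring
    · rw [inner_add_left]; ring
  · unfold tube_gx
    split_ifs
    · rw [D.inm.smul]; ring
    · rw [real_inner_smul_left]; ring
  · unfold tube_gx
    rw [D.inm.symm, real_inner_comm]
  · rcases hy with hy | hy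
    · rw [tube_g_in D y hy]
      exact (tube_mi D).pos y hy u hu
    · rw [tube_g_out D y hy.1]
      exact (tube_mo D).pos y hy u hu
  · refine ContDiffAt.contDiffWithinAt ?_
    rcases hy with hy | hy
    · refine (((tube_mi D).smooth u v).contDiffAt (tube_Ui_open.mem_nhds hy)).congr_of_eventuallyEq ?_
      filter_upwards [tube_Ui_open.mem_nhds hy] with z hz
      exact tube_g_in D z hz u v
    · refine (((tube_mo D).smooth u v).contDiffAt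
        ((tube_Uo_open r).mem_nhds hy)).congr_of_eventuallyEq ?_
      filter_upwards [(tube_Uo_open r).mem_nhds hy] with z hz
      exact tube_g_out D z hz.1 u v

theorem tube_C_smooth (D : tube_D d s ε r Co Lo Wt cs kk w0) {x : W}
    (hx : x ∈ tube_Ui ∪ tube_Uo r) : ContDiffAt ℝ ∞ (tube_Cx d s ε r cs Co) x := by
  rcases hx with hx | hx
  · have h1 : ContDiffAt ℝ ∞ (fun z => cs * Cin d s ε r z) x :=
      contDiffAt_const.mul (D.inC.contDiffAt (tube_Ui_open.mem_nhds hx))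
    refine h1.congr_of_eventuallyEq ?_
    filter_upwards [tube_Ui_open.mem_nhds hx] with z hz
    exact tube_C_in D z hz
  · have h1 : ContDiffAt ℝ ∞ (fun z : W => Co (‖z‖ ^ 2)) x :=
      (tube_sm_Co D hx).comp x (contDiff_norm_sq ℝ).contDiffAt
    refine h1.congr_of_eventuallyEq ?_
    filter_upwards [(tube_Uo_open r).mem_nhds hx] with z hz
    exact tube_C_out D z hz.1

theorem tube_C_pos (D : tube_D d s ε r Co Lo Wt cs kk w0) {x : W}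
    (hx : x ∈ tube_Ui ∪ tube_Uo r) : 0 < tube_Cx d s ε r cs Co x := by
  rcases hx with hx | hx
  · rw [tube_C_in D x hx]
    exact mul_pos D.hcs (D.inp x)
  · rw [tube_C_out D x hx.1]
    exact (D.hpos _ (tube_Uo_mem D.hr hx)).1

/-! ### the map -/

theorem tube_chi1_zero {t : ℝ} (ht : 2 ≤ t) : chi1 t = 0 := by
  unfold chi1
  exact Real.smoothTransition.zero_of_nonpos (by linarith)

theorem tube_f_id (D : tube_D d s ε r Co Lo Wt cs kk w0) (v : W) (hv : 2 ≤ ‖LY.xv r v‖ ^ 2) :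
    tube_f d s ε r v = v := by
  obtain ⟨hX1, -, hlt, -, hv', -, -⟩ := (D.xv r D.hr).2.2.2.2.2.1 v
  have hr := D.hr
  have hs : 0 < √r := Real.sqrt_pos.2 hr
  have hs2 : √r ^ 2 = r := Real.sq_sqrt hr.le
  set x := LY.xv r v with hx
  have hz : zc d ε s (‖x‖ ^ 2) = 0 := by
    unfold zc
    rw [tube_chi1_zero hv, zero_mul]
  have hY : Yf r (zc d ε s) x = (2 * √r / (1 + r * ‖x‖ ^ 2)) • x := by
    unfold Yf
    rw [hz, zero_smul, add_zero]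
  have hp : 0 < 1 + r * ‖x‖ ^ 2 := by positivity
  have hm : 0 < 1 - r * ‖x‖ ^ 2 := by linarith
  have hn : 1 - ‖Yf r (zc d ε s) x‖ ^ 2 = ((1 - r * ‖x‖ ^ 2) / (1 + r * ‖x‖ ^ 2)) ^ 2 := by
    rw [hY, norm_smul, mul_pow, Real.norm_eq_abs, sq_abs, div_pow, mul_pow, hs2]
    field_simp
    ring
  unfold tube_f vk
  rw [hn, Real.sqrt_sq (by positivity), hY, smul_smul]
  conv_rhs => rw [hv']
  congr 1
  field_simp

theorem tube_Y_lt (D : tube_D d s ε r Co Lo Wt cs kk w0) {x : W} (hx : x ∈ tube_Ui) :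
    ‖Yf r (zc d ε s) x‖ ^ 2 < 1 / 2 := by
  rw [(D.inY x hx).2]
  exact (D.ing x hx).2.2

theorem tube_Y_lt' (D : tube_D d s ε r Co Lo Wt cs kk w0) {x : W} (hx : x ∈ tube_Ui) :
    ‖Yf r (zc d ε s) x‖ < 1 := by
  have h1 := tube_Y_lt D hx
  have h2 := norm_nonneg (Yf r (zc d ε s) x)
  nlinarith

theorem tube_f_ev (D : tube_D d s ε r Co Lo Wt cs kk w0) (v : W) (hv : 2 < ‖LY.xv r v‖ ^ 2) :
    ∀ᶠ w in 𝓝 v, tube_f d s ε r w = w := by
  have hc : Continuous (fun w => ‖LY.xv r w‖ ^ 2) :=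
    ((D.xv r D.hr).2.1.continuous.norm).pow 2
  filter_upwards [hc.continuousAt.eventually (lt_mem_nhds hv)] with w hw
  exact tube_f_id D w hw.le

theorem tube_f_smooth (D : tube_D d s ε r Co Lo Wt cs kk w0) (v : W) :
    ContDiffAt ℝ ∞ (tube_f d s ε r) v := by
  rcases tube_cover D v with h | h
  · have h1 := (D.inY _ h).1
    have h2 := ((D.xv r D.hr).2.2.2.2.2.2.2.2.1 _ (tube_Y_lt' D h)).2
    have h3 : ContDiffAt ℝ ∞ (Yf r (zc d ε s) ∘ LY.xv r) v :=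
      ContDiffAt.comp v h1 (D.xv r D.hr).2.1.contDiffAt
    exact ContDiffAt.comp v
      (show ContDiffAt ℝ ∞ vk ((Yf r (zc d ε s) ∘ LY.xv r) v) from h2) h3
  · refine contDiffAt_id.congr_of_eventuallyEq ?_
    exact tube_f_ev D v (by linarith [h.1])

theorem tube_ch_mono (v : W) : ‖v‖ ≤ ch v := by
  unfold ch
  refine Real.le_sqrt_of_sq_le ?_
  linarith

theorem tube_far (D : tube_D d s ε r Co Lo Wt cs kk w0) (v : W) (hv : 18 ≤ ‖v‖) :
    5 ≤ ‖LY.xv r v‖ ^ 2 ∧ LY.xv r v ∈ tube_Uo r ∧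
      18 ≤ (1 + r * ‖LY.xv r v‖ ^ 2) / (1 - r * ‖LY.xv r v‖ ^ 2) := by
  obtain ⟨hX1, -, hlt, hX, -, -, -⟩ := (D.xv r D.hr).2.2.2.2.2.1 v
  have hr := D.hr
  have h5 := D.h5
  have hX5 := D.hX5
  have h18 : 18 ≤ ch v := hv.trans (tube_ch_mono v)
  have h5' : 5 ≤ ‖LY.xv r v‖ ^ 2 := by
    by_contra hcon
    push Not at hcon
    have h1 : r * ‖LY.xv r v‖ ^ 2 < 5 * r := by nlinarith
    have h2 : (1 + r * ‖LY.xv r v‖ ^ 2) / (1 - r * ‖LY.xv r v‖ ^ 2) ≤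
        (1 + 5 * r) / (1 - 5 * r) := by
      rw [div_le_div_iff₀ (by linarith) (by linarith)]
      nlinarith
    rw [hX] at h2
    linarith
  refine ⟨h5', ⟨by linarith, hlt⟩, ?_⟩
  rw [hX]
  exact h18

theorem tube_f_in (D : tube_D d s ε r Co Lo Wt cs kk w0) (v : W) (hv : ‖v‖ < 18) :
    ‖tube_f d s ε r v‖ < 18 := by
  by_cases h : 2 ≤ ‖LY.xv r v‖ ^ 2
  · rw [tube_f_id D v h]
    exact hv
  · have h1 : LY.xv r v ∈ tube_Ui := by
      show ‖LY.xv r v‖ ^ 2 < 5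
      linarith
    have h2 := tube_Y_lt D h1
    unfold tube_f vk
    set Y := Yf r (zc d ε s) (LY.xv r v) with hY
    have h3 : ‖(√(1 - ‖Y‖ ^ 2))⁻¹ • Y‖ ^ 2 < 18 ^ 2 := by
      rw [norm_smul, mul_pow, Real.norm_eq_abs, sq_abs, inv_pow, Real.sq_sqrt (by linarith),
        inv_mul_eq_div, div_lt_iff₀ (by linarith)]
      linarith
    exact lt_of_pow_lt_pow_left₀ 2 (by norm_num) h3

theorem tube_fold (D : tube_D d s ε r Co Lo Wt cs kk w0) (hF : ∃ t t' : ℝ, t ≠ t' ∧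
    r * t ^ 2 < 1 ∧ r * t' ^ 2 < 1 ∧
    (t + zc d ε s (t ^ 2)) / (1 + r * t ^ 2) = (t' + zc d ε s (t' ^ 2)) / (1 + r * t' ^ 2)) :
    ∃ v v' : W, v ≠ v' ∧ tube_f d s ε r v = tube_f d s ε r v' := by
  obtain ⟨t, t', hne, ht, ht', heq⟩ := hF
  have hr := D.hr
  have he : ‖e0‖ = 1 := by
    unfold e0
    simp
  have he0 : e0 ≠ 0 := by
    intro h0
    rw [h0, norm_zero] at he
    norm_num at he
  have hn : ∀ t : ℝ, ‖t • e0‖ ^ 2 = t ^ 2 := by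
    intro t
    rw [norm_smul, he, mul_one, Real.norm_eq_abs, sq_abs]
  have hx : ∀ t : ℝ, r * t ^ 2 < 1 →
      LY.xv r ((2 * √r / (1 - r * ‖t • e0‖ ^ 2)) • (t • e0)) = t • e0 := by
    intro t ht
    refine (D.xv r hr).2.2.2.2.2.2.2.2.2.1 (t • e0) ?_
    rw [hn]
    exact ht
  have hY : ∀ t : ℝ, Yf r (zc d ε s) (t • e0) =
      (2 * √r * ((t + zc d ε s (t ^ 2)) / (1 + r * t ^ 2))) • e0 := by
    intro t
    unfold Yf
    rw [hn, ← add_smul, smul_smul]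
    congr 1
    ring
  refine ⟨(2 * √r / (1 - r * ‖t • e0‖ ^ 2)) • (t • e0),
    (2 * √r / (1 - r * ‖t' • e0‖ ^ 2)) • (t' • e0), ?_, ?_⟩
  · intro hcon
    have h1 := congrArg (LY.xv r) hcon
    rw [hx t ht, hx t' ht'] at h1
    exact hne (smul_left_injective ℝ he0 h1)
  · unfold tube_f
    rw [hx t ht, hx t' ht', hY, hY, heq]

/-! ### smoothness, positivity and the region far away -/

theorem tube_C_contDiff (D : tube_D d s ε r Co Lo Wt cs kk w0) :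
    ContDiff ℝ ∞ (fun v => tube_Cx d s ε r cs Co (LY.xv r v)) := by
  rw [contDiff_iff_contDiffAt]
  intro v
  exact ContDiffAt.comp v (tube_C_smooth D (tube_cover D v)) (D.xv r D.hr).2.1.contDiffAt

theorem tube_c_pos (D : tube_D d s ε r Co Lo Wt cs kk w0) (v : W) : 0 < √(Wt (ch v)) :=
  Real.sqrt_pos.2 (D.hWp _ ((D.xv r D.hr).2.2.2.2.2.1 v).1)

theorem tube_c_smooth (D : tube_D d s ε r Co Lo Wt cs kk w0) :
    ContDiff ℝ ∞ (fun v => √(Wt (ch v))) :=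
  ContDiff.sqrt (D.hWs.comp (D.xv r D.hr).1)
    (fun v => (D.hWp _ ((D.xv r D.hr).2.2.2.2.2.1 v).1).ne')

/-! ### negative curvature of the source -/

theorem tube_good_in (hSCALE : S_SCALE) (D : tube_D d s ε r Co Lo Wt cs kk w0) {x : W}
    (hx : x ∈ tube_Ui) : GoodAt (fun x => cs * Cin d s ε r x)
      (fun x a b => kk * cs ^ 2 * gin d s ε r x a b) x := by
  have hk : 0 < kk * cs ^ 2 := by have := D.hkk; have := D.hcs; positivity
  refine hSCALE (Cin d s ε r) (gin d s ε r) x cs (kk * cs ^ 2) D.hcs hk ?_ (D.ing x hx).2.1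
  filter_upwards [tube_Ui_open.mem_nhds hx] with z hz
  exact (D.inC.contDiffAt (tube_Ui_open.mem_nhds hz)).differentiableAt (by simp)

theorem tube_good_out (hRAD : S_RAD) (D : tube_D d s ε r Co Lo Wt cs kk w0) {x : W}
    (hx : x ∈ tube_Uo r) : GoodAt (fun x => Co (‖x‖ ^ 2))
      (fun (x a b : W) => Lo (‖x‖ ^ 2) * ⟪a, b⟫) x := by
  have hm := tube_Uo_mem D.hr hx
  obtain ⟨h1, h2, h3, h4⟩ := D.hgood _ hm
  refine hRAD (fun x => Co (‖x‖ ^ 2)) (fun (x a b : W) => Lo (‖x‖ ^ 2) * ⟪a, b⟫) Co Lo x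
    (Filter.Eventually.of_forall fun z => rfl) (Filter.Eventually.of_forall fun z a b => rfl)
    (tube_sm_Co D hx) (tube_sm_Lo D hx) (D.hpos _ hm).1 (D.hpos _ hm).2 h1 h2 h3 h4

theorem tube_neg_src (hN1 : S_N1) (hHYP : S_HYP) (hBMET : S_BMET) (hCRV : S_CRV) (hRAD : S_RAD)
    (hSCALE : S_SCALE) (D : tube_D d s ε r Co Lo Wt cs kk w0) (p : P d) :
    NegAt (blk (d := d) (fun v => tube_Cx d s ε r cs Co (LY.xv r v))
      (fun v a b => tube_gx d s ε r cs kk Lo (LY.xv r v) (fderiv ℝ (LY.xv r) v a)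
        (fderiv ℝ (LY.xv r) v b))) p := by
  have hb := (D.xv r D.hr).2.2.2.1 p.2
  have hφ := (D.xv r D.hr).2.1
  rcases tube_cover D p.2 with h | h
  · refine tube_neg hN1 hHYP hBMET hCRV _ (fun x => cs * Cin d s ε r x) _
      (fun x a b => kk * cs ^ 2 * gin d s ε r x a b) tube_Ui (LY.xv r) p tube_Ui_open (tube_mi D)
      (contDiffOn_const.mul D.inC) (fun x _ => mul_pos D.hcs (D.inp x)) h hφ hb ?_
      (tube_good_in hSCALE D h)
    filter_upwards [hφ.continuous.continuousAt.eventually (tube_Ui_open.mem_nhds h)] with v hv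
    exact ⟨tube_C_in D _ hv, fun a b => tube_g_in D _ hv _ _⟩
  · refine tube_neg hN1 hHYP hBMET hCRV _ (fun x => Co (‖x‖ ^ 2)) _
      (fun (x a b : W) => Lo (‖x‖ ^ 2) * ⟪a, b⟫) (tube_Uo r) (LY.xv r) p (tube_Uo_open r)
      (tube_mo D) ?_ (fun x hx => (D.hpos _ (tube_Uo_mem D.hr hx)).1) h hφ hb ?_
      (tube_good_out hRAD D h)
    · intro x hx
      exact (ContDiffAt.comp x (tube_sm_Co D hx) (contDiff_norm_sq ℝ).contDiffAt).contDiffWithinAt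
    · filter_upwards [hφ.continuous.continuousAt.eventually ((tube_Uo_open r).mem_nhds h)]
        with v hv
      exact ⟨tube_C_out D _ hv.1, fun a b => tube_g_out D _ hv.1 _ _⟩

/-! ### harmonicity: the inner region -/

/-- the image region -/
def tube_Uk : Set W := {Y | ‖Y‖ ^ 2 < 1 / 2}

theorem tube_Uk_open : IsOpen tube_Uk := by
  have h1 : Continuous (fun x : W => ‖x‖ ^ 2) := continuous_norm.pow 2
  exact isOpen_lt h1 continuous_const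

theorem tube_Uk_lt {Y : W} (hY : Y ∈ tube_Uk) : ‖Y‖ < 1 := by
  have h1 : ‖Y‖ ^ 2 < 1 / 2 := hY
  have h2 := norm_nonneg Y
  nlinarith

theorem tube_met_mono {g : W → W → W → ℝ} {U U' : Set W} (hg : IsMet g U) (h : U' ⊆ U) :
    IsMet g U' :=
  ⟨hg.add, hg.smul, hg.symm, fun y hy => hg.pos y (h hy), fun u v => (hg.smooth u v).mono h⟩

theorem tube_X_bd {Y : W} (hY : Y ∈ tube_Uk) :
    1 ≤ 1 / √(1 - ‖Y‖ ^ 2) ∧ 1 / √(1 - ‖Y‖ ^ 2) ≤ 16 := by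
  have h1 : ‖Y‖ ^ 2 < 1 / 2 := hY
  have h2 : 0 ≤ ‖Y‖ ^ 2 := by positivity
  have h3 : 0 < √(1 - ‖Y‖ ^ 2) := Real.sqrt_pos.2 (by linarith)
  constructor
  · rw [le_div_iff₀ h3, one_mul]
    exact Real.sqrt_le_one.2 (by linarith)
  · rw [div_le_iff₀ h3]
    have h4 : (1:ℝ) / 2 ≤ √(1 - ‖Y‖ ^ 2) := Real.le_sqrt_of_sq_le (by linarith)
    linarith

theorem tube_ck_smooth (D : tube_D d s ε r Co Lo Wt cs kk w0) :
    ContDiffOn ℝ ∞ (fun Y : W => √(Wt (1 / √(1 - ‖Y‖ ^ 2)))) tube_Uk := by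
  intro Y hY
  refine ContDiffAt.contDiffWithinAt ?_
  have h1 : ‖Y‖ ^ 2 < 1 / 2 := hY
  have h0 : (1 - ‖Y‖ ^ 2) ≠ 0 := by
    intro h; linarith
  have h3 : √(1 - ‖Y‖ ^ 2) ≠ 0 := (Real.sqrt_pos.2 (by linarith)).ne'
  have h4 : ContDiffAt ℝ ∞ (fun Y : W => √(1 - ‖Y‖ ^ 2)) Y :=
    ContDiffAt.sqrt (contDiffAt_const.sub (contDiff_norm_sq ℝ).contDiffAt) h0
  have h5 : ContDiffAt ℝ ∞ (fun Y : W => 1 / √(1 - ‖Y‖ ^ 2)) Y := contDiffAt_const.div h4 h3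
  have h6 : ContDiffAt ℝ ∞ (fun Y : W => Wt (1 / √(1 - ‖Y‖ ^ 2))) Y :=
    ContDiffAt.comp Y D.hWs.contDiffAt h5
  exact h6.sqrt (D.hWp _ (tube_X_bd hY).1).ne'

theorem tube_kv_ch (v : W) : 1 / √(1 - ‖kv v‖ ^ 2) = ch v := by
  have h1 : 0 < 1 + ‖v‖ ^ 2 := by positivity
  have h2 : 0 < ch v := Real.sqrt_pos.2 h1
  have h3 : ch v ^ 2 = 1 + ‖v‖ ^ 2 := Real.sq_sqrt h1.le
  have h4 : 1 - ‖kv v‖ ^ 2 = (1 / ch v) ^ 2 := by
    unfold kv
    rw [norm_smul, mul_pow, Real.norm_eq_abs, sq_abs, inv_pow, h3, div_pow, h3]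
    field_simp
    ring
  rw [h4, Real.sqrt_sq (by positivity), one_div_one_div]

theorem tube_harm_in (hN2 : S_N2) (hHYP : S_HYP) (hBMET : S_BMET) (hTEN : S_TEN)
    (hKLEIN : S_KLEIN) (hINHARM : S_INHARM)
    (D : tube_D d s ε r Co Lo Wt cs kk w0) (p : P d) (h : LY.xv r p.2 ∈ tube_Ui) :
    TensionZeroAt (blk (d := d) (fun v => tube_Cx d s ε r cs Co (LY.xv r v))
      (fun v a b => tube_gx d s ε r cs kk Lo (LY.xv r v) (fderiv ℝ (LY.xv r) v a)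
        (fderiv ℝ (LY.xv r) v b))) (blk (d := d) (fun v => √(Wt (ch v))) hyp)
      (fun q => (q.1, tube_f d s ε r q.2)) p := by
  obtain ⟨x1, x2, x3, x4, x5, x6, x7, x8, x9, x10, x11⟩ := D.xv r D.hr
  have hev : ∀ᶠ v in 𝓝 p.2, LY.xv r v ∈ tube_Ui :=
    x2.continuous.continuousAt.eventually (tube_Ui_open.mem_nhds h)
  have hkf : ∀ v, LY.xv r v ∈ tube_Ui →
      kv (tube_f d s ε r v) = Yf r (zc d ε s) (LY.xv r v) := by
    intro v hv
    exact (x9 _ (tube_Y_lt' D hv)).1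
  have hkp : kv (tube_f d s ε r p.2) ∈ tube_Uk := by
    rw [hkf _ h]
    exact tube_Y_lt D h
  refine tube_harm hN2 hHYP hBMET _ (fun x => cs * Cin d s ε r x) _
    (fun Y => √(Wt (1 / √(1 - ‖Y‖ ^ 2)))) _ (fun x a b => kk * cs ^ 2 * gin d s ε r x a b) _ kl
    tube_Ui tube_Uk (LY.xv r) kv _ (Yf r (zc d ε s)) p tube_Ui_open tube_Uk_open (tube_mi D)
    (contDiffOn_const.mul D.inC) (fun x _ => mul_pos D.hcs (D.inp x))
    (tube_met_mono x11 fun Y hY => tube_Uk_lt hY) (tube_ck_smooth D)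
    (fun Y hY => Real.sqrt_pos.2 (D.hWp _ (tube_X_bd hY).1)) h hkp x2 (x4 _) x3 (x5 _)
    (tube_f_smooth D _) (D.inY _ h).1 ?_ ?_ ?_ ?_
  · filter_upwards [hev] with v hv
    exact hkf v hv
  · filter_upwards [hev] with v hv
    exact ⟨tube_C_in D _ hv, fun a b => tube_g_in D _ hv _ _⟩
  · refine Filter.Eventually.of_forall fun v => ⟨?_, x8 v⟩
    rw [tube_kv_ch]
  · refine hINHARM hHYP hTEN hKLEIN d r (Mf d ε) (lV d ε) (zc d ε s) chi2 tube_Ui tube_Uk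
      (fun Y => √(Wt (1 / √(1 - ‖Y‖ ^ 2)))) cs kk w0 (p.1, LY.xv r p.2) D.hd D.hr D.hcs D.hkk
      tube_Ui_open h ?_ tube_Uk_open (fun x hx => tube_Y_lt D hx) (tube_ck_smooth D)
      (fun Y hY => Real.sqrt_pos.2 (D.hWp _ (tube_X_bd hY).1)) (fun Y hY => tube_Uk_lt hY) ?_
    · intro x hx
      have hx0 : 0 ≤ ‖x‖ ^ 2 := by positivity
      obtain ⟨a1, a2, a3, a4, a5, a6⟩ := D.inr (‖x‖ ^ 2) hx0 hx
      obtain ⟨b1, b2, b3, b4, b5, b6, b7, b8, b9⟩ := (D.ing x hx).1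
      refine ⟨a1, a2, a3, a4, a5, a6, b2, b3, b7, b8, ?_⟩
      rcases b9 with b9 | b9
      · exact Or.inl (D.inE _ hx0 b9)
      · exact Or.inr b9
    · intro Y hY
      obtain ⟨y1, y2⟩ := tube_X_bd hY
      rw [Real.sq_sqrt (D.hWp _ y1).le, D.hW16 _ y2]

/-! ### harmonicity: the outer region -/

/-- the derivative of a radial function -/
theorem tube_fderiv_rad (L : ℝ → ℝ) (x a : W) (hL : DifferentiableAt ℝ L (‖x‖ ^ 2)) :
    fderiv ℝ (fun z : W => L (‖z‖ ^ 2)) x a = deriv L (‖x‖ ^ 2) * (2 * ⟪x, a⟫) := by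
  have h1 : HasFDerivAt (fun z : W => ‖z‖ ^ 2) (2 • (innerSL ℝ x)) x :=
    (hasStrictFDerivAt_norm_sq x).hasFDerivAt
  have h2 : HasFDerivAt (fun z : W => L (‖z‖ ^ 2)) (deriv L (‖x‖ ^ 2) • (2 • (innerSL ℝ x))) x :=
    HasDerivAt.comp_hasFDerivAt x hL.hasDerivAt h1
  rw [h2.fderiv]
  simp

theorem tube_X_one {t : ℝ} (h0 : 0 < r * t) (h1 : r * t < 1) : 1 ≤ (1 + r * t) / (1 - r * t) := by
  rw [le_div_iff₀ (by linarith)]
  linarith

theorem tube_WX_smooth (D : tube_D d s ε r Co Lo Wt cs kk w0) {t : ℝ} (h : r * t < 1) :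
    ContDiffAt ℝ ∞ (fun t => Wt ((1 + r * t) / (1 - r * t))) t := by
  have h1 : ContDiffAt ℝ ∞ (fun t : ℝ => (1 + r * t) / (1 - r * t)) t := by
    refine ContDiffAt.div ?_ ?_ (by intro hc; linarith)
    · exact contDiffAt_const.add (contDiffAt_const.mul contDiffAt_id)
    · exact contDiffAt_const.sub (contDiffAt_const.mul contDiffAt_id)
  exact ContDiffAt.comp t D.hWs.contDiffAt h1

theorem tube_Lp_smooth {x : W} (hx : x ∈ tube_Uo r) :
    ContDiffAt ℝ ∞ (fun t : ℝ => 4 * r / (1 - r * t) ^ 2) (‖x‖ ^ 2) := by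
  have h1 : 0 < 1 - r * ‖x‖ ^ 2 := by linarith [hx.2]
  refine ContDiffAt.div contDiffAt_const ?_ (by positivity)
  exact (contDiffAt_const.sub (contDiffAt_const.mul contDiffAt_id)).pow 2

theorem tube_harm_out (hN2 : S_N2) (hHYP : S_HYP) (hBMET : S_BMET) (hTEN : S_TEN)
    (hIDC : S_IDC)
    (D : tube_D d s ε r Co Lo Wt cs kk w0) (p : P d) (h : LY.xv r p.2 ∈ tube_Uo r) :
    TensionZeroAt (blk (d := d) (fun v => tube_Cx d s ε r cs Co (LY.xv r v))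
      (fun v a b => tube_gx d s ε r cs kk Lo (LY.xv r v) (fderiv ℝ (LY.xv r) v a)
        (fderiv ℝ (LY.xv r) v b))) (blk (d := d) (fun v => √(Wt (ch v))) hyp)
      (fun q => (q.1, tube_f d s ε r q.2)) p := by
  obtain ⟨x1, x2, x3, x4, x5, x6, x7, x8, x9, x10, x11⟩ := D.xv r D.hr
  have hr := D.hr
  have hev : ∀ᶠ v in 𝓝 p.2, LY.xv r v ∈ tube_Uo r :=
    x2.continuous.continuousAt.eventually ((tube_Uo_open r).mem_nhds h)
  have hfe : ∀ᶠ v in 𝓝 p.2, tube_f d s ε r v = v := tube_f_ev D _ (by linarith [h.1])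
  have hf0 : tube_f d s ε r p.2 = p.2 := tube_f_id D _ (by linarith [h.1])
  have hX1 : ∀ x ∈ tube_Uo r, 1 ≤ (1 + r * ‖x‖ ^ 2) / (1 - r * ‖x‖ ^ 2) := by
    intro x hx
    exact tube_X_one (mul_pos hr (tube_Uo_mem hr hx).1) hx.2
  have hWs : ∀ x ∈ tube_Uo r,
      ContDiffAt ℝ ∞ (fun x : W => Wt ((1 + r * ‖x‖ ^ 2) / (1 - r * ‖x‖ ^ 2))) x := by
    intro x hx
    exact ContDiffAt.comp (f := fun x : W => ‖x‖ ^ 2)
      (g := fun t : ℝ => Wt ((1 + r * t) / (1 - r * t))) x (tube_WX_smooth D hx.2)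
      (contDiff_norm_sq ℝ).contDiffAt
  have hcs : ContDiffOn ℝ ∞ (fun x : W => √(Wt ((1 + r * ‖x‖ ^ 2) / (1 - r * ‖x‖ ^ 2))))
      (tube_Uo r) := by
    intro x hx
    exact ((hWs x hx).sqrt (D.hWp _ (hX1 x hx)).ne').contDiffWithinAt
  have hCs : ContDiffOn ℝ ∞ (fun x : W => Co (‖x‖ ^ 2)) (tube_Uo r) := by
    intro x hx
    exact (ContDiffAt.comp x (tube_sm_Co D hx) (contDiff_norm_sq ℝ).contDiffAt).contDiffWithinAt
  have hLs : ContDiffOn ℝ ∞ (fun x : W => Lo (‖x‖ ^ 2)) (tube_Uo r) := by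
    intro x hx
    exact (ContDiffAt.comp x (tube_sm_Lo D hx) (contDiff_norm_sq ℝ).contDiffAt).contDiffWithinAt
  have hPs : ContDiffOn ℝ ∞ (fun x : W => 4 * r / (1 - r * ‖x‖ ^ 2) ^ 2) (tube_Uo r) := by
    intro x hx
    exact (ContDiffAt.comp (f := fun x : W => ‖x‖ ^ 2)
      (g := fun t : ℝ => 4 * r / (1 - r * t) ^ 2) x (tube_Lp_smooth hx)
      (contDiff_norm_sq ℝ).contDiffAt).contDiffWithinAt
  have hPp : ∀ x ∈ tube_Uo r, 0 < 4 * r / (1 - r * ‖x‖ ^ 2) ^ 2 := by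
    intro x hx
    have h1 : 0 < 1 - r * ‖x‖ ^ 2 := by linarith [hx.2]
    positivity
  have hmet : IsMet (fun (x a b : W) => 4 * r / (1 - r * ‖x‖ ^ 2) ^ 2 * ⟪a, b⟫) (tube_Uo r) :=
    tube_conf_met (fun t => 4 * r / (1 - r * t) ^ 2) (tube_Uo r)
      (fun x hx => tube_Lp_smooth hx) hPp
  refine tube_harm hN2 hHYP hBMET _ (fun x => Co (‖x‖ ^ 2)) _
    (fun x => √(Wt ((1 + r * ‖x‖ ^ 2) / (1 - r * ‖x‖ ^ 2)))) _
    (fun (x a b : W) => Lo (‖x‖ ^ 2) * ⟪a, b⟫) _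
    (fun (x a b : W) => 4 * r / (1 - r * ‖x‖ ^ 2) ^ 2 * ⟪a, b⟫)
    (tube_Uo r) (tube_Uo r) (LY.xv r) (LY.xv r) _ (fun x => x) p (tube_Uo_open r) (tube_Uo_open r)
    (tube_mo D) hCs (fun x hx => (D.hpos _ (tube_Uo_mem D.hr hx)).1) hmet hcs
    (fun x hx => Real.sqrt_pos.2 (D.hWp _ (hX1 x hx))) h (by rw [hf0]; exact h) x2 (x4 _) x2
    (x4 _) (tube_f_smooth D _) contDiffAt_id ?_ ?_ ?_ ?_
  · filter_upwards [hfe] with v hv
    rw [hv]
  · filter_upwards [hev] with v hv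
    exact ⟨tube_C_out D _ hv.1, fun a b => tube_g_out D _ hv.1 _ _⟩
  · refine Filter.Eventually.of_forall fun v => ⟨?_, x7 v⟩
    rw [(x6 v).2.2.2.1]
  · refine hIDC hHYP hTEN d (fun x => Co (‖x‖ ^ 2))
      (fun x => √(Wt ((1 + r * ‖x‖ ^ 2) / (1 - r * ‖x‖ ^ 2)))) (fun x => Lo (‖x‖ ^ 2))
      (fun x => 4 * r / (1 - r * ‖x‖ ^ 2) ^ 2) (tube_Uo r) (p.1, LY.xv r p.2) (tube_Uo_open r) h
      hCs hcs hLs hPs (fun x hx => (D.hpos _ (tube_Uo_mem D.hr hx)).1)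
      (fun x hx => Real.sqrt_pos.2 (D.hWp _ (hX1 x hx)))
      (fun x hx => (D.hpos _ (tube_Uo_mem D.hr hx)).2) hPp ?_
    intro a
    set x := LY.xv r p.2 with hx
    have hm := tube_Uo_mem hr h
    have e1 : (fun z : W => √(Wt ((1 + r * ‖z‖ ^ 2) / (1 - r * ‖z‖ ^ 2))) ^ 2) =ᶠ[𝓝 x]
        (fun z : W => (fun t : ℝ => Wt ((1 + r * t) / (1 - r * t))) (‖z‖ ^ 2)) := by
      filter_upwards [(tube_Uo_open r).mem_nhds h] with z hz
      exact Real.sq_sqrt (D.hWp _ (hX1 z hz)).le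
    have e2 : fderiv ℝ (fun z : W => √(Wt ((1 + r * ‖z‖ ^ 2) / (1 - r * ‖z‖ ^ 2))) ^ 2) x a =
        deriv (fun t => Wt ((1 + r * t) / (1 - r * t))) (‖x‖ ^ 2) * (2 * ⟪x, a⟫) := by
      rw [e1.fderiv_eq]
      exact tube_fderiv_rad (fun t : ℝ => Wt ((1 + r * t) / (1 - r * t))) x a
        ((tube_WX_smooth D h.2).differentiableAt (by simp))
    have e3 : fderiv ℝ (fun z : W => Co (‖z‖ ^ 2) ^ 2) x a =
        deriv (fun t => Co t ^ 2) (‖x‖ ^ 2) * (2 * ⟪x, a⟫) :=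
      tube_fderiv_rad (fun t => Co t ^ 2) x a
        (((tube_sm_Co D h).pow 2).differentiableAt (by simp))
    have e4 := D.hh _ hm
    show fderiv ℝ (fun z : W => √(Wt ((1 + r * ‖z‖ ^ 2) / (1 - r * ‖z‖ ^ 2))) ^ 2) x a /
        (4 * r / (1 - r * ‖x‖ ^ 2) ^ 2) =
      fderiv ℝ (fun z : W => Co (‖z‖ ^ 2) ^ 2) x a / Lo (‖x‖ ^ 2)
    rw [e2, e3, mul_div_right_comm, e4, mul_div_right_comm]

end

/-! ### the result -/

theorem t_TUBE2 : S_TUBE2 := by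
  intro _ hXV hINSM hFOLD hN1 hN2 hHYP hBMET hCRV hRAD hSCALE hTEN hIDC hKLEIN hINHARM hPOLY hSM
    hINGOOD hOUT hTGT hOPEN d hd
  obtain ⟨s, ε, r1, hs, hε, hε1, hr1, hr1', ⟨t0, ht0, htd⟩, hin⟩ :=
    hINGOOD hPOLY hSM hRAD hOPEN d hd
  obtain ⟨r2, hr2, hout⟩ := hOUT hPOLY hSM d ε hd hε hε1
  obtain ⟨r, hr, hrr1, hrr2⟩ : ∃ r : ℝ, 0 < r ∧ r < r1 ∧ r < r2 := by
    have h1 : 0 < min r1 r2 := lt_min hr1 hr2
    exact ⟨min r1 r2 / 2, by positivity, by linarith [min_le_left r1 r2],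
      by linarith [min_le_right r1 r2]⟩
  obtain ⟨h5, hX5, Co, Lo, Wt, cs, kk, w0, hcs, hkk, hw0, hCo, hLo, hpos, hin5, hout18, hgood,
    hWs, hW16, hW18, hWp, hh⟩ := hout r hr hrr2
  have h10 : 10 * r < 1 := by linarith
  obtain ⟨i1, i2, i3, i4, i5, i6, i7⟩ := hINSM hPOLY hSM d s ε r hd hε hε1 hr h10
    (fun x hx => (hin r hr hrr1 x hx).1)
  have hfold := hFOLD hPOLY hSM d s ε r t0 hd hε hε1 hr h10 ht0 (htd r hr.le hrr1)
  have D : tube_D d s ε r Co Lo Wt cs kk w0 :=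
    { hd := hd, hε := hε, hε1 := hε1, hr := hr, h5 := h5, hX5 := hX5, hcs := hcs, hkk := hkk,
      hCo := hCo, hLo := hLo, hpos := hpos, hin5 := hin5, hout := hout18, hgood := hgood,
      hWs := hWs, hW16 := hW16, hW18 := hW18, hWp := fun X hX => (hWp X hX).1, hh := hh,
      inC := i1, inp := i2, inm := i3, ina := i4, inr := i5, inE := i6, inY := i7,
      ing := fun x hx => hin r hr hrr1 x hx, xv := hXV }
  obtain ⟨x1, x2, x3, x4, x5, x6, x7, x8, x9, x10, x11⟩ := hXV r hr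
  refine ⟨fun v => tube_Cx d s ε r cs Co (LY.xv r v),
    fun v a b => tube_gx d s ε r cs kk Lo (LY.xv r v) (fderiv ℝ (LY.xv r) v a)
        (fderiv ℝ (LY.xv r) v b), fun v => √(Wt (ch v)), tube_f d s ε r, ?_⟩
  refine
    { C_smooth := tube_C_contDiff D
      C_pos := fun v => tube_C_pos D (tube_cover D v)
      g2_met := tube_pull_met (tube_Ui_open.union (tube_Uo_open r)) (tube_g_met D) x2
        (fun v => tube_cover D v) x4
      c_smooth := tube_c_smooth D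
      c_pos := tube_c_pos D
      f_smooth := contDiff_iff_contDiffAt.2 fun v => tube_f_smooth D v
      C_out := fun v hv => ?_
      g2_out := fun v hv a b => ?_
      c_out := fun v hv => ?_
      f_out := fun v hv => tube_f_id D v (by linarith [(tube_far D v hv).1])
      f_in := tube_f_in D
      neg_src := tube_neg_src hN1 hHYP hBMET hCRV hRAD hSCALE D
      neg_tgt := hTGT hN1 hHYP hBMET hCRV hRAD d Wt hWs hWp
      harm := fun p => ?_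
      fold := tube_fold D hfold }
  · obtain ⟨k1, k2, k3⟩ := tube_far D v hv
    show tube_Cx d s ε r cs Co (LY.xv r v) = ch v
    rw [tube_C_out D _ (by linarith), (hout18 _ (tube_Uo_mem hr k2) k3).1, (x6 v).2.2.2.1]
  · obtain ⟨k1, k2, k3⟩ := tube_far D v hv
    show tube_gx d s ε r cs kk Lo (LY.xv r v) (fderiv ℝ (LY.xv r) v a)
        (fderiv ℝ (LY.xv r) v b) = hyp v a b
    rw [tube_g_out D _ (by linarith), (hout18 _ (tube_Uo_mem hr k2) k3).2, x7 v a b]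
  · have h1 : 18 ≤ ch v := hv.trans (tube_ch_mono v)
    show √(Wt (ch v)) = ch v
    rw [hW18 _ h1, Real.sqrt_sq (by linarith)]
  · rcases tube_cover D p.2 with h | h
    · exact tube_harm_in hN2 hHYP hBMET hTEN hKLEIN hINHARM D p h
    · exact tube_harm_out hN2 hHYP hBMET hTEN hIDC D p h

end Pool.Agent.Helper473.LY
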