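import Pool.Agent.Helper473.LY.Stmts2

set_option autoImplicit false

open scoped Manifold ContDiff Topology RealInnerProductSpace
open Module

namespace Pool.Agent.Helper473.LY

open Pool.Agent.H234R3

theorem xv_sq (v : W) : ch v ^ 2 = 1 + ‖v‖ ^ 2 := Real.sq_sqrt (by positivity)

theorem xv_one_le (v : W) : 1 ≤ ch v := by
  rw [ch, Real.one_le_sqrt]
  nlinarith [sq_nonneg ‖v‖]

theorem xv_pos (v : W) : 0 < ch v := lt_of_lt_of_le one_pos (xv_one_le v)

theorem xv_ch_smooth : ContDiff ℝ ∞ ch :=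
  (contDiff_const.add (contDiff_norm_sq ℝ)).sqrt fun v => by positivity

theorem xv_smooth {r : ℝ} (hr : 0 < r) : ContDiff ℝ ∞ (xv r) := by
  refine ContDiff.smul (ContDiff.inv (contDiff_const.mul (contDiff_const.add xv_ch_smooth)) ?_)
    contDiff_id
  intro v
  have h1 := xv_pos v
  have h2 := Real.sqrt_pos.2 hr
  positivity

theorem xv_k_smooth : ContDiff ℝ ∞ kv :=
  ContDiff.smul (ContDiff.inv xv_ch_smooth fun v => (xv_pos v).ne') contDiff_id

theorem xv_ch_der (v : W) : HasFDerivAt ch ((1 / (2 * √(1 + ‖v‖ ^ 2))) • ((2 : ℝ) • innerSL ℝ v)) v := by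
  have h1 : HasFDerivAt (fun v : W => ‖v‖ ^ 2) ((2 : ℝ) • innerSL ℝ v) v := by
    have h := (hasStrictFDerivAt_norm_sq v).hasFDerivAt
    have e : (2 : ℕ) • innerSL ℝ v = (2 : ℝ) • innerSL ℝ v := by rw [two_nsmul, two_smul]
    rw [e] at h
    exact h
  exact (h1.const_add 1).sqrt (by positivity)

theorem xv_ch_der_apply (v a : W) :
    ((1 / (2 * √(1 + ‖v‖ ^ 2))) • ((2 : ℝ) • innerSL ℝ v)) a = ⟪v, a⟫ / ch v := by
  have h : √(1 + ‖v‖ ^ 2) ≠ 0 := (xv_pos v).ne'
  simp only [_root_.smul_apply, innerSL_apply_apply, smul_eq_mul, ch]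
  field_simp

theorem xv_fd {r : ℝ} (hr : 0 < r) (v a : W) : fderiv ℝ (xv r) v a =
    (√r * (1 + ch v))⁻¹ • (a - (⟪v, a⟫ / (ch v * (1 + ch v))) • v) := by
  have hc := xv_pos v
  have hs := Real.sqrt_pos.2 hr
  have hne : √r * (1 + ch v) ≠ 0 := by positivity
  have h1 := ((xv_ch_der v).const_add 1).const_mul (√r)
  have h2 := (hasDerivAt_inv hne).comp_hasFDerivAt v h1
  have h3 := h2.smul (hasFDerivAt_id v)
  have h4 : fderiv ℝ (xv r) v = _ := h3.fderiv
  rw [h4]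
  simp only [_root_.add_apply, _root_.smul_apply,
    ContinuousLinearMap.id_apply, ContinuousLinearMap.smulRight_apply, Function.comp_apply, id]
  have h5 := xv_ch_der_apply v a
  simp only [_root_.smul_apply] at h5
  rw [h5, smul_sub, sub_eq_add_neg, smul_smul (√r * (1 + ch v))⁻¹, ← neg_smul]
  congr 1
  have e : -((√r * (1 + ch v)) ^ 2)⁻¹ • √r • (⟪v, a⟫ / ch v) =
      -((√r * (1 + ch v))⁻¹ * (⟪v, a⟫ / (ch v * (1 + ch v)))) := by
    simp only [smul_eq_mul]
    field_simp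
  rw [e]

theorem xv_kfd (v a : W) : fderiv ℝ kv v a =
    (ch v)⁻¹ • (a - (⟪v, a⟫ / ch v ^ 2) • v) := by
  have hc := xv_pos v
  have h2 := (hasDerivAt_inv hc.ne').comp_hasFDerivAt v (xv_ch_der v)
  have h3 := h2.smul (hasFDerivAt_id v)
  have h4 : fderiv ℝ kv v = _ := h3.fderiv
  rw [h4]
  simp only [_root_.add_apply, _root_.smul_apply,
    ContinuousLinearMap.id_apply, ContinuousLinearMap.smulRight_apply, Function.comp_apply, id]
  have h5 := xv_ch_der_apply v a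
  simp only [_root_.smul_apply] at h5
  rw [h5, smul_sub, sub_eq_add_neg, smul_smul, ← neg_smul]
  congr 1
  congr 1
  simp only [smul_eq_mul]
  field_simp

theorem xv_hyp_pos (v a : W) (ha : a ≠ 0) : 0 < hyp v a a := by
  have h1 : ⟪v, a⟫ * ⟪v, a⟫ ≤ (‖v‖ * ‖a‖) * (‖v‖ * ‖a‖) := by
    have h := abs_real_inner_le_norm v a
    have h2 : 0 ≤ ‖v‖ * ‖a‖ := by positivity
    rw [← abs_mul_abs_self]
    exact mul_self_le_mul_self (abs_nonneg _) h
  have h3 : 0 < ‖a‖ := norm_pos_iff.2 ha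
  unfold hyp
  rw [real_inner_self_eq_norm_sq, sub_pos, div_lt_iff₀ (by positivity)]
  nlinarith [h1, mul_pos h3 h3]

theorem xv_y {r : ℝ} (hr : 0 < r) (v : W) : r * ‖xv r v‖ ^ 2 = (ch v - 1) / (ch v + 1) := by
  have hc := xv_pos v
  have hs := Real.sqrt_pos.2 hr
  have h2 := Real.sq_sqrt hr.le
  have h3 := xv_sq v
  have h4 : ‖v‖ ^ 2 = (ch v - 1) * (ch v + 1) := by linarith
  rw [xv, norm_smul, mul_pow, h4, norm_inv, Real.norm_of_nonneg (by positivity)]
  field_simp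
  rw [h2]
  ring

theorem xv_inner_x {r : ℝ} (hr : 0 < r) (v a b : W) : hyp v a b =
    4 * r / (1 - r * ‖xv r v‖ ^ 2) ^ 2 * ⟪fderiv ℝ (xv r) v a, fderiv ℝ (xv r) v b⟫ := by
  have hc := xv_pos v
  have hs := Real.sqrt_pos.2 hr
  have h2 := Real.sq_sqrt hr.le
  have h3 := xv_sq v
  rw [xv_y hr, xv_fd hr, xv_fd hr, real_inner_smul_left, real_inner_smul_right]
  have e : ⟪a - (⟪v, a⟫ / (ch v * (1 + ch v))) • v, b - (⟪v, b⟫ / (ch v * (1 + ch v))) • v⟫ =
      ⟪a, b⟫ - 2 * (⟪v, a⟫ * ⟪v, b⟫) / (ch v * (1 + ch v)) +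
        ⟪v, a⟫ * ⟪v, b⟫ * ‖v‖ ^ 2 / (ch v * (1 + ch v)) ^ 2 := by
    rw [inner_sub_left, inner_sub_right, inner_sub_right, real_inner_smul_left,
      real_inner_smul_left, real_inner_smul_right, real_inner_smul_right,
      real_inner_self_eq_norm_sq, real_inner_comm v a]
    field_simp
    ring
  rw [e]
  have h4 : ‖v‖ ^ 2 = (ch v - 1) * (ch v + 1) := by linarith
  have h5 : 1 - (ch v - 1) / (ch v + 1) = 2 / (ch v + 1) := by
    field_simp
    ring
  unfold hyp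
  rw [h5, ← h3, h4]
  generalize ch v = c at hc
  generalize ⟪v, a⟫ = A
  generalize ⟪v, b⟫ = B
  generalize (⟪a, b⟫ : ℝ) = D
  have h6 : r = √r ^ 2 := h2.symm
  rw [div_mul_eq_mul_div]
  have h7 : 4 * r * ((√r * (1 + c))⁻¹ * ((√r * (1 + c))⁻¹ * (D - 2 * (A * B) / (c * (1 + c)) +
      A * B * ((c - 1) * (c + 1)) / (c * (1 + c)) ^ 2))) = (4 / (1 + c) ^ 2) *
      (D - 2 * (A * B) / (c * (1 + c)) + A * B * ((c - 1) * (c + 1)) / (c * (1 + c)) ^ 2) := by
    have h8 : 4 * r * ((√r * (1 + c))⁻¹ * (√r * (1 + c))⁻¹) = 4 / (1 + c) ^ 2 := by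
      rw [← mul_inv, ← sq, mul_pow, h2]
      field_simp
    rw [← h8]
    ring
  rw [h7]
  have h9 : c + 1 ≠ 0 := by positivity
  have h10 : 1 + c ≠ 0 := by positivity
  have h11 : c ≠ 0 := hc.ne'
  field_simp
  ring

theorem xv_k_norm (v : W) : ‖kv v‖ ^ 2 = ‖v‖ ^ 2 / ch v ^ 2 := by
  have hc := xv_pos v
  rw [kv, norm_smul, mul_pow, norm_inv, Real.norm_of_nonneg hc.le]
  field_simp

theorem xv_k_one (v : W) : 1 - ‖kv v‖ ^ 2 = 1 / ch v ^ 2 := by
  have hc := xv_pos v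
  have h3 := xv_sq v
  rw [xv_k_norm]
  field_simp
  linarith

theorem xv_inner_k (v a b : W) : hyp v a b = kl (kv v) (fderiv ℝ kv v a) (fderiv ℝ kv v b) := by
  have hc := xv_pos v
  have h3 := xv_sq v
  unfold kl
  rw [xv_k_one, xv_kfd, xv_kfd]
  have e : ∀ a b : W, ⟪(ch v)⁻¹ • (a - (⟪v, a⟫ / ch v ^ 2) • v), (ch v)⁻¹ • (b - (⟪v, b⟫ / ch v ^ 2) • v)⟫ =
      (⟪a, b⟫ - 2 * (⟪v, a⟫ * ⟪v, b⟫) / ch v ^ 2 +
        ⟪v, a⟫ * ⟪v, b⟫ * ‖v‖ ^ 2 / ch v ^ 4) / ch v ^ 2 := by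
    intro a b
    rw [real_inner_smul_left, real_inner_smul_right,
      inner_sub_left, inner_sub_right, inner_sub_right, real_inner_smul_left,
      real_inner_smul_left, real_inner_smul_right, real_inner_smul_right,
      real_inner_self_eq_norm_sq, real_inner_comm v a]
    field_simp
    ring
  have e2 : ∀ a : W, ⟪kv v, (ch v)⁻¹ • (a - (⟪v, a⟫ / ch v ^ 2) • v)⟫ = ⟪v, a⟫ / ch v ^ 4 := by
    intro a
    rw [kv, real_inner_smul_left, real_inner_smul_right, inner_sub_right, real_inner_smul_right,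
      real_inner_self_eq_norm_sq]
    have h4 : ‖v‖ ^ 2 = ch v ^ 2 - 1 := by linarith
    rw [h4]
    field_simp
    ring
  rw [e, e2, e2]
  unfold hyp
  have h4 : ‖v‖ ^ 2 = ch v ^ 2 - 1 := by linarith
  rw [h4]
  generalize ch v = c at hc
  have h11 : c ≠ 0 := hc.ne'
  have h12 : 1 + (c ^ 2 - 1) = c ^ 2 := by ring
  rw [h12]
  field_simp
  ring

theorem xv_bij {L : W →L[ℝ] W} (h : ∀ a, L a = 0 → a = 0) : Function.Bijective L := by
  have h1 : Function.Injective L.toLinearMap := by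
    rw [← LinearMap.ker_eq_bot, LinearMap.ker_eq_bot']
    exact h
  exact ⟨h1, LinearMap.injective_iff_surjective.1 h1⟩

theorem t_XV : S_XV := by
  intro r hr
  have hs := Real.sqrt_pos.2 hr
  have h2 := Real.sq_sqrt hr.le
  refine ⟨xv_ch_smooth, xv_smooth hr, xv_k_smooth, fun v => xv_bij fun a ha => ?_,
    fun v => xv_bij fun a ha => ?_, fun v => ?_, xv_inner_x hr, xv_inner_k, fun Y hY => ?_,
    fun x hx => ?_, ?_⟩
  · by_contra hne
    have h := xv_hyp_pos v a hne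
    rw [xv_inner_x hr, ha, inner_zero_left, mul_zero] at h
    exact lt_irrefl _ h
  · by_contra hne
    have h := xv_hyp_pos v a hne
    rw [xv_inner_k, ha] at h
    unfold kl at h
    rw [inner_zero_left, inner_zero_right] at h
    simp at h
  · have hc := xv_pos v
    have h1 := xv_one_le v
    have h3 := xv_sq v
    have h5 : 1 - (ch v - 1) / (ch v + 1) = 2 / (ch v + 1) := by
      field_simp
      ring
    refine ⟨h1, xv_y hr v, ?_, ?_, ?_, ?_, ?_⟩
    · rw [xv_y hr, div_lt_one (by positivity)]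
      linarith
    · rw [xv_y hr, h5]
      field_simp
      ring
    · rw [xv_y hr, h5, xv, smul_smul]
      have : 2 * √r / (2 / (ch v + 1)) * (√r * (1 + ch v))⁻¹ = 1 := by
        field_simp
        ring
      rw [this, one_smul]
    · have h6 : ‖kv v‖ ^ 2 < 1 := by
        rw [xv_k_norm, div_lt_one (by positivity)]
        linarith
      nlinarith [norm_nonneg (kv v)]
    · have h6 : √(1 - ‖kv v‖ ^ 2) = (ch v)⁻¹ := by
        rw [xv_k_one]
        rw [Real.sqrt_eq_iff_mul_self_eq (by positivity) (by positivity)]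
        field_simp
      rw [vk, h6, kv, inv_inv, smul_smul, mul_inv_cancel₀ hc.ne', one_smul]
  · have h1 : 0 < 1 - ‖Y‖ ^ 2 := by nlinarith [norm_nonneg Y]
    have h3 := Real.sqrt_pos.2 h1
    have h4 := Real.sq_sqrt h1.le
    constructor
    · have h5 : ch (vk Y) = (√(1 - ‖Y‖ ^ 2))⁻¹ := by
        unfold ch vk
        rw [norm_smul, mul_pow, norm_inv, Real.norm_of_nonneg h3.le,
          Real.sqrt_eq_iff_mul_self_eq (by positivity) (by positivity)]
        field_simp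
        rw [h4]
        ring
      rw [kv, h5, inv_inv, vk, smul_smul, mul_inv_cancel₀ h3.ne', one_smul]
    · have hA : ContDiffAt ℝ ∞ (fun Y : W => 1 - ‖Y‖ ^ 2) Y :=
        contDiffAt_const.sub (contDiff_norm_sq ℝ).contDiffAt
      have hB : ContDiffAt ℝ ∞ (fun Y : W => √(1 - ‖Y‖ ^ 2)) Y := hA.sqrt h1.ne'
      have hC : ContDiffAt ℝ ∞ (fun Y : W => (√(1 - ‖Y‖ ^ 2))⁻¹) Y := hB.inv h3.ne'
      exact hC.smul contDiffAt_id
  · have h1 : 0 < 1 - r * ‖x‖ ^ 2 := by linarith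
    set y := r * ‖x‖ ^ 2 with hy
    have hy0 : 0 ≤ y := by positivity
    have h5 : ch ((2 * √r / (1 - y)) • x) = (1 + y) / (1 - y) := by
      unfold ch
      rw [norm_smul, mul_pow, Real.norm_of_nonneg (by positivity),
        Real.sqrt_eq_iff_mul_self_eq (by positivity) (by positivity), div_pow, mul_pow, h2]
      have : 1 + 2 ^ 2 * r / (1 - y) ^ 2 * ‖x‖ ^ 2 = 1 + 4 * y / (1 - y) ^ 2 := by
        rw [hy]
        ring
      rw [this]
      field_simp
      ring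
    rw [xv, h5, smul_smul]
    have h6 : 1 + (1 + y) / (1 - y) = 2 / (1 - y) := by
      field_simp
      ring
    rw [h6]
    have : (√r * (2 / (1 - y)))⁻¹ * (2 * √r / (1 - y)) = 1 := by
      field_simp
    rw [this, one_smul]
  · refine ⟨fun y u u' v => ?_, fun y c u v => ?_, fun y u v => ?_, fun y hy u hu => ?_,
      fun u v => ?_⟩
    · unfold kl
      rw [inner_add_left, inner_add_right]
      ring
    · unfold kl
      rw [real_inner_smul_left, real_inner_smul_right]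
      ring
    · unfold kl
      rw [real_inner_comm]
      ring
    · have hy' : ‖y‖ < 1 := hy
      have h1 : 0 < 1 - ‖y‖ ^ 2 := by nlinarith [norm_nonneg y]
      have h3 : 0 < ‖u‖ := norm_pos_iff.2 hu
      unfold kl
      rw [real_inner_self_eq_norm_sq]
      have h4 : 0 ≤ ⟪y, u⟫ * ⟪y, u⟫ := mul_self_nonneg _
      positivity
    · have h0 : ∀ y ∈ {Y : W | ‖Y‖ < 1}, 1 - ‖y‖ ^ 2 ≠ 0 := by
        intro y hy
        have hy' : ‖y‖ < 1 := hy
        have h1 : 0 < 1 - ‖y‖ ^ 2 := by nlinarith [norm_nonneg y]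
        exact h1.ne'
      have h1 : ContDiffOn ℝ ∞ (fun y : W => 1 - ‖y‖ ^ 2) {Y : W | ‖Y‖ < 1} :=
        (contDiff_const.sub (contDiff_norm_sq ℝ)).contDiffOn
      unfold kl
      refine (contDiffOn_const.div h1 h0).add (ContDiffOn.div (ContDiff.contDiffOn ?_) (h1.pow 2)
        fun y hy => pow_ne_zero 2 (h0 y hy))
      exact (contDiff_id.inner ℝ contDiff_const).mul (contDiff_id.inner ℝ contDiff_const)

end Pool.Agent.Helper473.LY
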