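import Pool.Agent.Helper473.LY.Assembly
import Pool.Agent.Helper473.LY.T_ACT
import Pool.Agent.Helper473.LY.T_B
import Pool.Agent.Helper473.LY.T_CRV
import Pool.Agent.Helper473.LY.T_FOLD
import Pool.Agent.Helper473.LY.T_GERM
import Pool.Agent.Helper473.LY.T_GLUE
import Pool.Agent.Helper473.LY.T_HB
import Pool.Agent.Helper473.LY.T_HERM
import Pool.Agent.Helper473.LY.T_HYP
import Pool.Agent.Helper473.LY.T_IDC
import Pool.Agent.Helper473.LY.T_INGOOD
import Pool.Agent.Helper473.LY.T_INHARM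
import Pool.Agent.Helper473.LY.T_INSM
import Pool.Agent.Helper473.LY.T_KLEIN
import Pool.Agent.Helper473.LY.T_L1
import Pool.Agent.Helper473.LY.T_L2
import Pool.Agent.Helper473.LY.T_L3
import Pool.Agent.Helper473.LY.T_L4
import Pool.Agent.Helper473.LY.T_L5
import Pool.Agent.Helper473.LY.T_N1
import Pool.Agent.Helper473.LY.T_N2
import Pool.Agent.Helper473.LY.T_OPEN
import Pool.Agent.Helper473.LY.T_OUT
import Pool.Agent.Helper473.LY.T_POLY
import Pool.Agent.Helper473.LY.T_RAD
import Pool.Agent.Helper473.LY.T_SCALE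
import Pool.Agent.Helper473.LY.T_SM
import Pool.Agent.Helper473.LY.T_TEN
import Pool.Agent.Helper473.LY.T_TGT
import Pool.Agent.Helper473.LY.T_TUBE
import Pool.Agent.Helper473.LY.T_XV

/-!
# Lawson–Yau: the theorem
-/

set_option autoImplicit false

open scoped Manifold ContDiff Topology RealInnerProductSpace
open Module

namespace Pool.Agent.Helper473.LY

theorem t_LAT : S_LAT := lat_of t_L1 t_L2 t_L3 t_L4 t_L5 t_HERM

/-- The harmonic map homotopic to a homotopy equivalence of closed negatively curved manifolds of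
dimension `n ≥ 3` need not be injective. -/
theorem not_lawsonYauInj : ∀ n : ℕ, 3 ≤ n → ¬ LawsonYauInj n :=
  assembly t_N1 t_N2 t_B t_HYP t_BMET t_CRV t_RAD t_OPEN t_SCALE t_TEN t_IDC t_KLEIN t_INHARM
    t_POLY t_SM t_INGOOD t_OUT t_TGT (t_TUBE2 t_GERM t_XV t_INSM t_FOLD) t_GLUE t_ACT t_LAT

end Pool.Agent.Helper473.LY
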