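import Pool.Agent.Helper473.LY.Stmts3

set_option autoImplicit false

open scoped Manifold ContDiff Topology RealInnerProductSpace
open Module

namespace Pool.Agent.Helper473.LY

open Pool.Agent.H234R3

/-- the perturbation of amplitude one on the axis -/
noncomputable def crit_psi (n : ℕ) (ε r t : ℝ) : ℝ := zc n ε 1 (t ^ 2) / (1 + r * t ^ 2)

theorem crit_zc (n : ℕ) (ε s y : ℝ) : zc n ε s y = s * zc n ε 1 y := by
  unfold zc zh
  ring

theorem crit_axf (n : ℕ) (ε r s : ℝ) :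
    axf r (zc n ε s) = fun t => t / (1 + r * t ^ 2) + s * crit_psi n ε r t := by
  funext t
  unfold axf crit_psi
  rw [crit_zc, add_div, mul_div_assoc]

theorem crit_den {r : ℝ} (hr : 0 < r) (t : ℝ) : 0 < 1 + r * t ^ 2 := by
  positivity

theorem crit_zh (hSM : S_SM) (n : ℕ) (ε s : ℝ) (hn : 1 ≤ n) (hε : 0 < ε) :
    ContDiff ℝ ∞ (fun t : ℝ => zh n ε s (t ^ 2)) := by
  rw [contDiff_iff_contDiffAt]
  intro t
  have h1 := (hSM n ε (t ^ 2) hn hε.le (sq_nonneg t) (by positivity)).2.2.2.2.1 s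
  have h2 : ContDiffAt ℝ ∞ (fun t : ℝ => ((ε, s, t ^ 2) : ℝ × ℝ × ℝ)) t := by
    refine contDiffAt_const.prodMk (contDiffAt_const.prodMk ?_)
    exact contDiffAt_id.pow 2
  exact ContDiffAt.comp (g := fun q : ℝ × ℝ × ℝ => zh n q.1 q.2.1 q.2.2)
    (f := fun t : ℝ => ((ε, s, t ^ 2) : ℝ × ℝ × ℝ)) t h1 h2

theorem crit_chi : ContDiff ℝ ∞ (fun t : ℝ => chi1 (t ^ 2)) := by
  unfold chi1
  exact Real.smoothTransition.contDiff.comp (contDiff_const.sub (contDiff_id.pow 2))

theorem crit_psi_smooth (hSM : S_SM) (n : ℕ) (ε r : ℝ) (hn : 1 ≤ n) (hε : 0 < ε) (hr : 0 < r) :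
    ContDiff ℝ ∞ (crit_psi n ε r) := by
  unfold crit_psi zc
  refine ContDiff.div (crit_chi.mul (crit_zh hSM n ε 1 hn hε))
    (contDiff_const.add (contDiff_const.mul (contDiff_id.pow 2))) ?_
  intro t
  exact (crit_den hr t).ne'

theorem crit_d0 {r : ℝ} (hr : 0 < r) (t : ℝ) :
    HasDerivAt (fun t : ℝ => t / (1 + r * t ^ 2)) ((1 - r * t ^ 2) / (1 + r * t ^ 2) ^ 2) t := by
  have h1 : HasDerivAt (fun t : ℝ => 1 + r * t ^ 2) (r * (2 * t)) t := by
    have := ((hasDerivAt_pow 2 t).const_mul r).const_add 1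
    simpa using this
  have h2 := (hasDerivAt_id t).div h1 (crit_den hr t).ne'
  refine h2.congr_deriv ?_
  have h3 : (1 * (1 + r * t ^ 2) - id t * (r * (2 * t))) = 1 - r * t ^ 2 := by
    simp only [id]
    ring
  rw [h3]

theorem crit_deriv (hSM : S_SM) (n : ℕ) (ε r s : ℝ) (hn : 1 ≤ n) (hε : 0 < ε) (hr : 0 < r)
    (t : ℝ) : deriv (axf r (zc n ε s)) t =
      (1 - r * t ^ 2) / (1 + r * t ^ 2) ^ 2 + s * deriv (crit_psi n ε r) t := by
  rw [crit_axf]
  have h1 : HasDerivAt (crit_psi n ε r) (deriv (crit_psi n ε r) t) t :=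
    ((crit_psi_smooth hSM n ε r hn hε hr).differentiable (by simp) t).hasDerivAt
  exact ((crit_d0 hr t).add (h1.const_mul s)).deriv

theorem crit_smooth (hSM : S_SM) (n : ℕ) (ε r s : ℝ) (hn : 1 ≤ n) (hε : 0 < ε) (hr : 0 < r) :
    Differentiable ℝ (axf r (zc n ε s)) := by
  rw [crit_axf]
  intro t
  exact ((crit_d0 hr t).differentiableAt).add
    (((crit_psi_smooth hSM n ε r hn hε hr).differentiable (by simp) t).const_mul s)

/-- the map is not constant on an interval -/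
theorem crit_nonconst (hSM : S_SM) (hPOLY : S_POLY) (n : ℕ) (ε r s c a b : ℝ) (hn : 1 ≤ n)
    (hε : 0 < ε) (hr : 0 < r) (hab : a < b) (h1 : ∀ t ∈ Set.Ioo a b, t ^ 2 < 1)
    (hc : ∀ t ∈ Set.Ioo a b, axf r (zc n ε s) t = c) : False := by
  have e1 : ∀ t ∈ Set.Ioo a b, zh n ε s (t ^ 2) = c * (1 + r * t ^ 2) - t := by
    intro t ht
    have h2 := hc t ht
    unfold axf zc at h2
    have h3 : chi1 (t ^ 2) = 1 := by
      unfold chi1
      exact Real.smoothTransition.one_of_one_le (by linarith [h1 t ht])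
    rw [h3, one_mul, div_eq_iff (crit_den hr t).ne'] at h2
    linarith
  have e2 : ∀ t ∈ Set.Ioo a b, t * Gf n ε (t ^ 2) * (c * (1 + r * t ^ 2) - t) =
      2 * c * r * t - 1 := by
    intro t ht
    obtain ⟨-, -, -, -, h5, -, h7⟩ := hSM n ε (t ^ 2) hn hε.le (sq_nonneg t) (by positivity)
    have hd : DifferentiableAt ℝ (zh n ε s) (t ^ 2) := by
      have h8 : ContDiffAt ℝ ∞ (fun y : ℝ => ((ε, s, y) : ℝ × ℝ × ℝ)) (t ^ 2) :=
        contDiffAt_const.prodMk (contDiffAt_const.prodMk contDiffAt_id)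
      exact (ContDiffAt.comp (t ^ 2) (h5 s) h8).differentiableAt (by simp)
    have h8 : HasDerivAt (fun t : ℝ => zh n ε s (t ^ 2)) (Gf n ε (t ^ 2) / 2 *
        zh n ε s (t ^ 2) * (2 * t)) t := by
      have h9 : HasDerivAt (zh n ε s) (Gf n ε (t ^ 2) / 2 * zh n ε s (t ^ 2)) (t ^ 2) := by
        rw [← h7 s]
        exact hd.hasDerivAt
      have h10 : HasDerivAt (fun t : ℝ => t ^ 2) (2 * t) t := by
        simpa using hasDerivAt_pow 2 t
      exact HasDerivAt.comp (h₂ := zh n ε s) (h := fun t : ℝ => t ^ 2) t h9 h10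
    have h9 : HasDerivAt (fun t : ℝ => c * (1 + r * t ^ 2) - t) (c * (r * (2 * t)) - 1) t := by
      have h10 : HasDerivAt (fun t : ℝ => 1 + r * t ^ 2) (r * (2 * t)) t := by
        have := ((hasDerivAt_pow 2 t).const_mul r).const_add 1
        simpa using this
      exact (h10.const_mul c).sub (hasDerivAt_id t)
    have h10 : (fun t : ℝ => zh n ε s (t ^ 2)) =ᶠ[𝓝 t] fun t : ℝ => c * (1 + r * t ^ 2) - t := by
      filter_upwards [Ioo_mem_nhds ht.1 ht.2] with u hu using e1 u hu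
    have h11 := (h8.congr_of_eventuallyEq h10.symm).unique h9
    rw [e1 t ht] at h11
    linarith
  have hnn : (0 : ℝ) < n := by exact_mod_cast hn
  -- the polynomial
  set p : Polynomial ℝ := 16 * Polynomial.C (n : ℝ) * (1 + 2 * Polynomial.X ^ 2) *
    (Polynomial.C ε + Polynomial.X ^ 2) * Polynomial.X *
    (Polynomial.C c * (1 + Polynomial.C r * Polynomial.X ^ 2) - Polynomial.X) -
    (2 * Polynomial.C c * Polynomial.C r * Polynomial.X - 1) *
    (4 * Polynomial.X ^ 2 * (Polynomial.C ε + Polynomial.X ^ 2) * (1 + Polynomial.X ^ 2) +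
      4 * Polynomial.C (n : ℝ) * (1 + 2 * Polynomial.X ^ 2) * Polynomial.C ε ^ 2 +
      4 * Polynomial.C (n : ℝ) * (1 + 2 * Polynomial.X ^ 2) *
        (4 * Polynomial.X ^ 2 * (Polynomial.C ε + Polynomial.X ^ 2))) with hp
  have hev : ∀ t : ℝ, p.eval t = 16 * n * (1 + 2 * t ^ 2) * (ε + t ^ 2) * t *
      (c * (1 + r * t ^ 2) - t) - (2 * c * r * t - 1) * Bf n ε (t ^ 2) := by
    intro t
    rw [hp]
    simp only [Polynomial.eval_sub, Polynomial.eval_mul, Polynomial.eval_add, Polynomial.eval_C,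
      Polynomial.eval_X, Polynomial.eval_pow, Polynomial.eval_one, Polynomial.eval_ofNat]
    unfold Bf Af
    ring
  have hroot : ∀ t ∈ Set.Ioo a b, p.IsRoot t := by
    intro t ht
    rw [Polynomial.IsRoot, hev]
    have hB := (hPOLY n ε (t ^ 2) hn hε.le (sq_nonneg t) (by positivity)).2.1
    have h2 := e2 t ht
    unfold Gf at h2
    rw [mul_div_assoc', div_mul_eq_mul_div, div_eq_iff hB.ne'] at h2
    linarith
  have hp0 : p = 0 := by
    refine Polynomial.eq_zero_of_infinite_isRoot p ?_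
    exact (Set.Ioo_infinite hab).mono hroot
  have g1 := hev 1
  have g2 := hev (-1)
  rw [hp0, Polynomial.eval_zero] at g1 g2
  have hA := (hPOLY n ε 1 hn hε.le zero_le_one (by positivity)).1
  have hBf : Bf n ε 1 = Af n ε 1 + 48 * n * (1 + ε) := by
    unfold Bf
    ring
  norm_num at g1 g2
  rw [hBf] at g1 g2
  nlinarith

theorem t_CRIT : S_CRIT := by
  rintro hPOLY hSM n s ε r hn hs hε hε1 hr hr10 ⟨t, ht, hneg⟩ hpos
  set D0 : ℝ → ℝ := fun t => (1 - r * t ^ 2) / (1 + r * t ^ 2) ^ 2 with hD0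
  set D1 : ℝ → ℝ := deriv (crit_psi n ε r) with hD1
  have hder : ∀ s' t, deriv (axf r (zc n ε s')) t = D0 t + s' * D1 t :=
    fun s' t => crit_deriv hSM n ε r s' hn hε hr t
  have hD0pos : ∀ t : ℝ, r * t ^ 2 < 1 → 0 < D0 t := by
    intro t ht
    exact div_pos (by linarith) (by have := crit_den hr t; positivity)
  have hIcc : ∀ t ∈ Set.Icc (-1 : ℝ) 1, r * t ^ 2 < 1 := by
    intro t ht
    have h1 : t ^ 2 ≤ 1 := by nlinarith [ht.1, ht.2]
    nlinarith
  have hD1c : Continuous D1 :=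
    (crit_psi_smooth hSM n ε r hn hε hr).continuous_deriv (by simp)
  have hD0c : Continuous D0 := by
    rw [hD0]
    refine Continuous.div (by fun_prop) (by fun_prop) ?_
    intro t
    have := crit_den hr t
    positivity
  have hFc : ContinuousOn (fun t => -D1 t / D0 t) (Set.Icc (-1 : ℝ) 1) := by
    refine ContinuousOn.div hD1c.neg.continuousOn hD0c.continuousOn ?_
    intro t ht
    exact (hD0pos t (hIcc t ht)).ne'
  obtain ⟨t0, ht0, hmax⟩ := isCompact_Icc.exists_isMaxOn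
    (Set.nonempty_Icc.2 (by norm_num : (-1 : ℝ) ≤ 1)) hFc
  set lam : ℝ := -D1 t0 / D0 t0 with hlam
  have htI : t ∈ Set.Icc (-1 : ℝ) 1 := by
    rw [abs_lt] at ht
    exact ⟨ht.1.le, ht.2.le⟩
  have hlam1 : 1 / s < lam := by
    have h1 : -D1 t / D0 t ≤ lam := hmax htI
    refine lt_of_lt_of_le ?_ h1
    have h2 := hD0pos t (hIcc t htI)
    rw [hder] at hneg
    rw [div_lt_div_iff₀ hs h2]
    linarith
  have hlam0 : 0 < lam := lt_trans (by positivity) hlam1
  set s' : ℝ := 1 / lam with hs'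
  have hs'0 : 0 < s' := by positivity
  have hs's : s' ≤ s := by
    rw [hs', div_le_iff₀ hlam0]
    rw [div_lt_iff₀ hs] at hlam1
    linarith
  have hs'lam : s' * lam = 1 := by
    rw [hs']
    field_simp
  have hnn : ∀ t ∈ Set.Icc (-1 : ℝ) 1, 0 ≤ D0 t + s' * D1 t := by
    intro t ht
    have h1 : -D1 t / D0 t ≤ lam := hmax ht
    have h2 := hD0pos t (hIcc t ht)
    rw [div_le_iff₀ h2] at h1
    have h3 := mul_le_mul_of_nonneg_left h1 hs'0.le
    have h4 : s' * (lam * D0 t) = D0 t := by rw [← mul_assoc, hs'lam, one_mul]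
    linarith
  have hzero : D0 t0 + s' * D1 t0 = 0 := by
    have h2 := hD0pos t0 (hIcc t0 ht0)
    have h3 : lam * D0 t0 = -D1 t0 := by
      rw [hlam]
      field_simp
    have h4 : s' * (lam * D0 t0) = D0 t0 := by rw [← mul_assoc, hs'lam, one_mul]
    rw [h3] at h4
    linarith
  have ht01 : |t0| < 1 := by
    by_contra hge
    rw [not_lt] at hge
    have h1 : 1 ≤ t0 ^ 2 := by
      rw [← sq_abs]
      nlinarith
    have h2 := hpos s' t0 hs'0.le hs's h1 (hIcc t0 ht0)
    rw [hder, hzero] at h2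
    exact lt_irrefl 0 h2
  refine ⟨s', t0, hs'0, hs's, ht01, by rw [hder]; exact hzero, ?_⟩
  -- monotonicity
  set I : Set ℝ := {t | r * t ^ 2 < 1} with hI
  have hdnn : ∀ t ∈ I, 0 ≤ deriv (axf r (zc n ε s')) t := by
    intro t htI
    by_cases h1 : t ^ 2 < 1
    · rw [hder]
      refine hnn t ?_
      rw [sq_lt_one_iff_abs_lt_one, abs_lt] at h1
      exact ⟨h1.1.le, h1.2.le⟩
    · exact (hpos s' t hs'0.le hs's (not_lt.1 h1) htI).le
  have hIord : I.OrdConnected := by
    refine ⟨fun x hx y hy z hz => ?_⟩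
    have h1 : z ^ 2 ≤ max (x ^ 2) (y ^ 2) := by
      rcases le_total 0 z with h0 | h0
      · exact le_max_of_le_right (by nlinarith [hz.2])
      · exact le_max_of_le_left (by nlinarith [hz.1])
    have h2 : r * z ^ 2 ≤ r * max (x ^ 2) (y ^ 2) := mul_le_mul_of_nonneg_left h1 hr.le
    refine lt_of_le_of_lt h2 ?_
    rcases max_choice (x ^ 2) (y ^ 2) with h3 | h3 <;> rw [h3]
    · exact hx
    · exact hy
  have hdiff := crit_smooth hSM n ε r s' hn hε hr
  have hmono : MonotoneOn (axf r (zc n ε s')) I := by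
    refine monotoneOn_of_deriv_nonneg hIord.convex hdiff.continuous.continuousOn
      hdiff.differentiableOn ?_
    intro x hx
    exact hdnn x (interior_subset hx)
  intro a ha b hb hab
  refine lt_of_le_of_ne (hmono ha hb hab.le) ?_
  intro heq
  have hconst : ∀ x ∈ Set.Icc a b, axf r (zc n ε s') x = axf r (zc n ε s') a := by
    intro x hx
    have hxI : x ∈ I := hIord.out ha hb hx
    have h1 := hmono ha hxI hx.1
    have h2 := hmono hxI hb hx.2
    linarith
  refine crit_nonconst hSM hPOLY n ε r s' (axf r (zc n ε s') a) a b hn hε hr hab ?_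
    (fun x hx => hconst x ⟨hx.1.le, hx.2.le⟩)
  intro x hx
  by_contra hge
  rw [not_lt] at hge
  have hxI : x ∈ I := hIord.out ha hb ⟨hx.1.le, hx.2.le⟩
  have h1 := hpos s' x hs'0.le hs's hge hxI
  have h2 : deriv (axf r (zc n ε s')) x = 0 := by
    have h3 : axf r (zc n ε s') =ᶠ[𝓝 x] fun _ => axf r (zc n ε s') a := by
      filter_upwards [Ioo_mem_nhds hx.1 hx.2] with u hu using hconst u ⟨hu.1.le, hu.2.le⟩
    rw [h3.deriv_eq]
    simp
  rw [h2] at h1
  exact lt_irrefl 0 h1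

end Pool.Agent.Helper473.LY
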