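import Mathlib
import Pool.Agent.Helper473.LY.Stmts2
import Pool.Agent.Helper473.LY.DefsH

/-!
# Harmonic homeomorphisms which are not diffeomorphisms: definitions and tasks

The critical amplitude of the family of `Pool.Agent.Helper473.LY.Fam`.
-/

set_option autoImplicit false

open scoped Manifold ContDiff Topology RealInnerProductSpace
open Module

namespace Pool.Agent.Helper473.LY

open Pool.Agent.H234R3

/-- The map on the axis: `(t + z(t²)) / (1 + r t²)`. -/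
noncomputable def axf (r : ℝ) (z : ℝ → ℝ) (t : ℝ) : ℝ := (t + z (t ^ 2)) / (1 + r * t ^ 2)

/-- A counterexample from invariant data on the universal cover. -/
def S_BH : Prop := S_N1 → S_N2 → ∀ (n : ℕ) (Q : Type) [NormedAddCommGroup Q] [NormedSpace ℝ Q]
  [FiniteDimensional ℝ Q] (Γ : Type) [Group Γ] [MulAction Γ Q],
  finrank ℝ Q = n →
  (∀ γ : Γ, ContDiff ℝ ∞ (fun x : Q => γ • x)) →
  (∀ K : Set Q, IsCompact K → {γ : Γ | ∃ x : Q, x ∈ K ∧ γ • x ∈ K}.Finite) →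
  (∀ (γ : Γ) (x : Q), γ • x = x → γ = 1) →
  (∃ K : Set Q, IsCompact K ∧ ∀ x : Q, ∃ γ : Γ, γ • x ∈ K) →
  ∀ (g h : Q → Q → Q → ℝ) (F : Q → Q),
  IsMet g Set.univ → IsMet h Set.univ →
  (∀ (γ : Γ) (x a b : Q), g (γ • x) (fderiv ℝ (fun z => γ • z) x a) (fderiv ℝ (fun z => γ • z) x b)
    = g x a b) →
  (∀ (γ : Γ) (x a b : Q), h (γ • x) (fderiv ℝ (fun z => γ • z) x a) (fderiv ℝ (fun z => γ • z) x b)
    = h x a b) →
  (∀ x, NegAt g x) → (∀ x, NegAt h x) →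
  ContDiff ℝ ∞ F → (∀ (γ : Γ) x, F (γ • x) = γ • F x) → (∀ x, TensionZeroAt g h F x) →
  Function.Bijective F → (∃ p, ¬ Function.Injective (fderiv ℝ F p)) → ¬ HarmHomeo n

/-- The inner metrics are good, for all the amplitudes `s' ∈ [0, s]`, and the fold appears before the
amplitude `s` and only in `|t| < 1`. -/
def S_INGOOD2 : Prop := S_POLY → S_SM → S_RAD → S_OPEN → ∀ n : ℕ, 1 ≤ n →
  ∃ s ε r1 : ℝ, 0 < s ∧ 0 < ε ∧ ε ≤ 1 ∧ 0 < r1 ∧ r1 < 1 / 10 ∧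
    (∃ t : ℝ, |t| < 1 ∧ ∀ r : ℝ, 0 ≤ r → r < r1 → deriv (axf r (zc n ε s)) t < 0) ∧
    (∀ r s' t : ℝ, 0 < r → r < r1 → 0 ≤ s' → s' ≤ s → 1 ≤ t ^ 2 → r * t ^ 2 < 1 →
      0 < deriv (axf r (zc n ε s')) t) ∧
    ∀ r s' : ℝ, 0 < r → r < r1 → 0 ≤ s' → s' ≤ s → ∀ x : W, ‖x‖ ^ 2 < 5 →
      OKin n s' ε r x ∧ GoodAt (Cin n s' ε r) (gin n s' ε r) x ∧
      Y2f r (zc n ε s') x < 1 / 2

/-- The critical amplitude. -/
def S_CRIT : Prop := S_POLY → S_SM → ∀ (n : ℕ) (s ε r : ℝ), 1 ≤ n → 0 < s → 0 < ε → ε ≤ 1 →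
  0 < r → 10 * r < 1 → (∃ t : ℝ, |t| < 1 ∧ deriv (axf r (zc n ε s)) t < 0) →
  (∀ s' t : ℝ, 0 ≤ s' → s' ≤ s → 1 ≤ t ^ 2 → r * t ^ 2 < 1 → 0 < deriv (axf r (zc n ε s')) t) →
  ∃ s' t0 : ℝ, 0 < s' ∧ s' ≤ s ∧ |t0| < 1 ∧ deriv (axf r (zc n ε s')) t0 = 0 ∧
    StrictMonoOn (axf r (zc n ε s')) {t | r * t ^ 2 < 1}

/-- The circles `‖x‖ = ρ` are mapped to nested circles. -/
def S_NEST : Prop := ∀ (r : ℝ) (z : ℝ → ℝ), 0 < r → 10 * r < 1 → ContinuousOn z (Set.Ici 0) →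
  (∀ y, 2 ≤ y → z y = 0) → StrictMonoOn (axf r z) {t | r * t ^ 2 < 1} →
  Set.BijOn (Yf r z) {x | r * ‖x‖ ^ 2 < 1} {Y | ‖Y‖ < 1}

/-- The functions on the cross-section, for a bijective map with a critical point. -/
structure IsTubeH (d : ℕ) (C : W → ℝ) (g2 : W → W → W → ℝ) (c : W → ℝ) (f : W → W) : Prop where
  C_smooth : ContDiff ℝ ∞ C
  C_pos : ∀ v, 0 < C v
  g2_met : IsMet g2 Set.univ
  c_smooth : ContDiff ℝ ∞ c
  c_pos : ∀ v, 0 < c v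
  f_smooth : ContDiff ℝ ∞ f
  C_out : ∀ v : W, 18 ≤ ‖v‖ → C v = ch v
  g2_out : ∀ v : W, 18 ≤ ‖v‖ → ∀ a b, g2 v a b = hyp v a b
  c_out : ∀ v : W, 18 ≤ ‖v‖ → c v = ch v
  f_out : ∀ v : W, 18 ≤ ‖v‖ → f v = v
  f_in : ∀ v : W, ‖v‖ < 18 → ‖f v‖ < 18
  neg_src : ∀ p : P d, NegAt (blk (d := d) C g2) p
  neg_tgt : ∀ p : P d, NegAt (blk (d := d) c hyp) p
  harm : ∀ p : P d, TensionZeroAt (blk (d := d) C g2) (blk (d := d) c hyp) (fun q => (q.1, f q.2)) p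
  bij : Function.Bijective f
  sing : ∃ v : W, ¬ Function.Injective (fderiv ℝ f v)

/-- The functions on the cross-section, for a bijective map with a critical point. -/
def S_TUBEH : Prop := S_N1 → S_N2 → S_HYP → S_BMET → S_CRV → S_RAD → S_SCALE → S_TEN → S_IDC →
  S_KLEIN → S_INHARM → S_POLY → S_SM → S_INGOOD2 → S_OUT → S_TGT → S_OPEN → S_GERM → S_XV →
  S_INSM → S_CRIT → S_NEST → ∀ d : ℕ, 1 ≤ d →
  ∃ (C : W → ℝ) (g2 : W → W → W → ℝ) (c : W → ℝ) (f : W → W), IsTubeH d C g2 c f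

/-- From a lattice and a tube to invariant data on the universal cover. -/
def S_GLUEH : Prop := S_GERM → S_HB → S_N1 → S_N2 → S_HYP → S_BMET → ∀ (d : ℕ)
  (Γ : Subgroup (L d ≃ₗ[ℝ] L d))
  (C : W → ℝ) (g2 : W → W → W → ℝ) (c : W → ℝ) (f : W → W), 1 ≤ d → IsLattice Γ 19 →
  IsTubeH d C g2 c f →
  ∃ (g h : P d → P d → P d → ℝ) (F : P d → P d),
  IsMet g Set.univ ∧ IsMet h Set.univ ∧
  (∀ γ ∈ Γ, ∀ x a b, g (act γ x) (fderiv ℝ (act γ) x a) (fderiv ℝ (act γ) x b) = g x a b) ∧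
  (∀ γ ∈ Γ, ∀ x a b, h (act γ x) (fderiv ℝ (act γ) x a) (fderiv ℝ (act γ) x b) = h x a b) ∧
  (∀ x, NegAt g x) ∧ (∀ x, NegAt h x) ∧ ContDiff ℝ ∞ F ∧ (∀ γ ∈ Γ, ∀ x, F (act γ x) = act γ (F x)) ∧
  (∀ x, TensionZeroAt g h F x) ∧ Function.Bijective F ∧ ∃ p, ¬ Function.Injective (fderiv ℝ F p)

end Pool.Agent.Helper473.LY
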