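import Mathlib
import Pool.Agent.Helper473.LY.Stmts3
import Pool.Agent.Helper473.LY.T_GLUE

/-!
# Task GLUEH: gluing, for a bijective map with a critical point
-/

set_option autoImplicit false

open scoped Manifold ContDiff Topology RealInnerProductSpace
open Module

namespace Pool.Agent.Helper473.LY

open Pool.Agent.H234R3

section
variable {d : ℕ} {Γ : Subgroup (L d ≃ₗ[ℝ] L d)}

theorem glueh_conj_conj (hΓ : IsLattice Γ 19) {f f' : W → W} (h : ∀ v, f (f' v) = v)
    {γ : L d ≃ₗ[ℝ] L d} (hγ : γ ∈ Γ) (p : P d) : glue_conj f γ (glue_conj f' γ p) = p := by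
  unfold glue_conj
  have h1 := glue_act_mul γ (glue_iso hΓ (Γ.inv_mem hγ)) (glue_fm f' (act γ p))
  rw [← h1, mul_inv_cancel, glue_act_one]
  have h2 : glue_fm f (glue_fm f' (act γ p)) = act γ p := by
    unfold glue_fm
    simp only
    rw [h]
  rw [h2]
  exact glue_act_inv (glue_iso hΓ hγ) p

theorem glueh_bij (hΓ : IsLattice Γ 19) {f : W → W} (hb : Function.Bijective f)
    (h1 : ∀ v : W, 18 ≤ ‖v‖ → f v = v) (h2 : ∀ v : W, ‖v‖ < 18 → ‖f v‖ < 18) {F : P d → P d}
    (hF : ∀ p γ, glue_Good Γ γ p → F p = glue_conj f γ p) : Function.Bijective F := by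
  obtain ⟨f', hl, hr⟩ := Function.bijective_iff_has_inverse.1 hb
  have k1 : ∀ v : W, 18 ≤ ‖v‖ → f' v = v := by
    intro v hv
    have := hl v
    rwa [h1 v hv] at this
  have k2 : ∀ v : W, ‖v‖ < 18 → ‖f' v‖ < 18 := by
    intro v hv
    by_contra hcon
    push Not at hcon
    have e1 := h1 _ hcon
    rw [hr v] at e1
    rw [← e1] at hcon
    linarith
  constructor
  · intro x y hxy
    obtain ⟨γ, hγ, g1, g2⟩ := glue_both hΓ h1 h2 x
    obtain ⟨δ, hδ, g3, g4⟩ := glue_both hΓ h1 h2 y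
    have e1 : F x = glue_conj f γ x := hF x γ g1.self_of_nhds
    have e2 : F y = glue_conj f δ y := hF y δ g3.self_of_nhds
    have e3 : x = glue_conj f' γ (F x) := by
      rw [e1, glueh_conj_conj hΓ hl hγ]
    have e4 : y = glue_conj f' δ (F y) := by
      rw [e2, glueh_conj_conj hΓ hl hδ]
    rw [e3, e4, ← hxy]
    refine glue_agree' hΓ k1 ?_ ?_
    · rw [e1]
      exact g2.self_of_nhds
    · rw [hxy, e2]
      exact g4.self_of_nhds
  · intro P
    obtain ⟨γ, hγ, g1, g2⟩ := glue_both hΓ k1 k2 P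
    refine ⟨glue_conj f' γ P, ?_⟩
    rw [hF _ γ g2.self_of_nhds, glueh_conj_conj hΓ hr hγ]

theorem glueh_sing (hΓ : IsLattice Γ 19) {f : W → W}
    (h1 : ∀ v : W, 18 ≤ ‖v‖ → f v = v) (hs : ContDiff ℝ ∞ f)
    (hsing : ∃ v : W, ¬ Function.Injective (fderiv ℝ f v)) {F : P d → P d}
    (hF : ∀ p γ, glue_Good Γ γ p → F p = glue_conj f γ p) :
    ∃ p, ¬ Function.Injective (fderiv ℝ F p) := by
  obtain ⟨v, hv⟩ := hsing
  have hv18 : ‖v‖ ≤ 18 := by
    by_contra hcon
    push Not at hcon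
    apply hv
    have e : f =ᶠ[𝓝 v] fun w => w := by
      filter_upwards [continuous_norm.continuousAt.eventually (lt_mem_nhds hcon)] with w hw
      exact h1 w (le_of_lt hw)
    rw [e.fderiv_eq, fderiv_fun_id]
    exact Function.injective_id
  have hg : ∀ᶠ q : P d in 𝓝 (((0 : V d), v) : P d), glue_Good Γ 1 q := by
    refine glue_good_near Γ.one_mem ?_
    rw [glue_act_one]
    show ‖v‖ < 19
    linarith
  have e1 : F =ᶠ[𝓝 (((0 : V d), v) : P d)] fun q => (q.1, f q.2) := by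
    filter_upwards [hg] with q hq
    rw [hF q 1 hq]
    unfold glue_conj
    rw [inv_one, glue_act_one, glue_act_one]
    rfl
  refine ⟨((0 : V d), v), fun hinj => hv ?_⟩
  rw [e1.fderiv_eq] at hinj
  have hd : HasFDerivAt (fun q : P d => ((q.1, f q.2) : P d))
      ((ContinuousLinearMap.fst ℝ (V d) W).prod ((fderiv ℝ f v).comp
        (ContinuousLinearMap.snd ℝ (V d) W))) (((0 : V d), v) : P d) := by
    have a1 : HasFDerivAt (fun q : P d => f q.2)
        ((fderiv ℝ f v).comp (ContinuousLinearMap.snd ℝ (V d) W)) (((0 : V d), v) : P d) :=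
      HasFDerivAt.comp (g := f) (f := fun q : P d => q.2) (((0 : V d), v) : P d)
        (hs.differentiable (by simp) v).hasFDerivAt hasFDerivAt_snd
    exact hasFDerivAt_fst.prodMk a1
  rw [hd.fderiv] at hinj
  intro a b hab
  have h3 : (((0 : V d), a) : P d) = ((0 : V d), b) := by
    apply hinj
    simp only [ContinuousLinearMap.prod_apply, ContinuousLinearMap.comp_apply,
      ContinuousLinearMap.coe_fst', ContinuousLinearMap.coe_snd']
    rw [hab]
  exact congrArg Prod.snd h3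

end

/-- Gluing the tubes. -/
theorem t_GLUEH : S_GLUEH := by
  intro _ _ hN1 hN2 hHYP hBMET d Γ C g2 c f hd hΓ hT
  have hGs : IsMet (blk (d := d) C g2) Set.univ := by
    have := hBMET hHYP d C g2 Set.univ isOpen_univ hT.g2_met hT.C_smooth.contDiffOn
      (fun x _ => hT.C_pos x)
    simpa using this
  have hGt : IsMet (blk (d := d) c hyp) Set.univ := by
    have := hBMET hHYP d c hyp Set.univ isOpen_univ (hHYP W).1 hT.c_smooth.contDiffOn
      (fun x _ => hT.c_pos x)
    simpa using this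
  have hboth := glue_both hΓ hT.f_out hT.f_in
  have hex : ∀ p : P d, ∃ γ, glue_Good Γ γ p := fun p => by
    obtain ⟨γ, _, h, _⟩ := hboth p
    exact ⟨γ, h.self_of_nhds⟩
  choose σ hσ using hex
  -- the data
  obtain ⟨g, hg⟩ : ∃ g : P d → P d → P d → ℝ, ∀ p γ, glue_Good Γ γ p → ∀ u v,
      g p u v = glue_pull (blk C g2) γ p u v :=
    ⟨fun p => glue_pull (blk C g2) (σ p) p, fun p γ h u v =>
      glue_agree hΓ hT.C_out hT.g2_out (hσ p) h u v⟩
  obtain ⟨h, hh⟩ : ∃ h : P d → P d → P d → ℝ, ∀ p γ, glue_Good Γ γ p → ∀ u v,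
      h p u v = glue_pull (blk c hyp) γ p u v :=
    ⟨fun p => glue_pull (blk c hyp) (σ p) p, fun p γ h u v =>
      glue_agree hΓ hT.c_out (fun _ _ _ _ => rfl) (hσ p) h u v⟩
  obtain ⟨F, hF⟩ : ∃ F : P d → P d, ∀ p γ, glue_Good Γ γ p → F p = glue_conj f γ p :=
    ⟨fun p => glue_conj f (σ p) p, fun p γ h => glue_agree' hΓ hT.f_out (hσ p) h⟩
  -- metrics
  have hmet : ∀ (G : P d → P d → P d → ℝ) (g : P d → P d → P d → ℝ), IsMet G Set.univ →
      (∀ p γ, glue_Good Γ γ p → ∀ u v, g p u v = glue_pull G γ p u v) → IsMet g Set.univ := by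
    intro G g hG hg
    refine ⟨fun y u u' v => ?_, fun y c u v => ?_, fun y u v => ?_, fun y _ u hu => ?_,
      fun u v => ?_⟩
    · rw [hg y _ (hσ y), hg y _ (hσ y), hg y _ (hσ y)]
      unfold glue_pull
      rw [map_add, hG.add]
    · rw [hg y _ (hσ y), hg y _ (hσ y)]
      unfold glue_pull
      rw [map_smul, hG.smul]
    · rw [hg y _ (hσ y), hg y _ (hσ y)]
      unfold glue_pull
      rw [hG.symm]
    · rw [hg y _ (hσ y)]
      unfold glue_pull
      refine hG.pos _ (Set.mem_univ _) _ fun h0 => hu ?_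
      have hb := glue_bij (glue_iso hΓ (hσ y).1) (glue_iso hΓ (Γ.inv_mem (hσ y).1)) y
      exact hb.1 (by rw [h0, map_zero])
    · rw [contDiffOn_univ, contDiff_iff_contDiffAt]
      intro y
      obtain ⟨γ, _, hy, _⟩ := hboth y
      refine (glue_smooth hG γ u v).contDiffAt.congr_of_eventuallyEq ?_
      filter_upwards [hy] with q hq
      exact hg q γ hq u v
  have hgood : ∀ γ ∈ Γ, ∀ δ x, glue_Good Γ δ (act γ x) → glue_Good Γ (δ * γ) x := by
    intro γ hγ δ x hx
    refine ⟨Γ.mul_mem hx.1 hγ, hx.2.imp (fun h1 => ?_) fun h1 ε hε => ?_⟩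
    · rwa [glue_act_mul _ (glue_iso hΓ hγ)]
    · have := h1 (ε * γ⁻¹) (Γ.mul_mem hε (Γ.inv_mem hγ))
      rwa [← glue_act_mul _ (glue_iso hΓ hγ), inv_mul_cancel_right] at this
  have hinv : ∀ (G : P d → P d → P d → ℝ) (g : P d → P d → P d → ℝ),
      (∀ p γ, glue_Good Γ γ p → ∀ u v, g p u v = glue_pull G γ p u v) → ∀ γ ∈ Γ, ∀ x a b,
      g (act γ x) (fderiv ℝ (act γ) x a) (fderiv ℝ (act γ) x b) = g x a b := by
    intro G g hg γ hγ x a b
    rw [hg _ _ (hσ (act γ x)), hg x _ (hgood γ hγ _ x (hσ (act γ x))),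
      glue_pull_mul _ _ (glue_iso hΓ hγ)]
  have hneg : ∀ (G : P d → P d → P d → ℝ) (g : P d → P d → P d → ℝ), IsMet G Set.univ →
      (∀ p, NegAt G p) →
      (∀ p γ, glue_Good Γ γ p → ∀ u v, g p u v = glue_pull G γ p u v) → ∀ x, NegAt g x := by
    intro G g hG hn hg x
    obtain ⟨γ, hγ, hx, _⟩ := hboth x
    refine hN1 (P d) (P d) g G Set.univ (act γ) x isOpen_univ hG (Set.mem_univ _)
      (glue_contDiff_act γ).contDiffAt
      (glue_bij (glue_iso hΓ hγ) (glue_iso hΓ (Γ.inv_mem hγ)) x) ?_ (hn _)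
    filter_upwards [hx] with q hq a b
    exact hg q γ hq a b
  have hfm : ContDiff ℝ ∞ (glue_fm (d := d) f) := by
    unfold glue_fm
    exact contDiff_fst.prodMk (hT.f_smooth.comp contDiff_snd)
  have hconj : ∀ γ : L d ≃ₗ[ℝ] L d, ContDiff ℝ ∞ (glue_conj f γ) := fun γ => by
    unfold glue_conj
    exact (glue_contDiff_act _).comp (hfm.comp (glue_contDiff_act γ))
  have hFs : ContDiff ℝ ∞ F := by
    rw [contDiff_iff_contDiffAt]
    intro y
    obtain ⟨γ, _, hy, _⟩ := hboth y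
    refine (hconj γ).contDiffAt.congr_of_eventuallyEq ?_
    filter_upwards [hy] with q hq
    exact hF q γ hq
  refine ⟨g, h, F, hmet _ g hGs hg, hmet _ h hGt hh, hinv _ g hg, hinv _ h hh,
    hneg _ g hGs hT.neg_src hg, hneg _ h hGt hT.neg_tgt hh, hFs, ?_, ?_,
    glueh_bij hΓ hT.bij hT.f_out hT.f_in hF, glueh_sing hΓ hT.f_out hT.f_smooth hT.sing hF⟩
  · intro γ hγ x
    rw [hF _ _ (hσ (act γ x)), hF x _ (hgood γ hγ _ x (hσ (act γ x)))]
    have hi := glue_iso hΓ hγ
    have hj := glue_iso hΓ (Γ.inv_mem (hσ (act γ x)).1)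
    unfold glue_conj
    rw [mul_inv_rev, glue_act_mul _ hj, glue_act_mul _ hi]
    have := glue_act_inv (glue_iso hΓ (Γ.inv_mem hγ))
      (act (σ (act γ x))⁻¹ (glue_fm f (act (σ (act γ x)) (act γ x))))
    rw [inv_inv] at this
    exact this.symm
  · intro x
    obtain ⟨γ, hγ, hx, hFx⟩ := hboth x
    have e : F x = glue_conj f γ x := hF x γ hx.self_of_nhds
    rw [← e] at hFx
    have hi := glue_iso hΓ hγ
    have hi' := glue_iso hΓ (Γ.inv_mem hγ)
    refine hN2 (P d) (P d) (P d) (P d) g (blk C g2) h (blk c hyp) Set.univ Set.univ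
      (act γ) (act γ) F (glue_fm f) x isOpen_univ isOpen_univ hGs hGt (Set.mem_univ _)
      (Set.mem_univ _) (glue_contDiff_act γ).contDiffAt (glue_bij hi hi' x)
      (glue_contDiff_act γ).contDiffAt (glue_bij hi hi' _) hFs.contDiffAt hfm.contDiffAt
      ?_ ?_ ?_ (hT.harm _)
    · filter_upwards [hx] with q hq
      rw [hF q γ hq]
      unfold glue_conj
      have := glue_act_mul γ hi' (glue_fm f (act γ q))
      rw [← this, mul_inv_cancel, glue_act_one]
    · filter_upwards [hx] with q hq a b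
      exact hg q γ hq a b
    · filter_upwards [hFx] with q hq a b
      exact hh q γ hq a b

end Pool.Agent.Helper473.LY
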