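import Pool.Agent.Helper473.LY.Stmts3
import Pool.Agent.Helper473.LY.T_INGOOD

/-!
# Harmonic homeomorphisms: task INGOOD2 (the inner metrics are good for all amplitudes)
-/

set_option autoImplicit false

open scoped Manifold ContDiff Topology RealInnerProductSpace
open Module

namespace Pool.Agent.Helper473.LY

open Pool.Agent.H234R3

theorem ingood2_zh1 (n : ℕ) (ε s y : ℝ) : zh n ε s y = s * zh n ε 1 y := by
  simp [zh]

theorem ingood2_chi1_le (y : ℝ) : |chi1 y| ≤ 1 := by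
  rw [abs_le]
  have h1 : 0 ≤ chi1 y := Real.smoothTransition.nonneg _
  have h2 : chi1 y ≤ 1 := Real.smoothTransition.le_one _
  exact ⟨by linarith, h2⟩

/-- The derivative of `zc`. -/
theorem ingood2_zc_d (hS : S_SM) {n : ℕ} (hn : 1 ≤ n) {ε y : ℝ} (s : ℝ) (hε : 0 ≤ ε)
    (hy : 0 < y) : HasDerivAt (zc n ε s)
      (deriv chi1 y * zh n ε s y + chi1 y * (Gf n ε y / 2 * zh n ε s y)) y := by
  have h1 := (ingood_chi1_c.differentiable (by simp) y).hasDerivAt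
  exact h1.mul (ingood_zh_d hS hn s hε hy.le (by linarith))

/-- The bounds on the compact set. -/
theorem ingood2_bd (hS : S_SM) {n : ℕ} (hn : 1 ≤ n) :
    ∃ B : ℝ, 0 < B ∧ ∀ ε y : ℝ, 0 ≤ ε → ε ≤ 1 → 1 ≤ y → y ≤ 2 →
      |zh n ε 1 y| ≤ B ∧ |Gf n ε y| ≤ B ∧ |deriv chi1 y| ≤ B := by
  have hK : IsCompact (Set.Icc (0:ℝ) 1 ×ˢ Set.Icc (1:ℝ) 2) := isCompact_Icc.prod isCompact_Icc
  have c1 : ContinuousOn (fun q : ℝ × ℝ => zh n q.1 1 q.2) (Set.Icc (0:ℝ) 1 ×ˢ Set.Icc (1:ℝ) 2) := by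
    rintro ⟨ε, y⟩ ⟨h1, h2⟩
    simp only [Set.mem_Icc] at h1 h2
    have h3 := (hS n ε y hn h1.1 (by linarith [h2.1]) (by linarith [h1.1, h2.1])).2.2.2.2.1 1
    have h4 : ContinuousAt (fun q : ℝ × ℝ => (q.1, (1:ℝ), q.2)) (ε, y) := by fun_prop
    exact (ContinuousAt.comp (g := fun q : ℝ × ℝ × ℝ => zh n q.1 q.2.1 q.2.2)
      (f := fun q : ℝ × ℝ => (q.1, (1:ℝ), q.2)) (x := (ε, y)) h3.continuousAt
      h4).continuousWithinAt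
  have c2 : ContinuousOn (fun q : ℝ × ℝ => Gf n q.1 q.2) (Set.Icc (0:ℝ) 1 ×ˢ Set.Icc (1:ℝ) 2) := by
    rintro ⟨ε, y⟩ ⟨h1, h2⟩
    simp only [Set.mem_Icc] at h1 h2
    exact ((hS n ε y hn h1.1 (by linarith [h2.1])
      (by linarith [h1.1, h2.1])).2.1).continuousAt.continuousWithinAt
  have c3 : ContinuousOn (fun q : ℝ × ℝ => deriv chi1 q.2) (Set.Icc (0:ℝ) 1 ×ˢ Set.Icc (1:ℝ) 2) :=
    (ingood_chi1_c1.continuous.comp continuous_snd).continuousOn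
  obtain ⟨B1, hB1⟩ := hK.exists_bound_of_continuousOn c1
  obtain ⟨B2, hB2⟩ := hK.exists_bound_of_continuousOn c2
  obtain ⟨B3, hB3⟩ := hK.exists_bound_of_continuousOn c3
  refine ⟨1 + |B1| + |B2| + |B3|, by positivity, fun ε y h1 h2 h3 h4 => ?_⟩
  have k1 := hB1 (ε, y) ⟨⟨h1, h2⟩, ⟨h3, h4⟩⟩
  have k2 := hB2 (ε, y) ⟨⟨h1, h2⟩, ⟨h3, h4⟩⟩
  have k3 := hB3 (ε, y) ⟨⟨h1, h2⟩, ⟨h3, h4⟩⟩
  simp only [Real.norm_eq_abs] at k1 k2 k3
  have a1 := abs_nonneg B1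
  have a2 := abs_nonneg B2
  have a3 := abs_nonneg B3
  have b1 := le_abs_self B1
  have b2 := le_abs_self B2
  have b3 := le_abs_self B3
  exact ⟨by linarith, by linarith, by linarith⟩

/-- The amplitude below which there is no fold outside. -/
theorem ingood2_amp (hS : S_SM) {n : ℕ} (hn : 1 ≤ n) :
    ∃ s0 : ℝ, 0 < s0 ∧ ∀ ε y s' : ℝ, 0 ≤ ε → ε ≤ 1 → 1 ≤ y → y ≤ 2 → 0 ≤ s' → s' ≤ s0 →
      |zc n ε s' y| ≤ 1 / 60 ∧ |deriv (zc n ε s') y| ≤ 1 / 60 := by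
  obtain ⟨B, hB, h⟩ := ingood2_bd hS hn
  refine ⟨1 / (60 * (B + 2 * B * B)), by positivity, fun ε y s' h1 h2 h3 h4 h5 h6 => ?_⟩
  obtain ⟨k1, k2, k3⟩ := h ε y h1 h2 h3 h4
  rw [le_div_iff₀ (by positivity)] at h6
  have e1 : |zh n ε s' y| ≤ s' * B := by
    rw [ingood2_zh1, abs_mul, abs_of_nonneg h5]
    exact mul_le_mul_of_nonneg_left k1 h5
  have hsB : 0 ≤ s' * B := by positivity
  have hsBB : 0 ≤ s' * B * B := by positivity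
  constructor
  · unfold zc
    rw [abs_mul]
    have := mul_le_mul (ingood2_chi1_le y) e1 (abs_nonneg _) zero_le_one
    nlinarith
  · rw [(ingood2_zc_d hS hn s' h1 (by linarith)).deriv]
    have t1 : |deriv chi1 y * zh n ε s' y| ≤ B * (s' * B) := by
      rw [abs_mul]; exact mul_le_mul k3 e1 (abs_nonneg _) hB.le
    have t2 : |chi1 y * (Gf n ε y / 2 * zh n ε s' y)| ≤ 1 * (B * (s' * B)) := by
      rw [abs_mul]
      refine mul_le_mul (ingood2_chi1_le y) ?_ (abs_nonneg _) zero_le_one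
      rw [abs_mul]
      refine mul_le_mul ?_ e1 (abs_nonneg _) hB.le
      rw [abs_div, abs_of_pos (by norm_num : (0:ℝ) < 2)]
      linarith [abs_nonneg (Gf n ε y)]
    have t3 := abs_add_le (deriv chi1 y * zh n ε s' y) (chi1 y * (Gf n ε y / 2 * zh n ε s' y))
    nlinarith

/-- The derivative of the map on the axis. -/
theorem ingood2_axf_d (hS : S_SM) {n : ℕ} (hn : 1 ≤ n) {ε : ℝ} (s r t : ℝ) (hε : 0 ≤ ε)
    (ht : 1 ≤ t ^ 2) (hr : 0 < r) :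
    deriv (axf r (zc n ε s)) t = ((1 + 2 * t * deriv (zc n ε s) (t ^ 2)) * (1 + r * t ^ 2)
      - (t + zc n ε s (t ^ 2)) * (2 * r * t)) / (1 + r * t ^ 2) ^ 2 := by
  have hz := (ingood2_zc_d hS hn s hε (y := t ^ 2) (by linarith)).differentiableAt.hasDerivAt
  have h1 : HasDerivAt (fun t : ℝ => t ^ 2) (2 * t) t := by
    simpa using hasDerivAt_pow 2 t
  have h2 : HasDerivAt (fun t : ℝ => zc n ε s (t ^ 2)) (deriv (zc n ε s) (t ^ 2) * (2 * t)) t :=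
    HasDerivAt.comp (h₂ := zc n ε s) (h := fun t : ℝ => t ^ 2) t hz h1
  have h3 := (hasDerivAt_id' t).fun_add h2
  have h4 : HasDerivAt (fun t : ℝ => 1 + r * t ^ 2) (r * (2 * t)) t :=
    (h1.const_mul r).const_add 1
  have h5 : 0 < 1 + r * t ^ 2 := by positivity
  have h6 := h3.fun_div h4 h5.ne'
  have h7 : axf r (zc n ε s) = fun t => (t + zc n ε s (t ^ 2)) / (1 + r * t ^ 2) := rfl
  rw [h7, h6.deriv]
  congr 1
  ring

theorem ingood2_out (hS : S_SM) {n : ℕ} (hn : 1 ≤ n) {s0 : ℝ}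
    (h : ∀ ε y s' : ℝ, 0 ≤ ε → ε ≤ 1 → 1 ≤ y → y ≤ 2 → 0 ≤ s' → s' ≤ s0 →
      |zc n ε s' y| ≤ 1 / 60 ∧ |deriv (zc n ε s') y| ≤ 1 / 60) {ε : ℝ} (hε : 0 ≤ ε) (hε1 : ε ≤ 1)
    (r s' t : ℝ) (hr : 0 < r) (hr1 : r < 1 / 20) (hs : 0 ≤ s') (hs0 : s' ≤ s0) (ht : 1 ≤ t ^ 2)
    (hrt : r * t ^ 2 < 1) : 0 < deriv (axf r (zc n ε s')) t := by
  rw [ingood2_axf_d hS hn s' r t hε ht hr]
  refine div_pos ?_ (by positivity)
  rcases le_or_gt (t ^ 2) 2 with h2 | h2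
  · obtain ⟨k1, k2⟩ := h ε (t ^ 2) s' hε hε1 ht h2 hs hs0
    have ht2 : |t| ≤ 3 / 2 := by
      rw [abs_le]; constructor <;> nlinarith
    set Z := zc n ε s' (t ^ 2)
    set Z' := deriv (zc n ε s') (t ^ 2)
    have a1 : |t * Z'| ≤ 1 / 40 := by
      rw [abs_mul]
      have := mul_le_mul ht2 k2 (abs_nonneg _) (by norm_num)
      linarith
    have a2 : |t * Z| ≤ 1 / 40 := by
      rw [abs_mul]
      have := mul_le_mul ht2 k1 (abs_nonneg _) (by norm_num)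
      linarith
    rw [abs_le] at a1 a2
    have b1 : 0 ≤ (1 / 40 + t * Z') * (r * t ^ 2) := mul_nonneg (by linarith) (by positivity)
    have b2 : r * (t * Z) ≤ r * (1 / 40) := mul_le_mul_of_nonneg_left a2.2 hr.le
    have b3 : r * t ^ 2 ≤ r * 2 := mul_le_mul_of_nonneg_left h2 hr.le
    have b4 : 0 ≤ r * t ^ 2 := by positivity
    nlinarith
  · have e1 : zc n ε s' (t ^ 2) = 0 := by
      simp [zc, ingood_chi1_zero h2.le]
    have e2 : deriv (zc n ε s') (t ^ 2) = 0 := by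
      rw [(ingood2_zc_d hS hn s' hε (by linarith)).deriv, (ingood_chi1_d (Or.inr h2)).1,
        ingood_chi1_zero h2.le]
      ring
    rw [e1, e2]
    nlinarith

theorem ingood2_s (hP : S_POLY) (hS : S_SM) (hR : S_RAD) (hO : S_OPEN) {n : ℕ} (hn : 1 ≤ n) :
    ∃ s1 > 0, ∀ s : ℝ, |s| < s1 → ∀ e : ℝ, 0 ≤ e → e ≤ 1 → ∀ x : W, 1 ≤ ‖x‖ ^ 2 → ‖x‖ ^ 2 ≤ 2 →
      (((s, e, 0), x) : IGP) ∈ ingoodG n := by
  obtain ⟨δ, hδ, h⟩ := ingood_tube (X := ℝ × W) (Set.Icc 0 1 ×ˢ {x : W | 1 ≤ ‖x‖ ^ 2 ∧ ‖x‖ ^ 2 ≤ 2})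
    (isCompact_Icc.prod (ingood_cpt 1 2))
    ((fun p : ℝ × ℝ × W => (((p.1, p.2.1, 0), p.2.2) : IGP)) ⁻¹' ingoodG n)
    ((ingood_open2 hP hS hO hn).preimage (by fun_prop)) (by
      rintro ⟨e, x⟩ ⟨he, hx1, hx2⟩
      simp only at he hx1 hx2
      refine ingood_mem0 hP hS hR hn 0 e x (by positivity) ?_ ?_
      · exact Filter.Eventually.of_forall fun z => ingood_nu00 n _ z
      · right
        rw [ingood_zc0]; simp only [zero_mul, add_zero]; linarith)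
  exact ⟨δ, hδ, fun s hs e he0 he1 x hx1 hx2 => h s hs (e, x) ⟨⟨he0, he1⟩, hx1, hx2⟩⟩

theorem ingood2_r (hP : S_POLY) (hS : S_SM) (hR : S_RAD) (hO : S_OPEN) {n : ℕ} (hn : 1 ≤ n) {s1 s : ℝ}
    (hs : ∀ s : ℝ, |s| < s1 → ∀ e : ℝ, 0 ≤ e → e ≤ 1 → ∀ x : W, 1 ≤ ‖x‖ ^ 2 → ‖x‖ ^ 2 ≤ 2 →
      (((s, e, 0), x) : IGP) ∈ ingoodG n) (hss : s < s1) {e : ℝ} (he : 0 < e) (he1 : e ≤ 1) :
    ∃ δ > 0, ∀ r : ℝ, |r| < δ → ∀ s' : ℝ, 0 ≤ s' → s' ≤ s → ∀ x : W, ‖x‖ ^ 2 ≤ 5 →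
      (((s', e, r), x) : IGP) ∈ ingoodG n ∧ Y2f r (zc n (e ^ 2) s') x < 1 / 2 := by
  have hopen : IsOpen {z : IGP | z ∈ ingoodG n ∧
      Y2f z.1.2.2 (zc n (z.1.2.1 ^ 2) z.1.1) z.2 < 1 / 2} := by
    rw [isOpen_iff_mem_nhds]
    rintro z0 ⟨h1, h2⟩
    have h3 := h1
    obtain ⟨⟨h, hr, -⟩, -⟩ := h3
    filter_upwards [(ingood_open2 hP hS hO hn).mem_nhds h1,
      (ingood_sY hS hn h hr).continuousAt.eventually_lt continuousAt_const h2] with z a b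
    exact ⟨a, b⟩
  obtain ⟨δ, hδ, h⟩ := ingood_tube (X := ℝ × W)
    (Set.Icc 0 s ×ˢ {x : W | 0 ≤ ‖x‖ ^ 2 ∧ ‖x‖ ^ 2 ≤ 5})
    (isCompact_Icc.prod (ingood_cpt 0 5))
    ((fun p : ℝ × ℝ × W => (((p.2.1, e, p.1), p.2.2) : IGP)) ⁻¹' _)
    (hopen.preimage (by fun_prop)) (by
      rintro ⟨s', x⟩ ⟨hs', -, hx⟩
      simp only [Set.mem_Icc] at hs'
      exact ⟨ingood_mem1 hP hS hR hn
        (fun e' h1 h2 x' h3 h4 => hs s' (by rw [abs_of_nonneg hs'.1]; linarith) e' h1 h2 x' h3 h4)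
        he he1 x, by simp [ingood_Y0]⟩)
  exact ⟨δ, hδ, fun r hr s' h0 h1 x hx => h r hr (s', x) ⟨⟨h0, h1⟩, sq_nonneg _, hx⟩⟩

theorem t_INGOOD2 : S_INGOOD2 := by
  intro hP hS hR hO n hn
  obtain ⟨s1, hs1, hs⟩ := ingood2_s hP hS hR hO hn
  obtain ⟨s2, hs2, ha⟩ := ingood2_amp hS hn
  set s : ℝ := min (s1 / 2) s2 with hsdef
  have hs0 : 0 < s := lt_min (by linarith) hs2
  have hss1 : s < s1 := lt_of_le_of_lt (min_le_left _ _) (by linarith)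
  have hss2 : s ≤ s2 := min_le_right _ _
  obtain ⟨e, he0, he1, hf⟩ := ingood_fold hP hS hn hs0
  obtain ⟨δ1, hδ1, h1⟩ := ingood_fold2 (s := s) hS hn he0 he1 hf
  obtain ⟨δ2, hδ2, h2⟩ := ingood2_r hP hS hR hO hn hs hss1 he0 he1.le
  have he2 : e ^ 2 ≤ 1 := by nlinarith
  refine ⟨s, e ^ 2, min (1 / 20) (min δ1 δ2), hs0, by positivity, he2, by positivity,
    lt_of_le_of_lt (min_le_left _ _) (by norm_num), ⟨-e, ?_, ?_⟩, ?_, ?_⟩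
  · rw [abs_neg, abs_of_pos he0]; exact he1
  · intro r hr0 hr
    exact h1 r hr0 (hr.trans_le ((min_le_right _ _).trans (min_le_left _ _)))
  · intro r s' t hr0 hr hs'0 hs' ht hrt
    exact ingood2_out hS hn ha (sq_nonneg e) he2 r s' t hr0 (hr.trans_le (min_le_left _ _)) hs'0
      (hs'.trans hss2) ht hrt
  · intro r s' hr0 hr hs'0 hs' x hx
    have hr2 : |r| < δ2 := by
      rw [abs_of_pos hr0]
      exact hr.trans_le ((min_le_right _ _).trans (min_le_right _ _))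
    obtain ⟨⟨⟨g1, g2, g3, g4, g5, g6, g7⟩, g8⟩, g9⟩ := h2 r hr2 s' hs'0 hs' x hx.le
    obtain ⟨qA, qB, qN, -⟩ := hP n (e ^ 2) (‖x‖ ^ 2) hn (sq_nonneg _) (sq_nonneg _) (by positivity)
    exact ⟨⟨g2, g3, g4, qA, qB, qN, g6, g7, g5⟩, g8, g9⟩

end Pool.Agent.Helper473.LY
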