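/-
PROJECT LY2 (MP_0fcc57_gt, helper473): harmonic homeomorphisms between closed negatively curved manifolds which are not diffeomorphisms (critical amplitude of the Lawson-Yau family, project 75). Job: prove theorem t_NEST : S_NEST.
Setup: cd /workdir/pool/outputs/live && git fetch -q && for f in Defs Geo Fam Stmts Stmts2 Stmts3 T_INGOOD T_B; do mkdir -p /workdir/pool/Pool/Agent/Helper473/LY; git show origin/helper473:Pool/Agent/Helper473/LY/$f.lean > /workdir/pool/Pool/Agent/Helper473/LY/$f.lean; done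
 mkdir -p /workdir/pool/Pool/Agent/H234R3 && cp Pool/Agent/H234R3/Defs.lean Pool/Agent/H234R3/CvxDefs.lean /workdir/pool/Pool/Agent/H234R3/ ; cd /workdir/pool && lake build Pool.Agent.Helper473.LY.Stmts3
The definitions are in Geo.lean and Fam.lean, the statements in Stmts.lean, Stmts2.lean and Stmts3.lean (this job: Stmts3.lean); the paper of the family is papers id 140.
Your file: Pool/Agent/Helper473/LY/T_NEST.lean. Auxiliary lemmas: names starting with nest_. Statement unchanged, no sorry.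
RULES.md item 2: no straight double quote, no banned words. If the statement is false tell helper473 at once.

Yf r z x = (2√r/(1+r‖x‖^2)) • (x + z(‖x‖^2) • e0). With ρ=‖x‖, k(ρ)=2√r/(1+rρ^2), m(ρ)=k(ρ) z(ρ^2), R(ρ)=k(ρ)ρ: ‖Yf x - m(ρ)e0‖ = R(ρ), and 2√r axf r z ρ = m+R, 2√r axf r z (-ρ) = m-R. Strict monotonicity of axf on the symmetric interval: for 0<=ρ<ρ', rρ'^2<1: m+R < m'+R' and m'-R' < m-R, i.e. |m'-m| < R'-R (for ρ=0 fine too). Injective: if Yf x = Yf x' and ρ=ρ' then x=x' (k>0); if ρ<ρ' then R' = ‖Yf x - m'e0‖ <= R + |m-m'| < R'. Contradiction. MapsTo: choose ρ' with max(ρ^2, 2) < ρ'^2 < 1/r: m'=0, ‖Yf x‖ <= R+|m| < R' <= 1 (2√r ρ' <= 1+rρ'^2). Surjective on ‖Y‖<1: h(ρ) = ‖Y - m(ρ)e0‖ - R(ρ) is continuous on [0,1/√r) (z continuous on [0,∞)), h(0) >= 0, and near 1/√r: m=0 and R(ρ) -> 1 > ‖Y‖, so h<0; intermediate value gives ρ with h=0 (if you take ρ with h(ρ)=0, set x := (1/k) • (Y - m e0), ‖x‖=ρ,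 Yf x = Y).
-/
import Pool.Agent.Helper473.LY.Stmts3

set_option autoImplicit false

open scoped Manifold ContDiff Topology RealInnerProductSpace
open Module

namespace Pool.Agent.Helper473.LY

open Pool.Agent.H234R3

theorem nest_e0 : ‖e0‖ = 1 := by
  unfold e0
  simp

/-- The coefficient `k`. -/
noncomputable def nest_k (r t : ℝ) : ℝ := 2 * √r / (1 + r * t ^ 2)

theorem nest_kpos {r : ℝ} (hr : 0 < r) (t : ℝ) : 0 < nest_k r t := by
  unfold nest_k
  have h1 : 0 < √r := Real.sqrt_pos.mpr hr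
  have h2 : 0 < 1 + r * t ^ 2 := by positivity
  positivity

theorem nest_Yf (r : ℝ) (z : ℝ → ℝ) (x : W) :
    Yf r z x = nest_k r ‖x‖ • x + (nest_k r ‖x‖ * z (‖x‖ ^ 2)) • e0 := by
  unfold Yf nest_k
  rw [smul_add, smul_smul]

theorem nest_mono {r : ℝ} {z : ℝ → ℝ} (hr : 0 < r)
    (hm : StrictMonoOn (axf r z) {t | r * t ^ 2 < 1}) {a b : ℝ} (ha : 0 ≤ a) (hab : a < b)
    (hb : r * b ^ 2 < 1) :
    |nest_k r b * z (b ^ 2) - nest_k r a * z (a ^ 2)| < nest_k r b * b - nest_k r a * a := by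
  have ha1 : r * a ^ 2 < 1 := by
    have : a ^ 2 ≤ b ^ 2 := by nlinarith
    nlinarith
  have h1 : axf r z a < axf r z b := hm ha1 hb hab
  have h2 : axf r z (-b) < axf r z (-a) := by
    apply hm
    · show r * (-b) ^ 2 < 1
      rw [neg_sq]; exact hb
    · show r * (-a) ^ 2 < 1
      rw [neg_sq]; exact ha1
    · linarith
  have hs : 0 < 2 * √r := by
    have := Real.sqrt_pos.mpr hr
    linarith
  have e1 : ∀ t : ℝ, nest_k r t * t + nest_k r t * z (t ^ 2) = 2 * √r * axf r z t := by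
    intro t
    unfold nest_k axf
    ring
  have e2 : ∀ t : ℝ, - (nest_k r t * t) + nest_k r t * z (t ^ 2) = 2 * √r * axf r z (-t) := by
    intro t
    unfold nest_k axf
    rw [neg_sq]
    ring
  have h3 := mul_lt_mul_of_pos_left h1 hs
  have h4 := mul_lt_mul_of_pos_left h2 hs
  rw [← e1, ← e1] at h3
  rw [← e2, ← e2] at h4
  rw [abs_lt]
  constructor <;> linarith

theorem nest_dist {r : ℝ} (hr : 0 < r) (z : ℝ → ℝ) (x : W) :
    ‖Yf r z x - (nest_k r ‖x‖ * z (‖x‖ ^ 2)) • e0‖ = nest_k r ‖x‖ * ‖x‖ := by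
  rw [nest_Yf, add_sub_cancel_right, norm_smul, Real.norm_of_nonneg (nest_kpos hr _).le]

theorem nest_inj {r : ℝ} {z : ℝ → ℝ} (hr : 0 < r)
    (hm : StrictMonoOn (axf r z) {t | r * t ^ 2 < 1}) {x y : W} (hxy : ‖x‖ ≤ ‖y‖)
    (hy : r * ‖y‖ ^ 2 < 1) (he : Yf r z x = Yf r z y) : x = y := by
  rcases hxy.lt_or_eq with hlt | heq
  · exfalso
    have h1 := nest_mono hr hm (norm_nonneg x) hlt hy
    have h2 := nest_dist hr z x
    have h3 := nest_dist hr z y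
    rw [he] at h2
    have h4 : ‖Yf r z y - (nest_k r ‖y‖ * z (‖y‖ ^ 2)) • e0‖ ≤
        ‖Yf r z y - (nest_k r ‖x‖ * z (‖x‖ ^ 2)) • e0‖ +
        ‖(nest_k r ‖y‖ * z (‖y‖ ^ 2) - nest_k r ‖x‖ * z (‖x‖ ^ 2)) • e0‖ := by
      have : Yf r z y - (nest_k r ‖y‖ * z (‖y‖ ^ 2)) • e0 =
          (Yf r z y - (nest_k r ‖x‖ * z (‖x‖ ^ 2)) • e0) -
          (nest_k r ‖y‖ * z (‖y‖ ^ 2) - nest_k r ‖x‖ * z (‖x‖ ^ 2)) • e0 := by
        rw [sub_smul]; abel
      rw [this]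
      exact norm_sub_le _ _
    rw [h3, h2, norm_smul, nest_e0, mul_one, Real.norm_eq_abs] at h4
    linarith
  · rw [nest_Yf, nest_Yf, heq] at he
    have h1 := add_right_cancel he
    have h2 : nest_k r ‖y‖ ≠ 0 := (nest_kpos hr _).ne'
    exact smul_right_injective W h2 h1

theorem nest_Rle {r : ℝ} (hr : 0 < r) (t : ℝ) : nest_k r t * t ≤ 1 := by
  unfold nest_k
  have h2 : 0 < 1 + r * t ^ 2 := by positivity
  rw [div_mul_eq_mul_div, div_le_one h2]
  have h3 : √r ^ 2 = r := Real.sq_sqrt hr.le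
  nlinarith [sq_nonneg (√r * t - 1)]

theorem nest_maps {r : ℝ} {z : ℝ → ℝ} (hr : 0 < r) (hr1 : 10 * r < 1)
    (hz : ∀ y, 2 ≤ y → z y = 0)
    (hm : StrictMonoOn (axf r z) {t | r * t ^ 2 < 1}) {x : W}
    (hx : r * ‖x‖ ^ 2 < 1) : ‖Yf r z x‖ < 1 := by
  have hq1 : max (‖x‖ ^ 2) 2 < 1 / r := by
    rw [lt_div_iff₀ hr, max_mul_of_nonneg _ _ hr.le, max_lt_iff]
    constructor
    · linarith
    · linarith
  obtain ⟨q, hq2, hq3⟩ := exists_between hq1
  have hq4 : ‖x‖ ^ 2 < q := lt_of_le_of_lt (le_max_left _ _) hq2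
  have hq5 : 2 < q := lt_of_le_of_lt (le_max_right _ _) hq2
  have hq6 : r * q < 1 := by
    rw [lt_div_iff₀ hr] at hq3
    linarith
  have hq7 : √q ^ 2 = q := Real.sq_sqrt (by linarith)
  have hlt : ‖x‖ < √q := Real.lt_sqrt_of_sq_lt hq4
  have h1 := nest_mono hr hm (norm_nonneg x) hlt (by rw [hq7]; exact hq6)
  rw [hq7, hz q hq5.le, mul_zero, zero_sub, abs_neg] at h1
  have h2 := nest_dist hr z x
  have h3 := nest_Rle hr (√q)
  have h4 : ‖Yf r z x‖ ≤ ‖Yf r z x - (nest_k r ‖x‖ * z (‖x‖ ^ 2)) • e0‖ +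
      ‖(nest_k r ‖x‖ * z (‖x‖ ^ 2)) • e0‖ := by
    have : Yf r z x = (Yf r z x - (nest_k r ‖x‖ * z (‖x‖ ^ 2)) • e0) +
      (nest_k r ‖x‖ * z (‖x‖ ^ 2)) • e0 := by abel
    calc ‖Yf r z x‖ = ‖(Yf r z x - (nest_k r ‖x‖ * z (‖x‖ ^ 2)) • e0) +
      (nest_k r ‖x‖ * z (‖x‖ ^ 2)) • e0‖ := by rw [← this]
      _ ≤ _ := norm_add_le _ _
  rw [h2, norm_smul, nest_e0, mul_one, Real.norm_eq_abs] at h4
  linarith

theorem nest_kcont {r : ℝ} (hr : 0 < r) : Continuous (nest_k r) := by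
  unfold nest_k
  refine Continuous.div (by fun_prop) (by fun_prop) ?_
  intro t
  have h2 : 0 < 1 + r * t ^ 2 := by positivity
  exact h2.ne'

theorem nest_surj {r : ℝ} {z : ℝ → ℝ} (hr : 0 < r) (hr1 : 10 * r < 1)
    (hc : ContinuousOn z (Set.Ici 0)) (hz : ∀ y, 2 ≤ y → z y = 0) {Y : W}
    (hY : ‖Y‖ < 1) : ∃ x : W, r * ‖x‖ ^ 2 < 1 ∧ Yf r z x = Y := by
  obtain ⟨t, ht⟩ : ∃ t : ℝ, t = (1 + ‖Y‖) / 2 := ⟨_, rfl⟩
  have hY0 : 0 ≤ ‖Y‖ := norm_nonneg Y
  have ht1 : t < 1 := by rw [ht]; linarith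
  have ht2 : ‖Y‖ < t := by rw [ht]; linarith
  have ht3 : 1 / 2 ≤ t := by rw [ht]; linarith
  have hs : 0 < √r := Real.sqrt_pos.mpr hr
  have hs2 : √r ^ 2 = r := Real.sq_sqrt hr.le
  obtain ⟨b, hb⟩ : ∃ b : ℝ, b = t / √r := ⟨_, rfl⟩
  have hb0 : 0 ≤ b := by rw [hb]; positivity
  have hsb : √r * b = t := by rw [hb]; field_simp
  have hrb : r * b ^ 2 = t ^ 2 := by
    rw [← hsb, mul_pow, hs2]
  have hb2 : 2 ≤ b ^ 2 := by
    by_contra hcon
    push Not at hcon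
    nlinarith
  have hzc : Continuous fun s : ℝ => z (s ^ 2) := by
    apply hc.comp_continuous (by fun_prop)
    intro s
    exact sq_nonneg s
  have hkc := nest_kcont hr
  have hcont : Continuous fun s : ℝ =>
      ‖Y - (nest_k r s * z (s ^ 2)) • e0‖ - nest_k r s * s :=
    ((continuous_const.sub ((hkc.mul hzc).smul continuous_const)).norm).sub
      (hkc.mul continuous_id)
  have hR : ‖Y‖ < nest_k r b * b := by
    have : nest_k r b * b = 2 * t / (1 + t ^ 2) := by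
      unfold nest_k
      rw [hrb, ← hsb]
      ring
    rw [this]
    have h3 : t ≤ 2 * t / (1 + t ^ 2) := by
      rw [le_div_iff₀ (by positivity)]
      nlinarith
    linarith
  obtain ⟨a, ha, ha2⟩ : (0 : ℝ) ∈ (fun s : ℝ =>
      ‖Y - (nest_k r s * z (s ^ 2)) • e0‖ - nest_k r s * s) '' Set.Icc 0 b := by
    apply intermediate_value_Icc' hb0 hcont.continuousOn
    constructor
    · show ‖Y - (nest_k r b * z (b ^ 2)) • e0‖ - nest_k r b * b ≤ 0
      rw [hz _ hb2, mul_zero, zero_smul, sub_zero]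
      linarith
    · show 0 ≤ ‖Y - (nest_k r 0 * z (0 ^ 2)) • e0‖ - nest_k r 0 * 0
      rw [mul_zero, sub_zero]
      exact norm_nonneg _
  have ha3 : ‖Y - (nest_k r a * z (a ^ 2)) • e0‖ = nest_k r a * a := by
    have : ‖Y - (nest_k r a * z (a ^ 2)) • e0‖ - nest_k r a * a = 0 := ha2
    linarith
  have hk : 0 < nest_k r a := nest_kpos hr a
  have hnx : ‖(nest_k r a)⁻¹ • (Y - (nest_k r a * z (a ^ 2)) • e0)‖ = a := by
    rw [norm_smul, ha3, norm_inv, Real.norm_of_nonneg hk.le]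
    field_simp
  refine ⟨(nest_k r a)⁻¹ • (Y - (nest_k r a * z (a ^ 2)) • e0), ?_, ?_⟩
  · rw [hnx]
    have h5 : a ^ 2 ≤ b ^ 2 := by
      have := ha.1
      have := ha.2
      nlinarith
    have h6 : r * a ^ 2 ≤ r * b ^ 2 := mul_le_mul_of_nonneg_left h5 hr.le
    nlinarith
  · rw [nest_Yf, hnx, smul_smul, mul_inv_cancel₀ hk.ne', one_smul]
    abel

theorem t_NEST : S_NEST := by
  intro r z hr hr1 hc hz hm
  refine ⟨?_, ?_, ?_⟩
  · intro x hx
    exact nest_maps hr hr1 hz hm hx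
  · intro x hx y hy he
    rcases le_total ‖x‖ ‖y‖ with h | h
    · exact nest_inj hr hm h hy he
    · exact (nest_inj hr hm h hx he.symm).symm
  · intro Y hY
    obtain ⟨x, hx, hxY⟩ := nest_surj hr hr1 hc hz hY
    exact ⟨x, hx, hxY⟩

end Pool.Agent.Helper473.LY
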