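import Mathlib
import Pool.Agent.Helper473.LY.Stmts3
import Pool.Agent.Helper473.LY.T_TUBE

/-!
# Task TUBEH: the tube at the critical amplitude
-/

set_option autoImplicit false

open scoped Manifold ContDiff Topology RealInnerProductSpace
open Module

namespace Pool.Agent.Helper473.LY

open Pool.Agent.H234R3

section
variable {d : ℕ} {s ε r : ℝ} {Co Lo Wt : ℝ → ℝ} {cs kk w0 : ℝ}

theorem tubeh_bij (D : tube_D d s ε r Co Lo Wt cs kk w0)
    (hB : Set.BijOn (Yf r (zc d ε s)) {x | r * ‖x‖ ^ 2 < 1} {Y | ‖Y‖ < 1}) :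
    Function.Bijective (tube_f d s ε r) := by
  obtain ⟨x1, x2, x3, x4, x5, x6, x7, x8, x9, x10, x11⟩ := D.xv r D.hr
  constructor
  · intro v v' h
    have m1 : LY.xv r v ∈ {x : W | r * ‖x‖ ^ 2 < 1} := (x6 v).2.2.1
    have m2 : LY.xv r v' ∈ {x : W | r * ‖x‖ ^ 2 < 1} := (x6 v').2.2.1
    have h1 := congrArg kv h
    unfold tube_f at h1
    rw [(x9 _ (hB.mapsTo m1)).1, (x9 _ (hB.mapsTo m2)).1] at h1
    have h2 := hB.injOn m1 m2 h1
    rw [(x6 v).2.2.2.2.1, (x6 v').2.2.2.2.1, h2]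
  · intro w
    have hw : kv w ∈ {Y : W | ‖Y‖ < 1} := (x6 w).2.2.2.2.2.1
    obtain ⟨x, hx, hxw⟩ := hB.surjOn hw
    refine ⟨(2 * √r / (1 - r * ‖x‖ ^ 2)) • x, ?_⟩
    unfold tube_f
    rw [x10 x hx, hxw]
    exact (x6 w).2.2.2.2.2.2

theorem tubeh_sing (D : tube_D d s ε r Co Lo Wt cs kk w0) {t0 : ℝ} (h0 : |t0| < 1)
    (hd : deriv (axf r (zc d ε s)) t0 = 0) :
    ∃ v : W, ¬ Function.Injective (fderiv ℝ (tube_f d s ε r) v) := by
  obtain ⟨x1, x2, x3, x4, x5, x6, x7, x8, x9, x10, x11⟩ := D.xv r D.hr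
  have hr := D.hr
  have hsr : 0 < √r := Real.sqrt_pos.2 hr
  have ht2 : t0 ^ 2 < 1 := by
    have h1 := abs_lt.1 h0
    nlinarith [h1.1, h1.2]
  have h5 := D.h5
  have hrt : r * t0 ^ 2 < 1 := by nlinarith [sq_nonneg t0]
  have he : ‖e0‖ = 1 := by
    unfold e0
    simp
  have he0 : e0 ≠ 0 := by
    intro h0
    rw [h0, norm_zero] at he
    norm_num at he
  have hn : ∀ t : ℝ, ‖t • e0‖ ^ 2 = t ^ 2 := by
    intro t
    rw [norm_smul, he, mul_one, Real.norm_eq_abs, sq_abs]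
  have hY : ∀ t : ℝ, Yf r (zc d ε s) (t • e0) = (2 * √r * axf r (zc d ε s) t) • e0 := by
    intro t
    unfold Yf axf
    rw [hn, ← add_smul, smul_smul]
    congr 1
    ring
  have hc : ∀ t : ℝ, r * t ^ 2 < 1 → LY.xv r ((2 * √r * t / (1 - r * t ^ 2)) • e0) = t • e0 := by
    intro t ht
    have h := x10 (t • e0) (by rw [hn]; exact ht)
    rw [hn, smul_smul] at h
    rw [← h]
    congr 2
    ring
  -- the curve
  set c : ℝ → W := fun t => (2 * √r * t / (1 - r * t ^ 2)) • e0 with hcdef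
  have hm : 0 < 1 - r * t0 ^ 2 := by linarith
  have dc : HasDerivAt c ((2 * √r * (1 + r * t0 ^ 2) / (1 - r * t0 ^ 2) ^ 2) • e0) t0 := by
    have a1 : HasDerivAt (fun t : ℝ => 2 * √r * t) (2 * √r) t0 := by
      simpa using (hasDerivAt_id t0).const_mul (2 * √r)
    have a2 : HasDerivAt (fun t : ℝ => 1 - r * t ^ 2) (-(r * (2 * t0))) t0 := by
      have := ((hasDerivAt_pow 2 t0).const_mul r).const_sub 1
      simpa using this
    have a3 := a1.fun_div a2 hm.ne'
    have a4 := a3.smul_const e0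
    refine a4.congr_deriv ?_
    congr 1
    field_simp
    ring
  -- the function on the axis
  have dz : DifferentiableAt ℝ (zc d ε s) (t0 ^ 2) :=
    (D.inr (t0 ^ 2) (sq_nonneg _) (by linarith)).2.2.1.differentiableAt (by simp)
  have da : HasDerivAt (axf r (zc d ε s)) 0 t0 := by
    have b1 : DifferentiableAt ℝ (axf r (zc d ε s)) t0 := by
      unfold axf
      refine DifferentiableAt.div ?_ (by fun_prop) (by positivity)
      exact differentiableAt_id.add
        (DifferentiableAt.comp (g := zc d ε s) (f := fun t : ℝ => t ^ 2) t0 dz (by fun_prop))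
    have b2 := b1.hasDerivAt
    rwa [hd] at b2
  have dY : HasDerivAt (fun t => (2 * √r * axf r (zc d ε s) t) • e0) (0 : W) t0 := by
    have b3 := (da.const_mul (2 * √r)).smul_const e0
    simpa using b3
  have hlt : ‖(2 * √r * axf r (zc d ε s) t0) • e0‖ < 1 := by
    rw [← hY]
    refine tube_Y_lt' D ?_
    show ‖t0 • e0‖ ^ 2 < 5
    rw [hn]
    linarith
  have dvk : DifferentiableAt ℝ vk ((2 * √r * axf r (zc d ε s) t0) • e0) :=
    (x9 _ hlt).2.differentiableAt (by simp)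
  have d1 : HasDerivAt (fun t => vk ((2 * √r * axf r (zc d ε s) t) • e0)) (0 : W) t0 := by
    have := HasFDerivAt.comp_hasDerivAt t0 dvk.hasFDerivAt dY
    rw [map_zero] at this
    exact this
  have heq : (fun t => tube_f d s ε r (c t)) =ᶠ[𝓝 t0]
      fun t => vk ((2 * √r * axf r (zc d ε s) t) • e0) := by
    have hcont : ContinuousAt (fun t : ℝ => r * t ^ 2) t0 := by fun_prop
    filter_upwards [hcont.eventually_lt continuousAt_const hrt] with t ht
    unfold tube_f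
    rw [hcdef, hc t ht, hY]
  have d2 : HasDerivAt (fun t => tube_f d s ε r (c t)) (0 : W) t0 :=
    d1.congr_of_eventuallyEq heq
  have d3 : HasDerivAt (fun t => tube_f d s ε r (c t))
      (fderiv ℝ (tube_f d s ε r) (c t0) ((2 * √r * (1 + r * t0 ^ 2) / (1 - r * t0 ^ 2) ^ 2) • e0))
      t0 := by
    have d6 : HasFDerivAt (tube_f d s ε r) (fderiv ℝ (tube_f d s ε r) (c t0)) (c t0) :=
      ((tube_f_smooth D (c t0)).differentiableAt (by simp)).hasFDerivAt
    exact HasFDerivAt.comp_hasDerivAt (l := tube_f d s ε r) t0 d6 dc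
  have d4 := d3.unique d2
  refine ⟨c t0, fun hinj => ?_⟩
  have d5 := hinj (d4.trans (map_zero _).symm)
  have hk : 2 * √r * (1 + r * t0 ^ 2) / (1 - r * t0 ^ 2) ^ 2 ≠ 0 := by positivity
  rcases smul_eq_zero.1 d5 with h | h
  · exact hk h
  · exact he0 h

end

theorem tubeh_chi1_zero {t : ℝ} (ht : 2 ≤ t) : chi1 t = 0 := by
  unfold chi1
  exact Real.smoothTransition.zero_of_nonpos (by linarith)

theorem t_TUBEH : S_TUBEH := by
  intro hN1 hN2 hHYP hBMET hCRV hRAD hSCALE hTEN hIDC hKLEIN hINHARM hPOLY hSM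
    hINGOOD hOUT hTGT hOPEN _ hXV hINSM hCRIT hNEST d hd
  obtain ⟨sm, ε, r1, hsm, hε, hε1, hr1, hr1', ⟨tm, htm, htd⟩, hpos1, hin⟩ :=
    hINGOOD hPOLY hSM hRAD hOPEN d hd
  obtain ⟨r2, hr2, hout⟩ := hOUT hPOLY hSM d ε hd hε hε1
  obtain ⟨r, hr, hrr1, hrr2⟩ : ∃ r : ℝ, 0 < r ∧ r < r1 ∧ r < r2 := by
    have h1 : 0 < min r1 r2 := lt_min hr1 hr2
    exact ⟨min r1 r2 / 2, by positivity, by linarith [min_le_left r1 r2],
      by linarith [min_le_right r1 r2]⟩
  obtain ⟨h5, hX5, Co, Lo, Wt, cs, kk, w0, hcs, hkk, hw0, hCo, hLo, hpos, hin5, hout18, hgood,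
    hWs, hW16, hW18, hWp, hh⟩ := hout r hr hrr2
  have h10 : 10 * r < 1 := by linarith
  obtain ⟨s, t0, hs0, hs1, ht0, hdt0, hmono⟩ := hCRIT hPOLY hSM d sm ε r hd hsm hε hε1 hr h10
    ⟨tm, htm, htd r hr.le hrr1⟩ (fun s' t h1 h2 => hpos1 r s' t hr hrr1 h1 h2)
  have hin' := fun x hx => hin r s hr hrr1 hs0.le hs1 x hx
  obtain ⟨i1, i2, i3, i4, i5, i6, i7⟩ := hINSM hPOLY hSM d s ε r hd hε hε1 hr h10
    (fun x hx => (hin' x hx).1)
  have hB : Set.BijOn (Yf r (zc d ε s)) {x | r * ‖x‖ ^ 2 < 1} {Y | ‖Y‖ < 1} := by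
    refine hNEST r (zc d ε s) hr h10 ?_ ?_ hmono
    · intro y hy
      rcases lt_or_ge y 5 with h | h
      · exact (i5 y hy h).2.2.1.continuousAt.continuousWithinAt
      · have : zc d ε s =ᶠ[𝓝 y] fun _ => (0:ℝ) := by
          filter_upwards [lt_mem_nhds (show (2:ℝ) < y by linarith)] with t ht
          unfold zc
          rw [tubeh_chi1_zero ht.le, zero_mul]
        exact (continuousAt_const.congr this.symm).continuousWithinAt
    · intro y hy
      unfold zc
      rw [tubeh_chi1_zero hy, zero_mul]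
  have D : tube_D d s ε r Co Lo Wt cs kk w0 :=
    { hd := hd, hε := hε, hε1 := hε1, hr := hr, h5 := h5, hX5 := hX5, hcs := hcs, hkk := hkk,
      hCo := hCo, hLo := hLo, hpos := hpos, hin5 := hin5, hout := hout18, hgood := hgood,
      hWs := hWs, hW16 := hW16, hW18 := hW18, hWp := fun X hX => (hWp X hX).1, hh := hh,
      inC := i1, inp := i2, inm := i3, ina := i4, inr := i5, inE := i6, inY := i7,
      ing := fun x hx => hin' x hx, xv := hXV }
  obtain ⟨x1, x2, x3, x4, x5, x6, x7, x8, x9, x10, x11⟩ := hXV r hr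
  refine ⟨fun v => tube_Cx d s ε r cs Co (LY.xv r v),
    fun v a b => tube_gx d s ε r cs kk Lo (LY.xv r v) (fderiv ℝ (LY.xv r) v a)
        (fderiv ℝ (LY.xv r) v b), fun v => √(Wt (ch v)), tube_f d s ε r, ?_⟩
  refine
    { C_smooth := tube_C_contDiff D
      C_pos := fun v => tube_C_pos D (tube_cover D v)
      g2_met := tube_pull_met (tube_Ui_open.union (tube_Uo_open r)) (tube_g_met D) x2
        (fun v => tube_cover D v) x4
      c_smooth := tube_c_smooth D
      c_pos := tube_c_pos D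
      f_smooth := contDiff_iff_contDiffAt.2 fun v => tube_f_smooth D v
      C_out := fun v hv => ?_
      g2_out := fun v hv a b => ?_
      c_out := fun v hv => ?_
      f_out := fun v hv => tube_f_id D v (by linarith [(tube_far D v hv).1])
      f_in := tube_f_in D
      neg_src := tube_neg_src hN1 hHYP hBMET hCRV hRAD hSCALE D
      neg_tgt := hTGT hN1 hHYP hBMET hCRV hRAD d Wt hWs hWp
      harm := fun p => ?_
      bij := tubeh_bij D hB
      sing := tubeh_sing D ht0 hdt0 }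
  · obtain ⟨k1, k2, k3⟩ := tube_far D v hv
    show tube_Cx d s ε r cs Co (LY.xv r v) = ch v
    rw [tube_C_out D _ (by linarith), (hout18 _ (tube_Uo_mem hr k2) k3).1, (x6 v).2.2.2.1]
  · obtain ⟨k1, k2, k3⟩ := tube_far D v hv
    show tube_gx d s ε r cs kk Lo (LY.xv r v) (fderiv ℝ (LY.xv r) v a)
        (fderiv ℝ (LY.xv r) v b) = hyp v a b
    rw [tube_g_out D _ (by linarith), (hout18 _ (tube_Uo_mem hr k2) k3).2, x7 v a b]
  · have h1 : 18 ≤ ch v := hv.trans (tube_ch_mono v)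
    show √(Wt (ch v)) = ch v
    rw [hW18 _ h1, Real.sqrt_sq (by linarith)]
  · rcases tube_cover D p.2 with h | h
    · exact tube_harm_in hN2 hHYP hBMET hTEN hKLEIN hINHARM D p h
    · exact tube_harm_out hN2 hHYP hBMET hTEN hIDC D p h

end Pool.Agent.Helper473.LY
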