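import Pool.Agent.Helper473.LY.Stmts3
import Pool.Agent.Helper473.LY.Final
import Pool.Agent.Helper473.LY.T_BH
import Pool.Agent.Helper473.LY.T_CRIT
import Pool.Agent.Helper473.LY.T_GLUEH
import Pool.Agent.Helper473.LY.T_INGOOD2
import Pool.Agent.Helper473.LY.T_NEST
import Pool.Agent.Helper473.LY.T_TUBEH

/-!
# Harmonic homeomorphisms between closed negatively curved manifolds: the theorem
-/

set_option autoImplicit false

open scoped Manifold ContDiff Topology RealInnerProductSpace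
open Module

namespace Pool.Agent.Helper473.LY

open Pool.Agent.H234R3

theorem main_ofH (hN1 : S_N1) (hN2 : S_N2) (hB : S_BH) (hHYP : S_HYP) (hBMET : S_BMET)
    (hGERM : S_GERM) (hHB : S_HB) (hGLUE : S_GLUEH) (hACT : S_ACT) (hLAT : S_LAT)
    (hTUBE : ∀ d : ℕ, 1 ≤ d → ∃ (C : W → ℝ) (g2 : W → W → W → ℝ) (c : W → ℝ) (f : W → W),
      IsTubeH d C g2 c f) : ∀ n : ℕ, 3 ≤ n → ¬ HarmHomeo n := by
  intro n hn
  obtain ⟨d, rfl⟩ : ∃ d, n = d + 2 := ⟨n - 2, by omega⟩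
  have hd : 1 ≤ d := by omega
  obtain ⟨C, g2, c, f, hT⟩ := hTUBE d hd
  obtain ⟨Γ, hΓ⟩ := hLAT d 19 (by norm_num)
  obtain ⟨a1, a2, a3, a4, a5, a6, a7⟩ := hACT d Γ 19 hΓ
  obtain ⟨g, h, F, hg, hh, ig, ih, ng, nh, sF, eF, tF, bF, hF⟩ :=
    hGLUE hGERM hHB hN1 hN2 hHYP hBMET d Γ C g2 c f hd hΓ hT
  letI : MulAction Γ (P d) := mulAct a1 a2
  have hs : ∀ γ : Γ, (fun x : P d => γ • x) = act (γ : L d ≃ₗ[ℝ] L d) := fun γ => rfl
  refine hB hN1 hN2 (d + 2) (P d) Γ (finrank_P d) ?_ ?_ ?_ ?_ g h F hg hh ?_ ?_ ng nh sF ?_ tF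
    bF hF
  · intro γ
    rw [hs]
    exact a3 γ γ.2
  · intro K hK
    have := a4 K hK
    have h2 := this.preimage (f := fun γ : Γ => (γ : L d ≃ₗ[ℝ] L d))
      (Subtype.val_injective.injOn)
    refine h2.subset ?_
    rintro γ ⟨x, hx, hx2⟩
    exact ⟨γ.2, x, hx, hx2⟩
  · intro γ x hx
    exact Subtype.ext (a5 γ γ.2 x hx)
  · obtain ⟨K, hK, h3⟩ := a6
    refine ⟨K, hK, fun x => ?_⟩
    obtain ⟨γ, hγ, h4⟩ := h3 x
    exact ⟨⟨γ, hγ⟩, h4⟩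
  · intro γ x a b
    exact ig γ γ.2 x a b
  · intro γ x a b
    exact ih γ γ.2 x a b
  · intro γ x
    exact eF γ γ.2 x

/-- A harmonic homeomorphism between closed negatively curved manifolds of dimension `n ≥ 3` need
not be a diffeomorphism. -/
theorem not_harmHomeo : ∀ n : ℕ, 3 ≤ n → ¬ HarmHomeo n :=
  main_ofH t_N1 t_N2 t_BH t_HYP t_BMET t_GERM t_HB t_GLUEH t_ACT t_LAT
    (t_TUBEH t_N1 t_N2 t_HYP t_BMET t_CRV t_RAD t_SCALE t_TEN t_IDC t_KLEIN t_INHARM t_POLY t_SM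
      t_INGOOD2 t_OUT t_TGT t_OPEN t_GERM t_XV t_INSM t_CRIT t_NEST)

end Pool.Agent.Helper473.LY
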