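import Pool.Agent.Helper473.LY.Stmts

/-!
# Lawson–Yau: task INHARM (the inner map is harmonic)
-/

set_option autoImplicit false

open scoped Manifold ContDiff Topology RealInnerProductSpace
open Module

namespace Pool.Agent.Helper473.LY

open Pool.Agent.H234R3

/-! ### First derivatives in the plane -/

/-- The function `F` is differentiable at `x` with the coordinate derivatives `a`, `b`. -/
def inharm_HD (F : W → ℝ) (x : W) (a b : ℝ) : Prop :=
  HasFDerivAt F (a • (EuclideanSpace.proj (𝕜 := ℝ) 0 : W →L[ℝ] ℝ)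
    + b • (EuclideanSpace.proj (𝕜 := ℝ) 1 : W →L[ℝ] ℝ)) x

theorem inharm_HD_e0 {F : W → ℝ} {x : W} {a b : ℝ} (h : inharm_HD F x a b) :
    fderiv ℝ F x e0 = a := by
  rw [HasFDerivAt.fderiv h]; simp [e0]

theorem inharm_HD_e1 {F : W → ℝ} {x : W} {a b : ℝ} (h : inharm_HD F x a b) :
    fderiv ℝ F x (perp e0) = b := by
  rw [HasFDerivAt.fderiv h]; simp [e0, perp]

theorem inharm_HD_congr {F G : W → ℝ} {x : W} {a b : ℝ} (h : inharm_HD F x a b)
    (e : G =ᶠ[𝓝 x] F) : inharm_HD G x a b :=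
  HasFDerivAt.congr_of_eventuallyEq h e

theorem inharm_HD_const (c : ℝ) (x : W) : inharm_HD (fun _ => c) x 0 0 := by
  unfold inharm_HD; simpa using hasFDerivAt_const c x

theorem inharm_HD_x0 (x : W) : inharm_HD (fun x => x 0) x 1 0 := by
  unfold inharm_HD
  simpa using (EuclideanSpace.proj (𝕜 := ℝ) 0 : W →L[ℝ] ℝ).hasFDerivAt (x := x)

theorem inharm_HD_x1 (x : W) : inharm_HD (fun x => x 1) x 0 1 := by
  unfold inharm_HD
  simpa using (EuclideanSpace.proj (𝕜 := ℝ) 1 : W →L[ℝ] ℝ).hasFDerivAt (x := x)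

theorem inharm_HD_add {F G : W → ℝ} {x : W} {a b a' b' : ℝ} (h : inharm_HD F x a b)
    (h' : inharm_HD G x a' b') : inharm_HD (fun x => F x + G x) x (a + a') (b + b') := by
  unfold inharm_HD at *
  refine (h.fun_add h').congr_fderiv ?_
  ext v; simp; ring

theorem inharm_HD_neg {F : W → ℝ} {x : W} {a b : ℝ} (h : inharm_HD F x a b) :
    inharm_HD (fun x => -F x) x (-a) (-b) := by
  unfold inharm_HD at *
  refine h.fun_neg.congr_fderiv ?_
  ext v; simp; ring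

theorem inharm_HD_sub {F G : W → ℝ} {x : W} {a b a' b' : ℝ} (h : inharm_HD F x a b)
    (h' : inharm_HD G x a' b') : inharm_HD (fun x => F x - G x) x (a - a') (b - b') := by
  unfold inharm_HD at *
  refine (h.fun_sub h').congr_fderiv ?_
  ext v; simp; ring

theorem inharm_HD_mul {F G : W → ℝ} {x : W} {a b a' b' : ℝ} (h : inharm_HD F x a b)
    (h' : inharm_HD G x a' b') :
    inharm_HD (fun x => F x * G x) x (a * G x + F x * a') (b * G x + F x * b') := by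
  unfold inharm_HD at *
  refine (h.fun_mul h').congr_fderiv ?_
  ext v; simp; ring

theorem inharm_HD_rad {φ : ℝ → ℝ} {φ' : ℝ} {x : W} (h : HasDerivAt φ φ' (‖x‖ ^ 2)) :
    inharm_HD (fun x => φ (‖x‖ ^ 2)) x (2 * x 0 * φ') (2 * x 1 * φ') := by
  unfold inharm_HD
  have h1 : HasFDerivAt (fun x : W => ‖x‖ ^ 2) (2 • (innerSL ℝ x)) x :=
    (hasStrictFDerivAt_norm_sq x).hasFDerivAt
  refine (h.comp_hasFDerivAt x h1).congr_fderiv ?_
  ext v
  simp [PiLp.inner_apply, Fin.sum_univ_two]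
  ring

theorem inharm_HD_inv {F : W → ℝ} {x : W} {a b : ℝ} (h : inharm_HD F x a b) (h0 : F x ≠ 0) :
    inharm_HD (fun x => (F x)⁻¹) x (-a / F x ^ 2) (-b / F x ^ 2) := by
  unfold inharm_HD at *
  refine ((hasDerivAt_inv h0).comp_hasFDerivAt x h).congr_fderiv ?_
  ext v; simp; ring

theorem inharm_perp (x a : W) : ⟪perp x, a⟫ = x 0 * a 1 - x 1 * a 0 := by
  simp [perp, PiLp.inner_apply, Fin.sum_univ_two]
  ring

theorem inharm_sq (x : W) : ‖x‖ ^ 2 = x 0 ^ 2 + x 1 ^ 2 := by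
  rw [EuclideanSpace.real_norm_sq_eq, Fin.sum_univ_two]

/-! ### The radial functions -/

/-- The radial factor of the map. -/
noncomputable def inharm_u (r t : ℝ) : ℝ := 2 * √r / (1 + r * t)

/-- Its derivative. -/
noncomputable def inharm_u1 (r t : ℝ) : ℝ := -(2 * √r * r) / (1 + r * t) ^ 2

/-- Its second derivative. -/
noncomputable def inharm_u2 (r t : ℝ) : ℝ := 4 * √r * r ^ 2 / (1 + r * t) ^ 3

theorem inharm_du {r t : ℝ} (h : 1 + r * t ≠ 0) : HasDerivAt (inharm_u r) (inharm_u1 r t) t := by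
  have h1 : HasDerivAt (fun t => 1 + r * t) r t := by
    simpa using ((hasDerivAt_id' t).const_mul r).const_add 1
  refine ((hasDerivAt_const t (2 * √r)).fun_div h1 h).congr_deriv ?_
  unfold inharm_u1; ring

theorem inharm_du1 {r t : ℝ} (h : 1 + r * t ≠ 0) :
    HasDerivAt (inharm_u1 r) (inharm_u2 r t) t := by
  have h1 : HasDerivAt (fun t => 1 + r * t) r t := by
    simpa using ((hasDerivAt_id' t).const_mul r).const_add 1
  refine ((hasDerivAt_const t (-(2 * √r * r))).fun_div (h1.fun_pow 2)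
    (pow_ne_zero 2 h)).congr_deriv ?_
  unfold inharm_u2
  field_simp
  ring

/-- The function `τ`. -/
noncomputable def inharm_tau (r : ℝ) (l χ : ℝ → ℝ) (t : ℝ) : ℝ :=
  Real.exp (l t + 2 * Real.log (1 + r * t) - 2 * χ t * Real.log (1 - r * t))

/-- Half of `M` in the formula for `κ_r`. -/
theorem inharm_dtau {r t : ℝ} {l χ : ℝ → ℝ} {l' : ℝ} (hl : HasDerivAt l l' t)
    (hχ : DifferentiableAt ℝ χ t) (h : 1 + r * t ≠ 0) (h' : 1 - r * t ≠ 0) :
    HasDerivAt (inharm_tau r l χ) (inharm_tau r l χ t *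
      (l' + 2 * r / (1 + r * t) - 2 * deriv (fun t => χ t * Real.log (1 - r * t)) t)) t := by
  have h1 : HasDerivAt (fun t => 1 + r * t) r t := by
    simpa using ((hasDerivAt_id' t).const_mul r).const_add 1
  have h2 : HasDerivAt (fun t => 1 - r * t) (-r) t := by
    simpa using ((hasDerivAt_id' t).const_mul r).const_sub 1
  have h3 := (hχ.hasDerivAt.fun_mul (h2.log h'))
  have h4 : HasDerivAt (fun t => l t + 2 * Real.log (1 + r * t) - 2 * χ t * Real.log (1 - r * t))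
      (l' + 2 * (r / (1 + r * t)) - 2 * deriv (fun t => χ t * Real.log (1 - r * t)) t) t := by
    rw [h3.deriv]
    have h5 := ((hl.fun_add ((h1.log h).const_mul 2)).fun_sub (h3.const_mul 2))
    refine h5.congr_of_eventuallyEq ?_
    exact Filter.Eventually.of_forall fun t => by ring
  refine h4.exp.congr_deriv ?_
  unfold inharm_tau
  ring

/-- The quantity whose product with `t` is `EEf M z t`. -/
noncomputable def inharm_q (M z : ℝ → ℝ) (t : ℝ) : ℝ :=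
  4 * deriv z t + 4 * t * deriv (deriv z) t + M t * (2 * t * deriv z t - z t)

theorem inharm_EE (M z : ℝ → ℝ) (t : ℝ) : EEf M z t = t * inharm_q M z t := by
  unfold EEf inharm_q; ring

/-! ### The algebra -/

/-- The first equation. -/
theorem inharm_alg1 {X b y u u1 u2 τ τ1 n n0 n1 kr k : ℝ} (hy : y = X ^ 2 + b ^ 2)
    (K1 : τ1 * (4 * y * u1 + 2 * u) + τ * (8 * u1 + 4 * y * u2) = τ * kr * u)
    (F1 : b * (kr - k) = n * b - X * (-b * n0 + X * n1)) :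
    (2 * X * τ1 * (2 * X * b * u1 - n * X * b * u)
      + τ * (2 * b * u1 + 2 * X * b * (2 * X * u2)
        - (n0 * X * b * u + n * b * u + n * X * b * (2 * X * u1))))
    + (2 * b * τ1 * (2 * b ^ 2 * u1 + u + n * X ^ 2 * u)
      + τ * (4 * b * u1 + 2 * b ^ 2 * (2 * b * u2) + 2 * b * u1
        + (n1 * X ^ 2 * u + n * X ^ 2 * (2 * b * u1))))
    = τ * k * u * b := by
  subst hy
  linear_combination b * K1 + τ * u * F1

/-- The second equation. -/
theorem inharm_alg2 {X b y u u1 u2 τ τ1 n n0 n1 kr k z z1 z2 M q : ℝ} (hy : y = X ^ 2 + b ^ 2)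
    (K1 : τ1 * (4 * y * u1 + 2 * u) + τ * (8 * u1 + 4 * y * u2) = τ * kr * u)
    (K2 : z * (2 * τ1 * u + 4 * τ * u1 - τ * u * M) = 0)
    (K3 : z1 * (2 * τ1 * u + 4 * τ * u1 - τ * u * M) = 0)
    (hq : q = 4 * z1 + 4 * y * z2 + M * (2 * y * z1 - z))
    (F2 : (kr - k) * (X + z) + q - b * (-b * n0 + X * n1) - n * X = 0) :
    (2 * X * τ1 * (2 * X * u1 * (X + z) + u * (1 + 2 * X * z1) + n * b ^ 2 * u)
      + τ * (2 * u1 * (X + z) + 2 * X * (2 * X * u2) * (X + z) + 2 * X * u1 * (1 + 2 * X * z1)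
        + (2 * X * u1 * (1 + 2 * X * z1) + u * (2 * z1 + 2 * X * (2 * X * z2)))
        + (n0 * b ^ 2 * u + n * b ^ 2 * (2 * X * u1))))
    + (2 * b * τ1 * (2 * b * u1 * (X + z) + 2 * u * b * z1 - n * X * b * u)
      + τ * (2 * u1 * (X + z) + 2 * b * (2 * b * u2) * (X + z) + 2 * b * u1 * (2 * b * z1)
        + (2 * (2 * b * u1) * b * z1 + 2 * u * z1 + 2 * u * b * (2 * b * z2))
        - (n1 * X * b * u + n * X * u + n * X * b * (2 * b * u1))))
    = τ * k * u * (X + z) := by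
  subst hy
  subst hq
  linear_combination (X + z) * K1 - K2 + 2 * (X ^ 2 + b ^ 2) * K3 + τ * u * F2

/-! ### The function `ν / y` -/

theorem inharm_cd {f : ℝ → ℝ} {y : ℝ} (h : ContDiffAt ℝ ∞ f y) : ContDiffAt ℝ ∞ (deriv f) y := by
  have h1 : ContDiffAt ℝ ∞ (fderiv ℝ f) y := h.fderiv_right (m := ∞) (by simp)
  exact h1.clm_apply contDiffAt_const

theorem inharm_cq {M z : ℝ → ℝ} {y : ℝ} (hM : ContDiffAt ℝ ∞ M y) (hz : ContDiffAt ℝ ∞ z y) :
    ContDiffAt ℝ ∞ (inharm_q M z) y := by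
  have h1 := inharm_cd hz
  have h2 := inharm_cd h1
  exact ((contDiffAt_const.mul h1).add ((contDiffAt_const.mul contDiffAt_id).mul h2)).add
    (hM.mul (((contDiffAt_const.mul contDiffAt_id).mul h1).sub hz))

theorem inharm_cE {M z : ℝ → ℝ} {y : ℝ} (hM : ContDiffAt ℝ ∞ M y) (hz : ContDiffAt ℝ ∞ z y) :
    ContDiffAt ℝ ∞ (EEf M z) y := by
  have : EEf M z = fun t => t * inharm_q M z t := by funext t; exact inharm_EE M z t
  rw [this]
  exact contDiffAt_id.mul (inharm_cq hM hz)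

theorem inharm_q0 {M z : ℝ → ℝ} {y : ℝ} (hM : ContDiffAt ℝ ∞ M y) (hz : ContDiffAt ℝ ∞ z y)
    (h : ∀ᶠ t in 𝓝 y, EEf M z t = 0) : inharm_q M z y = 0 := by
  rcases eq_or_ne y 0 with hy | hy
  · subst hy
    have hc := (inharm_cq hM hz).continuousAt
    have h1 : ∀ᶠ t in 𝓝[≠] (0:ℝ), inharm_q M z t = 0 := by
      filter_upwards [h.filter_mono nhdsWithin_le_nhds, self_mem_nhdsWithin] with t ht ht0
      rw [inharm_EE] at ht
      exact (mul_eq_zero.1 ht).resolve_left ht0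
    have h2 : Filter.Tendsto (inharm_q M z) (𝓝[≠] (0:ℝ)) (𝓝 (inharm_q M z 0)) :=
      hc.tendsto.mono_left nhdsWithin_le_nhds
    have h3 : Filter.Tendsto (inharm_q M z) (𝓝[≠] (0:ℝ)) (𝓝 0) :=
      tendsto_const_nhds.congr' (h1.mono fun t ht => ht.symm)
    exact tendsto_nhds_unique h2 h3
  · have := h.self_of_nhds
    rw [inharm_EE] at this
    exact (mul_eq_zero.1 this).resolve_left hy

theorem inharm_nu {M z : ℝ → ℝ} (χ : ℝ → ℝ) (r : ℝ) {x : W} (hM : ContDiffAt ℝ ∞ M (‖x‖ ^ 2))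
    (hz : ContDiffAt ℝ ∞ z (‖x‖ ^ 2))
    (h : (∀ᶠ t in 𝓝 (‖x‖ ^ 2), EEf M z t = 0) ∨ 0 < ‖x‖ ^ 2 + z (‖x‖ ^ 2) * x 0) :
    ∃ n0 n1, inharm_HD (fun x => nuf M z x / ‖x‖ ^ 2) x n0 n1 ∧
      x 1 * (krf r M χ (‖x‖ ^ 2) - kf r M z χ x)
        = nuf M z x / ‖x‖ ^ 2 * x 1 - x 0 * (-x 1 * n0 + x 0 * n1) ∧
      (krf r M χ (‖x‖ ^ 2) - kf r M z χ x) * (x 0 + z (‖x‖ ^ 2)) + inharm_q M z (‖x‖ ^ 2)
        - x 1 * (-x 1 * n0 + x 0 * n1) - nuf M z x / ‖x‖ ^ 2 * x 0 = 0 := by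
  rcases h with h | h
  · have hc : Filter.Tendsto (fun x : W => ‖x‖ ^ 2) (𝓝 x) (𝓝 (‖x‖ ^ 2)) :=
      (continuous_norm.pow 2).continuousAt
    have h0 : ∀ᶠ w in 𝓝 x, nuf M z w = 0 := by
      filter_upwards [hc.eventually h] with w hw
      simp [nuf, hw]
    refine ⟨0, 0, ?_, ?_, ?_⟩
    · refine inharm_HD_congr (inharm_HD_const 0 x) ?_
      filter_upwards [h0] with w hw
      simp [hw]
    · simp [kf, h0.self_of_nhds]
    · simp [kf, h0.self_of_nhds, inharm_q0 hM hz h]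
  · have hy : 0 < ‖x‖ ^ 2 := by
      rcases (sq_nonneg ‖x‖).eq_or_lt with h0 | h0
      · have : x = 0 := by simpa using h0.symm
        rw [this] at h; simp at h
      · exact h0
    have dE := ((inharm_cE hM hz).differentiableAt (by simp)).hasDerivAt
    have dz := (hz.differentiableAt (by simp)).hasDerivAt
    have hE : inharm_q M z (‖x‖ ^ 2) = EEf M z (‖x‖ ^ 2) / ‖x‖ ^ 2 := by
      rw [inharm_EE, mul_div_cancel_left₀ _ hy.ne']
    have d1 := inharm_HD_neg (inharm_HD_mul (inharm_HD_rad dE) (inharm_HD_x0 x))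
    have d2 := inharm_HD_rad (hasDerivAt_id' (‖x‖ ^ 2))
    have d3 := inharm_HD_add d2 (inharm_HD_mul (inharm_HD_rad dz) (inharm_HD_x0 x))
    have d4 := inharm_HD_mul (inharm_HD_mul d1 (inharm_HD_inv d3 h.ne')) (inharm_HD_inv d2 hy.ne')
    refine ⟨_, _, inharm_HD_congr d4 ?_, ?_, ?_⟩
    · exact Filter.Eventually.of_forall fun w => by
        simp only [nuf, div_eq_mul_inv]
    · have hs := inharm_sq x
      unfold kf nuf
      generalize ‖x‖ ^ 2 = y at *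
      generalize EEf M z y = E at *
      generalize deriv (EEf M z) y = E1 at *
      generalize deriv z y = z1 at *
      generalize z y = z0 at *
      generalize x 0 = X at *
      generalize x 1 = b at *
      have hd : y + z0 * X ≠ 0 := h.ne'
      have hy' : y ≠ 0 := hy.ne'
      clear d1 d2 d3 d4 dE dz hM hz h hy
      obtain ⟨D, hD⟩ : ∃ D, D = y + z0 * X := ⟨_, rfl⟩
      rw [← hD] at hd ⊢
      field_simp
      subst hD
      subst hs
      ring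
    · have hs := inharm_sq x
      rw [hE]
      unfold kf nuf
      generalize ‖x‖ ^ 2 = y at *
      generalize EEf M z y = E at *
      generalize deriv (EEf M z) y = E1 at *
      generalize deriv z y = z1 at *
      generalize z y = z0 at *
      generalize x 0 = X at *
      generalize x 1 = b at *
      have hd : y + z0 * X ≠ 0 := h.ne'
      have hy' : y ≠ 0 := hy.ne'
      clear d1 d2 d3 d4 dE dz hM hz h hy
      obtain ⟨D, hD⟩ : ∃ D, D = y + z0 * X := ⟨_, rfl⟩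
      rw [← hD] at hd ⊢
      field_simp
      subst hD
      subst hs
      ring

/-! ### Smoothness -/

/-- The hypotheses at a point. -/
structure inharm_H (r : ℝ) (M l z χ : ℝ → ℝ) (x : W) : Prop where
  cM : ContDiffAt ℝ ∞ M (‖x‖ ^ 2)
  cl : ContDiffAt ℝ ∞ l (‖x‖ ^ 2)
  cz : ContDiffAt ℝ ∞ z (‖x‖ ^ 2)
  cχ : ContDiffAt ℝ ∞ χ (‖x‖ ^ 2)
  dl : ∀ᶠ t in 𝓝 (‖x‖ ^ 2), deriv l t = M t / 2
  alt : (∀ᶠ t in 𝓝 (‖x‖ ^ 2), z t = 0) ∨ (∀ᶠ t in 𝓝 (‖x‖ ^ 2), χ t = 0)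
  hr : 0 < r
  hr1 : r * ‖x‖ ^ 2 < 1
  hY : Y2f r z x < 1
  hn : 0 < 1 + nuf M z x
  hk : 0 < kf r M z χ x
  hE : (∀ᶠ t in 𝓝 (‖x‖ ^ 2), EEf M z t = 0) ∨ 0 < ‖x‖ ^ 2 + z (‖x‖ ^ 2) * x 0

theorem inharm_cy {x : W} : ContDiffAt ℝ ∞ (fun x : W => ‖x‖ ^ 2) x :=
  (contDiff_norm_sq ℝ).contDiffAt

theorem inharm_cx (i : Fin 2) {x : W} : ContDiffAt ℝ ∞ (fun x : W => x i) x :=
  (EuclideanSpace.proj (𝕜 := ℝ) i : W →L[ℝ] ℝ).contDiff.contDiffAt

theorem inharm_crad {f : ℝ → ℝ} {x : W} (h : ContDiffAt ℝ ∞ f (‖x‖ ^ 2)) :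
    ContDiffAt ℝ ∞ (fun x : W => f (‖x‖ ^ 2)) x :=
  ContDiffAt.comp (g := f) (f := fun x : W => ‖x‖ ^ 2) x h inharm_cy

section Smooth

variable {r : ℝ} {M l z χ : ℝ → ℝ} {x : W} (H : inharm_H r M l z χ x)

include H

theorem inharm_hp : 0 < 1 + r * ‖x‖ ^ 2 := by
  have := H.hr
  positivity

theorem inharm_hm : 0 < 1 - r * ‖x‖ ^ 2 := by
  have := H.hr1
  linarith

theorem inharm_hyE : (∀ᶠ w in 𝓝 x, nuf M z w = 0) ∨
    (0 < ‖x‖ ^ 2 ∧ 0 < ‖x‖ ^ 2 + z (‖x‖ ^ 2) * x 0) := by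
  rcases H.hE with h | h
  · left
    have hc : Filter.Tendsto (fun x : W => ‖x‖ ^ 2) (𝓝 x) (𝓝 (‖x‖ ^ 2)) :=
      (continuous_norm.pow 2).continuousAt
    filter_upwards [hc.eventually h] with w hw
    simp [nuf, hw]
  · refine Or.inr ⟨?_, h⟩
    rcases (sq_nonneg ‖x‖).eq_or_lt with h0 | h0
    · have : x = 0 := by simpa using h0.symm
      rw [this] at h; simp at h
    · exact h0

theorem inharm_cnu : ContDiffAt ℝ ∞ (nuf M z) x := by
  rcases inharm_hyE H with h | ⟨hy, h⟩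
  · exact contDiffAt_const.congr_of_eventuallyEq h
  · have cE := inharm_crad (inharm_cE H.cM H.cz)
    have cz := inharm_crad H.cz
    exact ((cE.mul (inharm_cx 0)).neg).div (inharm_cy.add (cz.mul (inharm_cx 0))) h.ne'

theorem inharm_cp : ContDiffAt ℝ ∞ (fun x : W => 1 + r * ‖x‖ ^ 2) x :=
  contDiffAt_const.add (contDiffAt_const.mul inharm_cy)

theorem inharm_cm : ContDiffAt ℝ ∞ (fun x : W => 1 - r * ‖x‖ ^ 2) x :=
  contDiffAt_const.sub (contDiffAt_const.mul inharm_cy)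

theorem inharm_ckr : ContDiffAt ℝ ∞ (fun x : W => krf r M χ (‖x‖ ^ 2)) x := by
  have c1 : ContDiffAt ℝ ∞ (fun t : ℝ => χ t * Real.log (1 - r * t)) (‖x‖ ^ 2) :=
    H.cχ.mul ((contDiffAt_const.sub (contDiffAt_const.mul contDiffAt_id)).log (inharm_hm H).ne')
  have c2 := inharm_crad (inharm_cd c1)
  have cM := inharm_crad H.cM
  have cp := inharm_cp H
  have cm := inharm_cm H
  have hp := (inharm_hp H).ne'
  unfold krf
  exact (contDiffAt_const.div (cp.pow 2) (pow_ne_zero 2 hp)).add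
    (((cM.add (contDiffAt_const.div cp hp)).sub (contDiffAt_const.mul c2)).mul (cm.div cp hp))

theorem inharm_ck : ContDiffAt ℝ ∞ (kf r M z χ) x := by
  have ck := inharm_ckr H
  have cn := inharm_cnu H
  rcases inharm_hyE H with h | ⟨hy, h⟩
  · have : kf r M z χ =ᶠ[𝓝 x] fun x => krf r M χ (‖x‖ ^ 2) := by
      filter_upwards [h] with w hw
      simp [kf, hw]
    exact ck.congr_of_eventuallyEq this
  · have cz := inharm_crad H.cz
    exact ck.sub ((cn.mul ((contDiffAt_const.mul inharm_cy).add (cz.mul (inharm_cx 0)))).div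
      (inharm_cy.mul (inharm_cy.add (cz.mul (inharm_cx 0)))) (mul_pos hy h).ne')

theorem inharm_cY : ContDiffAt ℝ ∞ (Yf r z) x := by
  have cz := inharm_crad H.cz
  exact (contDiffAt_const.div (inharm_cp H) (inharm_hp H).ne').smul
    (contDiffAt_id.add (cz.smul contDiffAt_const))

theorem inharm_cY2 : ContDiffAt ℝ ∞ (Y2f r z) x := by
  have cz := inharm_crad H.cz
  exact (contDiffAt_const.mul ((contDiffAt_id.add (cz.smul contDiffAt_const)).norm_sq ℝ)).div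
    ((inharm_cp H).pow 2) (pow_ne_zero 2 (inharm_hp H).ne')

theorem inharm_cC (d : ℝ) : ContDiffAt ℝ ∞ (Cf d r M l z χ) x := by
  have cl := inharm_crad H.cl
  have cχ := inharm_crad H.cχ
  have hY : 0 < 1 - Y2f r z x := by have := H.hY; linarith
  unfold Cf
  exact (((((((contDiffAt_const.sub (inharm_cY2 H)).log hY.ne').add cl).add
    (contDiffAt_const.mul ((inharm_cp H).log (inharm_hp H).ne'))).sub
    ((contDiffAt_const.mul cχ).mul ((inharm_cm H).log (inharm_hm H).ne'))).add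
    (((contDiffAt_const.add (inharm_cnu H)).log H.hn.ne').div_const 2)).div_const d).exp

theorem inharm_cg (d : ℝ) (a b : W) : ContDiffAt ℝ ∞ (fun x => gf d r M l z χ x a b) x := by
  have hY : 0 < 1 - Y2f r z x := by have := H.hY; linarith
  have cs := (contDiffAt_const (c := (1:ℝ)).sub (inharm_cY2 H)).sqrt hY.ne'
  have cpp : ∀ a : W, ContDiffAt ℝ ∞ (fun w : W => ⟪perp w, a⟫) x := by
    intro a
    simp only [inharm_perp]
    exact ((inharm_cx 0).mul contDiffAt_const).sub ((inharm_cx 1).mul contDiffAt_const)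
  unfold gf
  refine ((((inharm_cC H d).pow 2).mul (inharm_ck H)).div cs (Real.sqrt_pos.2 hY).ne').mul
    (contDiffAt_const.sub ?_)
  rcases inharm_hyE H with h | ⟨hy, h⟩
  · have : (fun x : W => nuf M z x / ((1 + nuf M z x) * ‖x‖ ^ 2) * (⟪perp x, a⟫ * ⟪perp x, b⟫))
        =ᶠ[𝓝 x] fun _ => 0 := by
      filter_upwards [h] with w hw
      simp [hw]
    exact contDiffAt_const.congr_of_eventuallyEq this
  · exact ((inharm_cnu H).div ((contDiffAt_const.add (inharm_cnu H)).mul inharm_cy)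
      (mul_pos H.hn hy).ne').mul ((cpp a).mul (cpp b))

theorem inharm_pos (d : ℝ) (u : W) (hu : u ≠ 0) : 0 < gf d r M l z χ x u u := by
  unfold gf
  have h1 : 0 < Cf d r M l z χ x := Real.exp_pos _
  have h2 : 0 < √(1 - Y2f r z x) := Real.sqrt_pos.2 (by have := H.hY; linarith)
  have hk := H.hk
  have hn' := H.hn
  refine mul_pos (by positivity) ?_
  have hu2 : 0 < ‖u‖ ^ 2 := by positivity
  rw [real_inner_self_eq_norm_sq]
  rcases inharm_hyE H with h' | ⟨h', -⟩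
  · rw [h'.self_of_nhds]
    simp only [zero_div, zero_mul, sub_zero]
    exact hu2
  · generalize nuf M z x = ν at *
    have hcs : ⟪perp x, u⟫ ^ 2 ≤ ‖x‖ ^ 2 * ‖u‖ ^ 2 := by
      rw [inharm_perp, inharm_sq, inharm_sq]
      nlinarith [sq_nonneg (x 0 * u 0 + x 1 * u 1)]
    have h3 : ν / ((1 + ν) * ‖x‖ ^ 2) * (⟪perp x, u⟫ * ⟪perp x, u⟫) < ‖u‖ ^ 2 := by
      rw [div_mul_eq_mul_div, div_lt_iff₀ (by positivity)]
      have h4 : 0 < ‖x‖ ^ 2 * ‖u‖ ^ 2 := by positivity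
      rcases le_or_gt 0 ν with hν | hν
      · nlinarith [mul_le_mul_of_nonneg_left hcs hν]
      · nlinarith [mul_nonneg (neg_nonneg.2 hν.le) (sq_nonneg ⟪perp x, u⟫), mul_pos hn' h4]
    linarith

end Smooth

/-! ### The coefficients -/

section Coef

variable {r : ℝ} {M l z χ : ℝ → ℝ} {x : W} (H : inharm_H r M l z χ x)

include H

theorem inharm_nY : ‖Yf r z x‖ ^ 2 = Y2f r z x := by
  unfold Yf Y2f
  have hp := inharm_hp H
  rw [norm_smul, mul_pow, Real.norm_eq_abs, sq_abs, div_pow, mul_pow, Real.sq_sqrt H.hr.le]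
  ring

theorem inharm_Cpow {n : ℕ} (hn : 1 ≤ n) (cs : ℝ) : (cs * Cf n r M l z χ x) ^ n
    = cs ^ n * ((1 - Y2f r z x) * inharm_tau r l χ (‖x‖ ^ 2) * √(1 + nuf M z x)) := by
  have hn0 : (n:ℝ) ≠ 0 := by positivity
  have hY : 0 < 1 - Y2f r z x := by have := H.hY; linarith
  have hw : √(1 + nuf M z x) = Real.exp (Real.log (1 + nuf M z x) / 2) := by
    rw [Real.exp_half, Real.exp_log H.hn]
  rw [mul_pow]
  unfold Cf
  rw [← Real.exp_nat_mul, mul_div_cancel₀ _ hn0, hw]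
  unfold inharm_tau
  have e : Real.log (1 - Y2f r z x) + l (‖x‖ ^ 2) + 2 * Real.log (1 + r * ‖x‖ ^ 2)
      - 2 * χ (‖x‖ ^ 2) * Real.log (1 - r * ‖x‖ ^ 2) + Real.log (1 + nuf M z x) / 2
      = Real.log (1 - Y2f r z x) + (l (‖x‖ ^ 2) + 2 * Real.log (1 + r * ‖x‖ ^ 2)
      - 2 * χ (‖x‖ ^ 2) * Real.log (1 - r * ‖x‖ ^ 2)) + Real.log (1 + nuf M z x) / 2 := by ring
  rw [e, Real.exp_add, Real.exp_add, Real.exp_log hY]

theorem inharm_beta : nuf M z x / ((1 + nuf M z x) * ‖x‖ ^ 2) * ‖x‖ ^ 2 * (1 + nuf M z x)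
    = nuf M z x := by
  rcases inharm_hyE H with h | ⟨h, -⟩
  · rw [h.self_of_nhds]; simp
  · have h1 := H.hn.ne'
    have h2 := h.ne'
    generalize ‖x‖ ^ 2 = y at *
    field_simp

theorem inharm_nn : nuf M z x / ((1 + nuf M z x) * ‖x‖ ^ 2) * (1 + nuf M z x)
    = nuf M z x / ‖x‖ ^ 2 := by
  rcases inharm_hyE H with h | ⟨h, -⟩
  · rw [h.self_of_nhds]; simp
  · have := H.hn
    field_simp

/-- The three coefficients of `g₂`. -/
theorem inharm_coef (n cs kk : ℝ) :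
    kk * cs ^ 2 * gf n r M l z χ x e0 e0
      = kk * cs ^ 2 * (Cf n r M l z χ x ^ 2 * kf r M z χ x / √(1 - Y2f r z x)) *
        (1 - nuf M z x / ((1 + nuf M z x) * ‖x‖ ^ 2) * x 1 ^ 2) ∧
    kk * cs ^ 2 * gf n r M l z χ x (perp e0) (perp e0)
      = kk * cs ^ 2 * (Cf n r M l z χ x ^ 2 * kf r M z χ x / √(1 - Y2f r z x)) *
        (1 - nuf M z x / ((1 + nuf M z x) * ‖x‖ ^ 2) * x 0 ^ 2) ∧
    kk * cs ^ 2 * gf n r M l z χ x e0 (perp e0)
      = kk * cs ^ 2 * (Cf n r M l z χ x ^ 2 * kf r M z χ x / √(1 - Y2f r z x)) *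
        (nuf M z x / ((1 + nuf M z x) * ‖x‖ ^ 2) * (x 0 * x 1)) := by
  have i1 : ⟪e0, e0⟫ = 1 := by simp [e0]
  have i2 : ⟪perp e0, perp e0⟫ = 1 := by rw [inharm_perp]; simp [e0, perp]
  have i3 : ⟪e0, perp e0⟫ = 0 := by
    rw [real_inner_comm, inharm_perp]; simp [e0]
  have j1 : ⟪perp x, e0⟫ = -x 1 := by rw [inharm_perp]; simp [e0]
  have j2 : ⟪perp x, perp e0⟫ = x 0 := by rw [inharm_perp]; simp [e0, perp]
  unfold gf
  rw [i1, i2, i3, j1, j2]
  refine ⟨by ring, by ring, by ring⟩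

/-- The determinant. -/
theorem inharm_det {n cs kk : ℝ} (hcs : 0 < cs) (hkk : 0 < kk) :
    √((kk * cs ^ 2 * gf n r M l z χ x e0 e0) * (kk * cs ^ 2 * gf n r M l z χ x (perp e0) (perp e0))
      - (kk * cs ^ 2 * gf n r M l z χ x e0 (perp e0)) ^ 2)
      = kk * cs ^ 2 * (Cf n r M l z χ x ^ 2 * kf r M z χ x / √(1 - Y2f r z x)) /
        √(1 + nuf M z x) := by
  obtain ⟨a1, a2, a3⟩ := inharm_coef H n cs kk
  rw [a1, a2, a3]
  have hC : 0 < Cf n r M l z χ x := Real.exp_pos _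
  have hk := H.hk
  have hs : 0 < √(1 - Y2f r z x) := Real.sqrt_pos.2 (by have := H.hY; linarith)
  have hα : 0 < kk * cs ^ 2 * (Cf n r M l z χ x ^ 2 * kf r M z χ x / √(1 - Y2f r z x)) := by
    positivity
  have hw : 0 < √(1 + nuf M z x) := Real.sqrt_pos.2 H.hn
  have hw2 : √(1 + nuf M z x) ^ 2 = 1 + nuf M z x := Real.sq_sqrt H.hn.le
  have hb := inharm_beta H
  have hs2 := inharm_sq x
  have hn' := H.hn
  generalize kk * cs ^ 2 * (Cf n r M l z χ x ^ 2 * kf r M z χ x / √(1 - Y2f r z x)) = α at *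
  generalize nuf M z x / ((1 + nuf M z x) * ‖x‖ ^ 2) = β at *
  generalize ‖x‖ ^ 2 = y at *
  generalize √(1 + nuf M z x) = w at *
  generalize nuf M z x = ν at *
  have e : α * (1 - β * x 1 ^ 2) * (α * (1 - β * x 0 ^ 2)) - (α * (β * (x 0 * x 1))) ^ 2
      = (α / w) ^ 2 := by
    have h1 : (1 - β * y) * w ^ 2 = 1 := by rw [hw2]; linear_combination -hb
    have h2 : (α / w) ^ 2 = α ^ 2 * (1 - β * y) := by
      rw [div_pow, div_eq_iff (by positivity)]
      linear_combination -(α ^ 2) * h1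
    rw [h2, hs2]; ring
  rw [e, Real.sqrt_sq (by positivity)]

/-- The three coefficients of `T` and the right-hand side. -/
theorem inharm_T {n : ℕ} {cs kk : ℝ} (hn : 1 ≤ n) (hcs : 0 < cs) (hkk : 0 < kk) (D : ℝ)
    (hD : D = kk * cs ^ 2 * (Cf n r M l z χ x ^ 2 * kf r M z χ x / √(1 - Y2f r z x)) /
        √(1 + nuf M z x)) :
    cs ^ n * (inharm_tau r l χ (‖x‖ ^ 2) * (1 + nuf M z x / ‖x‖ ^ 2 * x 1 ^ 2))
      = (cs * Cf n r M l z χ x) ^ n * (kk * cs ^ 2 * gf n r M l z χ x (perp e0) (perp e0)) /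
        (D * (1 - ‖Yf r z x‖ ^ 2)) ∧
    -(cs ^ n * (inharm_tau r l χ (‖x‖ ^ 2) * (nuf M z x / ‖x‖ ^ 2 * (x 0 * x 1))))
      = -((cs * Cf n r M l z χ x) ^ n * (kk * cs ^ 2 * gf n r M l z χ x e0 (perp e0))) /
        (D * (1 - ‖Yf r z x‖ ^ 2)) ∧
    cs ^ n * (inharm_tau r l χ (‖x‖ ^ 2) * (1 + nuf M z x / ‖x‖ ^ 2 * x 0 ^ 2))
      = (cs * Cf n r M l z χ x) ^ n * (kk * cs ^ 2 * gf n r M l z χ x e0 e0) /
        (D * (1 - ‖Yf r z x‖ ^ 2)) ∧
    (n : ℝ) / 2 * (2 / (n * kk)) * (cs * Cf n r M l z χ x) ^ n / (cs * Cf n r M l z χ x) ^ 2 * D /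
        √(1 - ‖Yf r z x‖ ^ 2)
      = cs ^ n * (inharm_tau r l χ (‖x‖ ^ 2) * kf r M z χ x) := by
  obtain ⟨a1, a2, a3⟩ := inharm_coef H n cs kk
  rw [a1, a2, a3, inharm_Cpow H hn cs, inharm_nY H, hD]
  have hn0 : (0:ℝ) < n := by positivity
  have hC : 0 < Cf n r M l z χ x := Real.exp_pos _
  have hk := H.hk
  have hY : 0 < 1 - Y2f r z x := by have := H.hY; linarith
  have hs : 0 < √(1 - Y2f r z x) := Real.sqrt_pos.2 hY
  have hs' : √(1 - Y2f r z x) ^ 2 = 1 - Y2f r z x := Real.sq_sqrt hY.le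
  have hw : 0 < √(1 + nuf M z x) := Real.sqrt_pos.2 H.hn
  have hw2 : √(1 + nuf M z x) ^ 2 = 1 + nuf M z x := Real.sq_sqrt H.hn.le
  have hb := inharm_beta H
  have hnn := inharm_nn H
  have hs2 := inharm_sq x
  have hn' := H.hn
  have hτ : 0 < inharm_tau r l χ (‖x‖ ^ 2) := Real.exp_pos _
  generalize inharm_tau r l χ (‖x‖ ^ 2) = τ at *
  generalize nuf M z x / ((1 + nuf M z x) * ‖x‖ ^ 2) = β at *
  generalize nuf M z x / ‖x‖ ^ 2 = m at *
  generalize ‖x‖ ^ 2 = y at *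
  generalize √(1 + nuf M z x) = w at *
  generalize nuf M z x = ν at *
  generalize √(1 - Y2f r z x) = σ at *
  generalize Y2f r z x = Y2 at *
  generalize kf r M z χ x = k at *
  generalize Cf n r M l z χ x = C at *
  generalize x 0 = X at *
  generalize x 1 = b at *
  have hY' : 1 - Y2 ≠ 0 := hY.ne'
  refine ⟨?_, ?_, ?_, ?_⟩
  · have e : (kk * cs ^ 2 * (C ^ 2 * k / σ) / w * (1 - Y2)) ≠ 0 := by positivity
    rw [eq_div_iff e]
    have h1 : 1 + m * b ^ 2 = w ^ 2 * (1 - β * X ^ 2) := by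
      rw [hw2]; rw [← hnn]; linear_combination (-β * (1 + ν)) * hs2 + hb
    rw [h1]
    field_simp
  · have e : (kk * cs ^ 2 * (C ^ 2 * k / σ) / w * (1 - Y2)) ≠ 0 := by positivity
    rw [eq_div_iff e]
    have h1 : m * (X * b) = w ^ 2 * (β * (X * b)) := by
      rw [hw2, ← hnn]; ring
    rw [h1]
    field_simp
  · have e : (kk * cs ^ 2 * (C ^ 2 * k / σ) / w * (1 - Y2)) ≠ 0 := by positivity
    rw [eq_div_iff e]
    have h1 : 1 + m * X ^ 2 = w ^ 2 * (1 - β * b ^ 2) := by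
      rw [hw2]; rw [← hnn]; linear_combination (-β * (1 + ν)) * hs2 + hb
    rw [h1]
    field_simp
  · rw [← hs']
    field_simp

end Coef

/-! ### The components of the map -/

theorem inharm_Y1 (r : ℝ) (z : ℝ → ℝ) (x : W) :
    Yf r z x 1 = inharm_u r (‖x‖ ^ 2) * x 1 := by
  simp [Yf, inharm_u, e0]

theorem inharm_Y0 (r : ℝ) (z : ℝ → ℝ) (x : W) :
    Yf r z x 0 = inharm_u r (‖x‖ ^ 2) * (x 0 + z (‖x‖ ^ 2)) := by
  simp [Yf, inharm_u, e0]
  ring

section Comp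

variable {r : ℝ} {M l z χ : ℝ → ℝ} {x : W} (H : inharm_H r M l z χ x)

include H

theorem inharm_HY1 : inharm_HD (fun x => Yf r z x 1) x
    (2 * x 0 * inharm_u1 r (‖x‖ ^ 2) * x 1)
    (2 * x 1 * inharm_u1 r (‖x‖ ^ 2) * x 1 + inharm_u r (‖x‖ ^ 2)) := by
  have h := inharm_HD_mul (inharm_HD_rad (inharm_du (inharm_hp H).ne')) (inharm_HD_x1 x)
  rw [mul_zero, add_zero, mul_one] at h
  exact inharm_HD_congr h (Filter.Eventually.of_forall fun w => inharm_Y1 r z w)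

theorem inharm_HY0 : inharm_HD (fun x => Yf r z x 0) x
    (2 * x 0 * inharm_u1 r (‖x‖ ^ 2) * (x 0 + z (‖x‖ ^ 2))
      + inharm_u r (‖x‖ ^ 2) * (1 + 2 * x 0 * deriv z (‖x‖ ^ 2)))
    (2 * x 1 * inharm_u1 r (‖x‖ ^ 2) * (x 0 + z (‖x‖ ^ 2))
      + inharm_u r (‖x‖ ^ 2) * (0 + 2 * x 1 * deriv z (‖x‖ ^ 2))) := by
  have dz := (H.cz.differentiableAt (by simp)).hasDerivAt
  have h := inharm_HD_mul (inharm_HD_rad (inharm_du (inharm_hp H).ne'))
    (inharm_HD_add (inharm_HD_x0 x) (inharm_HD_rad dz))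
  exact inharm_HD_congr h (Filter.Eventually.of_forall fun w => inharm_Y0 r z w)

/-- The relations `K1`, `K2`, `K3`. -/
theorem inharm_K : ∃ τ1 : ℝ, HasDerivAt (inharm_tau r l χ) τ1 (‖x‖ ^ 2) ∧
    (τ1 * (4 * ‖x‖ ^ 2 * inharm_u1 r (‖x‖ ^ 2) + 2 * inharm_u r (‖x‖ ^ 2))
      + inharm_tau r l χ (‖x‖ ^ 2) * (8 * inharm_u1 r (‖x‖ ^ 2)
        + 4 * ‖x‖ ^ 2 * inharm_u2 r (‖x‖ ^ 2))
      = inharm_tau r l χ (‖x‖ ^ 2) * krf r M χ (‖x‖ ^ 2) * inharm_u r (‖x‖ ^ 2)) ∧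
    z (‖x‖ ^ 2) * (2 * τ1 * inharm_u r (‖x‖ ^ 2)
      + 4 * inharm_tau r l χ (‖x‖ ^ 2) * inharm_u1 r (‖x‖ ^ 2)
      - inharm_tau r l χ (‖x‖ ^ 2) * inharm_u r (‖x‖ ^ 2) * M (‖x‖ ^ 2)) = 0 ∧
    deriv z (‖x‖ ^ 2) * (2 * τ1 * inharm_u r (‖x‖ ^ 2)
      + 4 * inharm_tau r l χ (‖x‖ ^ 2) * inharm_u1 r (‖x‖ ^ 2)
      - inharm_tau r l χ (‖x‖ ^ 2) * inharm_u r (‖x‖ ^ 2) * M (‖x‖ ^ 2)) = 0 := by
  have hp := (inharm_hp H).ne'
  have hm := (inharm_hm H).ne'
  have dl : HasDerivAt l (M (‖x‖ ^ 2) / 2) (‖x‖ ^ 2) := by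
    have h1 := (H.cl.differentiableAt (by simp)).hasDerivAt
    rwa [H.dl.self_of_nhds] at h1
  have dτ := inharm_dtau dl (H.cχ.differentiableAt (by simp)) hp hm
  have halt := H.alt
  refine ⟨_, dτ, ?_, ?_, ?_⟩
  · unfold krf inharm_u inharm_u1 inharm_u2
    generalize deriv (fun t => χ t * Real.log (1 - r * t)) (‖x‖ ^ 2) = q
    generalize inharm_tau r l χ (‖x‖ ^ 2) = τ
    generalize M (‖x‖ ^ 2) = m
    generalize ‖x‖ ^ 2 = y at *
    field_simp
    ring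
  · rcases halt with h | h
    · rw [h.self_of_nhds]; ring
    · have h0 : deriv (fun t => χ t * Real.log (1 - r * t)) (‖x‖ ^ 2) = 0 := by
        have : (fun t => χ t * Real.log (1 - r * t)) =ᶠ[𝓝 (‖x‖ ^ 2)] fun _ => 0 := by
          filter_upwards [h] with t ht
          rw [ht, zero_mul]
        rw [this.deriv_eq, deriv_const]
      rw [h0]
      unfold inharm_u inharm_u1
      generalize inharm_tau r l χ (‖x‖ ^ 2) = τ
      generalize M (‖x‖ ^ 2) = m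
      generalize z (‖x‖ ^ 2) = z0
      generalize ‖x‖ ^ 2 = y at *
      field_simp
      ring
  · rcases halt with h | h
    · have : z =ᶠ[𝓝 (‖x‖ ^ 2)] fun _ => 0 := h
      rw [this.deriv_eq, deriv_const]; ring
    · have h0 : deriv (fun t => χ t * Real.log (1 - r * t)) (‖x‖ ^ 2) = 0 := by
        have : (fun t => χ t * Real.log (1 - r * t)) =ᶠ[𝓝 (‖x‖ ^ 2)] fun _ => 0 := by
          filter_upwards [h] with t ht
          rw [ht, zero_mul]
        rw [this.deriv_eq, deriv_const]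
      rw [h0]
      unfold inharm_u inharm_u1
      generalize inharm_tau r l χ (‖x‖ ^ 2) = τ
      generalize M (‖x‖ ^ 2) = m
      generalize deriv z (‖x‖ ^ 2) = z0
      generalize ‖x‖ ^ 2 = y at *
      field_simp
      ring

end Comp

theorem t_INHARM : S_INHARM := by
  intro hHYP hTEN hK d r M l z χ U U' c cs kk w0 p hd hr hcs hkk hU hp hall hU' hYU hc hcp hU1 hcc
  have HH : ∀ x ∈ U, inharm_H r M l z χ x := by
    intro x hx
    obtain ⟨a1, a2, a3, a4, a5, a6, a7, a8, a9, a10, a11⟩ := hall x hx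
    exact ⟨a1, a2, a3, a4, a5, a6, hr, a7, a8, a9, a10, a11⟩
  set g2 : W → W → W → ℝ := fun x a b => kk * cs ^ 2 * gf d r M l z χ x a b with hg2
  have hmet : IsMet g2 U := by
    refine ⟨?_, ?_, ?_, ?_, ?_⟩
    · intro y u u' v
      simp only [hg2, gf]
      rw [inner_add_left, inner_add_right]; ring
    · intro y c u v
      simp only [hg2, gf]
      rw [real_inner_smul_left, real_inner_smul_right]; ring
    · intro y u v
      simp only [hg2, gf]
      rw [real_inner_comm u v]; ring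
    · intro y hy u hu
      exact mul_pos (by positivity) (inharm_pos (HH y hy) d u hu)
    · intro u v y hy
      exact (contDiffAt_const.mul (inharm_cg (HH y hy) d u v)).contDiffWithinAt
  have hD : ∀ x ∈ U, √(g2 x e0 e0 * g2 x (perp e0) (perp e0) - g2 x e0 (perp e0) ^ 2)
      = kk * cs ^ 2 * (Cf d r M l z χ x ^ 2 * kf r M z χ x / √(1 - Y2f r z x)) /
        √(1 + nuf M z x) := fun x hx => inharm_det (HH x hx) hcs hkk
  refine hK hHYP hTEN d (fun x => cs * Cf d r M l z χ x) c g2 U U' (Yf r z) p w0 (2 / (d * kk))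
    (fun x => √(g2 x e0 e0 * g2 x (perp e0) (perp e0) - g2 x e0 (perp e0) ^ 2))
    (fun x => cs ^ d * (inharm_tau r l χ (‖x‖ ^ 2) * (1 + nuf M z x / ‖x‖ ^ 2 * x 1 ^ 2)))
    (fun x => -(cs ^ d * (inharm_tau r l χ (‖x‖ ^ 2) * (nuf M z x / ‖x‖ ^ 2 * (x 0 * x 1)))))
    (fun x => cs ^ d * (inharm_tau r l χ (‖x‖ ^ 2) * (1 + nuf M z x / ‖x‖ ^ 2 * x 0 ^ 2)))
    hd hU hU' hp (hYU _ hp) hmet
    (fun x hx => (contDiffAt_const.mul (inharm_cC (HH x hx) d)).contDiffWithinAt) hc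
    (fun x _ => mul_pos hcs (Real.exp_pos _)) hcp
    (fun x hx => (inharm_cY (HH x hx)).contDiffWithinAt) hU1 hYU hcc (fun x _ => rfl)
    (fun x hx => (inharm_T (HH x hx) hd hcs hkk _ (hD x hx)).1)
    (fun x hx => (inharm_T (HH x hx) hd hcs hkk _ (hD x hx)).2.1)
    (fun x hx => (inharm_T (HH x hx) hd hcs hkk _ (hD x hx)).2.2.1) ?_
  have H := HH p.2 hp
  have hRHS := (inharm_T H hd hcs hkk _ (hD _ hp)).2.2.2
  obtain ⟨τ1, dτ, K1, K2, K3⟩ := inharm_K H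
  obtain ⟨n0, n1, dn, F1, F2⟩ := inharm_nu χ r H.cM H.cz H.hE
  have hUn : U ∈ 𝓝 p.2 := hU.mem_nhds hp
  have hτ := inharm_HD_rad dτ
  have hu := inharm_HD_rad (inharm_du (inharm_hp H).ne')
  have hu1 := inharm_HD_rad (inharm_du1 (inharm_hp H).ne')
  have hz := inharm_HD_rad ((H.cz.differentiableAt (by simp)).hasDerivAt)
  have hz1 := inharm_HD_rad (((inharm_cd H.cz).differentiableAt (by simp)).hasDerivAt)
  have x0 := inharm_HD_x0 p.2
  have x1 := inharm_HD_x1 p.2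
  have c0 := inharm_HD_const (cs ^ d) p.2
  have c2 := inharm_HD_const 2 p.2
  have c1 := inharm_HD_const 1 p.2
  have hsq := inharm_sq p.2
  intro j
  fin_cases j
  · -- the component 0
    have A0 := inharm_HD_mul c0 (inharm_HD_mul hτ (inharm_HD_add (inharm_HD_add
      (inharm_HD_mul (inharm_HD_mul (inharm_HD_mul c2 x0) hu1) (inharm_HD_add x0 hz))
      (inharm_HD_mul hu (inharm_HD_add c1 (inharm_HD_mul (inharm_HD_mul c2 x0) hz1))))
      (inharm_HD_mul (inharm_HD_mul dn (inharm_HD_mul x1 x1)) hu)))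
    have B0 := inharm_HD_mul c0 (inharm_HD_mul hτ (inharm_HD_sub (inharm_HD_add
      (inharm_HD_mul (inharm_HD_mul (inharm_HD_mul c2 x1) hu1) (inharm_HD_add x0 hz))
      (inharm_HD_mul (inharm_HD_mul (inharm_HD_mul c2 hu) x1) hz1))
      (inharm_HD_mul (inharm_HD_mul dn (inharm_HD_mul x0 x1)) hu)))
    have E0 := inharm_HD_congr (G := fun x =>
      cs ^ d * (inharm_tau r l χ (‖x‖ ^ 2) * (1 + nuf M z x / ‖x‖ ^ 2 * x 1 ^ 2)) *
        fderiv ℝ (fun w => Yf r z w 0) x e0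
      + -(cs ^ d * (inharm_tau r l χ (‖x‖ ^ 2) * (nuf M z x / ‖x‖ ^ 2 * (x 0 * x 1)))) *
        fderiv ℝ (fun w => Yf r z w 0) x (perp e0)) A0 (by
      filter_upwards [hUn] with x hx
      rw [inharm_HD_e0 (inharm_HY0 (HH x hx)), inharm_HD_e1 (inharm_HY0 (HH x hx))]
      ring)
    have E1 := inharm_HD_congr (G := fun x =>
      -(cs ^ d * (inharm_tau r l χ (‖x‖ ^ 2) * (nuf M z x / ‖x‖ ^ 2 * (x 0 * x 1)))) *
        fderiv ℝ (fun w => Yf r z w 0) x e0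
      + cs ^ d * (inharm_tau r l χ (‖x‖ ^ 2) * (1 + nuf M z x / ‖x‖ ^ 2 * x 0 ^ 2)) *
        fderiv ℝ (fun w => Yf r z w 0) x (perp e0)) B0 (by
      filter_upwards [hUn] with x hx
      rw [inharm_HD_e0 (inharm_HY0 (HH x hx)), inharm_HD_e1 (inharm_HY0 (HH x hx))]
      ring)
    have fin := inharm_alg2 hsq K1 K2 K3 rfl F2
    simp only [Fin.zero_eta, Fin.isValue]
    rw [inharm_HD_e0 E0, inharm_HD_e1 E1, hRHS, inharm_Y0]
    linear_combination cs ^ d * fin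
  · have A0 := inharm_HD_mul c0 (inharm_HD_mul hτ (inharm_HD_sub
      (inharm_HD_mul (inharm_HD_mul (inharm_HD_mul c2 x0) x1) hu1)
      (inharm_HD_mul (inharm_HD_mul dn (inharm_HD_mul x0 x1)) hu)))
    have B0 := inharm_HD_mul c0 (inharm_HD_mul hτ (inharm_HD_add (inharm_HD_add
      (inharm_HD_mul (inharm_HD_mul (inharm_HD_mul c2 x1) x1) hu1) hu)
      (inharm_HD_mul (inharm_HD_mul dn (inharm_HD_mul x0 x0)) hu)))
    have E0 := inharm_HD_congr (G := fun x =>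
      cs ^ d * (inharm_tau r l χ (‖x‖ ^ 2) * (1 + nuf M z x / ‖x‖ ^ 2 * x 1 ^ 2)) *
        fderiv ℝ (fun w => Yf r z w 1) x e0
      + -(cs ^ d * (inharm_tau r l χ (‖x‖ ^ 2) * (nuf M z x / ‖x‖ ^ 2 * (x 0 * x 1)))) *
        fderiv ℝ (fun w => Yf r z w 1) x (perp e0)) A0 (by
      filter_upwards [hUn] with x hx
      rw [inharm_HD_e0 (inharm_HY1 (HH x hx)), inharm_HD_e1 (inharm_HY1 (HH x hx))]
      ring)
    have E1 := inharm_HD_congr (G := fun x =>
      -(cs ^ d * (inharm_tau r l χ (‖x‖ ^ 2) * (nuf M z x / ‖x‖ ^ 2 * (x 0 * x 1)))) *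
        fderiv ℝ (fun w => Yf r z w 1) x e0
      + cs ^ d * (inharm_tau r l χ (‖x‖ ^ 2) * (1 + nuf M z x / ‖x‖ ^ 2 * x 0 ^ 2)) *
        fderiv ℝ (fun w => Yf r z w 1) x (perp e0)) B0 (by
      filter_upwards [hUn] with x hx
      rw [inharm_HD_e0 (inharm_HY1 (HH x hx)), inharm_HD_e1 (inharm_HY1 (HH x hx))]
      ring)
    have fin := inharm_alg1 hsq K1 F1
    simp only [Fin.mk_one, Fin.isValue]
    rw [inharm_HD_e0 E0, inharm_HD_e1 E1, hRHS, inharm_Y1]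
    linear_combination cs ^ d * fin

end Pool.Agent.Helper473.LY
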