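/-
PROJECT LY (MP_dbccd7_gt, helper473): Lawson-Yau problem. Job: prove theorem t_SCALE : S_SCALE.
Setup: cd /workdir/pool/outputs/live && git fetch -q && for f in Defs Geo Fam Stmts; do mkdir -p /workdir/pool/Pool/Agent/Helper473/LY; git show origin/helper473:Pool/Agent/Helper473/LY/$f.lean > /workdir/pool/Pool/Agent/Helper473/LY/$f.lean; done
 mkdir -p /workdir/pool/Pool/Agent/H234R3 && cp Pool/Agent/H234R3/Defs.lean Pool/Agent/H234R3/CvxDefs.lean /workdir/pool/Pool/Agent/H234R3/ ; cd /workdir/pool && lake build Pool.Agent.Helper473.LY.Stmts
The definitions are in Geo.lean and Fam.lean, the statements in Stmts.lean; the paper is papers id 140.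
Your file: Pool/Agent/Helper473/LY/T_SCALE.lean. Auxiliary lemmas: names starting with scale_. Statement unchanged, no sorry.
RULES.md item 2: no straight double quote, no banned words. If the statement is false tell helper473 at once.

The Christoffel symbols do not change (multiply the Koszul formula by b), dd and der are linear. Small task.
-/
import Pool.Agent.Helper473.LY.Stmts

set_option autoImplicit false

open scoped Manifold ContDiff Topology RealInnerProductSpace
open Module

namespace Pool.Agent.Helper473.LY

open Pool.Agent.H234R3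

theorem scale_der {X : Type*} [NormedAddCommGroup X] [NormedSpace ℝ X] (c : ℝ) (U : X → ℝ)
    (y v : X) : der (fun z => c * U z) y v = c * der U y v := by
  unfold der
  have h : (fun z => c * U z) = c • U := by
    funext z
    rw [Pi.smul_apply, smul_eq_mul]
  rw [h, fderiv_const_smul_field]
  rfl

theorem scale_dd {X : Type*} [NormedAddCommGroup X] [NormedSpace ℝ X] (c : ℝ) (U : X → ℝ)
    (y v : X) : dd (fun z => c * U z) y v = c * dd U y v := by
  unfold dd
  have h : (deriv fun t : ℝ => c * U (y + t • v)) =
      fun t => c * deriv (fun t : ℝ => U (y + t • v)) t := by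
    funext t
    exact deriv_const_mul_field c
  rw [h]
  exact deriv_const_mul_field c

theorem scale_christoffel {X : Type*} [NormedAddCommGroup X] [NormedSpace ℝ X] (b : ℝ)
    (g : X → X → X → ℝ) (y : X) (Γ : X → X → X) (h : IsChristoffel g y Γ) :
    IsChristoffel (fun z u v => b * g z u v) y Γ := by
  intro u v w
  have h1 := h u v w
  change b * g y (Γ u v) w = koszul (fun z u v => b * g z u v) y u v w
  rw [h1]
  unfold koszul
  rw [scale_der, scale_der, scale_der]
  ring

theorem t_SCALE : S_SCALE := by
  intro C g x a b ha hb _ hG
  obtain ⟨hC, Γ, hd, hch, hneg, hpos⟩ := hG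
  refine ⟨mul_pos ha hC, Γ, hd, hch.mono fun z hz => scale_christoffel b g z (Γ z) hz, ?_, ?_⟩
  · intro u v huv
    have h1 := hneg u v huv
    change b * g x (riem Γ x u v v) u < 0
    exact mul_neg_of_pos_of_neg hb h1
  · intro u hu
    have h1 := hpos u hu
    rw [scale_dd, scale_der, ← mul_sub]
    exact mul_pos ha h1

end Pool.Agent.Helper473.LY
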